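import Mathlib

/-!
# Equivalence of idempotents (helper665)
-/

namespace Pool.Agent.Helper665_GA

/-- Equivalence of idempotents. -/
def IEq {A : Type*} [NonUnitalRing A] (p q : A) : Prop := ∃ x y, x * y = p ∧ y * x = q

theorem IEq.symm {A : Type*} [NonUnitalRing A] {p q : A} (h : IEq p q) : IEq q p := by
  obtain ⟨x, y, h1, h2⟩ := h
  exact ⟨y, x, h2, h1⟩

theorem IEq.refl {A : Type*} [NonUnitalRing A] {p : A} (h : p * p = p) : IEq p p := ⟨p, p, h, h⟩

theorem IEq.trans {A : Type*} [NonUnitalRing A] {p q r : A} (hp : p * p = p) (hr : r * r = r)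
    (h : IEq p q) (h' : IEq q r) : IEq p r := by
  obtain ⟨x, y, h1, h2⟩ := h
  obtain ⟨z, w, h3, h4⟩ := h'
  refine ⟨x * z, w * y, ?_, ?_⟩
  · calc x * z * (w * y) = x * (z * w) * y := by noncomm_ring
      _ = x * (y * x) * y := by rw [h3, h2]
      _ = (x * y) * (x * y) := by noncomm_ring
      _ = p := by rw [h1, hp]
  · calc w * y * (x * z) = w * (y * x) * z := by noncomm_ring
      _ = w * (z * w) * z := by rw [h3, h2]
      _ = (w * z) * (w * z) := by noncomm_ring
      _ = r := by rw [h4, hr]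

theorem IEq.map {A B : Type*} [NonUnitalRing A] [NonUnitalRing B] {F : Type*} [FunLike F A B]
    [NonUnitalRingHomClass F A B] (f : F) {p q : A} (h : IEq p q) : IEq (f p) (f q) := by
  obtain ⟨x, y, h1, h2⟩ := h
  exact ⟨f x, f y, by rw [← map_mul, h1], by rw [← map_mul, h2]⟩

end Pool.Agent.Helper665_GA
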