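import Pool.Agent.Helper665_GA.Sqrt
import Pool.Agent.Helper665_GA.IEq

/-!
# Exact intertwining: algebra isomorphisms of locally matricial algebras give star isomorphisms
(helper665)
-/

namespace Pool.Agent.Helper665_GA

open Unitization

set_option linter.unusedSectionVars false

/-- A finite system of matrix units compatible with the involution. -/
structure MatSys (A : Type*) [NonUnitalRing A] [StarRing A] where
  /-- the index set -/
  ι : Type
  [fin : Fintype ι]
  [dec : DecidableEq ι]
  /-- the set of blocks -/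
  W : Type
  /-- the block of an index -/
  blk : ι → W
  /-- the matrix units -/
  m : ι → ι → A
  off : ∀ α β, blk α ≠ blk β → m α β = 0
  mul_ne : ∀ α β γ δ, β ≠ γ → m α β * m γ δ = 0
  mul_eq : ∀ α β γ, blk α = blk β → blk β = blk γ → m α β * m β γ = m α γ
  star_m : ∀ α β, star (m α β) = m β α

attribute [instance] MatSys.fin MatSys.dec

section basics

variable {A B : Type*} [NonUnitalRing A] [StarRing A] [Module ℂ A] [IsScalarTower ℂ A A]
  [SMulCommClass ℂ A A] [StarModule ℂ A]
  [NonUnitalRing B] [StarRing B] [Module ℂ B] [IsScalarTower ℂ B B]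
  [SMulCommClass ℂ B B] [StarModule ℂ B]

namespace MatSys

variable (M : MatSys A)

omit [Module ℂ A] [IsScalarTower ℂ A A] [SMulCommClass ℂ A A] [StarModule ℂ A] in
theorem mul_right' {γ δ : M.ι} (h : M.blk γ = M.blk δ) (α : M.ι) :
    M.m α γ * M.m γ δ = M.m α δ := by
  by_cases h1 : M.blk α = M.blk γ
  · exact M.mul_eq α γ δ h1 h
  · rw [M.off α γ h1, zero_mul, M.off α δ (by rw [← h]; exact h1)]

/-- The span of the matrix units. -/
def alg : NonUnitalSubalgebra ℂ A where
  carrier := Submodule.span ℂ (Set.range fun x : M.ι × M.ι => M.m x.1 x.2)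
  add_mem' ha hb := Submodule.add_mem _ ha hb
  zero_mem' := Submodule.zero_mem _
  smul_mem' r _ ha := Submodule.smul_mem _ r ha
  mul_mem' := by
    intro a b ha hb
    induction ha using Submodule.span_induction with
    | mem a ha =>
      obtain ⟨⟨α, β⟩, rfl⟩ := ha
      induction hb using Submodule.span_induction with
      | mem b hb =>
        obtain ⟨⟨γ, δ⟩, rfl⟩ := hb
        show M.m α β * M.m γ δ ∈ Submodule.span ℂ _
        by_cases h : β = γ
        · subst h
          by_cases h1 : M.blk α = M.blk β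
          · by_cases h2 : M.blk β = M.blk δ
            · rw [M.mul_eq α β δ h1 h2]
              exact Submodule.subset_span ⟨(α, δ), rfl⟩
            · rw [M.off β δ h2, mul_zero]; exact Submodule.zero_mem _
          · rw [M.off α β h1, zero_mul]; exact Submodule.zero_mem _
        · rw [M.mul_ne _ _ _ _ h]; exact Submodule.zero_mem _
      | zero => rw [mul_zero]; exact Submodule.zero_mem _
      | add b c _ _ hb hc => rw [mul_add]; exact Submodule.add_mem _ hb hc
      | smul r b _ hb => rw [mul_smul_comm]; exact Submodule.smul_mem _ r hb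
    | zero => rw [zero_mul]; exact Submodule.zero_mem _
    | add a c _ _ ha hc => rw [add_mul]; exact Submodule.add_mem _ ha hc
    | smul r a _ ha => rw [smul_mul_assoc]; exact Submodule.smul_mem _ r ha

theorem m_mem (α β : M.ι) : M.m α β ∈ M.alg := Submodule.subset_span ⟨(α, β), rfl⟩

theorem alg_induction {P : A → Prop} (hm : ∀ α β, P (M.m α β)) (h0 : P 0)
    (ha : ∀ a b, P a → P b → P (a + b)) (hs : ∀ (r : ℂ) a, P a → P (r • a)) {a : A}
    (h : a ∈ M.alg) : P a := by
  change a ∈ Submodule.span ℂ _ at h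
  induction h using Submodule.span_induction with
  | mem a h =>
    obtain ⟨⟨α, β⟩, rfl⟩ := h
    exact hm α β
  | zero => exact h0
  | add a b _ _ h1 h2 => exact ha a b h1 h2
  | smul r a _ h1 => exact hs r a h1

theorem star_mem {a : A} (h : a ∈ M.alg) : star a ∈ M.alg := by
  refine M.alg_induction (P := fun a => star a ∈ M.alg) ?_ ?_ ?_ ?_ h
  · intro α β
    rw [M.star_m]; exact M.m_mem β α
  · rw [star_zero]; exact zero_mem _
  · intro a b ha hb
    rw [star_add]; exact add_mem ha hb
  · intro r a ha
    rw [star_smul]; exact M.alg.smul_mem _ ha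

theorem alg_le {N : NonUnitalSubalgebra ℂ A} (h : ∀ α β, M.m α β ∈ N) : M.alg ≤ N := by
  intro a ha
  exact M.alg_induction (P := fun a => a ∈ N) h (zero_mem _) (fun a b ha hb => add_mem ha hb)
    (fun r a ha => N.smul_mem r ha) ha

instance : Module.Finite ℂ M.alg :=
  Module.Finite.span_of_finite ℂ (Set.finite_range fun x : M.ι × M.ι => M.m x.1 x.2)

/-- Elements of the unitization over the span are integral. -/
theorem isIntegral {a : A} (h : a ∈ M.alg) (c : ℂ) :
    IsIntegral ℂ (Unitization.inl c + Unitization.inr a : Unitization ℂ A) := by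
  have : Module.Finite ℂ (Unitization ℂ M.alg) := by
    let f : (ℂ × M.alg) →ₗ[ℂ] Unitization ℂ M.alg :=
      { toFun := fun x => Unitization.inl x.1 + Unitization.inr x.2
        map_add' := fun x y => by
          rw [Prod.fst_add, Prod.snd_add, Unitization.inl_add, Unitization.inr_add]; abel
        map_smul' := fun r x => by
          rw [Prod.smul_fst, Prod.smul_snd, Unitization.inr_smul, Unitization.inl_smul,
            RingHom.id_apply, smul_add] }
    apply Module.Finite.of_surjective f
    intro x
    refine ⟨(x.fst, x.snd), ?_⟩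
    exact Unitization.inl_fst_add_inr_snd_eq x
  have h1 : IsIntegral ℂ (Unitization.inl c + Unitization.inr (⟨a, h⟩ : M.alg) :
    Unitization ℂ M.alg) := Algebra.IsIntegral.isIntegral _
  let φ' : M.alg →ₙₐ[ℂ] Unitization ℂ A :=
    (Unitization.inrNonUnitalAlgHom ℂ A).comp (NonUnitalSubalgebraClass.subtype M.alg)
  let g : Unitization ℂ M.alg →ₐ[ℂ] Unitization ℂ A := Unitization.lift φ'
  have h2 := h1.map g
  have h3 : g (Unitization.inl c + Unitization.inr (⟨a, h⟩ : M.alg))
      = (Unitization.inl c + Unitization.inr a : Unitization ℂ A) := by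
    rw [map_add]
    congr 1
    · have : (Unitization.inl c : Unitization ℂ M.alg) = algebraMap ℂ _ c := rfl
      rw [this, AlgHom.commutes]; rfl
    · have h5 := DFunLike.congr_fun (Unitization.lift.symm_apply_apply φ') (⟨a, h⟩ : M.alg)
      rw [Unitization.lift_symm_apply_apply] at h5
      exact h5
  rwa [h3] at h2

omit [IsScalarTower ℂ A A] [SMulCommClass ℂ A A] [StarModule ℂ A]
  [IsScalarTower ℂ B B] [SMulCommClass ℂ B B] [StarModule ℂ B] in
/-- The image of a system of matrix units under a homomorphism preserving the involution of the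
matrix units. -/
def map (f : A →ₙₐ[ℂ] B) (h : ∀ α β, f (star (M.m α β)) = star (f (M.m α β))) : MatSys B where
  ι := M.ι
  W := M.W
  blk := M.blk
  m α β := f (M.m α β)
  off α β hb := by rw [M.off α β hb, map_zero]
  mul_ne α β γ δ hb := by rw [← map_mul, M.mul_ne α β γ δ hb, map_zero]
  mul_eq α β γ h1 h2 := by rw [← map_mul, M.mul_eq α β γ h1 h2]
  star_m α β := by rw [← h, M.star_m]

end MatSys

/-- Conjugation by an invertible element of the unitization. -/
def conjHom (u u' : Unitization ℂ A) (h : u' * u = 1) : A →ₙₐ[ℂ] A where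
  toFun a := (u * (a : Unitization ℂ A) * u').snd
  map_smul' r a := by
    rw [Unitization.inr_smul, mul_smul_comm, smul_mul_assoc, Unitization.snd_smul]; rfl
  map_zero' := by simp
  map_add' a b := by rw [Unitization.inr_add, mul_add, add_mul, Unitization.snd_add]
  map_mul' a b := by
    have h1 : u * ((a * b : A) : Unitization ℂ A) * u'
        = (u * (a : Unitization ℂ A) * u') * (u * (b : Unitization ℂ A) * u') := by
      rw [Unitization.inr_mul]
      have : u * (a : Unitization ℂ A) * u' * (u * (b : Unitization ℂ A) * u')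
          = u * (a : Unitization ℂ A) * (u' * u) * (b : Unitization ℂ A) * u' := by noncomm_ring
      rw [this, h]; noncomm_ring
    have h2 : ∀ a : A, (u * (a : Unitization ℂ A) * u').fst = 0 := by
      intro a; simp
    rw [h1, Unitization.snd_mul, h2, h2, zero_smul, zero_smul, zero_add, zero_add]

omit [StarModule ℂ A] [StarRing A] in
theorem inr_conjHom (u u' : Unitization ℂ A) (h : u' * u = 1) (a : A) :
    ((conjHom u u' h a : A) : Unitization ℂ A) = u * (a : Unitization ℂ A) * u' := by
  ext
  · simp
  · rfl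

omit [StarModule ℂ A] [StarRing A] in
theorem conjHom_conjHom (u u' : Unitization ℂ A) (h : u' * u = 1) (h' : u * u' = 1) (a : A) :
    conjHom u' u h' (conjHom u u' h a) = a := by
  apply Unitization.inr_injective (R := ℂ)
  rw [inr_conjHom, inr_conjHom]
  have : u' * (u * (a : Unitization ℂ A) * u') * u
      = (u' * u) * (a : Unitization ℂ A) * (u' * u) := by noncomm_ring
  rw [this, h, one_mul, mul_one]

end basics

section main

variable {A B : Type*} [NonUnitalRing A] [StarRing A] [Module ℂ A] [IsScalarTower ℂ A A]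
  [SMulCommClass ℂ A A] [StarModule ℂ A]
  [NonUnitalRing B] [StarRing B] [Module ℂ B] [IsScalarTower ℂ B B]
  [SMulCommClass ℂ B B] [StarModule ℂ B]

omit [StarModule ℂ A] [StarRing A] in
theorem conjHom_IEq (u u' : Unitization ℂ A) (h : u' * u = 1) {p : A} (hp : p * p = p) :
    IEq (conjHom u u' h p) p := by
  have h1 : ∀ x : Unitization ℂ A, (x * (p : Unitization ℂ A)).fst = 0 := by intro x; simp
  have h2 : ∀ x : Unitization ℂ A, ((p : Unitization ℂ A) * x).fst = 0 := by intro x; simp
  have e1 : (((u * (p : Unitization ℂ A)).snd : A) : Unitization ℂ A)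
      = u * (p : Unitization ℂ A) := by
    ext
    · rw [h1]; simp
    · rfl
  have e2 : ((((p : Unitization ℂ A) * u').snd : A) : Unitization ℂ A)
      = (p : Unitization ℂ A) * u' := by
    ext
    · rw [h2]; simp
    · rfl
  have e3 : (p : Unitization ℂ A) * p = p := by rw [← Unitization.inr_mul, hp]
  refine ⟨(u * (p : Unitization ℂ A)).snd, ((p : Unitization ℂ A) * u').snd, ?_, ?_⟩
  · apply Unitization.inr_injective (R := ℂ)
    rw [Unitization.inr_mul, e1, e2, inr_conjHom]
    calc u * (p : Unitization ℂ A) * ((p : Unitization ℂ A) * u')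
        = u * ((p : Unitization ℂ A) * p) * u' := by noncomm_ring
      _ = _ := by rw [e3]
  · apply Unitization.inr_injective (R := ℂ)
    rw [Unitization.inr_mul, e1, e2]
    calc (p : Unitization ℂ A) * u' * (u * (p : Unitization ℂ A))
        = (p : Unitization ℂ A) * (u' * u) * p := by noncomm_ring
      _ = _ := by rw [h, mul_one, e3]

theorem commute_aeval {R : Type*} [Ring R] [Algebra ℂ R] {a H : R} (h : a * H = H * a)
    (p : Polynomial ℂ) : a * Polynomial.aeval H p = Polynomial.aeval H p * a := by
  induction p using Polynomial.induction_on' with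
  | add p q hp hq => rw [map_add, mul_add, add_mul, hp, hq]
  | monomial n c =>
    rw [Polynomial.aeval_monomial]
    have h1 : a * H ^ n = H ^ n * a := (show Commute a H from h).pow_right n
    rw [← mul_assoc, ← Algebra.commutes, mul_assoc, h1, mul_assoc]

/-- Positive invertible algebraic elements have square roots in the unitization. -/
theorem root_core {C : Type*} [NonUnitalCStarAlgebra C] [PartialOrder (Unitization ℂ C)]
    [StarOrderedRing (Unitization ℂ C)] (j : A →⋆ₙₐ[ℂ] C)
    (hj : Function.Injective j) (H : Unitization ℂ A)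
    (h0 : 0 ≤ Unitization.starMap j H) (hu : IsUnit (Unitization.starMap j H))
    (hint : IsIntegral ℂ H) :
    ∃ k k' : Unitization ℂ A, k * k = H ∧ star k = k ∧ k * k' = 1 ∧ k' * k = 1 ∧
      (∀ a, a * H = H * a → a * k = k * a) := by
  set J : Unitization ℂ A →⋆ₐ[ℂ] Unitization ℂ C := Unitization.starMap j with hJ
  have hJi : Function.Injective J := Unitization.starMap_injective hj
  obtain ⟨q, hq1, hq2⟩ := hint
  have hq0 : q ≠ 0 := hq1.ne_zero
  have hq3 : Polynomial.aeval (J H) q = 0 := by
    have : Polynomial.aeval H q = 0 := hq2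
    have h5 := congrArg J this
    rw [map_zero] at h5
    rw [← h5]
    exact Polynomial.aeval_algHom_apply (J : Unitization ℂ A →ₐ[ℂ] Unitization ℂ C) H q
  obtain ⟨p, p', h1, h2, h3⟩ := exists_sqrt_poly h0 hu q hq0 hq3
  have hJp : ∀ r : Polynomial ℂ, J (Polynomial.aeval H r) = Polynomial.aeval (J H) r := fun r =>
    (Polynomial.aeval_algHom_apply (J : Unitization ℂ A →ₐ[ℂ] Unitization ℂ C) H r).symm
  refine ⟨Polynomial.aeval H p, Polynomial.aeval H p', ?_, ?_, ?_, ?_, ?_⟩
  · apply hJi; rw [map_mul, hJp, h1]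
  · apply hJi; rw [map_star, hJp, h2]
  · apply hJi; rw [map_mul, hJp, hJp, h3, map_one]
  · apply hJi
    rw [map_mul, hJp, hJp, map_one, ← h3, ← map_mul, mul_comm, map_mul]
  · intro a ha
    exact commute_aeval ha p

/-- Positive invertible elements given as sums of squares have square roots in the
unitization. -/
theorem exists_root {C : Type*} [NonUnitalCStarAlgebra C] (j : A →⋆ₙₐ[ℂ] C)
    (hj : Function.Injective j) {ι κ : Type*} (s : Finset ι) (x : ι → Unitization ℂ A)
    (hx : ∑ i ∈ s, x i = 1) (s' : Finset κ) (y : κ → Unitization ℂ A) (H : Unitization ℂ A)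
    (hH : H = ∑ i ∈ s, star (x i) * x i + ∑ i ∈ s', star (y i) * y i)
    (hint : IsIntegral ℂ H) :
    ∃ k k' : Unitization ℂ A, k * k = H ∧ star k = k ∧ k * k' = 1 ∧ k' * k = 1 ∧
      (∀ a, a * H = H * a → a * k = k * a) := by
  classical
  let _ := CStarAlgebra.spectralOrder (Unitization ℂ C)
  have _ := CStarAlgebra.spectralOrderedRing (Unitization ℂ C)
  set J : Unitization ℂ A →⋆ₐ[ℂ] Unitization ℂ C := Unitization.starMap j with hJ
  have hJi : Function.Injective J := Unitization.starMap_injective hj
  have hJH : J H = ∑ i ∈ s, star (J (x i)) * J (x i) + ∑ i ∈ s', star (J (y i)) * J (y i) := by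
    rw [hH, map_add, map_sum, map_sum]
    congr 1
    · exact Finset.sum_congr rfl fun i _ => by rw [map_mul, map_star]
    · exact Finset.sum_congr rfl fun i _ => by rw [map_mul, map_star]
  have hJx : ∑ i ∈ s, J (x i) = 1 := by rw [← map_sum, hx, map_one]
  have hpos1 : 0 ≤ ∑ i ∈ s, star (J (x i)) * J (x i) :=
    Finset.sum_nonneg fun i _ => star_mul_self_nonneg _
  have hpos2 : 0 ≤ ∑ i ∈ s', star (J (y i)) * J (y i) :=
    Finset.sum_nonneg fun i _ => star_mul_self_nonneg _
  have h0 : 0 ≤ J H := by rw [hJH]; exact add_nonneg hpos1 hpos2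
  have hu : IsUnit (J H) := by
    set z := fun i => J (x i) with hz
    set N : ℕ := s.card with hN
    have key : ∑ i ∈ s, ∑ k ∈ s, star (z i - z k) * (z i - z k)
        = N • (∑ i ∈ s, star (z i) * z i) + N • (∑ i ∈ s, star (z i) * z i) - (1 + 1) := by
      have e1 : ∀ i k, star (z i - z k) * (z i - z k)
          = star (z i) * z i + star (z k) * z k - star (z i) * z k - star (z k) * z i := by
        intro i k
        rw [star_sub]; noncomm_ring
      simp only [e1, Finset.sum_sub_distrib, Finset.sum_add_distrib, Finset.sum_const,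
        ← Finset.mul_sum, ← Finset.sum_mul, ← star_sum, hJx]
      rw [← Finset.smul_sum]
      simp only [star_one, mul_one, ← hN]
      noncomm_ring
    have hnn : 0 ≤ ∑ i ∈ s, ∑ k ∈ s, star (z i - z k) * (z i - z k) :=
      Finset.sum_nonneg fun i _ => Finset.sum_nonneg fun k _ => star_mul_self_nonneg _
    have h2 : (1 + 1 : Unitization ℂ C) ≤ (N + N) • J H := by
      have h3 : (1 + 1 : Unitization ℂ C) + ∑ i ∈ s, ∑ k ∈ s, star (z i - z k) * (z i - z k)
          = (N + N) • (∑ i ∈ s, star (z i) * z i) := by rw [key, add_smul]; abel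
      have h4 : (1 + 1 : Unitization ℂ C) ≤ (N + N) • (∑ i ∈ s, star (z i) * z i) := by
        rw [← h3]; exact le_add_of_nonneg_right hnn
      refine h4.trans ?_
      rw [hJH]
      exact nsmul_le_nsmul_right (le_add_of_nonneg_right hpos2) _
    have h3 : IsStrictlyPositive (1 + 1 : Unitization ℂ C) := by
      have h1 : IsStrictlyPositive (1 : Unitization ℂ C) := isStrictlyPositive_one
      exact h1.add_nonneg zero_le_one
    have h4 : IsUnit ((N + N) • J H) := CStarAlgebra.isUnit_of_le _ h2 h3
    rw [← Nat.cast_smul_eq_nsmul ℂ, Algebra.smul_def] at h4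
    have hcomm : Commute (algebraMap ℂ (Unitization ℂ C) ((N + N : ℕ) : ℂ)) (J H) :=
      Algebra.commutes _ _
    exact (hcomm.isUnit_mul_iff.1 h4).2
  exact root_core j hj H h0 hu hint

/-- A star algebra is locally matricial if every finite subset is contained in the span of a
finite system of matrix units. -/
def LocMat (A : Type*) [NonUnitalRing A] [StarRing A] [Module ℂ A] [IsScalarTower ℂ A A]
    [SMulCommClass ℂ A A] : Prop :=
  ∀ F : Finset A, ∃ N : MatSys A, ∀ a ∈ F, a ∈ N.alg

/-- Relative correction of a homomorphism to a star preserving one on a matricial subalgebra. -/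
theorem exists_conj {C : Type*} [NonUnitalCStarAlgebra C] (j : A →⋆ₙₐ[ℂ] C)
    (hj : Function.Injective j) (hLM : LocMat A) (φ : B →ₙₐ[ℂ] A) (M : MatSys B) :
    ∃ (u u' : Unitization ℂ A) (h : u' * u = 1) (_ : u * u' = 1),
      (∀ b ∈ M.alg, conjHom u u' h (φ (star b)) = star (conjHom u u' h (φ b))) ∧
      ∀ c ∈ M.alg, φ (star c) = star (φ c) → conjHom u u' h (φ c) = φ c := by
  classical
  set e : A := ∑ α, φ (M.m α α) with he
  set x : Option M.ι → Unitization ℂ A := fun i => i.elim (1 - (e : Unitization ℂ A))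
    fun α => (φ (M.m α α) : Unitization ℂ A) with hx
  set y : M.ι × M.ι → Unitization ℂ A := fun i => (φ (M.m i.1 i.2) : Unitization ℂ A) with hy
  set H : Unitization ℂ A := star (1 - (e : Unitization ℂ A)) * (1 - (e : Unitization ℂ A))
    + ∑ i : M.ι × M.ι, star (y i) * y i with hH
  have hx1 : ∑ i ∈ (Finset.univ : Finset (Option M.ι)), x i = 1 := by
    rw [Fintype.sum_option]
    show (1 - (e : Unitization ℂ A)) + ∑ α, (φ (M.m α α) : Unitization ℂ A) = 1
    have : (∑ α, (φ (M.m α α) : Unitization ℂ A)) = (e : Unitization ℂ A) := by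
      rw [he]
      exact (map_sum (Unitization.inrNonUnitalAlgHom ℂ A) _ _).symm
    rw [this]; abel
  have hsplit : H = ∑ i ∈ (Finset.univ : Finset (Option M.ι)), star (x i) * x i
      + ∑ i ∈ Finset.univ.filter (fun i : M.ι × M.ι => i.1 ≠ i.2), star (y i) * y i := by
    rw [Fintype.sum_option, hH, add_assoc]
    congr 1
    rw [← Finset.sum_filter_add_sum_filter_not Finset.univ (fun i : M.ι × M.ι => i.1 = i.2)]
    congr 1
    symm
    apply Finset.sum_nbij' (fun α => (α, α)) (fun i => i.1)
    · intro α _; simp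
    · intro i _; simp
    · intro α _; rfl
    · rintro ⟨a, b⟩ hi
      rw [Finset.mem_filter] at hi
      exact Prod.ext rfl hi.2
    · intro α _; rfl
  -- `H` is algebraic
  obtain ⟨N, hN⟩ := hLM (Finset.univ.image fun i : M.ι × M.ι => φ (M.m i.1 i.2))
  have hNm : ∀ α β, φ (M.m α β) ∈ N.alg := fun α β =>
    hN _ (Finset.mem_image_of_mem _ (Finset.mem_univ (α, β)))
  have hNe : e ∈ N.alg := sum_mem fun α _ => hNm α α
  have hsum : ∀ (T : Finset (M.ι × M.ι)), ∃ a ∈ N.alg,
      ∑ i ∈ T, star (y i) * y i = (a : Unitization ℂ A) := by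
    intro T
    refine ⟨∑ i ∈ T, star (φ (M.m i.1 i.2)) * φ (M.m i.1 i.2),
      sum_mem fun i _ => mul_mem (N.star_mem (hNm _ _)) (hNm _ _), ?_⟩
    have h1 : ((∑ i ∈ T, star (φ (M.m i.1 i.2)) * φ (M.m i.1 i.2) : A) : Unitization ℂ A)
        = ∑ i ∈ T, ((star (φ (M.m i.1 i.2)) * φ (M.m i.1 i.2) : A) : Unitization ℂ A) :=
      map_sum (Unitization.inrNonUnitalAlgHom ℂ A) _ _
    rw [h1]
    apply Finset.sum_congr rfl
    intro i _
    rw [Unitization.inr_mul, Unitization.inr_star]
  obtain ⟨a0, ha0, ha0'⟩ := hsum Finset.univ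
  have hint : IsIntegral ℂ H := by
    have h1 : H = Unitization.inl 1 + ((star e * e - e - star e + a0 : A) : Unitization ℂ A) := by
      rw [hH, ha0', star_sub, star_one, Unitization.inl_one, Unitization.inr_add,
        Unitization.inr_sub, Unitization.inr_sub, Unitization.inr_mul, Unitization.inr_star]
      noncomm_ring
    rw [h1]
    exact N.isIntegral (add_mem (sub_mem (sub_mem (mul_mem (N.star_mem hNe) hNe) hNe)
      (N.star_mem hNe)) ha0) 1
  obtain ⟨k, k', hk1, hk2, hk3, hk4, hk5⟩ := exists_root j hj _ x hx1 _ y H hsplit hint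
  -- the main identity
  have hem : ∀ γ δ, e * φ (M.m γ δ) = φ (M.m γ δ) := by
    intro γ δ
    by_cases h : M.blk γ = M.blk δ
    · rw [he, Finset.sum_mul, Finset.sum_eq_single γ]
      · rw [← map_mul, M.mul_eq γ γ δ rfl h]
      · intro α _ hα
        rw [← map_mul, M.mul_ne _ _ _ _ hα, map_zero]
      · intro h; exact absurd (Finset.mem_univ _) h
    · rw [M.off γ δ h, map_zero, mul_zero]
  have hH1 : ∀ b ∈ M.alg, H * (φ b : Unitization ℂ A)
      = star (φ (star b) : Unitization ℂ A) * H := by
    intro b hb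
    refine M.alg_induction (P := fun b => H * (φ b : Unitization ℂ A)
      = star (φ (star b) : Unitization ℂ A) * H) ?_ ?_ ?_ ?_ hb
    · intro γ δ
      by_cases h : M.blk γ = M.blk δ
      · rw [M.star_m, hH, add_mul, mul_add]
        congr 1
        · have h1 : (1 - (e : Unitization ℂ A)) * (φ (M.m γ δ) : Unitization ℂ A) = 0 := by
            rw [sub_mul, one_mul, ← Unitization.inr_mul, hem, sub_self]
          have h2 : star (φ (M.m δ γ) : Unitization ℂ A) * star (1 - (e : Unitization ℂ A))
              = 0 := by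
            rw [← star_mul, sub_mul, one_mul, ← Unitization.inr_mul, hem, sub_self, star_zero]
          rw [mul_assoc, h1, mul_zero, ← mul_assoc, h2, zero_mul]
        · rw [Finset.sum_mul, Finset.mul_sum, Fintype.sum_prod_type, Fintype.sum_prod_type]
          apply Finset.sum_congr rfl
          intro α _
          have h1 : ∑ β, star (y (α, β)) * y (α, β) * (φ (M.m γ δ) : Unitization ℂ A)
              = star (φ (M.m α γ) : Unitization ℂ A) * (φ (M.m α δ) : Unitization ℂ A) := by
            rw [Finset.sum_eq_single γ]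
            · show star (φ (M.m α γ) : Unitization ℂ A) * (φ (M.m α γ) : Unitization ℂ A) * _ = _
              rw [mul_assoc, ← Unitization.inr_mul, ← map_mul, M.mul_right' h]
            · intro β _ hβ
              show star (φ (M.m α β) : Unitization ℂ A) * (φ (M.m α β) : Unitization ℂ A) * _ = _
              rw [mul_assoc, ← Unitization.inr_mul, ← map_mul, M.mul_ne _ _ _ _ hβ, map_zero,
                Unitization.inr_zero, mul_zero]
            · intro h; exact absurd (Finset.mem_univ _) h
          have h2 : ∑ β, star (φ (M.m δ γ) : Unitization ℂ A) * (star (y (α, β)) * y (α, β))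
              = star (φ (M.m α γ) : Unitization ℂ A) * (φ (M.m α δ) : Unitization ℂ A) := by
            rw [Finset.sum_eq_single δ]
            · show star (φ (M.m δ γ) : Unitization ℂ A) * (star (φ (M.m α δ) : Unitization ℂ A) *
                (φ (M.m α δ) : Unitization ℂ A)) = _
              rw [← mul_assoc, ← star_mul, ← Unitization.inr_mul, ← map_mul, M.mul_right' h.symm]
            · intro β _ hβ
              show star (φ (M.m δ γ) : Unitization ℂ A) * (star (φ (M.m α β) : Unitization ℂ A) *
                (φ (M.m α β) : Unitization ℂ A)) = _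
              rw [← mul_assoc, ← star_mul, ← Unitization.inr_mul, ← map_mul, M.mul_ne _ _ _ _ hβ,
                map_zero, Unitization.inr_zero, star_zero, zero_mul]
            · intro h; exact absurd (Finset.mem_univ _) h
          rw [h1, h2]
      · rw [M.star_m, M.off γ δ h, M.off δ γ (fun h' => h h'.symm), map_zero,
          Unitization.inr_zero, mul_zero, star_zero, zero_mul]
    · rw [star_zero, map_zero, Unitization.inr_zero, star_zero, zero_mul, mul_zero]
    · intro a b ha hb
      rw [star_add, map_add, map_add, Unitization.inr_add, Unitization.inr_add, mul_add, star_add,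
        ha, hb]
      exact (add_mul _ _ _).symm
    · intro r a ha
      rw [star_smul, map_smul, map_smul, Unitization.inr_smul, Unitization.inr_smul,
        mul_smul_comm, star_smul, star_star, smul_mul_assoc, ha]
  have hk' : star k' = k' := by
    have h1 : star k' * k = 1 := by
      rw [← hk2, ← star_mul, hk3, star_one]
    calc star k' = star k' * (k * k') := by rw [hk3, mul_one]
      _ = (star k' * k) * k' := by rw [mul_assoc]
      _ = k' := by rw [h1, one_mul]
  refine ⟨k, k', hk4, hk3, fun b hb => ?_, fun c hc hcs => ?_⟩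
  · apply Unitization.inr_injective (R := ℂ)
    rw [Unitization.inr_star, inr_conjHom, inr_conjHom, star_mul, star_mul, hk2, hk']
    have h1 := hH1 (star b) (M.star_mem hb)
    rw [star_star, ← hk1] at h1
    calc k * (φ (star b) : Unitization ℂ A) * k'
        = k' * (k * k * (φ (star b) : Unitization ℂ A)) * k' := by
          rw [← mul_assoc, ← mul_assoc, hk4, one_mul]
      _ = k' * (star (φ b : Unitization ℂ A) * (k * k)) * k' := by rw [h1]
      _ = k' * star (φ b : Unitization ℂ A) * k * (k * k') := by noncomm_ring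
      _ = k' * (star (φ b : Unitization ℂ A) * k) := by rw [hk3, mul_one, mul_assoc]
  · apply Unitization.inr_injective (R := ℂ)
    have h1 := hH1 c hc
    rw [hcs, Unitization.inr_star, star_star] at h1
    have h2 := hk5 _ h1.symm
    rw [inr_conjHom, ← h2, mul_assoc, hk3, mul_one]

/-- A stage of the intertwining. -/
structure Stage (φ0 : A →ₙₐ[ℂ] B) where
  /-- the isomorphism at this stage -/
  φ : A →ₙₐ[ℂ] B
  /-- its inverse -/
  ψ : B →ₙₐ[ℂ] A
  l : ∀ a, ψ (φ a) = a
  r : ∀ b, φ (ψ b) = b
  /-- the matricial subalgebra on which the isomorphism preserves the involution -/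
  M : MatSys A
  st : ∀ a ∈ M.alg, φ (star a) = star (φ a)
  eqv : ∀ p, p * p = p → IEq (φ p) (φ0 p)

/-- `t` extends `s`. -/
def Stage.Le {φ0 : A →ₙₐ[ℂ] B} (s t : Stage φ0) : Prop :=
  (∀ a ∈ s.M.alg, a ∈ t.M.alg) ∧ ∀ a ∈ s.M.alg, t.φ a = s.φ a

theorem Stage.exists_left {φ0 : A →ₙₐ[ℂ] B} {C : Type*} [NonUnitalCStarAlgebra C]
    (j : B →⋆ₙₐ[ℂ] C) (hj : Function.Injective j) (hLA : LocMat A) (hLB : LocMat B)
    (s : Stage φ0) (a : A) : ∃ t : Stage φ0, s.Le t ∧ a ∈ t.M.alg := by
  classical
  obtain ⟨M', hM'⟩ := hLA (insert a (Finset.univ.image fun i : s.M.ι × s.M.ι => s.M.m i.1 i.2))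
  have ha : a ∈ M'.alg := hM' _ (Finset.mem_insert_self _ _)
  have hle : s.M.alg ≤ M'.alg := s.M.alg_le fun α β =>
    hM' _ (Finset.mem_insert_of_mem (Finset.mem_image_of_mem _ (Finset.mem_univ (α, β))))
  obtain ⟨u, u', h, h', h1, h2⟩ := exists_conj j hj hLB s.φ M'
  refine ⟨{ φ := (conjHom u u' h).comp s.φ
            ψ := s.ψ.comp (conjHom u' u h')
            l := fun a => ?_
            r := fun b => ?_
            M := M'
            st := fun a ha => h1 a ha
            eqv := fun p hp => ?_ }, ⟨fun a ha => hle ha, fun a ha => ?_⟩, ha⟩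
  · show s.ψ (conjHom u' u h' (conjHom u u' h (s.φ a))) = a
    rw [conjHom_conjHom, s.l]
  · show conjHom u u' h (s.φ (s.ψ (conjHom u' u h' b))) = b
    rw [s.r, conjHom_conjHom]
  · have hφp : s.φ p * s.φ p = s.φ p := by rw [← map_mul, hp]
    have h0 : φ0 p * φ0 p = φ0 p := by rw [← map_mul, hp]
    have hc : conjHom u u' h (s.φ p) * conjHom u u' h (s.φ p) = conjHom u u' h (s.φ p) := by
      rw [← map_mul, hφp]
    exact (conjHom_IEq u u' h hφp).trans hc h0 (s.eqv p hp)
  · exact h2 a (hle ha) (s.st a ha)

theorem Stage.exists_right {φ0 : A →ₙₐ[ℂ] B} {C : Type*} [NonUnitalCStarAlgebra C]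
    (j : A →⋆ₙₐ[ℂ] C) (hj : Function.Injective j) (hLA : LocMat A) (hLB : LocMat B)
    (s : Stage φ0) (b : B) : ∃ t : Stage φ0, s.Le t ∧ ∃ a ∈ t.M.alg, t.φ a = b := by
  classical
  obtain ⟨N, hN⟩ := hLB (insert b (Finset.univ.image fun i : s.M.ι × s.M.ι =>
    s.φ (s.M.m i.1 i.2)))
  have hb : b ∈ N.alg := hN _ (Finset.mem_insert_self _ _)
  have hle : ∀ a ∈ s.M.alg, s.φ a ∈ N.alg := by
    intro a ha
    refine s.M.alg_induction (P := fun a => s.φ a ∈ N.alg) ?_ ?_ ?_ ?_ ha
    · intro α β
      exact hN _ (Finset.mem_insert_of_mem (Finset.mem_image_of_mem _ (Finset.mem_univ (α, β))))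
    · rw [map_zero]; exact zero_mem _
    · intro a b ha hb
      rw [map_add]; exact add_mem ha hb
    · intro r a ha
      rw [map_smul]; exact N.alg.smul_mem _ ha
  obtain ⟨u, u', h, h', h1, h2⟩ := exists_conj j hj hLA s.ψ N
  have h3 : ∀ a ∈ s.M.alg, conjHom u u' h a = a := by
    intro a ha
    have h4 := h2 (s.φ a) (hle a ha) (by rw [← s.st a ha, s.l, s.l])
    rwa [s.l] at h4
  set ψ' : B →ₙₐ[ℂ] A := (conjHom u u' h).comp s.ψ with hψ'
  have hψs : ∀ b ∈ N.alg, ψ' (star b) = star (ψ' b) := h1
  set M' : MatSys A := N.map ψ' fun α β => hψs _ (N.m_mem α β) with hM'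
  have hM1 : ∀ b ∈ N.alg, ψ' b ∈ M'.alg := by
    intro b hb
    refine N.alg_induction (P := fun b => ψ' b ∈ M'.alg) ?_ ?_ ?_ ?_ hb
    · intro α β; exact M'.m_mem α β
    · rw [map_zero]; exact zero_mem _
    · intro a b ha hb
      rw [map_add]; exact add_mem ha hb
    · intro r a ha
      rw [map_smul]; exact M'.alg.smul_mem _ ha
  have hM2 : ∀ a ∈ M'.alg, ∃ b ∈ N.alg, ψ' b = a := by
    intro a ha
    refine M'.alg_induction (P := fun a => ∃ b ∈ N.alg, ψ' b = a) ?_ ?_ ?_ ?_ ha
    · intro α β; exact ⟨N.m α β, N.m_mem α β, rfl⟩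
    · exact ⟨0, zero_mem _, map_zero _⟩
    · rintro a b ⟨a', ha', rfl⟩ ⟨b', hb', rfl⟩
      exact ⟨a' + b', add_mem ha' hb', map_add _ _ _⟩
    · rintro r a ⟨a', ha', rfl⟩
      exact ⟨r • a', N.alg.smul_mem _ ha', map_smul _ _ _⟩
  have hl : ∀ a, ψ' (s.φ (conjHom u' u h' a)) = a := by
    intro a
    show conjHom u u' h (s.ψ (s.φ (conjHom u' u h' a))) = a
    rw [s.l, conjHom_conjHom]
  have hr : ∀ b, s.φ (conjHom u' u h' (ψ' b)) = b := by
    intro b
    show s.φ (conjHom u' u h' (conjHom u u' h (s.ψ b))) = b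
    rw [conjHom_conjHom, s.r]
  refine ⟨{ φ := s.φ.comp (conjHom u' u h')
            ψ := ψ'
            l := hl
            r := hr
            M := M'
            st := fun a ha => ?_
            eqv := fun p hp => ?_ }, ⟨fun a ha => ?_, fun a ha => ?_⟩, ψ' b, hM1 b hb, hr b⟩
  · obtain ⟨b, hb, rfl⟩ := hM2 a ha
    show s.φ (conjHom u' u h' (star (ψ' b))) = star (s.φ (conjHom u' u h' (ψ' b)))
    rw [← hψs b hb, hr, hr]
  · have hc : conjHom u' u h' p * conjHom u' u h' p = conjHom u' u h' p := by
      rw [← map_mul, hp]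
    have h4 := (conjHom_IEq u' u h' hp).map s.φ
    have h5 : s.φ (conjHom u' u h' p) * s.φ (conjHom u' u h' p) = s.φ (conjHom u' u h' p) := by
      rw [← map_mul, hc]
    have h0 : φ0 p * φ0 p = φ0 p := by rw [← map_mul, hp]
    exact h4.trans h5 h0 (s.eqv p hp)
  · have h4 : a = ψ' (s.φ a) := by
      show a = conjHom u u' h (s.ψ (s.φ a))
      rw [s.l, h3 a ha]
    rw [h4]
    exact hM1 _ (hle a ha)
  · show s.φ (conjHom u' u h' a) = s.φ a
    congr 1
    conv_lhs => rw [← h3 a ha, conjHom_conjHom]

/-- An algebra is countably generated. -/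
def CtblGen (A : Type*) [NonUnitalRing A] [Module ℂ A] [IsScalarTower ℂ A A]
    [SMulCommClass ℂ A A] : Prop :=
  ∃ a : ℕ → A, ∀ S : NonUnitalSubalgebra ℂ A, (∀ n, a n ∈ S) → ∀ x, x ∈ S

/-- Exact intertwining: an algebra isomorphism between countably generated locally matricial
star algebras (which embed in C*-algebras) gives a star isomorphism with the same values, up to
equivalence, on idempotents. -/
theorem exists_star_iso {C D : Type*} [NonUnitalCStarAlgebra C] [NonUnitalCStarAlgebra D]
    (jA : A →⋆ₙₐ[ℂ] C) (hjA : Function.Injective jA) (jB : B →⋆ₙₐ[ℂ] D)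
    (hjB : Function.Injective jB) (hLA : LocMat A) (hLB : LocMat B) (hcA : CtblGen A)
    (hcB : CtblGen B) (φ0 : A →ₙₐ[ℂ] B) (ψ0 : B →ₙₐ[ℂ] A) (hl : ∀ a, ψ0 (φ0 a) = a)
    (hr : ∀ b, φ0 (ψ0 b) = b) :
    ∃ (θ : A →⋆ₙₐ[ℂ] B) (θ' : B →⋆ₙₐ[ℂ] A), (∀ a, θ' (θ a) = a) ∧ (∀ b, θ (θ' b) = b) ∧
      ∀ p, p * p = p → IEq (θ p) (φ0 p) := by
  classical
  obtain ⟨ga, hga⟩ := hcA
  obtain ⟨gb, hgb⟩ := hcB
  -- the starting stage
  let M0 : MatSys A :=
    { ι := Empty
      W := Empty
      blk := id
      m := fun α _ => α.elim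
      off := fun α => α.elim
      mul_ne := fun α => α.elim
      mul_eq := fun α => α.elim
      star_m := fun α => α.elim }
  let s0 : Stage φ0 :=
    { φ := φ0
      ψ := ψ0
      l := hl
      r := hr
      M := M0
      st := fun a ha => by
        refine M0.alg_induction (P := fun a => φ0 (star a) = star (φ0 a)) ?_ ?_ ?_ ?_ ha
        · exact fun α => α.elim
        · simp
        · intro a b ha hb
          rw [star_add, map_add, map_add, star_add, ha, hb]
        · intro r a ha
          rw [star_smul, map_smul, map_smul, star_smul, ha]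
      eqv := fun p hp => IEq.refl (by rw [← map_mul, hp]) }
  have hstep : ∀ (s : Stage φ0) (n : ℕ), ∃ t : Stage φ0, s.Le t ∧ ga n ∈ t.M.alg ∧
      ∃ a ∈ t.M.alg, t.φ a = gb n := by
    intro s n
    obtain ⟨t1, h1, h2⟩ := s.exists_left jB hjB hLA hLB (ga n)
    obtain ⟨t2, h3, h4⟩ := t1.exists_right jA hjA hLA hLB (gb n)
    exact ⟨t2, ⟨fun a ha => h3.1 a (h1.1 a ha), fun a ha => by rw [h3.2 a (h1.1 a ha), h1.2 a ha]⟩,
      h3.1 _ h2, h4⟩
  choose nxt hn1 hn2 hn3 using hstep
  let seq : ℕ → Stage φ0 := fun n => Nat.rec s0 (fun n s => nxt s n) n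
  have hseq : ∀ n, seq (n + 1) = nxt (seq n) n := fun n => rfl
  have hmono : ∀ m n, m ≤ n → (seq m).Le (seq n) := by
    intro m n hmn
    induction n, hmn using Nat.le_induction with
    | base => exact ⟨fun a ha => ha, fun a _ => rfl⟩
    | succ n _ ih =>
      have h1 := hn1 (seq n) n
      rw [← hseq] at h1
      exact ⟨fun a ha => h1.1 a (ih.1 a ha), fun a ha => by rw [h1.2 a (ih.1 a ha), ih.2 a ha]⟩
  -- the stages exhaust `A` and `B`
  have hexA : ∀ a : A, ∃ n, a ∈ (seq n).M.alg := by
    let S : NonUnitalSubalgebra ℂ A :=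
      { carrier := {a | ∃ n, a ∈ (seq n).M.alg}
        add_mem' := by
          rintro a b ⟨m, hm⟩ ⟨n, hn⟩
          exact ⟨max m n, add_mem ((hmono _ _ (le_max_left m n)).1 _ hm)
            ((hmono _ _ (le_max_right m n)).1 _ hn)⟩
        zero_mem' := ⟨0, zero_mem _⟩
        mul_mem' := by
          rintro a b ⟨m, hm⟩ ⟨n, hn⟩
          exact ⟨max m n, mul_mem ((hmono _ _ (le_max_left m n)).1 _ hm)
            ((hmono _ _ (le_max_right m n)).1 _ hn)⟩
        smul_mem' := by
          rintro r a ⟨m, hm⟩
          exact ⟨m, (seq m).M.alg.smul_mem _ hm⟩ }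
    exact hga S fun n => ⟨n + 1, by rw [hseq]; exact hn2 _ _⟩
  have hexB : ∀ b : B, ∃ n, ∃ a ∈ (seq n).M.alg, (seq n).φ a = b := by
    have hup : ∀ m n a, m ≤ n → a ∈ (seq m).M.alg →
        a ∈ (seq n).M.alg ∧ (seq n).φ a = (seq m).φ a := fun m n a h ha =>
      ⟨(hmono m n h).1 a ha, (hmono m n h).2 a ha⟩
    let S : NonUnitalSubalgebra ℂ B :=
      { carrier := {b | ∃ n, ∃ a ∈ (seq n).M.alg, (seq n).φ a = b}
        add_mem' := by
          rintro _ _ ⟨m, a, hm, rfl⟩ ⟨n, b, hn, rfl⟩
          obtain ⟨h1, h2⟩ := hup m (max m n) a (le_max_left _ _) hm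
          obtain ⟨h3, h4⟩ := hup n (max m n) b (le_max_right _ _) hn
          exact ⟨max m n, a + b, add_mem h1 h3, by rw [map_add, h2, h4]⟩
        zero_mem' := ⟨0, 0, zero_mem _, map_zero _⟩
        mul_mem' := by
          rintro _ _ ⟨m, a, hm, rfl⟩ ⟨n, b, hn, rfl⟩
          obtain ⟨h1, h2⟩ := hup m (max m n) a (le_max_left _ _) hm
          obtain ⟨h3, h4⟩ := hup n (max m n) b (le_max_right _ _) hn
          exact ⟨max m n, a * b, mul_mem h1 h3, by rw [map_mul, h2, h4]⟩
        smul_mem' := by
          rintro r _ ⟨m, a, hm, rfl⟩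
          exact ⟨m, r • a, (seq m).M.alg.smul_mem _ hm, map_smul _ _ _⟩ }
    exact hgb S fun n => ⟨n + 1, by rw [hseq]; exact hn3 _ _⟩
  choose N hN using hexA
  let θf : A → B := fun a => (seq (N a)).φ a
  have hθ : ∀ a n, a ∈ (seq n).M.alg → θf a = (seq n).φ a := by
    intro a n ha
    have h1 := (hmono _ _ (le_max_left (N a) n)).2 a (hN a)
    have h2 := (hmono _ _ (le_max_right (N a) n)).2 a ha
    show (seq (N a)).φ a = _
    rw [← h1, h2]
  let θ : A →⋆ₙₐ[ℂ] B :=
    { toFun := θf
      map_smul' := fun r a => by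
        rw [hθ (r • a) (N a) ((seq (N a)).M.alg.smul_mem _ (hN a)), map_smul]; rfl
      map_zero' := by rw [hθ 0 0 (zero_mem _), map_zero]
      map_add' := fun a b => by
        have h1 := (hmono _ _ (le_max_left (N a) (N b))).1 a (hN a)
        have h2 := (hmono _ _ (le_max_right (N a) (N b))).1 b (hN b)
        rw [hθ (a + b) _ (add_mem h1 h2), hθ a _ h1, hθ b _ h2, map_add]
      map_mul' := fun a b => by
        have h1 := (hmono _ _ (le_max_left (N a) (N b))).1 a (hN a)
        have h2 := (hmono _ _ (le_max_right (N a) (N b))).1 b (hN b)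
        rw [hθ (a * b) _ (mul_mem h1 h2), hθ a _ h1, hθ b _ h2, map_mul]
      map_star' := fun a => by
        rw [hθ (star a) (N a) ((seq (N a)).M.star_mem (hN a)), (seq (N a)).st a (hN a)] }
  have hinj : Function.Injective θ := by
    intro a b hab
    have h1 := (hmono _ _ (le_max_left (N a) (N b))).1 a (hN a)
    have h2 := (hmono _ _ (le_max_right (N a) (N b))).1 b (hN b)
    have h3 : (seq (max (N a) (N b))).φ a = (seq (max (N a) (N b))).φ b := by
      rw [← hθ a _ h1, ← hθ b _ h2]; exact hab
    have := congrArg (seq (max (N a) (N b))).ψ h3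
    rwa [(seq _).l, (seq _).l] at this
  have hsurj : Function.Surjective θ := by
    intro b
    obtain ⟨n, a, ha, rfl⟩ := hexB b
    exact ⟨a, hθ a n ha⟩
  let e := Equiv.ofBijective θ ⟨hinj, hsurj⟩
  have he : ∀ x, θ (e.symm x) = x := fun x => e.apply_symm_apply x
  let θ' : B →⋆ₙₐ[ℂ] A :=
    { toFun := e.symm
      map_smul' := fun r x => by
        apply hinj
        show θ (e.symm (r • x)) = θ (r • e.symm x)
        rw [he, map_smul θ r (e.symm x), he]
      map_zero' := by
        apply hinj
        rw [he, map_zero]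
      map_add' := fun x y => by
        apply hinj
        show θ (e.symm (x + y)) = θ (e.symm x + e.symm y)
        rw [he, map_add θ (e.symm x) (e.symm y), he, he]
      map_mul' := fun x y => by
        apply hinj
        show θ (e.symm (x * y)) = θ (e.symm x * e.symm y)
        rw [he, map_mul θ (e.symm x) (e.symm y), he, he]
      map_star' := fun x => by
        apply hinj
        show θ (e.symm (star x)) = θ (star (e.symm x))
        rw [he, map_star θ (e.symm x), he] }
  exact ⟨θ, θ', fun a => e.symm_apply_apply a, he, fun p hp => (seq (N p)).eqv p hp⟩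

/-- Equivalent projections are equivalent via a star compatible pair. -/
theorem exists_unitary_eq {C : Type*} [NonUnitalCStarAlgebra C] (j : A →⋆ₙₐ[ℂ] C)
    (hj : Function.Injective j) (hLA : LocMat A) {p q : A} (hp : p * p = p) (hq : q * q = q)
    (hps : star p = p) (hqs : star q = q) (h : IEq p q) :
    ∃ u : A, u * star u = p ∧ star u * u = q := by
  classical
  obtain ⟨x0, y0, h1, h2⟩ := h
  -- cut down
  set x := p * x0 * q with hx
  set y := q * y0 * p with hy
  have hxy : x * y = p := by
    calc p * x0 * q * (q * y0 * p) = p * x0 * (q * q) * y0 * p := by noncomm_ring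
      _ = p * x0 * (y0 * x0) * y0 * p := by rw [hq, h2]
      _ = p * (x0 * y0) * (x0 * y0) * p := by noncomm_ring
      _ = p := by rw [h1, hp, hp, hp]
  have hyx : y * x = q := by
    calc q * y0 * p * (p * x0 * q) = q * y0 * (p * p) * x0 * q := by noncomm_ring
      _ = q * y0 * (x0 * y0) * x0 * q := by rw [hp, h1]
      _ = q * (y0 * x0) * (y0 * x0) * q := by noncomm_ring
      _ = q := by rw [h2, hq, hq, hq]
  have hpx : p * x = x := by rw [hx, ← mul_assoc, ← mul_assoc, hp]
  have hxq : x * q = x := by rw [hx, mul_assoc, hq]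
  have hqy : q * y = y := by rw [hy, ← mul_assoc, ← mul_assoc, hq]
  have hyp : y * p = y := by rw [hy, mul_assoc, hp]
  clear_value x y
  obtain ⟨N, hN⟩ := hLA {x, q}
  have hNx : x ∈ N.alg := hN x (by simp)
  have hNq : q ∈ N.alg := hN q (by simp)
  have hxs : star x * p = star x := by
    conv_lhs => rw [← hps, ← star_mul, hpx]
  have hys : star y * q = star y := by
    conv_lhs => rw [← hqs, ← star_mul, hqy]
  have hqxs : q * star x = star x := by
    conv_lhs => rw [← hqs, ← star_mul, hxq]
  have hpys : p * star y = star y := by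
    conv_lhs => rw [← hps, ← star_mul, hyp]
  have e1 : star x * x * (y * star y) = q := by
    calc star x * x * (y * star y) = star x * (x * y) * star y := by noncomm_ring
      _ = star x * star y := by rw [hxy, hxs]
      _ = q := by rw [← star_mul, hyx, hqs]
  have e2 : y * star y * (star x * x) = q := by
    calc y * star y * (star x * x) = y * (star y * star x) * x := by noncomm_ring
      _ = q := by rw [← star_mul, hxy, hps, hyp, hyx]
  set H : Unitization ℂ A := ((star x * x : A) : Unitization ℂ A)
    + (1 - (q : Unitization ℂ A)) with hH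
  have hqq : (q : Unitization ℂ A) * q = q := by rw [← Unitization.inr_mul, hq]
  have hqs' : star (q : Unitization ℂ A) = q := by rw [← Unitization.inr_star, hqs]
  have h1q' : (1 - (q : Unitization ℂ A)) * (1 - (q : Unitization ℂ A))
      = 1 - (q : Unitization ℂ A) := by
    have : (1 - (q : Unitization ℂ A)) * (1 - (q : Unitization ℂ A))
        = 1 - (q : Unitization ℂ A) - (q : Unitization ℂ A) + (q : Unitization ℂ A) * q := by
      noncomm_ring
    rw [this, hqq]; abel
  have h1q : star (1 - (q : Unitization ℂ A)) * (1 - (q : Unitization ℂ A))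
      = 1 - (q : Unitization ℂ A) := by
    rw [star_sub, star_one, hqs', h1q']
  have hHu : IsUnit H := by
    set H' : Unitization ℂ A := ((y * star y : A) : Unitization ℂ A)
      + (1 - (q : Unitization ℂ A)) with hH'
    have f1 : ((star x * x : A) : Unitization ℂ A) * (1 - (q : Unitization ℂ A)) = 0 := by
      rw [mul_sub, mul_one, ← Unitization.inr_mul, mul_assoc, hxq, sub_self]
    have f2 : (1 - (q : Unitization ℂ A)) * ((star x * x : A) : Unitization ℂ A) = 0 := by
      rw [sub_mul, one_mul, ← Unitization.inr_mul, ← mul_assoc, hqxs, sub_self]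
    have f3 : ((y * star y : A) : Unitization ℂ A) * (1 - (q : Unitization ℂ A)) = 0 := by
      rw [mul_sub, mul_one, ← Unitization.inr_mul, mul_assoc, hys, sub_self]
    have f4 : (1 - (q : Unitization ℂ A)) * ((y * star y : A) : Unitization ℂ A) = 0 := by
      rw [sub_mul, one_mul, ← Unitization.inr_mul, ← mul_assoc, hqy, sub_self]
    refine ⟨⟨H, H', ?_, ?_⟩, rfl⟩
    · rw [hH, hH', add_mul, mul_add, mul_add, f1, f4, h1q', ← Unitization.inr_mul, e1]; abel
    · rw [hH, hH', add_mul, mul_add, mul_add, f3, f2, h1q', ← Unitization.inr_mul, e2]; abel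
  have hint : IsIntegral ℂ H := by
    have : H = Unitization.inl 1 + ((star x * x - q : A) : Unitization ℂ A) := by
      rw [hH, Unitization.inl_one, Unitization.inr_sub]; abel
    rw [this]
    exact N.isIntegral (sub_mem (mul_mem (N.star_mem hNx) hNx) hNq) 1
  let _ := CStarAlgebra.spectralOrder (Unitization ℂ C)
  have _ := CStarAlgebra.spectralOrderedRing (Unitization ℂ C)
  have h0 : 0 ≤ Unitization.starMap j H := by
    have : H = star (x : Unitization ℂ A) * (x : Unitization ℂ A)
        + star (1 - (q : Unitization ℂ A)) * (1 - (q : Unitization ℂ A)) := by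
      rw [h1q, hH, Unitization.inr_mul, Unitization.inr_star]
    rw [this, map_add, map_mul, map_mul, map_star, map_star]
    exact add_nonneg (star_mul_self_nonneg _) (star_mul_self_nonneg _)
  obtain ⟨k, k', hk1, hk2, hk3, hk4, hk5⟩ := root_core j hj H h0
    (hHu.map (Unitization.starMap j)) hint
  have hk' : star k' = k' := by
    have h1 : star k' * k = 1 := by
      rw [← hk2, ← star_mul, hk3, star_one]
    calc star k' = star k' * (k * k') := by rw [hk3, mul_one]
      _ = (star k' * k) * k' := by rw [mul_assoc]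
      _ = k' := by rw [h1, one_mul]
  -- the unitary part
  set u : A := ((x : Unitization ℂ A) * k').snd with hu
  have huE : (u : Unitization ℂ A) = (x : Unitization ℂ A) * k' := by
    ext
    · simp
    · rfl
  have hkk' : k' * H * k' = 1 := by
    rw [← hk1]
    calc k' * (k * k) * k' = (k' * k) * (k * k') := by noncomm_ring
      _ = 1 := by rw [hk4, hk3, one_mul]
  have hqH : (1 - (q : Unitization ℂ A)) * H = H * (1 - (q : Unitization ℂ A)) := by
    have f1 : ((star x * x : A) : Unitization ℂ A) * (1 - (q : Unitization ℂ A)) = 0 := by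
      rw [mul_sub, mul_one, ← Unitization.inr_mul, mul_assoc, hxq, sub_self]
    have f2 : (1 - (q : Unitization ℂ A)) * ((star x * x : A) : Unitization ℂ A) = 0 := by
      rw [sub_mul, one_mul, ← Unitization.inr_mul, ← mul_assoc, hqxs, sub_self]
    rw [hH, mul_add, add_mul, f1, f2]
  have hqH1 : H * (1 - (q : Unitization ℂ A)) = 1 - (q : Unitization ℂ A) := by
    have f1 : ((star x * x : A) : Unitization ℂ A) * (1 - (q : Unitization ℂ A)) = 0 := by
      rw [mul_sub, mul_one, ← Unitization.inr_mul, mul_assoc, hxq, sub_self]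
    rw [hH, add_mul, f1, h1q', zero_add]
  have hqk := hk5 _ hqH
  -- `k' (1 - q) k' = 1 - q`
  have hqk' : (1 - (q : Unitization ℂ A)) * k' = k' * (1 - (q : Unitization ℂ A)) := by
    calc (1 - (q : Unitization ℂ A)) * k' = (k' * k) * (1 - (q : Unitization ℂ A)) * k' := by
          rw [hk4, one_mul]
      _ = k' * (k * (1 - (q : Unitization ℂ A))) * k' := by rw [mul_assoc k' k]
      _ = k' * ((1 - (q : Unitization ℂ A)) * k) * k' := by rw [hqk]
      _ = k' * (1 - (q : Unitization ℂ A)) * (k * k') := by noncomm_ring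
      _ = k' * (1 - (q : Unitization ℂ A)) := by rw [hk3, mul_one]
  have hkqk : k' * (1 - (q : Unitization ℂ A)) * k' = 1 - (q : Unitization ℂ A) := by
    have h3 : k' * k' * H = 1 := by
      rw [← hk1]
      calc k' * k' * (k * k) = k' * (k' * k) * k := by noncomm_ring
        _ = 1 := by rw [hk4, mul_one, hk4]
    calc k' * (1 - (q : Unitization ℂ A)) * k'
        = k' * ((1 - (q : Unitization ℂ A)) * k') := by rw [mul_assoc]
      _ = k' * k' * (1 - (q : Unitization ℂ A)) := by rw [hqk', mul_assoc]
      _ = k' * k' * (H * (1 - (q : Unitization ℂ A))) := by rw [hqH1]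
      _ = (k' * k' * H) * (1 - (q : Unitization ℂ A)) := by noncomm_ring
      _ = 1 - (q : Unitization ℂ A) := by rw [h3, one_mul]
  refine ⟨u, ?_, ?_⟩
  · apply Unitization.inr_injective (R := ℂ)
    rw [Unitization.inr_mul, Unitization.inr_star, huE, star_mul, hk', ← Unitization.inr_star]
    -- `x k' k' x^* = x (y y^*) x^*`
    have h3 : k' * k' * H = 1 := by
      rw [← hk1]
      calc k' * k' * (k * k) = k' * (k' * k) * k := by noncomm_ring
        _ = 1 := by rw [hk4, mul_one, hk4]
    have h4 : k' * k' = ((y * star y : A) : Unitization ℂ A) + (1 - (q : Unitization ℂ A)) := by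
      have f1 : ((star x * x : A) : Unitization ℂ A) * (1 - (q : Unitization ℂ A)) = 0 := by
        rw [mul_sub, mul_one, ← Unitization.inr_mul, mul_assoc, hxq, sub_self]
      have f4 : (1 - (q : Unitization ℂ A)) * ((y * star y : A) : Unitization ℂ A) = 0 := by
        rw [sub_mul, one_mul, ← Unitization.inr_mul, ← mul_assoc, hqy, sub_self]
      have h5 : H * (((y * star y : A) : Unitization ℂ A) + (1 - (q : Unitization ℂ A))) = 1 := by
        rw [hH, add_mul, mul_add, mul_add, f1, f4, h1q', ← Unitization.inr_mul, e1]; abel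
      calc k' * k' = k' * k' * (H * (((y * star y : A) : Unitization ℂ A)
            + (1 - (q : Unitization ℂ A)))) := by rw [h5, mul_one]
        _ = (k' * k' * H) * (((y * star y : A) : Unitization ℂ A)
            + (1 - (q : Unitization ℂ A))) := by rw [mul_assoc, mul_assoc, mul_assoc]
        _ = _ := by rw [h3, one_mul]
    have h6 : (x : Unitization ℂ A) * (1 - (q : Unitization ℂ A)) = 0 := by
      rw [mul_sub, mul_one, ← Unitization.inr_mul, hxq, sub_self]
    calc (x : Unitization ℂ A) * k' * (k' * ((star x : A) : Unitization ℂ A))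
        = (x : Unitization ℂ A) * (k' * k') * ((star x : A) : Unitization ℂ A) := by noncomm_ring
      _ = ((x * (y * star y) * star x : A) : Unitization ℂ A) := by
        rw [h4, mul_add, h6, add_zero, ← Unitization.inr_mul, ← Unitization.inr_mul]
      _ = _ := by
        congr 1
        calc x * (y * star y) * star x = (x * y) * (star y * star x) := by noncomm_ring
          _ = p := by rw [hxy, ← star_mul, hxy, hps, hp]
  · apply Unitization.inr_injective (R := ℂ)
    rw [Unitization.inr_mul, Unitization.inr_star, huE, star_mul, hk', ← Unitization.inr_star]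
    have h3 : ((star x : A) : Unitization ℂ A) * (x : Unitization ℂ A)
        = H - (1 - (q : Unitization ℂ A)) := by
      rw [hH, ← Unitization.inr_mul]; abel
    calc k' * ((star x : A) : Unitization ℂ A) * ((x : Unitization ℂ A) * k')
        = k' * (((star x : A) : Unitization ℂ A) * (x : Unitization ℂ A)) * k' := by
          noncomm_ring
      _ = k' * H * k' - k' * (1 - (q : Unitization ℂ A)) * k' := by rw [h3]; noncomm_ring
      _ = _ := by rw [hkk', hkqk]; abel

end main

end Pool.Agent.Helper665_GA
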