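import Pool.Agent.Helper665_GA.Defs

/-!
# Cycles and exits in graphs (helper665)
-/

namespace Pool.Agent.Helper665_GA

namespace Graph

variable (G : Graph)

/-- There is an edge from `v` to `w`. -/
def Adj (v w : G.V) : Prop := ∃ e, G.src e = v ∧ G.rng e = w

/-- A graph without cycles. -/
def Acyclic : Prop := ∀ v, ¬ Relation.TransGen G.Adj v v

/-- The vertex lies on a cycle: there is a path of positive length from `v` to `v`. -/
def OnCycle (v : G.V) : Prop := Relation.TransGen G.Adj v v

/-- No cycle has an exit: a vertex on a cycle emits only one edge. -/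
def NoExit : Prop := ∀ e f : G.E, G.OnCycle (G.src e) → G.src e = G.src f → e = f

end Graph

end Pool.Agent.Helper665_GA
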