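import Pool.Agent.Helper665_GA.Faithful
import Pool.Agent.Helper665_GA.CycleDefs

/-!
# Paths of acyclic graphs and matrix units (helper665)
-/

namespace Pool.Agent.Helper665_GA

section paths

variable {G : Graph}

/-- the source of a path `l` ending in `v` -/
def start : List G.E → G.V → G.V
  | [], v => v
  | e :: _, _ => G.src e

/-- `l` is a path ending in `v` -/
def Valid : List G.E → G.V → Prop
  | [], _ => True
  | e :: l, v => G.rng e = start l v ∧ Valid l v

theorem reach_of_valid {l : List G.E} {v : G.V} (h : Valid l v) {f : G.E} (hf : f ∈ l) :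
    Relation.ReflTransGen G.Adj (start l v) (G.src f) := by
  induction l with
  | nil => simp at hf
  | cons e l ih =>
    rw [List.mem_cons] at hf
    rcases hf with rfl | hf
    · exact Relation.ReflTransGen.refl
    · have h1 := ih h.2 hf
      rw [← h.1] at h1
      exact Relation.ReflTransGen.head ⟨e, rfl, rfl⟩ h1

theorem Valid.nodup (hG : G.Acyclic) {l : List G.E} {v : G.V} (h : Valid l v) : l.Nodup := by
  induction l with
  | nil => exact List.nodup_nil
  | cons e l ih =>
    rw [List.nodup_cons]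
    refine ⟨fun he => ?_, ih h.2⟩
    have h1 := reach_of_valid h.2 he
    rw [← h.1] at h1
    exact hG (G.src e) (Relation.TransGen.head' ⟨e, rfl, rfl⟩ h1)

theorem Valid.length_le (hG : G.Acyclic) {l : List G.E} {v : G.V} (h : Valid l v)
    {E0 : Finset G.E} (hl : ∀ e ∈ l, e ∈ E0) : l.length ≤ E0.card := by
  classical
  rw [← List.toFinset_card_of_nodup (h.nodup hG)]
  exact Finset.card_le_card fun e he => hl e (List.mem_toFinset.1 he)

theorem finite_paths (hG : G.Acyclic) (E0 : Finset G.E) (V0 : Finset G.V) :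
    {x : List G.E × G.V | Valid x.1 x.2 ∧ (∀ e ∈ x.1, e ∈ E0) ∧ x.2 ∈ V0}.Finite := by
  have h1 : {l : List G.E | (∀ e ∈ l, e ∈ E0) ∧ l.length ≤ E0.card}.Finite := by
    refine ((List.finite_length_le E0 E0.card).image (List.map Subtype.val)).subset ?_
    rintro l ⟨h1, h2⟩
    have key : ∀ l : List G.E, (∀ e ∈ l, e ∈ E0) → ∃ l' : List E0, l'.map Subtype.val = l := by
      intro l
      induction l with
      | nil => exact fun _ => ⟨[], rfl⟩
      | cons e l ih =>
        intro h
        obtain ⟨l', hl'⟩ := ih fun f hf => h f (List.mem_cons_of_mem _ hf)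
        exact ⟨⟨e, h e List.mem_cons_self⟩ :: l', by rw [List.map_cons, hl']⟩
    obtain ⟨l', hl'⟩ := key l h1
    refine ⟨l', ?_, hl'⟩
    show l'.length ≤ E0.card
    rw [← hl', List.length_map] at h2
    exact h2
  refine (h1.prod V0.finite_toSet).subset ?_
  rintro ⟨l, v⟩ ⟨h2, h3, h4⟩
  exact ⟨⟨h3, h2.length_le hG h3⟩, h4⟩

end paths

namespace LeavittFamily

variable {G : Graph} {A : Type*} [NonUnitalRing A] (X : LeavittFamily G A)

theorem p_start_sP (l : List G.E) (v : G.V) : X.p (start l v) * X.sP l v = X.sP l v := by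
  cases l with
  | nil => exact X.p_mul_self v
  | cons e l =>
    show X.p (G.src e) * (X.s e * X.sP l v) = _
    rw [← mul_assoc, X.src_mul]; rfl

theorem tP_p_start (l : List G.E) (v : G.V) : X.tP l v * X.p (start l v) = X.tP l v := by
  cases l with
  | nil => exact X.p_mul_self v
  | cons e l =>
    show X.tP l v * X.t e * X.p (G.src e) = _
    rw [mul_assoc, X.mul_src]; rfl

theorem sP_not_valid {l : List G.E} {v : G.V} (h : ¬ Valid l v) : X.sP l v = 0 := by
  induction l with
  | nil => exact absurd trivial h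
  | cons e l ih =>
    by_cases h1 : G.rng e = start l v
    · have h2 : ¬ Valid l v := fun h2 => h ⟨h1, h2⟩
      rw [sP, ih h2, mul_zero]
    · rw [sP, ← X.p_start_sP, ← mul_assoc, X.s_mul_p_of_ne h1, zero_mul]

theorem tP_not_valid {l : List G.E} {v : G.V} (h : ¬ Valid l v) : X.tP l v = 0 := by
  induction l with
  | nil => exact absurd trivial h
  | cons e l ih =>
    by_cases h1 : G.rng e = start l v
    · have h2 : ¬ Valid l v := fun h2 => h ⟨h1, h2⟩
      rw [tP, ih h2, zero_mul]
    · rw [tP, ← X.tP_p_start, mul_assoc, X.p_mul_t_of_ne h1, mul_zero]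

open Classical in
/-- The complement of the ranges of the edges in `E0` at a vertex. -/
noncomputable def qv (E0 : Finset G.E) (v : G.V) : A :=
  X.p v - ∑ e ∈ E0.filter (fun e => G.src e = v), X.s e * X.t e

variable {E0 : Finset G.E}

theorem p_qv (v : G.V) : X.p v * X.qv E0 v = X.qv E0 v := by
  classical
  rw [qv, mul_sub, X.p_mul_self, Finset.mul_sum]
  congr 1
  apply Finset.sum_congr rfl
  intro e he
  rw [← mul_assoc, ← (Finset.mem_filter.1 he).2, X.src_mul]

theorem qv_p (v : G.V) : X.qv E0 v * X.p v = X.qv E0 v := by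
  classical
  rw [qv, sub_mul, X.p_mul_self, Finset.sum_mul]
  congr 1
  apply Finset.sum_congr rfl
  intro e he
  rw [mul_assoc, ← (Finset.mem_filter.1 he).2, X.mul_src]

theorem qv_s (v : G.V) {e : G.E} (he : e ∈ E0) : X.qv E0 v * X.s e = 0 := by
  classical
  rw [qv, sub_mul, Finset.sum_mul]
  by_cases h : G.src e = v
  · rw [Finset.sum_eq_single_of_mem e (Finset.mem_filter.2 ⟨he, h⟩)]
    · rw [mul_assoc, X.ghost_mul_self, X.mul_rng, ← h, X.src_mul, sub_self]
    · intro f _ hf
      rw [mul_assoc, X.ghost_mul_of_ne f e hf, mul_zero]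
  · rw [X.p_mul_s_of_ne h, Finset.sum_eq_zero, sub_zero]
    intro f hf
    rw [mul_assoc, X.ghost_mul_of_ne f e, mul_zero]
    rintro rfl
    exact h (Finset.mem_filter.1 hf).2

theorem t_qv (v : G.V) {e : G.E} (he : e ∈ E0) : X.t e * X.qv E0 v = 0 := by
  classical
  rw [qv, mul_sub, Finset.mul_sum]
  by_cases h : G.src e = v
  · rw [Finset.sum_eq_single_of_mem e (Finset.mem_filter.2 ⟨he, h⟩)]
    · rw [← mul_assoc, X.ghost_mul_self, X.rng_mul, ← h, X.mul_src, sub_self]
    · intro f _ hf
      rw [← mul_assoc, X.ghost_mul_of_ne e f hf.symm, zero_mul]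
  · rw [X.t_mul_p_of_ne h, Finset.sum_eq_zero, sub_zero]
    intro f hf
    rw [← mul_assoc, X.ghost_mul_of_ne e f, zero_mul]
    rintro rfl
    exact h (Finset.mem_filter.1 hf).2

theorem qv_qv (v : G.V) : X.qv E0 v * X.qv E0 v = X.qv E0 v := by
  classical
  have h1 : X.qv E0 v * X.qv E0 v = (X.p v - ∑ e ∈ E0.filter (fun e => G.src e = v),
      X.s e * X.t e) * X.qv E0 v := rfl
  rw [h1, sub_mul, X.p_qv, Finset.sum_mul, Finset.sum_eq_zero, sub_zero]
  intro e he
  rw [mul_assoc, X.t_qv v (Finset.mem_filter.1 he).1, mul_zero]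

open Classical in
/-- The matrix unit relation. -/
theorem qv_tP_sP_qv {l l' : List G.E} {v v' : G.V} (hl : Valid l v)
    (h1 : ∀ e ∈ l, e ∈ E0) (h2 : ∀ e ∈ l', e ∈ E0) :
    X.qv E0 v * (X.tP l v * X.sP l' v') * X.qv E0 v'
      = if l = l' ∧ v = v' then X.qv E0 v else 0 := by
  induction l generalizing l' with
  | nil =>
    cases l' with
    | nil =>
      rw [tP, sP]
      by_cases h : v = v'
      · subst h
        rw [if_pos ⟨rfl, rfl⟩, X.p_mul_self, X.qv_p, X.qv_qv]
      · rw [if_neg (fun h' => h h'.2), X.p_mul_of_ne v v' h, mul_zero, zero_mul]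
    | cons e l' =>
      rw [tP, sP, if_neg (by simp)]
      have h3 := X.qv_s v (h2 e List.mem_cons_self)
      calc X.qv E0 v * (X.p v * (X.s e * X.sP l' v')) * X.qv E0 v'
          = (X.qv E0 v * X.p v) * X.s e * X.sP l' v' * X.qv E0 v' := by noncomm_ring
        _ = 0 := by rw [X.qv_p, h3, zero_mul, zero_mul]
  | cons e l ih =>
    cases l' with
    | nil =>
      rw [tP, sP, if_neg (by simp)]
      have h3 := X.t_qv v' (h1 e List.mem_cons_self)
      calc X.qv E0 v * (X.tP l v * X.t e * X.p v') * X.qv E0 v'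
          = X.qv E0 v * X.tP l v * (X.t e * (X.p v' * X.qv E0 v')) := by noncomm_ring
        _ = 0 := by rw [X.p_qv, h3, mul_zero]
    | cons f l' =>
      rw [tP, sP]
      by_cases hef : e = f
      · subst hef
        have h3 := ih (l' := l') hl.2 (fun g hg => h1 g (List.mem_cons_of_mem _ hg))
          (fun g hg => h2 g (List.mem_cons_of_mem _ hg))
        have h4 : X.tP l v * X.t e * (X.s e * X.sP l' v') = X.tP l v * X.sP l' v' := by
          calc X.tP l v * X.t e * (X.s e * X.sP l' v')
              = X.tP l v * (X.t e * X.s e) * X.sP l' v' := by noncomm_ring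
            _ = X.tP l v * X.sP l' v' := by rw [X.ghost_mul_self, hl.1, X.tP_p_start]
        rw [h4, h3]
        by_cases h5 : l = l' ∧ v = v'
        · rw [if_pos h5, if_pos ⟨by rw [h5.1], h5.2⟩]
        · rw [if_neg h5, if_neg]
          rintro ⟨h6, h7⟩
          exact h5 ⟨(List.cons.inj h6).2, h7⟩
      · have h4 : X.tP l v * X.t e * (X.s f * X.sP l' v') = 0 := by
          calc X.tP l v * X.t e * (X.s f * X.sP l' v')
              = X.tP l v * (X.t e * X.s f) * X.sP l' v' := by noncomm_ring
            _ = 0 := by rw [X.ghost_mul_of_ne e f hef, mul_zero, zero_mul]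
        rw [h4, mul_zero, zero_mul, if_neg]
        rintro ⟨h6, -⟩
        exact hef (List.cons.inj h6).1

end LeavittFamily

end Pool.Agent.Helper665_GA
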