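import Pool.Agent.Helper665_GA.StarL
import Pool.Agent.Helper665_GA.Intertwine
import Pool.Agent.Helper665_GA.ValidPaths

/-!
# Leavitt path algebras of acyclic graphs are locally matricial (helper665)
-/

namespace Pool.Agent.Helper665_GA

namespace LPA

variable {G : Graph}

theorem star_sp (l : List G.E) (v : G.V) : star (sp ℂ G l v) = tp ℂ G l v := by
  induction l with
  | nil => exact star_p v
  | cons e l ih =>
    show star ((family ℂ G).s e * sp ℂ G l v) = tp ℂ G l v * (family ℂ G).t e
    rw [star_mul, ih, star_s]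

theorem star_tp (l : List G.E) (v : G.V) : star (tp ℂ G l v) = sp ℂ G l v := by
  rw [← star_sp, star_star]

theorem star_qv (E0 : Finset G.E) (v : G.V) :
    star ((family ℂ G).qv E0 v) = (family ℂ G).qv E0 v := by
  rw [LeavittFamily.qv, star_sub, star_p, star_sum]
  congr 1
  apply Finset.sum_congr rfl
  intro e _
  rw [star_mul, star_s, star_t]

open Classical in
/-- The matrix units of a finite subgraph. -/
noncomputable def pathSys (hG : G.Acyclic) (E0 : Finset G.E) (V0 : Finset G.V) :
    MatSys (LPA ℂ G) where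
  ι := {x : List G.E × G.V // Valid x.1 x.2 ∧ (∀ e ∈ x.1, e ∈ E0) ∧ x.2 ∈ V0}
  fin := (finite_paths hG E0 V0).fintype
  dec := Classical.decEq _
  W := G.V
  blk x := x.1.2
  m α β := if α.1.2 = β.1.2 then
    sp ℂ G α.1.1 α.1.2 * (family ℂ G).qv E0 α.1.2 * tp ℂ G β.1.1 β.1.2 else 0
  off α β h := if_neg h
  mul_ne α β γ δ h := by
    split_ifs with h1 h2
    · have h3 := (family ℂ G).qv_tP_sP_qv β.2.1 β.2.2.1 γ.2.2.1 (v' := γ.1.2)
      rw [if_neg] at h3
      · calc _ = sp ℂ G α.1.1 α.1.2 * ((family ℂ G).qv E0 β.1.2 * (tp ℂ G β.1.1 β.1.2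
              * sp ℂ G γ.1.1 γ.1.2) * (family ℂ G).qv E0 γ.1.2) * tp ℂ G δ.1.1 δ.1.2 := by
              rw [h1]; noncomm_ring
          _ = 0 := by rw [h3, mul_zero, zero_mul]
      · rintro ⟨h4, h5⟩
        exact h (Subtype.ext (Prod.ext h4 h5))
    · exact mul_zero _
    · exact zero_mul _
    · exact zero_mul _
  mul_eq α β γ h1 h2 := by
    change α.1.2 = β.1.2 at h1
    change β.1.2 = γ.1.2 at h2
    rw [if_pos h1, if_pos h2, if_pos (h1.trans h2)]
    have h3 := (family ℂ G).qv_tP_sP_qv β.2.1 β.2.2.1 β.2.2.1 (v' := β.1.2)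
    rw [if_pos ⟨rfl, rfl⟩] at h3
    calc _ = sp ℂ G α.1.1 α.1.2 * ((family ℂ G).qv E0 β.1.2 * (tp ℂ G β.1.1 β.1.2
            * sp ℂ G β.1.1 β.1.2) * (family ℂ G).qv E0 β.1.2) * tp ℂ G γ.1.1 γ.1.2 := by
            rw [h1]; noncomm_ring
        _ = _ := by rw [h3, h1]
  star_m α β := by
    split_ifs with h1 h2 h3
    · rw [star_mul, star_mul, star_sp, star_tp, star_qv, h1, mul_assoc]
    · exact absurd h1.symm h2
    · exact absurd h3.symm h1
    · exact star_zero _

theorem mono_mem_pathSys (hG : G.Acyclic) {E0 : Finset G.E} {V0 : Finset G.V}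
    (hcl : ∀ e ∈ E0, G.rng e ∈ V0) (n : ℕ) : ∀ (l l' : List G.E) (v : G.V),
    (∀ e ∈ l, e ∈ E0) → (∀ e ∈ l', e ∈ E0) → v ∈ V0 → E0.card + 1 ≤ n + l.length →
    sp ℂ G l v * tp ℂ G l' v ∈ (pathSys hG E0 V0).alg := by
  classical
  induction n with
  | zero =>
    intro l l' v h1 h2 hv hn
    have h3 : ¬ Valid l v := fun h3 => by
      have := h3.length_le hG h1
      omega
    have h4 : sp ℂ G l v = 0 := (family ℂ G).sP_not_valid h3
    rw [h4, zero_mul]
    exact zero_mem _
  | succ n ih =>
    intro l l' v h1 h2 hv hn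
    by_cases h3 : Valid l v
    · by_cases h4 : Valid l' v
      · have h5 : (family ℂ G).p v = (family ℂ G).qv E0 v
            + ∑ e ∈ E0.filter (fun e => G.src e = v), (family ℂ G).s e * (family ℂ G).t e := by
          rw [LeavittFamily.qv]; abel
        have h6 : sp ℂ G l v * tp ℂ G l' v
            = sp ℂ G l v * (family ℂ G).qv E0 v * tp ℂ G l' v
              + ∑ e ∈ E0.filter (fun e => G.src e = v), sp ℂ G (l ++ [e]) (G.rng e)
                * tp ℂ G (l' ++ [e]) (G.rng e) := by
          have h0 : sp ℂ G l v = sp ℂ G l v * (family ℂ G).p v :=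
            ((family ℂ G).sP_mul_p l v).symm
          conv_lhs => rw [h0, h5]
          rw [mul_add, add_mul, Finset.mul_sum, Finset.sum_mul]
          congr 1
          apply Finset.sum_congr rfl
          intro e he
          have he' := (Finset.mem_filter.1 he).2
          have e1 : sp ℂ G (l ++ [e]) (G.rng e) = sp ℂ G l (G.src e) * (family ℂ G).s e :=
            (family ℂ G).sP_append l e
          have e2 : tp ℂ G (l' ++ [e]) (G.rng e) = (family ℂ G).t e * tp ℂ G l' (G.src e) :=
            (family ℂ G).tP_append l' e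
          rw [e1, e2, he']
          noncomm_ring
        rw [h6]
        apply add_mem
        · have h7 := (pathSys hG E0 V0).m_mem (⟨(l, v), h3, h1, hv⟩) (⟨(l', v), h4, h2, hv⟩)
          change (if v = v then _ else _) ∈ _ at h7
          rwa [if_pos rfl] at h7
        · apply sum_mem
          intro e he
          rw [Finset.mem_filter] at he
          apply ih
          · intro f hf
            rw [List.mem_append, List.mem_singleton] at hf
            rcases hf with hf | rfl
            · exact h1 f hf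
            · exact he.1
          · intro f hf
            rw [List.mem_append, List.mem_singleton] at hf
            rcases hf with hf | rfl
            · exact h2 f hf
            · exact he.1
          · exact hcl e he.1
          · rw [List.length_append, List.length_singleton]; omega
      · have h5 : tp ℂ G l' v = 0 := (family ℂ G).tP_not_valid h4
        rw [h5, mul_zero]; exact zero_mem _
    · have h4 : sp ℂ G l v = 0 := (family ℂ G).sP_not_valid h3
      rw [h4, zero_mul]; exact zero_mem _

theorem exists_finite_subgraph (hG : G.Acyclic) (a : LPA ℂ G) :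
    ∃ (E0 : Finset G.E) (V0 : Finset G.V), ∀ (E1 : Finset G.E) (V1 : Finset G.V),
      E0 ⊆ E1 → V0 ⊆ V1 → (∀ e ∈ E1, G.rng e ∈ V1) → a ∈ (pathSys hG E1 V1).alg := by
  classical
  induction a using mono_induction with
  | hm l l' v =>
    refine ⟨l.toFinset ∪ l'.toFinset, {v}, fun E1 V1 h1 h2 hcl => ?_⟩
    apply mono_mem_pathSys hG hcl (E1.card + 1)
    · intro e he
      exact h1 (Finset.mem_union_left _ (List.mem_toFinset.2 he))
    · intro e he
      exact h1 (Finset.mem_union_right _ (List.mem_toFinset.2 he))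
    · exact h2 (Finset.mem_singleton_self v)
    · omega
  | hz => exact ⟨∅, ∅, fun _ _ _ _ _ => zero_mem _⟩
  | ha a b ha hb =>
    obtain ⟨E1, V1, h1⟩ := ha
    obtain ⟨E2, V2, h2⟩ := hb
    exact ⟨E1 ∪ E2, V1 ∪ V2, fun E3 V3 h3 h4 hcl => add_mem
      (h1 E3 V3 (Finset.union_subset_left h3) (Finset.union_subset_left h4) hcl)
      (h2 E3 V3 (Finset.union_subset_right h3) (Finset.union_subset_right h4) hcl)⟩
  | hs r a ha =>
    obtain ⟨E1, V1, h1⟩ := ha
    exact ⟨E1, V1, fun E3 V3 h3 h4 hcl => (pathSys hG E3 V3).alg.smul_mem _ (h1 E3 V3 h3 h4 hcl)⟩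

theorem locMat (hG : G.Acyclic) : LocMat (LPA ℂ G) := by
  classical
  intro F
  have key : ∀ F : Finset (LPA ℂ G), ∃ (E0 : Finset G.E) (V0 : Finset G.V),
      ∀ (E1 : Finset G.E) (V1 : Finset G.V), E0 ⊆ E1 → V0 ⊆ V1 → (∀ e ∈ E1, G.rng e ∈ V1) →
        ∀ a ∈ F, a ∈ (pathSys hG E1 V1).alg := by
    intro F
    induction F using Finset.induction_on with
    | empty => exact ⟨∅, ∅, fun _ _ _ _ _ a ha => absurd ha (Finset.notMem_empty a)⟩
    | insert a F _ ih =>
      obtain ⟨E1, V1, h1⟩ := exists_finite_subgraph hG a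
      obtain ⟨E2, V2, h2⟩ := ih
      refine ⟨E1 ∪ E2, V1 ∪ V2, fun E3 V3 h3 h4 hcl b hb => ?_⟩
      rw [Finset.mem_insert] at hb
      rcases hb with rfl | hb
      · exact h1 E3 V3 (Finset.union_subset_left h3) (Finset.union_subset_left h4) hcl
      · exact h2 E3 V3 (Finset.union_subset_right h3) (Finset.union_subset_right h4) hcl b hb
  obtain ⟨E0, V0, h⟩ := key F
  exact ⟨pathSys hG E0 (V0 ∪ E0.image G.rng), h E0 _ subset_rfl Finset.subset_union_left
    fun e he => Finset.mem_union_right _ (Finset.mem_image_of_mem _ he)⟩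

theorem ctblGen [Countable G.V] [Countable G.E] : CtblGen (LPA ℂ G) := by
  classical
  have hc : Countable (Gen G) := by
    have : Function.Surjective (fun x : G.V ⊕ G.E ⊕ G.E => match x with
      | Sum.inl v => (Gen.vert v : Gen G)
      | Sum.inr (Sum.inl e) => Gen.edge e
      | Sum.inr (Sum.inr e) => Gen.ghost e) := by
      intro x
      cases x with
      | vert v => exact ⟨Sum.inl v, rfl⟩
      | edge e => exact ⟨Sum.inr (Sum.inl e), rfl⟩
      | ghost e => exact ⟨Sum.inr (Sum.inr e), rfl⟩
    exact this.countable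
  have key : ∀ S : NonUnitalSubalgebra ℂ (LPA ℂ G), (∀ x, gen ℂ G x ∈ S) → ∀ a, a ∈ S := by
    intro S hS a
    induction a using induction with
    | hgen x => exact hS x
    | hadd a b ha hb => exact add_mem ha hb
    | hzero => exact zero_mem _
    | hmul a b ha hb => exact mul_mem ha hb
    | hsmul r a ha => exact S.smul_mem _ ha
  by_cases hne : Nonempty (Gen G)
  · obtain ⟨f, hf⟩ := exists_surjective_nat (Gen G)
    refine ⟨fun n => gen ℂ G (f n), fun S hS => key S fun x => ?_⟩
    obtain ⟨n, rfl⟩ := hf x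
    exact hS n
  · exact ⟨fun _ => 0, fun S _ => key S fun x => absurd ⟨x⟩ hne⟩

end LPA

end Pool.Agent.Helper665_GA
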