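import Pool.Agent.Helper665_GA.LPA

/-!
# Boundary paths of a graph (helper665)
-/

namespace Pool.Agent.Helper665_GA

/-- A vertex is singular if it is not regular, i.e. it emits no edge or infinitely many edges. -/
def Graph.Sing (G : Graph) (v : G.V) : Prop :=
  ¬ ∃ S : Finset G.E, S.Nonempty ∧ ∀ e, e ∈ S ↔ G.src e = v

/-- Boundary paths: infinite paths, and finite paths which end in a singular vertex; in the
second case all later edges are `none` and the vertex stays constant. -/
structure BPath (G : Graph) where
  /-- the `n`-th vertex -/
  vtx : ℕ → G.V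
  /-- the `n`-th edge -/
  edg : ℕ → Option G.E
  ok_some : ∀ n e, edg n = some e → G.src e = vtx n ∧ G.rng e = vtx (n + 1)
  ok_none : ∀ n, edg n = none → G.Sing (vtx n) ∧ vtx (n + 1) = vtx n ∧ edg (n + 1) = none

namespace BPath

variable {G : Graph}

theorem ext' {x y : BPath G} (h0 : x.vtx 0 = y.vtx 0) (h : ∀ n, x.edg n = y.edg n) : x = y := by
  have hv : ∀ n, x.vtx n = y.vtx n := by
    intro n
    induction n with
    | zero => exact h0
    | succ n ih =>
      cases hx : x.edg n with
      | none =>
        have hy : y.edg n = none := by rw [← h, hx]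
        rw [(x.ok_none n hx).2.1, (y.ok_none n hy).2.1, ih]
      | some e =>
        have hy : y.edg n = some e := by rw [← h, hx]
        rw [← (x.ok_some n e hx).2, ← (y.ok_some n e hy).2]
  cases x; cases y
  have h1 := funext hv
  have h2 := funext h
  dsimp at h1 h2
  subst h1 h2
  rfl

/-- Prepending an edge. -/
def cons (e : G.E) (x : BPath G) (h : G.rng e = x.vtx 0) : BPath G where
  vtx n := match n with
    | 0 => G.src e
    | n + 1 => x.vtx n
  edg n := match n with
    | 0 => some e
    | n + 1 => x.edg n
  ok_some n f hf := by
    cases n with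
    | zero =>
      dsimp at hf ⊢
      cases hf
      exact ⟨rfl, h⟩
    | succ n => exact x.ok_some n f hf
  ok_none n hn := by
    cases n with
    | zero => exact absurd hn (by simp)
    | succ n => exact x.ok_none n hn

/-- Removing the first edge. -/
def shift (x : BPath G) : BPath G where
  vtx n := x.vtx (n + 1)
  edg n := x.edg (n + 1)
  ok_some n f hf := x.ok_some (n + 1) f hf
  ok_none n hn := x.ok_none (n + 1) hn

@[simp] theorem cons_vtx_zero (e : G.E) (x : BPath G) (h) : (cons e x h).vtx 0 = G.src e := rfl
@[simp] theorem cons_edg_zero (e : G.E) (x : BPath G) (h) : (cons e x h).edg 0 = some e := rfl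
@[simp] theorem shift_cons (e : G.E) (x : BPath G) (h) : (cons e x h).shift = x := rfl

theorem rng_of_edg {x : BPath G} {e : G.E} (h : x.edg 0 = some e) : G.rng e = x.shift.vtx 0 :=
  (x.ok_some 0 e h).2

theorem src_of_edg {x : BPath G} {e : G.E} (h : x.edg 0 = some e) : G.src e = x.vtx 0 :=
  (x.ok_some 0 e h).1

theorem cons_shift {x : BPath G} {e : G.E} (h : x.edg 0 = some e) :
    cons e x.shift (rng_of_edg h) = x := by
  apply ext'
  · exact src_of_edg h
  · intro n
    cases n with
    | zero => exact h.symm
    | succ n => rfl

/-- The boundary path of length zero at a singular vertex. -/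
def stop (v : G.V) (h : G.Sing v) : BPath G where
  vtx _ := v
  edg _ := none
  ok_some n e he := by simp at he
  ok_none n _ := ⟨h, rfl, rfl⟩

open Classical in
/-- A chosen edge at a regular vertex. -/
noncomputable def next (G : Graph) (v : G.V) : Option G.E :=
  if h : G.Sing v then none else some (not_not.1 h).choose_spec.1.choose

theorem next_none {v : G.V} (h : next G v = none) : G.Sing v := by
  by_contra hc
  simp [next, hc] at h

theorem next_some {v : G.V} {e : G.E} (h : next G v = some e) : G.src e = v := by
  unfold next at h
  split_ifs at h with hc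
  have h1 := (not_not.1 hc).choose_spec
  have h2 := h1.1.choose_spec
  cases h
  exact (h1.2 _).1 h2

/-- Some boundary path from each vertex. -/
noncomputable def some' (v : G.V) : BPath G where
  vtx n := Nat.rec v (fun _ u => (next G u).elim u G.rng) n
  edg n := next G (Nat.rec v (fun _ u => (next G u).elim u G.rng) n)
  ok_some n e he := by
    refine ⟨next_some he, ?_⟩
    show G.rng e = (next G _).elim _ G.rng
    rw [he]; rfl
  ok_none n hn := by
    refine ⟨next_none hn, ?_, ?_⟩
    · show (next G _).elim _ G.rng = _
      rw [hn]; rfl
    · show next G ((next G _).elim _ G.rng) = _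
      rw [hn]; exact hn

@[simp] theorem some'_vtx (v : G.V) : (some' v).vtx 0 = v := rfl

open Classical in
/-- Prepending a list of edges. -/
noncomputable def app : List G.E → BPath G → Option (BPath G)
  | [], x => some x
  | e :: l, x => (app l x).bind fun y => if h : G.rng e = y.vtx 0 then some (cons e y h) else none

open Classical in
/-- Removing a list of edges. -/
noncomputable def strip : List G.E → BPath G → Option (BPath G)
  | [], x => some x
  | e :: l, x => if x.edg 0 = some e then strip l x.shift else none

theorem app_iff (l : List G.E) (x y : BPath G) : app l y = some x ↔ strip l x = some y := by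
  induction l generalizing x with
  | nil => simp [app, strip, eq_comm]
  | cons e l ih =>
    rw [app, strip]
    constructor
    · intro h
      rw [Option.bind_eq_some_iff] at h
      obtain ⟨z, hz, h2⟩ := h
      split_ifs at h2 with h3
      cases h2
      rw [if_pos (cons_edg_zero e z h3), shift_cons]
      exact (ih z).1 hz
    · intro h
      split_ifs at h with h2
      rw [(ih _).2 h, Option.bind_some, dif_pos (rng_of_edg h2), cons_shift h2]

theorem strip_unique {l l' : List G.E} {x y y' : BPath G} (h : strip l x = some y)
    (h' : strip l' x = some y') (hl : l.length = l'.length) : l = l' ∧ y = y' := by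
  induction l generalizing l' x with
  | nil =>
    cases l' with
    | nil =>
      rw [strip] at h h'
      cases h; cases h'
      exact ⟨rfl, rfl⟩
    | cons => simp at hl
  | cons e l ih =>
    cases l' with
    | nil => simp at hl
    | cons e' l' =>
      rw [strip] at h h'
      split_ifs at h with h1
      split_ifs at h' with h2
      have h3 : e = e' := by rw [h1] at h2; exact Option.some.inj h2
      obtain ⟨h4, h5⟩ := ih h h' (by simpa using hl)
      exact ⟨by rw [h3, h4], h5⟩

/-- The cylinder sets: `x` starts with `l`, and the remaining path starts at `v`. -/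
def Cyl (l : List G.E) (v : G.V) (x : BPath G) : Prop := ∃ y, strip l x = some y ∧ y.vtx 0 = v

/-- Cylinder sets separate boundary paths starting at the same vertex. -/
theorem exists_sep {x x' : BPath G} (h0 : x.vtx 0 = x'.vtx 0) (hne : x ≠ x') :
    ∃ l v, ¬ (Cyl l v x ↔ Cyl l v x') := by
  classical
  have hex : ∃ n, x.edg n ≠ x'.edg n := by
    by_contra hc
    push Not at hc
    exact hne (ext' h0 hc)
  obtain ⟨n, hn⟩ := hex
  have key : ∀ (n : ℕ) (x x' : BPath G), x.edg n ≠ x'.edg n → ∃ l v, ¬ (Cyl l v x ↔ Cyl l v x') := by
    intro n
    induction n with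
    | zero =>
      intro x x' hn
      have h1 : ∀ x x' : BPath G, x.edg 0 ≠ x'.edg 0 → ∀ e, x.edg 0 = some e →
          ∃ l v, Cyl l v x ∧ ¬ Cyl l v x' := by
        intro x x' hn e he
        refine ⟨[e], x.shift.vtx 0, ⟨x.shift, ?_, rfl⟩, ?_⟩
        · rw [strip, if_pos he, strip]
        · rintro ⟨y, hy, -⟩
          rw [strip, if_neg (by rw [← he]; exact fun h => hn h.symm)] at hy
          simp at hy
      cases hx : x.edg 0 with
      | some e =>
        obtain ⟨l, v, h2, h3⟩ := h1 x x' hn e hx
        exact ⟨l, v, fun h => h3 (h.1 h2)⟩
      | none =>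
        cases hx' : x'.edg 0 with
        | some e =>
          obtain ⟨l, v, h2, h3⟩ := h1 x' x hn.symm e hx'
          exact ⟨l, v, fun h => h3 (h.2 h2)⟩
        | none => exact absurd (hx.trans hx'.symm) hn
    | succ n ih =>
      intro x x' hn
      by_cases h0 : x.edg 0 = x'.edg 0
      · cases hx : x.edg 0 with
        | none =>
          have hx' : x'.edg 0 = none := by rw [← h0, hx]
          have h1 : ∀ x : BPath G, x.edg 0 = none → ∀ n, x.edg n = none := by
            intro x hx n
            induction n with
            | zero => exact hx
            | succ n ih => exact (x.ok_none n ih).2.2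
          exact absurd ((h1 x hx _).trans (h1 x' hx' _).symm) hn
        | some e =>
          have hx' : x'.edg 0 = some e := by rw [← h0, hx]
          obtain ⟨l, v, h2⟩ := ih x.shift x'.shift hn
          refine ⟨e :: l, v, ?_⟩
          have h3 : ∀ x : BPath G, x.edg 0 = some e → (Cyl (e :: l) v x ↔ Cyl l v x.shift) := by
            intro x hx
            rw [Cyl, Cyl, strip, if_pos hx]
          rw [h3 x hx, h3 x' hx']
          exact h2
      · have h1 : ∀ x x' : BPath G, x.edg 0 ≠ x'.edg 0 → ∀ e, x.edg 0 = some e →
            ∃ l v, Cyl l v x ∧ ¬ Cyl l v x' := by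
          intro x x' hn e he
          refine ⟨[e], x.shift.vtx 0, ⟨x.shift, ?_, rfl⟩, ?_⟩
          · rw [strip, if_pos he, strip]
          · rintro ⟨y, hy, -⟩
            rw [strip, if_neg (by rw [← he]; exact fun h => hn h.symm)] at hy
            simp at hy
        cases hx : x.edg 0 with
        | some e =>
          obtain ⟨l, v, h2, h3⟩ := h1 x x' h0 e hx
          exact ⟨l, v, fun h => h3 (h.1 h2)⟩
        | none =>
          cases hx' : x'.edg 0 with
          | some e =>
            obtain ⟨l, v, h2, h3⟩ := h1 x' x (fun h => h0 h.symm) e hx'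
            exact ⟨l, v, fun h => h3 (h.2 h2)⟩
          | none => exact absurd (hx.trans hx'.symm) h0
  exact key n x x' hn

end BPath

end Pool.Agent.Helper665_GA
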