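import Pool.Agent.Helper665_GA.Laurent

/-!
# Idempotents in block algebras over Laurent polynomials (helper665)
-/

namespace Pool.Agent.Helper665_GA

open LaurentPolynomial

variable {K : Type*} [Field K] {A : Type*} [NonUnitalRing A] [Module K A] [IsScalarTower K A A]
  [SMulCommClass K A A]

omit [IsScalarTower K A A] [SMulCommClass K A A] in
theorem single_block {ι : Type*} [Fintype ι] [DecidableEq ι] (row col : ι → A)
    (e : K[T;T⁻¹] →ₙₐ[K] A) (hinj : Function.Injective e)
    (hcr : ∀ i j, col i * row j = if i = j then e 1 else 0)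
    {q : A} (C : Matrix ι ι K[T;T⁻¹]) (hq : q = ∑ i, ∑ j, row i * e (C i j) * col j)
    (hq0 : q ≠ 0) (hqq : q * q = q)
    (hcorner : ∀ a, a * a = a → q * a = a → a * q = a → a = 0 ∨ a = q) :
    ∃ a a', a * a' = q ∧ a' * a = e 1 := by
  set Φ : Matrix ι ι K[T;T⁻¹] → A := fun C => ∑ i, ∑ j, row i * e (C i j) * col j with hΦ
  have h1 : ∀ (D : Matrix ι ι K[T;T⁻¹]) (k : ι), col k * Φ D = ∑ j, e (D k j) * col j := by
    intro D k
    rw [hΦ, Finset.mul_sum]
    rw [Finset.sum_eq_single_of_mem k (Finset.mem_univ k)]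
    · rw [Finset.mul_sum]
      apply Finset.sum_congr rfl
      intro j _
      rw [← mul_assoc, ← mul_assoc, hcr, if_pos rfl, ← map_mul, one_mul]
    · intro i _ hi
      rw [Finset.mul_sum]
      apply Finset.sum_eq_zero
      intro j _
      rw [← mul_assoc, ← mul_assoc, hcr, if_neg (fun h => hi h.symm), zero_mul, zero_mul]
  have h2 : ∀ (D : Matrix ι ι K[T;T⁻¹]) (k l : ι), col k * Φ D * row l = e (D k l) := by
    intro D k l
    rw [h1, Finset.sum_mul, Finset.sum_eq_single_of_mem l (Finset.mem_univ l)]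
    · rw [mul_assoc, hcr, if_pos rfl, ← map_mul, mul_one]
    · intro j _ hj
      rw [mul_assoc, hcr, if_neg hj, mul_zero]
  have h3 : ∀ C D : Matrix ι ι K[T;T⁻¹], Φ C * Φ D = Φ (C * D) := by
    intro C D
    have e1 : Φ C * Φ D = ∑ i, ∑ j, row i * e (C i j) * (col j * Φ D) := by
      show (∑ i, ∑ j, row i * e (C i j) * col j) * Φ D = _
      rw [Finset.sum_mul]
      apply Finset.sum_congr rfl
      intro i _
      rw [Finset.sum_mul]
      apply Finset.sum_congr rfl
      intro j _
      rw [mul_assoc]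
    rw [e1]
    show _ = ∑ i, ∑ l, row i * e ((C * D) i l) * col l
    apply Finset.sum_congr rfl
    intro i _
    have e2 : ∀ j, row i * e (C i j) * (col j * Φ D)
        = ∑ l, row i * e (C i j * D j l) * col l := by
      intro j
      rw [h1, Finset.mul_sum]
      apply Finset.sum_congr rfl
      intro l _
      rw [map_mul]; noncomm_ring
    rw [Finset.sum_congr rfl fun j _ => e2 j, Finset.sum_comm]
    apply Finset.sum_congr rfl
    intro l _
    rw [Matrix.mul_apply, map_sum, Finset.mul_sum, Finset.sum_mul]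
  have hqC : q = Φ C := hq
  have hC : C * C = C := by
    ext1 k l
    apply hinj
    rw [← h2, ← h2, ← h3, ← hqC, hqq]
  obtain ⟨r, M, M', hM1, hM2⟩ := exists_split C hC
  have hr0 : r ≠ 0 := by
    rintro rfl
    apply hq0
    rw [hqC]
    have : C = 0 := by
      rw [← hM1]; ext i j; rw [Matrix.mul_apply]; simp
    rw [this]
    show ∑ i, ∑ j, row i * e 0 * col j = 0
    simp
  obtain ⟨r, rfl⟩ := Nat.exists_eq_succ_of_ne_zero hr0
  set v : ι → K[T;T⁻¹] := fun i => M i 0 with hv
  set w : ι → K[T;T⁻¹] := fun j => M' 0 j with hw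
  have hCM : C * M = M := by rw [← hM1, Matrix.mul_assoc, hM2, Matrix.mul_one]
  have hMC : M' * C = M' := by rw [← hM1, ← Matrix.mul_assoc, hM2, Matrix.one_mul]
  set D : Matrix ι ι K[T;T⁻¹] := fun i j => v i * w j with hD
  have hCD : C * D = D := by
    ext1 i j
    rw [Matrix.mul_apply]
    have := congrFun (congrFun hCM i) 0
    rw [Matrix.mul_apply] at this
    show ∑ k, C i k * (M k 0 * M' 0 j) = M i 0 * M' 0 j
    rw [← this, Finset.sum_mul]
    apply Finset.sum_congr rfl
    intro k _
    ring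
  have hDC : D * C = D := by
    ext1 i j
    rw [Matrix.mul_apply]
    have := congrFun (congrFun hMC 0) j
    rw [Matrix.mul_apply] at this
    show ∑ k, (M i 0 * M' 0 k) * C k j = M i 0 * M' 0 j
    rw [← this, Finset.mul_sum]
    apply Finset.sum_congr rfl
    intro k _
    ring
  have hwv : ∑ i, w i * v i = 1 := by
    have := congrFun (congrFun hM2 0) 0
    rw [Matrix.mul_apply, Matrix.one_apply_eq] at this
    exact this
  have hDD : D * D = D := by
    ext1 i j
    rw [Matrix.mul_apply]
    show ∑ k, (v i * w k) * (v k * w j) = v i * w j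
    have : ∀ k, (v i * w k) * (v k * w j) = (v i * w j) * (w k * v k) := fun k => by ring
    rw [Finset.sum_congr rfl fun k _ => this k, ← Finset.mul_sum, hwv, mul_one]
  set a : A := ∑ i, row i * e (v i) with ha
  set a' : A := ∑ j, e (w j) * col j with ha'
  have haa' : a * a' = Φ D := by
    rw [ha, Finset.sum_mul]
    show _ = ∑ i, ∑ j, row i * e (v i * w j) * col j
    apply Finset.sum_congr rfl
    intro i _
    rw [ha', Finset.mul_sum]
    apply Finset.sum_congr rfl
    intro j _
    rw [map_mul]; noncomm_ring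
  have ha'a : a' * a = e 1 := by
    rw [ha', Finset.sum_mul, ← hwv, map_sum]
    apply Finset.sum_congr rfl
    intro i _
    rw [ha, Finset.mul_sum, Finset.sum_eq_single_of_mem i (Finset.mem_univ i)]
    · calc e (w i) * col i * (row i * e (v i)) = e (w i) * (col i * row i) * e (v i) := by
            noncomm_ring
        _ = e (w i * v i) := by rw [hcr, if_pos rfl, ← map_mul, ← map_mul, mul_one]
    · intro j _ hj
      calc e (w i) * col i * (row j * e (v j)) = e (w i) * (col i * row j) * e (v j) := by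
            noncomm_ring
        _ = 0 := by rw [hcr, if_neg (fun h => hj h.symm), mul_zero, zero_mul]
  have hne : Φ D ≠ 0 := by
    intro h0
    have h4 : e 1 = 0 := by
      calc e 1 = e 1 * e 1 := by rw [← map_mul, one_mul]
        _ = a' * (a * a') * a := by rw [← ha'a]; noncomm_ring
        _ = 0 := by rw [haa', h0, mul_zero, zero_mul]
    have h5 : (1 : K[T;T⁻¹]) = 0 := hinj (by rw [h4, map_zero])
    exact one_ne_zero h5
  rcases hcorner (Φ D) (by rw [h3, hDD]) (by rw [hqC, h3, hCD]) (by rw [hqC, h3, hDC])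
    with h | h
  · exact absurd h hne
  · exact ⟨a, a', haa'.trans h, ha'a⟩

theorem sum_ite_subtype {ι M : Type*} [Fintype ι] [AddCommMonoid M] (p : ι → Prop)
    [DecidablePred p] (f : ι → M) :
    ∑ i, (if p i then f i else 0) = ∑ i : {i // p i}, f i.1 := by
  rw [← Finset.sum_filter]
  exact Finset.sum_subtype _ (by simp) _

variable (K A) in
/-- A system of matrix units over Laurent polynomials. -/
structure RSys where
  /-- indices -/
  ι : Type
  [fin : Fintype ι]
  [dec : DecidableEq ι]
  /-- blocks -/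
  W : Type
  [decW : DecidableEq W]
  /-- the block of an index -/
  blk : ι → W
  /-- rows -/
  row : ι → A
  /-- columns -/
  col : ι → A
  /-- evaluation -/
  ev : W → K[T;T⁻¹] →ₙₐ[K] A
  col_row : ∀ i j, i ≠ j → col i * row j = 0
  col_row_self : ∀ i, col i * row i = ev (blk i) 1

namespace RSys

attribute [instance] RSys.fin RSys.dec RSys.decW

variable (S : RSys K A)

/-- The matrix units with coefficients. -/
noncomputable def u (i : S.ι) (f : K[T;T⁻¹]) (j : S.ι) : A :=
  if S.blk i = S.blk j then S.row i * S.ev (S.blk i) f * S.col j else 0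

theorem u_add (i : S.ι) (f g : K[T;T⁻¹]) (j : S.ι) : S.u i (f + g) j = S.u i f j + S.u i g j := by
  unfold u
  split_ifs
  · rw [map_add, mul_add, add_mul]
  · rw [add_zero]

theorem u_zero (i j : S.ι) : S.u i 0 j = 0 := by
  unfold u
  split_ifs
  · rw [map_zero, mul_zero, zero_mul]
  · rfl

theorem u_smul (r : K) (i : S.ι) (f : K[T;T⁻¹]) (j : S.ι) :
    S.u i (r • f) j = r • S.u i f j := by
  unfold u
  split_ifs
  · rw [map_smul, mul_smul_comm, smul_mul_assoc]
  · rw [smul_zero]

theorem u_sum {κ : Type*} (s : Finset κ) (i : S.ι) (f : κ → K[T;T⁻¹]) (j : S.ι) :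
    S.u i (∑ k ∈ s, f k) j = ∑ k ∈ s, S.u i (f k) j := by
  classical
  induction s using Finset.induction_on with
  | empty => rw [Finset.sum_empty, Finset.sum_empty, u_zero]
  | insert a s ha ih => rw [Finset.sum_insert ha, Finset.sum_insert ha, u_add, ih]

theorem u_mul_ne (i j k l : S.ι) (f g : K[T;T⁻¹]) (h : j ≠ k) : S.u i f j * S.u k g l = 0 := by
  unfold u
  split_ifs
  · calc _ = S.row i * S.ev (S.blk i) f * (S.col j * S.row k) * S.ev (S.blk k) g * S.col l := by
          noncomm_ring
      _ = 0 := by rw [S.col_row j k h, mul_zero, zero_mul, zero_mul]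
  · exact mul_zero _
  · exact zero_mul _
  · exact zero_mul _

theorem u_mul_mid (i j l : S.ι) (f g : K[T;T⁻¹]) :
    S.u i f j * S.u j g l = S.u i (if S.blk i = S.blk j then f * g else 0) l := by
  by_cases h1 : S.blk i = S.blk j
  · rw [if_pos h1]
    by_cases h2 : S.blk j = S.blk l
    · unfold u
      rw [if_pos h1, if_pos h2, if_pos (h1.trans h2)]
      calc S.row i * S.ev (S.blk i) f * S.col j * (S.row j * S.ev (S.blk j) g * S.col l)
          = S.row i * (S.ev (S.blk i) f * (S.col j * S.row j) * S.ev (S.blk j) g) * S.col l := by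
            noncomm_ring
        _ = _ := by rw [S.col_row_self, ← h1, ← map_mul, ← map_mul, mul_one]
    · unfold u
      rw [if_neg h2, mul_zero, if_neg (fun h => h2 (h1.symm.trans h))]
  · rw [if_neg h1, u_zero]
    unfold u
    rw [if_neg h1, zero_mul]

/-- The element of a matrix. -/
noncomputable def Φ (C : S.ι → S.ι → K[T;T⁻¹]) : A := ∑ i, ∑ j, S.u i (C i j) j

theorem Φ_add (C D : S.ι → S.ι → K[T;T⁻¹]) : S.Φ (C + D) = S.Φ C + S.Φ D := by
  unfold Φ
  rw [← Finset.sum_add_distrib]
  apply Finset.sum_congr rfl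
  intro i _
  rw [← Finset.sum_add_distrib]
  exact Finset.sum_congr rfl fun j _ => S.u_add _ _ _ _

theorem Φ_zero : S.Φ 0 = 0 :=
  Finset.sum_eq_zero fun i _ => Finset.sum_eq_zero fun j _ => S.u_zero i j

theorem Φ_smul (r : K) (C : S.ι → S.ι → K[T;T⁻¹]) : S.Φ (r • C) = r • S.Φ C := by
  unfold Φ
  rw [Finset.smul_sum]
  apply Finset.sum_congr rfl
  intro i _
  rw [Finset.smul_sum]
  exact Finset.sum_congr rfl fun j _ => S.u_smul _ _ _ _

theorem u_mul_Φ (i j : S.ι) (f : K[T;T⁻¹]) (D : S.ι → S.ι → K[T;T⁻¹]) :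
    S.u i f j * S.Φ D = ∑ l, S.u i (if S.blk i = S.blk j then f * D j l else 0) l := by
  unfold Φ
  rw [Finset.mul_sum, Finset.sum_eq_single_of_mem j (Finset.mem_univ j)]
  · rw [Finset.mul_sum]
    exact Finset.sum_congr rfl fun l _ => S.u_mul_mid _ _ _ _ _
  · intro k _ hk
    rw [Finset.mul_sum]
    exact Finset.sum_eq_zero fun l _ => S.u_mul_ne _ _ _ _ _ _ hk.symm

theorem Φ_mul (C D : S.ι → S.ι → K[T;T⁻¹]) : S.Φ C * S.Φ D
    = S.Φ fun i l => ∑ j, if S.blk i = S.blk j then C i j * D j l else 0 := by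
  have h1 : S.Φ C * S.Φ D = ∑ i, ∑ j, S.u i (C i j) j * S.Φ D := by
    conv_lhs => rw [Φ, Finset.sum_mul]
    exact Finset.sum_congr rfl fun i _ => Finset.sum_mul _ _ _
  rw [h1]
  conv_rhs => unfold Φ
  apply Finset.sum_congr rfl
  intro i _
  rw [Finset.sum_congr rfl fun j _ => S.u_mul_Φ i j (C i j) D, Finset.sum_comm]
  apply Finset.sum_congr rfl
  intro l _
  rw [S.u_sum]

/-- The block algebra. -/
noncomputable def alg : NonUnitalSubalgebra K A where
  carrier := {a | ∃ C, S.Φ C = a}
  add_mem' := by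
    rintro _ _ ⟨C, rfl⟩ ⟨D, rfl⟩
    exact ⟨C + D, S.Φ_add C D⟩
  zero_mem' := ⟨0, S.Φ_zero⟩
  mul_mem' := by
    rintro _ _ ⟨C, rfl⟩ ⟨D, rfl⟩
    exact ⟨_, (S.Φ_mul C D).symm⟩
  smul_mem' := by
    rintro r _ ⟨C, rfl⟩
    exact ⟨r • C, S.Φ_smul r C⟩

theorem u_mem (i j : S.ι) (f : K[T;T⁻¹]) : S.u i f j ∈ S.alg := by
  refine ⟨fun k l => if k = i ∧ l = j then f else 0, ?_⟩
  show ∑ k, ∑ l, S.u k (if k = i ∧ l = j then f else 0) l = _
  rw [Finset.sum_eq_single_of_mem i (Finset.mem_univ i), Finset.sum_eq_single_of_mem j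
    (Finset.mem_univ j), if_pos ⟨rfl, rfl⟩]
  · intro l _ hl
    rw [if_neg (fun h => hl h.2), S.u_zero]
  · intro k _ hk
    apply Finset.sum_eq_zero
    intro l _
    rw [if_neg (fun h => hk h.1), S.u_zero]

/-- The units of the blocks. -/
noncomputable def z (w : S.W) : A := ∑ i, if S.blk i = w then S.u i 1 i else 0

theorem z_mul_u (w : S.W) (i j : S.ι) (f : K[T;T⁻¹]) :
    S.z w * S.u i f j = if S.blk i = w then S.u i f j else 0 := by
  unfold z
  rw [Finset.sum_mul, Finset.sum_eq_single_of_mem i (Finset.mem_univ i)]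
  · split_ifs
    · rw [S.u_mul_mid, if_pos rfl, one_mul]
    · rw [zero_mul]
  · intro k _ hk
    split_ifs
    · exact S.u_mul_ne _ _ _ _ _ _ hk
    · exact zero_mul _

theorem u_mul_z (w : S.W) (i j : S.ι) (f : K[T;T⁻¹]) :
    S.u i f j * S.z w = if S.blk i = w then S.u i f j else 0 := by
  unfold z
  rw [Finset.mul_sum, Finset.sum_eq_single_of_mem j (Finset.mem_univ j)]
  · by_cases h : S.blk i = S.blk j
    · rw [← h]
      split_ifs
      · rw [S.u_mul_mid, if_pos h, mul_one]
      · rw [mul_zero]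
    · have : S.u i f j = 0 := if_neg h
      rw [this, zero_mul, ite_self]
  · intro k _ hk
    split_ifs
    · exact S.u_mul_ne _ _ _ _ _ _ hk.symm
    · exact mul_zero _

theorem z_mul_Φ (w : S.W) (C : S.ι → S.ι → K[T;T⁻¹]) :
    S.z w * S.Φ C = ∑ i, if S.blk i = w then ∑ j, S.u i (C i j) j else 0 := by
  unfold Φ
  rw [Finset.mul_sum]
  apply Finset.sum_congr rfl
  intro i _
  rw [Finset.mul_sum, Finset.sum_congr rfl fun j _ => S.z_mul_u w i j (C i j)]
  split_ifs
  · rfl
  · exact Finset.sum_const_zero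

theorem Φ_mul_z (w : S.W) (C : S.ι → S.ι → K[T;T⁻¹]) :
    S.Φ C * S.z w = ∑ i, if S.blk i = w then ∑ j, S.u i (C i j) j else 0 := by
  unfold Φ
  rw [Finset.sum_mul]
  apply Finset.sum_congr rfl
  intro i _
  rw [Finset.sum_mul, Finset.sum_congr rfl fun j _ => S.u_mul_z w i j (C i j)]
  split_ifs
  · rfl
  · exact Finset.sum_const_zero

theorem z_comm (w : S.W) {a : A} (ha : a ∈ S.alg) : S.z w * a = a * S.z w := by
  obtain ⟨C, rfl⟩ := ha
  rw [z_mul_Φ, Φ_mul_z]

theorem z_mul_self (w : S.W) : S.z w * S.z w = S.z w := by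
  show (∑ i, if S.blk i = w then S.u i 1 i else 0) * S.z w = _
  rw [Finset.sum_mul]
  show _ = ∑ i, if S.blk i = w then S.u i 1 i else 0
  apply Finset.sum_congr rfl
  intro i _
  split_ifs with h
  · rw [S.u_mul_z, if_pos h]
  · rw [zero_mul]

theorem sum_z_mul {a : A} (ha : a ∈ S.alg) : ∑ w ∈ Finset.univ.image S.blk, S.z w * a = a := by
  obtain ⟨C, rfl⟩ := ha
  rw [Finset.sum_congr rfl fun w _ => S.z_mul_Φ w C, Finset.sum_comm]
  conv_rhs => unfold Φ
  apply Finset.sum_congr rfl
  intro i _
  rw [Finset.sum_ite_eq, if_pos (Finset.mem_image_of_mem _ (Finset.mem_univ i))]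

/-- The main statement: the position of an idempotent with corner the Laurent polynomials. -/
theorem main (g : K[T;T⁻¹] →ₙₐ[K] A) (hginj : Function.Injective g) (hg : ∀ f, g f ∈ S.alg)
    (hcorner : ∀ a, a * a = a → g 1 * a = a → a * g 1 = a → a = 0 ∨ a = g 1)
    (isB : S.W → Prop) (hfin : ∀ w, ¬ isB w → ∀ f, ∃ r : K, S.ev w f = r • S.ev w 1)
    (hinj : ∀ w, isB w → Function.Injective (S.ev w)) :
    ∃ w, isB w ∧ ∃ a a', a * a' = g 1 ∧ a' * a = S.ev w 1 := by
  classical
  have hq0 : g 1 ≠ 0 := by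
    intro h
    have h5 : (1 : K[T;T⁻¹]) = 0 := hginj (by rw [h, map_zero])
    exact one_ne_zero h5
  have hqq : g 1 * g 1 = g 1 := by rw [← map_mul, mul_one]
  -- the block
  obtain ⟨w, hw⟩ : ∃ w, S.z w * g 1 = g 1 := by
    by_contra hcon
    push Not at hcon
    apply hq0
    rw [← S.sum_z_mul (hg 1)]
    apply Finset.sum_eq_zero
    intro w _
    have hcm := S.z_comm w (hg 1)
    rcases hcorner (S.z w * g 1) (by
      calc S.z w * g 1 * (S.z w * g 1) = S.z w * (g 1 * S.z w) * g 1 := by noncomm_ring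
        _ = (S.z w * S.z w) * (g 1 * g 1) := by rw [← hcm]; noncomm_ring
        _ = _ := by rw [S.z_mul_self, hqq]) (by
      rw [← mul_assoc, ← hcm, mul_assoc, hqq]) (by rw [mul_assoc, hqq]) with h | h
    · exact h
    · exact absurd h (hcon w)
  have hwg : ∀ f, S.z w * g f = g f := by
    intro f
    calc S.z w * g f = S.z w * g (1 * f) := by rw [one_mul]
      _ = (S.z w * g 1) * g f := by rw [map_mul, mul_assoc]
      _ = g f := by rw [hw, ← map_mul, one_mul]
  by_cases hB : isB w
  · refine ⟨w, hB, ?_⟩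
    obtain ⟨C, hC⟩ := hg 1
    have h1 : g 1 = ∑ i : {i // S.blk i = w}, ∑ j : {j // S.blk j = w},
        S.row i.1 * S.ev w (C i.1 j.1) * S.col j.1 := by
      rw [← hw, ← hC, z_mul_Φ, sum_ite_subtype (fun i => S.blk i = w)]
      apply Finset.sum_congr rfl
      rintro ⟨i, hi⟩ _
      rw [← sum_ite_subtype (fun j => S.blk j = w)
        (fun j => S.row i * S.ev w (C i j) * S.col j)]
      apply Finset.sum_congr rfl
      intro j _
      show S.u i (C i j) j = _
      unfold u
      rw [hi]
      by_cases hj : S.blk j = w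
      · rw [if_pos hj, if_pos hj.symm]
      · rw [if_neg hj, if_neg (fun h => hj h.symm)]
    refine single_block (fun i : {i // S.blk i = w} => S.row i.1) (fun i => S.col i.1) (S.ev w)
      (hinj w hB) (fun i j => ?_) (fun i j => C i.1 j.1) h1 hq0 hqq
      hcorner
    split_ifs with h
    · rw [h, S.col_row_self, j.2]
    · exact S.col_row _ _ fun h' => h (Subtype.ext h')
  · exfalso
    -- finite dimensional range
    set B : Submodule K A := Submodule.span K (Set.range fun x : S.ι × S.ι => S.u x.1 1 x.2)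
      with hBdef
    have hBfin : Module.Finite K B := by
      rw [hBdef]
      exact Module.Finite.span_of_finite K (Set.finite_range _)
    have hgB : ∀ f, g f ∈ B := by
      intro f
      obtain ⟨C, hC⟩ := hg f
      rw [← hwg f, ← hC, z_mul_Φ]
      apply Submodule.sum_mem
      intro i _
      split_ifs with hi
      · apply Submodule.sum_mem
        intro j _
        have : S.u i (C i j) j ∈ B := by
          obtain ⟨r, hr⟩ := hfin w hB (C i j)
          have h2 : S.u i (C i j) j = r • S.u i 1 j := by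
            unfold u
            rw [hi, hr]
            split_ifs
            · rw [mul_smul_comm, smul_mul_assoc]
            · rw [smul_zero]
          rw [h2]
          exact B.smul_mem r (Submodule.subset_span ⟨(i, j), rfl⟩)
        exact this
      · exact B.zero_mem
    let g' : K[T;T⁻¹] →ₗ[K] B :=
      { toFun := fun f => ⟨g f, hgB f⟩
        map_add' := fun a b => Subtype.ext (map_add g a b)
        map_smul' := fun r a => Subtype.ext (map_smul g r a) }
    have hg' : Function.Injective g' := by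
      intro a b h
      exact hginj (congrArg Subtype.val h)
    exact laurent_not_finite K (Module.Finite.of_injective g' hg')

end RSys

end Pool.Agent.Helper665_GA
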