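import Pool.Agent.Helper665_GA.Norm

/-!
# The retraction from Leavitt families to Cuntz-Krieger families (helper665)
-/

namespace Pool.Agent.Helper665_GA

namespace CKFamily

variable {G : Graph}

section map
variable {A B : Type*} [NonUnitalRing A] [StarRing A] [NonUnitalRing B] [StarRing B]

/-- The image of a Cuntz-Krieger family under a star homomorphism. -/
def map {F : Type*} [FunLike F A B] [NonUnitalRingHomClass F A B] [StarHomClass F A B] (f : F)
    (X : CKFamily G A) : CKFamily G B where
  p v := f (X.p v)
  s e := f (X.s e)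
  p_star v := by rw [← map_star, X.p_star]
  p_mul_self v := by rw [← map_mul, X.p_mul_self]
  p_mul_of_ne v w h := by rw [← map_mul, X.p_mul_of_ne v w h, map_zero]
  star_mul_self e := by rw [← map_star, ← map_mul, X.star_mul_self]
  range_orth e f' h := by
    simp only [← map_star, ← map_mul, X.range_orth e f' h, map_zero]
  range_le e := by simp only [← map_star, ← map_mul, X.range_le e]
  sum_eq v S hS h := by
    rw [← X.sum_eq v S hS h, map_sum]
    exact Finset.sum_congr rfl fun e _ => by rw [map_mul, map_star]

@[simp] theorem map_p {F : Type*} [FunLike F A B] [NonUnitalRingHomClass F A B]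
    [StarHomClass F A B] (f : F) (X : CKFamily G A) (v : G.V) : (X.map f).p v = f (X.p v) := rfl
@[simp] theorem map_s {F : Type*} [FunLike F A B] [NonUnitalRingHomClass F A B]
    [StarHomClass F A B] (f : F) (X : CKFamily G A) (e : G.E) : (X.map f).s e = f (X.s e) := rfl
end map

variable {A : Type*} [NonUnitalCStarAlgebra A]

theorem s_mul_p (X : CKFamily G A) (e : G.E) : X.s e * X.p (G.rng e) = X.s e := by
  have h0 : X.s e * X.p (G.rng e) - X.s e = 0 := by
    rw [← CStarRing.star_mul_self_eq_zero_iff]
    have h1 := X.star_mul_self e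
    have h2 := X.p_star (G.rng e)
    have h3 := X.p_mul_self (G.rng e)
    set p := X.p (G.rng e)
    set s := X.s e
    calc star (s * p - s) * (s * p - s)
        = star p * (star s * s) * p - star p * (star s * s) - (star s * s) * p + star s * s := by
          simp only [star_sub, star_mul]; noncomm_ring
      _ = 0 := by rw [h1, h2]; simp [h3]
  exact sub_eq_zero.1 h0

theorem p_mul_s (X : CKFamily G A) (e : G.E) : X.p (G.src e) * X.s e = X.s e := by
  have h1 := congrArg (· * X.s e) (X.range_le e)
  simp only [mul_assoc] at h1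
  rw [X.star_mul_self, X.s_mul_p] at h1
  exact h1

theorem star_s_mul_s_ne (X : CKFamily G A) (e f : G.E) (h : e ≠ f) :
    star (X.s e) * X.s f = 0 := by
  have h1 : star (X.s e) * X.s f
      = star (X.s e) * ((X.s e * star (X.s e)) * (X.s f * star (X.s f))) * X.s f := by
    have a1 : star (X.s e) = (star (X.s e) * X.s e) * star (X.s e) := by
      rw [X.star_mul_self]
      have := congrArg star (X.s_mul_p e)
      rw [star_mul, X.p_star] at this
      exact this.symm
    have a2 : X.s f = X.s f * (star (X.s f) * X.s f) := by
      rw [X.star_mul_self, X.s_mul_p]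
    calc star (X.s e) * X.s f
        = ((star (X.s e) * X.s e) * star (X.s e)) * (X.s f * (star (X.s f) * X.s f)) := by
          rw [← a1, ← a2]
      _ = _ := by simp only [mul_assoc]
  rw [h1, X.range_orth e f h]; simp

/-- The Leavitt family underlying a Cuntz-Krieger family. -/
def toLeavitt (X : CKFamily G A) : LeavittFamily G A where
  p := X.p
  s := X.s
  t e := star (X.s e)
  p_mul_self := X.p_mul_self
  p_mul_of_ne := X.p_mul_of_ne
  src_mul := X.p_mul_s
  mul_rng := X.s_mul_p
  rng_mul e := by
    have := congrArg star (X.s_mul_p e)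
    rwa [star_mul, X.p_star] at this
  mul_src e := by
    have := congrArg star (X.p_mul_s e)
    rwa [star_mul, X.p_star] at this
  ghost_mul_self := X.star_mul_self
  ghost_mul_of_ne := X.star_s_mul_s_ne
  sum_eq := X.sum_eq

theorem toLeavitt_map {B F : Type*} [NonUnitalCStarAlgebra B] [FunLike F A B]
    [NonUnitalRingHomClass F A B] [StarHomClass F A B] (f : F) (X : CKFamily G A) :
    (X.map f).toLeavitt = X.toLeavitt.map f := by
  ext
  · rfl
  · rfl
  · exact (map_star f _).symm

end CKFamily

section unital

variable {G : Graph} {B : Type*} [CStarAlgebra B] {cv : G.V → ℕ} {ce : G.E → ℕ}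

namespace LeavittFamily

theorem one_comm (b : B) : (1 : B) * b = b * 1 := by simp

/-- Both straightening steps. -/
noncomputable def stepVE (hcv : Function.Injective cv) (hce : Function.Injective ce)
    (X : LeavittFamily G B) : LeavittFamily G B :=
  stepE hce 1 one_comm (stepV hcv 1 one_comm X) (stepV_one_star hcv one_comm X)

theorem stepVE_straight (hcv : Function.Injective cv) (hce : Function.Injective ce)
    (X : LeavittFamily G B) : (stepVE hcv hce X).Straight where
  p_star := stepV_one_star hcv one_comm X
  st_star := stepE_one_star hce one_comm _ _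

/-- The retraction of Leavitt families onto Cuntz-Krieger families. -/
noncomputable def retr (hcv : Function.Injective cv) (hce : Function.Injective ce)
    (X : LeavittFamily G B) : CKFamily G B :=
  (stepVE hcv hce X).polar (stepVE_straight hcv hce X)

theorem stepV_congr (hcv : Function.Injective cv) {τ τ' : B} (h : τ = τ')
    (hτ : ∀ b : B, τ * b = b * τ) (hτ' : ∀ b : B, τ' * b = b * τ')
    (X : LeavittFamily G B) : stepV hcv τ hτ X = stepV hcv τ' hτ' X := by
  subst h; rfl

theorem stepE_congr (hce : Function.Injective ce) {τ τ' : B} (h : τ = τ')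
    (hτ : ∀ b : B, τ * b = b * τ) (hτ' : ∀ b : B, τ' * b = b * τ')
    {X Y : LeavittFamily G B} (hXY : X = Y)
    (hX : ∀ v, star (X.p v) = X.p v) (hY : ∀ v, star (Y.p v) = Y.p v) :
    stepE hce τ hτ X hX = stepE hce τ' hτ' Y hY := by
  subst h; subst hXY; rfl

theorem polar_congr {X Y : LeavittFamily G B} (hXY : X = Y) (hX : X.Straight) (hY : Y.Straight) :
    X.polar hX = Y.polar hY := by
  subst hXY; rfl

theorem stepVE_map {C : Type*} [CStarAlgebra C] (f : B →⋆ₐ[ℂ] C)
    (hcv : Function.Injective cv) (hce : Function.Injective ce) (X : LeavittFamily G B) :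
    (stepVE hcv hce X).map f = stepVE hcv hce (X.map f) := by
  have h1 : (stepV hcv 1 one_comm X).map f = stepV hcv 1 one_comm (X.map f) := by
    rw [stepV_map f hcv 1 one_comm (by simp) X]
    exact stepV_congr hcv (map_one f) _ _ _
  have h2 : ∀ v, star (((stepV hcv 1 one_comm X).map f).p v)
      = ((stepV hcv 1 one_comm X).map f).p v := by
    rw [h1]; exact stepV_one_star hcv one_comm _
  rw [stepVE, stepE_map f hce 1 one_comm (by simp) _ _ h2]
  exact stepE_congr hce (map_one f) _ _ h1 _ _

theorem Straight.map {C : Type*} [CStarAlgebra C] (f : B →⋆ₐ[ℂ] C) {X : LeavittFamily G B}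
    (hX : X.Straight) : (X.map f).Straight where
  p_star v := by simp only [map_p, ← map_star, hX.p_star]
  st_star e := by simp only [map_s, map_t, ← map_mul, ← map_star, hX.st_star]

theorem polar_map {C : Type*} [CStarAlgebra C] (f : B →⋆ₐ[ℂ] C) (X : LeavittFamily G B)
    (hX : X.Straight) : (X.polar hX).map f = (X.map f).polar (hX.map f) := by
  ext e
  · rfl
  · show f (X.s e * psqrt (X.t e * star (X.t e))) = f (X.s e) * psqrt (f (X.t e) * star (f (X.t e)))
    rw [map_mul, map_psqrt, map_mul, map_star]

theorem retr_map {C : Type*} [CStarAlgebra C] (f : B →⋆ₐ[ℂ] C)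
    (hcv : Function.Injective cv) (hce : Function.Injective ce) (X : LeavittFamily G B) :
    (retr hcv hce X).map f = retr hcv hce (X.map f) := by
  rw [retr, polar_map]
  exact polar_congr (stepVE_map f hcv hce X) _ _

theorem retr_toLeavitt (hcv : Function.Injective cv) (hce : Function.Injective ce)
    (X : CKFamily G B) : retr hcv hce X.toLeavitt = X := by
  have h1 : stepV hcv 1 one_comm X.toLeavitt = X.toLeavitt :=
    stepV_of_star hcv 1 one_comm _ X.p_star
  have hst : ∀ e, star (X.toLeavitt.s e * X.toLeavitt.t e) = X.toLeavitt.s e * X.toLeavitt.t e := by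
    intro e
    show star (X.s e * star (X.s e)) = X.s e * star (X.s e)
    rw [star_mul, star_star]
  have h2 : stepVE hcv hce X.toLeavitt = X.toLeavitt := by
    rw [stepVE, stepE_congr hce rfl one_comm one_comm h1 _ X.p_star]
    exact stepE_of_star hce 1 one_comm _ _ hst
  have h3 : X.toLeavitt.Straight := ⟨X.p_star, hst⟩
  rw [retr, polar_congr h2 _ h3]
  ext e
  · rfl
  · show X.s e * psqrt (star (X.s e) * star (star (X.s e))) = X.s e
    rw [star_star, X.star_mul_self, psqrt_proj (X.p_star _) (X.p_mul_self _), X.s_mul_p]

end LeavittFamily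

end unital

end Pool.Agent.Helper665_GA
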