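import Pool.Agent.Helper665_GA.LPA
import Pool.Agent.Helper665_GA.Retract

/-!
# The graph C*-algebra, concretely (helper665)

`CModel G` is the closed star subalgebra of an `ℓ^∞`-product of C*-algebras which is generated by a
Cuntz-Krieger `G`-family whose components realise all norms coming from Cuntz-Krieger families.
The universal property is proved below.
-/

namespace Pool.Agent.Helper665_GA

open scoped ENNReal CStarAlgebra

/-- The index set: all functions `a ↦ ‖π_X(a)‖` on the Leavitt path algebra coming from a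
Cuntz-Krieger family `X` in some C*-algebra. -/
def Idx (G : Graph) : Type :=
  {n : LPA ℂ G → ℝ // ∃ (B : Type) (_ : NonUnitalCStarAlgebra B) (X : CKFamily G B),
    n = fun a => ‖LPA.lift (K := ℂ) X.toLeavitt a‖}

namespace Idx

variable {G : Graph}

/-- the C*-algebra at an index -/
def Alg (i : Idx G) : Type := i.2.choose

noncomputable instance (i : Idx G) : NonUnitalCStarAlgebra i.Alg := i.2.choose_spec.choose

/-- the Cuntz-Krieger family at an index -/
noncomputable def fam (i : Idx G) : CKFamily G i.Alg := i.2.choose_spec.choose_spec.choose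

theorem fam_spec (i : Idx G) : i.1 = fun a => ‖LPA.lift (K := ℂ) i.fam.toLeavitt a‖ :=
  i.2.choose_spec.choose_spec.choose_spec

end Idx

theorem CKFamily.norm_p_le {G : Graph} {A : Type*} [NonUnitalCStarAlgebra A] (X : CKFamily G A)
    (v : G.V) : ‖X.p v‖ ≤ 1 := by
  have h : ‖X.p v‖ * ‖X.p v‖ = ‖X.p v‖ := by
    rw [← CStarRing.norm_star_mul_self, X.p_star, X.p_mul_self]
  by_contra hc
  push Not at hc
  nlinarith [norm_nonneg (X.p v)]

theorem CKFamily.norm_s_le {G : Graph} {A : Type*} [NonUnitalCStarAlgebra A] (X : CKFamily G A)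
    (e : G.E) : ‖X.s e‖ ≤ 1 := by
  have h : ‖X.s e‖ * ‖X.s e‖ ≤ 1 := by
    rw [← CStarRing.norm_star_mul_self, X.star_mul_self]; exact X.norm_p_le _
  by_contra hc
  push Not at hc
  nlinarith [norm_nonneg (X.s e)]

/-- The product C*-algebra. -/
abbrev Big (G : Graph) : Type := lp (fun i : Idx G => i.Alg) ∞

namespace Big

variable {G : Graph}

/-- bounded sequences as elements of the product -/
noncomputable def mk (f : ∀ i : Idx G, i.Alg) (h : ∀ i, ‖f i‖ ≤ 1) : Big G :=
  ⟨f, memℓp_infty ⟨1, by rintro _ ⟨i, rfl⟩; exact h i⟩⟩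

theorem ext' {a b : Big G} (h : ∀ i, a i = b i) : a = b := lp.ext (funext h)

/-- the coordinate projections -/
noncomputable def pr (i : Idx G) : Big G →⋆ₙₐ[ℂ] i.Alg where
  toFun a := a i
  map_smul' _ _ := rfl
  map_mul' _ _ := rfl
  map_zero' := rfl
  map_add' _ _ := rfl
  map_star' _ := rfl

theorem pr_apply (i : Idx G) (a : Big G) : pr i a = a i := rfl

/-- The Cuntz-Krieger family in the product. -/
noncomputable def fam (G : Graph) : CKFamily G (Big G) where
  p v := mk (fun i => i.fam.p v) fun i => i.fam.norm_p_le v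
  s e := mk (fun i => i.fam.s e) fun i => i.fam.norm_s_le e
  p_star v := ext' fun i => i.fam.p_star v
  p_mul_self v := ext' fun i => i.fam.p_mul_self v
  p_mul_of_ne v w h := ext' fun i => i.fam.p_mul_of_ne v w h
  star_mul_self e := ext' fun i => i.fam.star_mul_self e
  range_orth e f h := ext' fun i => i.fam.range_orth e f h
  range_le e := ext' fun i => i.fam.range_le e
  sum_eq v S hS h := ext' fun i => by
    have h1 := i.fam.sum_eq v S hS h
    rw [← pr_apply, map_sum]
    exact h1

end Big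

/-- The graph C*-algebra as a star subalgebra of the product. -/
noncomputable def CModelSub (G : Graph) : NonUnitalStarSubalgebra ℂ (Big G) :=
  (NonUnitalStarAlgebra.adjoin ℂ
    (Set.range (Big.fam G).p ∪ Set.range (Big.fam G).s)).topologicalClosure

/-- The graph C*-algebra `C*(G)`. -/
def CModel (G : Graph) : Type := CModelSub G

noncomputable instance (G : Graph) : NonUnitalCStarAlgebra (CModel G) :=
  haveI : IsClosed (CModelSub G : Set (Big G)) :=
    NonUnitalStarSubalgebra.isClosed_topologicalClosure _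
  inferInstanceAs (NonUnitalCStarAlgebra (CModelSub G))

/-- Extension of a contractive homomorphism from a dense subalgebra. -/
theorem exists_starHom {L A B : Type*} [NonUnitalRing L] [Module ℂ L] [NonUnitalCStarAlgebra A]
    [NonUnitalCStarAlgebra B] (e : L →ₙₐ[ℂ] A) (f : L →ₙₐ[ℂ] B) (hd : DenseRange e)
    (hn : ∀ x, ‖f x‖ ≤ ‖e x‖) (hs : ∀ x, ∃ y, e y = star (e x) ∧ f y = star (f x)) :
    ∃ F : A →⋆ₙₐ[ℂ] B, ∀ x, F (e x) = f x := by
  let eL : L →ₗ[ℂ] A := (e : L →ₗ[ℂ] A)
  let fL : L →ₗ[ℂ] B := (f : L →ₗ[ℂ] B)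
  obtain ⟨F, hF⟩ : ∃ F : A →L[ℂ] B, ∀ x, F (e x) = f x :=
    ⟨LinearMap.extendOfNorm (𝕜 := ℂ) (E := L) (Eₗ := A) (F := B) fL eL, fun x =>
      LinearMap.extendOfNorm_eq (𝕜 := ℂ) (E := L) (Eₗ := A) (F := B) (f := fL) (e := eL)
        hd ⟨1, fun x => by rw [one_mul]; exact hn x⟩ x⟩
  have hmul : ∀ x y, F (x * y) = F x * F y := by
    intro x y
    refine hd.induction_on₂ (p := fun x y => F (x * y) = F x * F y) ?_ ?_ x y
    · exact isClosed_eq (by fun_prop) (by fun_prop)
    · intro a b
      rw [← map_mul, hF, hF, hF, map_mul]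
  have hstar : ∀ x, F (star x) = star (F x) := by
    intro x
    refine hd.induction_on (p := fun x => F (star x) = star (F x)) x ?_ ?_
    · exact isClosed_eq (by fun_prop) (by fun_prop)
    · intro a
      obtain ⟨b, hb1, hb2⟩ := hs a
      rw [← hb1, hF, hF, hb2]
  exact ⟨{ toFun := F, map_smul' := fun r x => map_smul F r x, map_zero' := map_zero F,
           map_add' := map_add F, map_mul' := hmul, map_star' := hstar }, hF⟩

namespace CModel

variable (G : Graph)

/-- inclusion into the product -/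
noncomputable def incl : CModel G →⋆ₙₐ[ℂ] Big G := NonUnitalStarSubalgebraClass.subtype (CModelSub G)

theorem incl_injective : Function.Injective (incl G) := Subtype.val_injective

theorem norm_incl (a : CModel G) : ‖incl G a‖ = ‖a‖ := rfl

theorem mem_p (v : G.V) : (Big.fam G).p v ∈ CModelSub G :=
  NonUnitalStarSubalgebra.le_topologicalClosure _
    (NonUnitalStarAlgebra.subset_adjoin ℂ _ (Or.inl ⟨v, rfl⟩))

theorem mem_s (e : G.E) : (Big.fam G).s e ∈ CModelSub G :=
  NonUnitalStarSubalgebra.le_topologicalClosure _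
    (NonUnitalStarAlgebra.subset_adjoin ℂ _ (Or.inr ⟨e, rfl⟩))

/-- The universal Cuntz-Krieger family. -/
noncomputable def family : CKFamily G (CModel G) where
  p v := (⟨(Big.fam G).p v, mem_p G v⟩ : CModelSub G)
  s e := (⟨(Big.fam G).s e, mem_s G e⟩ : CModelSub G)
  p_star v := Subtype.ext ((Big.fam G).p_star v)
  p_mul_self v := Subtype.ext ((Big.fam G).p_mul_self v)
  p_mul_of_ne v w h := Subtype.ext ((Big.fam G).p_mul_of_ne v w h)
  star_mul_self e := Subtype.ext ((Big.fam G).star_mul_self e)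
  range_orth e f h := Subtype.ext ((Big.fam G).range_orth e f h)
  range_le e := Subtype.ext ((Big.fam G).range_le e)
  sum_eq v S hS h := by
    apply incl_injective G
    rw [map_sum]
    exact (Big.fam G).sum_eq v S hS h

theorem family_incl : (family G).map (incl G) = Big.fam G := rfl

/-- The canonical homomorphism from the Leavitt path algebra. -/
noncomputable def can : LPA ℂ G →ₙₐ[ℂ] CModel G := LPA.lift (family G).toLeavitt

theorem can_gen (x : Gen G) : can G (LPA.gen ℂ G x) = (family G).toLeavitt.val x :=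
  LPA.lift_gen _ _

variable {G} in
theorem exists_star (a : LPA ℂ G) :
    ∃ b : LPA ℂ G, ∀ (B : Type) [NonUnitalCStarAlgebra B] (X : CKFamily G B),
      LPA.lift (K := ℂ) X.toLeavitt b = star (LPA.lift (K := ℂ) X.toLeavitt a) := by
  induction a using LPA.induction with
  | hgen x =>
    cases x with
    | vert v =>
      refine ⟨LPA.gen ℂ G (Gen.vert v), fun B _ X => ?_⟩
      rw [LPA.lift_gen]
      exact (X.p_star v).symm
    | edge e =>
      refine ⟨LPA.gen ℂ G (Gen.ghost e), fun B _ X => ?_⟩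
      rw [LPA.lift_gen, LPA.lift_gen]; rfl
    | ghost e =>
      refine ⟨LPA.gen ℂ G (Gen.edge e), fun B _ X => ?_⟩
      rw [LPA.lift_gen, LPA.lift_gen]
      exact (star_star _).symm
  | hadd x y hx hy =>
    obtain ⟨b, hb⟩ := hx
    obtain ⟨c, hc⟩ := hy
    exact ⟨b + c, fun B _ X => by rw [map_add, map_add, star_add, hb, hc]⟩
  | hzero => exact ⟨0, fun B _ X => by rw [map_zero, star_zero]⟩
  | hmul x y hx hy =>
    obtain ⟨b, hb⟩ := hx
    obtain ⟨c, hc⟩ := hy
    exact ⟨c * b, fun B _ X => by rw [map_mul, map_mul, star_mul, hb, hc]⟩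
  | hsmul r x hx =>
    obtain ⟨b, hb⟩ := hx
    exact ⟨(starRingEnd ℂ r) • b, fun B _ X => by rw [map_smul, map_smul, star_smul, hb]; rfl⟩

theorem mem_range_can : ∀ x ∈ NonUnitalStarAlgebra.adjoin ℂ
    (Set.range (Big.fam G).p ∪ Set.range (Big.fam G).s), ∃ b : LPA ℂ G, incl G (can G b) = x := by
  intro x hx
  induction hx using NonUnitalStarAlgebra.adjoin_induction with
  | mem x hx =>
    rcases hx with ⟨v, rfl⟩ | ⟨e, rfl⟩
    · exact ⟨LPA.gen ℂ G (Gen.vert v), by rw [can_gen]; rfl⟩
    · exact ⟨LPA.gen ℂ G (Gen.edge e), by rw [can_gen]; rfl⟩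
  | add x y _ _ hx hy =>
    obtain ⟨b, rfl⟩ := hx
    obtain ⟨c, rfl⟩ := hy
    exact ⟨b + c, by rw [map_add, map_add]⟩
  | zero => exact ⟨0, by rw [map_zero, map_zero]⟩
  | mul x y _ _ hx hy =>
    obtain ⟨b, rfl⟩ := hx
    obtain ⟨c, rfl⟩ := hy
    exact ⟨b * c, by rw [map_mul, map_mul]⟩
  | smul r x _ hx =>
    obtain ⟨b, rfl⟩ := hx
    exact ⟨r • b, by rw [map_smul, map_smul]⟩
  | star x _ hx =>
    obtain ⟨b, rfl⟩ := hx
    obtain ⟨c, hc⟩ := exists_star b
    refine ⟨c, ?_⟩
    have h1 : can G c = star (can G b) := hc (CModel G) (family G)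
    rw [h1, map_star]

theorem denseRange_can : DenseRange (can G) := by
  intro x
  have hx : (x : CModelSub G).1 ∈ closure (Subtype.val '' (Set.range (can G) : Set (CModelSub G))) := by
    have h1 : (x : CModelSub G).1 ∈ closure ((NonUnitalStarAlgebra.adjoin ℂ
      (Set.range (Big.fam G).p ∪ Set.range (Big.fam G).s) : NonUnitalStarSubalgebra ℂ (Big G)) :
        Set (Big G)) := (x : CModelSub G).2
    refine closure_mono ?_ h1
    intro y hy
    obtain ⟨b, hb⟩ := mem_range_can G y hy
    exact ⟨can G b, ⟨b, rfl⟩, hb⟩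
  exact closure_subtype.2 hx

variable {G}

section lift

variable {B : Type} [NonUnitalCStarAlgebra B] (Y : CKFamily G B)

theorem norm_lift_le (a : LPA ℂ G) :
    ‖LPA.lift (K := ℂ) Y.toLeavitt a‖ ≤ ‖can G a‖ := by
  let i : Idx G := ⟨fun a => ‖LPA.lift (K := ℂ) Y.toLeavitt a‖, B, inferInstance, Y, rfl⟩
  have h1 : ‖LPA.lift (K := ℂ) Y.toLeavitt a‖ = ‖LPA.lift (K := ℂ) i.fam.toLeavitt a‖ :=
    congrFun i.fam_spec a
  have h2 : LPA.lift (K := ℂ) i.fam.toLeavitt
      = ((((Big.pr i).comp (incl G) : CModel G →⋆ₙₐ[ℂ] i.Alg) : CModel G →ₙₐ[ℂ] i.Alg)).comp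
        (can G) := by
    apply LPA.hom_ext
    rw [LPA.lift_family]
    have h3 := LPA.lift_family (K := ℂ) (family G).toLeavitt
    have h4 : (LPA.family ℂ G).map (((((Big.pr i).comp (incl G) :
        CModel G →⋆ₙₐ[ℂ] i.Alg) : CModel G →ₙₐ[ℂ] i.Alg)).comp (can G))
        = ((LPA.family ℂ G).map (can G)).map ((Big.pr i).comp (incl G)) := rfl
    rw [h4]
    change _ = ((LPA.family ℂ G).map (LPA.lift (family G).toLeavitt)).map
      ((Big.pr i).comp (incl G))
    rw [h3]; rfl
  rw [h1, h2]
  show ‖(incl G (can G a)) i‖ ≤ _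
  rw [← norm_incl G (can G a)]
  exact lp.norm_apply_le_norm (by simp) _ _

theorem exists_lift : ∃ F : CModel G →⋆ₙₐ[ℂ] B, ∀ a, F (can G a) = LPA.lift (K := ℂ) Y.toLeavitt a :=
  exists_starHom (can G) (LPA.lift (K := ℂ) Y.toLeavitt) (denseRange_can G) (norm_lift_le Y)
    fun a => by
      obtain ⟨b, hb⟩ := exists_star a
      exact ⟨b, hb (CModel G) (family G), hb B Y⟩

/-- The universal property of the graph C*-algebra. -/
noncomputable def lift : CModel G →⋆ₙₐ[ℂ] B := (exists_lift Y).choose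

theorem lift_can (a : LPA ℂ G) : lift Y (can G a) = LPA.lift (K := ℂ) Y.toLeavitt a :=
  (exists_lift Y).choose_spec a

theorem lift_family : (family G).map (lift Y) = Y := by
  ext x
  · have := lift_can Y (LPA.gen ℂ G (Gen.vert x))
    rwa [can_gen, LPA.lift_gen] at this
  · have := lift_can Y (LPA.gen ℂ G (Gen.edge x))
    rwa [can_gen, LPA.lift_gen] at this

end lift

theorem hom_ext {B : Type*} [NonUnitalCStarAlgebra B] {f g : CModel G →⋆ₙₐ[ℂ] B}
    (h : (family G).map f = (family G).map g) : f = g := by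
  have h1 : (f : CModel G →ₙₐ[ℂ] B).comp (can G) = (g : CModel G →ₙₐ[ℂ] B).comp (can G) := by
    apply LPA.hom_ext
    have h2 : ∀ k : CModel G →⋆ₙₐ[ℂ] B, (LPA.family ℂ G).map ((k : CModel G →ₙₐ[ℂ] B).comp (can G))
        = ((family G).map k).toLeavitt := by
      intro k
      rw [CKFamily.toLeavitt_map, ← LPA.lift_family (K := ℂ) (family G).toLeavitt]; rfl
    rw [h2, h2, h]
  have hf : Continuous f := map_continuous f
  have hg : Continuous g := map_continuous g
  ext x
  refine (denseRange_can G).induction_on (p := fun x => f x = g x) x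
    (isClosed_eq hf hg) fun a => ?_
  exact DFunLike.congr_fun h1 a

end CModel

end Pool.Agent.Helper665_GA
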