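import Pool.Agent.Helper665_GA.Objects

/-!
# The graph C*-algebra via its universal property (helper665)
-/

namespace Pool.Agent.Helper665_GA

namespace CStar

variable (G : Graph)

/-- The universal Cuntz-Krieger family. -/
noncomputable def family : CKFamily G (CStar G) := (theGraphCStar G).fam

/-- The canonical homomorphism from the Leavitt path algebra. -/
noncomputable def can : LPA ℂ G →ₙₐ[ℂ] CStar G := LPA.lift (family G).toLeavitt

theorem can_gen (x : Gen G) : can G (LPA.gen ℂ G x) = (family G).toLeavitt.val x :=
  LPA.lift_gen _ _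

variable {G}

theorem exists_lift {B : Type} [NonUnitalCStarAlgebra B] (Y : CKFamily G B) :
    ∃ π : CStar G →⋆ₙₐ[ℂ] B, (family G).map π = Y := by
  obtain ⟨π, h, -⟩ := (theGraphCStar G).universal B Y
  exact ⟨π, CKFamily.ext (funext h.1) (funext h.2)⟩

/-- The universal property of the graph C*-algebra. -/
noncomputable def lift {B : Type} [NonUnitalCStarAlgebra B] (Y : CKFamily G B) :
    CStar G →⋆ₙₐ[ℂ] B := (exists_lift Y).choose

theorem lift_family {B : Type} [NonUnitalCStarAlgebra B] (Y : CKFamily G B) :
    (family G).map (lift Y) = Y := (exists_lift Y).choose_spec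

theorem hom_ext {B : Type} [NonUnitalCStarAlgebra B] {f g : CStar G →⋆ₙₐ[ℂ] B}
    (h : (family G).map f = (family G).map g) : f = g := by
  obtain ⟨π, -, h2⟩ := (theGraphCStar G).universal B ((family G).map g)
  rw [h2 f ⟨fun v => congrFun (congrArg CKFamily.p h) v,
      fun e => congrFun (congrArg CKFamily.s h) e⟩, h2 g ⟨fun v => rfl, fun e => rfl⟩]

end CStar

end Pool.Agent.Helper665_GA
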