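import Pool.Agent.Helper665_GA.Faithful

/-!
# Central elements of corners of Leavitt path algebras (helper665)
-/

namespace Pool.Agent.Helper665_GA

open LaurentPolynomial

/-- The image of a field in the Laurent polynomials over a field consists of constants. -/
theorem laurent_const {F K : Type*} [Field F] [Field K] (g : F →+* K[T;T⁻¹]) (a : F) :
    ∃ c : K, g a = C c := by
  classical
  -- units have one-element support
  have hu : ∀ f h : K[T;T⁻¹], f * h = 1 → ∃ n, f.coeff.support = {n} := by
    intro f h hfh
    have hf : f ≠ 0 := by rintro rfl; simp at hfh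
    have hh : h ≠ 0 := by rintro rfl; simp at hfh
    have hf' : f.coeff.support.Nonempty := by
      rw [Finsupp.support_nonempty_iff]; simpa using hf
    have hh' : h.coeff.support.Nonempty := by
      rw [Finsupp.support_nonempty_iff]; simpa using hh
    by_cases hc : 1 < f.coeff.support.card * h.coeff.support.card
    · exfalso
      obtain ⟨p1, hp1, p2, hp2, hne, h1, h2⟩ := TwoUniqueSums.uniqueAdd_of_one_lt_card hc
      rw [Finset.mem_product] at hp1 hp2
      have e1 := AddMonoidAlgebra.coeff_mul_add_of_uniqueAdd h1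
      have e2 := AddMonoidAlgebra.coeff_mul_add_of_uniqueAdd h2
      rw [hfh] at e1 e2
      have n1 : f.coeff p1.1 * h.coeff p1.2 ≠ 0 :=
        mul_ne_zero (Finsupp.mem_support_iff.1 hp1.1) (Finsupp.mem_support_iff.1 hp1.2)
      have n2 : f.coeff p2.1 * h.coeff p2.2 ≠ 0 :=
        mul_ne_zero (Finsupp.mem_support_iff.1 hp2.1) (Finsupp.mem_support_iff.1 hp2.2)
      have hone : ∀ n : ℤ, (1 : K[T;T⁻¹]).coeff n ≠ 0 → n = 0 := by
        intro n hn
        by_contra hc
        apply hn
        have : (1 : K[T;T⁻¹]).coeff = Finsupp.single 0 1 := rfl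
        rw [this, Finsupp.single_apply, if_neg (fun h => hc h.symm)]
      have z1 := hone _ (by rw [e1]; exact n1)
      have z2 := hone _ (by rw [e2]; exact n2)
      have := h1 hp2.1 hp2.2 (by rw [z1, z2])
      exact hne (Prod.ext this.1.symm this.2.symm)
    · have h1 : f.coeff.support.card = 1 := by
        have a1 := Finset.card_pos.2 hf'
        have a2 := Finset.card_pos.2 hh'
        have : f.coeff.support.card ≤ f.coeff.support.card * h.coeff.support.card :=
          Nat.le_mul_of_pos_right _ a2
        omega
      exact Finset.card_eq_one.1 h1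
  by_cases ha : a = 0
  · exact ⟨0, by rw [ha, map_zero, map_zero]⟩
  by_cases ha1 : a + 1 = 0
  · refine ⟨-1, ?_⟩
    have : a = -1 := by linear_combination ha1
    rw [this, map_neg, map_one, map_neg, map_one]
  obtain ⟨n, hn⟩ := hu (g a) (g a⁻¹) (by rw [← map_mul, mul_inv_cancel₀ ha, map_one])
  obtain ⟨m, hm⟩ := hu (g (a + 1)) (g (a + 1)⁻¹) (by rw [← map_mul, mul_inv_cancel₀ ha1, map_one])
  have h1 : (1 : K[T;T⁻¹]).coeff = Finsupp.single 0 1 := rfl
  by_cases hn0 : n = 0
  · refine ⟨(g a).coeff 0, ?_⟩
    ext k
    have : (C ((g a).coeff 0) : K[T;T⁻¹]).coeff = Finsupp.single 0 ((g a).coeff 0) := rfl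
    rw [this, Finsupp.single_apply]
    split_ifs with hk
    · rw [hk]
    · by_contra hc
      have : k ∈ (g a).coeff.support := Finsupp.mem_support_iff.2 hc
      rw [hn, Finset.mem_singleton] at this
      exact hk (this.trans hn0).symm
  · exfalso
    have h2 : (g (a + 1)).coeff = (g a).coeff + Finsupp.single 0 1 := by
      rw [map_add, map_one, AddMonoidAlgebra.coeff_add, h1]
    have hn' : (g a).coeff n ≠ 0 := by
      rw [← Finsupp.mem_support_iff, hn]; exact Finset.mem_singleton_self n
    have h0' : (g a).coeff 0 = 0 := by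
      by_contra hc
      have : (0 : ℤ) ∈ (g a).coeff.support := Finsupp.mem_support_iff.2 hc
      rw [hn, Finset.mem_singleton] at this
      exact hn0 this.symm
    have m1 : n ∈ (g (a + 1)).coeff.support := by
      rw [Finsupp.mem_support_iff, h2, Finsupp.add_apply, Finsupp.single_apply,
        if_neg (fun h => hn0 h.symm), add_zero]
      exact hn'
    have m2 : (0 : ℤ) ∈ (g (a + 1)).coeff.support := by
      rw [Finsupp.mem_support_iff, h2, Finsupp.add_apply, Finsupp.single_apply, if_pos rfl, h0',
        zero_add]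
      exact one_ne_zero
    rw [hm, Finset.mem_singleton] at m1 m2
    exact hn0 (m1.trans m2.symm)

namespace LPA

variable {K : Type*} [Field K] {G : Graph}

/-- The diagonal degree zero coefficient. -/
noncomputable def c0 (a : LPA K G) (x : BPath G) : K :=
  (((rho K G a).ap (Finsupp.single x 1)) x).coeff 0

theorem c0_add (a b : LPA K G) (x : BPath G) : c0 (a + b) x = c0 a x + c0 b x := by
  unfold c0
  rw [map_add, EE.add_ap, Finsupp.add_apply, AddMonoidAlgebra.coeff_add, Finsupp.add_apply]

theorem c0_zero (x : BPath G) : c0 (0 : LPA K G) x = 0 := by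
  unfold c0
  rw [map_zero (rho K G)]; rfl

theorem c0_smul (r : K) (a : LPA K G) (x : BPath G) : c0 (r • a) x = r * c0 a x := by
  unfold c0
  rw [map_smul, EE.smul_ap, Finsupp.smul_apply]; rfl

/-- The span of the diagonal monomials. -/
def DD (K : Type*) [Field K] (G : Graph) : Submodule K (LPA K G) :=
  Submodule.span K {a | ∃ l v, a = sp K G l v * tp K G l v}

/-- Elements acting diagonally by constants. -/
def Diag (a : LPA K G) : Prop :=
  ∀ x, (rho K G a).ap (Finsupp.single x 1) = Finsupp.single x (C (c0 a x))

theorem coeff_one_zero : (1 : K[T;T⁻¹]).coeff 0 = 1 := by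
  have : (1 : K[T;T⁻¹]).coeff = Finsupp.single 0 1 := rfl
  rw [this, Finsupp.single_apply, if_pos rfl]

open Classical in
theorem c0_gen (l : List G.E) (v : G.V) (x : BPath G) :
    c0 (sp K G l v * tp K G l v) x = if BPath.Cyl l v x then 1 else 0 := by
  unfold c0
  rw [rho_mono, rep_diag]
  split_ifs with h
  · rw [Finsupp.single_eq_same, coeff_one_zero]
  · rfl

theorem Diag.ap {a : LPA K G} (h : Diag a) (x : BPath G) (r : K[T;T⁻¹]) :
    (rho K G a).ap (Finsupp.single x r) = Finsupp.single x (C (c0 a x) * r) := by
  have h1 : (Finsupp.single x r : VV K G) = r • Finsupp.single x 1 := by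
    rw [Finsupp.smul_single, smul_eq_mul, mul_one]
  rw [h1, map_smul, h x, Finsupp.smul_single, smul_eq_mul, mul_comm]

theorem Diag.of_forall {a : LPA K G} {f : BPath G → K}
    (h : ∀ x, (rho K G a).ap (Finsupp.single x 1) = Finsupp.single x (C (f x))) :
    Diag a ∧ ∀ x, c0 a x = f x := by
  have h1 : ∀ x, c0 a x = f x := by
    intro x
    unfold c0
    rw [h x, Finsupp.single_eq_same]
    show (Finsupp.single (0 : ℤ) (f x)) 0 = f x
    rw [Finsupp.single_eq_same]
  exact ⟨fun x => by rw [h x, h1], h1⟩

theorem Diag.add {a b : LPA K G} (ha : Diag a) (hb : Diag b) : Diag (a + b) := by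
  intro x
  rw [map_add, EE.add_ap, ha x, hb x, ← Finsupp.single_add, c0_add, map_add]

theorem Diag.zero : Diag (0 : LPA K G) := by
  intro x
  rw [map_zero, EE.zero_ap, c0_zero, map_zero, Finsupp.single_zero]

theorem Diag.smul {a : LPA K G} (r : K) (ha : Diag a) : Diag (r • a) := by
  intro x
  rw [map_smul, EE.smul_ap, ha x, Finsupp.smul_single, c0_smul, map_mul]
  congr 1
  rw [Algebra.smul_def]; rfl

theorem Diag.mul {a b : LPA K G} (ha : Diag a) (hb : Diag b) :
    Diag (a * b) ∧ ∀ x, c0 (a * b) x = c0 a x * c0 b x := by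
  apply Diag.of_forall
  intro x
  rw [map_mul, EE.mul_ap, hb x, ha.ap, map_mul]

theorem Diag.gen (l : List G.E) (v : G.V) : Diag (sp K G l v * tp K G l v) := by
  classical
  intro x
  rw [c0_gen, rho_mono, rep_diag]
  split_ifs with h
  · rw [map_one]
  · rw [map_zero, Finsupp.single_zero]

theorem diag_of_mem_DD {a : LPA K G} (ha : a ∈ DD K G) : Diag a := by
  induction ha using Submodule.span_induction with
  | mem a ha =>
    obtain ⟨l, v, rfl⟩ := ha
    exact Diag.gen l v
  | zero => exact Diag.zero
  | add a b _ _ ha hb => exact ha.add hb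
  | smul r a _ ha => exact ha.smul r

theorem exists_diag (a : LPA K G) : ∃ d ∈ DD K G, ∀ x, c0 a x = c0 d x := by
  classical
  induction a using mono_induction with
  | hm l l' v =>
    by_cases h : l = l'
    · subst h
      exact ⟨_, Submodule.subset_span ⟨l, v, rfl⟩, fun x => rfl⟩
    · refine ⟨0, Submodule.zero_mem _, fun x => ?_⟩
      rw [c0_zero]
      unfold c0
      rw [rho_mono]
      rcases rep_mono K G l l' v x 1 with h1 | ⟨y, z, h1, h2, h3, h4⟩
      · rw [h1]; rfl
      · rw [h4, Finsupp.single_apply]
        split_ifs with h5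
        · subst h5
          rw [one_mul]
          have h6 : (T ((l.length : ℤ) - l'.length) : K[T;T⁻¹]).coeff
              = Finsupp.single ((l.length : ℤ) - l'.length) 1 := rfl
          rw [h6, Finsupp.single_apply, if_neg]
          intro h7
          apply h
          exact (BPath.strip_unique h2 h1 (by omega)).1
        · rfl
  | hz => exact ⟨0, Submodule.zero_mem _, fun x => rfl⟩
  | ha a b ha hb =>
    obtain ⟨d, hd, h1⟩ := ha
    obtain ⟨d', hd', h2⟩ := hb
    exact ⟨d + d', Submodule.add_mem _ hd hd', fun x => by rw [c0_add, c0_add, h1, h2]⟩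
  | hs r a ha =>
    obtain ⟨d, hd, h1⟩ := ha
    exact ⟨r • d, Submodule.smul_mem _ _ hd, fun x => by rw [c0_smul, c0_smul, h1]⟩

theorem eq_of_diag {a b : LPA K G} (ha : Diag a) (hb : Diag b) (h : ∀ x, c0 a x = c0 b x) :
    a = b := by
  apply rho_injective
  apply ee_ext
  intro x
  rw [ha x, hb x, h]

theorem mem_DD_of_diag {a : LPA K G} (ha : Diag a) : a ∈ DD K G := by
  obtain ⟨d, hd, h⟩ := exists_diag a
  rw [eq_of_diag ha (diag_of_mem_DD hd) h]
  exact hd

theorem finite_range {a : LPA K G} (ha : Diag a) : (Set.range (c0 a)).Finite := by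
  classical
  have h := mem_DD_of_diag ha
  clear ha
  induction h using Submodule.span_induction with
  | mem a ha =>
    obtain ⟨l, v, rfl⟩ := ha
    refine Set.Finite.subset (Set.toFinite {(0 : K), 1}) ?_
    rintro _ ⟨x, rfl⟩
    rw [c0_gen]
    split_ifs <;> simp
  | zero =>
    refine Set.Finite.subset (Set.toFinite {(0 : K)}) ?_
    rintro _ ⟨x, rfl⟩
    rw [c0_zero]; rfl
  | add a b _ _ ha hb =>
    refine Set.Finite.subset (Set.Finite.image2 (· + ·) ha hb) ?_
    rintro _ ⟨x, rfl⟩
    exact ⟨_, ⟨x, rfl⟩, _, ⟨x, rfl⟩, (c0_add a b x).symm⟩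
  | smul r a _ ha =>
    refine Set.Finite.subset (Set.Finite.image (fun c => r * c) ha) ?_
    rintro _ ⟨x, rfl⟩
    exact ⟨_, ⟨x, rfl⟩, (c0_smul r a x).symm⟩

/-! ### Central elements of corners -/

/-- `z` is a central element of the corner at the vertex `w`. -/
def Cent (w : G.V) (z : LPA K G) : Prop :=
  (family K G).p w * z = z ∧ z * (family K G).p w = z ∧
    ∀ r, z * ((family K G).p w * r * (family K G).p w)
      = ((family K G).p w * r * (family K G).p w) * z

/-- The diagonal coefficient of an element. -/
noncomputable def fz (z : LPA K G) (x : BPath G) : K[T;T⁻¹] :=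
  ((rho K G z).ap (Finsupp.single x 1)) x

theorem ap_eq_zero_of_ne {w : G.V} {z : LPA K G} (h : z * (family K G).p w = z) {x : BPath G}
    (hx : x.vtx 0 ≠ w) (r : K[T;T⁻¹]) : (rho K G z).ap (Finsupp.single x r) = 0 := by
  rw [← h, map_mul, EE.mul_ap, rho_p, opP_single, if_neg hx, map_zero]

theorem apply_eq_zero_of_ne {w : G.V} {z : LPA K G} (h : (family K G).p w * z = z) {x : BPath G}
    (hx : x.vtx 0 ≠ w) (g : VV K G) : ((rho K G z).ap g) x = 0 := by
  classical
  have key : ∀ g : VV K G, ((opP K G w).ap g) x = 0 := by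
    intro g
    induction g using Finsupp.induction_linear with
    | zero => rw [map_zero]; rfl
    | add f g hf hg => rw [map_add, Finsupp.add_apply, hf, hg, add_zero]
    | single y r =>
      rw [opP_single]
      split_ifs with hy
      · rw [Finsupp.single_apply, if_neg]
        rintro rfl
        exact hx hy
      · rfl
  rw [← h, map_mul, EE.mul_ap, rho_p]
  exact key _

open Classical in
theorem diag_apply (l : List G.E) (v : G.V) (g : VV K G) (x : BPath G) :
    ((rho K G (sp K G l v * tp K G l v)).ap g) x = if BPath.Cyl l v x then g x else 0 := by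
  induction g using Finsupp.induction_linear with
  | zero => rw [map_zero]; simp
  | add f g hf hg =>
    rw [map_add, Finsupp.add_apply, hf, hg, Finsupp.add_apply]
    split_ifs <;> simp
  | single y r =>
    rw [rho_mono, rep_diag]
    by_cases hxy : y = x
    · subst hxy
      split_ifs with h
      · rfl
      · rfl
    · split_ifs with h1 h2 h3
      · rfl
      · rw [Finsupp.single_apply, if_neg hxy]
      · rw [Finsupp.single_apply, if_neg hxy]; rfl
      · rfl

/-- Central elements of corners commute with the diagonal monomials. -/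
theorem Cent.comm_gen {w : G.V} {z : LPA K G} (h : Cent w z) (l : List G.E) (v : G.V) :
    z * (sp K G l v * tp K G l v) = (sp K G l v * tp K G l v) * z := by
  have h1 : (family K G).p w * (sp K G l v * tp K G l v)
      = (sp K G l v * tp K G l v) * (family K G).p w := by
    cases l with
    | nil =>
      have h2 : sp K G [] v * tp K G [] v = (family K G).p v := (family K G).p_mul_self v
      rw [h2]
      by_cases hwv : w = v
      · rw [hwv]
      · rw [(family K G).p_mul_of_ne w v hwv, (family K G).p_mul_of_ne v w (Ne.symm hwv)]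
    | cons e l =>
      show (family K G).p w * ((family K G).s e * sp K G l v * (tp K G l v * (family K G).t e))
        = ((family K G).s e * sp K G l v * (tp K G l v * (family K G).t e)) * (family K G).p w
      by_cases he : G.src e = w
      · rw [← he, ← mul_assoc, ← mul_assoc ((family K G).p _) ((family K G).s e),
          (family K G).src_mul, mul_assoc _ _ ((family K G).p _), mul_assoc _ _ ((family K G).p _),
          (family K G).mul_src]
      · rw [← mul_assoc, ← mul_assoc ((family K G).p _) ((family K G).s e),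
          (family K G).p_mul_s_of_ne he, mul_assoc _ _ ((family K G).p _),
          mul_assoc _ _ ((family K G).p _), (family K G).t_mul_p_of_ne he]
        simp
  obtain ⟨h2, h3, h4⟩ := h
  have hpp := (family K G).p_mul_self w
  generalize sp K G l v * tp K G l v = m at h1 ⊢
  generalize (family K G).p w = p at h1 h2 h3 h4 hpp
  have h5 : z * m = z * (p * m * p) := by
    have : p * m * p = p * m := by rw [mul_assoc, ← h1, ← mul_assoc, hpp]
    rw [this, ← mul_assoc, h3]
  have h6 : m * z = (p * m * p) * z := by
    have : p * m * p = m * p := by rw [h1, mul_assoc, hpp]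
    rw [this, mul_assoc, h2]
  rw [h5, h6, h4]

theorem Cent.ap {w : G.V} {z : LPA K G} (h : Cent w z) (x : BPath G) (r : K[T;T⁻¹]) :
    (rho K G z).ap (Finsupp.single x r) = Finsupp.single x (fz z x * r) := by
  classical
  have h1 : (rho K G z).ap (Finsupp.single x 1) = Finsupp.single x (fz z x) := by
    ext1 x'
    by_cases hx' : x = x'
    · subst hx'
      rw [Finsupp.single_eq_same]; rfl
    rw [Finsupp.single_apply, if_neg hx']
    by_cases hx : x.vtx 0 = w
    · by_cases hw : x'.vtx 0 = w
      · obtain ⟨l, v, hlv⟩ := BPath.exists_sep (hx.trans hw.symm) hx'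
        have h2 := congrArg (rho K G) (h.comm_gen l v)
        rw [map_mul, map_mul (rho K G) (sp K G l v * tp K G l v) z] at h2
        have h3 : ((rho K G z * rho K G (sp K G l v * tp K G l v)).ap (Finsupp.single x 1)) x'
            = ((rho K G (sp K G l v * tp K G l v) * rho K G z).ap (Finsupp.single x 1)) x' := by
          rw [h2]
        rw [EE.mul_ap, EE.mul_ap, diag_apply, rho_mono, rep_diag] at h3
        by_cases hc : BPath.Cyl l v x
        · have hc' : ¬ BPath.Cyl l v x' := fun h => hlv ⟨fun _ => h, fun _ => hc⟩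
          rw [if_pos hc, if_neg hc'] at h3
          exact h3
        · have hc' : BPath.Cyl l v x' := by
            by_contra h'
            exact hlv ⟨fun h => absurd h hc, fun h => absurd h h'⟩
          rw [if_neg hc, if_pos hc', map_zero] at h3
          exact h3.symm
      · exact apply_eq_zero_of_ne h.1 hw _
    · rw [ap_eq_zero_of_ne h.2.1 hx]; rfl
  have h2 : (Finsupp.single x r : VV K G) = r • Finsupp.single x 1 := by
    rw [Finsupp.smul_single, smul_eq_mul, mul_one]
  rw [h2, map_smul, h1, Finsupp.smul_single, smul_eq_mul, mul_comm]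

theorem fz_mul {w : G.V} {z z' : LPA K G} (h : Cent w z) (h' : Cent w z') (x : BPath G) :
    fz (z * z') x = fz z x * fz z' x := by
  have h1 : fz (z * z') x = ((rho K G z).ap ((rho K G z').ap (Finsupp.single x 1))) x := by
    unfold fz; rw [map_mul, EE.mul_ap]
  rw [h1, h'.ap, h.ap, Finsupp.single_eq_same, mul_one]

theorem fz_add (z z' : LPA K G) (x : BPath G) : fz (z + z') x = fz z x + fz z' x := by
  unfold fz
  rw [map_add, EE.add_ap, Finsupp.add_apply]

/-- The image of a field in the center of a corner at a vertex is diagonal. -/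
theorem diag_of_field {F : Type*} [Field F] {w : G.V} (σ : F →ₙ+* LPA K G)
    (h1 : σ 1 = (family K G).p w) (hc : ∀ a, Cent w (σ a)) (a : F) : Diag (σ a) := by
  have h : ∀ x, ∃ c : K, fz (σ a) x = C c := by
    intro x
    by_cases hx : x.vtx 0 = w
    · let g : F →+* K[T;T⁻¹] :=
        { toFun := fun b => fz (σ b) x
          map_one' := by
            show fz (σ 1) x = 1
            rw [h1]
            unfold fz
            rw [rho_p, opP_single, if_pos hx, Finsupp.single_eq_same]
          map_mul' := fun b c => by rw [map_mul, fz_mul (hc b) (hc c)]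
          map_zero' := by
            rw [map_zero]; unfold fz; rw [map_zero]; rfl
          map_add' := fun b c => by rw [map_add, fz_add] }
      exact laurent_const g a
    · refine ⟨0, ?_⟩
      unfold fz
      rw [ap_eq_zero_of_ne (hc a).2.1 hx, map_zero]; rfl
  choose f hf using h
  refine (Diag.of_forall (f := f) fun x => ?_).1
  rw [(hc a).ap, hf, mul_one]

/-- Central idempotents of corners at vertices are diagonal with coefficients `0` and `1`. -/
theorem diag_of_idem {w : G.V} {z : LPA K G} (h : Cent w z) (hz : z * z = z) :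
    Diag z ∧ ∀ x, c0 z x = 0 ∨ c0 z x = 1 := by
  have h1 : ∀ x, fz z x = 0 ∨ fz z x = 1 := by
    intro x
    have h2 := fz_mul h h x
    rw [hz] at h2
    have h3 : fz z x * (fz z x - 1) = 0 := by
      rw [mul_sub, mul_one, ← h2, sub_self]
    rcases mul_eq_zero.1 h3 with h4 | h4
    · exact Or.inl h4
    · exact Or.inr (sub_eq_zero.1 h4)
  classical
  have h4 := Diag.of_forall (a := z) (f := fun x => if fz z x = 0 then 0 else 1) fun x => by
    rw [h.ap, mul_one]
    rcases h1 x with h5 | h5
    · rw [if_pos h5, h5, map_zero]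
    · rw [if_neg (by rw [h5]; exact one_ne_zero), h5, map_one]
  refine ⟨h4.1, fun x => ?_⟩
  rw [h4.2 x]
  split_ifs
  · exact Or.inl rfl
  · exact Or.inr rfl

/-- Polynomials without constant term in a diagonal element. -/
theorem exists_poly {z : LPA K G} (hz : Diag z) (p : Polynomial K) :
    ∃ Y : LPA K G, Diag Y ∧ (∀ x, c0 Y x = c0 z x * p.eval (c0 z x)) ∧
      ∀ r, r * z = z * r → r * Y = Y * r := by
  induction p using Polynomial.induction_on' with
  | add p q hp hq =>
    obtain ⟨Y, h1, h2, h3⟩ := hp
    obtain ⟨Y', h1', h2', h3'⟩ := hq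
    refine ⟨Y + Y', h1.add h1', fun x => ?_, fun r hr => ?_⟩
    · rw [c0_add, h2, h2', Polynomial.eval_add, mul_add]
    · rw [mul_add, add_mul, h3 r hr, h3' r hr]
  | monomial n a =>
    induction n with
    | zero =>
      refine ⟨a • z, hz.smul a, fun x => ?_, fun r hr => ?_⟩
      · rw [c0_smul, Polynomial.eval_monomial, pow_zero, mul_one, mul_comm]
      · rw [mul_smul_comm, hr, smul_mul_assoc]
    | succ n ih =>
      obtain ⟨Y, h1, h2, h3⟩ := ih
      refine ⟨z * Y, (hz.mul h1).1, fun x => ?_, fun r hr => ?_⟩
      · rw [(hz.mul h1).2, h2, Polynomial.eval_monomial, Polynomial.eval_monomial]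
        ring
      · rw [← mul_assoc, hr, mul_assoc, h3 r hr, mul_assoc]

end LPA

end Pool.Agent.Helper665_GA
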