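import Pool.Agent.Helper665_GA.NoExit
import Pool.Agent.Helper665_GA.Block

/-!
# Corners at the base vertices of cycles without exits (helper665)
-/

namespace Pool.Agent.Helper665_GA

open LaurentPolynomial

section mult

variable (K : Type*) [Field K] (G : Graph)

/-- Multiplication of a vertex operator by Laurent polynomials. -/
noncomputable def mulP (v : G.V) : K[T;T⁻¹] →ₙₐ[K] EE K G where
  toFun f := EE.mk (f • (opP K G v).ap)
  map_smul' r f := by
    apply ee_ext; intro x
    show (r • f) • (opP K G v).ap (Finsupp.single x 1)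
      = r • (f • (opP K G v).ap (Finsupp.single x 1))
    rw [smul_assoc]
  map_zero' := by
    apply ee_ext; intro x
    show (0 : K[T;T⁻¹]) • (opP K G v).ap (Finsupp.single x 1) = 0
    rw [zero_smul]
  map_add' f g := by
    apply ee_ext; intro x
    show (f + g) • (opP K G v).ap (Finsupp.single x 1) = f • (opP K G v).ap (Finsupp.single x 1)
      + g • (opP K G v).ap (Finsupp.single x 1)
    rw [add_smul]
  map_mul' f g := by
    apply ee_ext; intro x
    show (f * g) • (opP K G v).ap (Finsupp.single x 1)
      = f • (opP K G v).ap (g • (opP K G v).ap (Finsupp.single x 1))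
    rw [map_smul, ← EE.mul_ap]
    have : opP K G v * opP K G v = opP K G v := (repFamily K G).p_mul_self v
    rw [this, mul_smul]

theorem mulP_ap (v : G.V) (f : K[T;T⁻¹]) (x : VV K G) :
    (mulP K G v f).ap x = f • (opP K G v).ap x := rfl

theorem mulP_one (v : G.V) : mulP K G v 1 = opP K G v := by
  apply ee_ext; intro x
  rw [mulP_ap, one_smul]

theorem opP_mulP (v : G.V) (f : K[T;T⁻¹]) : opP K G v * mulP K G v f = mulP K G v f := by
  rw [← mulP_one, ← map_mul, one_mul]

theorem mulP_opP (v : G.V) (f : K[T;T⁻¹]) : mulP K G v f * opP K G v = mulP K G v f := by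
  rw [← mulP_one, ← map_mul, mul_one]

end mult

namespace LeavittFamily

variable {G : Graph} (hG : G.NoExit) {A B : Type*} [NonUnitalRing A] [NonUnitalRing B]

theorem s_base (Y : LeavittFamily G A) {e : G.E} (hb : G.IsBase (G.src e)) :
    Y.s e = (Y.ext' hG).x (G.src e) * Y.restrict.tP (Graph.bl hG e) (G.src e) := by
  have he : e = Graph.bedge hb := Graph.eq_bedge hG hb rfl
  have h0 := Graph.bl_spec hG hb
  have h1 := Y.restrict.sP_mul_tP hG h0.1 h0.2.2
  rw [h0.2.1] at h1
  rw [ext'_x hG Y hb, ← he, mul_assoc, h1]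
  exact (Y.mul_rng e).symm

theorem t_base (Y : LeavittFamily G A) {e : G.E} (hb : G.IsBase (G.src e)) :
    Y.t e = Y.restrict.sP (Graph.bl hG e) (G.src e) * (Y.ext' hG).y (G.src e) := by
  have he : e = Graph.bedge hb := Graph.eq_bedge hG hb rfl
  have h0 := Graph.bl_spec hG hb
  have h1 := Y.restrict.sP_mul_tP hG h0.1 h0.2.2
  rw [h0.2.1] at h1
  rw [ext'_y hG Y hb, ← he, ← mul_assoc, h1]
  exact (Y.rng_mul e).symm

/-- The invertible element at a base vertex. -/
noncomputable def cub (Y : LeavittFamily G A) {b : G.V} (hb : G.IsBase b) : CornerUnit A where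
  q := Y.p b
  x := (Y.ext' hG).x b
  y := (Y.ext' hG).y b
  qq := Y.p_mul_self b
  qx := (Y.ext' hG).px b hb
  yq := (Y.ext' hG).yp b hb
  xy := (Y.ext' hG).xy b hb
  yx := (Y.ext' hG).yx b hb

end LeavittFamily

namespace LPA

variable {K : Type*} [Field K] {G : Graph} (hG : G.NoExit)

variable (K G) in
/-- The inclusion of the algebra of the cut graph. -/
noncomputable def inc : LPA K G.cut →ₙₐ[K] LPA K G := lift (family K G).restrict

theorem inc_family : (family K G.cut).map (inc K G) = (family K G).restrict := lift_family _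

/-- The evaluation at a base vertex. -/
noncomputable def evb {b : G.V} (hb : G.IsBase b) : K[T;T⁻¹] →ₙₐ[K] LPA K G :=
  ((family K G).cub hG hb).ev K

theorem evb_one {b : G.V} (hb : G.IsBase b) : evb (K := K) hG hb 1 = (family K G).p b :=
  CornerUnit.ev_one _

theorem evb_T {b : G.V} (hb : G.IsBase b) :
    evb (K := K) hG hb (T 1) = ((family K G).ext' hG).x b :=
  CornerUnit.ev_T_one _

theorem evb_T_neg {b : G.V} (hb : G.IsBase b) :
    evb (K := K) hG hb (T (-1)) = ((family K G).ext' hG).y b :=
  CornerUnit.ev_T_neg_one _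

/-- The invertible elements in the boundary path representation of the cut graph. -/
noncomputable def repExt (K : Type*) [Field K] (G : Graph) :
    LeavittFamily.ExtData G (repFamily K G.cut) where
  x v := mulP K G.cut v (T 1)
  y v := mulP K G.cut v (T (-1))
  px b _ := opP_mulP K G.cut b _
  yp b _ := mulP_opP K G.cut b _
  xy b _ := by
    rw [← map_mul, ← T_add]
    exact mulP_one K G.cut b
  yx b _ := by
    rw [← map_mul, ← T_add]
    exact mulP_one K G.cut b

theorem evb_rep {b : G.V} (hb : G.IsBase b) (f : K[T;T⁻¹]) :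
    lift (K := K) (LeavittFamily.glue hG (repFamily K G.cut) (repExt K G)) (evb hG hb f)
      = mulP K G.cut b f := by
  have h1 := lift_family (K := K) (LeavittFamily.glue hG (repFamily K G.cut) (repExt K G))
  set Ψ := lift (K := K) (LeavittFamily.glue hG (repFamily K G.cut) (repExt K G)) with hΨ
  have h2 : Ψ.comp (evb hG hb) = mulP K G.cut b := by
    apply laurent_hom_ext
    · show Ψ (evb hG hb 1) = _
      rw [evb_one, mulP_one]
      exact congrFun (congrArg LeavittFamily.p h1) b
    · show Ψ (evb hG hb (T 1)) = _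
      rw [evb_T, ← LeavittFamily.ext'_map_x, h1, LeavittFamily.ext'_glue_x hG _ _ hb]
      rfl
    · show Ψ (evb hG hb (T (-1))) = _
      rw [evb_T_neg, ← LeavittFamily.ext'_map_y, h1, LeavittFamily.ext'_glue_y hG _ _ hb]
      rfl
  rw [← h2]; rfl

theorem evb_injective {b : G.V} (hb : G.IsBase b) :
    Function.Injective (evb (K := K) hG hb) := by
  rw [injective_iff_map_eq_zero]
  intro f hf
  have h1 := evb_rep hG hb f
  rw [hf, map_zero] at h1
  have h2 : (mulP K G.cut b f).ap (Finsupp.single (BPath.some' b) 1) = 0 := by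
    rw [← h1]; rfl
  have h3 : (opP K G.cut b).ap (Finsupp.single (BPath.some' (G := G.cut) b) 1)
      = Finsupp.single (BPath.some' (G := G.cut) b) 1 := by
    rw [opP_single]
    exact if_pos rfl
  rw [mulP_ap, h3, Finsupp.smul_single, smul_eq_mul, mul_one] at h2
  exact Finsupp.single_eq_zero.1 h2

end LPA

end Pool.Agent.Helper665_GA
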