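import Pool.Agent.Helper665_GA.DirectFinite

/-!
# Countability of a graph from its Leavitt path algebra (helper665)
-/

namespace Pool.Agent.Helper665_GA

/-- A linearly independent family in a countably spanned space is countable. -/
theorem countable_of_li {K : Type*} [Field K] {V : Type*} [AddCommGroup V] [Module K V]
    (s : Set V) (hs : s.Countable) (hspan : ∀ x, x ∈ Submodule.span K s) {ι : Type*} (f : ι → V)
    (hf : LinearIndependent K f) : Countable ι := by
  have h1 := hf.cardinal_lift_le_rank
  have h2 : Module.rank K V ≤ Cardinal.aleph0 := by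
    have h3 : Submodule.span K s = ⊤ := eq_top_iff.2 fun x _ => hspan x
    rw [← rank_top, ← h3]
    exact (rank_span_le s).trans hs.le_aleph0
  have h4 : Cardinal.mk ι ≤ Cardinal.aleph0 := by
    have h5 := h1.trans (Cardinal.lift_le.2 h2)
    rw [Cardinal.lift_aleph0, Cardinal.lift_le_aleph0] at h5
    exact h5
  exact Cardinal.mk_le_aleph0_iff.1 h4

namespace LPA

variable {K : Type*} [Field K] {E F G : Graph}

theorem p_li : LinearIndependent K (fun v : G.V => (family K G).p v) := by
  classical
  rw [linearIndependent_iff']
  intro s g hg v hv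
  have h1 : (family K G).p v * ∑ i ∈ s, g i • (family K G).p i = g v • (family K G).p v := by
    rw [Finset.mul_sum, Finset.sum_eq_single_of_mem v hv]
    · rw [mul_smul_comm, (family K G).p_mul_self]
    · intro w _ hw
      rw [mul_smul_comm, (family K G).p_mul_of_ne v w hw.symm, smul_zero]
  rw [hg, mul_zero] at h1
  rcases smul_eq_zero.1 h1.symm with h | h
  · exact h
  · exact absurd h (p_ne_zero v)

theorem s_li : LinearIndependent K (fun e : G.E => (family K G).s e) := by
  classical
  rw [linearIndependent_iff']
  intro s g hg e he
  have h1 : (family K G).t e * ∑ i ∈ s, g i • (family K G).s i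
      = g e • (family K G).p (G.rng e) := by
    rw [Finset.mul_sum, Finset.sum_eq_single_of_mem e he]
    · rw [mul_smul_comm, (family K G).ghost_mul_self]
    · intro f _ hf
      rw [mul_smul_comm, (family K G).ghost_mul_of_ne e f hf.symm, smul_zero]
  rw [hg, mul_zero] at h1
  rcases smul_eq_zero.1 h1.symm with h | h
  · exact h
  · exact absurd h (p_ne_zero _)

/-- The Leavitt path algebra of a countable graph has countable dimension. -/
theorem exists_countable_span [Countable E.V] [Countable E.E] :
    ∃ s : Set (LPA K E), s.Countable ∧ ∀ x, x ∈ Submodule.span K s := by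
  refine ⟨Set.range fun x : List E.E × List E.E × E.V =>
    sp K E x.1 x.2.2 * tp K E x.2.1 x.2.2, Set.countable_range _, fun x => ?_⟩
  induction x using mono_induction with
  | hm l l' v => exact Submodule.subset_span ⟨(l, l', v), rfl⟩
  | hz => exact Submodule.zero_mem _
  | ha a b h1 h2 => exact Submodule.add_mem _ h1 h2
  | hs r a h => exact Submodule.smul_mem _ r h

/-- Countability passes along surjective homomorphisms. -/
theorem countable_of_iso [Countable E.V] [Countable E.E] (φ : LPA K E →ₙₐ[K] LPA K F)
    (hφ : Function.Surjective φ) : Countable F.V ∧ Countable F.E := by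
  obtain ⟨s, h1, h2⟩ := exists_countable_span (K := K) (E := E)
  have h3 : ∀ y, y ∈ Submodule.span K (φ '' s) := by
    intro y
    obtain ⟨x, rfl⟩ := hφ y
    have h4 := Submodule.mem_map_of_mem (f := (φ : LPA K E →ₗ[K] LPA K F)) (h2 x)
    rw [Submodule.map_span] at h4
    exact h4
  exact ⟨countable_of_li _ (h1.image φ) h3 _ p_li, countable_of_li _ (h1.image φ) h3 _ s_li⟩

end LPA

end Pool.Agent.Helper665_GA
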