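import Pool.Agent.Helper665_GA.Match

/-!
# Isomorphisms descend to the cut graphs (helper665)
-/

namespace Pool.Agent.Helper665_GA

namespace LPA

variable {K : Type*} [Field K] {E F G : Graph}

/-- Scalars at the base vertices. -/
noncomputable def scaleExt (G : Graph) (μ : G.V → K) (hμ : ∀ v, μ v ≠ 0) :
    LeavittFamily.ExtData G (family K G.cut) where
  x b := μ b • (family K G.cut).p b
  y b := (μ b)⁻¹ • (family K G.cut).p b
  px b _ := by rw [mul_smul_comm, (family K G.cut).p_mul_self]
  yp b _ := by rw [smul_mul_assoc, (family K G.cut).p_mul_self]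
  xy b _ := by
    rw [smul_mul_smul_comm, mul_inv_cancel₀ (hμ b), one_smul, (family K G.cut).p_mul_self]
  yx b _ := by
    rw [smul_mul_smul_comm, inv_mul_cancel₀ (hμ b), one_smul, (family K G.cut).p_mul_self]

/-- The projection to the algebra of the cut graph. -/
noncomputable def prj (hG : G.NoExit) (μ : G.V → K) (hμ : ∀ v, μ v ≠ 0) :
    LPA K G →ₙₐ[K] LPA K G.cut :=
  lift (LeavittFamily.glue hG (family K G.cut) (scaleExt G μ hμ))

variable (hG : G.NoExit) (μ : G.V → K) (hμ : ∀ v, μ v ≠ 0)

theorem prj_family : (family K G).map (prj hG μ hμ)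
    = LeavittFamily.glue hG (family K G.cut) (scaleExt G μ hμ) := lift_family _

theorem prj_inc (a : LPA K G.cut) : prj hG μ hμ (inc K G a) = a := by
  have h : (prj hG μ hμ).comp (inc K G) = NonUnitalAlgHom.id K _ := hom_ext (by
    show ((family K G.cut).map (inc K G)).map (prj hG μ hμ) = family K G.cut
    rw [inc_family, ← LeavittFamily.restrict_map, prj_family, LeavittFamily.restrict_glue])
  exact DFunLike.congr_fun h a

theorem prj_p (v : G.V) : prj hG μ hμ ((family K G).p v) = (family K G.cut).p v :=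
  congrFun (congrArg LeavittFamily.p (prj_family hG μ hμ)) v

theorem prj_x {b : G.V} (hb : G.IsBase b) :
    prj hG μ hμ (((family K G).ext' hG).x b) = μ b • (family K G.cut).p b := by
  rw [← LeavittFamily.ext'_map_x, prj_family, LeavittFamily.ext'_glue_x hG _ _ hb]
  rfl

theorem prj_y {b : G.V} (hb : G.IsBase b) :
    prj hG μ hμ (((family K G).ext' hG).y b) = (μ b)⁻¹ • (family K G.cut).p b := by
  rw [← LeavittFamily.ext'_map_y, prj_family, LeavittFamily.ext'_glue_y hG _ _ hb]
  rfl

theorem inc_p (v : G.V) : inc K G ((family K G.cut).p v) = (family K G).p v :=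
  congrFun (congrArg LeavittFamily.p (inc_family (K := K) (G := G))) v

/-- The universal property of the projection. -/
theorem eq_comp_prj {A : Type*} [NonUnitalRing A] [Module K A] [IsScalarTower K A A]
    [SMulCommClass K A A] (g : LPA K G →ₙₐ[K] A)
    (h : ∀ b, G.IsBase b → g (((family K G).ext' hG).x b) = μ b • g ((family K G).p b))
    (a : LPA K G) : g a = g (inc K G (prj hG μ hμ a)) := by
  have h1 : g = (g.comp (inc K G)).comp (prj hG μ hμ) := by
    apply hom_ext
    apply LeavittFamily.ext_of hG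
    · show (family K G).restrict.map g
        = (((family K G).map (prj hG μ hμ)).restrict.map (inc K G)).map g
      rw [prj_family, LeavittFamily.restrict_glue, inc_family]
    · intro b hb
      rw [LeavittFamily.ext'_map_x, LeavittFamily.ext'_map_x, h b hb]
      show _ = g (inc K G (prj hG μ hμ _))
      rw [prj_x hG μ hμ hb, map_smul, map_smul, inc_p]
  conv_lhs => rw [h1]
  rfl

/-- Isomorphisms descend to the cut graphs. -/
theorem exists_cut_iso (hE : E.NoExit) (hF : F.NoExit) (φ : LPA K E →ₙₐ[K] LPA K F)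
    (ψ : LPA K F →ₙₐ[K] LPA K E) (hl : ∀ a, ψ (φ a) = a) (hr : ∀ a, φ (ψ a) = a) :
    ∃ (φ0 : LPA K E.cut →ₙₐ[K] LPA K F.cut) (ψ0 : LPA K F.cut →ₙₐ[K] LPA K E.cut)
      (β : {d // F.IsBase d} → {b // E.IsBase b}), (∀ a, ψ0 (φ0 a) = a) ∧
      (∀ a, φ0 (ψ0 a) = a) ∧ Function.Bijective β ∧
      ∀ d, IEq (φ0 ((family K E.cut).p (β d).1)) ((family K F.cut).p d.1) := by
  classical
  -- the data
  have hdat : ∀ d : {d // F.IsBase d}, ∃ (b : {b // E.IsBase b}) (a a' : LPA K F) (μ : K),
      μ ≠ 0 ∧ a * a' = φ ((family K E).p b.1) ∧ a' * a = (family K F).p d.1 ∧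
      (a' * φ (((family K E).ext' hE).x b.1) * a = μ⁻¹ • ((family K F).ext' hF).x d.1 ∨
        a' * φ (((family K E).ext' hE).x b.1) * a = μ • ((family K F).ext' hF).y d.1) := by
    rintro ⟨d, hd⟩
    obtain ⟨b, hb, h1⟩ := exists_base hF hE ψ φ hr hl hd
    have h2 := h1.map φ
    rw [hr] at h2
    obtain ⟨a, a', h3, h4⟩ := h2.symm
    obtain ⟨c, hc, h5⟩ := exists_scalar hE hF φ ψ hl hr hb hd h3 h4
    rcases h5 with h5 | h5
    · exact ⟨⟨b, hb⟩, a, a', c⁻¹, inv_ne_zero hc, h3, h4, Or.inl (by rw [inv_inv]; exact h5)⟩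
    · exact ⟨⟨b, hb⟩, a, a', c, hc, h3, h4, Or.inr h5⟩
  choose β a a' μ0 hμ0 h1 h2 h3 using hdat
  have hIE : ∀ d, IEq (φ ((family K E).p (β d).1)) ((family K F).p d.1) := fun d =>
    ⟨a d, a' d, h1 d, h2 d⟩
  have hidE : ∀ v, (family K E).p v * (family K E).p v = (family K E).p v :=
    (family K E).p_mul_self
  have hidF : ∀ v, (family K F).p v * (family K F).p v = (family K F).p v :=
    (family K F).p_mul_self
  -- bijectivity
  have hinj : Function.Injective β := by
    intro d d' h
    have h4 := hIE d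
    rw [h] at h4
    exact Subtype.ext (base_eq_of_IEq hF d.2 d'.2
      (h4.symm.trans (hidF _) (hidF _) (hIE d')))
  have hsurj : ∀ b : {b // E.IsBase b}, ∃ d, β d = b := by
    rintro ⟨b, hb⟩
    obtain ⟨d, hd, h4⟩ := exists_base hE hF φ ψ hl hr hb
    refine ⟨⟨d, hd⟩, Subtype.ext ?_⟩
    have hφid : ∀ v, φ ((family K E).p v) * φ ((family K E).p v) = φ ((family K E).p v) :=
      fun v => by rw [← map_mul, hidE]
    have h5 := ((hIE ⟨d, hd⟩).trans (hφid _) (hφid _) h4.symm).map ψ
    rw [hl, hl] at h5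
    exact base_eq_of_IEq hE (β ⟨d, hd⟩).2 hb h5
  -- the scalars
  let μ : F.V → K := fun v => if h : F.IsBase v then μ0 ⟨v, h⟩ else 1
  have hμ : ∀ v, μ v ≠ 0 := by
    intro v
    show (if h : F.IsBase v then μ0 ⟨v, h⟩ else 1) ≠ 0
    split_ifs with h
    · exact hμ0 _
    · exact one_ne_zero
  have hμd : ∀ d : {d // F.IsBase d}, μ d.1 = μ0 d := fun d => dif_pos d.2
  let one : E.V → K := fun _ => 1
  have hone : ∀ v, one v ≠ 0 := fun _ => one_ne_zero
  -- the compatibility for `φ`
  have k1 : ∀ b, E.IsBase b → (prj hF μ hμ).comp φ (((family K E).ext' hE).x b)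
      = one b • (prj hF μ hμ).comp φ ((family K E).p b) := by
    intro b hb
    obtain ⟨d, hd⟩ := hsurj ⟨b, hb⟩
    have hdb : (β d).1 = b := congrArg Subtype.val hd
    show prj hF μ hμ (φ _) = (1 : K) • prj hF μ hμ (φ _)
    rw [one_smul]
    have h4 := h1 d
    have h5 := h2 d
    have h6 := h3 d
    rw [hdb] at h4 h6
    set y := φ (((family K E).ext' hE).x b) with hy
    have hpy : φ ((family K E).p b) * y = y := by
      have : (family K E).p b * ((family K E).ext' hE).x b = ((family K E).ext' hE).x b :=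
        ((family K E).ext' hE).px b hb
      rw [hy, ← map_mul, this]
    have hyp : y * φ ((family K E).p b) = y := by
      have : ((family K E).ext' hE).x b * (family K E).p b = ((family K E).ext' hE).x b :=
        ((family K E).ext' hE).xp hb
      rw [hy, ← map_mul, this]
    have h7 : y = a d * (a' d * y * a d) * a' d := by
      calc y = φ ((family K E).p b) * y * φ ((family K E).p b) := by rw [hpy, hyp]
        _ = _ := by rw [← h4]; noncomm_ring
    have h8 : prj hF μ hμ (a' d * y * a d) = (family K F.cut).p d.1 := by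
      rcases h6 with h6 | h6
      · rw [h6, map_smul, prj_x hF μ hμ d.2, smul_smul, hμd, inv_mul_cancel₀ (hμ0 d), one_smul]
      · rw [h6, map_smul, prj_y hF μ hμ d.2, smul_smul, hμd, mul_inv_cancel₀ (hμ0 d), one_smul]
    rw [h7, map_mul, map_mul, h8, ← h4, ← prj_p hF μ hμ, ← map_mul, ← map_mul, ← h5]
    have h9 : a d * (a' d * a d) * a' d = a d * a' d * (a d * a' d) := by noncomm_ring
    rw [h9, h4, ← map_mul, hidE]
  -- the compatibility for `ψ`
  have k2 : ∀ d, F.IsBase d → (prj hE one hone).comp ψ (((family K F).ext' hF).x d)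
      = μ d • (prj hE one hone).comp ψ ((family K F).p d) := by
    intro d hd
    show prj hE one hone (ψ _) = μ d • prj hE one hone (ψ _)
    have h4 := h1 ⟨d, hd⟩
    have h5 := h2 ⟨d, hd⟩
    have h6 := h3 ⟨d, hd⟩
    have hm0 := hμ0 ⟨d, hd⟩
    have hm : μ d = μ0 ⟨d, hd⟩ := hμd ⟨d, hd⟩
    have hb := (β ⟨d, hd⟩).2
    set b := (β ⟨d, hd⟩).1 with hbdef
    rw [← hm] at h6 hm0
    have h7 : prj hE one hone (ψ (a' ⟨d, hd⟩ * φ (((family K E).ext' hE).x b) * a ⟨d, hd⟩))
        = prj hE one hone (ψ ((family K F).p d)) := by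
      have e1 : prj hE one hone (((family K E).ext' hE).x b)
          = prj hE one hone ((family K E).p b) := by
        rw [prj_x hE one hone hb, prj_p]
        exact one_smul _ _
      calc _ = prj hE one hone (ψ (a' ⟨d, hd⟩)) * prj hE one hone (((family K E).ext' hE).x b)
            * prj hE one hone (ψ (a ⟨d, hd⟩)) := by
            rw [map_mul ψ, map_mul ψ, hl, map_mul, map_mul]
        _ = prj hE one hone (ψ (a' ⟨d, hd⟩ * φ ((family K E).p b) * a ⟨d, hd⟩)) := by
            rw [e1, map_mul ψ, map_mul ψ, hl, map_mul, map_mul]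
        _ = _ := by
            rw [← h4]
            have e2 : a' ⟨d, hd⟩ * (a ⟨d, hd⟩ * a' ⟨d, hd⟩) * a ⟨d, hd⟩
                = (a' ⟨d, hd⟩ * a ⟨d, hd⟩) * (a' ⟨d, hd⟩ * a ⟨d, hd⟩) := by noncomm_ring
            rw [e2, h5, hidF]
    rcases h6 with h6 | h6
    · rw [h6, map_smul, map_smul] at h7
      rw [← h7, smul_smul, mul_inv_cancel₀ hm0, one_smul]
    · rw [h6, map_smul, map_smul] at h7
      have e3 : ((family K F).ext' hF).x d * (family K F).p d = ((family K F).ext' hF).x d :=
        ((family K F).ext' hF).xp hd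
      have e4 : ((family K F).ext' hF).x d * ((family K F).ext' hF).y d = (family K F).p d :=
        ((family K F).ext' hF).xy d hd
      calc prj hE one hone (ψ (((family K F).ext' hF).x d))
          = prj hE one hone (ψ (((family K F).ext' hF).x d))
            * prj hE one hone (ψ ((family K F).p d)) := by
            rw [← map_mul, ← map_mul, e3]
        _ = μ d • (prj hE one hone (ψ (((family K F).ext' hF).x d * ((family K F).ext' hF).y d)))
            := by rw [← h7, mul_smul_comm, ← map_mul, ← map_mul]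
        _ = _ := by rw [e4]
  have c1 := eq_comp_prj hE one hone ((prj hF μ hμ).comp φ) k1
  have c2 := eq_comp_prj hF μ hμ ((prj hE one hone).comp ψ) k2
  refine ⟨((prj hF μ hμ).comp φ).comp (inc K E), ((prj hE one hone).comp ψ).comp (inc K F), β,
    fun x => ?_, fun x => ?_, ⟨hinj, hsurj⟩, fun d => ?_⟩
  · show (prj hE one hone).comp ψ (inc K F (prj hF μ hμ (φ (inc K E x)))) = x
    rw [← c2]
    show prj hE one hone (ψ (φ (inc K E x))) = x
    rw [hl, prj_inc]
  · show (prj hF μ hμ).comp φ (inc K E (prj hE one hone (ψ (inc K F x)))) = x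
    rw [← c1]
    show prj hF μ hμ (φ (ψ (inc K F x))) = x
    rw [hr, prj_inc]
  · show IEq (prj hF μ hμ (φ (inc K E ((family K E.cut).p (β d).1)))) _
    rw [inc_p]
    have := (hIE d).map (prj hF μ hμ)
    rwa [prj_p] at this

end LPA

end Pool.Agent.Helper665_GA
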