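import Mathlib

/-!
# Graphs, Leavitt families, Cuntz-Krieger families (helper665)
-/

namespace Pool.Agent.Helper665_GA

/-- A directed graph: vertices `V`, edges `E`, source and range maps. -/
structure Graph where
  /-- the vertices -/
  V : Type
  /-- the edges -/
  E : Type
  /-- the source map -/
  src : E → V
  /-- the range map -/
  rng : E → V

/-- The family of elements satisfying the relations of the Leavitt path algebra of `G` in a
ring `A` (not necessarily with unit). -/
structure LeavittFamily (G : Graph) (A : Type*) [NonUnitalRing A] where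
  /-- the vertex idempotents -/
  p : G.V → A
  /-- the edges -/
  s : G.E → A
  /-- the ghost edges -/
  t : G.E → A
  p_mul_self : ∀ v, p v * p v = p v
  p_mul_of_ne : ∀ v w, v ≠ w → p v * p w = 0
  src_mul : ∀ e, p (G.src e) * s e = s e
  mul_rng : ∀ e, s e * p (G.rng e) = s e
  rng_mul : ∀ e, p (G.rng e) * t e = t e
  mul_src : ∀ e, t e * p (G.src e) = t e
  ghost_mul_self : ∀ e, t e * s e = p (G.rng e)
  ghost_mul_of_ne : ∀ e f, e ≠ f → t e * s f = 0
  sum_eq : ∀ (v : G.V) (S : Finset G.E), S.Nonempty → (∀ e, e ∈ S ↔ G.src e = v) →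
    ∑ e ∈ S, s e * t e = p v

/-- A Cuntz-Krieger `G`-family in a (not necessarily unital) star ring: mutually orthogonal
projections `p v` and elements `s e` with mutually orthogonal ranges such that
`(s e)^* (s e) = p (rng e)`, `(s e)(s e)^* ≤ p (src e)`, and
`p v = ∑ (s e) (s e)^*` for every vertex which emits at least one and only finitely many edges. -/
structure CKFamily (G : Graph) (A : Type*) [NonUnitalRing A] [StarRing A] where
  /-- the vertex projections -/
  p : G.V → A
  /-- the partial isometries -/
  s : G.E → A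
  p_star : ∀ v, star (p v) = p v
  p_mul_self : ∀ v, p v * p v = p v
  p_mul_of_ne : ∀ v w, v ≠ w → p v * p w = 0
  star_mul_self : ∀ e, star (s e) * s e = p (G.rng e)
  range_orth : ∀ e f, e ≠ f → (s e * star (s e)) * (s f * star (s f)) = 0
  range_le : ∀ e, p (G.src e) * (s e * star (s e)) = s e * star (s e)
  sum_eq : ∀ (v : G.V) (S : Finset G.E), S.Nonempty → (∀ e, e ∈ S ↔ G.src e = v) →
    ∑ e ∈ S, s e * star (s e) = p v

namespace LeavittFamily

variable {G : Graph} {A B : Type*} [NonUnitalRing A] [NonUnitalRing B]

@[ext]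
theorem ext {X Y : LeavittFamily G A} (hp : X.p = Y.p) (hs : X.s = Y.s) (ht : X.t = Y.t) :
    X = Y := by
  cases X; cases Y; simp_all

/-- The image of a family under a ring homomorphism. -/
def map {F : Type*} [FunLike F A B] [NonUnitalRingHomClass F A B] (f : F)
    (X : LeavittFamily G A) : LeavittFamily G B where
  p v := f (X.p v)
  s e := f (X.s e)
  t e := f (X.t e)
  p_mul_self v := by rw [← map_mul, X.p_mul_self]
  p_mul_of_ne v w h := by rw [← map_mul, X.p_mul_of_ne v w h, map_zero]
  src_mul e := by rw [← map_mul, X.src_mul]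
  mul_rng e := by rw [← map_mul, X.mul_rng]
  rng_mul e := by rw [← map_mul, X.rng_mul]
  mul_src e := by rw [← map_mul, X.mul_src]
  ghost_mul_self e := by rw [← map_mul, X.ghost_mul_self]
  ghost_mul_of_ne e f h := by rw [← map_mul, X.ghost_mul_of_ne e f h, map_zero]
  sum_eq v S hS h := by
    rw [← X.sum_eq v S hS h, map_sum]
    exact Finset.sum_congr rfl fun e _ => (map_mul _ _ _).symm

@[simp] theorem map_p {F : Type*} [FunLike F A B] [NonUnitalRingHomClass F A B] (f : F)
    (X : LeavittFamily G A) (v : G.V) : (X.map f).p v = f (X.p v) := rfl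
@[simp] theorem map_s {F : Type*} [FunLike F A B] [NonUnitalRingHomClass F A B] (f : F)
    (X : LeavittFamily G A) (e : G.E) : (X.map f).s e = f (X.s e) := rfl
@[simp] theorem map_t {F : Type*} [FunLike F A B] [NonUnitalRingHomClass F A B] (f : F)
    (X : LeavittFamily G A) (e : G.E) : (X.map f).t e = f (X.t e) := rfl

end LeavittFamily

namespace CKFamily

variable {G : Graph} {A : Type*} [NonUnitalRing A] [StarRing A]

@[ext]
theorem ext {X Y : CKFamily G A} (hp : X.p = Y.p) (hs : X.s = Y.s) : X = Y := by
  cases X; cases Y; simp_all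

end CKFamily

end Pool.Agent.Helper665_GA
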