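import Pool.Agent.Helper665_GA.Local

/-!
# Direct finiteness of Leavitt path algebras of graphs whose cycles have no exits (helper665)
-/

namespace Pool.Agent.Helper665_GA

open LaurentPolynomial

/-- Idempotents equivalent to a subidempotent in a directly finite unital ring. -/
theorem eq_of_df {M : Type*} [Ring M] (hM : ∀ a b : M, a * b = 1 → b * a = 1) {x y p q : M}
    (h1 : x * y = p) (h2 : y * x = q) (hp : p * p = p) (hq : q * q = q) (hpq : p * q = q)
    (hqp : q * p = q) : p = q := by
  have hab : (1 - p + p * x * q) * (1 - p + q * y * p) = 1 := by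
    have e1 : (p * x * q) * (q * y * p) = p := by
      calc (p * x * q) * (q * y * p) = p * (x * (q * q) * y) * p := by noncomm_ring
        _ = p * ((x * y) * (x * y)) * p := by rw [hq, ← h2]; noncomm_ring
        _ = p := by rw [h1, hp, hp, hp]
    have e2 : (1 - p) * (q * y * p) = 0 := by
      calc (1 - p) * (q * y * p) = (q - p * q) * (y * p) := by noncomm_ring
        _ = 0 := by rw [hpq, sub_self, zero_mul]
    have e3 : (p * x * q) * (1 - p) = 0 := by
      calc (p * x * q) * (1 - p) = p * x * (q - q * p) := by noncomm_ring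
        _ = 0 := by rw [hqp, sub_self, mul_zero]
    have e4 : (1 - p) * (1 - p) = 1 - p := by
      calc (1 - p) * (1 - p) = 1 - p - p + p * p := by noncomm_ring
        _ = 1 - p := by rw [hp]; abel
    calc _ = (1 - p) * (1 - p) + (1 - p) * (q * y * p) + (p * x * q) * (1 - p)
          + (p * x * q) * (q * y * p) := by noncomm_ring
      _ = 1 := by rw [e1, e2, e3, e4]; abel
  have hba := hM _ _ hab
  have e1 : (q * y * p) * (p * x * q) = q := by
    calc (q * y * p) * (p * x * q) = q * (y * (p * p) * x) * q := by noncomm_ring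
      _ = q * ((y * x) * (y * x)) * q := by rw [hp, ← h1]; noncomm_ring
      _ = q := by rw [h2, hq, hq, hq]
  have e2 : (1 - p) * (p * x * q) = 0 := by
    calc (1 - p) * (p * x * q) = (p - p * p) * (x * q) := by noncomm_ring
      _ = 0 := by rw [hp, sub_self, zero_mul]
  have e3 : (q * y * p) * (1 - p) = 0 := by
    calc (q * y * p) * (1 - p) = q * y * (p - p * p) := by noncomm_ring
      _ = 0 := by rw [hp, sub_self, mul_zero]
  have e4 : (1 - p) * (1 - p) = 1 - p := by
    calc (1 - p) * (1 - p) = 1 - p - p + p * p := by noncomm_ring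
      _ = 1 - p := by rw [hp]; abel
  have e5 : (1 - p + q * y * p) * (1 - p + p * x * q) = 1 - p + q := by
    calc _ = (1 - p) * (1 - p) + (1 - p) * (p * x * q) + (q * y * p) * (1 - p)
          + (q * y * p) * (p * x * q) := by noncomm_ring
      _ = _ := by rw [e1, e2, e3, e4]; abel
  rw [e5] at hba
  have h6 : p = p + (1 - p + q) - 1 := by rw [hba]; abel
  rw [h6]; abel

variable {K : Type*} [Field K] {A : Type*} [NonUnitalRing A] [Module K A] [IsScalarTower K A A]
  [SMulCommClass K A A]

omit [IsScalarTower K A A] [SMulCommClass K A A] in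
theorem block_df {ι : Type*} [Fintype ι] [DecidableEq ι] (row col : ι → A)
    (e : K[T;T⁻¹] →ₙₐ[K] A)
    (hcr : ∀ i j, col i * row j = if i = j then e 1 else 0)
    {x y p q : A} (X Y : Matrix ι ι K[T;T⁻¹]) (hx : x = ∑ i, ∑ j, row i * e (X i j) * col j)
    (hy : y = ∑ i, ∑ j, row i * e (Y i j) * col j) (h1 : x * y = p) (h2 : y * x = q)
    (hp : p * p = p) (hqq : q * q = q) (hpq : p * q = q) (hqp : q * p = q) : p = q := by
  set Φ : Matrix ι ι K[T;T⁻¹] → A := fun C => ∑ i, ∑ j, row i * e (C i j) * col j with hΦ
  have k1 : ∀ (D : Matrix ι ι K[T;T⁻¹]) (k : ι), col k * Φ D = ∑ j, e (D k j) * col j := by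
    intro D k
    rw [hΦ, Finset.mul_sum]
    rw [Finset.sum_eq_single_of_mem k (Finset.mem_univ k)]
    · rw [Finset.mul_sum]
      apply Finset.sum_congr rfl
      intro j _
      rw [← mul_assoc, ← mul_assoc, hcr, if_pos rfl, ← map_mul, one_mul]
    · intro i _ hi
      rw [Finset.mul_sum]
      apply Finset.sum_eq_zero
      intro j _
      rw [← mul_assoc, ← mul_assoc, hcr, if_neg (fun h => hi h.symm), zero_mul, zero_mul]
  have k2 : ∀ (D : Matrix ι ι K[T;T⁻¹]) (k l : ι), col k * Φ D * row l = e (D k l) := by
    intro D k l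
    rw [k1, Finset.sum_mul, Finset.sum_eq_single_of_mem l (Finset.mem_univ l)]
    · rw [mul_assoc, hcr, if_pos rfl, ← map_mul, mul_one]
    · intro j _ hj
      rw [mul_assoc, hcr, if_neg hj, mul_zero]
  have k3 : ∀ C D : Matrix ι ι K[T;T⁻¹], Φ C * Φ D = Φ (C * D) := by
    intro C D
    have e1 : Φ C * Φ D = ∑ i, ∑ j, row i * e (C i j) * (col j * Φ D) := by
      show (∑ i, ∑ j, row i * e (C i j) * col j) * Φ D = _
      rw [Finset.sum_mul]
      apply Finset.sum_congr rfl
      intro i _
      rw [Finset.sum_mul]
      apply Finset.sum_congr rfl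
      intro j _
      rw [mul_assoc]
    rw [e1]
    show _ = ∑ i, ∑ l, row i * e ((C * D) i l) * col l
    apply Finset.sum_congr rfl
    intro i _
    have e2 : ∀ j, row i * e (C i j) * (col j * Φ D)
        = ∑ l, row i * e (C i j * D j l) * col l := by
      intro j
      rw [k1, Finset.mul_sum]
      apply Finset.sum_congr rfl
      intro l _
      rw [map_mul]; noncomm_ring
    rw [Finset.sum_congr rfl fun j _ => e2 j, Finset.sum_comm]
    apply Finset.sum_congr rfl
    intro l _
    rw [Matrix.mul_apply, map_sum, Finset.mul_sum, Finset.sum_mul]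
  -- the kernel of the evaluation
  let I : Ideal K[T;T⁻¹] :=
    { carrier := {f | e f = 0}
      add_mem' := fun {a b} ha hb => by
        show e (a + b) = 0
        rw [map_add, ha, hb, add_zero]
      zero_mem' := map_zero e
      smul_mem' := fun c a ha => by
        show e (c * a) = 0
        rw [map_mul, ha, mul_zero] }
  have hI : ∀ f g, Ideal.Quotient.mk I f = Ideal.Quotient.mk I g ↔ e f = e g := by
    intro f g
    rw [Ideal.Quotient.eq]
    show e (f - g) = 0 ↔ _
    rw [map_sub, sub_eq_zero]
  let r : Matrix ι ι K[T;T⁻¹] →+* Matrix ι ι (K[T;T⁻¹] ⧸ I) := (Ideal.Quotient.mk I).mapMatrix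
  have hr : ∀ C D, Φ C = Φ D ↔ r C = r D := by
    intro C D
    constructor
    · intro h
      ext i j
      show Ideal.Quotient.mk I (C i j) = Ideal.Quotient.mk I (D i j)
      rw [hI, ← k2, ← k2, h]
    · intro h
      show ∑ i, ∑ j, row i * e (C i j) * col j = ∑ i, ∑ j, row i * e (D i j) * col j
      apply Finset.sum_congr rfl
      intro i _
      apply Finset.sum_congr rfl
      intro j _
      have h3 : Ideal.Quotient.mk I (C i j) = Ideal.Quotient.mk I (D i j) :=
        congrFun (congrFun h i) j
      rw [(hI _ _).1 h3]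
  have hx' : x = Φ X := hx
  have hy' : y = Φ Y := hy
  have hp' : p = Φ (X * Y) := by rw [← k3, ← hx', ← hy', h1]
  have hq' : q = Φ (Y * X) := by rw [← k3, ← hx', ← hy', h2]
  rw [hp', hq', hr]
  refine eq_of_df (x := r X) (y := r Y) (fun a b => mul_eq_one_comm.1) (map_mul r X Y).symm
    (map_mul r Y X).symm ?_ ?_ ?_ ?_
  · rw [← map_mul, ← hr, ← k3, ← hp', hp]
  · rw [← map_mul, ← hr, ← k3, ← hq', hqq]
  · rw [← map_mul, ← hr, ← k3, ← hp', ← hq', hpq]
  · rw [← map_mul, ← hr, ← k3, ← hp', ← hq', hqp]

namespace RSys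

variable (S : RSys K A)

/-- Block algebras are directly finite. -/
theorem df {x y p q : A} (hx : x ∈ S.alg) (hy : y ∈ S.alg) (h1 : x * y = p) (h2 : y * x = q)
    (hp : p * p = p) (hqq : q * q = q) (hpq : p * q = q) (hqp : q * p = q) : p = q := by
  classical
  have hpm : p ∈ S.alg := h1 ▸ mul_mem hx hy
  have hqm : q ∈ S.alg := h2 ▸ mul_mem hy hx
  have key : ∀ w, S.z w * p = S.z w * q := by
    intro w
    have hzx := S.z_comm w hx
    have hzy := S.z_comm w hy
    have hzp := S.z_comm w hpm
    have hzq := S.z_comm w hqm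
    have hblk : ∀ C : S.ι → S.ι → K[T;T⁻¹], S.z w * S.Φ C
        = ∑ i : {i // S.blk i = w}, ∑ j : {j // S.blk j = w},
          S.row i.1 * S.ev w (C i.1 j.1) * S.col j.1 := by
      intro C
      rw [z_mul_Φ, sum_ite_subtype (fun i => S.blk i = w)]
      apply Finset.sum_congr rfl
      rintro ⟨i, hi⟩ _
      rw [← sum_ite_subtype (fun j => S.blk j = w)
        (fun j => S.row i * S.ev w (C i j) * S.col j)]
      apply Finset.sum_congr rfl
      intro j _
      show S.u i (C i j) j = _
      unfold u
      rw [hi]
      by_cases hj : S.blk j = w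
      · rw [if_pos hj, if_pos hj.symm]
      · rw [if_neg hj, if_neg (fun h => hj h.symm)]
    obtain ⟨X, hX⟩ := hx
    obtain ⟨Y, hY⟩ := hy
    refine block_df (fun i : {i // S.blk i = w} => S.row i.1) (fun i => S.col i.1) (S.ev w)
      (fun i j => ?_) (x := S.z w * x) (y := S.z w * y) (fun i j => X i.1 j.1)
      (fun i j => Y i.1 j.1) ?_ ?_ ?_ ?_ ?_ ?_ ?_ ?_
    · split_ifs with h
      · rw [h, S.col_row_self, j.2]
      · exact S.col_row _ _ fun h' => h (Subtype.ext h')
    · rw [← hX]; exact hblk X
    · rw [← hY]; exact hblk Y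
    · calc S.z w * x * (S.z w * y) = S.z w * (x * S.z w) * y := by noncomm_ring
        _ = (S.z w * S.z w) * (x * y) := by rw [← hzx]; noncomm_ring
        _ = _ := by rw [S.z_mul_self, h1]
    · calc S.z w * y * (S.z w * x) = S.z w * (y * S.z w) * x := by noncomm_ring
        _ = (S.z w * S.z w) * (y * x) := by rw [← hzy]; noncomm_ring
        _ = _ := by rw [S.z_mul_self, h2]
    · calc S.z w * p * (S.z w * p) = S.z w * (p * S.z w) * p := by noncomm_ring
        _ = (S.z w * S.z w) * (p * p) := by rw [← hzp]; noncomm_ring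
        _ = _ := by rw [S.z_mul_self, hp]
    · calc S.z w * q * (S.z w * q) = S.z w * (q * S.z w) * q := by noncomm_ring
        _ = (S.z w * S.z w) * (q * q) := by rw [← hzq]; noncomm_ring
        _ = _ := by rw [S.z_mul_self, hqq]
    · calc S.z w * p * (S.z w * q) = S.z w * (p * S.z w) * q := by noncomm_ring
        _ = (S.z w * S.z w) * (p * q) := by rw [← hzp]; noncomm_ring
        _ = _ := by rw [S.z_mul_self, hpq]
    · calc S.z w * q * (S.z w * p) = S.z w * (q * S.z w) * p := by noncomm_ring
        _ = (S.z w * S.z w) * (q * p) := by rw [← hzq]; noncomm_ring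
        _ = _ := by rw [S.z_mul_self, hqp]
  rw [← S.sum_z_mul hpm, ← S.sum_z_mul hqm]
  exact Finset.sum_congr rfl fun w _ => key w

end RSys

namespace LPA

variable {G E F : Graph}

/-- Leavitt path algebras of graphs whose cycles have no exits are directly finite. -/
theorem df_of_noExit (hG : G.NoExit) {x y p q : LPA K G} (h1 : x * y = p) (h2 : y * x = q)
    (hp : p * p = p) (hq : q * q = q) (hpq : p * q = q) (hqp : q * p = q) : p = q := by
  classical
  obtain ⟨E1, V1, h⟩ := exists_rsys hG {x, y}
  exact (rsys K hG E1 V1).df (h x (by simp)) (h y (by simp)) h1 h2 hp hq hpq hqp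

/-- The vertices are nonzero. -/
theorem p_ne_zero (v : G.V) : (family K G).p v ≠ 0 := by
  intro h
  have h1 : lift (repFamily K G) ((family K G).p v) = opP K G v :=
    congrFun (congrArg LeavittFamily.p (lift_family (K := K) (repFamily K G))) v
  rw [h, map_zero] at h1
  have h2 := opP_single K G v (BPath.some' v) 1
  rw [← h1, if_pos (BPath.some'_vtx v)] at h2
  have h3 := DFunLike.congr_fun h2 (BPath.some' v)
  rw [Finsupp.single_eq_same] at h3
  exact one_ne_zero h3.symm

/-- A path from `v` to `w`. -/
theorem exists_path {v w : G.V} (h : Relation.TransGen G.Adj v w) :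
    ∃ (e : G.E) (l : List G.E), Valid (e :: l) w ∧ G.src e = v := by
  induction h using Relation.TransGen.head_induction_on with
  | single h =>
    obtain ⟨e, h1, h2⟩ := h
    exact ⟨e, [], ⟨h2, trivial⟩, h1⟩
  | head h1 _ ih =>
    obtain ⟨e, h2, h3⟩ := h1
    obtain ⟨f, l, h4, h5⟩ := ih
    exact ⟨e, f :: l, ⟨h3.trans h5.symm, h4⟩, h2⟩

/-- The range of a direct finite property. -/
theorem noExit_of_df (hdf : ∀ x y p q : LPA K G, x * y = p → y * x = q → p * p = p →
    q * q = q → p * q = q → q * p = q → p = q) : G.NoExit := by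
  intro e f he hef
  by_contra hne
  obtain ⟨g, l, h1, h2⟩ := exists_path he
  set v := G.src e with hv
  -- an edge different from the first edge of the path
  obtain ⟨k, hk1, hk2⟩ : ∃ k, G.src k = v ∧ k ≠ g := by
    by_cases h : e = g
    · exact ⟨f, hef.symm, fun h' => hne (h.trans h'.symm)⟩
    · exact ⟨e, rfl, h⟩
  have hts : tp K G (g :: l) v * sp K G (g :: l) v = (family K G).p v := by
    have key : ∀ (l : List G.E), Valid l v → tp K G l v * sp K G l v
        = (family K G).p v := by
      intro l
      induction l with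
      | nil => exact fun _ => (family K G).p_mul_self v
      | cons e l ih2 =>
        intro hl
        show tp K G l v * (family K G).t e * ((family K G).s e * sp K G l v) = _
        calc _ = tp K G l v * ((family K G).t e * (family K G).s e) * sp K G l v := by
              noncomm_ring
          _ = tp K G l v * sp K G l v := by
              rw [(family K G).ghost_mul_self, hl.1]
              congr 1
              exact (family K G).tP_p_start l v
          _ = _ := ih2 hl.2
    exact key _ h1
  have hps : (family K G).p v * sp K G (g :: l) v = sp K G (g :: l) v := by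
    have := (family K G).p_start_sP (g :: l) v
    rw [show start (g :: l) v = v from h2] at this
    exact this
  have htp : tp K G (g :: l) v * (family K G).p v = tp K G (g :: l) v := by
    have := (family K G).tP_p_start (g :: l) v
    rw [show start (g :: l) v = v from h2] at this
    exact this
  have h3 := hdf (tp K G (g :: l) v) (sp K G (g :: l) v) ((family K G).p v)
    (sp K G (g :: l) v * tp K G (g :: l) v) hts rfl ((family K G).p_mul_self v)
    (by
      calc sp K G (g :: l) v * tp K G (g :: l) v * (sp K G (g :: l) v * tp K G (g :: l) v)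
          = sp K G (g :: l) v * (tp K G (g :: l) v * sp K G (g :: l) v) * tp K G (g :: l) v := by
            noncomm_ring
        _ = _ := by
          rw [hts]
          congr 1
          exact (family K G).sP_mul_p _ _)
    (by rw [← mul_assoc, hps]) (by rw [mul_assoc, htp])
  apply p_ne_zero (K := K) (G.rng k)
  have h4 : (family K G).t k * sp K G (g :: l) v = 0 := by
    show (family K G).t k * ((family K G).s g * sp K G l v) = 0
    rw [← mul_assoc, (family K G).ghost_mul_of_ne k g hk2, zero_mul]
  have h5 : (family K G).t k = 0 := by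
    rw [← (family K G).mul_src k, hk1, h3, ← mul_assoc, h4, zero_mul]
  rw [← (family K G).ghost_mul_self, h5, zero_mul]

/-- A graph whose Leavitt path algebra is isomorphic to the one of a graph whose cycles have no
exits has the same property. -/
theorem noExit_of_iso (hE : E.NoExit) (φ : LPA K E →ₙₐ[K] LPA K F)
    (ψ : LPA K F →ₙₐ[K] LPA K E) (hr : ∀ a, φ (ψ a) = a) : F.NoExit := by
  apply noExit_of_df (K := K)
  intro x y p q h1 h2 hp hq hpq hqp
  have h3 : ψ p = ψ q := by
    apply df_of_noExit hE (x := ψ x) (y := ψ y)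
    · rw [← map_mul, h1]
    · rw [← map_mul, h2]
    · rw [← map_mul, hp]
    · rw [← map_mul, hq]
    · rw [← map_mul, hpq]
    · rw [← map_mul, hqp]
  rw [← hr p, h3, hr]

end LPA

end Pool.Agent.Helper665_GA
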