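import Pool.Agent.Helper665_GA.Stage

/-!
# Extension of a stage (helper665)
-/

namespace Pool.Agent.Helper665_GA

set_option linter.unusedSectionVars false

variable {K : Type*} [Field K] [StarRing K]
  {A : Type*} [NonUnitalRing A] [StarRing A] [Module K A]
  [IsScalarTower K A A] [SMulCommClass K A A] [StarModule K A]
  {B : Type*} [NonUnitalRing B] [StarRing B] [Module K B]
  [IsScalarTower K B B] [SMulCommClass K B B] [StarModule K B]

namespace MU

theorem isStd_sum (T : MU A) {κ : Type*} (s : Finset κ) (g : κ → A)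
    (h : ∀ i ∈ s, T.IsStd (g i))
    (h1 : ∀ i ∈ s, ∀ j ∈ s, i ≠ j → star (g i) * g j = 0)
    (h2 : ∀ i ∈ s, ∀ j ∈ s, i ≠ j → g i * star (g j) = 0) : T.IsStd (∑ i ∈ s, g i) := by
  classical
  induction s using Finset.induction_on with
  | empty => rw [Finset.sum_empty]; exact ⟨∅, id, by simp, by simp, by simp⟩
  | insert a s ha ih =>
    rw [Finset.sum_insert ha]
    have hne : ∀ j ∈ s, a ≠ j := by
      rintro j hj rfl
      exact ha hj
    apply T.isStd_add (h a (Finset.mem_insert_self _ _))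
    · exact ih (fun i hi => h i (Finset.mem_insert_of_mem hi))
        (fun i hi j hj => h1 i (Finset.mem_insert_of_mem hi) j (Finset.mem_insert_of_mem hj))
        (fun i hi j hj => h2 i (Finset.mem_insert_of_mem hi) j (Finset.mem_insert_of_mem hj))
    · rw [Finset.mul_sum]
      exact Finset.sum_eq_zero fun j hj => h1 a (Finset.mem_insert_self _ _) j
        (Finset.mem_insert_of_mem hj) (hne j hj)
    · rw [star_sum, Finset.mul_sum]
      exact Finset.sum_eq_zero fun j hj => h2 a (Finset.mem_insert_self _ _) j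
        (Finset.mem_insert_of_mem hj) (hne j hj)

variable (M : MU A) (P : MU (A × B)) (f : M.ι ≃ P.ι)

theorem exists_pair (hf : ∀ i j, (P.m (f i) (f j)).1 = M.m i j)
    (hb : ∀ i j, P.blk (f i) = P.blk (f j) ↔ M.blk i = M.blk j) {a : A} (ha : a ∈ M.alg K) :
    ∃ b, (a, b) ∈ P.alg K := by
  obtain ⟨C, hC, rfl⟩ := ha
  refine ⟨(P.Φ (C.submatrix f.symm f.symm)).2, C.submatrix f.symm f.symm, ?_, ?_⟩
  · intro i j hij
    apply hC
    intro h
    apply hij
    have := (hb (f.symm i) (f.symm j)).2 h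
    rwa [f.apply_symm_apply, f.apply_symm_apply] at this
  · apply Prod.ext
    · show (P.Φ (C.submatrix f.symm f.symm)).1 = M.Φ C
      unfold Φ
      rw [Prod.fst_sum, ← f.sum_comp]
      apply Finset.sum_congr rfl
      intro i _
      rw [Prod.fst_sum, ← f.sum_comp]
      apply Finset.sum_congr rfl
      intro j _
      rw [Matrix.submatrix_apply, f.symm_apply_apply, f.symm_apply_apply, Prod.smul_fst, hf]
    · rfl

theorem stdFst_of_isStd (hf : ∀ i j, (P.m (f i) (f j)).1 = M.m i j)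
    (hb : ∀ i j, P.blk (f i) = P.blk (f j) ↔ M.blk i = M.blk j) {a : A} (ha : M.IsStd a) :
    P.StdFst a := by
  obtain ⟨D, e, he, hbl, rfl⟩ := ha
  refine ⟨D.map f.toEmbedding, fun i => f (e (f.symm i)), ?_, ?_, ?_⟩
  · intro i hi j hj h
    rw [Finset.mem_coe, Finset.mem_map] at hi hj
    obtain ⟨i', hi', rfl⟩ := hi
    obtain ⟨j', hj', rfl⟩ := hj
    have h1 := f.injective h
    simp only [Equiv.coe_toEmbedding, Equiv.symm_apply_apply] at h1
    rw [he hi' hj' h1]
  · intro i hi
    rw [Finset.mem_map] at hi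
    obtain ⟨i', hi', rfl⟩ := hi
    simp only [Equiv.coe_toEmbedding, Equiv.symm_apply_apply]
    rw [hb]
    exact hbl i' hi'
  · rw [Finset.sum_map]
    apply Finset.sum_congr rfl
    intro i _
    simp only [Equiv.coe_toEmbedding, Equiv.symm_apply_apply]
    rw [hf]

end MU

variable {DA : StdData K A} {DB : StdData K B} {φ : A →ₙₐ[K] B}

namespace Stg

variable (s : Stg DA DB φ)

theorem std_fst {p : A} {q : B} (hp : s.P.StdFst p) (hpq : (p, q) ∈ s.P.alg K) (hpp : p * p = p) :
    q ∈ DB.S ∧ IEq (φ p) q := by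
  have h1 := s.P.isStd_of_fst K s.fst_ne hp hpq
  refine ⟨s.P.snd_mem_of_isStd DB s.sb h1, ?_⟩
  apply s.P.IEq_of_isStd φ s.eqv h1
  have h2 : (p, q) * (p, q) - (p, q) = 0 :=
    s.P.fst_inj K s.fst_ne (sub_mem (mul_mem hpq hpq) hpq) (by
      show p * p - p = 0
      rw [hpp, sub_self])
  exact sub_eq_zero.1 h2

theorem exists_extend (a : A) (p : A) (hp : p ∈ DA.S) (hpp : p * p = p) :
    ∃ t : Stg DA DB φ, (∀ i j, s.P.m i j ∈ t.P.alg K) ∧ (∃ b, (a, b) ∈ t.P.alg K) ∧
      ∃ q ∈ DB.S, (p, q) ∈ t.P.alg K ∧ IEq (φ p) q := by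
  classical
  -- the large system
  obtain ⟨r, hr1, hr2⟩ := DA.big {a}
    (insert p (Finset.univ.image fun x : s.P.ι × s.P.ι => (s.P.m x.1 x.2).1)) (by
      intro x hx
      rw [Finset.mem_insert, Finset.mem_image] at hx
      rcases hx with rfl | ⟨x, -, rfl⟩
      · exact hp
      · exact s.sa _ _)
  have hra : a ∈ (DA.T r).alg K := hr1 a (Finset.mem_singleton_self a)
  have hrp : (DA.T r).IsStd p := hr2 p (Finset.mem_insert_self _ _)
  have hrx : ∀ i j, (DA.T r).IsStd (s.P.m i j).1 := fun i j =>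
    hr2 _ (Finset.mem_insert_of_mem (Finset.mem_image.2 ⟨(i, j), Finset.mem_univ _, rfl⟩))
  obtain ⟨P0, f, hf, hfb, hP0, hP0e⟩ := DB.exists_system (DA.T r) φ
  let t0 : Stg DA DB φ :=
    { P := P0
      sa := fun i j => by
        have h1 : (P0.m i j).1 = (DA.T r).m (f.symm i) (f.symm j) := by
          rw [← hf, f.apply_symm_apply, f.apply_symm_apply]
        rw [h1]
        by_cases h2 : (DA.T r).blk (f.symm i) = (DA.T r).blk (f.symm j)
        · exact ⟨r, (DA.T r).isStd_m h2⟩
        · rw [(DA.T r).off _ _ h2]; exact DA.zero_mem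
      sb := hP0
      eqv := hP0e }
  have hinj : ∀ {x y : A × B}, x ∈ P0.alg K → y ∈ P0.alg K → x.1 = y.1 → x = y := by
    intro x y hx hy h
    exact sub_eq_zero.1 (P0.fst_inj K t0.fst_ne (sub_mem hx hy) (by
      rw [Prod.fst_sub, h, sub_self]))
  -- the copies of the old matrix units
  have hk : ∀ i j, ∃ b, ((s.P.m i j).1, b) ∈ P0.alg K := fun i j =>
    MU.exists_pair (DA.T r) P0 f hf hfb ((DA.T r).isStd_mem (hrx i j))
  choose k hk using hk
  have hkstd : ∀ i j, P0.IsStd ((s.P.m i j).1, k i j) := fun i j =>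
    P0.isStd_of_fst K t0.fst_ne (MU.stdFst_of_isStd (DA.T r) P0 f hf hfb (hrx i j)) (hk i j)
  have hkS : ∀ i j, k i j ∈ DB.S := fun i j => P0.snd_mem_of_isStd DB hP0 (hkstd i j)
  have hkne : ∀ i j k' l, j ≠ k' → k i j * k k' l = 0 := by
    intro i j k' l h
    have h1 : ((s.P.m i j).1, k i j) * ((s.P.m k' l).1, k k' l) = 0 :=
      hinj (mul_mem (hk i j) (hk k' l)) (zero_mem _) (by
        show (s.P.m i j).1 * (s.P.m k' l).1 = 0
        rw [← Prod.fst_mul, s.P.mul_ne i j k' l h, Prod.fst_zero])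
    exact congrArg Prod.snd h1
  have hkmul : ∀ i j l, s.P.blk i = s.P.blk j → s.P.blk j = s.P.blk l →
      k i j * k j l = k i l := by
    intro i j l h h'
    have h1 : ((s.P.m i j).1, k i j) * ((s.P.m j l).1, k j l) = ((s.P.m i l).1, k i l) :=
      hinj (mul_mem (hk i j) (hk j l)) (hk i l) (by
        show (s.P.m i j).1 * (s.P.m j l).1 = (s.P.m i l).1
        rw [← Prod.fst_mul, s.P.mul_eq i j l h h'])
    exact congrArg Prod.snd h1
  have hkstar : ∀ i j, star (k i j) = k j i := by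
    intro i j
    have h1 : star ((s.P.m i j).1, k i j) = ((s.P.m j i).1, k j i) :=
      hinj (P0.star_mem (hk i j)) (hk j i) (by
        show star (s.P.m i j).1 = (s.P.m j i).1
        rw [← Prod.fst_star, s.P.star_m])
    exact congrArg Prod.snd h1
  have hkoff : ∀ i j, s.P.blk i ≠ s.P.blk j → k i j = 0 := by
    intro i j h
    have h1 : ((s.P.m i j).1, k i j) = 0 := hinj (hk i j) (zero_mem _) (by
        show (s.P.m i j).1 = 0
        rw [s.P.off i j h, Prod.fst_zero])
    exact congrArg Prod.snd h1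
  have hidm : ∀ i, s.P.m i i * s.P.m i i = s.P.m i i := fun i => s.P.mul_eq i i i rfl rfl
  have hidn : ∀ i, (s.P.m i i).2 * (s.P.m i i).2 = (s.P.m i i).2 := fun i => by
    rw [← Prod.snd_mul, hidm]
  have hidx : ∀ i, φ (s.P.m i i).1 * φ (s.P.m i i).1 = φ (s.P.m i i).1 := fun i => by
    rw [← map_mul, ← Prod.fst_mul, hidm]
  have hidk : ∀ i, k i i * k i i = k i i := fun i => hkmul i i i rfl rfl
  have hke : ∀ i, IEq (φ (s.P.m i i).1) (k i i) := fun i =>
    P0.IEq_of_isStd φ hP0e (hkstd i i) (Prod.ext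
      (by show (s.P.m i i).1 * (s.P.m i i).1 = (s.P.m i i).1; rw [← Prod.fst_mul, hidm])
      (hidk i))
  -- the connecting partial isometries
  have hc : ∀ i, ∃ c ∈ DB.S, c * star c = (s.P.m i i).2 ∧ star c * c = k i i := fun i =>
    DB.exists_equiv (s.sb i i) (hkS i i) (hidn i) (hidk i)
      ((s.eqv i).symm.trans (hidn i) (hidk i) (hke i))
  choose c hcS hc1 hc2 using hc
  obtain ⟨ρ, hρ1, hρ2⟩ := exists_ref s.P.blk
  let n : s.P.ι → s.P.ι → B := fun i j => (s.P.m i j).2
  have hn : ∀ i j, (s.P.m i j).2 = n i j := fun i j => rfl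
  have hnmul : ∀ i j l, s.P.blk i = s.P.blk j → s.P.blk j = s.P.blk l →
      n i j * n j l = n i l := fun i j l h h' => by
    show (s.P.m i j).2 * (s.P.m j l).2 = (s.P.m i l).2
    rw [← Prod.snd_mul, s.P.mul_eq i j l h h']
  have hnne : ∀ i j k' l, j ≠ k' → n i j * n k' l = 0 := fun i j k' l h => by
    show (s.P.m i j).2 * (s.P.m k' l).2 = 0
    rw [← Prod.snd_mul, s.P.mul_ne i j k' l h, Prod.snd_zero]
  have hnstar : ∀ i j, star (n i j) = n j i := fun i j => by
    show star (s.P.m i j).2 = (s.P.m j i).2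
    rw [← Prod.snd_star, s.P.star_m]
  have hnoff : ∀ i j, s.P.blk i ≠ s.P.blk j → n i j = 0 := fun i j h => by
    show (s.P.m i j).2 = 0
    rw [s.P.off i j h, Prod.snd_zero]
  simp only [hn] at hc1 hidn
  let d : s.P.ι → B := fun i => n i (ρ i) * c (ρ i) * k (ρ i) i
  have hd : ∀ i, d i = n i (ρ i) * c (ρ i) * k (ρ i) i := fun i => rfl
  have hdS : ∀ i, d i ∈ DB.S := fun i =>
    DB.mul_mem (DB.mul_mem (s.sb _ _) (hcS _)) (hkS _ _)
  have hck : ∀ i, c i * k i i = c i := fun i => by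
    rw [← hc2, ← mul_assoc, DB.pi (hcS i)]
  have hnc : ∀ i, n i i * c i = c i := fun i => by
    rw [← hc1, DB.pi (hcS i)]
  have hd1 : ∀ i, d i * star (d i) = n i i := by
    intro i
    rw [hd, star_mul, star_mul, hkstar, hnstar]
    calc n i (ρ i) * c (ρ i) * k (ρ i) i * (k i (ρ i) * (star (c (ρ i)) * n (ρ i) i))
        = n i (ρ i) * c (ρ i) * (k (ρ i) i * k i (ρ i)) * star (c (ρ i)) * n (ρ i) i := by
          noncomm_ring
      _ = n i (ρ i) * (c (ρ i) * k (ρ i) (ρ i)) * star (c (ρ i)) * n (ρ i) i := by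
          rw [hkmul _ _ _ (hρ1 i) (hρ1 i).symm]; noncomm_ring
      _ = n i (ρ i) * (c (ρ i) * star (c (ρ i))) * n (ρ i) i := by
          rw [hck]; noncomm_ring
      _ = n i i := by
          rw [hc1, hnmul _ _ _ (hρ1 i).symm rfl, hnmul _ _ _ (hρ1 i).symm (hρ1 i)]
  have hd2 : ∀ i, star (d i) * d i = k i i := by
    intro i
    rw [hd, star_mul, star_mul, hkstar, hnstar]
    calc k i (ρ i) * (star (c (ρ i)) * n (ρ i) i) * (n i (ρ i) * c (ρ i) * k (ρ i) i)
        = k i (ρ i) * star (c (ρ i)) * (n (ρ i) i * n i (ρ i)) * c (ρ i) * k (ρ i) i := by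
          noncomm_ring
      _ = k i (ρ i) * star (c (ρ i)) * (n (ρ i) (ρ i) * c (ρ i)) * k (ρ i) i := by
          rw [hnmul _ _ _ (hρ1 i) (hρ1 i).symm]; noncomm_ring
      _ = k i (ρ i) * (star (c (ρ i)) * c (ρ i)) * k (ρ i) i := by
          rw [hnc]; noncomm_ring
      _ = k i i := by
          rw [hc2, hkmul _ _ _ (hρ1 i).symm rfl, hkmul _ _ _ (hρ1 i).symm (hρ1 i)]
  have hnd : ∀ i, n i i * d i = d i := fun i => by
    rw [← hd1, DB.pi (hdS i)]
  have hdk : ∀ i, d i * k i i = d i := fun i => by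
    rw [← hd2, ← mul_assoc, DB.pi (hdS i)]
  have hint : ∀ i j, d i * k i j = n i j * d j := by
    intro i j
    by_cases h : s.P.blk i = s.P.blk j
    · have h1 := hρ2 i j h
      rw [hd, hd]
      calc n i (ρ i) * c (ρ i) * k (ρ i) i * k i j
          = n i (ρ i) * c (ρ i) * (k (ρ i) i * k i j) := by noncomm_ring
        _ = n i (ρ j) * c (ρ j) * k (ρ j) j := by
            rw [hkmul _ _ _ (hρ1 i) h, h1]
        _ = n i j * n j (ρ j) * c (ρ j) * k (ρ j) j := by
            rw [hnmul _ _ _ h (hρ1 j).symm]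
        _ = _ := by noncomm_ring
    · rw [hkoff i j h, hnoff i j h, mul_zero, zero_mul]
  -- the partial isometry `V`
  let V : B := ∑ i, d i
  have hV : V = ∑ i, d i := rfl
  have hdd1 : ∀ i j, i ≠ j → star (d i) * d j = 0 := by
    intro i j h
    calc star (d i) * d j = star (n i i * d i) * (n j j * d j) := by rw [hnd, hnd]
      _ = star (d i) * (n i i * n j j) * d j := by
          rw [star_mul, hnstar]; noncomm_ring
      _ = 0 := by rw [hnne i i j j h, mul_zero, zero_mul]
  have hdd2 : ∀ i j, i ≠ j → d i * star (d j) = 0 := by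
    intro i j h
    calc d i * star (d j) = d i * k i i * star (d j * k j j) := by rw [hdk, hdk]
      _ = d i * (k i i * k j j) * star (d j) := by
          rw [star_mul, hkstar]; noncomm_ring
      _ = 0 := by rw [hkne i i j j h, mul_zero, zero_mul]
  have hVS : V ∈ DB.S := DB.sum_mem _ _ (fun i _ => hdS i) (fun i _ j _ h => hdd1 i j h)
    (fun i _ j _ h => hdd2 i j h)
  let FN : B := ∑ i, n i i
  let FK : B := ∑ i, k i i
  have hFN : FN = ∑ i, n i i := rfl
  have hFK : FK = ∑ i, k i i := rfl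
  have hVV1 : V * star V = FN := by
    rw [hV, hFN, star_sum, Finset.sum_mul]
    apply Finset.sum_congr rfl
    intro i _
    rw [Finset.mul_sum, Finset.sum_eq_single_of_mem i (Finset.mem_univ i)]
    · exact hd1 i
    · exact fun j _ hj => hdd2 i j hj.symm
  have hVV2 : star V * V = FK := by
    rw [hV, hFK, star_sum, Finset.sum_mul]
    apply Finset.sum_congr rfl
    intro i _
    rw [Finset.mul_sum, Finset.sum_eq_single_of_mem i (Finset.mem_univ i)]
    · exact hd2 i
    · exact fun j _ hj => hdd1 i j hj.symm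
  have hVk : ∀ i j, V * k i j = d i * k i j := by
    intro i j
    rw [hV, Finset.sum_mul, Finset.sum_eq_single_of_mem i (Finset.mem_univ i)]
    intro l _ hl
    rw [← hdk l, mul_assoc, hkne _ _ _ _ hl, mul_zero]
  have hkV : ∀ i j, k i j * star V = k i j * star (d j) := by
    intro i j
    rw [← hkstar j i, ← star_mul, hVk, star_mul]
  have hVkV : ∀ i j, V * k i j * star V = n i j := by
    intro i j
    rw [hVk, mul_assoc, hkV, ← mul_assoc, hint, mul_assoc, hd1]
    by_cases h : s.P.blk i = s.P.blk j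
    · exact hnmul _ _ _ h rfl
    · rw [hnoff i j h, zero_mul]
  have hFNS : FN ∈ DB.S := hVV1 ▸ DB.mul_mem hVS (DB.star_mem hVS)
  have hFNid : FN * FN = FN := by
    rw [← hVV1, ← mul_assoc, DB.pi hVS]
  -- the complementary projection
  have hYstd : P0.IsStd (∑ i, ((s.P.m i i).1, k i i)) := by
    apply P0.isStd_sum
    · intro i _; exact hkstd i i
    · intro i _ j _ hij
      apply Prod.ext
      · show star (s.P.m i i).1 * (s.P.m j j).1 = 0
        rw [← Prod.fst_star, s.P.star_m, ← Prod.fst_mul, s.P.mul_ne _ _ _ _ hij, Prod.fst_zero]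
      · show star (k i i) * k j j = 0
        rw [hkstar, hkne _ _ _ _ hij]
    · intro i _ j _ hij
      apply Prod.ext
      · show (s.P.m i i).1 * star (s.P.m j j).1 = 0
        rw [← Prod.fst_star, s.P.star_m, ← Prod.fst_mul, s.P.mul_ne _ _ _ _ hij, Prod.fst_zero]
      · show k i i * star (k j j) = 0
        rw [hkstar, hkne _ _ _ _ hij]
  have hYid : (∑ i, ((s.P.m i i).1, k i i)) * (∑ i, ((s.P.m i i).1, k i i))
      = ∑ i, ((s.P.m i i).1, k i i) := by
    rw [Finset.sum_mul]
    apply Finset.sum_congr rfl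
    intro i _
    rw [Finset.mul_sum, Finset.sum_eq_single_of_mem i (Finset.mem_univ i)]
    · apply Prod.ext
      · show (s.P.m i i).1 * (s.P.m i i).1 = (s.P.m i i).1
        rw [← Prod.fst_mul, hidm]
      · exact hidk i
    · intro j _ hj
      apply Prod.ext
      · show (s.P.m i i).1 * (s.P.m j j).1 = 0
        rw [← Prod.fst_mul, s.P.mul_ne _ _ _ _ hj.symm, Prod.fst_zero]
      · exact hkne _ _ _ _ hj.symm
  obtain ⟨D, hD⟩ := P0.isStd_idem hYstd hYid
  have hYD : (P0.diag D).2 = FK := by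
    rw [← hD, Prod.snd_sum]
  have hR1 : P0.diag D * P0.diag (Finset.univ \ D) = 0 :=
    P0.diag_disjoint Finset.disjoint_sdiff
  have hR2 : P0.diag (Finset.univ \ D) * P0.diag D = 0 :=
    P0.diag_disjoint Finset.disjoint_sdiff.symm
  have hR3 : P0.diag D + P0.diag (Finset.univ \ D) = P0.diag Finset.univ := by
    unfold MU.diag
    rw [add_comm, Finset.sum_sdiff (Finset.subset_univ D)]
  have hRid := P0.diag_mul_self (Finset.univ \ D)
  have hRstd := P0.isStd_diag (Finset.univ \ D)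
  set R := P0.diag (Finset.univ \ D) with hR
  have hRS : R.2 ∈ DB.S := P0.snd_mem_of_isStd DB hP0 hRstd
  have hRid2 : R.2 * R.2 = R.2 := by rw [← Prod.snd_mul, hRid]
  have hFKid : FK * FK = FK := by
    rw [← hYD, ← Prod.snd_mul, P0.diag_mul_self]
  have hFKR : FK * R.2 = 0 := by rw [← hYD, ← Prod.snd_mul, hR1, Prod.snd_zero]
  have hRFK : R.2 * FK = 0 := by rw [← hYD, ← Prod.snd_mul, hR2, Prod.snd_zero]
  have hFKadd : FK + R.2 = (P0.diag Finset.univ).2 := by rw [← hR3, Prod.snd_add, hYD]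
  obtain ⟨g, hgS, hgg, hg1, hg2, hg3⟩ := DB.exists_room hFNS hFNid hFKid hRid2 hFKR
    ⟨V, star V, hVV1, hVV2⟩
  obtain ⟨w, hwS, hw1, hw2⟩ := DB.exists_equiv hgS hRS hgg hRid2 hg3
  have hVFN : star V * FN = star V := by
    rw [← hVV1]
    have h1 := congrArg star (DB.pi hVS)
    rw [star_mul, star_mul, star_star] at h1
    exact h1
  have hVFK : V * FK = V := by rw [← hVV2, ← mul_assoc, DB.pi hVS]
  have hgw : g * w = w := by rw [← hw1, DB.pi hwS]
  have hwR : w * R.2 = w := by rw [← hw2, ← mul_assoc, DB.pi hwS]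
  have hFKs : star FK = FK := by rw [← hVV2, star_mul, star_star]
  have hRs : star R.2 = R.2 := by rw [← hw2, star_mul, star_star]
  have hVw : star V * w = 0 := by
    calc star V * w = star V * FN * (g * w) := by rw [hVFN, hgw]
      _ = star V * (FN * g) * w := by noncomm_ring
      _ = 0 := by rw [hg1, mul_zero, zero_mul]
  have hVw2 : V * star w = 0 := by
    calc V * star w = V * FK * star (w * R.2) := by rw [hVFK, hwR]
      _ = V * (FK * R.2) * star w := by rw [star_mul, hRs]; noncomm_ring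
      _ = 0 := by rw [hFKR, mul_zero, zero_mul]
  have hwV : star w * V = 0 := by
    have h1 := congrArg star hVw
    rw [star_mul, star_star, star_zero] at h1
    exact h1
  have hUS : V + w ∈ DB.S := DB.add_mem hVS hwS hVw hVw2
  have hUU : star (V + w) * (V + w) = (t0.P.diag Finset.univ).2 := by
    show _ = (P0.diag Finset.univ).2
    rw [star_add, mul_add, add_mul, add_mul, hVV2, hw2, hVw, hwV, add_zero, zero_add, hFKadd]
  have hwk : ∀ i j, w * k i j = 0 := by
    intro i j
    have h1 : k i j = FK * k i j := by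
      rw [hFK, Finset.sum_mul, Finset.sum_eq_single_of_mem i (Finset.mem_univ i)]
      · by_cases h : s.P.blk i = s.P.blk j
        · rw [hkmul _ _ _ rfl h]
        · rw [hkoff i j h, mul_zero]
      · exact fun l _ hl => hkne _ _ _ _ hl
    calc w * k i j = w * R.2 * (FK * k i j) := by rw [hwR, ← h1]
      _ = w * (R.2 * FK) * k i j := by noncomm_ring
      _ = 0 := by rw [hRFK, mul_zero, zero_mul]
  have hUk : ∀ i j, (V + w) * k i j * star (V + w) = n i j := by
    intro i j
    have h1 : k i j * star w = 0 := by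
      rw [← hkstar j i, ← star_mul, hwk, star_zero]
    rw [add_mul, hwk, add_zero, star_add, mul_add, hVkV, mul_assoc, h1, mul_zero, add_zero]
  refine ⟨t0.conj (V + w) hUS hUU, fun i j => ?_, ?_, ?_⟩
  · have h1 := t0.conj_mem (V + w) hUS hUU (hk i j)
    rw [hUk] at h1
    exact h1
  · obtain ⟨b, hb⟩ := MU.exists_pair (DA.T r) P0 f hf hfb hra
    exact ⟨_, t0.conj_mem (V + w) hUS hUU hb⟩
  · obtain ⟨q, hq⟩ := MU.exists_pair (K := K) (DA.T r) P0 f hf hfb ((DA.T r).isStd_mem hrp)
    have h1 := t0.conj_mem (V + w) hUS hUU hq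
    have h2 : (t0.conj (V + w) hUS hUU).P.StdFst p :=
      MU.stdFst_of_isStd (DA.T r) P0 f hf hfb hrp
    obtain ⟨h3, h4⟩ := (t0.conj (V + w) hUS hUU).std_fst h2 h1 hpp
    exact ⟨_, h3, h1, h4⟩

end Stg

end Pool.Agent.Helper665_GA
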