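import Pool.Agent.Helper665_GA.Rep

/-!
# Faithfulness of the boundary path representation (helper665)
-/

namespace Pool.Agent.Helper665_GA

open LaurentPolynomial

namespace LPA

variable {K : Type*} [Field K] {G : Graph}

/-- path monomials in the Leavitt path algebra -/
abbrev sp (K : Type*) [Field K] (G : Graph) : List G.E → G.V → LPA K G := (family K G).sP

/-- ghost path monomials in the Leavitt path algebra -/
abbrev tp (K : Type*) [Field K] (G : Graph) : List G.E → G.V → LPA K G := (family K G).tP

theorem family_rho : (family K G).map (rho K G) = repFamily K G := LPA.lift_family _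

theorem rho_sp (l : List G.E) (v : G.V) : rho K G (sp K G l v) = (repFamily K G).sP l v := by
  rw [LeavittFamily.map_sP, family_rho]

theorem rho_tp (l : List G.E) (v : G.V) : rho K G (tp K G l v) = (repFamily K G).tP l v := by
  rw [LeavittFamily.map_tP, family_rho]

theorem rho_mono (l l' : List G.E) (v : G.V) : rho K G (sp K G l v * tp K G l' v)
    = (repFamily K G).sP l v * (repFamily K G).tP l' v := by
  rw [map_mul, rho_sp, rho_tp]

theorem rho_p (v : G.V) : rho K G ((family K G).p v) = opP K G v := rho_sp [] v

theorem rho_s (e : G.E) : rho K G ((family K G).s e) = opS K G e := LPA.lift_gen _ (Gen.edge e)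

theorem rho_t (e : G.E) : rho K G ((family K G).t e) = opT K G e := LPA.lift_gen _ (Gen.ghost e)

/-- The span of the monomials with short ghost part. -/
def MM (K : Type*) [Field K] (G : Graph) (N : ℕ) : Submodule K (LPA K G) :=
  Submodule.span K {a | ∃ l l' v, l'.length ≤ N ∧ a = sp K G l v * tp K G l' v}

/-- The span of all monomials. -/
def MS (K : Type*) [Field K] (G : Graph) : Submodule K (LPA K G) :=
  Submodule.span K {a | ∃ l l' v, a = sp K G l v * tp K G l' v}

theorem mono_mem (l l' : List G.E) (v : G.V) : sp K G l v * tp K G l' v ∈ MS K G :=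
  Submodule.subset_span ⟨l, l', v, rfl⟩

theorem gen_mul_mem (x : Gen G) (a : LPA K G) (ha : a ∈ MS K G) : gen K G x * a ∈ MS K G := by
  induction ha using Submodule.span_induction with
  | mem a ha =>
    obtain ⟨l, l', v, rfl⟩ := ha
    cases x with
    | vert w =>
      show (family K G).p w * (sp K G l v * tp K G l' v) ∈ _
      rw [← mul_assoc]
      rcases (family K G).p_mul_sP w l v with h | h
      · rw [h]; exact mono_mem _ _ _
      · rw [h, zero_mul]; exact Submodule.zero_mem _
    | edge e =>
      show (family K G).s e * (sp K G l v * tp K G l' v) ∈ _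
      rw [← mul_assoc]
      exact mono_mem (e :: l) l' v
    | ghost e =>
      show (family K G).t e * (sp K G l v * tp K G l' v) ∈ _
      rw [← mul_assoc]
      cases l with
      | nil =>
        by_cases h : G.src e = v
        · subst h
          have h1 : (family K G).t e * sp K G [] (G.src e) * tp K G l' (G.src e)
              = sp K G [] (G.rng e) * tp K G (l' ++ [e]) (G.rng e) := by
            show (family K G).t e * (family K G).p (G.src e) * _ = (family K G).p (G.rng e) * _
            rw [(family K G).mul_src, (family K G).p_mul_tP, (family K G).tP_append]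
          rw [h1]; exact mono_mem _ _ _
        · have h1 : (family K G).t e * sp K G [] v = 0 := (family K G).t_mul_p_of_ne h
          rw [h1, zero_mul]; exact Submodule.zero_mem _
      | cons f l =>
        have h2 : (family K G).t e * sp K G (f :: l) v
            = (family K G).t e * (family K G).s f * sp K G l v := by
          show (family K G).t e * ((family K G).s f * sp K G l v) = _
          rw [mul_assoc]
        rw [h2]
        by_cases h : e = f
        · subst h
          rw [(family K G).ghost_mul_self]
          rcases (family K G).p_mul_sP (G.rng e) l v with h | h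
          · rw [h]; exact mono_mem _ _ _
          · rw [h, zero_mul]; exact Submodule.zero_mem _
        · rw [(family K G).ghost_mul_of_ne e f h, zero_mul, zero_mul]; exact Submodule.zero_mem _
  | zero => rw [mul_zero]; exact Submodule.zero_mem _
  | add a b _ _ ha hb => rw [mul_add]; exact Submodule.add_mem _ ha hb
  | smul r a _ ha => rw [mul_smul_comm]; exact Submodule.smul_mem _ _ ha

theorem gen_mem (x : Gen G) : gen K G x ∈ MS K G := by
  cases x with
  | vert v =>
    have h : (family K G).p v = sp K G [] v * tp K G [] v := ((family K G).p_mul_self v).symm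
    show (family K G).p v ∈ _
    rw [h]; exact mono_mem _ _ _
  | edge e =>
    have h : (family K G).s e = sp K G [e] (G.rng e) * tp K G [] (G.rng e) := by
      show _ = (family K G).s e * (family K G).p (G.rng e) * (family K G).p (G.rng e)
      rw [(family K G).mul_rng, (family K G).mul_rng]
    show (family K G).s e ∈ _
    rw [h]; exact mono_mem _ _ _
  | ghost e =>
    have h : (family K G).t e = sp K G [] (G.rng e) * tp K G [e] (G.rng e) := by
      show _ = (family K G).p (G.rng e) * ((family K G).p (G.rng e) * (family K G).t e)
      rw [(family K G).rng_mul, (family K G).rng_mul]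
    show (family K G).t e ∈ _
    rw [h]; exact mono_mem _ _ _

theorem mem_MS (a : LPA K G) : a ∈ MS K G := by
  have key : ∀ a : LPA K G, a ∈ MS K G ∧ ∀ b ∈ MS K G, a * b ∈ MS K G := by
    intro a
    induction a using induction with
    | hgen x => exact ⟨gen_mem x, fun b hb => gen_mul_mem x b hb⟩
    | hadd x y hx hy =>
      exact ⟨Submodule.add_mem _ hx.1 hy.1, fun b hb => by
        rw [add_mul]; exact Submodule.add_mem _ (hx.2 b hb) (hy.2 b hb)⟩
    | hzero => exact ⟨Submodule.zero_mem _, fun b hb => by rw [zero_mul]; exact Submodule.zero_mem _⟩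
    | hmul x y hx hy =>
      exact ⟨hx.2 y hy.1, fun b hb => by rw [mul_assoc]; exact hx.2 _ (hy.2 b hb)⟩
    | hsmul r x hx =>
      exact ⟨Submodule.smul_mem _ _ hx.1, fun b hb => by
        rw [smul_mul_assoc]; exact Submodule.smul_mem _ _ (hx.2 b hb)⟩
  exact (key a).1

/-- Induction over linear combinations of monomials. -/
theorem mono_induction {P : LPA K G → Prop} (hm : ∀ l l' v, P (sp K G l v * tp K G l' v))
    (hz : P 0) (ha : ∀ a b, P a → P b → P (a + b)) (hs : ∀ (r : K) a, P a → P (r • a))
    (a : LPA K G) : P a := by
  have h := mem_MS a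
  induction h using Submodule.span_induction with
  | mem a ha =>
    obtain ⟨l, l', v, rfl⟩ := ha
    exact hm l l' v
  | zero => exact hz
  | add a b _ _ h1 h2 => exact ha a b h1 h2
  | smul r a _ h1 => exact hs r a h1

theorem exists_MM (a : LPA K G) : ∃ N, a ∈ MM K G N := by
  have mono : ∀ {M N : ℕ}, M ≤ N → MM K G M ≤ MM K G N := by
    intro M N h
    apply Submodule.span_mono
    rintro a ⟨l, l', v, h1, h2⟩
    exact ⟨l, l', v, h1.trans h, h2⟩
  induction a using mono_induction with
  | hm l l' v => exact ⟨l'.length, Submodule.subset_span ⟨l, l', v, le_rfl, rfl⟩⟩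
  | hz => exact ⟨0, Submodule.zero_mem _⟩
  | ha a b ha hb =>
    obtain ⟨M, hM⟩ := ha
    obtain ⟨N, hN⟩ := hb
    exact ⟨max M N, Submodule.add_mem _ (mono (le_max_left _ _) hM) (mono (le_max_right _ _) hN)⟩
  | hs r a ha =>
    obtain ⟨M, hM⟩ := ha
    exact ⟨M, Submodule.smul_mem _ _ hM⟩

/-- Local units on the right. -/
theorem exists_unit_right (a : LPA K G) : ∃ S : Finset G.V, ∀ S' : Finset G.V, S ⊆ S' →
    a * ∑ v ∈ S', (family K G).p v = a := by
  classical
  induction a using mono_induction with
  | hm l l' v =>
    have h1 : ∃ u, tp K G l' v * (family K G).p u = tp K G l' v := by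
      cases l' with
      | nil => exact ⟨v, (family K G).p_mul_self v⟩
      | cons e l => exact ⟨G.src e, by
          show tp K G l v * (family K G).t e * _ = _
          rw [mul_assoc, (family K G).mul_src]; rfl⟩
    obtain ⟨u, hu⟩ := h1
    refine ⟨{u}, fun S' hS' => ?_⟩
    have h2 : (family K G).p u * ∑ v ∈ S', (family K G).p v = (family K G).p u := by
      rw [Finset.mul_sum, Finset.sum_eq_single_of_mem u (hS' (Finset.mem_singleton_self u))]
      · exact (family K G).p_mul_self u
      · intro w _ hw
        exact (family K G).p_mul_of_ne u w hw.symm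
    rw [mul_assoc, ← hu, mul_assoc (tp K G l' v), h2]
  | hz => exact ⟨∅, fun _ _ => zero_mul _⟩
  | ha a b ha hb =>
    obtain ⟨S, hS⟩ := ha
    obtain ⟨T, hT⟩ := hb
    exact ⟨S ∪ T, fun S' h => by
      rw [add_mul, hS S' (Finset.union_subset_left h), hT S' (Finset.union_subset_right h)]⟩
  | hs r a ha =>
    obtain ⟨S, hS⟩ := ha
    exact ⟨S, fun S' h => by rw [smul_mul_assoc, hS S' h]⟩

/-- Local units on the left. -/
theorem exists_unit_left (a : LPA K G) : ∃ S : Finset G.V, ∀ S' : Finset G.V, S ⊆ S' →
    (∑ v ∈ S', (family K G).p v) * a = a := by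
  classical
  induction a using mono_induction with
  | hm l l' v =>
    have h1 : ∃ u, (family K G).p u * sp K G l v = sp K G l v := by
      cases l with
      | nil => exact ⟨v, (family K G).p_mul_self v⟩
      | cons e l => exact ⟨G.src e, by
          show _ * ((family K G).s e * sp K G l v) = _
          rw [← mul_assoc, (family K G).src_mul]; rfl⟩
    obtain ⟨u, hu⟩ := h1
    refine ⟨{u}, fun S' hS' => ?_⟩
    have h2 : (∑ v ∈ S', (family K G).p v) * (family K G).p u = (family K G).p u := by
      rw [Finset.sum_mul, Finset.sum_eq_single_of_mem u (hS' (Finset.mem_singleton_self u))]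
      · exact (family K G).p_mul_self u
      · intro w _ hw
        exact (family K G).p_mul_of_ne w u hw
    rw [← mul_assoc, ← hu, ← mul_assoc (∑ v ∈ S', (family K G).p v), h2]
  | hz => exact ⟨∅, fun _ _ => mul_zero _⟩
  | ha a b ha hb =>
    obtain ⟨S, hS⟩ := ha
    obtain ⟨T, hT⟩ := hb
    exact ⟨S ∪ T, fun S' h => by
      rw [mul_add, hS S' (Finset.union_subset_left h), hT S' (Finset.union_subset_right h)]⟩
  | hs r a ha =>
    obtain ⟨S, hS⟩ := ha
    exact ⟨S, fun S' h => by rw [mul_smul_comm, hS S' h]⟩

/-! ### Noncomposable paths are zero -/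

theorem p_mul_sp_of_app {l : List G.E} {v : G.V} {x y : BPath G} (h : BPath.app l x = some y)
    (hv : x.vtx 0 = v) : (family K G).p (y.vtx 0) * sp K G l v = sp K G l v := by
  cases l with
  | nil =>
    rw [BPath.app] at h
    cases h
    rw [hv]; exact (family K G).p_mul_self v
  | cons e l =>
    rw [BPath.app, Option.bind_eq_some_iff] at h
    obtain ⟨z, hz, h2⟩ := h
    split_ifs at h2 with h3
    cases h2
    show (family K G).p (G.src e) * ((family K G).s e * _) = _
    rw [← mul_assoc, (family K G).src_mul]; rfl

theorem sp_eq_zero {l : List G.E} {v : G.V} {x : BPath G} (h : BPath.app l x = none)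
    (hv : x.vtx 0 = v) : sp K G l v = 0 := by
  induction l with
  | nil => rw [BPath.app] at h; simp at h
  | cons e l ih =>
    rw [BPath.app, Option.bind_eq_none_iff] at h
    cases hx : BPath.app l x with
    | none =>
      show (family K G).s e * sp K G l v = 0
      rw [ih hx, mul_zero]
    | some z =>
      have h2 := h z hx
      split_ifs at h2 with h3
      show (family K G).s e * sp K G l v = 0
      rw [← p_mul_sp_of_app hx hv, ← mul_assoc, (family K G).s_mul_p_of_ne h3, zero_mul]

/-! ### Recovering path combinations from the representation -/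

/-- the first `n` edges -/
def _root_.Pool.Agent.Helper665_GA.BPath.take : ℕ → BPath G → List G.E
  | 0, _ => []
  | n + 1, x => match x.edg 0 with
    | some e => e :: BPath.take n x.shift
    | none => []

theorem take_of_strip {l : List G.E} {x y : BPath G} (h : BPath.strip l x = some y) :
    BPath.take l.length x = l ∧ x.vtx l.length = y.vtx 0 := by
  induction l generalizing x with
  | nil =>
    rw [BPath.strip] at h
    cases h
    exact ⟨rfl, rfl⟩
  | cons e l ih =>
    rw [BPath.strip] at h
    split_ifs at h with h1
    obtain ⟨h2, h3⟩ := ih h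
    refine ⟨?_, h3⟩
    show (match x.edg 0 with
      | some e => e :: BPath.take l.length x.shift
      | none => []) = _
    rw [h1, h2]

/-- An auxiliary linear map from the representation space back to the algebra. -/
noncomputable def theta (K : Type*) [Field K] (G : Graph) : VV K G →ₗ[K] LPA K G :=
  Finsupp.lsum K fun x : BPath G =>
    (Finsupp.lsum K fun n : ℤ => LinearMap.toSpanSingleton K (LPA K G)
      (sp K G (BPath.take n.toNat x) (x.vtx n.toNat))) ∘ₗ
      (AddMonoidAlgebra.coeffLinearEquiv K : K[T;T⁻¹] ≃ₗ[K] (ℤ →₀ K)).toLinearMap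

theorem theta_single (x : BPath G) (n : ℤ) :
    theta K G (Finsupp.single x (T n)) = sp K G (BPath.take n.toNat x) (x.vtx n.toNat) := by
  unfold theta
  rw [Finsupp.lsum_single]
  show (Finsupp.lsum K _) (T n : K[T;T⁻¹]).coeff = _
  have : (T n : K[T;T⁻¹]).coeff = Finsupp.single n 1 := rfl
  rw [this, Finsupp.lsum_single, LinearMap.toSpanSingleton_apply, one_smul]

/-- The span of the paths. -/
def N0 (K : Type*) [Field K] (G : Graph) : Submodule K (LPA K G) :=
  Submodule.span K {a | ∃ l v, a = sp K G l v}

theorem theta_rho {a : LPA K G} (ha : a ∈ N0 K G) (y : BPath G) :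
    theta K G ((rho K G a).ap (Finsupp.single y 1)) = a * (family K G).p (y.vtx 0) := by
  induction ha using Submodule.span_induction with
  | mem a ha =>
    obtain ⟨l, v, rfl⟩ := ha
    rw [rho_sp, rep_sP]
    by_cases h : y.vtx 0 = v
    · rw [if_pos h]
      have h1 : sp K G l v * (family K G).p (y.vtx 0) = sp K G l v := by
        rw [h]; exact (family K G).sP_mul_p l v
      rw [h1]
      cases hx : BPath.app l y with
      | none => rw [Option.elim_none, map_zero, sp_eq_zero hx h]
      | some z =>
        rw [Option.elim_some, one_mul, theta_single]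
        have h2 := take_of_strip ((BPath.app_iff l z y).1 hx)
        rw [Int.toNat_natCast, h2.1, h2.2, h]
    · rw [if_neg h, map_zero]
      exact ((family K G).sP_mul_p_of_ne l (fun hc => h hc.symm)).symm
  | zero => rw [map_zero, EE.zero_ap, map_zero, zero_mul]
  | add a b _ _ ha hb => rw [map_add, EE.add_ap, map_add, ha, hb, add_mul]
  | smul r a _ ha => rw [map_smul, EE.smul_ap, map_smul, ha, smul_mul_assoc]

theorem eq_zero_of_mul_p {a : LPA K G} (h : ∀ v, a * (family K G).p v = 0) : a = 0 := by
  obtain ⟨S, hS⟩ := exists_unit_right a
  rw [← hS S subset_rfl, Finset.mul_sum]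
  exact Finset.sum_eq_zero fun v _ => h v

theorem MM_zero_le : MM K G 0 ≤ N0 K G := by
  apply Submodule.span_le.2
  rintro a ⟨l, l', v, h, rfl⟩
  rw [Nat.le_zero, List.length_eq_zero_iff] at h
  subst h
  have : sp K G l v * tp K G [] v = sp K G l v := (family K G).sP_mul_p l v
  rw [this]
  exact Submodule.subset_span ⟨l, v, rfl⟩

theorem MM_mul_s {N : ℕ} {a : LPA K G} (ha : a ∈ MM K G (N + 1)) (e : G.E) :
    a * (family K G).s e ∈ MM K G N := by
  induction ha using Submodule.span_induction with
  | mem a ha =>
    obtain ⟨l, l', v, hl, rfl⟩ := ha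
    cases l' with
    | nil =>
      rw [mul_assoc]
      show sp K G l v * ((family K G).p v * (family K G).s e) ∈ _
      by_cases h : G.src e = v
      · subst h
        rw [(family K G).src_mul]
        have h2 : sp K G l (G.src e) * (family K G).s e
            = sp K G (l ++ [e]) (G.rng e) * tp K G [] (G.rng e) := by
          rw [← (family K G).sP_append]
          exact ((family K G).sP_mul_p _ _).symm
        rw [h2]
        exact Submodule.subset_span ⟨_, [], _, Nat.zero_le _, rfl⟩
      · rw [(family K G).p_mul_s_of_ne h, mul_zero]; exact Submodule.zero_mem _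
    | cons f l' =>
      rw [mul_assoc]
      show sp K G l v * (tp K G l' v * (family K G).t f * (family K G).s e) ∈ _
      rw [mul_assoc]
      by_cases h : f = e
      · subst h
        rw [(family K G).ghost_mul_self]
        rcases (family K G).tP_mul_p (G.rng f) l' v with h | h
        · rw [h]
          exact Submodule.subset_span ⟨_, l', _, by simpa using hl, rfl⟩
        · rw [h, mul_zero]; exact Submodule.zero_mem _
      · rw [(family K G).ghost_mul_of_ne f e h, mul_zero, mul_zero]; exact Submodule.zero_mem _
  | zero => rw [zero_mul]; exact Submodule.zero_mem _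
  | add a b _ _ ha hb => rw [add_mul]; exact Submodule.add_mem _ ha hb
  | smul r a _ ha => rw [smul_mul_assoc]; exact Submodule.smul_mem _ _ ha

/-- splitting off the pure path part -/
theorem exists_split (a : LPA K G) (u : G.V) : ∃ a0 ∈ N0 K G, ∃ S : Finset G.E, ∀ S' : Finset G.E,
    S ⊆ S' → (a - a0) * (family K G).p u
      = ∑ e ∈ S', (a - a0) * ((family K G).s e * (family K G).t e) * (family K G).p u := by
  classical
  induction a using mono_induction with
  | hm l l' v =>
    cases l' with
    | nil =>
      refine ⟨sp K G l v, Submodule.subset_span ⟨l, v, rfl⟩, ∅, fun S' _ => ?_⟩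
      have h : sp K G l v * tp K G [] v - sp K G l v = 0 := by
        rw [sub_eq_zero]; exact (family K G).sP_mul_p l v
      simp only [h, zero_mul, Finset.sum_const_zero]
    | cons f l' =>
      refine ⟨0, Submodule.zero_mem _, {f}, fun S' hS' => ?_⟩
      rw [sub_zero, Finset.sum_eq_single_of_mem f (hS' (Finset.mem_singleton_self f))]
      · congr 1
        show _ = sp K G l v * (tp K G l' v * (family K G).t f) *
          ((family K G).s f * (family K G).t f)
        rw [mul_assoc, mul_assoc, ← mul_assoc ((family K G).t f), (family K G).ghost_mul_self,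
          (family K G).rng_mul]
        rfl
      · intro e _ he
        have h : sp K G l v * tp K G (f :: l') v * ((family K G).s e * (family K G).t e) = 0 := by
          show sp K G l v * (tp K G l' v * (family K G).t f) *
            ((family K G).s e * (family K G).t e) = 0
          rw [mul_assoc, mul_assoc, ← mul_assoc ((family K G).t f),
            (family K G).ghost_mul_of_ne f e (fun h => he h.symm), zero_mul, mul_zero, mul_zero]
        rw [h, zero_mul]
  | hz =>
    refine ⟨0, Submodule.zero_mem _, ∅, fun S' _ => ?_⟩
    simp
  | ha a b ha hb =>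
    obtain ⟨a0, ha0, S, hS⟩ := ha
    obtain ⟨b0, hb0, S2, hS2⟩ := hb
    refine ⟨a0 + b0, Submodule.add_mem _ ha0 hb0, S ∪ S2, fun S' h => ?_⟩
    have h1 := hS S' (Finset.union_subset_left h)
    have h2 := hS2 S' (Finset.union_subset_right h)
    have h3 : a + b - (a0 + b0) = (a - a0) + (b - b0) := by abel
    simp only [h3, add_mul, Finset.sum_add_distrib]
    rw [h1, h2]
  | hs r a ha =>
    obtain ⟨a0, ha0, S, hS⟩ := ha
    refine ⟨r • a0, Submodule.smul_mem _ _ ha0, S, fun S' h => ?_⟩
    have h1 := hS S' h
    have h3 : r • a - r • a0 = r • (a - a0) := by rw [smul_sub]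
    simp only [h3, smul_mul_assoc]
    rw [h1, Finset.smul_sum]

theorem rho_injective : Function.Injective (rho K G) := by
  classical
  have key : ∀ (N : ℕ) (a : LPA K G), a ∈ MM K G N → rho K G a = 0 → a = 0 := by
    intro N
    induction N with
    | zero =>
      intro a ha h
      apply eq_zero_of_mul_p
      intro v
      have h1 := theta_rho (MM_zero_le ha) (BPath.some' v)
      rw [h, EE.zero_ap, map_zero] at h1
      exact h1.symm
    | succ N ih =>
      intro a ha h
      have hs : ∀ e, a * (family K G).s e = 0 := fun e =>
        ih _ (MM_mul_s ha e) (by rw [map_mul, h, zero_mul])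
      apply eq_zero_of_mul_p
      intro u
      by_cases hu : G.Sing u
      · obtain ⟨a0, ha0, S, hS⟩ := exists_split a u
        have h1 := hS S subset_rfl
        have h2 : a * (family K G).p u = a0 * (family K G).p u
            - ∑ e ∈ S, a0 * ((family K G).s e * (family K G).t e) * (family K G).p u := by
          have h3 : ∀ e ∈ S, (a - a0) * ((family K G).s e * (family K G).t e) * (family K G).p u
              = - (a0 * ((family K G).s e * (family K G).t e) * (family K G).p u) := by
            intro e _
            rw [sub_mul, sub_mul, ← mul_assoc a, hs, zero_mul, zero_mul, zero_sub]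
          rw [Finset.sum_congr rfl h3, sub_mul, Finset.sum_neg_distrib, sub_eq_iff_eq_add] at h1
          rw [h1]; abel
        have h3 : a0 * (family K G).p u = 0 := by
          have h4 := theta_rho ha0 (BPath.stop u hu)
          have hst : (BPath.stop u hu).vtx 0 = u := rfl
          have h5 : (rho K G a0).ap (Finsupp.single (BPath.stop u hu) 1) = 0 := by
            have h6 : (rho K G (a * (family K G).p u)).ap (Finsupp.single (BPath.stop u hu) 1)
                = 0 := by rw [map_mul, h, zero_mul]; rfl
            rw [h2, map_sub, map_mul, map_sum, EE.sub_ap, EE.mul_ap, rho_p, opP_single,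
              if_pos hst, EE.sum_ap,
              Finset.sum_eq_zero, sub_zero] at h6
            · exact h6
            · intro e _
              rw [map_mul, map_mul, map_mul, EE.mul_ap, EE.mul_ap, EE.mul_ap, rho_p, opP_single,
                if_pos hst, rho_t, opT_single, if_neg, map_zero,
                map_zero]
              intro hc
              exact absurd hc (by simp [BPath.stop])
          rw [h5, map_zero] at h4
          exact h4.symm
        rw [h2, h3, zero_sub, neg_eq_zero]
        apply Finset.sum_eq_zero
        intro e _
        by_cases he : G.src e = u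
        · have h4 : (family K G).s e * (family K G).t e
              = (family K G).p u * ((family K G).s e * (family K G).t e) := by
            rw [← mul_assoc, ← he, (family K G).src_mul]
          rw [h4, ← mul_assoc, h3, zero_mul, zero_mul]
        · rw [mul_assoc, mul_assoc, (family K G).t_mul_p_of_ne he, mul_zero, mul_zero]
      · obtain ⟨S, hS, hmem⟩ := not_not.1 hu
        rw [← (family K G).sum_eq u S hS hmem, Finset.mul_sum]
        apply Finset.sum_eq_zero
        intro e _
        rw [← mul_assoc, hs, zero_mul]
  intro a b hab
  obtain ⟨N, hN⟩ := exists_MM (a - b)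
  rw [← sub_eq_zero]
  exact key N _ hN (by rw [map_sub, hab, sub_self])

end LPA

end Pool.Agent.Helper665_GA
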