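import Pool.Agent.Helper665_GA.RangeProj

/-!
# Gram-Schmidt straightening of a sequence of orthogonal idempotents (helper665)

`τ` is a central element; for `τ = 1` the idempotents become self-adjoint, for `τ = 0` nothing
changes.  Everything is natural for unital star homomorphisms.
-/

namespace Pool.Agent.Helper665_GA

section GS

variable {B : Type*} [CStarAlgebra B]

/-- The element by which the `n`-th step modifies. -/
noncomputable def gx (R : ℕ → B) (n : ℕ) (g : B × B) : B :=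
  (rp (g.1 * R n * g.2) - g.1 * R n * g.2) * (1 - g.1 * (∑ i ∈ Finset.range n, R i) * g.2)

/-- The Gram-Schmidt recursion: pairs `(g, g⁻¹)`. -/
noncomputable def gs (τ : B) (R : ℕ → B) : ℕ → B × B
  | 0 => (1, 1)
  | n + 1 => ((1 - τ * gx R n (gs τ R n)) * (gs τ R n).1,
      (gs τ R n).2 * (1 + τ * gx R n (gs τ R n)))

/-- Orthogonal idempotents. -/
structure OrthIdem (R : ℕ → B) : Prop where
  idem : ∀ i, R i * R i = R i
  orth : ∀ i j, i ≠ j → R i * R j = 0

variable {R : ℕ → B} {τ : B}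

theorem OrthIdem.sum_mul (hR : OrthIdem R) (n i : ℕ) (h : i < n) :
    (∑ j ∈ Finset.range n, R j) * R i = R i := by
  rw [Finset.sum_mul, Finset.sum_eq_single i]
  · exact hR.idem i
  · intro j _ hj; exact hR.orth j i hj
  · intro h'; exact absurd (Finset.mem_range.2 h) h'

theorem OrthIdem.sum_mul' (hR : OrthIdem R) (n : ℕ) :
    (∑ j ∈ Finset.range n, R j) * R n = 0 := by
  rw [Finset.sum_mul]
  apply Finset.sum_eq_zero
  intro j hj
  exact hR.orth j n (Finset.mem_range.1 hj).ne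

theorem OrthIdem.mul_sum' (hR : OrthIdem R) (n : ℕ) :
    R n * (∑ j ∈ Finset.range n, R j) = 0 := by
  rw [Finset.mul_sum]
  apply Finset.sum_eq_zero
  intro j hj
  exact hR.orth n j (Finset.mem_range.1 hj).ne'

/-- algebraic facts about one step -/
theorem step_facts (hR : OrthIdem R) (n : ℕ) (g : B × B) (h21 : g.2 * g.1 = 1) :
    (g.1 * R n * g.2) * (g.1 * R n * g.2) = g.1 * R n * g.2 ∧
    (g.1 * (∑ i ∈ Finset.range n, R i) * g.2) * (g.1 * R n * g.2) = 0 ∧
    (g.1 * R n * g.2) * (g.1 * (∑ i ∈ Finset.range n, R i) * g.2) = 0 := by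
  refine ⟨?_, ?_, ?_⟩
  · calc (g.1 * R n * g.2) * (g.1 * R n * g.2) = g.1 * R n * (g.2 * g.1) * R n * g.2 := by
          noncomm_ring
      _ = g.1 * (R n * R n) * g.2 := by rw [h21]; noncomm_ring
      _ = _ := by rw [hR.idem]
  · calc (g.1 * (∑ i ∈ Finset.range n, R i) * g.2) * (g.1 * R n * g.2)
        = g.1 * (∑ i ∈ Finset.range n, R i) * (g.2 * g.1) * R n * g.2 := by noncomm_ring
      _ = g.1 * ((∑ i ∈ Finset.range n, R i) * R n) * g.2 := by rw [h21]; noncomm_ring
      _ = 0 := by rw [hR.sum_mul']; simp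
  · calc (g.1 * R n * g.2) * (g.1 * (∑ i ∈ Finset.range n, R i) * g.2)
        = g.1 * R n * (g.2 * g.1) * (∑ i ∈ Finset.range n, R i) * g.2 := by noncomm_ring
      _ = g.1 * (R n * (∑ i ∈ Finset.range n, R i)) * g.2 := by rw [h21]; noncomm_ring
      _ = 0 := by rw [hR.mul_sum']; simp

theorem P_mul_rp {r P : B} (hr : r * r = r) (hP : P * r = 0) : P * rp r = 0 := by
  rw [← mul_rp hr, ← mul_assoc, hP, zero_mul]

theorem gx_sq (hR : OrthIdem R) (n : ℕ) (g : B × B) (h21 : g.2 * g.1 = 1) :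
    gx R n g * gx R n g = 0 := by
  obtain ⟨h1, h2, h3⟩ := step_facts hR n g h21
  unfold gx
  set r := g.1 * R n * g.2
  set P := g.1 * (∑ i ∈ Finset.range n, R i) * g.2
  have e1 : (1 - P) * (rp r - r) = rp r - r := by
    calc (1 - P) * (rp r - r) = rp r - r - P * rp r + P * r := by noncomm_ring
      _ = _ := by rw [P_mul_rp h1 h2, h2]; simp
  have e2 : (rp r - r) * (rp r - r) = 0 := by
    calc (rp r - r) * (rp r - r) = rp r * rp r - rp r * r - r * rp r + r * r := by noncomm_ring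
      _ = 0 := by rw [rp_rp h1, rp_mul h1, mul_rp h1, h1]; abel
  calc (rp r - r) * (1 - P) * ((rp r - r) * (1 - P))
      = (rp r - r) * ((1 - P) * (rp r - r)) * (1 - P) := by noncomm_ring
    _ = 0 := by rw [e1, e2, zero_mul]

theorem gx_mul (hR : OrthIdem R) (n : ℕ) (g : B × B) (h21 : g.2 * g.1 = 1) (i : ℕ) (hi : i < n) :
    gx R n g * (g.1 * R i) = 0 := by
  unfold gx
  have : (1 - g.1 * (∑ i ∈ Finset.range n, R i) * g.2) * (g.1 * R i) = 0 := by
    calc (1 - g.1 * (∑ i ∈ Finset.range n, R i) * g.2) * (g.1 * R i)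
        = g.1 * R i - g.1 * (∑ i ∈ Finset.range n, R i) * (g.2 * g.1) * R i := by noncomm_ring
      _ = g.1 * R i - g.1 * ((∑ i ∈ Finset.range n, R i) * R i) := by rw [h21]; noncomm_ring
      _ = 0 := by rw [hR.sum_mul n i hi, sub_self]
  rw [mul_assoc, this, mul_zero]

theorem mul_gx (hR : OrthIdem R) (n : ℕ) (g : B × B) (h21 : g.2 * g.1 = 1) (i : ℕ) (hi : i < n) :
    (R i * g.2) * gx R n g = 0 := by
  obtain ⟨h1, h2, h3⟩ := step_facts hR n g h21
  unfold gx
  set r := g.1 * R n * g.2 with hr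
  have e : R i * g.2 * r = 0 := by
    calc R i * g.2 * r = R i * (g.2 * g.1) * R n * g.2 := by rw [hr]; noncomm_ring
      _ = (R i * R n) * g.2 := by rw [h21]; noncomm_ring
      _ = 0 := by rw [hR.orth i n hi.ne, zero_mul]
  have e' : R i * g.2 * rp r = 0 := by
    rw [← mul_rp h1, ← mul_assoc, e, zero_mul]
  have e2 : R i * g.2 * (rp r - r) = 0 := by rw [mul_sub, e, e', sub_zero]
  rw [← mul_assoc, e2, zero_mul]

theorem gs_inv (hR : OrthIdem R) (hτ : ∀ b : B, τ * b = b * τ) (n : ℕ) :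
    (gs τ R n).1 * (gs τ R n).2 = 1 ∧ (gs τ R n).2 * (gs τ R n).1 = 1 := by
  induction n with
  | zero => simp [gs]
  | succ n ih =>
    set g := gs τ R n with hg
    have hx := gx_sq hR n g ih.2
    set x := gx R n g with hxdef
    have h1 : (1 - τ * x) * (1 + τ * x) = 1 := by
      calc (1 - τ * x) * (1 + τ * x) = 1 - τ * (x * τ) * x := by noncomm_ring
        _ = 1 - τ * (τ * x) * x := by rw [hτ x]
        _ = 1 - τ * τ * (x * x) := by noncomm_ring
        _ = 1 := by rw [hx]; simp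
    have h2 : (1 + τ * x) * (1 - τ * x) = 1 := by
      calc (1 + τ * x) * (1 - τ * x) = 1 - τ * (x * τ) * x := by noncomm_ring
        _ = 1 - τ * (τ * x) * x := by rw [hτ x]
        _ = 1 - τ * τ * (x * x) := by noncomm_ring
        _ = 1 := by rw [hx]; simp
    constructor
    · show (1 - τ * x) * g.1 * (g.2 * (1 + τ * x)) = 1
      calc (1 - τ * x) * g.1 * (g.2 * (1 + τ * x)) = (1 - τ * x) * (g.1 * g.2) * (1 + τ * x) := by
            noncomm_ring
        _ = 1 := by rw [ih.1, mul_one, h1]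
    · show g.2 * (1 + τ * x) * ((1 - τ * x) * g.1) = 1
      calc g.2 * (1 + τ * x) * ((1 - τ * x) * g.1) = g.2 * ((1 + τ * x) * (1 - τ * x)) * g.1 := by
            noncomm_ring
        _ = 1 := by rw [h2, mul_one, ih.2]

theorem gs_succ_mul (hR : OrthIdem R) (hτ : ∀ b : B, τ * b = b * τ) (n i : ℕ) (hi : i < n) :
    (gs τ R (n + 1)).1 * R i = (gs τ R n).1 * R i := by
  have h := gx_mul hR n (gs τ R n) (gs_inv hR hτ n).2 i hi
  show (1 - τ * gx R n (gs τ R n)) * (gs τ R n).1 * R i = _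
  calc (1 - τ * gx R n (gs τ R n)) * (gs τ R n).1 * R i
      = (gs τ R n).1 * R i - τ * (gx R n (gs τ R n) * ((gs τ R n).1 * R i)) := by noncomm_ring
    _ = _ := by rw [h]; simp

theorem mul_gs_succ (hR : OrthIdem R) (hτ : ∀ b : B, τ * b = b * τ) (n i : ℕ) (hi : i < n) :
    R i * (gs τ R (n + 1)).2 = R i * (gs τ R n).2 := by
  have h := mul_gx hR n (gs τ R n) (gs_inv hR hτ n).2 i hi
  show R i * ((gs τ R n).2 * (1 + τ * gx R n (gs τ R n))) = _
  calc R i * ((gs τ R n).2 * (1 + τ * gx R n (gs τ R n)))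
      = R i * (gs τ R n).2 + (R i * (gs τ R n).2 * τ) * gx R n (gs τ R n) := by noncomm_ring
    _ = R i * (gs τ R n).2 + τ * ((R i * (gs τ R n).2) * gx R n (gs τ R n)) := by
        rw [← hτ]; noncomm_ring
    _ = _ := by rw [h]; simp

theorem gs_mul_eq (hR : OrthIdem R) (hτ : ∀ b : B, τ * b = b * τ) (i m : ℕ) (hi : i < m) :
    (gs τ R m).1 * R i = (gs τ R (i + 1)).1 * R i := by
  induction m, hi using Nat.le_induction with
  | base => rfl
  | succ m hm ih => rw [gs_succ_mul hR hτ m i hm, ih]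

theorem mul_gs_eq (hR : OrthIdem R) (hτ : ∀ b : B, τ * b = b * τ) (i m : ℕ) (hi : i < m) :
    R i * (gs τ R m).2 = R i * (gs τ R (i + 1)).2 := by
  induction m, hi using Nat.le_induction with
  | base => rfl
  | succ m hm ih => rw [mul_gs_succ hR hτ m i hm, ih]

/-- The straightened column elements. -/
noncomputable def ga (τ : B) (R : ℕ → B) (i : ℕ) : B := (gs τ R (i + 1)).1 * R i

/-- The straightened row elements. -/
noncomputable def gb (τ : B) (R : ℕ → B) (i : ℕ) : B := R i * (gs τ R (i + 1)).2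

theorem ga_eq (hR : OrthIdem R) (hτ : ∀ b : B, τ * b = b * τ) (i m : ℕ) (hi : i < m) :
    ga τ R i = (gs τ R m).1 * R i := (gs_mul_eq hR hτ i m hi).symm

theorem gb_eq (hR : OrthIdem R) (hτ : ∀ b : B, τ * b = b * τ) (i m : ℕ) (hi : i < m) :
    gb τ R i = R i * (gs τ R m).2 := (mul_gs_eq hR hτ i m hi).symm

theorem ga_mul (hR : OrthIdem R) (i : ℕ) : ga τ R i * R i = ga τ R i := by
  rw [ga, mul_assoc, hR.idem]

theorem mul_gb (hR : OrthIdem R) (i : ℕ) : R i * gb τ R i = gb τ R i := by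
  rw [gb, ← mul_assoc, hR.idem]

theorem gb_ga_self (hR : OrthIdem R) (hτ : ∀ b : B, τ * b = b * τ) (i : ℕ) :
    gb τ R i * ga τ R i = R i := by
  calc gb τ R i * ga τ R i
      = R i * ((gs τ R (i + 1)).2 * (gs τ R (i + 1)).1) * R i := by rw [ga, gb]; noncomm_ring
    _ = R i := by rw [(gs_inv hR hτ _).2, mul_one, hR.idem]

theorem gb_ga_ne (hR : OrthIdem R) (hτ : ∀ b : B, τ * b = b * τ) (i j : ℕ) (h : i ≠ j) :
    gb τ R i * ga τ R j = 0 := by
  have hi : i < max i j + 1 := by omega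
  have hj : j < max i j + 1 := by omega
  rw [ga_eq hR hτ j _ hj, gb_eq hR hτ i _ hi]
  calc R i * (gs τ R (max i j + 1)).2 * ((gs τ R (max i j + 1)).1 * R j)
      = R i * ((gs τ R (max i j + 1)).2 * (gs τ R (max i j + 1)).1) * R j := by noncomm_ring
    _ = 0 := by rw [(gs_inv hR hτ _).2, mul_one, hR.orth i j h]

theorem ga_gb_sum (hR : OrthIdem R) (hτ : ∀ b : B, τ * b = b * τ) (S : Finset ℕ) (m : ℕ)
    (hS : ∀ i ∈ S, i < m) :
    ∑ i ∈ S, ga τ R i * gb τ R i = (gs τ R m).1 * (∑ i ∈ S, R i) * (gs τ R m).2 := by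
  rw [Finset.mul_sum, Finset.sum_mul]
  refine Finset.sum_congr rfl fun i hi => ?_
  rw [ga_eq hR hτ i m (hS i hi), gb_eq hR hτ i m (hS i hi)]
  calc (gs τ R m).1 * R i * (R i * (gs τ R m).2) = (gs τ R m).1 * (R i * R i) * (gs τ R m).2 := by
        noncomm_ring
    _ = _ := by rw [hR.idem]

theorem ga_gb_eq (hR : OrthIdem R) (hτ : ∀ b : B, τ * b = b * τ) (i : ℕ) :
    ga τ R i * gb τ R i = (gs τ R i).1 * R i * (gs τ R i).2 + τ * gx R i (gs τ R i) := by
  set g := gs τ R i with hg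
  have hinv := gs_inv hR hτ i
  rw [← hg] at hinv
  obtain ⟨h1, h2, h3⟩ := step_facts hR i g hinv.2
  have hx1 : gx R i g * (g.1 * R i * g.2) = 0 := by
    unfold gx
    set r := g.1 * R i * g.2
    set P := g.1 * (∑ i ∈ Finset.range i, R i) * g.2
    calc (rp r - r) * (1 - P) * r = rp r * r - r * r - (rp r - r) * (P * r) := by noncomm_ring
      _ = 0 := by rw [rp_mul h1, h1, h2]; simp
  have hx2 : (g.1 * R i * g.2) * gx R i g = gx R i g := by
    unfold gx
    set r := g.1 * R i * g.2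
    set P := g.1 * (∑ i ∈ Finset.range i, R i) * g.2
    calc r * ((rp r - r) * (1 - P)) = (r * rp r - r * r) * (1 - P) := by noncomm_ring
      _ = _ := by rw [mul_rp h1, h1]
  have e : ga τ R i * gb τ R i = (1 - τ * gx R i g) * (g.1 * (R i * R i) * g.2)
      * (1 + τ * gx R i g) := by
    rw [ga, gb]
    show ((1 - τ * gx R i g) * g.1) * R i * (R i * (g.2 * (1 + τ * gx R i g))) = _
    noncomm_ring
  rw [e, hR.idem]
  set r := g.1 * R i * g.2
  set x := gx R i g
  calc (1 - τ * x) * r * (1 + τ * x) = r + (r * τ) * x - τ * (x * r) - τ * (x * r) * τ * x := by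
        noncomm_ring
    _ = r + τ * (r * x) := by rw [hx1, ← hτ r]; noncomm_ring
    _ = _ := by rw [hx2]

theorem gs_P_eq (hR : OrthIdem R) (hτ : ∀ b : B, τ * b = b * τ) (n : ℕ) :
    (gs τ R n).1 * (∑ i ∈ Finset.range n, R i) * (gs τ R n).2
      = ∑ i ∈ Finset.range n, ga τ R i * gb τ R i :=
  (ga_gb_sum hR hτ (Finset.range n) n fun i hi => Finset.mem_range.1 hi).symm

theorem ga_gb_star (hR : OrthIdem R) (i : ℕ) :
    star (ga 1 R i * gb 1 R i) = ga 1 R i * gb 1 R i := by
  have hτ : ∀ b : B, (1 : B) * b = b * 1 := fun b => by simp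
  induction i using Nat.strong_induction_on with
  | _ i ih =>
    have hP : star ((gs 1 R i).1 * (∑ j ∈ Finset.range i, R j) * (gs 1 R i).2)
        = (gs 1 R i).1 * (∑ j ∈ Finset.range i, R j) * (gs 1 R i).2 := by
      rw [gs_P_eq hR hτ, star_sum]
      exact Finset.sum_congr rfl fun j hj => ih j (Finset.mem_range.1 hj)
    obtain ⟨h1, h2, h3⟩ := step_facts hR i (gs 1 R i) (gs_inv hR hτ i).2
    rw [ga_gb_eq hR hτ, one_mul]
    unfold gx
    set r := (gs 1 R i).1 * R i * (gs 1 R i).2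
    set P := (gs 1 R i).1 * (∑ j ∈ Finset.range i, R j) * (gs 1 R i).2
    have hQP : rp r * P = 0 := by
      have := congrArg star (P_mul_rp h1 h2)
      rwa [star_mul, rp_star h1, hP, star_zero] at this
    have : r + (rp r - r) * (1 - P) = rp r := by
      calc r + (rp r - r) * (1 - P) = rp r - rp r * P + r * P := by noncomm_ring
        _ = rp r := by rw [hQP, h3]; simp
    rw [this, rp_star h1]

theorem gs_of_selfAdjoint (hR : OrthIdem R) (hs : ∀ i, star (R i) = R i) (n : ℕ) :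
    gs τ R n = (1, 1) := by
  induction n with
  | zero => rfl
  | succ n ih =>
    have hx : gx R n (gs τ R n) = 0 := by
      rw [ih, gx]
      simp [rp_of_selfAdjoint (hR.idem n) (hs n)]
    have : gs τ R (n + 1) = ((1 - τ * gx R n (gs τ R n)) * (gs τ R n).1,
      (gs τ R n).2 * (1 + τ * gx R n (gs τ R n))) := rfl
    rw [this, hx, ih]; simp

theorem gs_zero (R : ℕ → B) (n : ℕ) : gs 0 R n = (1, 1) := by
  induction n with
  | zero => rfl
  | succ n ih =>
    have : gs 0 R (n + 1) = ((1 - 0 * gx R n (gs 0 R n)) * (gs 0 R n).1,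
      (gs 0 R n).2 * (1 + 0 * gx R n (gs 0 R n))) := rfl
    rw [this, ih]; simp

theorem ga_of_selfAdjoint (hR : OrthIdem R) (hs : ∀ i, star (R i) = R i) (i : ℕ) :
    ga τ R i = R i := by rw [ga, gs_of_selfAdjoint hR hs]; simp
theorem gb_of_selfAdjoint (hR : OrthIdem R) (hs : ∀ i, star (R i) = R i) (i : ℕ) :
    gb τ R i = R i := by rw [gb, gs_of_selfAdjoint hR hs]; simp
theorem ga_zero (R : ℕ → B) (i : ℕ) : ga 0 R i = R i := by rw [ga, gs_zero]; simp
theorem gb_zero (R : ℕ → B) (i : ℕ) : gb 0 R i = R i := by rw [gb, gs_zero]; simp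

theorem gs_map {C : Type*} [CStarAlgebra C] (f : B →⋆ₐ[ℂ] C) (hR : OrthIdem R)
    (hτ : ∀ b : B, τ * b = b * τ) (n : ℕ) :
    gs (f τ) (fun i => f (R i)) n = (f (gs τ R n).1, f (gs τ R n).2) := by
  induction n with
  | zero => simp [gs]
  | succ n ih =>
    have h0 : gs (f τ) (fun i => f (R i)) (n + 1)
      = ((1 - f τ * gx (fun i => f (R i)) n (gs (f τ) (fun i => f (R i)) n))
        * (gs (f τ) (fun i => f (R i)) n).1,
      (gs (f τ) (fun i => f (R i)) n).2
        * (1 + f τ * gx (fun i => f (R i)) n (gs (f τ) (fun i => f (R i)) n))) := rfl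
    have h1 : gs τ R (n + 1) = ((1 - τ * gx R n (gs τ R n)) * (gs τ R n).1,
      (gs τ R n).2 * (1 + τ * gx R n (gs τ R n))) := rfl
    have hx : gx (fun i => f (R i)) n (f (gs τ R n).1, f (gs τ R n).2)
        = f (gx R n (gs τ R n)) := by
      have hr := (step_facts hR n (gs τ R n) (gs_inv hR hτ n).2).1
      unfold gx
      simp only [map_mul, map_sub, map_one, map_sum, map_rp f hr]
    rw [h0, h1, ih, hx]
    simp

theorem OrthIdem.map {C : Type*} [CStarAlgebra C] (f : B →⋆ₐ[ℂ] C) (hR : OrthIdem R) :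
    OrthIdem (fun i => f (R i)) :=
  ⟨fun i => by rw [← map_mul, hR.idem], fun i j h => by rw [← map_mul, hR.orth i j h, map_zero]⟩

theorem ga_map {C : Type*} [CStarAlgebra C] (f : B →⋆ₐ[ℂ] C) (hR : OrthIdem R)
    (hτ : ∀ b : B, τ * b = b * τ) (i : ℕ) :
    ga (f τ) (fun i => f (R i)) i = f (ga τ R i) := by
  rw [ga, ga, gs_map f hR hτ, map_mul]

theorem gb_map {C : Type*} [CStarAlgebra C] (f : B →⋆ₐ[ℂ] C) (hR : OrthIdem R)
    (hτ : ∀ b : B, τ * b = b * τ) (i : ℕ) :
    gb (f τ) (fun i => f (R i)) i = f (gb τ R i) := by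
  rw [gb, gb, gs_map f hR hτ, map_mul]

theorem gs_commute (hR : OrthIdem R) (hτ : ∀ b : B, τ * b = b * τ) (p : B) (hp : star p = p)
    (h1 : ∀ i, p * R i = R i) (h2 : ∀ i, R i * p = R i) (n : ℕ) :
    p * (gs τ R n).1 = (gs τ R n).1 * p ∧ p * (gs τ R n).2 = (gs τ R n).2 * p := by
  induction n with
  | zero => simp [gs]
  | succ n ih =>
    set g := gs τ R n with hg
    have hinv := gs_inv hR hτ n
    rw [← hg] at hinv
    obtain ⟨e1, e2, e3⟩ := step_facts hR n g hinv.2
    have hx : p * gx R n g = gx R n g * p := by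
      unfold gx
      have hpr : p * (g.1 * R n * g.2) = g.1 * R n * g.2 := by
        rw [← mul_assoc, ← mul_assoc, ih.1, mul_assoc g.1, h1]
      have hrp : (g.1 * R n * g.2) * p = g.1 * R n * g.2 := by
        rw [mul_assoc, ← ih.2, ← mul_assoc, mul_assoc g.1, h2]
      have hpP : p * (g.1 * (∑ i ∈ Finset.range n, R i) * g.2)
          = g.1 * (∑ i ∈ Finset.range n, R i) * g.2 := by
        rw [← mul_assoc, ← mul_assoc, ih.1, mul_assoc g.1, Finset.mul_sum]
        simp only [h1]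
      have hPp : (g.1 * (∑ i ∈ Finset.range n, R i) * g.2) * p
          = g.1 * (∑ i ∈ Finset.range n, R i) * g.2 := by
        rw [mul_assoc, ← ih.2, ← mul_assoc, mul_assoc g.1, Finset.sum_mul]
        simp only [h2]
      set r := g.1 * R n * g.2
      set P := g.1 * (∑ i ∈ Finset.range n, R i) * g.2
      have hpQ : p * rp r = rp r := by
        conv_lhs => rw [← mul_rp e1]
        rw [← mul_assoc, hpr, mul_rp e1]
      have hQp : rp r * p = rp r := by
        have := congrArg star hpQ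
        rwa [star_mul, rp_star e1, hp] at this
      calc p * ((rp r - r) * (1 - P)) = (p * rp r - p * r) * (1 - P) := by noncomm_ring
        _ = (rp r - r) * (1 - P) := by rw [hpQ, hpr]
        _ = (rp r * p - r * p) - (rp r - r) * P := by rw [hQp, hrp]; noncomm_ring
        _ = (rp r * p - r * p) - (rp r - r) * (P * p) := by rw [hPp]
        _ = (rp r - r) * (1 - P) * p := by noncomm_ring
    constructor
    · show p * ((1 - τ * gx R n g) * g.1) = (1 - τ * gx R n g) * g.1 * p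
      calc p * ((1 - τ * gx R n g) * g.1) = p * g.1 - (p * τ) * gx R n g * g.1 := by noncomm_ring
        _ = p * g.1 - τ * (p * gx R n g) * g.1 := by rw [← hτ]; noncomm_ring
        _ = p * g.1 - τ * gx R n g * (p * g.1) := by rw [hx]; noncomm_ring
        _ = _ := by rw [ih.1]; noncomm_ring
    · show p * (g.2 * (1 + τ * gx R n g)) = g.2 * (1 + τ * gx R n g) * p
      calc p * (g.2 * (1 + τ * gx R n g)) = (p * g.2) * (1 + τ * gx R n g) := by noncomm_ring
        _ = g.2 * (p + (p * τ) * gx R n g) := by rw [ih.2]; noncomm_ring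
        _ = g.2 * (p + τ * (p * gx R n g)) := by rw [← hτ]; noncomm_ring
        _ = _ := by rw [hx]; noncomm_ring

end GS

end Pool.Agent.Helper665_GA
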