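import Pool.Agent.Helper665_GA.Transfer

/-!
# Homotopy classes of homomorphisms of Leavitt path algebras into C*-algebras (helper665)
-/

namespace Pool.Agent.Helper665_GA

open unitInterval
open scoped CStarAlgebra

/-- Two algebra homomorphisms from an algebra `L` into a C*-algebra `A` are homotopic: they are
joined by a family of algebra homomorphisms `h t`, `t ∈ [0,1]`, for which `t ↦ h t a` is norm
continuous for every `a`. -/
def AlgHomotopic {L A : Type} [NonUnitalRing L] [Module ℂ L] [NonUnitalCStarAlgebra A]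
    (f g : L →ₙₐ[ℂ] A) : Prop :=
  ∃ h : I → (L →ₙₐ[ℂ] A), h 0 = f ∧ h 1 = g ∧ ∀ a, Continuous fun t => h t a

/-- `π : L_ℂ(E) → C*(E)` is the canonical homomorphism: it sends the vertices, edges and ghost
edges to the vertex projections, the partial isometries of the edges and their adjoints. -/
def IsCan {E : Graph} (π : Leavitt ℂ E →ₙₐ[ℂ] CStar E) : Prop :=
  (∀ v, π ((Leavitt.family ℂ E).p v) = (CStar.family E).p v) ∧
  (∀ e, π ((Leavitt.family ℂ E).s e) = (CStar.family E).s e) ∧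
  ∀ e, π ((Leavitt.family ℂ E).t e) = star ((CStar.family E).s e)

theorem exists_isCan (E : Graph) : ∃ π : Leavitt ℂ E →ₙₐ[ℂ] CStar E, IsCan π :=
  (Leavitt.universal ℂ E (CStar E) (CStar.family E).toLeavitt).exists

/-- The canonical homomorphism `L_ℂ(E) → C*(E)`. It sends the vertices, edges and ghost edges to
the vertex projections, the partial isometries of the edges and their adjoints. -/
noncomputable def Leavitt.can (E : Graph) : Leavitt ℂ E →ₙₐ[ℂ] CStar E :=
  (exists_isCan E).choose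

/-- The restriction of a star homomorphism `C*(E) → A` to an algebra homomorphism
`L_ℂ(E) → A`. -/
noncomputable def CStar.res {E : Graph} {A : Type} [NonUnitalCStarAlgebra A]
    (f : CStar E →⋆ₙₐ[ℂ] A) : Leavitt ℂ E →ₙₐ[ℂ] A :=
  (f : CStar E →ₙₐ[ℂ] A).comp (Leavitt.can E)

section
variable {L A B : Type} [NonUnitalRing L] [Module ℂ L] [NonUnitalCStarAlgebra A]
  [NonUnitalCStarAlgebra B]

theorem AlgHomotopic.symm {f g : L →ₙₐ[ℂ] A} (h : AlgHomotopic f g) : AlgHomotopic g f := by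
  obtain ⟨h, h0, h1, hc⟩ := h
  refine ⟨fun t => h (σ t), by simpa using h1, by simpa using h0, fun a => ?_⟩
  exact (hc a).comp continuous_symm

theorem AlgHomotopic.trans {f g k : L →ₙₐ[ℂ] A} (h1 : AlgHomotopic f g)
    (h2 : AlgHomotopic g k) : AlgHomotopic f k := by
  classical
  obtain ⟨h, h0, h1', hc⟩ := h1
  obtain ⟨h', h0', h1'', hc'⟩ := h2
  have key : ∀ a, ∃ p : Path (f a) (k a), ∀ t : I, p t =
      (if ht : (t : ℝ) ≤ 1 / 2 then h ⟨2 * t, (unitInterval.mul_pos_mem_iff zero_lt_two).2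
        ⟨t.2.1, ht⟩⟩ else h' ⟨2 * t - 1, unitInterval.two_mul_sub_one_mem_iff.2
        ⟨(not_le.1 ht).le, t.2.2⟩⟩) a := by
    intro a
    let p1 : Path (f a) (g a) := ⟨⟨fun t => h t a, hc a⟩, by simp [h0], by simp [h1']⟩
    let p2 : Path (g a) (k a) := ⟨⟨fun t => h' t a, hc' a⟩, by simp [h0'], by simp [h1'']⟩
    refine ⟨p1.trans p2, fun t => ?_⟩
    rw [Path.trans_apply]
    split_ifs with ht
    · rfl
    · rfl
  refine ⟨fun t => if ht : (t : ℝ) ≤ 1 / 2 then h ⟨2 * t, (unitInterval.mul_pos_mem_iff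
    zero_lt_two).2 ⟨t.2.1, ht⟩⟩ else h' ⟨2 * t - 1, unitInterval.two_mul_sub_one_mem_iff.2
        ⟨(not_le.1 ht).le, t.2.2⟩⟩, ?_, ?_, ?_⟩
  · ext a
    obtain ⟨p, hp⟩ := key a
    rw [← hp 0, p.source]
  · ext a
    obtain ⟨p, hp⟩ := key a
    rw [← hp 1, p.target]
  · intro a
    obtain ⟨p, hp⟩ := key a
    have : (fun t : I => (if ht : (t : ℝ) ≤ 1 / 2 then h ⟨2 * t, (unitInterval.mul_pos_mem_iff
        zero_lt_two).2 ⟨t.2.1, ht⟩⟩ else h' ⟨2 * t - 1, unitInterval.two_mul_sub_one_mem_iff.2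
        ⟨(not_le.1 ht).le, t.2.2⟩⟩) a) = p := by
      funext t; rw [hp t]
    rw [this]; exact p.continuous

theorem AlgHomotopic.postcomp {f g : L →ₙₐ[ℂ] A} (h : AlgHomotopic f g) (k : A →⋆ₙₐ[ℂ] B) :
    AlgHomotopic ((k : A →ₙₐ[ℂ] B).comp f) ((k : A →ₙₐ[ℂ] B).comp g) := by
  obtain ⟨h, h0, h1, hc⟩ := h
  refine ⟨fun t => (k : A →ₙₐ[ℂ] B).comp (h t), ?_, ?_, fun a => ?_⟩
  · show (k : A →ₙₐ[ℂ] B).comp (h 0) = _
    rw [h0]
  · show (k : A →ₙₐ[ℂ] B).comp (h 1) = _
    rw [h1]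
  · have hk : Continuous k := map_continuous k
    exact hk.comp (hc a)

theorem AlgHomotopic.precomp {M : Type} [NonUnitalRing M] [Module ℂ M] {f g : L →ₙₐ[ℂ] A}
    (h : AlgHomotopic f g) (φ : M →ₙₐ[ℂ] L) : AlgHomotopic (f.comp φ) (g.comp φ) := by
  obtain ⟨h, h0, h1, hc⟩ := h
  refine ⟨fun t => (h t).comp φ, ?_, ?_, fun a => hc (φ a)⟩
  · show (h 0).comp φ = _
    rw [h0]
  · show (h 1).comp φ = _
    rw [h1]

theorem Homotopic.toAlg {f g : A →⋆ₙₐ[ℂ] B} (h : Homotopic f g) :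
    AlgHomotopic (f : A →ₙₐ[ℂ] B) (g : A →ₙₐ[ℂ] B) := by
  obtain ⟨h, h0, h1, hc⟩ := h
  refine ⟨fun t => (h t : A →ₙₐ[ℂ] B), ?_, ?_, fun a => hc a⟩
  · show ((h 0 : A →⋆ₙₐ[ℂ] B) : A →ₙₐ[ℂ] B) = _
    rw [h0]
  · show ((h 1 : A →⋆ₙₐ[ℂ] B) : A →ₙₐ[ℂ] B) = _
    rw [h1]

end

section
variable {E : Graph} {A : Type} [NonUnitalCStarAlgebra A]

theorem Leavitt.hom_ext {B : Type} [NonUnitalRing B] [Module ℂ B] [IsScalarTower ℂ B B]
    [SMulCommClass ℂ B B] {f g : Leavitt ℂ E →ₙₐ[ℂ] B}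
    (h : (Leavitt.family ℂ E).map f = (Leavitt.family ℂ E).map g) : f = g := by
  obtain ⟨π, -, hπ⟩ := Leavitt.universal ℂ E B ((Leavitt.family ℂ E).map g)
  rw [hπ f ⟨fun v => congrFun (congrArg LeavittFamily.p h) v,
    fun e => congrFun (congrArg LeavittFamily.s h) e,
    fun e => congrFun (congrArg LeavittFamily.t h) e⟩, hπ g ⟨fun v => rfl, fun e => rfl,
    fun e => rfl⟩]

theorem Leavitt.exists_lift {B : Type} [NonUnitalRing B] [Module ℂ B] [IsScalarTower ℂ B B]
    [SMulCommClass ℂ B B] (Y : LeavittFamily E B) :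
    ∃ π : Leavitt ℂ E →ₙₐ[ℂ] B, (Leavitt.family ℂ E).map π = Y := by
  obtain ⟨π, h, -⟩ := Leavitt.universal ℂ E B Y
  exact ⟨π, LeavittFamily.ext (funext h.1) (funext h.2.1) (funext h.2.2)⟩

theorem Leavitt.can_family :
    (Leavitt.family ℂ E).map (Leavitt.can E) = (CStar.family E).toLeavitt := by
  have h := (exists_isCan E).choose_spec
  exact LeavittFamily.ext (funext h.1) (funext h.2.1) (funext h.2.2)

theorem CStar.res_family (f : CStar E →⋆ₙₐ[ℂ] A) :
    (Leavitt.family ℂ E).map (CStar.res f) = ((CStar.family E).map f).toLeavitt := by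
  rw [CKFamily.toLeavitt_map, ← Leavitt.can_family]
  rfl

theorem algHomotopic_of_LPath {f g : Leavitt ℂ E →ₙₐ[ℂ] A}
    (h : LeavittFamily.LPath ((Leavitt.family ℂ E).map f) ((Leavitt.family ℂ E).map g)) :
    AlgHomotopic f g := by
  obtain ⟨Z, h0, h1⟩ := h
  obtain ⟨π, hπ⟩ := Leavitt.exists_lift Z
  refine ⟨fun t => ((evN (A := A) t : C(I, A) →⋆ₙₐ[ℂ] A) : C(I, A) →ₙₐ[ℂ] A).comp π, ?_, ?_, ?_⟩
  · apply Leavitt.hom_ext
    rw [← h0, ← hπ]; rfl
  · apply Leavitt.hom_ext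
    rw [← h1, ← hπ]; rfl
  · intro a
    exact (π a).continuous

theorem LPath_of_algHomotopic {f g : Leavitt ℂ E →ₙₐ[ℂ] A} (h : AlgHomotopic f g) :
    LeavittFamily.LPath ((Leavitt.family ℂ E).map f) ((Leavitt.family ℂ E).map g) := by
  obtain ⟨h, h0, h1, hc⟩ := h
  let X := Leavitt.family ℂ E
  refine ⟨{ p := fun v => ⟨fun t => h t (X.p v), hc _⟩
            s := fun e => ⟨fun t => h t (X.s e), hc _⟩
            t := fun e => ⟨fun t => h t (X.t e), hc _⟩
            p_mul_self := fun v => ?_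
            p_mul_of_ne := fun v w hvw => ?_
            src_mul := fun e => ?_
            mul_rng := fun e => ?_
            rng_mul := fun e => ?_
            mul_src := fun e => ?_
            ghost_mul_self := fun e => ?_
            ghost_mul_of_ne := fun e f hef => ?_
            sum_eq := fun v S hS hS' => ?_ }, ?_, ?_⟩
  · ext t; exact (X.map (h t)).p_mul_self v
  · ext t; exact (X.map (h t)).p_mul_of_ne v w hvw
  · ext t; exact (X.map (h t)).src_mul e
  · ext t; exact (X.map (h t)).mul_rng e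
  · ext t; exact (X.map (h t)).rng_mul e
  · ext t; exact (X.map (h t)).mul_src e
  · ext t; exact (X.map (h t)).ghost_mul_self e
  · ext t; exact (X.map (h t)).ghost_mul_of_ne e f hef
  · ext t
    have := (X.map (h t)).sum_eq v S hS hS'
    rw [ContinuousMap.sum_apply]
    exact this
  · rw [← h0]; rfl
  · rw [← h1]; rfl

/-- Restriction is surjective on homotopy classes. -/
theorem exists_res_homotopic [Countable E.V] [Countable E.E] (θ : Leavitt ℂ E →ₙₐ[ℂ] A) :
    ∃ f : CStar E →⋆ₙₐ[ℂ] A, AlgHomotopic (CStar.res f) θ := by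
  obtain ⟨cv, hcv⟩ := exists_injective_nat E.V
  obtain ⟨ce, hce⟩ := exists_injective_nat E.E
  obtain ⟨X1, X2, p1, p2, p3⟩ :=
    LeavittFamily.exists_chain hcv hce ((Leavitt.family ℂ E).map θ)
  obtain ⟨f1, e1⟩ := Leavitt.exists_lift X1
  obtain ⟨f2, e2⟩ := Leavitt.exists_lift X2
  let f : CStar E →⋆ₙₐ[ℂ] A :=
    CStar.lift (LeavittFamily.retrN hcv hce ((Leavitt.family ℂ E).map θ))
  have e3 : (Leavitt.family ℂ E).map (CStar.res f)
      = (LeavittFamily.retrN hcv hce ((Leavitt.family ℂ E).map θ)).toLeavitt := by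
    rw [CStar.res_family, CStar.lift_family]
  refine ⟨f, ?_⟩
  rw [← e1] at p1 p2
  rw [← e2] at p2 p3
  rw [← e3] at p3
  exact (((algHomotopic_of_LPath p1).trans (algHomotopic_of_LPath p2)).trans
    (algHomotopic_of_LPath p3)).symm

/-- Restriction is injective on homotopy classes. -/
theorem homotopic_of_res [Countable E.V] [Countable E.E] {f g : CStar E →⋆ₙₐ[ℂ] A}
    (h : AlgHomotopic (CStar.res f) (CStar.res g)) : Homotopic f g := by
  obtain ⟨cv, hcv⟩ := exists_injective_nat E.V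
  obtain ⟨ce, hce⟩ := exists_injective_nat E.E
  obtain ⟨Z, h0, h1⟩ := LPath_of_algHomotopic h
  have hev : ∀ t : I, (evN (A := A) t).comp (CStar.lift (LeavittFamily.retrN hcv hce Z))
      = CStar.lift (LeavittFamily.retrN hcv hce (Z.map (evN t))) := by
    intro t
    apply CStar.hom_ext
    rw [CStar.lift_family]
    have : (CStar.family E).map
          ((evN (A := A) t).comp (CStar.lift (LeavittFamily.retrN hcv hce Z)))
        = ((CStar.family E).map (CStar.lift (LeavittFamily.retrN hcv hce Z))).map (evN t) := rfl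
    rw [this, CStar.lift_family, LeavittFamily.retrN_map]
  have hself : ∀ k : CStar E →⋆ₙₐ[ℂ] A,
      CStar.lift (LeavittFamily.retrN hcv hce ((Leavitt.family ℂ E).map (CStar.res k))) = k := by
    intro k
    apply CStar.hom_ext
    rw [CStar.lift_family, CStar.res_family, LeavittFamily.retrN_toLeavitt]
  refine ⟨fun t => (evN (A := A) t).comp (CStar.lift (LeavittFamily.retrN hcv hce Z)), ?_, ?_, ?_⟩
  · show (evN (A := A) 0).comp _ = _
    rw [hev, h0, hself]
  · show (evN (A := A) 1).comp _ = _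
    rw [hev, h1, hself]
  · intro a
    exact (CStar.lift (LeavittFamily.retrN hcv hce Z) a).continuous

theorem res_homotopic {f g : CStar E →⋆ₙₐ[ℂ] A} (h : Homotopic f g) :
    AlgHomotopic (CStar.res f) (CStar.res g) :=
  h.toAlg.precomp (Leavitt.can E)

end

section
variable {E F : Graph} [Countable E.V] [Countable E.E] [Countable F.V] [Countable F.E]

omit [Countable F.V] [Countable F.E] in
theorem comp_homotopic_id {φ : Leavitt ℂ E →ₙₐ[ℂ] Leavitt ℂ F}
    {ψ : Leavitt ℂ F →ₙₐ[ℂ] Leavitt ℂ E} (h : ∀ a, ψ (φ a) = a)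
    {f : CStar E →⋆ₙₐ[ℂ] CStar F} {g : CStar F →⋆ₙₐ[ℂ] CStar E}
    (hf : AlgHomotopic (CStar.res f) ((Leavitt.can F).comp φ))
    (hg : AlgHomotopic (CStar.res g) ((Leavitt.can E).comp ψ)) :
    Homotopic (g.comp f) (NonUnitalStarAlgHom.id ℂ (CStar E)) := by
  apply homotopic_of_res
  have h1 := hf.postcomp g
  have h2 := hg.precomp φ
  have e : ((Leavitt.can E).comp ψ).comp φ
      = CStar.res (NonUnitalStarAlgHom.id ℂ (CStar E)) := by
    ext a
    show Leavitt.can E (ψ (φ a)) = Leavitt.can E a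
    rw [h]
  rw [e] at h2
  exact AlgHomotopic.trans (g := (CStar.res g).comp φ) h1 h2

end

end Pool.Agent.Helper665_GA
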