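import Mathlib

/-!
# Homotopy equivalence of C*-algebras (helper665)
-/

namespace Pool.Agent.Helper665_GA

open unitInterval

/-- Two star homomorphisms are homotopic: they are joined by a family of star homomorphisms
`h t`, `t ∈ [0,1]`, for which `t ↦ h t a` is norm continuous for every `a`. -/
def Homotopic {A B : Type} [NonUnitalCStarAlgebra A] [NonUnitalCStarAlgebra B]
    (f g : A →⋆ₙₐ[ℂ] B) : Prop :=
  ∃ h : I → (A →⋆ₙₐ[ℂ] B), h 0 = f ∧ h 1 = g ∧ ∀ a, Continuous fun t => h t a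

/-- Two C*-algebras are homotopy equivalent. -/
def HomotopyEquivalent (A B : Type) [NonUnitalCStarAlgebra A] [NonUnitalCStarAlgebra B] : Prop :=
  ∃ (f : A →⋆ₙₐ[ℂ] B) (g : B →⋆ₙₐ[ℂ] A),
    Homotopic (g.comp f) (NonUnitalStarAlgHom.id ℂ A) ∧
    Homotopic (f.comp g) (NonUnitalStarAlgHom.id ℂ B)

end Pool.Agent.Helper665_GA
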