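import Pool.Agent.Helper665_GA.Paths

/-!
# The retraction in non-unital C*-algebras (helper665)
-/

namespace Pool.Agent.Helper665_GA

open unitInterval

variable {G : Graph} {A : Type*} [NonUnitalCStarAlgebra A] {cv : G.V → ℕ} {ce : G.E → ℕ}

namespace LeavittFamily

/-- The family inside the unitization. -/
noncomputable def up (X : LeavittFamily G A) : LeavittFamily G (Unitization ℂ A) :=
  X.map (Unitization.inrNonUnitalStarAlgHom ℂ A)

/-- All elements of the family lie in the ideal `A` of its unitization. -/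
structure IsIn (X : LeavittFamily G (Unitization ℂ A)) : Prop where
  p : ∀ v, (X.p v).fst = 0
  s : ∀ e, (X.s e).fst = 0
  t : ∀ e, (X.t e).fst = 0

theorem up_isIn (X : LeavittFamily G A) : X.up.IsIn := ⟨fun _ => rfl, fun _ => rfl, fun _ => rfl⟩

theorem snd_mul_of {a b : Unitization ℂ A} (ha : a.fst = 0) (hb : b.fst = 0) :
    (a * b).snd = a.snd * b.snd := by
  rw [Unitization.snd_mul, ha, hb]; simp

/-- The family of the second components. -/
def down (X : LeavittFamily G (Unitization ℂ A)) (h : X.IsIn) : LeavittFamily G A where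
  p v := (X.p v).snd
  s e := (X.s e).snd
  t e := (X.t e).snd
  p_mul_self v := by rw [← snd_mul_of (h.p v) (h.p v), X.p_mul_self]
  p_mul_of_ne v w hvw := by
    rw [← snd_mul_of (h.p v) (h.p w), X.p_mul_of_ne v w hvw, Unitization.snd_zero]
  src_mul e := by rw [← snd_mul_of (h.p _) (h.s _), X.src_mul]
  mul_rng e := by rw [← snd_mul_of (h.s _) (h.p _), X.mul_rng]
  rng_mul e := by rw [← snd_mul_of (h.p _) (h.t _), X.rng_mul]
  mul_src e := by rw [← snd_mul_of (h.t _) (h.p _), X.mul_src]
  ghost_mul_self e := by rw [← snd_mul_of (h.t _) (h.s _), X.ghost_mul_self]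
  ghost_mul_of_ne e f hef := by
    rw [← snd_mul_of (h.t _) (h.s _), X.ghost_mul_of_ne e f hef, Unitization.snd_zero]
  sum_eq v S hS hS' := by
    rw [← X.sum_eq v S hS hS']
    have : (∑ e ∈ S, X.s e * X.t e).snd = ∑ e ∈ S, (X.s e * X.t e).snd :=
      map_sum (Unitization.sndHom ℂ ℂ A) _ _
    rw [this]
    exact Finset.sum_congr rfl fun e _ => (snd_mul_of (h.s e) (h.t e)).symm

theorem eq_inr_of {a : Unitization ℂ A} (h : a.fst = 0) : (a.snd : Unitization ℂ A) = a := by
  ext
  · simp [h]
  · simp

theorem up_down (X : LeavittFamily G (Unitization ℂ A)) (h : X.IsIn) : (X.down h).up = X := by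
  ext
  · exact congrArg (fun z : Unitization ℂ A => z.fst) (eq_inr_of (h.p _))
  · rfl
  · exact congrArg (fun z : Unitization ℂ A => z.fst) (eq_inr_of (h.s _))
  · rfl
  · exact congrArg (fun z : Unitization ℂ A => z.fst) (eq_inr_of (h.t _))
  · rfl

theorem up_injective {X Y : LeavittFamily G A} (h : X.up = Y.up) : X = Y := by
  ext x
  · have := congrFun (congrArg LeavittFamily.p h) x
    exact Unitization.inr_injective this
  · have := congrFun (congrArg LeavittFamily.s h) x
    exact Unitization.inr_injective this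
  · have := congrFun (congrArg LeavittFamily.t h) x
    exact Unitization.inr_injective this

end LeavittFamily

namespace CKFamily

/-- The family inside the unitization. -/
noncomputable def up (X : CKFamily G A) : CKFamily G (Unitization ℂ A) :=
  X.map (Unitization.inrNonUnitalStarAlgHom ℂ A)

/-- The Cuntz-Krieger family of the second components. -/
noncomputable def down (X : CKFamily G (Unitization ℂ A)) (hp : ∀ v, (X.p v).fst = 0)
    (hs : ∀ e, (X.s e).fst = 0) : CKFamily G A where
  p v := (X.p v).snd
  s e := (X.s e).snd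
  p_star v := by rw [← Unitization.snd_star, X.p_star]
  p_mul_self v := by rw [← LeavittFamily.snd_mul_of (hp v) (hp v), X.p_mul_self]
  p_mul_of_ne v w hvw := by
    rw [← LeavittFamily.snd_mul_of (hp v) (hp w), X.p_mul_of_ne v w hvw, Unitization.snd_zero]
  star_mul_self e := by
    rw [← Unitization.snd_star, ← LeavittFamily.snd_mul_of (by simp [hs]) (hs _), X.star_mul_self]
  range_orth e f hef := by
    rw [← Unitization.snd_star, ← LeavittFamily.snd_mul_of (hs _) (by simp [hs]),
      ← Unitization.snd_star, ← LeavittFamily.snd_mul_of (hs _) (by simp [hs]),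
      ← LeavittFamily.snd_mul_of (by simp [hs]) (by simp [hs]), X.range_orth e f hef,
      Unitization.snd_zero]
  range_le e := by
    rw [← Unitization.snd_star, ← LeavittFamily.snd_mul_of (hs _) (by simp [hs]),
      ← LeavittFamily.snd_mul_of (hp _) (by simp [hs]), X.range_le]
  sum_eq v S hS hS' := by
    rw [← X.sum_eq v S hS hS']
    have : (∑ e ∈ S, X.s e * star (X.s e)).snd = ∑ e ∈ S, (X.s e * star (X.s e)).snd :=
      map_sum (Unitization.sndHom ℂ ℂ A) _ _
    rw [this]
    refine Finset.sum_congr rfl fun e _ => ?_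
    rw [← Unitization.snd_star, ← LeavittFamily.snd_mul_of (hs _) (by simp [hs])]

theorem up_down (X : CKFamily G (Unitization ℂ A)) (hp : ∀ v, (X.p v).fst = 0)
    (hs : ∀ e, (X.s e).fst = 0) : (X.down hp hs).up = X := by
  ext
  · exact congrArg (fun z : Unitization ℂ A => z.fst) (LeavittFamily.eq_inr_of (hp _))
  · rfl
  · exact congrArg (fun z : Unitization ℂ A => z.fst) (LeavittFamily.eq_inr_of (hs _))
  · rfl

theorem up_injective {X Y : CKFamily G A} (h : X.up = Y.up) : X = Y := by
  ext x
  · have := congrFun (congrArg CKFamily.p h) x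
    exact Unitization.inr_injective this
  · have := congrFun (congrArg CKFamily.s h) x
    exact Unitization.inr_injective this

theorem up_toLeavitt (X : CKFamily G A) : X.up.toLeavitt = X.toLeavitt.up := by
  ext
  · rfl
  · rfl
  · rfl
  · rfl
  · show (star (X.up.s _)).fst = 0
    simp [up]
  · rfl

end CKFamily

namespace LeavittFamily

theorem fst_ga {τ : Unitization ℂ A} {R : ℕ → Unitization ℂ A} (i : ℕ) (h : (R i).fst = 0) :
    (ga τ R i).fst = 0 := by
  rw [ga, Unitization.fst_mul, h, mul_zero]

theorem fst_vseq (X : LeavittFamily G (Unitization ℂ A)) (h : X.IsIn) (i : ℕ) :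
    (vseq cv X i).fst = 0 := by
  by_cases h' : ∃ v, cv v = i
  · obtain ⟨v, hv⟩ := h'
    by_cases hinj : Function.Injective cv
    · rw [← hv, vseq_apply hinj, h.p]
    · classical
      rw [vseq, Function.extend_def]
      split_ifs with h3
      · exact h.p _
      · rfl
  · rw [vseq, Function.extend_apply' _ _ _ h']; rfl

theorem stepV_isIn (hcv : Function.Injective cv) (τ : Unitization ℂ A)
    (hτ : ∀ b : Unitization ℂ A, τ * b = b * τ) (X : LeavittFamily G (Unitization ℂ A))
    (h : X.IsIn) : (stepV hcv τ hτ X).IsIn where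
  p v := by
    show (ga τ (vseq cv X) (cv v) * gb τ (vseq cv X) (cv v)).fst = 0
    rw [Unitization.fst_mul, fst_ga _ (fst_vseq X h _), zero_mul]
  s e := by
    show (ga τ (vseq cv X) (cv (G.src e)) * X.s e * gb τ (vseq cv X) (cv (G.rng e))).fst = 0
    rw [Unitization.fst_mul, Unitization.fst_mul, h.s]; simp
  t e := by
    show (ga τ (vseq cv X) (cv (G.rng e)) * X.t e * gb τ (vseq cv X) (cv (G.src e))).fst = 0
    rw [Unitization.fst_mul, Unitization.fst_mul, h.t]; simp

theorem stepE_isIn (hce : Function.Injective ce) (τ : Unitization ℂ A)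
    (hτ : ∀ b : Unitization ℂ A, τ * b = b * τ) (X : LeavittFamily G (Unitization ℂ A))
    (hX : ∀ v, star (X.p v) = X.p v) (h : X.IsIn) : (stepE hce τ hτ X hX).IsIn where
  p v := h.p v
  s e := by
    show (ga τ (eseq ce X (G.src e)) (ce e) * X.s e).fst = 0
    rw [Unitization.fst_mul, h.s]; simp
  t e := by
    show (X.t e * gb τ (eseq ce X (G.src e)) (ce e)).fst = 0
    rw [Unitization.fst_mul, h.t]; simp

theorem stepVE_isIn (hcv : Function.Injective cv) (hce : Function.Injective ce)
    (X : LeavittFamily G (Unitization ℂ A)) (h : X.IsIn) : (stepVE hcv hce X).IsIn :=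
  stepE_isIn hce 1 one_comm _ _ (stepV_isIn hcv 1 one_comm X h)

/-- The retraction in the non-unital case. -/
noncomputable def retrN (hcv : Function.Injective cv) (hce : Function.Injective ce)
    (X : LeavittFamily G A) : CKFamily G A :=
  (retr hcv hce X.up).down (stepVE_isIn hcv hce _ X.up_isIn).p (by
    intro e
    show ((stepVE hcv hce X.up).s e * psqrt _).fst = 0
    rw [Unitization.fst_mul, (stepVE_isIn hcv hce _ X.up_isIn).s, zero_mul])

theorem retrN_up (hcv : Function.Injective cv) (hce : Function.Injective ce)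
    (X : LeavittFamily G A) : (retrN hcv hce X).up = retr hcv hce X.up :=
  CKFamily.up_down _ _ _

theorem up_map {A' : Type*} [NonUnitalCStarAlgebra A'] (f : A →⋆ₙₐ[ℂ] A')
    (X : LeavittFamily G A) : (X.map f).up = X.up.map (Unitization.starMap f) := by
  ext <;> simp [up]

theorem _root_.Pool.Agent.Helper665_GA.CKFamily.up_map {A' : Type*} [NonUnitalCStarAlgebra A']
    (f : A →⋆ₙₐ[ℂ] A') (X : CKFamily G A) :
    (X.map f).up = X.up.map (Unitization.starMap f) := by
  ext <;> simp [CKFamily.up]

theorem retrN_map {A' : Type*} [NonUnitalCStarAlgebra A'] (f : A →⋆ₙₐ[ℂ] A')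
    (hcv : Function.Injective cv) (hce : Function.Injective ce) (X : LeavittFamily G A) :
    (retrN hcv hce X).map f = retrN hcv hce (X.map f) := by
  apply CKFamily.up_injective
  rw [CKFamily.up_map, retrN_up, retr_map, retrN_up, up_map]

theorem retrN_toLeavitt (hcv : Function.Injective cv) (hce : Function.Injective ce)
    (X : CKFamily G A) : retrN hcv hce X.toLeavitt = X := by
  apply CKFamily.up_injective
  rw [retrN_up, ← CKFamily.up_toLeavitt, retr_toLeavitt]

/-! ### paths -/

/-- evaluation -/
def _root_.Pool.Agent.Helper665_GA.evN (t : I) : C(I, A) →⋆ₙₐ[ℂ] A where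
  toFun f := f t
  map_smul' _ _ := rfl
  map_mul' _ _ := rfl
  map_zero' := rfl
  map_add' _ _ := rfl
  map_star' _ := rfl

/-- Two Leavitt families are joined by a path. -/
def LPath (X Y : LeavittFamily G A) : Prop :=
  ∃ Z : LeavittFamily G C(I, A), Z.map (evN (0 : I)) = X ∧ Z.map (evN (1 : I)) = Y

theorem continuous_snd' : Continuous fun x : Unitization ℂ A => x.snd :=
  Unitization.uniformContinuous_snd.continuous

/-- Descend a path in the unitization. -/
noncomputable def downPath (Z : LeavittFamily G C(I, Unitization ℂ A))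
    (h : ∀ t : I, (Z.map (evU t)).IsIn) : LeavittFamily G C(I, A) where
  p v := ⟨fun t => (Z.p v t).snd, continuous_snd'.comp (Z.p v).continuous⟩
  s e := ⟨fun t => (Z.s e t).snd, continuous_snd'.comp (Z.s e).continuous⟩
  t e := ⟨fun t => (Z.t e t).snd, continuous_snd'.comp (Z.t e).continuous⟩
  p_mul_self v := by ext t; exact ((Z.map (evU t)).down (h t)).p_mul_self v
  p_mul_of_ne v w hvw := by ext t; exact ((Z.map (evU t)).down (h t)).p_mul_of_ne v w hvw
  src_mul e := by ext t; exact ((Z.map (evU t)).down (h t)).src_mul e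
  mul_rng e := by ext t; exact ((Z.map (evU t)).down (h t)).mul_rng e
  rng_mul e := by ext t; exact ((Z.map (evU t)).down (h t)).rng_mul e
  mul_src e := by ext t; exact ((Z.map (evU t)).down (h t)).mul_src e
  ghost_mul_self e := by ext t; exact ((Z.map (evU t)).down (h t)).ghost_mul_self e
  ghost_mul_of_ne e f hef := by
    ext t; exact ((Z.map (evU t)).down (h t)).ghost_mul_of_ne e f hef
  sum_eq v S hS hS' := by
    ext t
    have := ((Z.map (evU t)).down (h t)).sum_eq v S hS hS'
    rw [ContinuousMap.sum_apply]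
    exact this

theorem LPath_of_up {X Y : LeavittFamily G A} (Z : LeavittFamily G C(I, Unitization ℂ A))
    (h : ∀ t : I, (Z.map (evU t)).IsIn) (h0 : Z.map (evU 0) = X.up)
    (h1 : Z.map (evU 1) = Y.up) : LPath X Y := by
  refine ⟨downPath Z h, ?_, ?_⟩
  · apply up_injective
    rw [← h0]
    have := up_down (Z.map (evU 0)) (h 0)
    rw [← this]; rfl
  · apply up_injective
    rw [← h1]
    have := up_down (Z.map (evU 1)) (h 1)
    rw [← this]; rfl

theorem exists_chain (hcv : Function.Injective cv) (hce : Function.Injective ce)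
    (X : LeavittFamily G A) : ∃ X1 X2 : LeavittFamily G A, LPath X X1 ∧ LPath X1 X2 ∧
      LPath X2 (retrN hcv hce X).toLeavitt := by
  have hV := stepV_isIn hcv 1 one_comm X.up X.up_isIn
  have hVE := stepVE_isIn hcv hce X.up X.up_isIn
  refine ⟨(stepV hcv 1 one_comm X.up).down hV, (stepVE hcv hce X.up).down hVE, ?_, ?_, ?_⟩
  · refine LPath_of_up (pathV hcv X.up) ?_ (pathV_zero hcv _) ?_
    · intro t; rw [pathV_ev]; exact stepV_isIn hcv _ _ _ X.up_isIn
    · rw [pathV_one, up_down]
  · refine LPath_of_up (pathE hce (stepV hcv 1 one_comm X.up)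
      (stepV_one_star hcv one_comm _)) ?_ ?_ ?_
    · intro t; rw [pathE_ev]; exact stepE_isIn hce _ _ _ _ hV
    · rw [pathE_zero, up_down]
    · rw [pathE_one, up_down]; rfl
  · obtain ⟨Z, h0, h1, hp, hs, ht⟩ :=
      exists_path_polar (stepVE hcv hce X.up) (stepVE_straight hcv hce X.up)
    refine LPath_of_up Z ?_ ?_ ?_
    · intro t
      refine ⟨fun v => ?_, fun e => ?_, fun e => ?_⟩
      · show (Z.p v t).fst = 0
        rw [hp]; exact hVE.p v
      · show (Z.s e t).fst = 0
        obtain ⟨b, hb⟩ := hs e t
        rw [hb, Unitization.fst_mul, hVE.s, zero_mul]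
      · show (Z.t e t).fst = 0
        obtain ⟨b, hb⟩ := ht e t
        rw [hb, Unitization.fst_mul, hVE.t, mul_zero]
    · rw [h0, up_down]
    · rw [h1, ← CKFamily.up_toLeavitt, retrN_up]; rfl

end LeavittFamily

end Pool.Agent.Helper665_GA
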