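import Pool.Agent.Helper665_GA.CStar
import Pool.Agent.Helper665_GA.HomotopyDefs
import Pool.Agent.Helper665_GA.NonUnital

/-!
# Isomorphic Leavitt path algebras have homotopy equivalent graph C*-algebras (helper665)
-/

namespace Pool.Agent.Helper665_GA

open unitInterval

section

variable {A B : Type} [NonUnitalCStarAlgebra A] [NonUnitalCStarAlgebra B]

theorem Homotopic.symm {f g : A →⋆ₙₐ[ℂ] B} (h : Homotopic f g) : Homotopic g f := by
  obtain ⟨h, h0, h1, hc⟩ := h
  refine ⟨fun t => h (σ t), by simpa using h1, by simpa using h0, fun a => ?_⟩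
  exact (hc a).comp continuous_symm

theorem Homotopic.trans {f g k : A →⋆ₙₐ[ℂ] B} (h1 : Homotopic f g) (h2 : Homotopic g k) :
    Homotopic f k := by
  classical
  obtain ⟨h, h0, h1', hc⟩ := h1
  obtain ⟨h', h0', h1'', hc'⟩ := h2
  have key : ∀ a, ∃ p : Path (f a) (k a), ∀ t : I, p t =
      (if ht : (t : ℝ) ≤ 1 / 2 then h ⟨2 * t, (unitInterval.mul_pos_mem_iff zero_lt_two).2
        ⟨t.2.1, ht⟩⟩ else h' ⟨2 * t - 1, unitInterval.two_mul_sub_one_mem_iff.2
        ⟨(not_le.1 ht).le, t.2.2⟩⟩) a := by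
    intro a
    let p1 : Path (f a) (g a) := ⟨⟨fun t => h t a, hc a⟩, by simp [h0], by simp [h1']⟩
    let p2 : Path (g a) (k a) := ⟨⟨fun t => h' t a, hc' a⟩, by simp [h0'], by simp [h1'']⟩
    refine ⟨p1.trans p2, fun t => ?_⟩
    rw [Path.trans_apply]
    split_ifs with ht
    · rfl
    · rfl
  refine ⟨fun t => if ht : (t : ℝ) ≤ 1 / 2 then h ⟨2 * t, (unitInterval.mul_pos_mem_iff
    zero_lt_two).2 ⟨t.2.1, ht⟩⟩ else h' ⟨2 * t - 1, unitInterval.two_mul_sub_one_mem_iff.2
        ⟨(not_le.1 ht).le, t.2.2⟩⟩, ?_, ?_, ?_⟩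
  · ext a
    obtain ⟨p, hp⟩ := key a
    rw [← hp 0, p.source]
  · ext a
    obtain ⟨p, hp⟩ := key a
    rw [← hp 1, p.target]
  · intro a
    obtain ⟨p, hp⟩ := key a
    have : (fun t : I => (if ht : (t : ℝ) ≤ 1 / 2 then h ⟨2 * t, (unitInterval.mul_pos_mem_iff
        zero_lt_two).2 ⟨t.2.1, ht⟩⟩ else h' ⟨2 * t - 1, unitInterval.two_mul_sub_one_mem_iff.2
        ⟨(not_le.1 ht).le, t.2.2⟩⟩) a) = p := by
      funext t; rw [hp t]
    rw [this]; exact p.continuous

end

section main

variable {E F : Graph}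

/-- The value of a Leavitt `F`-family under a homomorphism of Leavitt path algebras. -/
noncomputable def compF {A : Type} [NonUnitalCStarAlgebra A] (Y : LeavittFamily F A)
    (φ : LPA ℂ E →ₙₐ[ℂ] LPA ℂ F) : LeavittFamily E A :=
  (LPA.family ℂ E).map ((LPA.lift (K := ℂ) Y).comp φ)

theorem compF_map {A B : Type} [NonUnitalCStarAlgebra A] [NonUnitalCStarAlgebra B]
    (Y : LeavittFamily F A) (φ : LPA ℂ E →ₙₐ[ℂ] LPA ℂ F) (f : A →⋆ₙₐ[ℂ] B) :
    (compF Y φ).map f = compF (Y.map f) φ := by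
  have h : (f : A →ₙₐ[ℂ] B).comp (LPA.lift (K := ℂ) Y) = LPA.lift (K := ℂ) (Y.map f) := by
    apply LPA.hom_ext
    rw [LPA.lift_family]
    have : (LPA.family ℂ F).map ((f : A →ₙₐ[ℂ] B).comp (LPA.lift (K := ℂ) Y))
        = ((LPA.family ℂ F).map (LPA.lift (K := ℂ) Y)).map f := rfl
    rw [this, LPA.lift_family]
  rw [compF, compF, ← h]; rfl

variable {cvE : E.V → ℕ} {ceE : E.E → ℕ} {cvF : F.V → ℕ} {ceF : F.E → ℕ}

theorem homotopic_of_LPath (hcv : Function.Injective cvE) (hce : Function.Injective ceE)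
    {A : Type} [NonUnitalCStarAlgebra A] {Y Y' : LeavittFamily F A}
    (h : LeavittFamily.LPath Y Y') (φ : LPA ℂ E →ₙₐ[ℂ] LPA ℂ F) :
    Homotopic (CStar.lift (LeavittFamily.retrN hcv hce (compF Y φ)))
      (CStar.lift (LeavittFamily.retrN hcv hce (compF Y' φ))) := by
  obtain ⟨Z, h0, h1⟩ := h
  set W : CKFamily E C(I, A) := LeavittFamily.retrN hcv hce (compF Z φ) with hW
  have hev : ∀ t : I, (evN (A := A) t).comp (CStar.lift W)
      = CStar.lift (LeavittFamily.retrN hcv hce (compF (Z.map (evN t)) φ)) := by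
    intro t
    apply CStar.hom_ext
    rw [CStar.lift_family]
    have : (CStar.family E).map ((evN (A := A) t).comp (CStar.lift W))
        = ((CStar.family E).map (CStar.lift W)).map (evN t) := rfl
    rw [this, CStar.lift_family, hW, LeavittFamily.retrN_map, compF_map]
  refine ⟨fun t => (evN (A := A) t).comp (CStar.lift W), ?_, ?_, ?_⟩
  · show (evN (A := A) 0).comp (CStar.lift W) = _
    rw [hev, h0]
  · show (evN (A := A) 1).comp (CStar.lift W) = _
    rw [hev, h1]
  · intro a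
    exact (CStar.lift W a).continuous

theorem lift_self : CStar.lift (CStar.family E) = NonUnitalStarAlgHom.id ℂ (CStar E) := by
  apply CStar.hom_ext
  rw [CStar.lift_family]; rfl

/-- The star homomorphism associated with a homomorphism of Leavitt path algebras. -/
noncomputable def starOf (hcv : Function.Injective cvE) (hce : Function.Injective ceE)
    (φ : LPA ℂ E →ₙₐ[ℂ] LPA ℂ F) : CStar E →⋆ₙₐ[ℂ] CStar F :=
  CStar.lift (LeavittFamily.retrN hcv hce ((LPA.family ℂ E).map ((CStar.can F).comp φ)))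

theorem starOf_comp_homotopic (hcvE : Function.Injective cvE) (hceE : Function.Injective ceE)
    (hcvF : Function.Injective cvF) (hceF : Function.Injective ceF)
    (φ : LPA ℂ E →ₙₐ[ℂ] LPA ℂ F) (ψ : LPA ℂ F →ₙₐ[ℂ] LPA ℂ E) (h : ∀ a, ψ (φ a) = a) :
    Homotopic (NonUnitalStarAlgHom.id ℂ (CStar E))
      ((starOf hcvF hceF ψ).comp (starOf hcvE hceE φ)) := by
  set Y : LeavittFamily F (CStar E) := (LPA.family ℂ F).map ((CStar.can E).comp ψ) with hY
  obtain ⟨Y1, Y2, p1, p2, p3⟩ := LeavittFamily.exists_chain hcvF hceF Y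
  have q1 := homotopic_of_LPath hcvE hceE p1 φ
  have q2 := homotopic_of_LPath hcvE hceE p2 φ
  have q3 := homotopic_of_LPath hcvE hceE p3 φ
  have e1 : CStar.lift (LeavittFamily.retrN hcvE hceE (compF Y φ))
      = NonUnitalStarAlgHom.id ℂ (CStar E) := by
    have h1 : LPA.lift (K := ℂ) Y = (CStar.can E).comp ψ := by
      apply LPA.hom_ext
      rw [LPA.lift_family]
    have h2 : compF Y φ = (CStar.family E).toLeavitt := by
      rw [compF, h1]
      have h3 : ((CStar.can E).comp ψ).comp φ = CStar.can E := by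
        ext a
        show CStar.can E (ψ (φ a)) = CStar.can E a
        rw [h]
      rw [h3]
      exact LPA.lift_family (K := ℂ) (CStar.family E).toLeavitt
    rw [h2, LeavittFamily.retrN_toLeavitt, lift_self]
  have e2 : CStar.lift (LeavittFamily.retrN hcvE hceE
      (compF (LeavittFamily.retrN hcvF hceF Y).toLeavitt φ))
      = (starOf hcvF hceF ψ).comp (starOf hcvE hceE φ) := by
    have h1 : LPA.lift (K := ℂ) (LeavittFamily.retrN hcvF hceF Y).toLeavitt
        = ((starOf hcvF hceF ψ : CStar F →⋆ₙₐ[ℂ] CStar E) : CStar F →ₙₐ[ℂ] CStar E).comp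
          (CStar.can F) := by
      apply LPA.hom_ext
      rw [LPA.lift_family]
      have h2 : (LPA.family ℂ F).map (((starOf hcvF hceF ψ : CStar F →⋆ₙₐ[ℂ] CStar E) :
          CStar F →ₙₐ[ℂ] CStar E).comp (CStar.can F))
          = ((LPA.family ℂ F).map (CStar.can F)).map (starOf hcvF hceF ψ) := rfl
      have h3 : (LPA.family ℂ F).map (CStar.can F) = (CStar.family F).toLeavitt :=
        LPA.lift_family (K := ℂ) (CStar.family F).toLeavitt
      rw [h2, h3, ← CKFamily.toLeavitt_map]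
      show _ = ((CStar.family F).map (CStar.lift _)).toLeavitt
      rw [CStar.lift_family]
    have h2 : compF (LeavittFamily.retrN hcvF hceF Y).toLeavitt φ
        = ((LPA.family ℂ E).map ((CStar.can F).comp φ)).map (starOf hcvF hceF ψ) := by
      rw [compF, h1]; rfl
    rw [h2, ← LeavittFamily.retrN_map]
    apply CStar.hom_ext
    rw [CStar.lift_family]
    have h3 : (CStar.family E).map ((starOf hcvF hceF ψ).comp (starOf hcvE hceE φ))
        = ((CStar.family E).map (starOf hcvE hceE φ)).map (starOf hcvF hceF ψ) := rfl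
    rw [h3]
    show _ = ((CStar.family E).map (CStar.lift _)).map _
    rw [CStar.lift_family]
  rw [e1] at q1
  rw [e2] at q3
  exact (q1.trans q2).trans q3

/-- Isomorphic Leavitt path algebras (as complex algebras) have homotopy equivalent graph
C*-algebras. -/
theorem homotopyEquivalent_of_algEquiv [Countable E.V] [Countable E.E] [Countable F.V]
    [Countable F.E] (φ : LPA ℂ E →ₙₐ[ℂ] LPA ℂ F) (ψ : LPA ℂ F →ₙₐ[ℂ] LPA ℂ E)
    (h : ∀ a, ψ (φ a) = a) (h' : ∀ a, φ (ψ a) = a) :
    HomotopyEquivalent (CStar E) (CStar F) := by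
  obtain ⟨cvE, hcvE⟩ := exists_injective_nat E.V
  obtain ⟨ceE, hceE⟩ := exists_injective_nat E.E
  obtain ⟨cvF, hcvF⟩ := exists_injective_nat F.V
  obtain ⟨ceF, hceF⟩ := exists_injective_nat F.E
  exact ⟨starOf hcvE hceE φ, starOf hcvF hceF ψ,
    (starOf_comp_homotopic hcvE hceE hcvF hceF φ ψ h).symm,
    (starOf_comp_homotopic hcvF hceF hcvE hceE ψ φ h').symm⟩

end main

end Pool.Agent.Helper665_GA
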