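import Pool.Agent.Helper665_GA.StarIsoK
import Pool.Agent.Helper665_GA.CtblTransfer

/-!
# The involution of the Leavitt path algebra given by its universal property (helper665)
-/

namespace Pool.Agent.Helper665_GA

/-- The involution of `L_K(G)` over a field with involution: it is additive, conjugate linear,
reverses products, is its own inverse, fixes the vertices and sends every edge to its ghost
edge. -/
structure LeavittStar (K : Type) [Field K] [StarRing K] (G : Graph) where
  /-- the involution -/
  st : Leavitt K G → Leavitt K G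
  add : ∀ x y, st (x + y) = st x + st y
  smul : ∀ (r : K) (x : Leavitt K G), st (r • x) = star r • st x
  mul : ∀ x y, st (x * y) = st y * st x
  invol : ∀ x, st (st x) = x
  vert : ∀ v, st ((Leavitt.family K G).p v) = (Leavitt.family K G).p v
  edge : ∀ e, st ((Leavitt.family K G).s e) = (Leavitt.family K G).t e

section

variable (K : Type) [Field K] [StarRing K] (G : Graph)

/-- The involution exists. -/
theorem nonempty_leavittStar : Nonempty (LeavittStar K G) := by
  obtain ⟨f, g, h1, h2, h0⟩ := Leavitt.exists_equiv K G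
  have hp : ∀ v, g ((Leavitt.family K G).p v) = (LPA.family K G).p v := by
    intro v; rw [← h0]; exact h1 _
  have hs : ∀ v, g ((Leavitt.family K G).s v) = (LPA.family K G).s v := by
    intro v; rw [← h0]; exact h1 _
  have hp' : ∀ v, f ((LPA.family K G).p v) = (Leavitt.family K G).p v := by
    intro v; rw [← h0]; rfl
  have ht' : ∀ v, f ((LPA.family K G).t v) = (Leavitt.family K G).t v := by
    intro v; rw [← h0]; rfl
  exact ⟨{ st := fun x => f (star (g x))
           add := fun x y => by rw [map_add, star_add, map_add]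
           smul := fun r x => by rw [map_smul, star_smul, map_smul]
           mul := fun x y => by rw [map_mul, star_mul, map_mul]
           invol := fun x => by rw [h1, star_star, h2]
           vert := fun v => by rw [hp, LPA.star_p, hp']
           edge := fun e => by rw [hs, LPA.star_s, ht'] }⟩

/-- The involution of `L_K(G)`. -/
noncomputable def leavittStar : Leavitt K G → Leavitt K G :=
  (Classical.choice (nonempty_leavittStar K G)).st

variable {K G}

/-- Comparison with the presented algebra. -/
theorem LeavittStar.st_eq (σ : LeavittStar K G) {f : LPA K G →ₙₐ[K] Leavitt K G}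
    (h0 : (LPA.family K G).map f = Leavitt.family K G) (a : LPA K G) :
    σ.st (f a) = f (star a) := by
  have hp' : ∀ v, f ((LPA.family K G).p v) = (Leavitt.family K G).p v := by
    intro v; rw [← h0]; rfl
  have hs' : ∀ v, f ((LPA.family K G).s v) = (Leavitt.family K G).s v := by
    intro v; rw [← h0]; rfl
  have ht' : ∀ v, f ((LPA.family K G).t v) = (Leavitt.family K G).t v := by
    intro v; rw [← h0]; rfl
  induction a using LPA.induction with
  | hgen x =>
    cases x with
    | vert v =>
      show σ.st (f ((LPA.family K G).p v)) = f (star ((LPA.family K G).p v))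
      rw [LPA.star_p, hp', σ.vert]
    | edge e =>
      show σ.st (f ((LPA.family K G).s e)) = f (star ((LPA.family K G).s e))
      rw [LPA.star_s, hs', ht', σ.edge]
    | ghost e =>
      show σ.st (f ((LPA.family K G).t e)) = f (star ((LPA.family K G).t e))
      rw [LPA.star_t, hs', ht', ← σ.edge, σ.invol]
  | hadd a b ha hb => rw [map_add, σ.add, ha, hb, star_add, map_add]
  | hzero =>
    have h : σ.st 0 = 0 := by
      have h1 := σ.add 0 0
      rw [add_zero] at h1
      exact left_eq_add.1 h1
    rw [map_zero, h, star_zero, map_zero]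
  | hmul a b ha hb => rw [map_mul, σ.mul, ha, hb, star_mul, map_mul]
  | hsmul r a ha => rw [map_smul, σ.smul, ha, star_smul, map_smul]

/-- The involution is unique. -/
theorem LeavittStar.unique (σ : LeavittStar K G) (x : Leavitt K G) : σ.st x = leavittStar K G x := by
  obtain ⟨f, g, h1, h2, h0⟩ := Leavitt.exists_equiv K G
  rw [← h2 x, σ.st_eq h0]
  exact ((Classical.choice (nonempty_leavittStar K G)).st_eq h0 (g x)).symm

/-- Ring isomorphisms give star isomorphisms, for countable graphs whose cycles have no exits. -/
theorem exists_leavitt_star_iso {E F : Graph} [Countable E.V] [Countable E.E] (hE : E.NoExit)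
    (h : Nonempty (Leavitt K E ≃+* Leavitt K F)) :
    ∃ f : Leavitt K E →ₙₐ[K] Leavitt K F, Function.Bijective f ∧
      ∀ x, f (leavittStar K E x) = leavittStar K F (f x) := by
  obtain ⟨φ, ψ, h1, h2⟩ := exists_algebra_iso h
  have hF := LPA.noExit_of_iso hE φ ψ h2
  obtain ⟨c1, c2⟩ := LPA.countable_of_iso φ fun y => ⟨ψ y, h2 y⟩
  obtain ⟨Θ, Θ', h3, h4⟩ := LPA.exists_star_iso_noExit hE hF φ ψ h1 h2
  obtain ⟨f1, g1, a1, a2, a0⟩ := Leavitt.exists_equiv K E
  obtain ⟨f2, g2, b1, b2, b0⟩ := Leavitt.exists_equiv K F
  refine ⟨(f2.comp (Θ : LPA K E →ₙₐ[K] LPA K F)).comp g1, ⟨?_, ?_⟩, ?_⟩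
  · intro x y hxy
    change f2 (Θ (g1 x)) = f2 (Θ (g1 y)) at hxy
    have e1 : Θ (g1 x) = Θ (g1 y) := by rw [← b1 (Θ (g1 x)), hxy, b1]
    have e2 : g1 x = g1 y := by rw [← h3 (g1 x), e1, h3]
    rw [← a2 x, e2, a2]
  · intro y
    refine ⟨f1 (Θ' (g2 y)), ?_⟩
    show f2 (Θ (g1 (f1 (Θ' (g2 y))))) = y
    rw [a1, h4, b2]
  · intro x
    show f2 (Θ (g1 (leavittStar K E x))) = leavittStar K F (f2 (Θ (g1 x)))
    have e1 : leavittStar K E x = f1 (star (g1 x)) := by
      conv_lhs => rw [← a2 x]
      exact (Classical.choice (nonempty_leavittStar K E)).st_eq a0 (g1 x)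
    have e2 : leavittStar K F (f2 (Θ (g1 x))) = f2 (star (Θ (g1 x))) :=
      (Classical.choice (nonempty_leavittStar K F)).st_eq b0 _
    rw [e1, e2, a1, map_star]

end

end Pool.Agent.Helper665_GA
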