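import Pool.Agent.Helper665_GA.RingIso
import Pool.Agent.Helper665_GA.CStar

/-!
# The boundary path representation on a Hilbert space; injectivity of `L_ℂ(G) → C*(G)` (helper665)
-/

namespace Pool.Agent.Helper665_GA

open scoped ENNReal InnerProductSpace
open LaurentPolynomial

/-- A partial bijection. -/
structure PBij (Y : Type) where
  /-- the map -/
  f : Y → Option Y
  /-- the inverse -/
  g : Y → Option Y
  iff : ∀ y z, f y = some z ↔ g z = some y

namespace PBij

variable {Y : Type}

/-- The inverse partial bijection. -/
def inv (τ : PBij Y) : PBij Y := ⟨τ.g, τ.f, fun y z => (τ.iff z y).symm⟩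

/-- The Hilbert space. -/
abbrev HH (Y : Type) : Type := lp (fun _ : Y => ℂ) 2

theorem sum_le (τ : PBij Y) (f : HH Y) (s : Finset Y) :
    ∑ y ∈ s, ‖(τ.f y).elim 0 (fun z => f z)‖ ^ (2 : ℝ≥0∞).toReal ≤ ‖f‖ ^ (2 : ℝ≥0∞).toReal := by
  classical
  have h2 : 0 < (2 : ℝ≥0∞).toReal := by norm_num
  let s' := s.filter fun y => (τ.f y).isSome
  have h1 : ∑ y ∈ s, ‖(τ.f y).elim 0 (fun z => f z)‖ ^ (2 : ℝ≥0∞).toReal
      = ∑ y ∈ s', ‖(τ.f y).elim 0 (fun z => f z)‖ ^ (2 : ℝ≥0∞).toReal := by
    symm
    apply Finset.sum_subset (Finset.filter_subset _ _)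
    intro y hy hy'
    have : τ.f y = none := by
      by_contra hc
      apply hy'
      rw [Finset.mem_filter]
      exact ⟨hy, Option.isSome_iff_ne_none.2 hc⟩
    rw [this, Option.elim_none, norm_zero, Real.zero_rpow h2.ne']
  have h3 : ∀ y ∈ s', ∃ z, τ.f y = some z := by
    intro y hy
    rw [Finset.mem_filter] at hy
    exact Option.isSome_iff_exists.1 hy.2
  choose! k hk using h3
  have hinj : Set.InjOn k s' := by
    intro y hy y' hy' h
    have a1 := (τ.iff _ _).1 (hk y hy)
    have a2 := (τ.iff _ _).1 (hk y' hy')
    rw [h, a2] at a1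
    exact (Option.some.inj a1).symm
  rw [h1]
  have h4 : ∑ y ∈ s', ‖(τ.f y).elim 0 (fun z => f z)‖ ^ (2 : ℝ≥0∞).toReal
      = ∑ z ∈ s'.image k, ‖f z‖ ^ (2 : ℝ≥0∞).toReal := by
    rw [Finset.sum_image hinj]
    apply Finset.sum_congr rfl
    intro y hy
    rw [hk y hy, Option.elim_some]
  rw [h4]
  exact lp.sum_rpow_le_norm_rpow h2 f _

/-- The function of the operator. -/
noncomputable def opFun (τ : PBij Y) (f : HH Y) : HH Y :=
  ⟨fun y => (τ.f y).elim 0 (fun z => f z), memℓp_gen' fun s => sum_le τ f s⟩

theorem opFun_apply (τ : PBij Y) (f : HH Y) (y : Y) :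
    opFun τ f y = (τ.f y).elim 0 (fun z => f z) := rfl

/-- The operator of a partial bijection. -/
noncomputable def op (τ : PBij Y) : HH Y →L[ℂ] HH Y :=
  LinearMap.mkContinuous
    { toFun := opFun τ
      map_add' := fun f g => by
        ext y
        rw [lp.coeFn_add, Pi.add_apply, opFun_apply, opFun_apply, opFun_apply]
        cases τ.f y with
        | none => simp
        | some z => rfl
      map_smul' := fun c f => by
        ext y
        rw [RingHom.id_apply, lp.coeFn_smul, Pi.smul_apply, opFun_apply, opFun_apply]
        cases τ.f y with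
        | none => simp
        | some z => rfl } 1 fun f => by
    rw [one_mul]
    exact lp.norm_le_of_forall_sum_le (by norm_num) (norm_nonneg _) fun s => sum_le τ f s

theorem op_apply (τ : PBij Y) (f : HH Y) (y : Y) :
    (op τ f) y = (τ.f y).elim 0 (fun z => f z) := rfl

theorem star_op (τ : PBij Y) : star (op τ) = op τ.inv := by
  symm
  rw [ContinuousLinearMap.star_eq_adjoint, ContinuousLinearMap.eq_adjoint_iff]
  intro f g
  rw [lp.inner_eq_tsum, lp.inner_eq_tsum]
  apply tsum_eq_tsum_of_ne_zero_bij
    (fun y => ((τ.f y.1).getD y.1 : Y))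
  · intro y y' h
    have a : ∀ y : Function.support fun i => ⟪f i, (op τ g) i⟫_ℂ,
        τ.f y.1 = some ((τ.f y.1).getD y.1) := by
      intro y
      have := y.2
      rw [Function.mem_support, op_apply] at this
      cases h : τ.f y.1 with
      | none => rw [h, Option.elim_none, inner_zero_right] at this; exact absurd rfl this
      | some z => rfl
    have a1 := (τ.iff _ _).1 (a y)
    have a2 := (τ.iff _ _).1 (a y')
    dsimp only at h
    rw [h, a2] at a1
    exact Subtype.ext (Option.some.inj a1).symm
  · intro z hz
    rw [Function.mem_support, op_apply] at hz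
    cases h : τ.inv.f z with
    | none => rw [h, Option.elim_none, inner_zero_left] at hz; exact absurd rfl hz
    | some y =>
      have hy : τ.f y = some z := (τ.iff _ _).2 h
      refine ⟨⟨y, ?_⟩, ?_⟩
      · rw [Function.mem_support, op_apply, hy, Option.elim_some]
        rwa [h, Option.elim_some] at hz
      · dsimp only
        rw [hy]; rfl
  · intro y
    have := y.2
    rw [Function.mem_support, op_apply] at this
    cases h : τ.f y.1 with
    | none => rw [h, Option.elim_none, inner_zero_right] at this; exact absurd rfl this
    | some z =>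
      dsimp only [Option.getD_some]
      have hz : τ.inv.f z = some y.1 := (τ.iff _ _).1 h
      rw [op_apply, op_apply, hz, h, Option.elim_some, Option.elim_some]

open Classical in
/-- The basis vectors. -/
noncomputable def del (y : Y) : HH Y := lp.single 2 y (1 : ℂ)

open Classical in
theorem del_apply (y z : Y) : (del y : HH Y) z = if z = y then 1 else 0 := by
  unfold del
  rw [lp.single_apply]
  by_cases h : z = y
  · subst h; simp
  · rw [if_neg h, Pi.single_eq_of_ne h]

theorem op_del (τ : PBij Y) (y : Y) : op τ (del y) = (τ.g y).elim 0 del := by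
  classical
  ext z
  rw [op_apply]
  cases h : τ.f z with
  | none =>
    rw [Option.elim_none]
    cases h2 : τ.g y with
    | none => rfl
    | some w =>
      rw [Option.elim_some, del_apply, if_neg]
      rintro rfl
      rw [(τ.iff _ _).2 h2] at h
      exact absurd h (by simp)
  | some w =>
    rw [Option.elim_some, del_apply]
    have h3 := (τ.iff _ _).1 h
    split_ifs with h2
    · subst h2
      rw [h3, Option.elim_some, del_apply, if_pos rfl]
    · cases h4 : τ.g y with
      | none => rfl
      | some w' =>
        rw [Option.elim_some, del_apply, if_neg]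
        rintro rfl
        rw [(τ.iff _ _).2 h4] at h
        exact h2 (Option.some.inj h).symm

end PBij

open PBij

section family

variable (G : Graph)

open Classical in
/-- partial bijection of a vertex -/
noncomputable def bP (v : G.V) : PBij (BPath G × ℤ) where
  f y := if y.1.vtx 0 = v then some y else none
  g y := if y.1.vtx 0 = v then some y else none
  iff y z := by
    constructor
    · intro h
      split_ifs at h with h1
      cases h
      rw [if_pos h1]
    · intro h
      split_ifs at h with h1
      cases h
      rw [if_pos h1]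

open Classical in
/-- partial bijection of an edge -/
noncomputable def bS (e : G.E) : PBij (BPath G × ℤ) where
  f y := if y.1.edg 0 = some e then some (y.1.shift, y.2 - 1) else none
  g y := if h : G.rng e = y.1.vtx 0 then some (BPath.cons e y.1 h, y.2 + 1) else none
  iff y z := by
    constructor
    · intro h
      split_ifs at h with h1
      cases h
      rw [dif_pos (BPath.rng_of_edg h1)]
      congr 1
      ext1
      · exact BPath.cons_shift h1
      · show y.2 - 1 + 1 = y.2; ring
    · intro h
      split_ifs at h with h1
      cases h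
      rw [if_pos (BPath.cons_edg_zero _ _ _)]
      congr 1
      ext1
      · rfl
      · show z.2 + 1 - 1 = z.2; ring

/-- The Cuntz-Krieger family on the Hilbert space. -/
noncomputable def l2Family : CKFamily G (HH (BPath G × ℤ) →L[ℂ] HH (BPath G × ℤ)) where
  p v := op (bP G v)
  s e := op (bS G e)
  p_star v := by rw [star_op]; rfl
  p_mul_self v := by
    ext f y
    rw [mul_apply_eq_comp, op_apply, op_apply]
    by_cases h : y.1.vtx 0 = v
    · have : (bP G v).f y = some y := if_pos h
      rw [this, Option.elim_some, Option.elim_some, op_apply, this, Option.elim_some]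
    · have : (bP G v).f y = none := if_neg h
      rw [this, Option.elim_none, Option.elim_none]
  p_mul_of_ne v w hvw := by
    ext f y
    rw [mul_apply_eq_comp, op_apply]
    by_cases h : y.1.vtx 0 = v
    · have h1 : (bP G v).f y = some y := if_pos h
      have h2 : (bP G w).f y = none := if_neg (by rw [h]; exact hvw)
      rw [h1, Option.elim_some, op_apply, h2, Option.elim_none]; rfl
    · have : (bP G v).f y = none := if_neg h
      rw [this, Option.elim_none]; rfl
  star_mul_self e := by
    rw [star_op]
    ext f y
    rw [mul_apply_eq_comp, op_apply, op_apply]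
    by_cases h : G.rng e = y.1.vtx 0
    · have h1 : (bS G e).inv.f y = some (BPath.cons e y.1 h, y.2 + 1) := dif_pos h
      have h2 : (bS G e).f (BPath.cons e y.1 h, y.2 + 1) = some y := ((bS G e).iff _ _).2 h1
      have h3 : (bP G (G.rng e)).f y = some y := if_pos h.symm
      rw [h1, Option.elim_some, op_apply, h2, Option.elim_some, h3, Option.elim_some]
    · have h1 : (bS G e).inv.f y = none := dif_neg h
      have h3 : (bP G (G.rng e)).f y = none := if_neg (fun h' => h h'.symm)
      rw [h1, h3, Option.elim_none, Option.elim_none]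
  range_orth e f hef := by
    rw [star_op, star_op]
    ext k y
    rw [mul_apply_eq_comp, mul_apply_eq_comp, op_apply]
    by_cases h : y.1.edg 0 = some e
    · have h1 : (bS G e).f y = some (y.1.shift, y.2 - 1) := if_pos h
      have h2 : (bS G e).inv.f (y.1.shift, y.2 - 1) = some y := ((bS G e).iff _ _).1 h1
      have h3 : (bS G f).f y = none := if_neg (by rw [h]; exact fun hc => hef (Option.some.inj hc))
      rw [h1, Option.elim_some, op_apply, h2, Option.elim_some, mul_apply_eq_comp,
        op_apply, h3, Option.elim_none]; rfl
    · have h1 : (bS G e).f y = none := if_neg h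
      rw [h1, Option.elim_none]; rfl
  range_le e := by
    rw [star_op]
    ext f y
    rw [mul_apply_eq_comp, op_apply]
    by_cases h : y.1.vtx 0 = G.src e
    · have h1 : (bP G (G.src e)).f y = some y := if_pos h
      rw [h1, Option.elim_some]
    · have h1 : (bP G (G.src e)).f y = none := if_neg h
      have h2 : (bS G e).f y = none := if_neg (fun h' => h (BPath.src_of_edg h').symm)
      rw [h1, Option.elim_none, mul_apply_eq_comp, op_apply, h2, Option.elim_none]
  sum_eq v S hS hmem := by
    classical
    ext f y
    have h1 : ∀ e, ((op (bS G e) * star (op (bS G e))) f) y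
        = if y.1.edg 0 = some e then f y else 0 := by
      intro e
      rw [star_op, mul_apply_eq_comp, op_apply]
      by_cases h : y.1.edg 0 = some e
      · have h1 : (bS G e).f y = some (y.1.shift, y.2 - 1) := if_pos h
        have h2 : (bS G e).inv.f (y.1.shift, y.2 - 1) = some y := ((bS G e).iff _ _).1 h1
        rw [h1, Option.elim_some, op_apply, h2, Option.elim_some, if_pos h]
      · have h1 : (bS G e).f y = none := if_neg h
        rw [h1, Option.elim_none, if_neg h]
    rw [ContinuousLinearMap.sum_apply]
    have h0 : (∑ e ∈ S, (op (bS G e) * star (op (bS G e))) f : HH (BPath G × ℤ)) y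
        = ∑ e ∈ S, ((op (bS G e) * star (op (bS G e))) f) y := by
      have : ∀ T : Finset G.E, (∑ e ∈ T, (op (bS G e) * star (op (bS G e))) f :
          HH (BPath G × ℤ)) y = ∑ e ∈ T, ((op (bS G e) * star (op (bS G e))) f) y := by
        intro T
        induction T using Finset.induction_on with
        | empty => rfl
        | insert a T ha ih =>
          rw [Finset.sum_insert ha, Finset.sum_insert ha, lp.coeFn_add, Pi.add_apply, ih]
      exact this S
    rw [h0, Finset.sum_congr rfl fun e _ => h1 e, op_apply]
    by_cases h : y.1.vtx 0 = v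
    · have h2 : (bP G v).f y = some y := if_pos h
      rw [h2, Option.elim_some]
      cases hx : y.1.edg 0 with
      | none =>
        have := (y.1.ok_none 0 hx).1
        rw [h] at this
        exact absurd ⟨S, hS, hmem⟩ this
      | some e =>
        have he : e ∈ S := by rw [hmem, ← h]; exact BPath.src_of_edg hx
        rw [Finset.sum_eq_single_of_mem e he]
        · rw [if_pos rfl]
        · intro f _ hf
          rw [if_neg]
          intro hc
          exact hf (Option.some.inj hc).symm
    · have h2 : (bP G v).f y = none := if_neg h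
      rw [h2, Option.elim_none]
      apply Finset.sum_eq_zero
      intro e he
      rw [if_neg]
      intro hc
      apply h
      rw [← BPath.src_of_edg hc]
      exact (hmem e).1 he

/-- The intertwiner from the algebraic representation space. -/
noncomputable def Th : VV ℂ G →ₗ[ℂ] HH (BPath G × ℤ) :=
  Finsupp.lsum ℂ fun x : BPath G =>
    (Finsupp.lsum ℂ fun n : ℤ => LinearMap.toSpanSingleton ℂ (HH (BPath G × ℤ)) (del (x, n))) ∘ₗ
      (AddMonoidAlgebra.coeffLinearEquiv ℂ : ℂ[T;T⁻¹] ≃ₗ[ℂ] (ℤ →₀ ℂ)).toLinearMap

variable {G}

theorem Th_single (x : BPath G) (n : ℤ) :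
    Th G (Finsupp.single x (T n)) = del (x, n) := by
  unfold Th
  rw [Finsupp.lsum_single]
  show (Finsupp.lsum ℂ _) (T n : ℂ[T;T⁻¹]).coeff = _
  have : (T n : ℂ[T;T⁻¹]).coeff = Finsupp.single n 1 := rfl
  rw [this, Finsupp.lsum_single, LinearMap.toSpanSingleton_apply, one_smul]

/-- Induction on the representation space. -/
theorem vv_induction {P : VV ℂ G → Prop} (h0 : P 0) (hadd : ∀ a b, P a → P b → P (a + b))
    (hsingle : ∀ x n (c : ℂ), P (c • Finsupp.single x (T n))) (v : VV ℂ G) : P v := by
  induction v using Finsupp.induction_linear with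
  | zero => exact h0
  | add f g hf hg => exact hadd f g hf hg
  | single x r =>
    induction r using LaurentPolynomial.induction_on' with
    | add p q hp hq => rw [Finsupp.single_add]; exact hadd _ _ hp hq
    | C_mul_T n a =>
      have : (Finsupp.single x (C a * T n) : VV ℂ G) = a • Finsupp.single x (T n) := by
        rw [Finsupp.smul_single]
        congr 1
        rw [Algebra.smul_def]; rfl
      rw [this]; exact hsingle x n a

theorem Th_apply (v : VV ℂ G) (x : BPath G) (n : ℤ) : Th G v (x, n) = (v x).coeff n := by
  classical
  induction v using vv_induction with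
  | h0 => rw [map_zero]; rfl
  | hadd a b ha hb =>
    rw [map_add, lp.coeFn_add, Pi.add_apply, ha, hb]; rfl
  | hsingle y m c =>
    rw [map_smul, lp.coeFn_smul, Pi.smul_apply, Th_single, del_apply]
    have h1 : ((c • Finsupp.single y (T m) : VV ℂ G) x).coeff n
        = c * ((Finsupp.single y (T m) : VV ℂ G) x).coeff n := rfl
    rw [h1, smul_eq_mul]
    congr 1
    rw [Finsupp.single_apply]
    have h2 : (T m : ℂ[T;T⁻¹]).coeff = Finsupp.single m 1 := rfl
    by_cases hxy : y = x
    · rw [if_pos hxy, h2, Finsupp.single_apply]
      by_cases hmn : m = n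
      · rw [if_pos hmn, if_pos (by rw [hxy, hmn])]
      · rw [if_neg hmn, if_neg]
        intro hc
        exact hmn (Prod.ext_iff.1 hc).2.symm
    · rw [if_neg hxy, if_neg]
      · rfl
      · intro hc
        exact hxy (Prod.ext_iff.1 hc).1.symm

theorem Th_injective : Function.Injective (Th G) := by
  intro v w h
  ext x n
  rw [← Th_apply, ← Th_apply, h]

theorem Th_gen (x : Gen G) (v : VV ℂ G) :
    Th G ((rho ℂ G (LPA.gen ℂ G x)).ap v) = ((l2Family G).toLeavitt.val x) (Th G v) := by
  induction v using vv_induction with
  | h0 => simp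
  | hadd a b ha hb => rw [map_add, map_add, map_add, map_add, ha, hb]
  | hsingle y n c =>
    have hT : ∀ k : ℤ, (T n * T k : ℂ[T;T⁻¹]) = T (n + k) := fun k => (T_add n k).symm
    have hc : ∀ (L : EE ℂ G) (w : VV ℂ G), L.ap (c • w) = c • L.ap w := by
      intro L w
      have h1 : c • w = (C c : ℂ[T;T⁻¹]) • w := by
        ext1 x
        rw [Finsupp.smul_apply, Finsupp.smul_apply, smul_eq_mul, LaurentPolynomial.smul_eq_C_mul]
      have h2 : c • L.ap w = (C c : ℂ[T;T⁻¹]) • L.ap w := by
        ext1 x
        rw [Finsupp.smul_apply, Finsupp.smul_apply, smul_eq_mul, LaurentPolynomial.smul_eq_C_mul]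
      rw [h1, map_smul, h2]
    rw [hc, map_smul, map_smul, map_smul]
    congr 1
    cases x with
    | vert v =>
      show Th G ((rho ℂ G ((LPA.family ℂ G).p v)).ap _) = op (bP G v) _
      rw [LPA.rho_p, opP_single, Th_single, op_del]
      by_cases h : y.vtx 0 = v
      · have h1 : (bP G v).g (y, n) = some (y, n) := if_pos h
        rw [if_pos h, h1, Option.elim_some, Th_single]
      · have h1 : (bP G v).g (y, n) = none := if_neg h
        rw [if_neg h, h1, Option.elim_none, map_zero]
    | edge e =>
      show Th G ((rho ℂ G ((LPA.family ℂ G).s e)).ap _) = op (bS G e) _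
      rw [LPA.rho_s, opS_single, Th_single, op_del]
      by_cases h : G.rng e = y.vtx 0
      · have h1 : (bS G e).g (y, n) = some (BPath.cons e y h, n + 1) := dif_pos h
        rw [dif_pos h, h1, Option.elim_some, hT, Th_single]
      · have h1 : (bS G e).g (y, n) = none := dif_neg h
        rw [dif_neg h, h1, Option.elim_none, map_zero]
    | ghost e =>
      show Th G ((rho ℂ G ((LPA.family ℂ G).t e)).ap _) = star (op (bS G e)) _
      rw [star_op, LPA.rho_t, opT_single, Th_single, op_del]
      by_cases h : y.edg 0 = some e
      · have h1 : (bS G e).inv.g (y, n) = some (y.shift, n - 1) := if_pos h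
        rw [if_pos h, h1, Option.elim_some, hT, Th_single]; rfl
      · have h1 : (bS G e).inv.g (y, n) = none := if_neg h
        rw [if_neg h, h1, Option.elim_none, map_zero]

theorem Th_intertwines (a : LPA ℂ G) (v : VV ℂ G) :
    Th G ((rho ℂ G a).ap v) = (LPA.lift (K := ℂ) (l2Family G).toLeavitt a) (Th G v) := by
  induction a using LPA.induction generalizing v with
  | hgen x => rw [Th_gen, LPA.lift_gen]
  | hadd a b ha hb =>
    rw [map_add, EE.add_ap, map_add, ha, hb, map_add]; rfl
  | hzero => simp [EE.zero_ap]
  | hmul a b ha hb => rw [map_mul, EE.mul_ap, ha, hb, map_mul]; rfl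
  | hsmul r a ha => rw [map_smul, EE.smul_ap, map_smul, ha, map_smul]; rfl

theorem l2_injective : Function.Injective (LPA.lift (K := ℂ) (l2Family G).toLeavitt) := by
  intro a b h
  apply LPA.rho_injective
  apply ee_ext
  intro x
  apply Th_injective
  rw [Th_intertwines, Th_intertwines, h]

theorem CStar.can_injective : Function.Injective (CStar.can G) := by
  intro a b h
  apply l2_injective
  have h1 : ∀ c : LPA ℂ G, CStar.lift (l2Family G) (CStar.can G c)
      = LPA.lift (K := ℂ) (l2Family G).toLeavitt c := by
    intro c
    have h2 : ((CStar.lift (l2Family G) : CStar G →⋆ₙₐ[ℂ] _) : CStar G →ₙₐ[ℂ] _).comp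
        (CStar.can G) = LPA.lift (K := ℂ) (l2Family G).toLeavitt := by
      apply LPA.hom_ext
      rw [LPA.lift_family]
      have h3 : (LPA.family ℂ G).map (((CStar.lift (l2Family G) : CStar G →⋆ₙₐ[ℂ] _) :
          CStar G →ₙₐ[ℂ] _).comp (CStar.can G))
          = ((LPA.family ℂ G).map (CStar.can G)).map (CStar.lift (l2Family G)) := rfl
      have h4 : (LPA.family ℂ G).map (CStar.can G) = (CStar.family G).toLeavitt :=
        LPA.lift_family (K := ℂ) (CStar.family G).toLeavitt
      rw [h3, h4, ← CKFamily.toLeavitt_map, CStar.lift_family]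
    exact DFunLike.congr_fun h2 c
  rw [← h1, ← h1, h]

end family

end Pool.Agent.Helper665_GA
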