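import Pool.Agent.Helper665_GA.Defs

/-!
# The Leavitt path algebra of a graph (helper665)
-/

namespace Pool.Agent.Helper665_GA

/-- The generators of the Leavitt path algebra: vertices, edges, ghost edges. -/
inductive Gen (G : Graph) : Type
  | vert (v : G.V) : Gen G
  | edge (e : G.E) : Gen G
  | ghost (e : G.E) : Gen G

open FreeAlgebra in
/-- The defining relations of the Leavitt path algebra. -/
inductive Rel (K : Type*) [CommRing K] (G : Graph) :
    FreeAlgebra K (Gen G) → FreeAlgebra K (Gen G) → Prop
  | vert_self (v : G.V) : Rel K G (ι K (Gen.vert v) * ι K (Gen.vert v)) (ι K (Gen.vert v))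
  | vert_ne (v w : G.V) (h : v ≠ w) : Rel K G (ι K (Gen.vert v) * ι K (Gen.vert w)) 0
  | src_mul (e : G.E) :
      Rel K G (ι K (Gen.vert (G.src e)) * ι K (Gen.edge e)) (ι K (Gen.edge e))
  | mul_rng (e : G.E) :
      Rel K G (ι K (Gen.edge e) * ι K (Gen.vert (G.rng e))) (ι K (Gen.edge e))
  | rng_mul (e : G.E) :
      Rel K G (ι K (Gen.vert (G.rng e)) * ι K (Gen.ghost e)) (ι K (Gen.ghost e))
  | mul_src (e : G.E) :
      Rel K G (ι K (Gen.ghost e) * ι K (Gen.vert (G.src e))) (ι K (Gen.ghost e))
  | ghost_self (e : G.E) :
      Rel K G (ι K (Gen.ghost e) * ι K (Gen.edge e)) (ι K (Gen.vert (G.rng e)))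
  | ghost_ne (e f : G.E) (h : e ≠ f) : Rel K G (ι K (Gen.ghost e) * ι K (Gen.edge f)) 0
  | sum (v : G.V) (S : Finset G.E) (hS : S.Nonempty) (h : ∀ e, e ∈ S ↔ G.src e = v) :
      Rel K G (∑ e ∈ S, ι K (Gen.edge e) * ι K (Gen.ghost e)) (ι K (Gen.vert v))

/-- The unital algebra with the presentation of the Leavitt path algebra. -/
abbrev ULPA (K : Type*) [CommRing K] (G : Graph) : Type _ := RingQuot (Rel K G)

/-- The generators in the presented algebra. -/
def ugen (K : Type*) [CommRing K] (G : Graph) (x : Gen G) : ULPA K G :=
  RingQuot.mkAlgHom K (Rel K G) (FreeAlgebra.ι K x)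

/-- The (not necessarily unital) subalgebra generated by the vertices, edges and ghost edges
inside the unital algebra with the same presentation. -/
def LPASub (K : Type*) [CommRing K] (G : Graph) : NonUnitalSubalgebra K (ULPA K G) :=
  NonUnitalAlgebra.adjoin K (Set.range (ugen K G))

/-- The Leavitt path algebra `L_K(G)`: the (not necessarily unital) algebra generated by the
vertices, edges and ghost edges inside the unital algebra with the same presentation. -/
def LPA (K : Type*) [CommRing K] (G : Graph) : Type _ := LPASub K G

instance (K : Type*) [CommRing K] (G : Graph) : NonUnitalRing (LPA K G) :=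
  inferInstanceAs (NonUnitalRing (LPASub K G))

instance (K : Type*) [CommRing K] (G : Graph) : Module K (LPA K G) :=
  inferInstanceAs (Module K (LPASub K G))

instance (K : Type*) [CommRing K] (G : Graph) : IsScalarTower K (LPA K G) (LPA K G) :=
  inferInstanceAs (IsScalarTower K (LPASub K G) (LPASub K G))

instance (K : Type*) [CommRing K] (G : Graph) : SMulCommClass K (LPA K G) (LPA K G) :=
  inferInstanceAs (SMulCommClass K (LPASub K G) (LPASub K G))

namespace LPA

variable (K : Type*) [CommRing K] (G : Graph)

/-- The inclusion into the unital algebra with the same presentation. -/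
def val : LPA K G →ₙₐ[K] ULPA K G := NonUnitalSubalgebraClass.subtype (LPASub K G)

theorem val_injective : Function.Injective (val K G) := Subtype.val_injective

theorem ugen_mem (x : Gen G) : ugen K G x ∈ LPASub K G :=
  NonUnitalAlgebra.subset_adjoin K ⟨x, rfl⟩

/-- The generators as elements of the Leavitt path algebra. -/
def gen (x : Gen G) : LPA K G := (⟨ugen K G x, ugen_mem K G x⟩ : LPASub K G)

@[simp] theorem val_gen (x : Gen G) : val K G (gen K G x) = ugen K G x := rfl

variable {K G} in
/-- Induction on elements of the Leavitt path algebra. -/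
theorem induction {P : LPA K G → Prop} (hgen : ∀ x, P (gen K G x))
    (hadd : ∀ a b, P a → P b → P (a + b)) (hzero : P 0)
    (hmul : ∀ a b, P a → P b → P (a * b)) (hsmul : ∀ (r : K) a, P a → P (r • a))
    (a : LPA K G) : P a := by
  have key : ∀ (a : ULPA K G) (ha : a ∈ LPASub K G), P (⟨a, ha⟩ : LPASub K G) := by
    intro a ha
    induction ha using NonUnitalAlgebra.adjoin_induction with
    | mem x hx =>
      obtain ⟨y, rfl⟩ := hx
      exact hgen y
    | add x y hx' hy' hx hy => exact hadd _ _ hx hy
    | zero => exact hzero
    | mul x y hx' hy' hx hy => exact hmul _ _ hx hy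
    | smul r x hx' hx => exact hsmul r _ hx
  exact key a.1 a.2

theorem urel {a b : FreeAlgebra K (Gen G)} (h : Rel K G a b) :
    RingQuot.mkAlgHom K (Rel K G) a = RingQuot.mkAlgHom K (Rel K G) b :=
  RingQuot.mkAlgHom_rel K h

/-- The universal Leavitt family in the presented unital algebra. -/
def ufamily : LeavittFamily G (ULPA K G) where
  p v := ugen K G (Gen.vert v)
  s e := ugen K G (Gen.edge e)
  t e := ugen K G (Gen.ghost e)
  p_mul_self v := by simpa [ugen] using urel K G (Rel.vert_self v)
  p_mul_of_ne v w h := by simpa [ugen] using urel K G (Rel.vert_ne v w h)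
  src_mul e := by simpa [ugen] using urel K G (Rel.src_mul e)
  mul_rng e := by simpa [ugen] using urel K G (Rel.mul_rng e)
  rng_mul e := by simpa [ugen] using urel K G (Rel.rng_mul e)
  mul_src e := by simpa [ugen] using urel K G (Rel.mul_src e)
  ghost_mul_self e := by simpa [ugen] using urel K G (Rel.ghost_self e)
  ghost_mul_of_ne e f h := by simpa [ugen] using urel K G (Rel.ghost_ne e f h)
  sum_eq v S hS h := by simpa [ugen] using urel K G (Rel.sum v S hS h)

/-- The universal Leavitt family in the Leavitt path algebra. -/
def family : LeavittFamily G (LPA K G) where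
  p v := gen K G (Gen.vert v)
  s e := gen K G (Gen.edge e)
  t e := gen K G (Gen.ghost e)
  p_mul_self v := val_injective K G ((ufamily K G).p_mul_self v)
  p_mul_of_ne v w h := val_injective K G ((ufamily K G).p_mul_of_ne v w h)
  src_mul e := val_injective K G ((ufamily K G).src_mul e)
  mul_rng e := val_injective K G ((ufamily K G).mul_rng e)
  rng_mul e := val_injective K G ((ufamily K G).rng_mul e)
  mul_src e := val_injective K G ((ufamily K G).mul_src e)
  ghost_mul_self e := val_injective K G ((ufamily K G).ghost_mul_self e)
  ghost_mul_of_ne e f h := val_injective K G ((ufamily K G).ghost_mul_of_ne e f h)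
  sum_eq v S hS h := by
    apply val_injective K G
    rw [map_sum]
    exact (ufamily K G).sum_eq v S hS h

theorem family_map_val : (family K G).map (val K G) = ufamily K G := rfl

variable {K G}

/-- The value of a Leavitt family on the generators. -/
def _root_.Pool.Agent.Helper665_GA.LeavittFamily.val {A : Type*} [NonUnitalRing A]
    (X : LeavittFamily G A) : Gen G → A
  | Gen.vert v => X.p v
  | Gen.edge e => X.s e
  | Gen.ghost e => X.t e

theorem family_val (x : Gen G) : (family K G).val x = gen K G x := by
  cases x <;> rfl

/-- unital version of the universal property -/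
noncomputable def ulift {A : Type*} [Ring A] [Algebra K A] (X : LeavittFamily G A) :
    ULPA K G →ₐ[K] A :=
  RingQuot.liftAlgHom K ⟨FreeAlgebra.lift K X.val, by
    intro a b h
    induction h with
    | vert_self v => simpa [LeavittFamily.val] using X.p_mul_self v
    | vert_ne v w h => simpa [LeavittFamily.val] using X.p_mul_of_ne v w h
    | src_mul e => simpa [LeavittFamily.val] using X.src_mul e
    | mul_rng e => simpa [LeavittFamily.val] using X.mul_rng e
    | rng_mul e => simpa [LeavittFamily.val] using X.rng_mul e
    | mul_src e => simpa [LeavittFamily.val] using X.mul_src e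
    | ghost_self e => simpa [LeavittFamily.val] using X.ghost_mul_self e
    | ghost_ne e f h => simpa [LeavittFamily.val] using X.ghost_mul_of_ne e f h
    | sum v S hS h => simpa [LeavittFamily.val] using X.sum_eq v S hS h⟩

@[simp] theorem ulift_ugen {A : Type*} [Ring A] [Algebra K A] (X : LeavittFamily G A)
    (x : Gen G) : ulift X (ugen K G x) = X.val x := by
  simp [ulift, ugen]

section lift

variable {A : Type*} [NonUnitalRing A] [Module K A] [IsScalarTower K A A] [SMulCommClass K A A]

/-- The family in the unitization. -/
noncomputable def inrFamily (K : Type*) [CommRing K] {A : Type*} [NonUnitalRing A] [Module K A]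
    [IsScalarTower K A A] [SMulCommClass K A A] (X : LeavittFamily G A) :
    LeavittFamily G (Unitization K A) := X.map (Unitization.inrNonUnitalAlgHom K A)

theorem ulift_fst (X : LeavittFamily G A) (a : LPA K G) :
    (ulift (inrFamily K X) (val K G a)).fst = 0 := by
  induction a using induction with
  | hgen x =>
    rw [val_gen, ulift_ugen]
    cases x <;> rfl
  | hadd x y hx hy => rw [map_add, map_add, Unitization.fst_add, hx, hy, add_zero]
  | hzero => rw [map_zero, map_zero, Unitization.fst_zero]
  | hmul x y hx hy => rw [map_mul, map_mul, Unitization.fst_mul, hx, zero_mul]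
  | hsmul r x hx => rw [map_smul, map_smul, Unitization.fst_smul, hx, smul_zero]

/-- The universal property of the Leavitt path algebra. -/
noncomputable def lift (X : LeavittFamily G A) : LPA K G →ₙₐ[K] A where
  toFun a := (ulift (inrFamily K X) (val K G a)).snd
  map_smul' r a := by
    rw [map_smul, map_smul, Unitization.snd_smul]; rfl
  map_zero' := by
    rw [map_zero, map_zero, Unitization.snd_zero]
  map_add' a b := by
    rw [map_add, map_add, Unitization.snd_add]
  map_mul' a b := by
    rw [map_mul, map_mul, Unitization.snd_mul, ulift_fst X a, ulift_fst X b]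
    simp

@[simp] theorem lift_gen (X : LeavittFamily G A) (x : Gen G) :
    lift X (gen K G x) = X.val x := by
  show (ulift (inrFamily K X) (ugen K G x)).snd = _
  rw [ulift_ugen]
  cases x <;> rfl

theorem lift_family (X : LeavittFamily G A) : (family K G).map (lift (K := K) X) = X := by
  ext x
  · exact lift_gen X (Gen.vert x)
  · exact lift_gen X (Gen.edge x)
  · exact lift_gen X (Gen.ghost x)

omit [IsScalarTower K A A] [SMulCommClass K A A] in
theorem hom_ext {f g : LPA K G →ₙₐ[K] A} (h : (family K G).map f = (family K G).map g) :
    f = g := by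
  have hgen : ∀ x, f (gen K G x) = g (gen K G x) := by
    intro x
    cases x with
    | vert v => exact congrFun (congrArg LeavittFamily.p h) v
    | edge e => exact congrFun (congrArg LeavittFamily.s h) e
    | ghost e => exact congrFun (congrArg LeavittFamily.t h) e
  ext a
  induction a using induction with
  | hgen x => exact hgen x
  | hadd x y hx hy => rw [map_add, map_add, hx, hy]
  | hzero => rw [map_zero, map_zero]
  | hmul x y hx hy => rw [map_mul, map_mul, hx, hy]
  | hsmul r x hx => rw [map_smul, map_smul, hx]

end lift

end LPA

end Pool.Agent.Helper665_GA
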