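import Mathlib

/-!
# Laurent polynomials over a field: units, idempotent matrices, evaluation (helper665)
-/

namespace Pool.Agent.Helper665_GA

open LaurentPolynomial

/-- Units of the Laurent polynomial ring are monomials. -/
theorem laurent_unit {K : Type*} [Field K] {f h : K[T;T⁻¹]} (hfh : f * h = 1) :
    ∃ (c : K) (n : ℤ), c ≠ 0 ∧ f = c • T n := by
  classical
  have hf : f ≠ 0 := by rintro rfl; simp at hfh
  have hh : h ≠ 0 := by rintro rfl; simp at hfh
  have hf' : f.coeff.support.Nonempty := by
    rw [Finsupp.support_nonempty_iff]; simpa using hf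
  have hh' : h.coeff.support.Nonempty := by
    rw [Finsupp.support_nonempty_iff]; simpa using hh
  by_cases hc : 1 < f.coeff.support.card * h.coeff.support.card
  · exfalso
    obtain ⟨p1, hp1, p2, hp2, hne, h1, h2⟩ := TwoUniqueSums.uniqueAdd_of_one_lt_card hc
    rw [Finset.mem_product] at hp1 hp2
    have e1 := AddMonoidAlgebra.coeff_mul_add_of_uniqueAdd h1
    have e2 := AddMonoidAlgebra.coeff_mul_add_of_uniqueAdd h2
    rw [hfh] at e1 e2
    have n1 : f.coeff p1.1 * h.coeff p1.2 ≠ 0 :=
      mul_ne_zero (Finsupp.mem_support_iff.1 hp1.1) (Finsupp.mem_support_iff.1 hp1.2)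
    have n2 : f.coeff p2.1 * h.coeff p2.2 ≠ 0 :=
      mul_ne_zero (Finsupp.mem_support_iff.1 hp2.1) (Finsupp.mem_support_iff.1 hp2.2)
    have hone : ∀ n : ℤ, (1 : K[T;T⁻¹]).coeff n ≠ 0 → n = 0 := by
      intro n hn
      by_contra hc
      apply hn
      have : (1 : K[T;T⁻¹]).coeff = Finsupp.single 0 1 := rfl
      rw [this, Finsupp.single_apply, if_neg (fun h => hc h.symm)]
    have z1 := hone _ (by rw [e1]; exact n1)
    have z2 := hone _ (by rw [e2]; exact n2)
    have := h1 hp2.1 hp2.2 (by rw [z1, z2])
    exact hne (Prod.ext this.1.symm this.2.symm)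
  · have h1 : f.coeff.support.card = 1 := by
      have a1 := Finset.card_pos.2 hf'
      have a2 := Finset.card_pos.2 hh'
      have : f.coeff.support.card ≤ f.coeff.support.card * h.coeff.support.card :=
        Nat.le_mul_of_pos_right _ a2
      omega
    obtain ⟨n, hn⟩ := Finset.card_eq_one.1 h1
    refine ⟨f.coeff n, n, ?_, ?_⟩
    · rw [← Finsupp.mem_support_iff, hn]; exact Finset.mem_singleton_self n
    · ext k
      rw [AddMonoidAlgebra.coeff_smul, Finsupp.smul_apply, T_apply, smul_eq_mul]
      split_ifs with hk
      · rw [hk, mul_one]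
      · rw [mul_zero]
        by_contra hc
        have : k ∈ f.coeff.support := Finsupp.mem_support_iff.2 hc
        rw [hn, Finset.mem_singleton] at this
        exact hk this.symm

/-- The Laurent polynomial ring over a field is a principal ideal ring. -/
instance laurent_pid (K : Type*) [Field K] : IsPrincipalIdealRing K[T;T⁻¹] := by
  constructor
  intro I
  have h1 := IsLocalization.map_under (Submonoid.powers (Polynomial.X : Polynomial K)) K[T;T⁻¹] I
  obtain ⟨a, ha⟩ := IsPrincipalIdealRing.principal (Ideal.under (Polynomial K) I)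
  refine ⟨algebraMap (Polynomial K) K[T;T⁻¹] a, ?_⟩
  rw [← h1]
  have : Ideal.under (Polynomial K) I = Ideal.span {a} := ha
  rw [this, Ideal.map_span, Set.image_singleton]

/-- Idempotent matrices over a principal ideal domain split. -/
theorem exists_split {R : Type*} [CommRing R] [IsDomain R] [IsPrincipalIdealRing R] {n : Type*}
    [Fintype n] [DecidableEq n] (C : Matrix n n R) (hC : C * C = C) :
    ∃ (r : ℕ) (A : Matrix n (Fin r) R) (A' : Matrix (Fin r) n R), A * A' = C ∧ A' * A = 1 := by
  set P : Submodule R (n → R) := LinearMap.range C.mulVecLin with hP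
  let b := Module.finBasis R P
  let A : Matrix n (Fin (Module.finrank R P)) R := fun i k => (b k : n → R) i
  let A' : Matrix (Fin (Module.finrank R P)) n R := fun k j =>
    b.repr ⟨C.mulVec (Pi.single j 1), ⟨Pi.single j 1, rfl⟩⟩ k
  have hCb : ∀ x : P, C.mulVec (x : n → R) = x := by
    rintro ⟨x, ⟨y, rfl⟩⟩
    show C.mulVec (C.mulVec y) = C.mulVec y
    rw [Matrix.mulVec_mulVec, hC]
  have h1 : A * A' = C := by
    ext i j
    have h2 := b.sum_repr ⟨C.mulVec (Pi.single j 1), ⟨Pi.single j 1, rfl⟩⟩
    have h3 := congrFun (congrArg Subtype.val h2) i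
    rw [Submodule.coe_sum, Finset.sum_apply] at h3
    have h4 : (C.mulVec (Pi.single j 1)) i = C i j := by
      rw [Matrix.mulVec_single_one]; rfl
    rw [Matrix.mul_apply, ← h4]
    refine Eq.trans ?_ h3
    apply Finset.sum_congr rfl
    intro k _
    exact mul_comm _ _
  refine ⟨_, A, A', h1, ?_⟩
  have hinj : ∀ M N : Matrix (Fin (Module.finrank R P)) (Fin (Module.finrank R P)) R,
      A * M = A * N → M = N := by
    intro M N h
    ext k l
    have h5 : ∑ k, M k l • b k = ∑ k, N k l • b k := by
      apply Subtype.ext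
      rw [Submodule.coe_sum, Submodule.coe_sum]
      ext i
      rw [Finset.sum_apply, Finset.sum_apply]
      have h6 := congrFun (congrFun h i) l
      rw [Matrix.mul_apply, Matrix.mul_apply] at h6
      refine Eq.trans ?_ (h6.trans ?_)
      · apply Finset.sum_congr rfl
        intro k _
        exact mul_comm _ _
      · apply Finset.sum_congr rfl
        intro k _
        exact mul_comm _ _
    have h7 := congrArg (fun x => b.repr x k) h5
    simp only [b.repr_sum_self] at h7
    exact h7
  apply hinj
  rw [← Matrix.mul_assoc, h1, Matrix.mul_one]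
  ext i k
  rw [Matrix.mul_apply]
  exact congrFun (hCb (b k)) i

/-- The Laurent polynomials are infinite dimensional. -/
theorem laurent_not_finite (K : Type*) [Field K] : ¬ Module.Finite K K[T;T⁻¹] := by
  intro h
  have h1 : LinearIndependent K (fun n : ℤ => (T n : K[T;T⁻¹])) := by
    rw [linearIndependent_iff']
    intro s g hg n hn
    have h2 := congrArg (fun f : K[T;T⁻¹] => f.coeff n) hg
    simp only [AddMonoidAlgebra.coeff_sum, AddMonoidAlgebra.coeff_smul, AddMonoidAlgebra.coeff_zero,
      Finsupp.coe_zero, Pi.zero_apply] at h2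
    rw [Finsupp.finsetSum_apply, Finset.sum_eq_single_of_mem n hn] at h2
    · simpa using h2
    · intro m _ hm
      rw [Finsupp.smul_apply, T_apply, if_neg hm, smul_zero]
  have h2 := h1.finite
  exact not_finite ℤ

section ev

/-- An invertible element of a corner of a ring. -/
structure CornerUnit (A : Type*) [NonUnitalRing A] where
  /-- the idempotent -/
  q : A
  /-- the element -/
  x : A
  /-- its inverse -/
  y : A
  qq : q * q = q
  qx : q * x = x
  yq : y * q = y
  xy : x * y = q
  yx : y * x = q

namespace CornerUnit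

variable {K : Type*} [Field K] {A : Type*} [NonUnitalRing A] [Module K A] [IsScalarTower K A A]
  [SMulCommClass K A A] (c : CornerUnit A)

omit [Module K A] [IsScalarTower K A A] [SMulCommClass K A A] in
theorem xq : c.x * c.q = c.x := by rw [← c.yx, ← mul_assoc, c.xy, c.qx]

omit [Module K A] [IsScalarTower K A A] [SMulCommClass K A A] in
theorem qy : c.q * c.y = c.y := by rw [← c.yx, mul_assoc, c.xy, c.yq]

/-- The unit of the unitization. -/
noncomputable def unit (K : Type*) [Field K] {A : Type*} [NonUnitalRing A] [Module K A]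
    [IsScalarTower K A A] [SMulCommClass K A A] (c : CornerUnit A) : (Unitization K A)ˣ where
  val := (c.x : Unitization K A) + (1 - (c.q : Unitization K A))
  inv := (c.y : Unitization K A) + (1 - (c.q : Unitization K A))
  val_inv := by
    have h1 : (c.x : Unitization K A) * c.q = c.x := by rw [← Unitization.inr_mul, c.xq]
    have h2 : (c.q : Unitization K A) * c.y = c.y := by rw [← Unitization.inr_mul, c.qy]
    have h3 : (c.q : Unitization K A) * c.q = c.q := by rw [← Unitization.inr_mul, c.qq]
    have h4 : (c.x : Unitization K A) * c.y = c.q := by rw [← Unitization.inr_mul, c.xy]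
    simp only [add_mul, mul_add, mul_sub, sub_mul, h1, h2, h4, mul_one, one_mul, h3]
    abel
  inv_val := by
    have h1 : (c.y : Unitization K A) * c.q = c.y := by rw [← Unitization.inr_mul, c.yq]
    have h2 : (c.q : Unitization K A) * c.x = c.x := by rw [← Unitization.inr_mul, c.qx]
    have h3 : (c.q : Unitization K A) * c.q = c.q := by rw [← Unitization.inr_mul, c.qq]
    have h4 : (c.y : Unitization K A) * c.x = c.q := by rw [← Unitization.inr_mul, c.yx]
    simp only [add_mul, mul_add, mul_sub, sub_mul, h1, h2, h4, mul_one, one_mul, h3]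
    abel

theorem q_unit : (c.q : Unitization K A) * (c.unit K : (Unitization K A)ˣ) = c.x := by
  show (c.q : Unitization K A) * ((c.x : Unitization K A) + (1 - (c.q : Unitization K A))) = _
  rw [mul_add, mul_sub, mul_one, ← Unitization.inr_mul, ← Unitization.inr_mul, c.qx, c.qq,
    sub_self, add_zero]

theorem unit_q : ((c.unit K : (Unitization K A)ˣ) : Unitization K A) * c.q = c.x := by
  show ((c.x : Unitization K A) + (1 - (c.q : Unitization K A))) * (c.q : Unitization K A) = _
  rw [add_mul, sub_mul, one_mul, ← Unitization.inr_mul, ← Unitization.inr_mul, c.xq, c.qq,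
    sub_self, add_zero]

theorem q_unit_inv : (c.q : Unitization K A) * ((c.unit K)⁻¹ : (Unitization K A)ˣ) = c.y := by
  show (c.q : Unitization K A) * ((c.y : Unitization K A) + (1 - (c.q : Unitization K A))) = _
  rw [mul_add, mul_sub, mul_one, ← Unitization.inr_mul, ← Unitization.inr_mul, c.qy, c.qq,
    sub_self, add_zero]

/-- The powers. -/
noncomputable def pw (K : Type*) [Field K] {A : Type*} [NonUnitalRing A] [Module K A]
    [IsScalarTower K A A] [SMulCommClass K A A] (c : CornerUnit A) (n : ℤ) : A :=
  ((c.q : Unitization K A) * ((c.unit K ^ n : (Unitization K A)ˣ) : Unitization K A)).snd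

theorem inr_pw (n : ℤ) : ((c.pw K n : A) : Unitization K A)
    = (c.q : Unitization K A) * ((c.unit K ^ n : (Unitization K A)ˣ) : Unitization K A) := by
  ext
  · rw [Unitization.fst_mul, Unitization.fst_inr, Unitization.fst_inr, zero_mul]
  · rfl

theorem pw_add (m n : ℤ) : c.pw K (m + n) = c.pw K m * c.pw K n := by
  apply Unitization.inr_injective (R := K)
  rw [Unitization.inr_mul, inr_pw, inr_pw, inr_pw, zpow_add, Units.val_mul]
  have h1 : Commute (c.q : Unitization K A) ((c.unit K : (Unitization K A)ˣ) : Unitization K A) :=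
    (c.q_unit).trans (c.unit_q).symm
  have h2 : Commute (c.q : Unitization K A)
      ((c.unit K ^ m : (Unitization K A)ˣ) : Unitization K A) := h1.units_zpow_right m
  have h3 : (c.q : Unitization K A) * c.q = c.q := by rw [← Unitization.inr_mul, c.qq]
  calc (c.q : Unitization K A) * (((c.unit K ^ m : (Unitization K A)ˣ) : Unitization K A)
        * ((c.unit K ^ n : (Unitization K A)ˣ) : Unitization K A))
      = (c.q : Unitization K A) * ((c.q : Unitization K A)
        * ((c.unit K ^ m : (Unitization K A)ˣ) : Unitization K A)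
        * ((c.unit K ^ n : (Unitization K A)ˣ) : Unitization K A)) := by
        rw [← mul_assoc, ← mul_assoc, ← mul_assoc, h3]
    _ = (c.q : Unitization K A) * (((c.unit K ^ m : (Unitization K A)ˣ) : Unitization K A)
        * (c.q : Unitization K A)
        * ((c.unit K ^ n : (Unitization K A)ˣ) : Unitization K A)) := by rw [h2.eq]
    _ = _ := by simp only [mul_assoc]

theorem pw_zero : c.pw K 0 = c.q := by
  apply Unitization.inr_injective (R := K)
  rw [inr_pw, zpow_zero, Units.val_one, mul_one]

theorem pw_one : c.pw K 1 = c.x := by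
  apply Unitization.inr_injective (R := K)
  rw [inr_pw, zpow_one, q_unit]

theorem pw_neg_one : c.pw K (-1) = c.y := by
  apply Unitization.inr_injective (R := K)
  rw [inr_pw, zpow_neg, zpow_one, q_unit_inv]

/-- The evaluation of Laurent polynomials. -/
noncomputable def ev (K : Type*) [Field K] {A : Type*} [NonUnitalRing A] [Module K A]
    [IsScalarTower K A A] [SMulCommClass K A A] (c : CornerUnit A) : K[T;T⁻¹] →ₙₐ[K] A :=
  AddMonoidAlgebra.liftMagma K
    { toFun := fun n => c.pw K (Multiplicative.toAdd n)
      map_mul' := fun _ _ => c.pw_add _ _ }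

theorem ev_T (n : ℤ) : c.ev K (T n) = c.pw K n := by
  unfold ev
  rw [AddMonoidAlgebra.liftMagma_apply_apply]
  show (Finsupp.single n (1 : K)).sum _ = _
  rw [Finsupp.sum_single_index]
  · simp
  · simp

theorem ev_one : c.ev K 1 = c.q := by
  rw [← T_zero, ev_T, pw_zero]

theorem ev_T_one : c.ev K (T 1) = c.x := by rw [ev_T, pw_one]

theorem ev_T_neg_one : c.ev K (T (-1)) = c.y := by rw [ev_T, pw_neg_one]

end CornerUnit

variable {K : Type*} [Field K] {A : Type*} [NonUnitalRing A] [Module K A] [IsScalarTower K A A]
  [SMulCommClass K A A]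

omit [IsScalarTower K A A] [SMulCommClass K A A] in
theorem laurent_induction {P : K[T;T⁻¹] → Prop} (h1 : P 1) (hT : ∀ f, P f → P (f * T 1))
    (hT' : ∀ f, P f → P (f * T (-1))) (hadd : ∀ f g, P f → P g → P (f + g))
    (hsmul : ∀ (r : K) f, P f → P (r • f)) (f : K[T;T⁻¹]) : P f := by
  have hTn : ∀ n : ℤ, P (T n) := by
    intro n
    induction n using Int.induction_on with
    | zero => rw [T_zero]; exact h1
    | succ n ih => rw [T_add]; exact hT _ ih
    | pred n ih => rw [T_sub]; exact hT' _ ih
  induction f using LaurentPolynomial.induction_on' with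
  | add p q hp hq => exact hadd p q hp hq
  | C_mul_T n a =>
    rw [← smul_eq_C_mul]
    exact hsmul _ _ (hTn n)

omit [IsScalarTower K A A] [SMulCommClass K A A] in
theorem laurent_hom_ext {f g : K[T;T⁻¹] →ₙₐ[K] A} (h1 : f 1 = g 1) (hT : f (T 1) = g (T 1))
    (hT' : f (T (-1)) = g (T (-1))) : f = g := by
  apply NonUnitalAlgHom.ext
  intro a
  induction a using laurent_induction with
  | h1 => exact h1
  | hT a ha => rw [map_mul, map_mul, ha, hT]
  | hT' a ha => rw [map_mul, map_mul, ha, hT']
  | hadd a b ha hb => rw [map_add, map_add, ha, hb]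
  | hsmul r a ha => rw [map_smul, map_smul, ha]

omit [IsScalarTower K A A] [SMulCommClass K A A] in
theorem laurent_mem (g : K[T;T⁻¹] →ₙₐ[K] A) (S : NonUnitalSubalgebra K A) (h1 : g 1 ∈ S)
    (hT : g (T 1) ∈ S) (hT' : g (T (-1)) ∈ S) (a : K[T;T⁻¹]) : g a ∈ S := by
  induction a using laurent_induction with
  | h1 => exact h1
  | hT a ha => rw [map_mul]; exact mul_mem ha hT
  | hT' a ha => rw [map_mul]; exact mul_mem ha hT'
  | hadd a b ha hb => rw [map_add]; exact add_mem ha hb
  | hsmul r a ha => rw [map_smul]; exact S.smul_mem _ ha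

end ev

end Pool.Agent.Helper665_GA
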