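import Pool.Agent.Helper665_GA.Extend

/-!
# The back-and-forth construction of a star isomorphism (helper665)
-/

namespace Pool.Agent.Helper665_GA

set_option linter.unusedSectionVars false

variable {K : Type*} [Field K] [StarRing K]
  {A : Type*} [NonUnitalRing A] [StarRing A] [Module K A]
  [IsScalarTower K A A] [SMulCommClass K A A] [StarModule K A]
  {B : Type*} [NonUnitalRing B] [StarRing B] [Module K B]
  [IsScalarTower K B B] [SMulCommClass K B B] [StarModule K B]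

namespace MU

/-- Swapping the components. -/
def swap (P : MU (A × B)) : MU (B × A) where
  ι := P.ι
  W := P.W
  blk := P.blk
  m := fun i j => (P.m i j).swap
  off := fun i j h => by rw [P.off i j h]; rfl
  mul_ne := fun i j k l h => by
    have h1 := P.mul_ne i j k l h
    rw [← Prod.swap_mul, h1]; rfl
  mul_eq := fun i j k h h' => by
    rw [← Prod.swap_mul, P.mul_eq i j k h h']
  star_m := fun i j => by
    rw [← P.star_m i j]; rfl
  ne_zero := fun i h => P.ne_zero i (by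
    have h1 := congrArg Prod.swap h
    rw [Prod.swap_swap] at h1
    rw [h1]; rfl)

theorem swap_mem (P : MU (A × B)) {x : A × B} (hx : x ∈ P.alg K) : x.swap ∈ P.swap.alg K := by
  obtain ⟨C, hC, rfl⟩ := hx
  refine ⟨C, hC, ?_⟩
  have h1 : P.swap.Φ C = (P.Φ C).swap := by
    apply Prod.ext
    · unfold Φ
      rw [Prod.fst_swap, Prod.snd_sum, Prod.fst_sum]
      apply Finset.sum_congr rfl
      intro i _
      rw [Prod.snd_sum, Prod.fst_sum]
      rfl
    · unfold Φ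
      rw [Prod.snd_swap, Prod.snd_sum, Prod.fst_sum]
      apply Finset.sum_congr rfl
      intro i _
      rw [Prod.snd_sum, Prod.fst_sum]
      rfl
  exact h1

end MU

variable {DA : StdData K A} {DB : StdData K B} {φ : A →ₙₐ[K] B} {ψ : B →ₙₐ[K] A}

namespace Stg

/-- Swapping the components. -/
def swap (hl : ∀ a, ψ (φ a) = a) (s : Stg DA DB φ) : Stg DB DA ψ where
  P := s.P.swap
  sa := s.sb
  sb := s.sa
  eqv := fun i => by
    have h1 := (s.eqv i).map ψ
    rw [hl] at h1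
    exact h1.symm

theorem exists_step (hl : ∀ a, ψ (φ a) = a) (hr : ∀ b, φ (ψ b) = b) (s : Stg DA DB φ) (a : A)
    (b : B) (p : A) (hp : p ∈ DA.S) (hpp : p * p = p) :
    ∃ t : Stg DA DB φ, s.P.alg K ≤ t.P.alg K ∧ (∃ b, (a, b) ∈ t.P.alg K) ∧
      (∃ a, (a, b) ∈ t.P.alg K) ∧ ∃ q ∈ DB.S, (p, q) ∈ t.P.alg K ∧ IEq (φ p) q := by
  obtain ⟨t1, h1, h2, h3⟩ := s.exists_extend a p hp hpp
  obtain ⟨t2, h4, ⟨a', h5⟩, -⟩ := (t1.swap hl).exists_extend b 0 DB.zero_mem (mul_zero 0)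
  have h6 : t1.P.alg K ≤ (t2.swap hr).P.alg K := by
    apply t1.P.alg_le
    intro i j
    have h7 := t2.P.swap_mem (h4 i j)
    exact h7
  refine ⟨t2.swap hr, (s.P.alg_le h1).trans h6, ?_, ⟨a', ?_⟩, ?_⟩
  · obtain ⟨b', h7⟩ := h2
    exact ⟨b', h6 h7⟩
  · exact t2.P.swap_mem h5
  · obtain ⟨q, h7, h8, h9⟩ := h3
    exact ⟨q, h7, h6 h8, h9⟩

variable (DA DB φ) in
/-- The empty stage. -/
def empty : Stg DA DB φ where
  P :=
    { ι := Empty
      W := Empty
      blk := id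
      m := fun i _ => i.elim
      off := fun i => i.elim
      mul_ne := fun i => i.elim
      mul_eq := fun i => i.elim
      star_m := fun i => i.elim
      ne_zero := fun i => i.elim }
  sa := fun i => i.elim
  sb := fun i => i.elim
  eqv := fun i => i.elim

end Stg

/-- The graph of a star isomorphism. -/
theorem exists_hom_of_graph (G : NonUnitalSubalgebra K (A × B)) (hs : ∀ x ∈ G, star x ∈ G)
    (h1 : ∀ a, ∃ b, (a, b) ∈ G) (h2 : ∀ b, ∃ a, (a, b) ∈ G)
    (i1 : ∀ x ∈ G, x.1 = 0 → x.2 = 0) (i2 : ∀ x ∈ G, x.2 = 0 → x.1 = 0) :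
    ∃ (θ : A →⋆ₙₐ[K] B) (θ' : B →⋆ₙₐ[K] A), (∀ x, θ' (θ x) = x) ∧ (∀ y, θ (θ' y) = y) ∧
      ∀ a b, (a, b) ∈ G → θ a = b := by
  choose f hf using h1
  choose g hg using h2
  have u1 : ∀ {a b b'}, (a, b) ∈ G → (a, b') ∈ G → b = b' := by
    intro a b b' h h'
    exact sub_eq_zero.1 (i1 _ (sub_mem h h') (sub_self a))
  have u2 : ∀ {a a' b}, (a, b) ∈ G → (a', b) ∈ G → a = a' := by
    intro a a' b h h'
    exact sub_eq_zero.1 (i2 _ (sub_mem h h') (sub_self b))
  refine ⟨{ toFun := f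
            map_smul' := fun r x => u1 (hf _) (G.smul_mem r (hf x))
            map_zero' := u1 (hf _) (zero_mem G)
            map_add' := fun x y => u1 (hf _) (add_mem (hf x) (hf y))
            map_mul' := fun x y => u1 (hf _) (mul_mem (hf x) (hf y))
            map_star' := fun x => u1 (hf _) (hs _ (hf x)) },
    { toFun := g
      map_smul' := fun r x => u2 (hg _) (G.smul_mem r (hg x))
      map_zero' := u2 (hg _) (zero_mem G)
      map_add' := fun x y => u2 (hg _) (add_mem (hg x) (hg y))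
      map_mul' := fun x y => u2 (hg _) (mul_mem (hg x) (hg y))
      map_star' := fun x => u2 (hg _) (hs _ (hg x)) }, fun x => ?_, fun y => ?_, fun a b h => ?_⟩
  · exact u2 (hg _) (hf x)
  · exact u1 (hf _) (hg y)
  · exact u1 (hf _) h

/-- The star isomorphism obtained by back and forth. -/
theorem exists_limit_iso (DA : StdData K A) (DB : StdData K B) {φ : A →ₙₐ[K] B}
    {ψ : B →ₙₐ[K] A} (hl : ∀ a, ψ (φ a) = a) (hr : ∀ b, φ (ψ b) = b) (a : ℕ → A)
    (ha : ∀ N : NonUnitalSubalgebra K A, (∀ n, a n ∈ N) → ∀ x, x ∈ N) (b : ℕ → B)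
    (hb : ∀ N : NonUnitalSubalgebra K B, (∀ n, b n ∈ N) → ∀ x, x ∈ N) (p : ℕ → A)
    (hp : ∀ n, p n ∈ DA.S) (hpp : ∀ n, p n * p n = p n) :
    ∃ (θ : A →⋆ₙₐ[K] B) (θ' : B →⋆ₙₐ[K] A), (∀ x, θ' (θ x) = x) ∧ (∀ y, θ (θ' y) = y) ∧
      ∀ n, θ (p n) ∈ DB.S ∧ IEq (φ (p n)) (θ (p n)) := by
  classical
  choose F hF1 hF2 hF3 hF4 using fun (s : Stg DA DB φ) (n : ℕ) =>
    s.exists_step hl hr (a n) (b n) (p n) (hp n) (hpp n)
  let s : ℕ → Stg DA DB φ := fun n => Nat.rec (Stg.empty DA DB φ) (fun n t => F t n) n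
  have hs : ∀ n, s (n + 1) = F (s n) n := fun n => rfl
  have hmono : Monotone fun n => (s n).P.alg K := by
    apply monotone_nat_of_le_succ
    intro n
    rw [hs]
    exact hF1 _ _
  let G : NonUnitalSubalgebra K (A × B) :=
    { carrier := {x | ∃ n, x ∈ (s n).P.alg K}
      add_mem' := by
        rintro x y ⟨n, hn⟩ ⟨m, hm⟩
        exact ⟨max n m, add_mem (hmono (le_max_left _ _) hn) (hmono (le_max_right _ _) hm)⟩
      zero_mem' := ⟨0, zero_mem _⟩
      mul_mem' := by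
        rintro x y ⟨n, hn⟩ ⟨m, hm⟩
        exact ⟨max n m, mul_mem (hmono (le_max_left _ _) hn) (hmono (le_max_right _ _) hm)⟩
      smul_mem' := by
        rintro r x ⟨n, hn⟩
        exact ⟨n, ((s n).P.alg K).smul_mem r hn⟩ }
  have hG : ∀ x, x ∈ G ↔ ∃ n, x ∈ (s n).P.alg K := fun x => Iff.rfl
  have hφ : Function.Injective φ := fun x y h => by rw [← hl x, h, hl]
  have i1 : ∀ x ∈ G, x.1 = 0 → x.2 = 0 := by
    rintro x ⟨n, hn⟩ h
    exact congrArg Prod.snd ((s n).P.fst_inj K (s n).fst_ne hn h)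
  have i2 : ∀ x ∈ G, x.2 = 0 → x.1 = 0 := by
    rintro x ⟨n, hn⟩ h
    have h1 := (s n).P.swap.fst_inj K (fun i => (s n).snd_ne hφ i) ((s n).P.swap_mem hn) h
    exact congrArg Prod.snd h1
  have e1 : ∀ x, ∃ y, (x, y) ∈ G := by
    intro x
    have h1 := ha (G.map (NonUnitalAlgHom.fst K A B)) (fun n => by
      obtain ⟨y, hy⟩ := hF2 (s n) n
      exact ⟨(a n, y), ⟨n + 1, hy⟩, rfl⟩) x
    obtain ⟨z, hz, hz1⟩ := h1
    refine ⟨z.2, ?_⟩
    have : (x, z.2) = z := Prod.ext hz1.symm rfl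
    rw [this]
    exact hz
  have e2 : ∀ y, ∃ x, (x, y) ∈ G := by
    intro y
    have h1 := hb (G.map (NonUnitalAlgHom.snd K A B)) (fun n => by
      obtain ⟨x, hx⟩ := hF3 (s n) n
      exact ⟨(x, b n), ⟨n + 1, hx⟩, rfl⟩) y
    obtain ⟨z, hz, hz1⟩ := h1
    refine ⟨z.1, ?_⟩
    have : (z.1, y) = z := Prod.ext rfl hz1.symm
    rw [this]
    exact hz
  obtain ⟨θ, θ', h1, h2, h3⟩ := exists_hom_of_graph G (by
    rintro x ⟨n, hn⟩
    exact ⟨n, (s n).P.star_mem hn⟩) e1 e2 i1 i2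
  refine ⟨θ, θ', h1, h2, fun n => ?_⟩
  obtain ⟨q, hq1, hq2, hq3⟩ := hF4 (s n) n
  rw [h3 (p n) q ⟨n + 1, hq2⟩]
  exact ⟨hq1, hq3⟩

end Pool.Agent.Helper665_GA
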