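import Pool.Agent.Helper665_GA.Corner

/-!
# Local structure of Leavitt path algebras of graphs whose cycles have no exits (helper665)
-/

namespace Pool.Agent.Helper665_GA

open LaurentPolynomial

namespace LeavittFamily

variable {G : Graph} {A B : Type*} [NonUnitalRing A] [NonUnitalRing B]

theorem map_qv {F : Type*} [FunLike F A B] [NonUnitalRingHomClass F A B] (f : F)
    (X : LeavittFamily G A) (E0 : Finset G.E) (v : G.V) :
    f (X.qv E0 v) = (X.map f).qv E0 v := by
  unfold qv
  rw [map_sub, map_sum]
  congr 1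
  apply Finset.sum_congr rfl
  intro e _
  rw [map_mul]; rfl

theorem qv_base (Y : LeavittFamily G A) (E0 : Finset G.cut.E) {b : G.V} (hb : G.IsBase b) :
    Y.restrict.qv E0 b = Y.p b := by
  classical
  unfold qv
  rw [Finset.sum_eq_zero, sub_zero]
  · rfl
  · intro e he
    exfalso
    apply e.2
    have : G.src e.1 = b := (Finset.mem_filter.1 he).2
    rw [this]
    exact hb

end LeavittFamily

namespace LPA

variable {K : Type*} [Field K] {G : Graph} (hG : G.NoExit)

open Classical in
variable (K) in
/-- The invertible element of a block. -/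
noncomputable def cu (E0 : Finset G.cut.E) (w : G.V) : CornerUnit (LPA K G) :=
  if h : G.IsBase w then (family K G).cub hG h
  else
  { q := (family K G).restrict.qv E0 w
    x := (family K G).restrict.qv E0 w
    y := (family K G).restrict.qv E0 w
    qq := (family K G).restrict.qv_qv w
    qx := (family K G).restrict.qv_qv w
    yq := (family K G).restrict.qv_qv w
    xy := (family K G).restrict.qv_qv w
    yx := (family K G).restrict.qv_qv w }

theorem cu_base (E0 : Finset G.cut.E) {w : G.V} (h : G.IsBase w) :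
    cu K hG E0 w = (family K G).cub hG h := dif_pos h

theorem cu_q (E0 : Finset G.cut.E) (w : G.V) :
    (cu K hG E0 w).q = (family K G).restrict.qv E0 w := by
  by_cases h : G.IsBase w
  · rw [cu_base hG E0 h, LeavittFamily.qv_base _ _ h]; rfl
  · unfold cu
    rw [dif_neg h]

theorem cu_x_nonbase (E0 : Finset G.cut.E) {w : G.V} (h : ¬ G.IsBase w) :
    (cu K hG E0 w).x = (cu K hG E0 w).q := by
  unfold cu
  rw [dif_neg h]

theorem cu_y_nonbase (E0 : Finset G.cut.E) {w : G.V} (h : ¬ G.IsBase w) :
    (cu K hG E0 w).y = (cu K hG E0 w).q := by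
  unfold cu
  rw [dif_neg h]

theorem cu_scalar (E0 : Finset G.cut.E) {w : G.V} (h : ¬ G.IsBase w) (f : K[T;T⁻¹]) :
    ∃ r : K, (cu K hG E0 w).ev K f = r • (cu K hG E0 w).ev K 1 := by
  induction f using laurent_induction with
  | h1 => exact ⟨1, (one_smul _ _).symm⟩
  | hT f hf =>
    obtain ⟨r, hr⟩ := hf
    refine ⟨r, ?_⟩
    rw [map_mul, hr, CornerUnit.ev_T_one, cu_x_nonbase hG E0 h, smul_mul_assoc,
      CornerUnit.ev_one, CornerUnit.qq]
  | hT' f hf =>
    obtain ⟨r, hr⟩ := hf
    refine ⟨r, ?_⟩
    rw [map_mul, hr, CornerUnit.ev_T_neg_one, cu_y_nonbase hG E0 h, smul_mul_assoc,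
      CornerUnit.ev_one, CornerUnit.qq]
  | hadd f g hf hg =>
    obtain ⟨r, hr⟩ := hf
    obtain ⟨s, hs⟩ := hg
    exact ⟨r + s, by rw [map_add, hr, hs, add_smul]⟩
  | hsmul s f hf =>
    obtain ⟨r, hr⟩ := hf
    exact ⟨s * r, by rw [map_smul, hr, mul_smul]⟩

variable (K) in
/-- The block system of a finite subgraph. -/
noncomputable def rsys (E0 : Finset G.cut.E) (V0 : Finset G.V) : RSys K (LPA K G) where
  ι := {x : List G.cut.E × G.V // Valid x.1 x.2 ∧ (∀ e ∈ x.1, e ∈ E0) ∧ x.2 ∈ V0}
  fin := (finite_paths (Graph.acyclic_cut hG) E0 V0).fintype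
  dec := Classical.decEq _
  W := G.V
  decW := Classical.decEq _
  blk x := x.1.2
  row x := (family K G).restrict.sP x.1.1 x.1.2 * (family K G).restrict.qv E0 x.1.2
  col x := (family K G).restrict.qv E0 x.1.2 * (family K G).restrict.tP x.1.1 x.1.2
  ev w := (cu K hG E0 w).ev K
  col_row i j h := by
    have h3 := (family K G).restrict.qv_tP_sP_qv i.2.1 i.2.2.1 j.2.2.1 (v' := j.1.2)
    rw [if_neg] at h3
    · refine Eq.trans ?_ h3
      noncomm_ring
    · rintro ⟨h4, h5⟩
      exact h (Subtype.ext (Prod.ext h4 h5))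
  col_row_self i := by
    have h3 := (family K G).restrict.qv_tP_sP_qv i.2.1 i.2.2.1 i.2.2.1 (v' := i.1.2)
    rw [if_pos ⟨rfl, rfl⟩] at h3
    rw [CornerUnit.ev_one, cu_q]
    refine Eq.trans ?_ h3
    noncomm_ring

theorem inc_sp (l : List G.cut.E) (v : G.V) :
    inc K G (sp K G.cut l v) = (family K G).restrict.sP l v := by
  rw [← inc_family, ← LeavittFamily.map_sP]

theorem inc_tp (l : List G.cut.E) (v : G.V) :
    inc K G (tp K G.cut l v) = (family K G).restrict.tP l v := by
  rw [← inc_family, ← LeavittFamily.map_tP]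

theorem inc_qv (E0 : Finset G.cut.E) (v : G.V) :
    inc K G ((family K G.cut).qv E0 v) = (family K G).restrict.qv E0 v := by
  rw [← inc_family, ← LeavittFamily.map_qv]

theorem mono_mem_rsys {E0 : Finset G.cut.E} {V0 : Finset G.V}
    (hcl : ∀ e ∈ E0, G.cut.rng e ∈ V0) (n : ℕ) : ∀ (l l' : List G.cut.E) (v : G.V),
    (∀ e ∈ l, e ∈ E0) → (∀ e ∈ l', e ∈ E0) → v ∈ V0 → E0.card + 1 ≤ n + l.length →
    (family K G).restrict.sP l v * (family K G).restrict.tP l' v ∈ (rsys K hG E0 V0).alg := by
  classical
  set X := (family K G).restrict with hX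
  induction n with
  | zero =>
    intro l l' v h1 h2 hv hn
    have h3 : ¬ Valid l v := fun h3 => by
      have := h3.length_le (Graph.acyclic_cut hG) h1
      omega
    rw [X.sP_not_valid h3, zero_mul]
    exact zero_mem _
  | succ n ih =>
    intro l l' v h1 h2 hv hn
    by_cases h3 : Valid l v
    · by_cases h4 : Valid l' v
      · have h5 : X.p v = X.qv E0 v
            + ∑ e ∈ E0.filter (fun e => G.cut.src e = v), X.s e * X.t e := by
          rw [LeavittFamily.qv]; abel
        have h6 : X.sP l v * X.tP l' v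
            = X.sP l v * X.qv E0 v * X.tP l' v
              + ∑ e ∈ E0.filter (fun e => G.cut.src e = v), X.sP (l ++ [e]) (G.cut.rng e)
                * X.tP (l' ++ [e]) (G.cut.rng e) := by
          conv_lhs => rw [← X.sP_mul_p l v, h5]
          rw [mul_add, add_mul, Finset.mul_sum, Finset.sum_mul]
          congr 1
          apply Finset.sum_congr rfl
          intro e he
          have he' := (Finset.mem_filter.1 he).2
          rw [X.sP_append l e, X.tP_append l' e, he']
          noncomm_ring
        rw [h6]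
        apply add_mem
        · have h7 := (rsys K hG E0 V0).u_mem (⟨(l, v), h3, h1, hv⟩) (⟨(l', v), h4, h2, hv⟩) 1
          have h8 : (rsys K hG E0 V0).u (⟨(l, v), h3, h1, hv⟩) 1 (⟨(l', v), h4, h2, hv⟩)
              = X.sP l v * X.qv E0 v * ((cu K hG E0 v).ev K 1) *
                (X.qv E0 v * X.tP l' v) := if_pos rfl
          rw [h8, CornerUnit.ev_one, cu_q] at h7
          have h9 : X.sP l v * X.qv E0 v * X.qv E0 v * (X.qv E0 v * X.tP l' v)
              = X.sP l v * X.qv E0 v * X.tP l' v := by
            calc _ = X.sP l v * ((X.qv E0 v * X.qv E0 v) * X.qv E0 v) * X.tP l' v := by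
                  noncomm_ring
              _ = _ := by rw [X.qv_qv, X.qv_qv]
          rw [← h9]
          exact h7
        · apply sum_mem
          intro e he
          rw [Finset.mem_filter] at he
          apply ih
          · intro f hf
            rw [List.mem_append, List.mem_singleton] at hf
            rcases hf with hf | rfl
            · exact h1 f hf
            · exact he.1
          · intro f hf
            rw [List.mem_append, List.mem_singleton] at hf
            rcases hf with hf | rfl
            · exact h2 f hf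
            · exact he.1
          · exact hcl e he.1
          · rw [List.length_append, List.length_singleton]; omega
      · rw [X.tP_not_valid h4, mul_zero]; exact zero_mem _
    · rw [X.sP_not_valid h3, zero_mul]; exact zero_mem _

theorem evb_mem {E0 : Finset G.cut.E} {V0 : Finset G.V} {b : G.V} (hb : G.IsBase b)
    (hbV : b ∈ V0) (f : K[T;T⁻¹]) : evb hG hb f ∈ (rsys K hG E0 V0).alg := by
  have hi : Valid (([], b) : List G.cut.E × G.V).1 (([], b) : List G.cut.E × G.V).2 ∧
      (∀ e ∈ (([], b) : List G.cut.E × G.V).1, e ∈ E0) ∧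
      (([], b) : List G.cut.E × G.V).2 ∈ V0 := ⟨trivial, fun e he => absurd he (by simp), hbV⟩
  have h2 := (rsys K hG E0 V0).u_mem ⟨([], b), hi⟩ ⟨([], b), hi⟩ f
  have h3 : (rsys K hG E0 V0).u ⟨([], b), hi⟩ f ⟨([], b), hi⟩ = (family K G).restrict.p b *
      (family K G).restrict.qv E0 b * ((cu K hG E0 b).ev K f) *
      ((family K G).restrict.qv E0 b * (family K G).restrict.p b) := if_pos rfl
  have h4 : (cu K hG E0 b).ev K f = evb hG hb f := by rw [cu_base hG E0 hb]; rfl
  have h5 : (family K G).p b * evb hG hb f = evb hG hb f := by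
    rw [← evb_one hG hb, ← map_mul, one_mul]
  have h6 : evb hG hb f * (family K G).p b = evb hG hb f := by
    rw [← evb_one hG hb, ← map_mul, mul_one]
  have h7 : (family K G).restrict.p b = (family K G).p b := rfl
  rw [h3, h4, LeavittFamily.qv_base _ _ hb, h7, (family K G).p_mul_self, h5, h6] at h2
  exact h2

variable (K) in
/-- Elements of the local algebras. -/
noncomputable def locSub : NonUnitalSubalgebra K (LPA K G) where
  carrier := {a | ∃ (E0 : Finset G.cut.E) (V0 : Finset G.V), ∀ (E1 : Finset G.cut.E)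
    (V1 : Finset G.V), E0 ⊆ E1 → V0 ⊆ V1 → (∀ e ∈ E1, G.cut.rng e ∈ V1) →
      a ∈ (rsys K hG E1 V1).alg}
  add_mem' := by
    classical
    rintro a b ⟨E1, V1, h1⟩ ⟨E2, V2, h2⟩
    exact ⟨E1 ∪ E2, V1 ∪ V2, fun E3 V3 h3 h4 hcl => add_mem
      (h1 E3 V3 (Finset.union_subset_left h3) (Finset.union_subset_left h4) hcl)
      (h2 E3 V3 (Finset.union_subset_right h3) (Finset.union_subset_right h4) hcl)⟩
  zero_mem' := ⟨∅, ∅, fun _ _ _ _ _ => zero_mem _⟩
  mul_mem' := by
    classical
    rintro a b ⟨E1, V1, h1⟩ ⟨E2, V2, h2⟩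
    exact ⟨E1 ∪ E2, V1 ∪ V2, fun E3 V3 h3 h4 hcl => mul_mem
      (h1 E3 V3 (Finset.union_subset_left h3) (Finset.union_subset_left h4) hcl)
      (h2 E3 V3 (Finset.union_subset_right h3) (Finset.union_subset_right h4) hcl)⟩
  smul_mem' := by
    rintro r a ⟨E1, V1, h1⟩
    exact ⟨E1, V1, fun E3 V3 h3 h4 hcl => (rsys K hG E3 V3).alg.smul_mem _ (h1 E3 V3 h3 h4 hcl)⟩

theorem inc_locSub (a : LPA K G.cut) : inc K G a ∈ locSub K hG := by
  classical
  induction a using mono_induction with
  | hm l l' v =>
    rw [map_mul, inc_sp, inc_tp]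
    refine ⟨l.toFinset ∪ l'.toFinset, {v}, fun E1 V1 h1 h2 hcl => ?_⟩
    apply mono_mem_rsys hG hcl (E1.card + 1)
    · intro e he
      exact h1 (Finset.mem_union_left _ (List.mem_toFinset.2 he))
    · intro e he
      exact h1 (Finset.mem_union_right _ (List.mem_toFinset.2 he))
    · exact h2 (Finset.mem_singleton_self v)
    · omega
  | hz => rw [map_zero]; exact zero_mem _
  | ha a b ha hb => rw [map_add]; exact add_mem ha hb
  | hs r a ha => rw [map_smul]; exact (locSub K hG).smul_mem _ ha

theorem evb_locSub {b : G.V} (hb : G.IsBase b) (f : K[T;T⁻¹]) : evb hG hb f ∈ locSub K hG :=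
  ⟨∅, {b}, fun _ _ _ h2 _ => evb_mem hG hb (h2 (Finset.mem_singleton_self b)) f⟩

theorem mem_locSub (a : LPA K G) : a ∈ locSub K hG := by
  induction a using induction with
  | hgen x =>
    cases x with
    | vert v =>
      have h1 : inc K G ((family K G.cut).p v) = (family K G).p v :=
        congrFun (congrArg LeavittFamily.p inc_family) v
      show (family K G).p v ∈ _
      rw [← h1]; exact inc_locSub hG _
    | edge e =>
      show (family K G).s e ∈ _
      by_cases hb : G.IsBase (G.src e)
      · rw [(family K G).s_base hG hb, ← evb_T hG hb, ← inc_tp]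
        exact mul_mem (evb_locSub hG hb _) (inc_locSub hG _)
      · have h1 : inc K G ((family K G.cut).s ⟨e, hb⟩) = (family K G).s e :=
          congrFun (congrArg LeavittFamily.s inc_family) (⟨e, hb⟩ : G.cut.E)
        rw [← h1]; exact inc_locSub hG _
    | ghost e =>
      show (family K G).t e ∈ _
      by_cases hb : G.IsBase (G.src e)
      · rw [(family K G).t_base hG hb, ← evb_T_neg hG hb, ← inc_sp]
        exact mul_mem (inc_locSub hG _) (evb_locSub hG hb _)
      · have h1 : inc K G ((family K G.cut).t ⟨e, hb⟩) = (family K G).t e :=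
          congrFun (congrArg LeavittFamily.t inc_family) (⟨e, hb⟩ : G.cut.E)
        rw [← h1]; exact inc_locSub hG _
  | hadd a b ha hb => exact add_mem ha hb
  | hzero => exact zero_mem _
  | hmul a b ha hb => exact mul_mem ha hb
  | hsmul r a ha => exact (locSub K hG).smul_mem _ ha

/-- Finitely many elements lie in a common local algebra. -/
theorem exists_rsys (F : Finset (LPA K G)) : ∃ (E1 : Finset G.cut.E) (V1 : Finset G.V),
    ∀ a ∈ F, a ∈ (rsys K hG E1 V1).alg := by
  classical
  have key : ∀ F : Finset (LPA K G), ∃ (E0 : Finset G.cut.E) (V0 : Finset G.V),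
      ∀ (E1 : Finset G.cut.E) (V1 : Finset G.V), E0 ⊆ E1 → V0 ⊆ V1 →
      (∀ e ∈ E1, G.cut.rng e ∈ V1) → ∀ a ∈ F, a ∈ (rsys K hG E1 V1).alg := by
    intro F
    induction F using Finset.induction_on with
    | empty => exact ⟨∅, ∅, fun _ _ _ _ _ a ha => absurd ha (Finset.notMem_empty a)⟩
    | insert a F _ ih =>
      obtain ⟨E1, V1, h1⟩ := mem_locSub hG a
      obtain ⟨E2, V2, h2⟩ := ih
      refine ⟨E1 ∪ E2, V1 ∪ V2, fun E3 V3 h3 h4 hcl b hb => ?_⟩
      rw [Finset.mem_insert] at hb
      rcases hb with rfl | hb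
      · exact h1 E3 V3 (Finset.union_subset_left h3) (Finset.union_subset_left h4) hcl
      · exact h2 E3 V3 (Finset.union_subset_right h3) (Finset.union_subset_right h4) hcl b hb
  obtain ⟨E0, V0, h⟩ := key F
  exact ⟨E0, V0 ∪ E0.image G.cut.rng, h E0 _ subset_rfl Finset.subset_union_left
    fun e he => Finset.mem_union_right _ (Finset.mem_image_of_mem _ he)⟩

theorem p_mul_row {b : G.V} (hb : G.IsBase b) {E0 : Finset G.cut.E} (l : List G.cut.E) (v : G.V)
    (h : ¬ (l = [] ∧ v = b)) :
    (family K G).p b * ((family K G).restrict.sP l v * (family K G).restrict.qv E0 v) = 0 := by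
  have h0 : (family K G).p b = (family K G).restrict.p b := rfl
  cases l with
  | nil =>
    have h1 : v ≠ b := fun h' => h ⟨rfl, h'⟩
    show (family K G).p b * ((family K G).restrict.p v * _) = 0
    rw [← mul_assoc, h0, (family K G).restrict.p_mul_of_ne b v h1.symm, zero_mul]
  | cons e l =>
    show (family K G).p b * ((family K G).restrict.s e * _ * _) = 0
    have h1 : G.cut.src e ≠ b := by
      intro h1
      apply e.2
      have : G.src e.1 = b := h1
      rw [this]; exact hb
    rw [← mul_assoc, ← mul_assoc, h0, (family K G).restrict.p_mul_s_of_ne h1, zero_mul, zero_mul]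

theorem col_mul_p {b : G.V} (hb : G.IsBase b) {E0 : Finset G.cut.E} (l : List G.cut.E) (v : G.V)
    (h : ¬ (l = [] ∧ v = b)) :
    ((family K G).restrict.qv E0 v * (family K G).restrict.tP l v) * (family K G).p b = 0 := by
  have h0 : (family K G).p b = (family K G).restrict.p b := rfl
  cases l with
  | nil =>
    have h1 : v ≠ b := fun h' => h ⟨rfl, h'⟩
    show _ * (family K G).restrict.p v * (family K G).p b = 0
    rw [mul_assoc, h0, (family K G).restrict.p_mul_of_ne v b h1, mul_zero]
  | cons e l =>
    show _ * (_ * (family K G).restrict.t e) * (family K G).p b = 0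
    have h1 : G.cut.src e ≠ b := by
      intro h1
      apply e.2
      have : G.src e.1 = b := h1
      rw [this]; exact hb
    rw [mul_assoc, mul_assoc, h0, (family K G).restrict.t_mul_p_of_ne h1, mul_zero, mul_zero]

/-- The corner at a base vertex. -/
theorem corner_eq {b : G.V} (hb : G.IsBase b) (a : LPA K G) :
    ∃ f, (family K G).p b * a * (family K G).p b = evb hG hb f := by
  classical
  obtain ⟨E1, V1, h1⟩ := exists_rsys hG {a}
  obtain ⟨C, hC⟩ := h1 a (Finset.mem_singleton_self a)
  rw [← hC]
  show ∃ f, (family K G).p b * (∑ i, ∑ j, (rsys K hG E1 V1).u i (C i j) j) * (family K G).p b = _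
  rw [Finset.mul_sum, Finset.sum_mul]
  apply Finset.sum_induction _ (fun x => ∃ f, x = evb hG hb f)
  · rintro _ _ ⟨f, rfl⟩ ⟨g, rfl⟩
    exact ⟨f + g, (map_add _ _ _).symm⟩
  · exact ⟨0, (map_zero _).symm⟩
  intro i _
  rw [Finset.mul_sum, Finset.sum_mul]
  apply Finset.sum_induction _ (fun x => ∃ f, x = evb hG hb f)
  · rintro _ _ ⟨f, rfl⟩ ⟨g, rfl⟩
    exact ⟨f + g, (map_add _ _ _).symm⟩
  · exact ⟨0, (map_zero _).symm⟩
  intro j _
  generalize C i j = f
  obtain ⟨⟨l, v⟩, hi⟩ := i
  obtain ⟨⟨l', v'⟩, hj⟩ := j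
  by_cases hv : v = v'
  · have h3 : (rsys K hG E1 V1).u ⟨(l, v), hi⟩ f ⟨(l', v'), hj⟩
        = ((family K G).restrict.sP l v * (family K G).restrict.qv E1 v) *
        ((cu K hG E1 v).ev K f) *
        ((family K G).restrict.qv E1 v' * (family K G).restrict.tP l' v') := if_pos hv
    rw [h3]
    by_cases h4 : l = [] ∧ v = b
    · by_cases h5 : l' = [] ∧ v' = b
      · obtain ⟨rfl, rfl⟩ := h4
        obtain ⟨rfl, -⟩ := h5
        refine ⟨f, ?_⟩
        subst hv
        rw [LeavittFamily.qv_base _ _ hb, cu_base hG E1 hb]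
        show (family K G).p v * ((family K G).p v * (family K G).p v * evb hG hb f *
          ((family K G).p v * (family K G).p v)) * (family K G).p v = _
        have h6 : (family K G).p v * evb hG hb f = evb hG hb f := by
          rw [← evb_one hG hb, ← map_mul, one_mul]
        have h7 : evb hG hb f * (family K G).p v = evb hG hb f := by
          rw [← evb_one hG hb, ← map_mul, mul_one]
        rw [(family K G).p_mul_self, h6, h7, h6, h7]
      · refine ⟨0, ?_⟩
        have h6 := col_mul_p (K := K) hb (E0 := E1) l' v' h5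
        generalize (family K G).restrict.qv E1 v' * (family K G).restrict.tP l' v' = B at h6 ⊢
        rw [map_zero]
        calc _ = (family K G).p b * ((family K G).restrict.sP l v *
              (family K G).restrict.qv E1 v * ((cu K hG E1 v).ev K f)) *
              (B * (family K G).p b) := by noncomm_ring
          _ = 0 := by rw [h6, mul_zero]
    · refine ⟨0, ?_⟩
      have h6 := p_mul_row (K := K) hb (E0 := E1) l v h4
      generalize (family K G).restrict.sP l v * (family K G).restrict.qv E1 v = A at h6 ⊢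
      rw [map_zero]
      calc _ = ((family K G).p b * A) * ((cu K hG E1 v).ev K f) *
            ((family K G).restrict.qv E1 v' * (family K G).restrict.tP l' v') *
            (family K G).p b := by noncomm_ring
        _ = 0 := by rw [h6, zero_mul, zero_mul, zero_mul]
  · refine ⟨0, ?_⟩
    have h3 : (rsys K hG E1 V1).u ⟨(l, v), hi⟩ f ⟨(l', v'), hj⟩ = 0 := if_neg hv
    rw [h3, mul_zero, zero_mul, map_zero]

include hG in
/-- Idempotents in the corner at a base vertex are trivial. -/
theorem corner_idem {b : G.V} (hb : G.IsBase b) {a : LPA K G} (h1 : a * a = a)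
    (h2 : (family K G).p b * a = a) (h3 : a * (family K G).p b = a) :
    a = 0 ∨ a = (family K G).p b := by
  obtain ⟨f, hf⟩ := corner_eq hG hb a
  rw [h2, h3] at hf
  have h4 : f * f = f := by
    apply evb_injective (K := K) hG hb
    rw [map_mul, ← hf, h1]
  have h5 : f = 0 ∨ f = 1 := by
    have : f * (f - 1) = 0 := by rw [mul_sub, h4, mul_one, sub_self]
    rcases mul_eq_zero.1 this with h | h
    · exact Or.inl h
    · exact Or.inr (sub_eq_zero.1 h)
  rcases h5 with rfl | rfl
  · left; rw [hf, map_zero]
  · right; rw [hf, evb_one]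

end LPA

end Pool.Agent.Helper665_GA
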