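import Pool.Agent.Helper665_GA.Laurent
import Pool.Agent.Helper665_GA.IEq

/-!
# Systems of matrix units, standard partial isometries, comparison of ranks (helper665)
-/

namespace Pool.Agent.Helper665_GA

/-- A finite system of nonzero matrix units compatible with the involution. -/
structure MU (A : Type*) [NonUnitalRing A] [StarRing A] where
  /-- indices -/
  ι : Type
  [fin : Fintype ι]
  [dec : DecidableEq ι]
  /-- blocks -/
  W : Type
  [decW : DecidableEq W]
  /-- the block of an index -/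
  blk : ι → W
  /-- the matrix units -/
  m : ι → ι → A
  off : ∀ i j, blk i ≠ blk j → m i j = 0
  mul_ne : ∀ i j k l, j ≠ k → m i j * m k l = 0
  mul_eq : ∀ i j k, blk i = blk j → blk j = blk k → m i j * m j k = m i k
  star_m : ∀ i j, star (m i j) = m j i
  ne_zero : ∀ i, m i i ≠ 0

namespace MU

attribute [instance] MU.fin MU.dec MU.decW

variable {K : Type*} [Field K] [StarRing K] {A : Type*} [NonUnitalRing A] [StarRing A] [Module K A]
  [IsScalarTower K A A] [SMulCommClass K A A] [StarModule K A] (T : MU A)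

set_option linter.unusedSectionVars false

theorem m_mul_m (i j k l : T.ι) : T.m i j * T.m k l
    = if j = k ∧ T.blk i = T.blk j then T.m i l else 0 := by
  by_cases h : j = k
  · subst h
    by_cases h1 : T.blk i = T.blk j
    · rw [if_pos ⟨rfl, h1⟩]
      by_cases h2 : T.blk j = T.blk l
      · exact T.mul_eq i j l h1 h2
      · rw [T.off j l h2, mul_zero, T.off i l (fun h3 => h2 (h1.symm.trans h3))]
    · rw [if_neg (fun h2 => h1 h2.2), T.off i j h1, zero_mul]
  · rw [if_neg (fun h2 => h h2.1), T.mul_ne i j k l h]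

theorem m_ne_zero {i j : T.ι} (h : T.blk i = T.blk j) : T.m i j ≠ 0 := by
  intro h0
  apply T.ne_zero i
  rw [← T.mul_eq i j i h h.symm, h0, zero_mul]

/-- Block diagonal matrices. -/
def BD (C : Matrix T.ι T.ι K) : Prop := ∀ i j, T.blk i ≠ T.blk j → C i j = 0

/-- The element of a matrix. -/
noncomputable def Φ (C : Matrix T.ι T.ι K) : A := ∑ i, ∑ j, C i j • T.m i j

theorem Φ_add (C D : Matrix T.ι T.ι K) : T.Φ (C + D) = T.Φ C + T.Φ D := by
  unfold Φ
  rw [← Finset.sum_add_distrib]
  apply Finset.sum_congr rfl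
  intro i _
  rw [← Finset.sum_add_distrib]
  apply Finset.sum_congr rfl
  intro j _
  rw [Matrix.add_apply, add_smul]

theorem Φ_zero : T.Φ (0 : Matrix T.ι T.ι K) = 0 := by
  unfold Φ
  apply Finset.sum_eq_zero
  intro i _
  apply Finset.sum_eq_zero
  intro j _
  rw [Matrix.zero_apply, zero_smul]

theorem Φ_smul (r : K) (C : Matrix T.ι T.ι K) : T.Φ (r • C) = r • T.Φ C := by
  unfold Φ
  rw [Finset.smul_sum]
  apply Finset.sum_congr rfl
  intro i _
  rw [Finset.smul_sum]
  apply Finset.sum_congr rfl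
  intro j _
  rw [Matrix.smul_apply, smul_eq_mul, mul_smul]

theorem m_mul_Φ (i j : T.ι) (D : Matrix T.ι T.ι K) :
    T.m i j * T.Φ D = if T.blk i = T.blk j then ∑ l, D j l • T.m i l else 0 := by
  unfold Φ
  rw [Finset.mul_sum, Finset.sum_eq_single_of_mem j (Finset.mem_univ j)]
  · rw [Finset.mul_sum]
    split_ifs with h
    · apply Finset.sum_congr rfl
      intro l _
      rw [mul_smul_comm, T.m_mul_m, if_pos ⟨rfl, h⟩]
    · apply Finset.sum_eq_zero
      intro l _
      rw [mul_smul_comm, T.m_mul_m, if_neg (fun h2 => h h2.2), smul_zero]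
  · intro k _ hk
    rw [Finset.mul_sum]
    apply Finset.sum_eq_zero
    intro l _
    rw [mul_smul_comm, T.mul_ne _ _ _ _ hk.symm, smul_zero]

theorem Φ_mul {C D : Matrix T.ι T.ι K} (hC : T.BD C) : T.Φ C * T.Φ D = T.Φ (C * D) := by
  have h1 : T.Φ C * T.Φ D = ∑ i, ∑ j, C i j • (T.m i j * T.Φ D) := by
    conv_lhs => rw [Φ, Finset.sum_mul]
    apply Finset.sum_congr rfl
    intro i _
    rw [Finset.sum_mul]
    exact Finset.sum_congr rfl fun j _ => smul_mul_assoc _ _ _
  rw [h1]
  conv_rhs => unfold Φ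
  apply Finset.sum_congr rfl
  intro i _
  have h2 : ∀ j, C i j • (T.m i j * T.Φ D) = ∑ l, (C i j * D j l) • T.m i l := by
    intro j
    rw [m_mul_Φ]
    split_ifs with h
    · rw [Finset.smul_sum]
      exact Finset.sum_congr rfl fun l _ => by rw [mul_smul]
    · rw [hC i j h, zero_smul]
      symm
      exact Finset.sum_eq_zero fun l _ => by rw [zero_mul, zero_smul]
  rw [Finset.sum_congr rfl fun j _ => h2 j, Finset.sum_comm]
  apply Finset.sum_congr rfl
  intro l _
  rw [Matrix.mul_apply, Finset.sum_smul]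

theorem star_Φ (C : Matrix T.ι T.ι K) : star (T.Φ C) = T.Φ C.conjTranspose := by
  unfold Φ
  rw [star_sum]
  simp only [star_sum]
  rw [Finset.sum_comm]
  apply Finset.sum_congr rfl
  intro i _
  apply Finset.sum_congr rfl
  intro j _
  rw [star_smul, T.star_m, Matrix.conjTranspose_apply]

theorem coeff {C : Matrix T.ι T.ι K} (k l : T.ι) :
    T.m k k * T.Φ C * T.m l l = C k l • T.m k l := by
  rw [m_mul_Φ, if_pos rfl, Finset.sum_mul, Finset.sum_eq_single_of_mem l (Finset.mem_univ l)]
  · rw [smul_mul_assoc]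
    by_cases h : T.blk k = T.blk l
    · rw [T.mul_eq _ _ _ h rfl]
    · rw [T.off k l h, zero_mul]
  · intro j _ hj
    rw [smul_mul_assoc, T.mul_ne _ _ _ _ hj, smul_zero]

theorem Φ_inj {C D : Matrix T.ι T.ι K} (hC : T.BD C) (hD : T.BD D) (h : T.Φ C = T.Φ D) :
    C = D := by
  ext k l
  by_cases hkl : T.blk k = T.blk l
  · have h1 : C k l • T.m k l = D k l • T.m k l := by rw [← coeff, ← coeff, h]
    have h2 : (C k l - D k l) • T.m k l = 0 := by rw [sub_smul, h1, sub_self]
    rcases smul_eq_zero.1 h2 with h3 | h3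
    · exact sub_eq_zero.1 h3
    · exact absurd h3 (T.m_ne_zero hkl)
  · rw [hC k l hkl, hD k l hkl]

theorem BD.mul {C D : Matrix T.ι T.ι K} (hC : T.BD C) (hD : T.BD D) : T.BD (C * D) := by
  intro i j h
  rw [Matrix.mul_apply]
  apply Finset.sum_eq_zero
  intro k _
  by_cases h1 : T.blk i = T.blk k
  · rw [hD k j (fun h2 => h (h1.trans h2)), mul_zero]
  · rw [hC i k h1, zero_mul]

variable (K) in
/-- The span of the matrix units. -/
noncomputable def alg : NonUnitalSubalgebra K A where
  carrier := {a | ∃ C : Matrix T.ι T.ι K, T.BD C ∧ T.Φ C = a}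
  add_mem' := by
    rintro _ _ ⟨C, hC, rfl⟩ ⟨D, hD, rfl⟩
    exact ⟨C + D, fun i j h => by rw [Matrix.add_apply, hC i j h, hD i j h, add_zero],
      T.Φ_add C D⟩
  zero_mem' := ⟨0, fun _ _ _ => rfl, T.Φ_zero⟩
  mul_mem' := by
    rintro _ _ ⟨C, hC, rfl⟩ ⟨D, hD, rfl⟩
    exact ⟨C * D, hC.mul T hD, (T.Φ_mul hC).symm⟩
  smul_mem' := by
    rintro r _ ⟨C, hC, rfl⟩
    exact ⟨r • C, fun i j h => by rw [Matrix.smul_apply, hC i j h, smul_zero], T.Φ_smul r C⟩

theorem m_mem (i j : T.ι) : T.m i j ∈ T.alg K := by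
  by_cases h : T.blk i = T.blk j
  · refine ⟨Matrix.single i j 1, ?_, ?_⟩
    · intro k l hkl
      rw [Matrix.single_apply, if_neg]
      rintro ⟨rfl, rfl⟩
      exact hkl h
    · unfold Φ
      rw [Finset.sum_eq_single_of_mem i (Finset.mem_univ i),
        Finset.sum_eq_single_of_mem j (Finset.mem_univ j)]
      · rw [Matrix.single_apply, if_pos ⟨rfl, rfl⟩, one_smul]
      · intro l _ hl
        rw [Matrix.single_apply, if_neg (fun h => hl h.2.symm), zero_smul]
      · intro k _ hk
        apply Finset.sum_eq_zero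
        intro l _
        rw [Matrix.single_apply, if_neg (fun h => hk h.1.symm), zero_smul]
  · rw [T.off i j h]; exact zero_mem _

theorem alg_le {N : NonUnitalSubalgebra K A} (h : ∀ i j, T.m i j ∈ N) : T.alg K ≤ N := by
  rintro _ ⟨C, -, rfl⟩
  exact sum_mem fun i _ => sum_mem fun j _ => N.smul_mem _ (h i j)

theorem star_mem {a : A} (h : a ∈ T.alg K) : star a ∈ T.alg K := by
  obtain ⟨C, hC, rfl⟩ := h
  refine ⟨C.conjTranspose, fun i j hij => ?_, (T.star_Φ C).symm⟩
  rw [Matrix.conjTranspose_apply, hC j i (fun h => hij h.symm), star_zero]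

/-- Diagonal projections. -/
noncomputable def diag (D : Finset T.ι) : A := ∑ i ∈ D, T.m i i

/-- Standard partial isometries. -/
def IsStd (x : A) : Prop := ∃ (D : Finset T.ι) (e : T.ι → T.ι), Set.InjOn e D ∧
  (∀ i ∈ D, T.blk (e i) = T.blk i) ∧ x = ∑ i ∈ D, T.m i (e i)

theorem isStd_diag (D : Finset T.ι) : T.IsStd (T.diag D) :=
  ⟨D, id, Set.injOn_id _, fun _ _ => rfl, rfl⟩

theorem isStd_m {i j : T.ι} (h : T.blk i = T.blk j) : T.IsStd (T.m i j) :=
  ⟨{i}, fun _ => j, by simp, by simp [h], by simp⟩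

theorem isStd_mem {x : A} (h : T.IsStd x) : x ∈ T.alg K := by
  obtain ⟨D, e, -, -, rfl⟩ := h
  exact sum_mem fun i _ => T.m_mem i (e i)

theorem isStd_mul {x y : A} (hx : T.IsStd x) (hy : T.IsStd y) : T.IsStd (x * y) := by
  obtain ⟨D, e, he, hb, rfl⟩ := hx
  obtain ⟨D', e', he', hb', rfl⟩ := hy
  refine ⟨D.filter (fun i => e i ∈ D'), fun i => e' (e i), ?_, ?_, ?_⟩
  · intro i hi j hj h
    rw [Finset.mem_coe, Finset.mem_filter] at hi hj
    exact he hi.1 hj.1 (he' hi.2 hj.2 h)
  · intro i hi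
    rw [Finset.mem_filter] at hi
    rw [hb' _ hi.2, hb i hi.1]
  · rw [Finset.sum_mul, Finset.sum_filter]
    apply Finset.sum_congr rfl
    intro i hi
    rw [Finset.mul_sum]
    split_ifs with h
    · rw [Finset.sum_eq_single_of_mem (e i) h]
      · rw [T.mul_eq _ _ _ (hb i hi).symm (hb' _ h).symm]
      · intro j _ hj
        rw [T.mul_ne _ _ _ _ hj.symm]
    · apply Finset.sum_eq_zero
      intro j hj
      rw [T.mul_ne]
      rintro rfl
      exact h hj

theorem isStd_star {x : A} (hx : T.IsStd x) : T.IsStd (star x) := by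
  classical
  obtain ⟨D, e, he, hb, rfl⟩ := hx
  by_cases hD : D.Nonempty
  · have : Nonempty T.ι := ⟨hD.choose⟩
    have hinv : ∀ i ∈ D, Function.invFunOn e D (e i) = i := by
      intro i hi
      exact he.leftInvOn_invFunOn hi
    refine ⟨D.image e, Function.invFunOn e D, ?_, ?_, ?_⟩
    · intro i hi j hj h
      rw [Finset.mem_coe, Finset.mem_image] at hi hj
      obtain ⟨i', hi', rfl⟩ := hi
      obtain ⟨j', hj', rfl⟩ := hj
      rw [hinv _ hi', hinv _ hj'] at h
      rw [h]
    · intro i hi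
      rw [Finset.mem_image] at hi
      obtain ⟨i', hi', rfl⟩ := hi
      rw [hinv _ hi', hb _ hi']
    · rw [star_sum, Finset.sum_image he]
      apply Finset.sum_congr rfl
      intro i hi
      rw [T.star_m, hinv _ hi]
  · rw [Finset.not_nonempty_iff_eq_empty] at hD
    subst hD
    exact ⟨∅, id, by simp, by simp, by simp⟩

theorem isStd_pi {x : A} (hx : T.IsStd x) : x * star x * x = x := by
  obtain ⟨D, e, he, hb, rfl⟩ := hx
  have h1 : ∀ i ∈ D, (star (∑ i ∈ D, T.m i (e i))) * T.m i (e i) = T.m (e i) (e i) := by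
    intro i hi
    rw [star_sum, Finset.sum_mul, Finset.sum_eq_single_of_mem i hi]
    · rw [T.star_m, T.mul_eq _ _ _ (hb i hi) (hb i hi).symm]
    · intro j _ hj
      rw [T.star_m, T.mul_ne _ _ _ _ hj]
  have h2 : star (∑ i ∈ D, T.m i (e i)) * ∑ i ∈ D, T.m i (e i) = ∑ i ∈ D, T.m (e i) (e i) := by
    conv_lhs => rw [Finset.mul_sum]
    exact Finset.sum_congr rfl h1
  rw [mul_assoc, h2, Finset.mul_sum]
  apply Finset.sum_congr rfl
  intro i hi
  rw [Finset.sum_mul, Finset.sum_eq_single_of_mem i hi]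
  · rw [T.mul_eq _ _ _ (hb i hi).symm rfl]
  · intro j hj hji
    rw [T.mul_ne]
    intro h
    exact hji (he hj hi h)

/-- Orthogonal sums of standard partial isometries are standard. -/
theorem isStd_add {x y : A} (hx : T.IsStd x) (hy : T.IsStd y) (h1 : star x * y = 0)
    (h2 : x * star y = 0) : T.IsStd (x + y) := by
  classical
  obtain ⟨D, e, he, hb, rfl⟩ := hx
  obtain ⟨D', e', he', hb', rfl⟩ := hy
  have h3 : Disjoint D D' := by
    rw [Finset.disjoint_left]
    intro i hi hi'
    have h4 : T.m (e i) (e i) * (star (∑ i ∈ D, T.m i (e i)) * ∑ i ∈ D', T.m i (e' i)) *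
        T.m (e' i) (e' i) = T.m (e i) (e' i) := by
      rw [star_sum]
      have h5 : T.m (e i) (e i) * ∑ i ∈ D, star (T.m i (e i)) = T.m (e i) i := by
        rw [Finset.mul_sum, Finset.sum_eq_single_of_mem i hi]
        · rw [T.star_m, T.mul_eq _ _ _ rfl (hb i hi)]
        · intro j hj hji
          rw [T.star_m, T.mul_ne]
          intro h
          exact hji (he hj hi h.symm)
      rw [← mul_assoc, h5, Finset.mul_sum, Finset.sum_mul, Finset.sum_eq_single_of_mem i hi']
      · rw [T.mul_eq _ _ _ (hb i hi) (hb' i hi').symm,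
          T.mul_eq _ _ _ ((hb i hi).trans (hb' i hi').symm) rfl]
      · intro j _ hji
        rw [T.mul_ne _ _ _ _ hji.symm, zero_mul]
    rw [h1, mul_zero, zero_mul] at h4
    exact T.m_ne_zero ((hb i hi).trans (hb' i hi').symm) h4.symm
  have h4 : ∀ i ∈ D, ∀ j ∈ D', e i ≠ e' j := by
    intro i hi j hj hij
    have h5 : T.m i i * ((∑ i ∈ D, T.m i (e i)) * star (∑ i ∈ D', T.m i (e' i))) * T.m j j
        = T.m i j := by
      have h6 : T.m i i * ∑ i ∈ D, T.m i (e i) = T.m i (e i) := by
        rw [Finset.mul_sum, Finset.sum_eq_single_of_mem i hi]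
        · rw [T.mul_eq _ _ _ rfl (hb i hi).symm]
        · intro k _ hki
          rw [T.mul_ne _ _ _ _ hki.symm]
      have h7 : star (∑ i ∈ D', T.m i (e' i)) * T.m j j = T.m (e' j) j := by
        rw [star_sum, Finset.sum_mul, Finset.sum_eq_single_of_mem j hj]
        · rw [T.star_m, T.mul_eq _ _ _ (hb' j hj) rfl]
        · intro k _ hkj
          rw [T.star_m, T.mul_ne _ _ _ _ hkj]
      rw [← mul_assoc, h6, mul_assoc, h7, hij, T.mul_eq _ _ _ _ (hb' j hj)]
      rw [← hij, hb i hi]
    rw [h2, mul_zero, zero_mul] at h5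
    refine T.m_ne_zero ?_ h5.symm
    rw [← hb i hi, hij, hb' j hj]
  refine ⟨D ∪ D', fun i => if i ∈ D then e i else e' i, ?_, ?_, ?_⟩
  · intro i hi j hj h
    rw [Finset.mem_coe, Finset.mem_union] at hi hj
    by_cases hiD : i ∈ D
    · by_cases hjD : j ∈ D
      · simp only [if_pos hiD, if_pos hjD] at h
        exact he hiD hjD h
      · simp only [if_pos hiD, if_neg hjD] at h
        exact absurd h (h4 i hiD j (hj.resolve_left hjD))
    · by_cases hjD : j ∈ D
      · simp only [if_neg hiD, if_pos hjD] at h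
        exact absurd h.symm (h4 j hjD i (hi.resolve_left hiD))
      · simp only [if_neg hiD, if_neg hjD] at h
        exact he' (hi.resolve_left hiD) (hj.resolve_left hjD) h
  · intro i hi
    rw [Finset.mem_union] at hi
    dsimp only
    split_ifs with h
    · exact hb i h
    · exact hb' i (hi.resolve_left h)
  · rw [Finset.sum_union h3]
    congr 1
    · apply Finset.sum_congr rfl
      intro i hi
      dsimp only
      rw [if_pos hi]
    · apply Finset.sum_congr rfl
      intro i hi
      dsimp only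
      rw [if_neg]
      intro h
      exact (Finset.disjoint_left.1 h3) h hi

/-- Standard idempotents are diagonal. -/
theorem isStd_idem {x : A} (hx : T.IsStd x) (h : x * x = x) : ∃ D, x = T.diag D := by
  classical
  obtain ⟨D, e, he, hb, rfl⟩ := hx
  refine ⟨D, ?_⟩
  unfold diag
  apply Finset.sum_congr rfl
  intro i hi
  have h6 : T.m i i * ∑ i ∈ D, T.m i (e i) = T.m i (e i) := by
    rw [Finset.mul_sum, Finset.sum_eq_single_of_mem i hi]
    · rw [T.mul_eq _ _ _ rfl (hb i hi).symm]
    · intro k _ hki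
      rw [T.mul_ne _ _ _ _ hki.symm]
  have h7 : T.m i (e i) * ∑ i ∈ D, T.m i (e i) = T.m i (e i) := by
    rw [← h6, mul_assoc, h]
  have h8 : e i ∈ D := by
    by_contra hc
    apply T.m_ne_zero (hb i hi).symm
    rw [← h7, Finset.mul_sum]
    apply Finset.sum_eq_zero
    intro j hj
    rw [T.mul_ne]
    rintro rfl
    exact hc hj
  rw [Finset.mul_sum, Finset.sum_eq_single_of_mem (e i) h8] at h7
  · rw [T.mul_eq _ _ _ (hb i hi).symm (hb _ h8).symm] at h7
    have h9 : e (e i) = e i := by
      by_contra hc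
      have h10 : T.m i (e (e i)) * T.m (e i) (e i) = T.m i (e i) := by
        rw [h7, T.mul_eq _ _ _ (hb i hi).symm rfl]
      rw [T.mul_ne _ _ _ _ hc] at h10
      exact T.m_ne_zero (hb i hi).symm h10.symm
    rw [he h8 hi h9]
  · intro j _ hj
    rw [T.mul_ne _ _ _ _ hj.symm]

theorem diag_mul_diag (D D' : Finset T.ι) : T.diag D * T.diag D' = T.diag (D ∩ D') := by
  unfold diag
  rw [Finset.sum_mul, ← Finset.filter_mem_eq_inter, Finset.sum_filter]
  apply Finset.sum_congr rfl
  intro i _
  rw [Finset.mul_sum]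
  split_ifs with h
  · rw [Finset.sum_eq_single_of_mem i h, T.mul_eq _ _ _ rfl rfl]
    intro j _ hj
    rw [T.mul_ne _ _ _ _ hj.symm]
  · apply Finset.sum_eq_zero
    intro j hj
    rw [T.mul_ne]
    rintro rfl
    exact h hj

theorem diag_mul_self (D : Finset T.ι) : T.diag D * T.diag D = T.diag D := by
  rw [diag_mul_diag, Finset.inter_self]

theorem star_diag (D : Finset T.ι) : star (T.diag D) = T.diag D := by
  unfold diag
  rw [star_sum]
  exact Finset.sum_congr rfl fun i _ => T.star_m i i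

theorem diag_disjoint {D D' : Finset T.ι} (h : Disjoint D D') : T.diag D * T.diag D' = 0 := by
  rw [diag_mul_diag, Finset.disjoint_iff_inter_eq_empty.1 h]
  exact Finset.sum_empty

end MU

end Pool.Agent.Helper665_GA
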