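import Pool.Agent.Helper665_GA.Local
import Pool.Agent.Helper665_GA.IEq

/-!
# Isomorphisms and the base vertices of cycles without exits (helper665)
-/

namespace Pool.Agent.Helper665_GA

open LaurentPolynomial

namespace LPA

variable {K : Type*} [Field K] {E F G : Graph}

/-- Different base vertices are unrelated. -/
theorem cross_eq_zero (hG : G.NoExit) {b d : G.V} (hb : G.IsBase b) (hd : G.IsBase d)
    (hbd : b ≠ d) (a : LPA K G) : (family K G).p b * a * (family K G).p d = 0 := by
  classical
  obtain ⟨E1, V1, h1⟩ := exists_rsys hG {a}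
  obtain ⟨C, hC⟩ := h1 a (Finset.mem_singleton_self a)
  rw [← hC]
  show (family K G).p b * (∑ i, ∑ j, (rsys K hG E1 V1).u i (C i j) j) * (family K G).p d = 0
  rw [Finset.mul_sum, Finset.sum_mul]
  apply Finset.sum_eq_zero
  intro i _
  rw [Finset.mul_sum, Finset.sum_mul]
  apply Finset.sum_eq_zero
  intro j _
  generalize C i j = f
  obtain ⟨⟨l, v⟩, hi⟩ := i
  obtain ⟨⟨l', v'⟩, hj⟩ := j
  by_cases hv : v = v'
  · have h3 : (rsys K hG E1 V1).u ⟨(l, v), hi⟩ f ⟨(l', v'), hj⟩
        = ((family K G).restrict.sP l v * (family K G).restrict.qv E1 v) *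
        ((cu K hG E1 v).ev K f) *
        ((family K G).restrict.qv E1 v' * (family K G).restrict.tP l' v') := if_pos hv
    rw [h3]
    by_cases h4 : l = [] ∧ v = b
    · have h5 : ¬ (l' = [] ∧ v' = d) := fun h5 => hbd (h4.2.symm.trans (hv.trans h5.2))
      have h6 := col_mul_p (K := K) hd (E0 := E1) l' v' h5
      generalize (family K G).restrict.qv E1 v' * (family K G).restrict.tP l' v' = B at h6 ⊢
      calc _ = (family K G).p b * ((family K G).restrict.sP l v *
            (family K G).restrict.qv E1 v * ((cu K hG E1 v).ev K f)) *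
            (B * (family K G).p d) := by noncomm_ring
        _ = 0 := by rw [h6, mul_zero]
    · have h6 := p_mul_row (K := K) hb (E0 := E1) l v h4
      generalize (family K G).restrict.sP l v * (family K G).restrict.qv E1 v = A at h6 ⊢
      calc _ = ((family K G).p b * A) * ((cu K hG E1 v).ev K f) *
            ((family K G).restrict.qv E1 v' * (family K G).restrict.tP l' v') *
            (family K G).p d := by noncomm_ring
        _ = 0 := by rw [h6, zero_mul, zero_mul, zero_mul]
  · have h3 : (rsys K hG E1 V1).u ⟨(l, v), hi⟩ f ⟨(l', v'), hj⟩ = 0 := if_neg hv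
    rw [h3, mul_zero, zero_mul]

theorem p_base_ne_zero (hG : G.NoExit) {b : G.V} (hb : G.IsBase b) : (family K G).p b ≠ 0 := by
  intro h
  have h1 : (1 : K[T;T⁻¹]) = 0 := by
    apply evb_injective (K := K) hG hb
    rw [evb_one, h, map_zero]
  exact one_ne_zero h1

/-- Different base vertices are not equivalent. -/
theorem base_eq_of_IEq (hG : G.NoExit) {b d : G.V} (hb : G.IsBase b) (hd : G.IsBase d)
    (h : IEq ((family K G).p b) ((family K G).p d)) : b = d := by
  by_contra hbd
  obtain ⟨x, y, h1, h2⟩ := h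
  apply p_base_ne_zero (K := K) hG hb
  calc (family K G).p b = (family K G).p b * (family K G).p b * (family K G).p b := by
        rw [(family K G).p_mul_self, (family K G).p_mul_self]
    _ = (family K G).p b * (x * y * (x * y)) * (family K G).p b := by
        rw [h1]; simp only [(family K G).p_mul_self]
    _ = ((family K G).p b * x * (y * x)) * y * (family K G).p b := by noncomm_ring
    _ = 0 := by rw [h2, cross_eq_zero hG hb hd hbd, zero_mul, zero_mul]

/-- Every base vertex is mapped to a base vertex up to equivalence. -/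
theorem exists_base (hE : E.NoExit) (hF : F.NoExit) (φ : LPA K E →ₙₐ[K] LPA K F)
    (ψ : LPA K F →ₙₐ[K] LPA K E) (hl : ∀ a, ψ (φ a) = a) (hr : ∀ a, φ (ψ a) = a)
    {b : E.V} (hb : E.IsBase b) :
    ∃ d, F.IsBase d ∧ IEq (φ ((family K E).p b)) ((family K F).p d) := by
  classical
  set g : K[T;T⁻¹] →ₙₐ[K] LPA K F := φ.comp (evb hE hb) with hg
  have hg1 : g 1 = φ ((family K E).p b) := by
    show φ (evb hE hb 1) = _
    rw [evb_one]
  have hφ : Function.Injective φ := fun x y h => by rw [← hl x, h, hl]
  obtain ⟨E1, V1, h1⟩ := exists_rsys hF {g 1, g (T 1), g (T (-1))}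
  obtain ⟨w, hw, a, a', h2, h3⟩ := (rsys K hF E1 V1).main g
    (fun x y h => evb_injective hE hb (hφ h))
    (fun f => laurent_mem g _ (h1 _ (by simp)) (h1 _ (by simp)) (h1 _ (by simp)) f)
    (fun a ha1 ha2 ha3 => by
      rw [hg1] at ha2 ha3 ⊢
      have h4 := corner_idem hE hb (a := ψ a) (by rw [← map_mul, ha1])
        (by rw [← hl ((family K E).p b), ← map_mul, ha2])
        (by rw [← hl ((family K E).p b), ← map_mul, ha3])
      rcases h4 with h4 | h4
      · left; rw [← hr a, h4, map_zero]
      · right; rw [← hr a, h4])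
    F.IsBase (fun w hw f => cu_scalar hF E1 hw f)
    (fun w hw => by
      show Function.Injective ((cu K hF E1 w).ev K)
      rw [cu_base hF E1 hw]
      exact evb_injective hF hw)
  refine ⟨w, hw, a, a', by rw [← hg1]; exact h2, ?_⟩
  rw [h3]
  show (cu K hF E1 w).ev K 1 = _
  rw [CornerUnit.ev_one]
  exact (cu_q hF E1 w).trans (LeavittFamily.qv_base _ _ hw)

/-- The shape of the invertible elements. -/
theorem exists_scalar (hE : E.NoExit) (hF : F.NoExit) (φ : LPA K E →ₙₐ[K] LPA K F)
    (ψ : LPA K F →ₙₐ[K] LPA K E) (hl : ∀ a, ψ (φ a) = a) (hr : ∀ a, φ (ψ a) = a)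
    {b : E.V} (hb : E.IsBase b) {d : F.V} (hd : F.IsBase d) {a a' : LPA K F}
    (h1 : a * a' = φ ((family K E).p b)) (h2 : a' * a = (family K F).p d) :
    ∃ c : K, c ≠ 0 ∧ (a' * φ (((family K E).ext' hE).x b) * a
      = c • ((family K F).ext' hF).x d ∨ a' * φ (((family K E).ext' hE).x b) * a
      = c • ((family K F).ext' hF).y d) := by
  have hpφ : ∀ f, φ ((family K E).p b) * φ (evb hE hb f) = φ (evb hE hb f) := by
    intro f
    rw [← evb_one hE hb, ← map_mul, ← map_mul, one_mul]
  have hφp : ∀ f, φ (evb hE hb f) * φ ((family K E).p b) = φ (evb hE hb f) := by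
    intro f
    rw [← evb_one hE hb, ← map_mul, ← map_mul, mul_one]
  -- the homomorphism
  set g : K[T;T⁻¹] → LPA K F := fun f => a' * φ (evb hE hb f) * a with hg
  have hgmul : ∀ f h, g (f * h) = g f * g h := by
    intro f h
    calc g (f * h) = a' * φ (evb hE hb (f * h)) * a := rfl
      _ = a' * (φ (evb hE hb f) * φ ((family K E).p b) * φ (evb hE hb h)) * a := by
          rw [hφp, ← map_mul, ← map_mul]
      _ = g f * g h := by rw [← h1, hg]; noncomm_ring
  have hg1 : g 1 = evb hF hd 1 := by
    calc g 1 = a' * (a * a') * a := by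
          show a' * φ (evb hE hb 1) * a = _
          rw [h1, evb_one]
      _ = (a' * a) * (a' * a) := by noncomm_ring
      _ = _ := by rw [h2, (family K F).p_mul_self, evb_one]
  have hgex : ∀ f, ∃ h, g f = evb hF hd h := by
    intro f
    obtain ⟨h, hh⟩ := corner_eq hF hd (g f)
    refine ⟨h, ?_⟩
    rw [← hh]
    calc g f = a' * (φ ((family K E).p b) * φ (evb hE hb f) * φ ((family K E).p b)) * a := by
          rw [hpφ, hφp]
      _ = (a' * a) * (a' * φ (evb hE hb f) * a) * (a' * a) := by rw [← h1]; noncomm_ring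
      _ = _ := by rw [h2]
  obtain ⟨f1, hf1⟩ := hgex (T 1)
  obtain ⟨f2, hf2⟩ := hgex (T (-1))
  have hinj := evb_injective (K := K) hF hd
  have h12 : f1 * f2 = 1 := by
    apply hinj
    rw [map_mul, ← hf1, ← hf2, ← hgmul, ← T_add, ← hg1]
    rfl
  obtain ⟨c, n, hc, hcn⟩ := laurent_unit h12
  have hf2' : f2 = c⁻¹ • T (-n) := by
    have : (c⁻¹ • T (-n) : K[T;T⁻¹]) * f1 = 1 := by
      rw [hcn, smul_mul_smul_comm, inv_mul_cancel₀ hc, ← T_add, neg_add_cancel, one_smul, T_zero]
    calc f2 = ((c⁻¹ • T (-n) : K[T;T⁻¹]) * f1) * f2 := by rw [this, one_mul]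
      _ = _ := by rw [mul_assoc, h12, mul_one]
  have hpow : ∀ m : ℤ, g (T m) = evb hF hd (c ^ m • T (n * m)) := by
    intro m
    induction m using Int.induction_on with
    | zero => rw [T_zero, hg1, zpow_zero, mul_zero, T_zero, one_smul]
    | succ m ih =>
      rw [T_add, hgmul, ih, hf1, ← map_mul, hcn, smul_mul_smul_comm, ← T_add, ← zpow_add_one₀ hc]
      congr 3
      ring
    | pred m ih =>
      rw [T_sub, hgmul, ih, hf2, ← map_mul, hf2', smul_mul_smul_comm, ← T_add,
        ← zpow_sub_one₀ hc]
      congr 3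
      ring
  -- the inverse direction
  have hback : ∀ f, ∃ h, a * evb hF hd f * a' = φ (evb hE hb h) := by
    intro f
    obtain ⟨h, hh⟩ := corner_eq hE hb (ψ (a * evb hF hd f * a'))
    refine ⟨h, ?_⟩
    rw [← hh, map_mul, map_mul, hr]
    have e1 : (family K F).p d * evb hF hd f = evb hF hd f := by
      rw [← evb_one hF hd, ← map_mul, one_mul]
    have e2 : evb hF hd f * (family K F).p d = evb hF hd f := by
      rw [← evb_one hF hd, ← map_mul, mul_one]
    rw [← h1]
    calc a * evb hF hd f * a' = a * ((family K F).p d * evb hF hd f * (family K F).p d) * a' := by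
          rw [e1, e2]
      _ = a * a' * (a * evb hF hd f * a') * (a * a') := by rw [← h2]; noncomm_ring
  obtain ⟨k1, hk1⟩ := hback (T 1)
  obtain ⟨k2, hk2⟩ := hback (T (-1))
  have hφ : Function.Injective φ := fun x y h => by rw [← hl x, h, hl]
  have hk : k1 * k2 = 1 := by
    apply evb_injective (K := K) hE hb
    apply hφ
    rw [map_mul, map_mul, ← hk1, ← hk2, evb_one, ← h1]
    calc a * evb hF hd (T 1) * a' * (a * evb hF hd (T (-1)) * a')
        = a * (evb hF hd (T 1) * (a' * a) * evb hF hd (T (-1))) * a' := by noncomm_ring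
      _ = a * ((family K F).p d) * a' := by
          rw [h2, ← evb_one hF hd, ← map_mul, ← map_mul, mul_one, ← T_add]; rfl
      _ = (a * a') * (a * a') := by rw [← h2]; noncomm_ring
      _ = a * a' := by rw [h1, ← map_mul, (family K E).p_mul_self]
  obtain ⟨c', m, hc', hcm⟩ := laurent_unit hk
  have hfin : evb hF hd (T 1) = evb hF hd ((c' * c ^ m) • (T (n * m) : K[T;T⁻¹])) := by
    have e1 : (family K F).p d * evb hF hd (T 1) = evb hF hd (T 1) := by
      rw [← evb_one hF hd, ← map_mul, one_mul]
    have e2 : evb hF hd (T 1) * (family K F).p d = evb hF hd (T 1) := by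
      rw [← evb_one hF hd, ← map_mul, mul_one]
    calc evb hF hd (T 1) = (family K F).p d * evb hF hd (T 1) * (family K F).p d := by
          rw [e1, e2]
      _ = a' * (a * evb hF hd (T 1) * a') * a := by rw [← h2]; noncomm_ring
      _ = a' * (c' • φ (evb hE hb (T m))) * a := by rw [hk1, hcm, map_smul, map_smul]
      _ = c' • g (T m) := by rw [mul_smul_comm, smul_mul_assoc]
      _ = _ := by rw [hpow, ← map_smul, smul_smul]
  have hT := hinj hfin
  have hnm : n * m = 1 := by
    by_contra hne
    have h5 := congrArg (fun f : K[T;T⁻¹] => f.coeff 1) hT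
    simp only [AddMonoidAlgebra.coeff_smul, Finsupp.smul_apply, T_apply] at h5
    rw [if_pos trivial, if_neg hne, smul_zero] at h5
    exact one_ne_zero h5
  have hval : a' * φ (((family K E).ext' hE).x b) * a = evb hF hd (c • T n) := by
    rw [← evb_T hE hb, ← hcn, ← hf1]
  refine ⟨c, hc, ?_⟩
  rcases Int.isUnit_iff.1 (IsUnit.of_mul_eq_one m hnm) with h | h
  · left
    rw [hval, h, map_smul, evb_T]
  · right
    rw [hval, h, map_smul, evb_T_neg]

end LPA

end Pool.Agent.Helper665_GA
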