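import Pool.Agent.Helper665_GA.ValidPaths

/-!
# Graphs whose cycles have no exits: cutting the cycles (helper665)
-/

namespace Pool.Agent.Helper665_GA

open Relation

namespace Graph

variable (G : Graph)

/-- Mutual reachability. -/
def Conn (v w : G.V) : Prop := ReflTransGen G.Adj v w ∧ ReflTransGen G.Adj w v

/-- Mutual reachability as a setoid. -/
def connSetoid : Setoid G.V where
  r := G.Conn
  iseqv :=
    { refl := fun _ => ⟨ReflTransGen.refl, ReflTransGen.refl⟩
      symm := fun h => ⟨h.2, h.1⟩
      trans := fun h1 h2 => ⟨h1.1.trans h2.1, h2.2.trans h1.2⟩ }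

/-- The representative of a vertex in its class. -/
noncomputable def rep (v : G.V) : G.V := (Quotient.mk G.connSetoid v).out

theorem rep_conn (v : G.V) : G.Conn (G.rep v) v := by
  have h : Quotient.mk G.connSetoid (Quotient.mk G.connSetoid v).out
      = Quotient.mk G.connSetoid v := Quotient.out_eq _
  exact @Quotient.exact _ G.connSetoid _ _ h

theorem rep_eq {v w : G.V} (h : G.Conn v w) : G.rep v = G.rep w := by
  have : (Quotient.mk G.connSetoid v) = Quotient.mk G.connSetoid w := Quotient.sound h
  unfold rep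
  rw [this]

/-- Base vertices of cycles. -/
def IsBase (b : G.V) : Prop := G.OnCycle b ∧ G.rep b = b

/-- The graph with the edges at the base vertices removed. -/
abbrev cut : Graph where
  V := G.V
  E := {e : G.E // ¬ G.IsBase (G.src e)}
  src e := G.src e.1
  rng e := G.rng e.1

variable {G}

theorem OnCycle.conn {v w : G.V} (h : G.OnCycle v) (hc : G.Conn v w) : G.OnCycle w := by
  have h1 : TransGen G.Adj w v := TransGen.trans_right hc.2 h
  exact TransGen.trans_left h1 hc.1

theorem OnCycle.exists_edge {v : G.V} (h : G.OnCycle v) : ∃ e, G.src e = v := by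
  obtain ⟨w, ⟨e, he, -⟩, -⟩ := TransGen.head'_iff.1 h
  exact ⟨e, he⟩

theorem OnCycle.rep {v : G.V} (h : G.OnCycle v) : G.OnCycle (G.rep v) :=
  h.conn ⟨(G.rep_conn v).2, (G.rep_conn v).1⟩

theorem rep_rep (v : G.V) : G.rep (G.rep v) = G.rep v := G.rep_eq (G.rep_conn v)

theorem OnCycle.isBase_rep {v : G.V} (h : G.OnCycle v) : G.IsBase (G.rep v) :=
  ⟨h.rep, rep_rep v⟩

theorem OnCycle.next (hG : G.NoExit) {e : G.E} (h : G.OnCycle (G.src e)) :
    G.Conn (G.src e) (G.rng e) := by
  obtain ⟨w, ⟨f, hf, hf'⟩, h2⟩ := TransGen.head'_iff.1 h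
  have : e = f := hG e f h hf.symm
  subst this
  rw [hf']
  exact ⟨ReflTransGen.single ⟨e, rfl, hf'⟩, h2⟩

theorem acyclic_cut (hG : G.NoExit) : G.cut.Acyclic := by
  intro v hv
  have h0 : ∀ {a b : G.V}, G.cut.Adj a b → G.Adj a b := by
    rintro a b ⟨e, h1, h2⟩
    exact ⟨e.1, h1, h2⟩
  have hvG : G.OnCycle v := TransGen.mono (fun a b h => h0 h) _ _ hv
  have key : ∀ w, ReflTransGen G.Adj v w → TransGen G.cut.Adj w w := by
    intro w hw
    induction hw with
    | refl => exact hv
    | tail hvw hwz ih =>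
      obtain ⟨e, he1, he2⟩ := hwz
      obtain ⟨u, ⟨f, hf1, hf2⟩, h2⟩ := TransGen.head'_iff.1 ih
      have honc : G.OnCycle (G.src e) := by
        rw [he1]; exact TransGen.mono (fun a b h => h0 h) _ _ ih
      have hef : e = f.1 := hG e f.1 honc (he1.trans hf1.symm)
      have hu : u = _ := hf2.symm.trans ((congrArg G.rng hef.symm).trans he2)
      rw [hu] at h2
      refine TransGen.tail' h2 ⟨f, hf1, ?_⟩
      exact (congrArg G.rng hef.symm).trans he2
  have h1 := key (G.rep v) (G.rep_conn v).2
  obtain ⟨w, ⟨e, he, -⟩, -⟩ := TransGen.head'_iff.1 h1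
  apply e.2
  have : G.src e.1 = G.rep v := he
  rw [this]
  exact hvG.isBase_rep

theorem exists_list (hG : G.NoExit) {b : G.V} (hb : G.IsBase b) {w : G.V}
    (hw : ReflTransGen G.Adj w b) (hc : G.OnCycle w) (hr : G.rep w = b) :
    ∃ l : List G.cut.E, Valid l b ∧ start l b = w ∧ ∀ e ∈ l, G.OnCycle (G.src e.1) := by
  induction hw using ReflTransGen.head_induction_on with
  | refl => exact ⟨[], trivial, rfl, fun e he => absurd he (by simp)⟩
  | head h1 h2 ih =>
    rename_i a c
    by_cases hab : a = b
    · subst hab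
      exact ⟨[], trivial, rfl, fun e he => absurd he (by simp)⟩
    · obtain ⟨e, he1, he2⟩ := h1
      have hce : G.OnCycle (G.src e) := by rw [he1]; exact hc
      have hconn := hce.next hG
      rw [he1, he2] at hconn
      obtain ⟨l, hl1, hl2, hl3⟩ := ih (hc.conn hconn) (by rw [← G.rep_eq hconn, hr])
      have hnb : ¬ G.IsBase (G.src e) := by
        rw [he1]
        intro h
        exact hab (h.2.symm.trans hr)
      refine ⟨(⟨e, hnb⟩ : G.cut.E) :: l, ⟨?_, hl1⟩, he1, ?_⟩
      · rw [hl2]; exact he2
      · intro f hf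
        rw [List.mem_cons] at hf
        rcases hf with rfl | hf
        · exact hce
        · exact hl3 f hf

open Classical in
/-- For an edge `e` with base source, a path in the cut graph from the range of `e` back to the
base vertex. -/
noncomputable def bl (hG : G.NoExit) (e : G.E) : List G.cut.E :=
  if h : G.IsBase (G.src e) then
    (exists_list hG h (h.1.next hG).2 (h.1.conn (h.1.next hG))
      ((G.rep_eq (h.1.next hG)).symm.trans h.2)).choose
  else []

theorem bl_spec (hG : G.NoExit) {e : G.E} (h : G.IsBase (G.src e)) :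
    Valid (bl hG e) (G.src e) ∧ start (bl hG e) (G.src e) = G.rng e ∧
      ∀ f ∈ bl hG e, G.OnCycle (G.src f.1) := by
  unfold bl
  rw [dif_pos h]
  exact (exists_list hG h (h.1.next hG).2 (h.1.conn (h.1.next hG))
      ((G.rep_eq (h.1.next hG)).symm.trans h.2)).choose_spec

/-- The edge at a base vertex. -/
noncomputable def bedge {b : G.V} (h : G.IsBase b) : G.E := h.1.exists_edge.choose

theorem src_bedge {b : G.V} (h : G.IsBase b) : G.src (bedge h) = b :=
  h.1.exists_edge.choose_spec

theorem eq_bedge (hG : G.NoExit) {b : G.V} (h : G.IsBase b) {e : G.E} (he : G.src e = b) :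
    e = bedge h := by
  apply hG e (bedge h)
  · rw [he]; exact h.1
  · rw [he, src_bedge]

end Graph

namespace LeavittFamily

variable {G : Graph} {A B : Type*} [NonUnitalRing A] [NonUnitalRing B]

theorem tP_mul_sP (X : LeavittFamily G A) {l : List G.E} {v : G.V} (h : Valid l v) :
    X.tP l v * X.sP l v = X.p v := by
  induction l with
  | nil => exact X.p_mul_self v
  | cons e l ih =>
    rw [tP, sP]
    calc X.tP l v * X.t e * (X.s e * X.sP l v)
        = X.tP l v * (X.t e * X.s e) * X.sP l v := by noncomm_ring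
      _ = X.tP l v * X.sP l v := by rw [X.ghost_mul_self, h.1, X.tP_p_start]
      _ = X.p v := ih h.2

theorem s_mul_t_of_onCycle (hG : G.NoExit) (X : LeavittFamily G.cut A) (e : G.cut.E)
    (h : G.OnCycle (G.src e.1)) : X.s e * X.t e = X.p (G.src e.1) := by
  have h1 := X.sum_eq (G.src e.1) {e} ⟨e, Finset.mem_singleton_self e⟩ (fun f => by
    rw [Finset.mem_singleton]
    constructor
    · rintro rfl; rfl
    · intro hf
      apply Subtype.ext
      exact (hG e.1 f.1 h hf.symm).symm)
  rw [Finset.sum_singleton] at h1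
  exact h1

theorem sP_mul_tP (hG : G.NoExit) (X : LeavittFamily G.cut A) {l : List G.cut.E} {v : G.V}
    (h : Valid l v) (hl : ∀ e ∈ l, G.OnCycle (G.src e.1)) :
    X.sP l v * X.tP l v = X.p (start l v) := by
  induction l with
  | nil => exact X.p_mul_self v
  | cons e l ih =>
    rw [tP, sP]
    calc X.s e * X.sP l v * (X.tP l v * X.t e) = X.s e * (X.sP l v * X.tP l v) * X.t e := by
          noncomm_ring
      _ = X.s e * X.p (G.cut.rng e) * X.t e := by
          rw [ih h.2 fun f hf => hl f (List.mem_cons_of_mem _ hf), h.1]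
      _ = X.s e * X.t e := by rw [X.mul_rng]
      _ = _ := s_mul_t_of_onCycle hG X e (hl e List.mem_cons_self)

/-- The restriction of a family to the cut graph. -/
def restrict (Y : LeavittFamily G A) : LeavittFamily G.cut A where
  p := Y.p
  s e := Y.s e.1
  t e := Y.t e.1
  p_mul_self := Y.p_mul_self
  p_mul_of_ne := Y.p_mul_of_ne
  src_mul e := Y.src_mul e.1
  mul_rng e := Y.mul_rng e.1
  rng_mul e := Y.rng_mul e.1
  mul_src e := Y.mul_src e.1
  ghost_mul_self e := Y.ghost_mul_self e.1
  ghost_mul_of_ne e f h := Y.ghost_mul_of_ne e.1 f.1 fun h' => h (Subtype.ext h')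
  sum_eq v S hS hmem := by
    have h1 := Y.sum_eq v (S.map ⟨Subtype.val, Subtype.val_injective⟩) (hS.map) (fun e => by
      rw [Finset.mem_map]
      constructor
      · rintro ⟨f, hf, rfl⟩
        exact (hmem f).1 hf
      · intro he
        obtain ⟨f, hf⟩ := hS
        have hfv : G.src f.1 = v := (hmem f).1 hf
        have hnb : ¬ G.IsBase (G.src e) := by
          rw [he, ← hfv]; exact f.2
        exact ⟨⟨e, hnb⟩, (hmem ⟨e, hnb⟩).2 he, rfl⟩)
    rw [Finset.sum_map] at h1
    exact h1

/-- Invertible elements in the corners at the base vertices. -/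
structure ExtData (G : Graph) {A : Type*} [NonUnitalRing A] (X : LeavittFamily G.cut A) where
  /-- the invertible elements -/
  x : G.V → A
  /-- their inverses -/
  y : G.V → A
  px : ∀ b, G.IsBase b → X.p b * x b = x b
  yp : ∀ b, G.IsBase b → y b * X.p b = y b
  xy : ∀ b, G.IsBase b → x b * y b = X.p b
  yx : ∀ b, G.IsBase b → y b * x b = X.p b

namespace ExtData

variable {X : LeavittFamily G.cut A} (D : ExtData G X)

theorem xp {b : G.V} (hb : G.IsBase b) : D.x b * X.p b = D.x b := by
  rw [← D.yx b hb, ← mul_assoc, D.xy b hb, D.px b hb]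

theorem py {b : G.V} (hb : G.IsBase b) : X.p b * D.y b = D.y b := by
  rw [← D.yx b hb, mul_assoc, D.xy b hb, D.yp b hb]

/-- The image under a homomorphism. -/
def map {F : Type*} [FunLike F A B] [NonUnitalRingHomClass F A B] (f : F) :
    ExtData G (X.map f) where
  x b := f (D.x b)
  y b := f (D.y b)
  px b hb := by rw [map_p, ← map_mul, D.px b hb]
  yp b hb := by rw [map_p, ← map_mul, D.yp b hb]
  xy b hb := by rw [map_p, ← map_mul, D.xy b hb]
  yx b hb := by rw [map_p, ← map_mul, D.yx b hb]

end ExtData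

open Classical in
/-- The family of the graph obtained from a family of the cut graph and invertible elements. -/
noncomputable def glue (hG : G.NoExit) (X : LeavittFamily G.cut A) (D : ExtData G X) :
    LeavittFamily G A :=
  have h1 : ∀ e : G.E, X.p (G.src e) * (if h : G.IsBase (G.src e) then
      D.x (G.src e) * X.tP (Graph.bl hG e) (G.src e) else X.s ⟨e, h⟩)
      = if h : G.IsBase (G.src e) then
      D.x (G.src e) * X.tP (Graph.bl hG e) (G.src e) else X.s ⟨e, h⟩ := by
    intro e
    split_ifs with h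
    · rw [← mul_assoc, D.px _ h]
    · exact X.src_mul ⟨e, h⟩
  have h2 : ∀ e : G.E, (if h : G.IsBase (G.src e) then
      X.sP (Graph.bl hG e) (G.src e) * D.y (G.src e) else X.t ⟨e, h⟩) * X.p (G.src e)
      = if h : G.IsBase (G.src e) then
      X.sP (Graph.bl hG e) (G.src e) * D.y (G.src e) else X.t ⟨e, h⟩ := by
    intro e
    split_ifs with h
    · rw [mul_assoc, D.yp _ h]
    · exact X.mul_src ⟨e, h⟩
  { p := X.p
    s := fun e => if h : G.IsBase (G.src e) then
      D.x (G.src e) * X.tP (Graph.bl hG e) (G.src e) else X.s ⟨e, h⟩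
    t := fun e => if h : G.IsBase (G.src e) then
      X.sP (Graph.bl hG e) (G.src e) * D.y (G.src e) else X.t ⟨e, h⟩
    p_mul_self := X.p_mul_self
    p_mul_of_ne := X.p_mul_of_ne
    src_mul := h1
    mul_rng := fun e => by
      split_ifs with h
      · have h3 := X.tP_p_start (Graph.bl hG e) (G.src e)
        rw [(Graph.bl_spec hG h).2.1] at h3
        rw [mul_assoc, h3]
      · exact X.mul_rng ⟨e, h⟩
    rng_mul := fun e => by
      split_ifs with h
      · have h3 := X.p_start_sP (Graph.bl hG e) (G.src e)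
        rw [(Graph.bl_spec hG h).2.1] at h3
        rw [← mul_assoc, h3]
      · exact X.rng_mul ⟨e, h⟩
    mul_src := h2
    ghost_mul_self := fun e => by
      split_ifs with h
      · have h3 := X.sP_mul_tP hG (Graph.bl_spec hG h).1 (Graph.bl_spec hG h).2.2
        rw [(Graph.bl_spec hG h).2.1] at h3
        calc X.sP (Graph.bl hG e) (G.src e) * D.y (G.src e) *
              (D.x (G.src e) * X.tP (Graph.bl hG e) (G.src e))
            = X.sP (Graph.bl hG e) (G.src e) * (D.y (G.src e) * D.x (G.src e)) *
              X.tP (Graph.bl hG e) (G.src e) := by noncomm_ring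
          _ = X.p (G.rng e) := by rw [D.yx _ h, X.sP_mul_p, h3]
      · exact X.ghost_mul_self ⟨e, h⟩
    ghost_mul_of_ne := fun e f hef => by
      by_cases hsrc : G.src e = G.src f
      · by_cases h : G.IsBase (G.src e)
        · exact absurd (hG e f h.1 hsrc) hef
        · have h' : ¬ G.IsBase (G.src f) := by rw [← hsrc]; exact h
          rw [dif_neg h, dif_neg h']
          exact X.ghost_mul_of_ne _ _ fun hc => hef (congrArg Subtype.val hc)
      · rw [← h1 f, ← h2 e, mul_assoc, ← mul_assoc (X.p _), X.p_mul_of_ne _ _ hsrc, zero_mul,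
          mul_zero]
    sum_eq := fun v S hS hmem => by
      by_cases hv : G.IsBase v
      · have hS1 : S = {Graph.bedge hv} := by
          ext e
          rw [hmem, Finset.mem_singleton]
          constructor
          · exact fun he => Graph.eq_bedge hG hv he
          · rintro rfl; exact Graph.src_bedge hv
        rw [hS1, Finset.sum_singleton]
        have hb : G.IsBase (G.src (Graph.bedge hv)) := by rw [Graph.src_bedge]; exact hv
        rw [dif_pos hb, dif_pos hb]
        calc D.x (G.src (Graph.bedge hv)) * X.tP (Graph.bl hG (Graph.bedge hv))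
              (G.src (Graph.bedge hv)) * (X.sP (Graph.bl hG (Graph.bedge hv))
              (G.src (Graph.bedge hv)) * D.y (G.src (Graph.bedge hv)))
            = D.x (G.src (Graph.bedge hv)) * (X.tP (Graph.bl hG (Graph.bedge hv))
              (G.src (Graph.bedge hv)) * X.sP (Graph.bl hG (Graph.bedge hv))
              (G.src (Graph.bedge hv))) * D.y (G.src (Graph.bedge hv)) := by noncomm_ring
          _ = X.p v := by
            rw [X.tP_mul_sP (Graph.bl_spec hG hb).1, D.xp hb, D.xy _ hb, Graph.src_bedge]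
      · have h3 := X.sum_eq v (S.subtype fun e => ¬ G.IsBase (G.src e)) (by
          obtain ⟨e, he⟩ := hS
          have hnb : ¬ G.IsBase (G.src e) := by rw [(hmem e).1 he]; exact hv
          exact ⟨⟨e, hnb⟩, Finset.mem_subtype.2 he⟩) (fun e => by
          rw [Finset.mem_subtype]; exact hmem e.1)
        rw [← h3]
        symm
        apply Finset.sum_bij (fun (e : G.cut.E) _ => e.1)
        · intro e he; exact Finset.mem_subtype.1 he
        · intro e _ f _ h; exact Subtype.ext h
        · intro e he
          have hnb : ¬ G.IsBase (G.src e) := by rw [(hmem e).1 he]; exact hv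
          exact ⟨⟨e, hnb⟩, Finset.mem_subtype.2 he, rfl⟩
        · intro e _
          rw [dif_neg e.2, dif_neg e.2] }

theorem glue_p (hG : G.NoExit) (X : LeavittFamily G.cut A) (D : ExtData G X) :
    (glue hG X D).p = X.p := rfl

theorem glue_s_base (hG : G.NoExit) (X : LeavittFamily G.cut A) (D : ExtData G X) {e : G.E}
    (h : G.IsBase (G.src e)) :
    (glue hG X D).s e = D.x (G.src e) * X.tP (Graph.bl hG e) (G.src e) := dif_pos h

theorem glue_t_base (hG : G.NoExit) (X : LeavittFamily G.cut A) (D : ExtData G X) {e : G.E}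
    (h : G.IsBase (G.src e)) :
    (glue hG X D).t e = X.sP (Graph.bl hG e) (G.src e) * D.y (G.src e) := dif_pos h

theorem glue_s_nonbase (hG : G.NoExit) (X : LeavittFamily G.cut A) (D : ExtData G X)
    (e : G.cut.E) : (glue hG X D).s e.1 = X.s e := dif_neg e.2

theorem glue_t_nonbase (hG : G.NoExit) (X : LeavittFamily G.cut A) (D : ExtData G X)
    (e : G.cut.E) : (glue hG X D).t e.1 = X.t e := dif_neg e.2

theorem restrict_glue (hG : G.NoExit) (X : LeavittFamily G.cut A) (D : ExtData G X) :
    (glue hG X D).restrict = X := by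
  ext x
  · rfl
  · exact glue_s_nonbase hG X D x
  · exact glue_t_nonbase hG X D x

theorem restrict_map {F : Type*} [FunLike F A B] [NonUnitalRingHomClass F A B] (f : F)
    (Y : LeavittFamily G A) : (Y.map f).restrict = Y.restrict.map f := rfl

open Classical in
/-- The invertible elements of a family. -/
noncomputable def ext' (hG : G.NoExit) (Y : LeavittFamily G A) : ExtData G Y.restrict where
  x b := if h : G.IsBase b then
    Y.s (Graph.bedge h) * Y.restrict.sP (Graph.bl hG (Graph.bedge h)) b else 0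
  y b := if h : G.IsBase b then
    Y.restrict.tP (Graph.bl hG (Graph.bedge h)) b * Y.t (Graph.bedge h) else 0
  px b hb := by
    rw [dif_pos hb, ← mul_assoc]
    have h1 := Y.src_mul (Graph.bedge hb)
    rw [Graph.src_bedge] at h1
    show Y.p b * Y.s _ * _ = _
    rw [h1]
  yp b hb := by
    rw [dif_pos hb, mul_assoc]
    have h1 := Y.mul_src (Graph.bedge hb)
    rw [Graph.src_bedge] at h1
    show _ * (Y.t _ * Y.p b) = _
    rw [h1]
  xy b hb := by
    rw [dif_pos hb, dif_pos hb]
    have hb' : G.IsBase (G.src (Graph.bedge hb)) := by rw [Graph.src_bedge]; exact hb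
    have h0 := Graph.bl_spec hG hb'
    rw [Graph.src_bedge] at h0
    have h1 := Y.restrict.sP_mul_tP hG h0.1 h0.2.2
    have h2 := Y.sum_eq b {Graph.bedge hb} ⟨_, Finset.mem_singleton_self _⟩ (fun f => by
      rw [Finset.mem_singleton]
      constructor
      · rintro rfl; exact Graph.src_bedge hb
      · exact fun h => Graph.eq_bedge hG hb h)
    rw [Finset.sum_singleton] at h2
    calc Y.s (Graph.bedge hb) * Y.restrict.sP (Graph.bl hG (Graph.bedge hb)) b *
          (Y.restrict.tP (Graph.bl hG (Graph.bedge hb)) b * Y.t (Graph.bedge hb))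
        = Y.s (Graph.bedge hb) * (Y.restrict.sP (Graph.bl hG (Graph.bedge hb)) b *
          Y.restrict.tP (Graph.bl hG (Graph.bedge hb)) b) * Y.t (Graph.bedge hb) := by
          noncomm_ring
      _ = Y.s (Graph.bedge hb) * Y.p (G.rng (Graph.bedge hb)) * Y.t (Graph.bedge hb) := by
          rw [h1, h0.2.1]; rfl
      _ = Y.p b := by rw [Y.mul_rng, h2]
  yx b hb := by
    rw [dif_pos hb, dif_pos hb]
    have hb' : G.IsBase (G.src (Graph.bedge hb)) := by rw [Graph.src_bedge]; exact hb
    have h0 := Graph.bl_spec hG hb'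
    rw [Graph.src_bedge] at h0
    have h1 := Y.restrict.tP_mul_sP h0.1
    have h3 := Y.restrict.p_start_sP (Graph.bl hG (Graph.bedge hb)) b
    rw [h0.2.1] at h3
    calc Y.restrict.tP (Graph.bl hG (Graph.bedge hb)) b * Y.t (Graph.bedge hb) *
          (Y.s (Graph.bedge hb) * Y.restrict.sP (Graph.bl hG (Graph.bedge hb)) b)
        = Y.restrict.tP (Graph.bl hG (Graph.bedge hb)) b * (Y.t (Graph.bedge hb) *
          Y.s (Graph.bedge hb)) * Y.restrict.sP (Graph.bl hG (Graph.bedge hb)) b := by
          noncomm_ring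
      _ = Y.restrict.tP (Graph.bl hG (Graph.bedge hb)) b *
          (Y.restrict.p (G.rng (Graph.bedge hb)) *
          Y.restrict.sP (Graph.bl hG (Graph.bedge hb)) b) := by
          rw [Y.ghost_mul_self, mul_assoc]; rfl
      _ = Y.restrict.p b := by rw [h3, h1]

theorem ext'_x (hG : G.NoExit) (Y : LeavittFamily G A) {b : G.V} (h : G.IsBase b) :
    (Y.ext' hG).x b = Y.s (Graph.bedge h) * Y.restrict.sP (Graph.bl hG (Graph.bedge h)) b :=
  dif_pos h

theorem ext'_y (hG : G.NoExit) (Y : LeavittFamily G A) {b : G.V} (h : G.IsBase b) :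
    (Y.ext' hG).y b = Y.restrict.tP (Graph.bl hG (Graph.bedge h)) b * Y.t (Graph.bedge h) :=
  dif_pos h

theorem ext'_glue_x (hG : G.NoExit) (X : LeavittFamily G.cut A) (D : ExtData G X) {b : G.V}
    (h : G.IsBase b) : ((glue hG X D).ext' hG).x b = D.x b := by
  have hb' : G.IsBase (G.src (Graph.bedge h)) := by rw [Graph.src_bedge]; exact h
  rw [ext'_x hG _ h, restrict_glue, glue_s_base hG X D hb', Graph.src_bedge, mul_assoc]
  have h0 := Graph.bl_spec hG hb'
  rw [Graph.src_bedge] at h0
  rw [X.tP_mul_sP h0.1, D.xp h]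

theorem ext'_glue_y (hG : G.NoExit) (X : LeavittFamily G.cut A) (D : ExtData G X) {b : G.V}
    (h : G.IsBase b) : ((glue hG X D).ext' hG).y b = D.y b := by
  have hb' : G.IsBase (G.src (Graph.bedge h)) := by rw [Graph.src_bedge]; exact h
  rw [ext'_y hG _ h, restrict_glue, glue_t_base hG X D hb', Graph.src_bedge, ← mul_assoc]
  have h0 := Graph.bl_spec hG hb'
  rw [Graph.src_bedge] at h0
  rw [X.tP_mul_sP h0.1, D.py h]

theorem ext'_map_x (hG : G.NoExit) {F : Type*} [FunLike F A B] [NonUnitalRingHomClass F A B]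
    (f : F) (Y : LeavittFamily G A) (b : G.V) : ((Y.map f).ext' hG).x b = f ((Y.ext' hG).x b) := by
  by_cases h : G.IsBase b
  · rw [ext'_x hG _ h, ext'_x hG _ h, map_mul, map_sP]; rfl
  · have h1 : ((Y.map f).ext' hG).x b = 0 := dif_neg h
    have h2 : (Y.ext' hG).x b = 0 := dif_neg h
    rw [h1, h2, map_zero]

theorem ext'_map_y (hG : G.NoExit) {F : Type*} [FunLike F A B] [NonUnitalRingHomClass F A B]
    (f : F) (Y : LeavittFamily G A) (b : G.V) : ((Y.map f).ext' hG).y b = f ((Y.ext' hG).y b) := by
  by_cases h : G.IsBase b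
  · rw [ext'_y hG _ h, ext'_y hG _ h, map_mul, map_tP]; rfl
  · have h1 : ((Y.map f).ext' hG).y b = 0 := dif_neg h
    have h2 : (Y.ext' hG).y b = 0 := dif_neg h
    rw [h1, h2, map_zero]

/-- A family is determined by its restriction and its invertible elements. -/
theorem ext_of (hG : G.NoExit) {Y Z : LeavittFamily G A} (h : Y.restrict = Z.restrict)
    (hx : ∀ b, G.IsBase b → (Y.ext' hG).x b = (Z.ext' hG).x b) : Y = Z := by
  have hy : ∀ b, G.IsBase b → (Y.ext' hG).y b = (Z.ext' hG).y b := by
    intro b hb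
    have h1 : Y.restrict.p b = Z.restrict.p b := by rw [h]
    calc (Y.ext' hG).y b = (Y.ext' hG).y b * Y.restrict.p b := ((Y.ext' hG).yp b hb).symm
      _ = (Y.ext' hG).y b * ((Z.ext' hG).x b * (Z.ext' hG).y b) := by
          rw [(Z.ext' hG).xy b hb, h1]
      _ = (Y.ext' hG).y b * (Y.ext' hG).x b * (Z.ext' hG).y b := by rw [← hx b hb, mul_assoc]
      _ = Z.restrict.p b * (Z.ext' hG).y b := by rw [(Y.ext' hG).yx b hb, h1]
      _ = (Z.ext' hG).y b := (Z.ext' hG).py hb
  have key : ∀ (W : LeavittFamily G A) (e : G.E) (hb : G.IsBase (G.src e)),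
      W.s e = (W.ext' hG).x (G.src e) * W.restrict.tP (Graph.bl hG e) (G.src e) ∧
      W.t e = W.restrict.sP (Graph.bl hG e) (G.src e) * (W.ext' hG).y (G.src e) := by
    intro W e hb
    have he : e = Graph.bedge hb := Graph.eq_bedge hG hb rfl
    have h0 := Graph.bl_spec hG hb
    have h1 := W.restrict.sP_mul_tP hG h0.1 h0.2.2
    rw [h0.2.1] at h1
    constructor
    · rw [ext'_x hG W hb, ← he, mul_assoc, h1]
      exact (W.mul_rng e).symm
    · rw [ext'_y hG W hb, ← he, ← mul_assoc, h1]
      exact (W.rng_mul e).symm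
  have hs : Y.s = Z.s := by
    funext e
    by_cases hb : G.IsBase (G.src e)
    · rw [(key Y e hb).1, (key Z e hb).1, hx _ hb, h]
    · exact congrFun (congrArg LeavittFamily.s h) (⟨e, hb⟩ : G.cut.E)
  have ht : Y.t = Z.t := by
    funext e
    by_cases hb : G.IsBase (G.src e)
    · rw [(key Y e hb).2, (key Z e hb).2, hy _ hb, h]
    · exact congrFun (congrArg LeavittFamily.t h) (⟨e, hb⟩ : G.cut.E)
  have hp : Y.p = Z.p := by
    funext v
    exact congrFun (congrArg (fun W : LeavittFamily G.cut A => W.p) h) v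
  exact LeavittFamily.ext hp hs ht

end LeavittFamily

end Pool.Agent.Helper665_GA
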