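import Pool.Agent.Helper665_GA.Steps

/-!
# The polar decomposition step (helper665)
-/

namespace Pool.Agent.Helper665_GA

section psqrt

variable {B : Type*} [CStarAlgebra B]

/-- The positive square root in a unital C*-algebra (for the spectral order). -/
noncomputable def psqrt (a : B) : B :=
  letI := CStarAlgebra.spectralOrder B
  haveI := CStarAlgebra.spectralOrderedRing B
  CFC.sqrt a

theorem psqrt_star (a : B) : star (psqrt a) = psqrt a := by
  let _ := CStarAlgebra.spectralOrder B
  have _ := CStarAlgebra.spectralOrderedRing B
  exact (IsSelfAdjoint.of_nonneg (CFC.sqrt_nonneg a)).star_eq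

theorem psqrt_mul_self (y : B) : psqrt (y * star y) * psqrt (y * star y) = y * star y := by
  let _ := CStarAlgebra.spectralOrder B
  have _ := CStarAlgebra.spectralOrderedRing B
  exact CFC.sqrt_mul_sqrt_self _ (mul_star_self_nonneg y)

theorem psqrt_commute {a b : B} (h : a * b = b * a) : psqrt a * b = b * psqrt a := by
  let _ := CStarAlgebra.spectralOrder B
  have _ := CStarAlgebra.spectralOrderedRing B
  exact (Commute.cfcₙ_nnreal (show Commute a b from h) _).eq

theorem map_psqrt {C : Type*} [CStarAlgebra C] (f : B →⋆ₐ[ℂ] C) (y : B) :
    f (psqrt (y * star y)) = psqrt (f (y * star y)) := by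
  let _ := CStarAlgebra.spectralOrder B
  have _ := CStarAlgebra.spectralOrderedRing B
  let _ := CStarAlgebra.spectralOrder C
  have _ := CStarAlgebra.spectralOrderedRing C
  symm
  apply CFC.sqrt_unique
  · rw [← map_mul, psqrt_mul_self]
  · have h : (0 : B) ≤ psqrt (y * star y) := CFC.sqrt_nonneg _
    have := OrderHomClass.mono f h
    simpa using this

theorem psqrt_proj {q : B} (h1 : star q = q) (h2 : q * q = q) : psqrt q = q := by
  let _ := CStarAlgebra.spectralOrder B
  have _ := CStarAlgebra.spectralOrderedRing B
  have hq := mul_star_self_nonneg q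
  rw [h1, h2] at hq
  exact CFC.sqrt_unique h2 hq

end psqrt

section local_facts

variable {B : Type*} [CStarAlgebra B] {x y q : B}

/-- Local data at an edge. -/
structure EdgeData (x y q : B) : Prop where
  yx : y * x = q
  xq : x * q = x
  qy : q * y = y
  qs : star q = q
  xys : star (x * y) = x * y

namespace EdgeData

theorem qq (h : EdgeData x y q) : q * q = q := by
  calc q * q = (y * x) * q := by rw [h.yx]
    _ = q := by rw [mul_assoc, h.xq, h.yx]

theorem ac (h : EdgeData x y q) : (y * star y) * (star x * x) = q := by
  calc (y * star y) * (star x * x) = y * star (x * y) * x := by rw [star_mul]; noncomm_ring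
    _ = (y * x) * (y * x) := by rw [h.xys]; noncomm_ring
    _ = q := by rw [h.yx, h.qq]

theorem ca (h : EdgeData x y q) : (star x * x) * (y * star y) = q := by
  calc (star x * x) * (y * star y) = star x * (x * y) * star y := by noncomm_ring
    _ = star x * star (x * y) * star y := by rw [h.xys]
    _ = star (y * x * (y * x)) := by simp only [star_mul]; noncomm_ring
    _ = q := by rw [h.yx, h.qq, h.qs]

theorem qa (h : EdgeData x y q) : q * (y * star y) = (y * star y) * q := by
  have h1 : star y * q = star y := by
    have := congrArg star h.qy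
    rwa [star_mul, h.qs] at this
  rw [← mul_assoc, h.qy, mul_assoc, h1]

theorem qw (h : EdgeData x y q) : q * psqrt (y * star y) = psqrt (y * star y) := by
  have hc := psqrt_commute (h.qa.symm)
  have h0 : (1 - q) * psqrt (y * star y) = 0 := by
    rw [← CStarRing.mul_star_self_eq_zero_iff, star_mul, psqrt_star, star_sub, star_one, h.qs]
    calc (1 - q) * psqrt (y * star y) * (psqrt (y * star y) * (1 - q))
        = (1 - q) * (psqrt (y * star y) * psqrt (y * star y)) * (1 - q) := by noncomm_ring
      _ = (y * star y - (q * y) * star y) * (1 - q) := by rw [psqrt_mul_self]; noncomm_ring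
      _ = 0 := by rw [h.qy]; simp
  have : q * psqrt (y * star y) = psqrt (y * star y) - (1 - q) * psqrt (y * star y) := by
    noncomm_ring
  rw [this, h0, sub_zero]

theorem wq (h : EdgeData x y q) : psqrt (y * star y) * q = psqrt (y * star y) := by
  rw [psqrt_commute (h.qa.symm), h.qw]

theorem wcw (h : EdgeData x y q) :
    psqrt (y * star y) * (star x * x) * psqrt (y * star y) = q := by
  have hc : psqrt (y * star y) * (star x * x) = (star x * x) * psqrt (y * star y) :=
    psqrt_commute (h.ac.trans h.ca.symm)
  rw [hc, mul_assoc, psqrt_mul_self, h.ca]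

theorem star_xw_mul (h : EdgeData x y q) :
    star (x * psqrt (y * star y)) * (x * psqrt (y * star y)) = q := by
  rw [star_mul, psqrt_star]
  calc psqrt (y * star y) * star x * (x * psqrt (y * star y))
      = psqrt (y * star y) * (star x * x) * psqrt (y * star y) := by noncomm_ring
    _ = q := h.wcw

theorem xw_mul_star (h : EdgeData x y q) :
    (x * psqrt (y * star y)) * star (x * psqrt (y * star y)) = x * y := by
  rw [star_mul, psqrt_star]
  calc x * psqrt (y * star y) * (psqrt (y * star y) * star x)
      = x * (psqrt (y * star y) * psqrt (y * star y)) * star x := by noncomm_ring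
    _ = (x * y) * star (x * y) := by rw [psqrt_mul_self, star_mul]; noncomm_ring
    _ = x * (y * x) * y := by rw [h.xys]; noncomm_ring
    _ = x * y := by rw [h.yx, h.xq]

end EdgeData

end local_facts

namespace LeavittFamily

variable {G : Graph} {B : Type*} [CStarAlgebra B]

/-- A Leavitt family with self-adjoint vertices and self-adjoint edge idempotents. -/
structure Straight (X : LeavittFamily G B) : Prop where
  p_star : ∀ v, star (X.p v) = X.p v
  st_star : ∀ e, star (X.s e * X.t e) = X.s e * X.t e

theorem Straight.edgeData {X : LeavittFamily G B} (h : X.Straight) (e : G.E) :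
    EdgeData (X.s e) (X.t e) (X.p (G.rng e)) where
  yx := X.ghost_mul_self e
  xq := X.mul_rng e
  qy := X.rng_mul e
  qs := h.p_star _
  xys := h.st_star e

/-- The polar decomposition step. -/
noncomputable def polar (X : LeavittFamily G B) (h : X.Straight) : CKFamily G B where
  p := X.p
  s e := X.s e * psqrt (X.t e * star (X.t e))
  p_star := h.p_star
  p_mul_self := X.p_mul_self
  p_mul_of_ne := X.p_mul_of_ne
  star_mul_self e := (h.edgeData e).star_xw_mul
  range_orth e f hef := by
    rw [(h.edgeData e).xw_mul_star, (h.edgeData f).xw_mul_star, st_orth X e f hef]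
  range_le e := by
    rw [(h.edgeData e).xw_mul_star, ← mul_assoc, X.src_mul]
  sum_eq v S hS hS' := by
    rw [← X.sum_eq v S hS hS']
    exact Finset.sum_congr rfl fun e _ => (h.edgeData e).xw_mul_star

end LeavittFamily

end Pool.Agent.Helper665_GA
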