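import Pool.Agent.Helper665_GA.CModel

/-!
# Leavitt path algebras and graph C*-algebras via their universal properties (helper665)
-/

namespace Pool.Agent.Helper665_GA

/-- A Leavitt path algebra of `G` over `K`: a `K`-algebra `Alg` (not necessarily with unit) with a
Leavitt `G`-family which is universal among Leavitt `G`-families in `K`-algebras. -/
structure LeavittAlgebra (K : Type) [Field K] (G : Graph) where
  /-- the algebra -/
  Alg : Type
  [ring : NonUnitalRing Alg]
  [module : Module K Alg]
  [tower : IsScalarTower K Alg Alg]
  [comm : SMulCommClass K Alg Alg]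
  /-- the universal Leavitt family -/
  fam : LeavittFamily G Alg
  universal : ∀ (B : Type) [NonUnitalRing B] [Module K B] [IsScalarTower K B B]
    [SMulCommClass K B B] (Y : LeavittFamily G B), ∃! π : Alg →ₙₐ[K] B,
      (∀ v, π (fam.p v) = Y.p v) ∧ (∀ e, π (fam.s e) = Y.s e) ∧ ∀ e, π (fam.t e) = Y.t e

/-- Leavitt path algebras exist. -/
theorem nonempty_leavittAlgebra (K : Type) [Field K] (G : Graph) :
    Nonempty (LeavittAlgebra K G) :=
  ⟨{ Alg := LPA K G
     fam := LPA.family K G
     universal := fun B _ _ _ _ Y => by
       refine ⟨LPA.lift Y, ?_, ?_⟩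
       · have h := LPA.lift_family (K := K) Y
         exact ⟨fun v => congrFun (congrArg LeavittFamily.p h) v,
           fun e => congrFun (congrArg LeavittFamily.s h) e,
           fun e => congrFun (congrArg LeavittFamily.t h) e⟩
       · intro π hπ
         apply LPA.hom_ext
         rw [LPA.lift_family]
         exact LeavittFamily.ext (funext hπ.1) (funext hπ.2.1) (funext hπ.2.2) }⟩

/-- The Leavitt path algebra of `G` over `K`, with its universal Leavitt family. -/
noncomputable def theLeavittAlgebra (K : Type) [Field K] (G : Graph) : LeavittAlgebra K G :=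
  Classical.choice (nonempty_leavittAlgebra K G)

/-- The Leavitt path algebra `L_K(G)`. -/
def Leavitt (K : Type) [Field K] (G : Graph) : Type := (theLeavittAlgebra K G).Alg

noncomputable instance (K : Type) [Field K] (G : Graph) : NonUnitalRing (Leavitt K G) :=
  (theLeavittAlgebra K G).ring

noncomputable instance (K : Type) [Field K] (G : Graph) : Module K (Leavitt K G) :=
  (theLeavittAlgebra K G).module

/-- The universal Leavitt family in `L_K(G)`: vertices, edges and ghost edges. -/
noncomputable def Leavitt.family (K : Type) [Field K] (G : Graph) :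
    LeavittFamily G (Leavitt K G) := (theLeavittAlgebra K G).fam

/-- A graph C*-algebra of `G`: a C*-algebra `Alg` with a Cuntz-Krieger `G`-family which is
universal among Cuntz-Krieger `G`-families in C*-algebras. -/
structure GraphCStar (G : Graph) where
  /-- the C*-algebra -/
  Alg : Type
  [inst : NonUnitalCStarAlgebra Alg]
  /-- the universal Cuntz-Krieger family -/
  fam : CKFamily G Alg
  universal : ∀ (B : Type) [NonUnitalCStarAlgebra B] (Y : CKFamily G B),
    ∃! π : Alg →⋆ₙₐ[ℂ] B, (∀ v, π (fam.p v) = Y.p v) ∧ ∀ e, π (fam.s e) = Y.s e

/-- Graph C*-algebras exist. -/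
theorem nonempty_graphCStar (G : Graph) : Nonempty (GraphCStar G) :=
  ⟨{ Alg := CModel G
     fam := CModel.family G
     universal := fun B _ Y => by
       refine ⟨CModel.lift Y, ?_, ?_⟩
       · have h := CModel.lift_family Y
         exact ⟨fun v => congrFun (congrArg CKFamily.p h) v,
           fun e => congrFun (congrArg CKFamily.s h) e⟩
       · intro π hπ
         apply CModel.hom_ext
         rw [CModel.lift_family]
         exact CKFamily.ext (funext hπ.1) (funext hπ.2) }⟩

/-- The graph C*-algebra of `G`, with its universal Cuntz-Krieger family. -/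
noncomputable def theGraphCStar (G : Graph) : GraphCStar G :=
  Classical.choice (nonempty_graphCStar G)

/-- The graph C*-algebra `C*(G)`. -/
def CStar (G : Graph) : Type := (theGraphCStar G).Alg

noncomputable instance (G : Graph) : NonUnitalCStarAlgebra (CStar G) := (theGraphCStar G).inst

end Pool.Agent.Helper665_GA
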