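import Pool.Agent.Helper665_GA.StarK
import Pool.Agent.Helper665_GA.Limit

/-!
# Standard matrix units of Leavitt path algebras of acyclic graphs (helper665)
-/

namespace Pool.Agent.Helper665_GA

set_option linter.unusedSectionVars false

namespace MU

variable {A : Type*} [NonUnitalRing A] [StarRing A]

theorem isStd_zero (T : MU A) : T.IsStd 0 := ⟨∅, id, by simp, by simp, by simp⟩

theorem isStd_of_m {T1 T2 : MU A} (h : ∀ i j, T2.IsStd (T1.m i j)) {x : A} (hx : T1.IsStd x) :
    T2.IsStd x := by
  obtain ⟨D, e, he, hb, rfl⟩ := hx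
  apply T2.isStd_sum
  · exact fun i _ => h _ _
  · intro i _ j _ hij
    rw [T1.star_m, T1.mul_ne _ _ _ _ hij]
  · intro i hi j hj hij
    rw [T1.star_m, T1.mul_ne]
    exact fun h2 => hij (he hi hj h2)

theorem isStd_sub (T : MU A) {x y : A} (hx : T.IsStd x) (hy : T.IsStd y) (hxx : x * x = x)
    (hyy : y * y = y) (hxy : x * y = y) : T.IsStd (x - y) := by
  classical
  obtain ⟨D, rfl⟩ := T.isStd_idem hx hxx
  obtain ⟨D', rfl⟩ := T.isStd_idem hy hyy
  have h1 : T.diag D - T.diag D' = T.diag (D \ (D ∩ D')) := by
    conv_lhs => rw [← hxy]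
    rw [T.diag_mul_diag, sub_eq_iff_eq_add]
    exact (Finset.sum_sdiff Finset.inter_subset_left).symm
  rw [h1]
  exact T.isStd_diag _

end MU

namespace LPA

variable {K : Type*} [Field K] [StarRing K] {G : Graph}

variable (K) in
open Classical in
/-- The matrix units of a finite subgraph. -/
noncomputable def pathMU (hG : G.Acyclic) (E0 : Finset G.E) (V0 : Finset G.V) :
    MU (LPA K G) where
  ι := {x : List G.E × G.V // (Valid x.1 x.2 ∧ (∀ e ∈ x.1, e ∈ E0) ∧ x.2 ∈ V0) ∧
    (family K G).qv E0 x.2 ≠ 0}
  fin := ((finite_paths hG E0 V0).subset fun _ hx => hx.1).fintype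
  dec := Classical.decEq _
  W := G.V
  blk x := x.1.2
  m α β := if α.1.2 = β.1.2 then
    sp K G α.1.1 α.1.2 * (family K G).qv E0 α.1.2 * tp K G β.1.1 β.1.2 else 0
  off α β h := if_neg h
  mul_ne α β γ δ h := by
    split_ifs with h1 h2
    · have h3 := (family K G).qv_tP_sP_qv β.2.1.1 β.2.1.2.1 γ.2.1.2.1 (v' := γ.1.2)
      rw [if_neg] at h3
      · calc _ = sp K G α.1.1 α.1.2 * ((family K G).qv E0 β.1.2 * (tp K G β.1.1 β.1.2
              * sp K G γ.1.1 γ.1.2) * (family K G).qv E0 γ.1.2) * tp K G δ.1.1 δ.1.2 := by
              rw [h1]; noncomm_ring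
          _ = 0 := by rw [h3, mul_zero, zero_mul]
      · rintro ⟨h4, h5⟩
        exact h (Subtype.ext (Prod.ext h4 h5))
    · exact mul_zero _
    · exact zero_mul _
    · exact zero_mul _
  mul_eq α β γ h1 h2 := by
    change α.1.2 = β.1.2 at h1
    change β.1.2 = γ.1.2 at h2
    rw [if_pos h1, if_pos h2, if_pos (h1.trans h2)]
    have h3 := (family K G).qv_tP_sP_qv β.2.1.1 β.2.1.2.1 β.2.1.2.1 (v' := β.1.2)
    rw [if_pos ⟨rfl, rfl⟩] at h3
    calc _ = sp K G α.1.1 α.1.2 * ((family K G).qv E0 β.1.2 * (tp K G β.1.1 β.1.2
            * sp K G β.1.1 β.1.2) * (family K G).qv E0 β.1.2) * tp K G γ.1.1 γ.1.2 := by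
            rw [h1]; noncomm_ring
        _ = _ := by rw [h3, h1]
  star_m α β := by
    split_ifs with h1 h2 h3
    · rw [star_mul, star_mul, star_sp, star_tp, star_qv, h1, mul_assoc]
    · exact absurd h1.symm h2
    · exact absurd h3.symm h1
    · exact star_zero _
  ne_zero α h := by
    rw [if_pos rfl] at h
    apply α.2.2
    have h3 := (family K G).qv_tP_sP_qv α.2.1.1 α.2.1.2.1 α.2.1.2.1 (v' := α.1.2)
    rw [if_pos ⟨rfl, rfl⟩] at h3
    have h4 : (family K G).qv E0 α.1.2 = ((family K G).qv E0 α.1.2 * tp K G α.1.1 α.1.2) *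
        (sp K G α.1.1 α.1.2 * (family K G).qv E0 α.1.2 * tp K G α.1.1 α.1.2) *
        (sp K G α.1.1 α.1.2 * (family K G).qv E0 α.1.2) := by
      calc (family K G).qv E0 α.1.2 = (family K G).qv E0 α.1.2 * (tp K G α.1.1 α.1.2
            * sp K G α.1.1 α.1.2) * (family K G).qv E0 α.1.2 := h3.symm
        _ = ((family K G).qv E0 α.1.2 * (tp K G α.1.1 α.1.2
            * sp K G α.1.1 α.1.2) * (family K G).qv E0 α.1.2) * (tp K G α.1.1 α.1.2
            * sp K G α.1.1 α.1.2) * (family K G).qv E0 α.1.2 := by
            conv_rhs => rw [show (family K G).qv E0 α.1.2 * (tp K G α.1.1 α.1.2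
              * sp K G α.1.1 α.1.2) * (family K G).qv E0 α.1.2 = (family K G).qv E0 α.1.2 from h3]
        _ = _ := by noncomm_ring
    rw [h4, h, mul_zero, zero_mul]

theorem mono_std (hG : G.Acyclic) {E0 : Finset G.E} {V0 : Finset G.V}
    (hcl : ∀ e ∈ E0, G.rng e ∈ V0) (n : ℕ) : ∀ (l l' : List G.E) (v : G.V),
    (∀ e ∈ l, e ∈ E0) → (∀ e ∈ l', e ∈ E0) → v ∈ V0 → E0.card + 1 ≤ n + l.length →
    (pathMU K hG E0 V0).IsStd (sp K G l v * tp K G l' v) := by
  classical
  induction n with
  | zero =>
    intro l l' v h1 h2 hv hn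
    have h3 : ¬ Valid l v := fun h3 => by
      have := h3.length_le hG h1
      omega
    have h4 : sp K G l v = 0 := (family K G).sP_not_valid h3
    rw [h4, zero_mul]
    exact MU.isStd_zero _
  | succ n ih =>
    intro l l' v h1 h2 hv hn
    by_cases h3 : Valid l v
    · by_cases h4 : Valid l' v
      · have h5 : (family K G).p v = (family K G).qv E0 v
            + ∑ e ∈ E0.filter (fun e => G.src e = v), (family K G).s e * (family K G).t e := by
          rw [LeavittFamily.qv]; abel
        have h0 : sp K G l v = sp K G l v * (family K G).p v :=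
          ((family K G).sP_mul_p l v).symm
        have h6 : sp K G l v * tp K G l' v
            = sp K G l v * (family K G).qv E0 v * tp K G l' v
              + ∑ e ∈ E0.filter (fun e => G.src e = v), sp K G (l ++ [e]) (G.rng e)
                * tp K G (l' ++ [e]) (G.rng e) := by
          conv_lhs => rw [h0, h5]
          rw [mul_add, add_mul, Finset.mul_sum, Finset.sum_mul]
          congr 1
          apply Finset.sum_congr rfl
          intro e he
          have he' := (Finset.mem_filter.1 he).2
          have e1 : sp K G (l ++ [e]) (G.rng e) = sp K G l (G.src e) * (family K G).s e :=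
            (family K G).sP_append l e
          have e2 : tp K G (l' ++ [e]) (G.rng e) = (family K G).t e * tp K G l' (G.src e) :=
            (family K G).tP_append l' e
          rw [e1, e2, he']
          noncomm_ring
        have h7 : ∀ e ∈ E0.filter (fun e => G.src e = v), sp K G (l ++ [e]) (G.rng e)
            * tp K G (l' ++ [e]) (G.rng e) = sp K G l v * ((family K G).s e * (family K G).t e)
              * tp K G l' v := by
          intro e he
          have he' := (Finset.mem_filter.1 he).2
          have e1 : sp K G (l ++ [e]) (G.rng e) = sp K G l (G.src e) * (family K G).s e :=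
            (family K G).sP_append l e
          have e2 : tp K G (l' ++ [e]) (G.rng e) = (family K G).t e * tp K G l' (G.src e) :=
            (family K G).tP_append l' e
          rw [e1, e2, he']
          noncomm_ring
        have hts : ∀ (l : List G.E), Valid l v →
            tp K G l v * sp K G l v = (family K G).p v := by
          intro l hl
          have key : ∀ (l : List G.E), Valid l v → tp K G l v * sp K G l v
              = (family K G).p v := by
            intro l
            induction l with
            | nil => exact fun _ => (family K G).p_mul_self v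
            | cons e l ih2 =>
              intro hl
              show tp K G l v * (family K G).t e * ((family K G).s e * sp K G l v) = _
              calc _ = tp K G l v * ((family K G).t e * (family K G).s e) * sp K G l v := by
                    noncomm_ring
                _ = tp K G l v * sp K G l v := by
                    rw [(family K G).ghost_mul_self, hl.1]
                    congr 1
                    exact (family K G).tP_p_start l v
                _ = _ := ih2 hl.2
          exact key l hl
        have hts1 := hts l h3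
        have hts2 := hts l' h4
        have hq := LeavittFamily.qv_p (family K G) (E0 := E0) v
        have hq' := LeavittFamily.p_qv (family K G) (E0 := E0) v
        -- orthogonality
        have hortho : ∀ x y : LPA K G, x * (family K G).p v = x → x * y = 0 →
            sp K G l' v * x * tp K G l v * (sp K G l v * y * tp K G l' v) = 0 ∧
            sp K G l v * x * tp K G l' v * (sp K G l' v * y * tp K G l v) = 0 := by
          intro x y hx hxy
          constructor
          · calc _ = sp K G l' v * (x * (tp K G l v * sp K G l v) * y) * tp K G l' v := by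
                  noncomm_ring
              _ = 0 := by rw [hts1, hx, hxy, mul_zero, zero_mul]
          · calc _ = sp K G l v * (x * (tp K G l' v * sp K G l' v) * y) * tp K G l v := by
                  noncomm_ring
              _ = 0 := by rw [hts2, hx, hxy, mul_zero, zero_mul]
        have hst : ∀ x : LPA K G, star x = x →
            star (sp K G l v * x * tp K G l' v) = sp K G l' v * x * tp K G l v := by
          intro x hx
          rw [star_mul, star_mul, star_sp, star_tp, hx, mul_assoc]
        have hsts : ∀ e, star ((family K G).s e * (family K G).t e)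
            = (family K G).s e * (family K G).t e := by
          intro e
          rw [star_mul, star_s, star_t]
        have hstp : ∀ e ∈ E0.filter (fun e => G.src e = v),
            (family K G).s e * (family K G).t e * (family K G).p v
              = (family K G).s e * (family K G).t e := by
          intro e he
          rw [← (Finset.mem_filter.1 he).2, mul_assoc, (family K G).mul_src]
        have hne : ∀ e f : G.E, e ≠ f → (family K G).s e * (family K G).t e *
            ((family K G).s f * (family K G).t f) = 0 := by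
          intro e f hef
          calc _ = (family K G).s e * ((family K G).t e * (family K G).s f) *
                (family K G).t f := by noncomm_ring
            _ = 0 := by rw [(family K G).ghost_mul_of_ne e f hef, mul_zero, zero_mul]
        rw [h6, Finset.sum_congr rfl h7]
        apply MU.isStd_add
        · by_cases hq0 : (family K G).qv E0 v = 0
          · rw [hq0, mul_zero, zero_mul]; exact MU.isStd_zero _
          · have h8 := (pathMU K hG E0 V0).isStd_m (i := ⟨(l, v), ⟨h3, h1, hv⟩, hq0⟩)
              (j := ⟨(l', v), ⟨h4, h2, hv⟩, hq0⟩) rfl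
            change (pathMU K hG E0 V0).IsStd (if v = v then _ else _) at h8
            rwa [if_pos rfl] at h8
        · apply MU.isStd_sum
          · intro e he
            rw [← h7 e he]
            rw [Finset.mem_filter] at he
            apply ih
            · intro f hf
              rw [List.mem_append, List.mem_singleton] at hf
              rcases hf with hf | rfl
              · exact h1 f hf
              · exact he.1
            · intro f hf
              rw [List.mem_append, List.mem_singleton] at hf
              rcases hf with hf | rfl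
              · exact h2 f hf
              · exact he.1
            · exact hcl e he.1
            · rw [List.length_append, List.length_singleton]; omega
          · intro e he f hf hef
            rw [hst _ (hsts e)]
            exact (hortho _ _ (hstp e he) (hne e f hef)).1
          · intro e he f hf hef
            rw [hst _ (hsts f)]
            exact (hortho _ _ (hstp e he) (hne e f hef)).2
        · rw [hst _ (star_qv E0 v), Finset.mul_sum]
          apply Finset.sum_eq_zero
          intro e he
          apply (hortho _ _ hq _).1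
          rw [← mul_assoc, (family K G).qv_s v (Finset.mem_filter.1 he).1, zero_mul]
        · rw [star_sum, Finset.mul_sum]
          apply Finset.sum_eq_zero
          intro e he
          rw [hst _ (hsts e)]
          apply (hortho _ _ hq _).2
          rw [← mul_assoc, (family K G).qv_s v (Finset.mem_filter.1 he).1, zero_mul]
      · have h5 : tp K G l' v = 0 := (family K G).tP_not_valid h4
        rw [h5, mul_zero]; exact MU.isStd_zero _
    · have h4 : sp K G l v = 0 := (family K G).sP_not_valid h3
      rw [h4, zero_mul]; exact MU.isStd_zero _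

theorem mono_std' (hG : G.Acyclic) {E0 : Finset G.E} {V0 : Finset G.V}
    (hcl : ∀ e ∈ E0, G.rng e ∈ V0) {l l' : List G.E} {v : G.V}
    (h1 : ∀ e ∈ l, e ∈ E0) (h2 : ∀ e ∈ l', e ∈ E0) (hv : v ∈ V0) :
    (pathMU K hG E0 V0).IsStd (sp K G l v * tp K G l' v) :=
  mono_std hG hcl (E0.card + 1) l l' v h1 h2 hv (by omega)

theorem sp_std (hG : G.Acyclic) {E0 : Finset G.E} {V0 : Finset G.V}
    (hcl : ∀ e ∈ E0, G.rng e ∈ V0) {l : List G.E} {v : G.V}
    (h1 : ∀ e ∈ l, e ∈ E0) (hv : v ∈ V0) :
    (pathMU K hG E0 V0).IsStd (sp K G l v) := by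
  have h := mono_std' (K := K) hG hcl h1 (l' := []) (by simp) hv
  have h2 : sp K G l v * tp K G [] v = sp K G l v := (family K G).sP_mul_p l v
  rwa [h2] at h

theorem p_std (hG : G.Acyclic) {E0 : Finset G.E} {V0 : Finset G.V}
    (hcl : ∀ e ∈ E0, G.rng e ∈ V0) {v : G.V} (hv : v ∈ V0) :
    (pathMU K hG E0 V0).IsStd ((family K G).p v) :=
  sp_std (K := K) hG hcl (l := []) (by simp) hv

theorem s_std (hG : G.Acyclic) {E0 : Finset G.E} {V0 : Finset G.V}
    (hcl : ∀ e ∈ E0, G.rng e ∈ V0) {e : G.E} (he : e ∈ E0) :
    (pathMU K hG E0 V0).IsStd ((family K G).s e) := by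
  have h := sp_std (K := K) hG hcl (l := [e]) (by simpa using he) (hcl e he)
  have h2 : sp K G [e] (G.rng e) = (family K G).s e := (family K G).mul_rng e
  rwa [h2] at h

theorem qv_std (hG : G.Acyclic) {E0 E1 : Finset G.E} {V1 : Finset G.V}
    (hcl : ∀ e ∈ E1, G.rng e ∈ V1) (h0 : E0 ⊆ E1) {v : G.V} (hv : v ∈ V1) :
    (pathMU K hG E1 V1).IsStd ((family K G).qv E0 v) := by
  classical
  rw [LeavittFamily.qv]
  have hne : ∀ e f : G.E, e ≠ f → (family K G).s e * (family K G).t e *
      ((family K G).s f * (family K G).t f) = 0 := by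
    intro e f hef
    calc _ = (family K G).s e * ((family K G).t e * (family K G).s f) *
          (family K G).t f := by noncomm_ring
      _ = 0 := by rw [(family K G).ghost_mul_of_ne e f hef, mul_zero, zero_mul]
  have hee : ∀ e : G.E, (family K G).s e * (family K G).t e *
      ((family K G).s e * (family K G).t e) = (family K G).s e * (family K G).t e := by
    intro e
    calc _ = (family K G).s e * ((family K G).t e * (family K G).s e) *
          (family K G).t e := by noncomm_ring
      _ = _ := by rw [(family K G).ghost_mul_self, (family K G).mul_rng]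
  have hsts : ∀ e, star ((family K G).s e * (family K G).t e)
      = (family K G).s e * (family K G).t e := by
    intro e
    rw [star_mul, star_s, star_t]
  apply MU.isStd_sub
  · exact p_std hG hcl hv
  · apply MU.isStd_sum
    · intro e he
      have h1 := s_std (K := K) hG hcl (h0 (Finset.mem_filter.1 he).1)
      have h2 := MU.isStd_star _ h1
      rw [star_s] at h2
      exact MU.isStd_mul _ h1 h2
    · intro e _ f _ hef
      rw [hsts, hne e f hef]
    · intro e _ f _ hef
      rw [hsts, hne e f hef]
  · exact (family K G).p_mul_self v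
  · rw [Finset.sum_mul]
    apply Finset.sum_congr rfl
    intro e he
    rw [Finset.mul_sum, Finset.sum_eq_single_of_mem e he, hee]
    exact fun f _ hf => hne e f hf.symm
  · rw [Finset.mul_sum]
    apply Finset.sum_congr rfl
    intro e he
    rw [← (Finset.mem_filter.1 he).2, ← mul_assoc, (family K G).src_mul]

theorem pathMU_mono (hG : G.Acyclic) {E0 E1 : Finset G.E} {V0 V1 : Finset G.V}
    (hcl : ∀ e ∈ E1, G.rng e ∈ V1) (h0 : E0 ⊆ E1) (h1 : V0 ⊆ V1) {x : LPA K G}
    (hx : (pathMU K hG E0 V0).IsStd x) : (pathMU K hG E1 V1).IsStd x := by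
  classical
  refine MU.isStd_of_m (fun α β => ?_) hx
  show (pathMU K hG E1 V1).IsStd (if α.1.2 = β.1.2 then
    sp K G α.1.1 α.1.2 * (family K G).qv E0 α.1.2 * tp K G β.1.1 β.1.2 else 0)
  split_ifs with h
  · apply MU.isStd_mul
    · apply MU.isStd_mul
      · exact sp_std hG hcl (fun e he => h0 (α.2.1.2.1 e he)) (h1 α.2.1.2.2)
      · exact qv_std hG hcl h0 (h1 α.2.1.2.2)
    · rw [← star_sp]
      apply MU.isStd_star
      exact sp_std hG hcl (fun e he => h0 (β.2.1.2.1 e he)) (h1 β.2.1.2.2)
  · exact MU.isStd_zero _

theorem exists_finite_sub (hG : G.Acyclic) (a : LPA K G) :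
    ∃ (E0 : Finset G.E) (V0 : Finset G.V), ∀ (E1 : Finset G.E) (V1 : Finset G.V),
      E0 ⊆ E1 → V0 ⊆ V1 → (∀ e ∈ E1, G.rng e ∈ V1) → a ∈ (pathMU K hG E1 V1).alg K := by
  classical
  induction a using mono_induction with
  | hm l l' v =>
    refine ⟨l.toFinset ∪ l'.toFinset, {v}, fun E1 V1 h1 h2 hcl => ?_⟩
    apply MU.isStd_mem
    apply mono_std' hG hcl
    · intro e he
      exact h1 (Finset.mem_union_left _ (List.mem_toFinset.2 he))
    · intro e he
      exact h1 (Finset.mem_union_right _ (List.mem_toFinset.2 he))
    · exact h2 (Finset.mem_singleton_self v)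
  | hz => exact ⟨∅, ∅, fun _ _ _ _ _ => zero_mem _⟩
  | ha a b ha hb =>
    obtain ⟨E1, V1, h1⟩ := ha
    obtain ⟨E2, V2, h2⟩ := hb
    exact ⟨E1 ∪ E2, V1 ∪ V2, fun E3 V3 h3 h4 hcl => add_mem
      (h1 E3 V3 (Finset.union_subset_left h3) (Finset.union_subset_left h4) hcl)
      (h2 E3 V3 (Finset.union_subset_right h3) (Finset.union_subset_right h4) hcl)⟩
  | hs r a ha =>
    obtain ⟨E1, V1, h1⟩ := ha
    exact ⟨E1, V1, fun E3 V3 h3 h4 hcl =>
      ((pathMU K hG E3 V3).alg K).smul_mem _ (h1 E3 V3 h3 h4 hcl)⟩

theorem exists_finite_sub' (hG : G.Acyclic) (F : Finset (LPA K G)) :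
    ∃ (E0 : Finset G.E) (V0 : Finset G.V), ∀ (E1 : Finset G.E) (V1 : Finset G.V),
      E0 ⊆ E1 → V0 ⊆ V1 → (∀ e ∈ E1, G.rng e ∈ V1) →
        ∀ a ∈ F, a ∈ (pathMU K hG E1 V1).alg K := by
  classical
  induction F using Finset.induction_on with
  | empty => exact ⟨∅, ∅, fun _ _ _ _ _ a ha => absurd ha (Finset.notMem_empty a)⟩
  | insert a F _ ih =>
    obtain ⟨E1, V1, h1⟩ := exists_finite_sub hG a
    obtain ⟨E2, V2, h2⟩ := ih
    refine ⟨E1 ∪ E2, V1 ∪ V2, fun E3 V3 h3 h4 hcl b hb => ?_⟩
    rw [Finset.mem_insert] at hb
    rcases hb with rfl | hb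
    · exact h1 E3 V3 (Finset.union_subset_left h3) (Finset.union_subset_left h4) hcl
    · exact h2 E3 V3 (Finset.union_subset_right h3) (Finset.union_subset_right h4) hcl b hb

variable (K) in
/-- The directed family of standard matrix units. -/
noncomputable def stdData (hG : G.Acyclic) : StdData K (LPA K G) where
  Sys := {x : Finset G.E × Finset G.V // ∀ e ∈ x.1, G.rng e ∈ x.2}
  T x := pathMU K hG x.1.1 x.1.2
  ne := ⟨⟨(∅, ∅), by simp⟩⟩
  dir F s t := by
    classical
    obtain ⟨E0, V0, h⟩ := exists_finite_sub' hG F
    have h1 : ∀ e ∈ E0 ∪ (s.1.1 ∪ t.1.1), G.rng e ∈ (V0 ∪ (s.1.2 ∪ t.1.2)) ∪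
        (E0 ∪ (s.1.1 ∪ t.1.1)).image G.rng :=
      fun e he => Finset.mem_union_right _ (Finset.mem_image_of_mem _ he)
    refine ⟨⟨(E0 ∪ (s.1.1 ∪ t.1.1), (V0 ∪ (s.1.2 ∪ t.1.2)) ∪
        (E0 ∪ (s.1.1 ∪ t.1.1)).image G.rng), h1⟩, ?_, ?_, ?_⟩
    · exact h _ _ Finset.subset_union_left
        (Finset.subset_union_left.trans Finset.subset_union_left) h1
    · intro x hx
      exact pathMU_mono hG h1 (Finset.subset_union_left.trans Finset.subset_union_right)
        ((Finset.subset_union_left.trans Finset.subset_union_right).trans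
          Finset.subset_union_left) hx
    · intro x hx
      exact pathMU_mono hG h1 (Finset.subset_union_right.trans Finset.subset_union_right)
        ((Finset.subset_union_right.trans Finset.subset_union_right).trans
          Finset.subset_union_left) hx

theorem p_mem_S (hG : G.Acyclic) (v : G.V) : (family K G).p v ∈ (stdData K hG).S :=
  ⟨⟨(∅, {v}), by simp⟩, p_std (K := K) hG (E0 := ∅) (V0 := {v}) (by simp)
    (Finset.mem_singleton_self v)⟩

variable (K G) in
theorem exists_gen_seq [Countable G.V] [Countable G.E] : ∃ a : ℕ → LPA K G,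
    ∀ N : NonUnitalSubalgebra K (LPA K G), (∀ n, a n ∈ N) → ∀ x, x ∈ N := by
  classical
  have hc : Countable (Gen G) := by
    have : Function.Surjective (fun x : G.V ⊕ G.E ⊕ G.E => match x with
      | Sum.inl v => (Gen.vert v : Gen G)
      | Sum.inr (Sum.inl e) => Gen.edge e
      | Sum.inr (Sum.inr e) => Gen.ghost e) := by
      intro x
      cases x with
      | vert v => exact ⟨Sum.inl v, rfl⟩
      | edge e => exact ⟨Sum.inr (Sum.inl e), rfl⟩
      | ghost e => exact ⟨Sum.inr (Sum.inr e), rfl⟩
    exact this.countable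
  have key : ∀ S : NonUnitalSubalgebra K (LPA K G), (∀ x, gen K G x ∈ S) → ∀ a, a ∈ S := by
    intro S hS a
    induction a using induction with
    | hgen x => exact hS x
    | hadd a b ha hb => exact add_mem ha hb
    | hzero => exact zero_mem _
    | hmul a b ha hb => exact mul_mem ha hb
    | hsmul r a ha => exact S.smul_mem _ ha
  by_cases hne : Nonempty (Gen G)
  · obtain ⟨f, hf⟩ := exists_surjective_nat (Gen G)
    refine ⟨fun n => gen K G (f n), fun S hS => key S fun x => ?_⟩
    obtain ⟨n, rfl⟩ := hf x
    exact hS n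
  · exact ⟨fun _ => 0, fun S _ => key S fun x => absurd ⟨x⟩ hne⟩

/-- Countable acyclic graphs: algebra isomorphisms give star isomorphisms. -/
theorem exists_star_iso_acyclic {E F : Graph} [Countable E.V] [Countable E.E] [Countable F.V]
    [Countable F.E] (hE : E.Acyclic) (hF : F.Acyclic) {φ : LPA K E →ₙₐ[K] LPA K F}
    {ψ : LPA K F →ₙₐ[K] LPA K E} (hl : ∀ a, ψ (φ a) = a) (hr : ∀ a, φ (ψ a) = a) :
    ∃ (θ : LPA K E →⋆ₙₐ[K] LPA K F) (θ' : LPA K F →⋆ₙₐ[K] LPA K E), (∀ x, θ' (θ x) = x) ∧
      (∀ y, θ (θ' y) = y) ∧ ∀ v, θ ((family K E).p v) ∈ (stdData K hF).S ∧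
        IEq (φ ((family K E).p v)) (θ ((family K E).p v)) := by
  obtain ⟨a, ha⟩ := exists_gen_seq K E
  obtain ⟨b, hb⟩ := exists_gen_seq K F
  by_cases hne : Nonempty E.V
  · obtain ⟨f, hf⟩ := exists_surjective_nat E.V
    obtain ⟨θ, θ', h1, h2, h3⟩ := exists_limit_iso (stdData K hE) (stdData K hF) hl hr a ha b hb
      (fun n => (family K E).p (f n)) (fun n => p_mem_S hE _) (fun n => (family K E).p_mul_self _)
    refine ⟨θ, θ', h1, h2, fun v => ?_⟩
    obtain ⟨n, rfl⟩ := hf v
    exact h3 n
  · obtain ⟨θ, θ', h1, h2, -⟩ := exists_limit_iso (stdData K hE) (stdData K hF) hl hr a ha b hb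
      (fun _ => 0) (fun _ => (stdData K hE).zero_mem) (fun _ => mul_zero 0)
    exact ⟨θ, θ', h1, h2, fun v => absurd ⟨v⟩ hne⟩

end LPA

end Pool.Agent.Helper665_GA
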