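import Pool.Agent.Helper665_GA.Retract

/-!
# Paths of Leavitt families (helper665)
-/

namespace Pool.Agent.Helper665_GA

open unitInterval

section maps

variable {B : Type*} [CStarAlgebra B]

/-- evaluation as a unital star homomorphism -/
def evU (t : I) : C(I, B) →⋆ₐ[ℂ] B where
  toFun f := f t
  map_one' := rfl
  map_mul' _ _ := rfl
  map_zero' := rfl
  map_add' _ _ := rfl
  commutes' _ := rfl
  map_star' _ := rfl

/-- constant functions -/
def constU : B →⋆ₐ[ℂ] C(I, B) where
  toFun b := ContinuousMap.const I b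
  map_one' := rfl
  map_mul' _ _ := rfl
  map_zero' := rfl
  map_add' _ _ := rfl
  commutes' _ := rfl
  map_star' _ := rfl

@[simp] theorem evU_apply (t : I) (f : C(I, B)) : evU t f = f t := rfl
@[simp] theorem constU_apply (b : B) (t : I) : constU b t = b := rfl

/-- the identity function times the unit -/
def tauI (B : Type*) [CStarAlgebra B] : C(I, B) where
  toFun t := ((t : ℝ) : ℂ) • (1 : B)
  continuous_toFun := by fun_prop

theorem tauI_comm (b : C(I, B)) : tauI B * b = b * tauI B := by
  ext t
  show (((t : ℝ) : ℂ) • (1 : B)) * b t = b t * (((t : ℝ) : ℂ) • (1 : B))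
  simp

theorem smul_one_comm (c : ℂ) (b : B) : (c • (1 : B)) * b = b * (c • (1 : B)) := by simp

end maps

namespace LeavittFamily

variable {G : Graph} {B : Type*} [CStarAlgebra B] {cv : G.V → ℕ} {ce : G.E → ℕ}

theorem map_constU_evU (X : LeavittFamily G B) (t : I) :
    (X.map (constU (B := B))).map (evU t) = X := by
  ext <;> rfl

/-- The path of the vertex straightening. -/
noncomputable def pathV (hcv : Function.Injective cv) (X : LeavittFamily G B) :
    LeavittFamily G C(I, B) :=
  stepV hcv (tauI B) tauI_comm (X.map (constU (B := B)))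

theorem pathV_ev (hcv : Function.Injective cv) (X : LeavittFamily G B) (t : I) :
    (pathV hcv X).map (evU t) = stepV hcv (((t : ℝ) : ℂ) • (1 : B)) (smul_one_comm _) X := by
  rw [pathV, stepV_map (evU t) hcv (tauI B) tauI_comm (smul_one_comm ((t : ℝ) : ℂ)),
    map_constU_evU]
  rfl

theorem pathV_zero (hcv : Function.Injective cv) (X : LeavittFamily G B) :
    (pathV hcv X).map (evU 0) = X := by
  rw [pathV_ev, stepV_congr hcv (τ' := 0) (by simp) _ (by simp), stepV_zero]

theorem pathV_one (hcv : Function.Injective cv) (X : LeavittFamily G B) :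
    (pathV hcv X).map (evU 1) = stepV hcv 1 one_comm X := by
  rw [pathV_ev, stepV_congr hcv (τ' := 1) (by simp) _ one_comm]

theorem map_constU_star (X : LeavittFamily G B) (hX : ∀ v, star (X.p v) = X.p v) (v : G.V) :
    star ((X.map (constU (B := B))).p v) = (X.map (constU (B := B))).p v := by
  simp only [map_p, ← map_star, hX]

/-- The path of the edge straightening. -/
noncomputable def pathE (hce : Function.Injective ce) (X : LeavittFamily G B)
    (hX : ∀ v, star (X.p v) = X.p v) : LeavittFamily G C(I, B) :=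
  stepE hce (tauI B) tauI_comm (X.map (constU (B := B))) (map_constU_star X hX)

theorem pathE_ev (hce : Function.Injective ce) (X : LeavittFamily G B)
    (hX : ∀ v, star (X.p v) = X.p v) (t : I) :
    (pathE hce X hX).map (evU t)
      = stepE hce (((t : ℝ) : ℂ) • (1 : B)) (smul_one_comm _) X hX := by
  have h2 : ∀ v, star (((X.map (constU (B := B))).map (evU t)).p v)
      = ((X.map (constU (B := B))).map (evU t)).p v := by
    rw [map_constU_evU]; exact hX
  rw [pathE, stepE_map (evU t) hce (tauI B) tauI_comm (smul_one_comm ((t : ℝ) : ℂ)) _ _ h2]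
  exact stepE_congr hce rfl _ _ (map_constU_evU X t) _ _

theorem pathE_zero (hce : Function.Injective ce) (X : LeavittFamily G B)
    (hX : ∀ v, star (X.p v) = X.p v) : (pathE hce X hX).map (evU 0) = X := by
  rw [pathE_ev, stepE_congr hce (τ' := 0) (by simp) _ (by simp) rfl hX hX, stepE_zero]

theorem pathE_one (hce : Function.Injective ce) (X : LeavittFamily G B)
    (hX : ∀ v, star (X.p v) = X.p v) :
    (pathE hce X hX).map (evU 1) = stepE hce 1 one_comm X hX := by
  rw [pathE_ev, stepE_congr hce (τ' := 1) (by simp) _ one_comm rfl hX hX]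

/-- Twisting a Leavitt family by units which commute with the range vertices. -/
def twist {D : Type*} [Ring D] (X : LeavittFamily G D) (H : G.E → Dˣ)
    (hH : ∀ e, X.p (G.rng e) * (H e : D) = (H e : D) * X.p (G.rng e)) : LeavittFamily G D where
  p := X.p
  s e := X.s e * (H e : D)
  t e := ((H e)⁻¹ : Dˣ) * X.t e
  p_mul_self := X.p_mul_self
  p_mul_of_ne := X.p_mul_of_ne
  src_mul e := by rw [← mul_assoc, X.src_mul]
  mul_rng e := by rw [mul_assoc, ← hH, ← mul_assoc, X.mul_rng]
  rng_mul e := by
    have h1 : Commute (X.p (G.rng e)) (H e : D) := hH e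
    have h2 : X.p (G.rng e) * (((H e)⁻¹ : Dˣ) : D) = (((H e)⁻¹ : Dˣ) : D) * X.p (G.rng e) :=
      h1.units_inv_right.eq
    rw [← mul_assoc, h2, mul_assoc, X.rng_mul]
  mul_src e := by rw [mul_assoc, X.mul_src]
  ghost_mul_self e := by
    have h1 : ((H e)⁻¹ : Dˣ) * X.t e * (X.s e * (H e : D))
        = ((H e)⁻¹ : Dˣ) * (X.t e * X.s e) * (H e : D) := by noncomm_ring
    rw [h1, X.ghost_mul_self, mul_assoc, hH, ← mul_assoc, Units.inv_mul, one_mul]
  ghost_mul_of_ne e f hef := by
    have h1 : ((H e)⁻¹ : Dˣ) * X.t e * (X.s f * (H f : D))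
        = ((H e)⁻¹ : Dˣ) * (X.t e * X.s f) * (H f : D) := by noncomm_ring
    rw [h1, X.ghost_mul_of_ne e f hef]; simp
  sum_eq v S hS h := by
    rw [← X.sum_eq v S hS h]
    refine Finset.sum_congr rfl fun e _ => ?_
    calc X.s e * (H e : D) * (((H e)⁻¹ : Dˣ) * X.t e)
        = X.s e * ((H e : D) * ((H e)⁻¹ : Dˣ)) * X.t e := by noncomm_ring
      _ = _ := by rw [Units.mul_inv, mul_one]

end LeavittFamily

section unit_path

variable {B : Type*} [CStarAlgebra B]

/-- A path of units from `1` to `h`. -/
theorem exists_unit_path {x y q : B} (hd : EdgeData x y q) :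
    ∃ H : C(I, B)ˣ, evU 0 (H : C(I, B)) = 1 ∧
      evU 1 (H : C(I, B)) = 1 - q + psqrt (y * star y) ∧
      constU q * (H : C(I, B)) = (H : C(I, B)) * constU q := by
  let _ := CStarAlgebra.spectralOrder B
  have _ := CStarAlgebra.spectralOrderedRing B
  set w := psqrt (y * star y) with hw
  set h := 1 - q + w with hh
  have hqw := hd.qw
  have hwq := hd.wq
  rw [← hw] at hqw hwq
  have hw0 : 0 ≤ w := CFC.sqrt_nonneg _
  have hq0 : 0 ≤ 1 - q := by
    have h1 := mul_star_self_nonneg (1 - q)
    have h2 : (1 - q) * star (1 - q) = 1 - q := by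
      rw [star_sub, star_one, hd.qs]
      calc (1 - q) * (1 - q) = 1 - q - q + q * q := by noncomm_ring
        _ = 1 - q := by rw [hd.qq]; abel
    rwa [h2] at h1
  have hh0 : 0 ≤ h := add_nonneg hq0 hw0
  have hww : w * w = y * star y := psqrt_mul_self y
  have hcw : star x * x * w = w * (star x * x) :=
    (psqrt_commute (hd.ac.trans hd.ca.symm)).symm
  -- the inverse
  have hu1 : h * (1 - q + w * (star x * x)) = 1 := by
    have e1 : w * (w * (star x * x)) = q := by rw [← mul_assoc, hww, hd.ac]
    have e2 : q * (w * (star x * x)) = w * (star x * x) := by rw [← mul_assoc, hqw]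
    calc (1 - q + w) * (1 - q + w * (star x * x))
        = 1 - q - q + q * q + w * (star x * x) - q * (w * (star x * x)) + w - w * q
          + w * (w * (star x * x)) := by noncomm_ring
      _ = 1 := by rw [hd.qq, e1, e2, hwq]; abel
  have hu2 : (1 - q + w * (star x * x)) * h = 1 := by
    have e0 : w * (star x * x) * q = w * (star x * x) := by
      rw [mul_assoc, mul_assoc, hd.xq]
    have e1 : w * (star x * x) * w = q := hd.wcw
    calc (1 - q + w * (star x * x)) * (1 - q + w)
        = 1 - q - q + q * q + w - q * w + w * (star x * x) - w * (star x * x) * q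
          + w * (star x * x) * w := by noncomm_ring
      _ = 1 := by rw [hd.qq, e1, e0, hqw]; abel
  have hhu : IsUnit h := ⟨⟨h, 1 - q + w * (star x * x), hu1, hu2⟩, rfl⟩
  have hsp : ∀ t : I, IsStrictlyPositive ((1 - (t : ℝ)) • (1 : B) + (t : ℝ) • h) := by
    intro t
    by_cases ht : (t : ℝ) = 1
    · rw [ht]; simpa using (IsStrictlyPositive.iff_of_unital.2 ⟨hh0, hhu⟩)
    · have h1 : IsStrictlyPositive ((1 - (t : ℝ)) • (1 : B)) := by
        have hpos : 0 < 1 - (t : ℝ) := by
          have := t.2.2
          rcases lt_or_eq_of_le this with h | h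
          · linarith
          · exact absurd h ht
        exact IsStrictlyPositive.smul hpos isStrictlyPositive_one
      exact h1.add_nonneg (smul_nonneg t.2.1 hh0)
  have hcont : Continuous fun t : I => (1 - (t : ℝ)) • (1 : B) + (t : ℝ) • h := by fun_prop
  have hcinv : Continuous fun t : I => Ring.inverse ((1 - (t : ℝ)) • (1 : B) + (t : ℝ) • h) := by
    rw [continuous_iff_continuousAt]
    intro t
    obtain ⟨u, hu⟩ := (hsp t).isUnit
    have h1 : ContinuousAt Ring.inverse ((1 - (t : ℝ)) • (1 : B) + (t : ℝ) • h) := by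
      rw [← hu]; exact NormedRing.inverse_continuousAt u
    exact ContinuousAt.comp (f := fun t : I => (1 - (t : ℝ)) • (1 : B) + (t : ℝ) • h)
      h1 hcont.continuousAt
  refine ⟨⟨⟨_, hcont⟩, ⟨_, hcinv⟩, ?_, ?_⟩, ?_, ?_, ?_⟩
  · ext t
    exact Ring.mul_inverse_cancel _ (hsp t).isUnit
  · ext t
    exact Ring.inverse_mul_cancel _ (hsp t).isUnit
  · show (1 - ((0 : I) : ℝ)) • (1 : B) + ((0 : I) : ℝ) • h = 1
    simp
  · show (1 - ((1 : I) : ℝ)) • (1 : B) + ((1 : I) : ℝ) • h = h
    simp
  · ext t
    show q * ((1 - (t : ℝ)) • (1 : B) + (t : ℝ) • h) = ((1 - (t : ℝ)) • (1 : B) + (t : ℝ) • h) * q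
    have : q * h = h * q := by
      rw [hh]
      calc q * (1 - q + w) = q - q * q + q * w := by noncomm_ring
        _ = q - q * q + w * q := by rw [hqw, hwq]
        _ = _ := by noncomm_ring
    rw [mul_add, add_mul, mul_smul_comm, mul_smul_comm, smul_mul_assoc, smul_mul_assoc, this]
    simp

end unit_path

namespace LeavittFamily

variable {G : Graph} {B : Type*} [CStarAlgebra B]

/-- The path of the polar decomposition step. -/
theorem exists_path_polar (X : LeavittFamily G B) (hX : X.Straight) :
    ∃ Z : LeavittFamily G C(I, B), Z.map (evU 0) = X ∧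
      Z.map (evU 1) = (X.polar hX).toLeavitt ∧ Z.p = (X.map (constU (B := B))).p ∧
      (∀ e t, ∃ b, Z.s e t = X.s e * b) ∧ (∀ e t, ∃ b, Z.t e t = b * X.t e) := by
  choose H h0 h1 h2 using fun e => exists_unit_path (hX.edgeData e)
  refine ⟨twist (X.map (constU (B := B))) H (fun e => h2 e), ?_, ?_, rfl, ?_, ?_⟩
  · have hinv : ∀ e, evU 0 (((H e)⁻¹ : C(I, B)ˣ) : C(I, B)) = 1 := by
      intro e
      have := congrArg (evU (0 : I)) (Units.mul_inv (H e))
      rwa [map_mul, h0, one_mul, map_one] at this
    ext e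
    · rfl
    · show evU 0 (constU (X.s e) * (H e : C(I, B))) = X.s e
      rw [map_mul, h0, mul_one]; rfl
    · show evU 0 ((((H e)⁻¹ : C(I, B)ˣ) : C(I, B)) * constU (X.t e)) = X.t e
      rw [map_mul, hinv, one_mul]; rfl
  · ext e
    · rfl
    · show evU 1 (constU (X.s e) * (H e : C(I, B))) = X.s e * psqrt (X.t e * star (X.t e))
      rw [map_mul, h1]
      show X.s e * (1 - X.p (G.rng e) + psqrt (X.t e * star (X.t e))) = _
      have := X.mul_rng e
      calc X.s e * (1 - X.p (G.rng e) + psqrt (X.t e * star (X.t e)))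
          = X.s e - X.s e * X.p (G.rng e) + X.s e * psqrt (X.t e * star (X.t e)) := by
            noncomm_ring
        _ = _ := by rw [this]; simp
    · show evU 1 ((((H e)⁻¹ : C(I, B)ˣ) : C(I, B)) * constU (X.t e))
        = star (X.s e * psqrt (X.t e * star (X.t e)))
      have hd := hX.edgeData e
      have hmul : evU 1 (((H e)⁻¹ : C(I, B)ˣ) : C(I, B)) * evU 1 (H e : C(I, B)) = 1 := by
        rw [← map_mul, Units.inv_mul, map_one]
      rw [map_mul]
      have key : X.t e = evU 1 (H e : C(I, B)) * star (X.s e * psqrt (X.t e * star (X.t e))) := by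
        rw [h1, star_mul, psqrt_star]
        have a1 := hd.qw
        have a2 := psqrt_mul_self (X.t e)
        set w := psqrt (X.t e * star (X.t e))
        calc X.t e = (X.t e * X.s e) * X.t e := by rw [hd.yx, hd.qy]
          _ = X.t e * (X.s e * X.t e) := by noncomm_ring
          _ = X.t e * star (X.s e * X.t e) := by rw [hd.xys]
          _ = (X.t e * star (X.t e)) * star (X.s e) := by rw [star_mul]; noncomm_ring
          _ = w * w * star (X.s e) := by rw [a2]
          _ = w * star (X.s e) - (X.p (G.rng e) * w) * star (X.s e) + w * w * star (X.s e) := by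
            rw [a1]; noncomm_ring
          _ = _ := by noncomm_ring
      show evU 1 (((H e)⁻¹ : C(I, B)ˣ) : C(I, B)) * X.t e = _
      conv_lhs => rw [key]
      rw [← mul_assoc, hmul, one_mul]
  · intro e t
    exact ⟨(H e : C(I, B)) t, rfl⟩
  · intro e t
    exact ⟨(((H e)⁻¹ : C(I, B)ˣ) : C(I, B)) t, rfl⟩

end LeavittFamily

end Pool.Agent.Helper665_GA
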