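import Mathlib

/-!
# Range projections of idempotents in a unital C*-algebra, square roots (helper665)
-/

namespace Pool.Agent.Helper665_GA

section RangeProj

theorem exists_rangeProj {B : Type*} [CStarAlgebra B] (R : B) (h : R * R = R) :
    ∃ Q : B, star Q = Q ∧ Q * R = R ∧ R * Q = Q := by
  let _ := CStarAlgebra.spectralOrder B
  have _ := CStarAlgebra.spectralOrderedRing B
  set y : B := R - star R with hy
  have hz : IsUnit (1 + y * star y) := by
    have h1 : IsStrictlyPositive (1 : B) := by
      exact isStrictlyPositive_one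
    exact (h1.add_nonneg (mul_star_self_nonneg y)).isUnit
  have hs : star R * star R = star R := by rw [← star_mul, h]
  have hzR : (1 + y * star y) * R = R * star R * R := by
    rw [hy, star_sub, star_star]
    have : (1 + (R - star R) * (star R - R)) * R
        = R + (R * star R * R - R * R * R - star R * star R * R + star R * (R * R)) := by
      noncomm_ring
    rw [this, h, hs, h]; noncomm_ring
  have hRz : R * (1 + y * star y) = R * star R * R := by
    rw [hy, star_sub, star_star]
    have : R * (1 + (R - star R) * (star R - R))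
        = R + ((R * R) * star R - R * R * R - R * (star R * star R) + R * star R * R) := by
      noncomm_ring
    rw [this, h, hs, h]; noncomm_ring
  obtain ⟨u, hu⟩ := hz
  have hsz : star (1 + y * star y) = 1 + y * star y := by simp
  have hcR : Commute (u : B) R := by
    show (u : B) * R = R * u
    rw [hu, hzR, hRz]
  have hcS : Commute (u : B) (star R) := by
    show (u : B) * star R = star R * u
    have := congrArg star hcR.eq
    rw [star_mul, star_mul, hu, hsz] at this
    rw [hu]; exact this.symm
  have hcR' : Commute ((u⁻¹ : Bˣ) : B) R := hcR.units_inv_left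
  have hcS' : Commute ((u⁻¹ : Bˣ) : B) (star R) := hcS.units_inv_left
  have hsu : star ((u⁻¹ : Bˣ) : B) = ((u⁻¹ : Bˣ) : B) := by
    have h1 : star (u : B) = u := by rw [hu, hsz]
    have : star u = u := Units.ext (by simpa using h1)
    have h2 : star (u⁻¹) = u⁻¹ := by rw [star_inv, this]
    calc star ((u⁻¹ : Bˣ) : B) = ((star (u⁻¹) : Bˣ) : B) := by simp
      _ = _ := by rw [h2]
  refine ⟨R * star R * ((u⁻¹ : Bˣ) : B), ?_, ?_, ?_⟩
  · rw [star_mul, star_mul, star_star, hsu, ← mul_assoc, hcR'.eq, mul_assoc, hcS'.eq, ← mul_assoc]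
  · rw [mul_assoc, hcR'.eq, ← mul_assoc]
    rw [← hzR, ← hu, hcR.eq, mul_assoc, Units.mul_inv, mul_one]
  · rw [← mul_assoc, ← mul_assoc, h]

variable {B : Type*} [CStarAlgebra B]

open Classical in
/-- The range projection of an idempotent of a unital C*-algebra (junk value `0` otherwise). -/
noncomputable def rp (R : B) : B := if h : R * R = R then (exists_rangeProj R h).choose else 0

theorem rp_star {R : B} (h : R * R = R) : star (rp R) = rp R := by
  rw [rp, dif_pos h]; exact (exists_rangeProj R h).choose_spec.1
theorem rp_mul {R : B} (h : R * R = R) : rp R * R = R := by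
  rw [rp, dif_pos h]; exact (exists_rangeProj R h).choose_spec.2.1
theorem mul_rp {R : B} (h : R * R = R) : R * rp R = rp R := by
  rw [rp, dif_pos h]; exact (exists_rangeProj R h).choose_spec.2.2

theorem rp_unique {R Q : B} (h : R * R = R) (h1 : star Q = Q) (h2 : Q * R = R) (h3 : R * Q = Q) :
    rp R = Q := by
  have e1 : rp R * Q = Q := by
    calc rp R * Q = rp R * (R * Q) := by rw [h3]
      _ = Q := by rw [← mul_assoc, rp_mul h, h3]
  have e2 : Q * rp R = rp R := by
    calc Q * rp R = Q * (R * rp R) := by rw [mul_rp h]
      _ = rp R := by rw [← mul_assoc, h2, mul_rp h]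
  have := congrArg star e2
  rw [star_mul, rp_star h, h1] at this
  rw [← this, e1]

theorem rp_of_selfAdjoint {R : B} (h : R * R = R) (hs : star R = R) : rp R = R :=
  rp_unique h hs h h

theorem rp_rp {R : B} (h : R * R = R) : rp R * rp R = rp R := by
  conv_lhs => rw [← mul_rp h]
  rw [← mul_assoc, mul_assoc R, ]
  rw [← mul_assoc, mul_rp h, rp_mul h, mul_rp h]

theorem map_rp {C : Type*} [CStarAlgebra C] (f : B →⋆ₐ[ℂ] C) {R : B} (h : R * R = R) :
    f (rp R) = rp (f R) := by
  symm
  apply rp_unique
  · rw [← map_mul, h]
  · rw [← map_star, rp_star h]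
  · rw [← map_mul, rp_mul h]
  · rw [← map_mul, mul_rp h]

end RangeProj

end Pool.Agent.Helper665_GA
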