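import Pool.Agent.Helper665_GA.MU

/-!
# Comparison of ranks in a system of matrix units (helper665)
-/

namespace Pool.Agent.Helper665_GA

theorem IEq.sum {A : Type*} [NonUnitalRing A] {κ : Type*} (s : Finset κ) (p q : κ → A)
    (hp : ∀ i ∈ s, p i * p i = p i) (hq : ∀ i ∈ s, q i * q i = q i)
    (hpo : ∀ i ∈ s, ∀ j ∈ s, i ≠ j → p i * p j = 0)
    (hqo : ∀ i ∈ s, ∀ j ∈ s, i ≠ j → q i * q j = 0) (h : ∀ i ∈ s, IEq (p i) (q i)) :
    IEq (∑ i ∈ s, p i) (∑ i ∈ s, q i) := by
  classical
  have h' : ∀ i, ∃ x y, i ∈ s → x * y = p i ∧ y * x = q i := by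
    intro i
    by_cases hi : i ∈ s
    · obtain ⟨x, y, h1, h2⟩ := h i hi
      exact ⟨x, y, fun _ => ⟨h1, h2⟩⟩
    · exact ⟨0, 0, fun h => absurd h hi⟩
  choose x y hxy using h'
  refine ⟨∑ i ∈ s, p i * x i * q i, ∑ i ∈ s, q i * y i * p i, ?_, ?_⟩
  · rw [Finset.sum_mul]
    apply Finset.sum_congr rfl
    intro i hi
    rw [Finset.mul_sum, Finset.sum_eq_single_of_mem i hi]
    · obtain ⟨h1, h2⟩ := hxy i hi
      calc p i * x i * q i * (q i * y i * p i) = p i * x i * (q i * q i) * y i * p i := by
            noncomm_ring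
        _ = p i * x i * (y i * x i) * y i * p i := by rw [hq i hi, h2]
        _ = p i * (x i * y i) * (x i * y i) * p i := by noncomm_ring
        _ = p i := by rw [h1, hp i hi, hp i hi, hp i hi]
    · intro j hj hji
      calc p i * x i * q i * (q j * y j * p j) = p i * x i * (q i * q j) * y j * p j := by
            noncomm_ring
        _ = 0 := by rw [hqo i hi j hj hji.symm, mul_zero, zero_mul, zero_mul]
  · rw [Finset.sum_mul]
    apply Finset.sum_congr rfl
    intro i hi
    rw [Finset.mul_sum, Finset.sum_eq_single_of_mem i hi]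
    · obtain ⟨h1, h2⟩ := hxy i hi
      calc q i * y i * p i * (p i * x i * q i) = q i * y i * (p i * p i) * x i * q i := by
            noncomm_ring
        _ = q i * y i * (x i * y i) * x i * q i := by rw [hp i hi, h1]
        _ = q i * (y i * x i) * (y i * x i) * q i := by noncomm_ring
        _ = q i := by rw [h2, hq i hi, hq i hi, hq i hi]
    · intro j hj hji
      calc q i * y i * p i * (p j * x j * q j) = q i * y i * (p i * p j) * x j * q j := by
            noncomm_ring
        _ = 0 := by rw [hpo i hi j hj hji.symm, mul_zero, zero_mul, zero_mul]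

theorem IEq.add {A : Type*} [NonUnitalRing A] {p q p' q' : A} (hp : p * p = p) (hq : q * q = q)
    (hp' : p' * p' = p') (hq' : q' * q' = q') (h1 : p * p' = 0) (h2 : p' * p = 0)
    (h3 : q * q' = 0) (h4 : q' * q = 0) (h : IEq p q) (h' : IEq p' q') :
    IEq (p + p') (q + q') := by
  have key := IEq.sum (Finset.univ : Finset Bool) (fun b => if b then p else p')
    (fun b => if b then q else q') (by rintro (_ | _) _ <;> simp [hp, hp'])
    (by rintro (_ | _) _ <;> simp [hq, hq'])
    (by rintro (_ | _) _ (_ | _) _ h <;> simp_all)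
    (by rintro (_ | _) _ (_ | _) _ h <;> simp_all)
    (by rintro (_ | _) _ <;> simp [h, h'])
  simpa using key

namespace MU

variable {K : Type*} [Field K] [StarRing K] {A : Type*} [NonUnitalRing A] [StarRing A] [Module K A]
  [IsScalarTower K A A] [SMulCommClass K A A] [StarModule K A] (T : MU A)

set_option linter.unusedSectionVars false

/-- Compression to a block. -/
def Z (w : T.W) (C : Matrix T.ι T.ι K) : Matrix T.ι T.ι K :=
  fun i j => if T.blk i = w then C i j else 0

theorem Z_BD {w : T.W} {C : Matrix T.ι T.ι K} (hC : T.BD C) : T.BD (T.Z w C) := by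
  intro i j h
  unfold Z
  rw [hC i j h, ite_self]

theorem Z_mul {w : T.W} {C : Matrix T.ι T.ι K} (hC : T.BD C) (D : Matrix T.ι T.ι K) :
    T.Z w C * T.Z w D = T.Z w (C * D) := by
  ext i k
  rw [Matrix.mul_apply]
  show _ = if T.blk i = w then (C * D) i k else 0
  split_ifs with h
  · rw [Matrix.mul_apply]
    apply Finset.sum_congr rfl
    intro j _
    show (if T.blk i = w then C i j else 0) * (if T.blk j = w then D j k else 0) = _
    rw [if_pos h]
    by_cases hj : T.blk j = w
    · rw [if_pos hj]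
    · rw [hC i j (fun h2 => hj (h2.symm.trans h)), zero_mul, zero_mul]
  · apply Finset.sum_eq_zero
    intro j _
    show (if T.blk i = w then C i j else 0) * _ = 0
    rw [if_neg h, zero_mul]

/-- The rank in a block. -/
noncomputable def rk (w : T.W) (C : Matrix T.ι T.ι K) : ℕ := (T.Z w C).rank

theorem rank_eq_of {n : Type*} [Fintype n] [DecidableEq n] {P Q X Y : Matrix n n K}
    (hP : P * P = P) (hQ : Q * Q = Q) (h1 : X * Y = P) (h2 : Y * X = Q) : P.rank = Q.rank := by
  apply le_antisymm
  · have : P = X * (Q * Y) := by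
      calc P = (X * Y) * (X * Y) := by rw [h1, hP]
        _ = X * ((Y * X) * Y) := by simp only [Matrix.mul_assoc]
        _ = _ := by rw [h2]
    rw [this]
    exact (Matrix.rank_mul_le_right _ _).trans (Matrix.rank_mul_le_left _ _)
  · have : Q = Y * (P * X) := by
      calc Q = (Y * X) * (Y * X) := by rw [h2, hQ]
        _ = Y * ((X * Y) * X) := by simp only [Matrix.mul_assoc]
        _ = _ := by rw [h1]
    rw [this]
    exact (Matrix.rank_mul_le_right _ _).trans (Matrix.rank_mul_le_left _ _)

/-- The diagonal matrix of a set. -/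
def dm (K : Type*) [Field K] {n : Type*} [DecidableEq n] (D : Finset n) : Matrix n n K :=
  Matrix.diagonal fun i => if i ∈ D then 1 else 0

theorem dm_BD (D : Finset T.ι) : T.BD (dm K D) := by
  intro i j h
  exact Matrix.diagonal_apply_ne _ (fun h2 => h (by rw [h2]))

theorem Φ_dm (D : Finset T.ι) : T.Φ (dm K D) = T.diag D := by
  unfold Φ diag
  rw [← Finset.sum_filter_add_sum_filter_not Finset.univ (fun i => i ∈ D)]
  have h1 : ∀ i, ∑ j, (dm K D) i j • T.m i j = if i ∈ D then T.m i i else 0 := by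
    intro i
    rw [Finset.sum_eq_single_of_mem i (Finset.mem_univ i)]
    · unfold dm
      rw [Matrix.diagonal_apply_eq]
      split_ifs
      · rw [one_smul]
      · rw [zero_smul]
    · intro j _ hj
      unfold dm
      rw [Matrix.diagonal_apply_ne _ hj.symm, zero_smul]
  rw [Finset.sum_congr rfl fun i _ => h1 i,
    Finset.sum_eq_zero (s := Finset.univ.filter (fun i => ¬ i ∈ D)), add_zero]
  · rw [Finset.sum_filter]
    rw [← Finset.sum_filter_add_sum_filter_not Finset.univ (fun i => i ∈ D)]
    rw [Finset.sum_eq_zero (s := Finset.univ.filter (fun i => ¬ i ∈ D)), add_zero]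
    · rw [Finset.filter_mem_eq_inter, Finset.univ_inter]
      apply Finset.sum_congr rfl
      intro i hi
      rw [if_pos hi, if_pos hi]
    · intro i hi
      rw [if_neg (Finset.mem_filter.1 hi).2]
  · intro i hi
    rw [h1, if_neg (Finset.mem_filter.1 hi).2]

theorem dm_mul_self {n : Type*} [Fintype n] [DecidableEq n] (D : Finset n) :
    dm K D * dm K D = dm K D := by
  unfold dm
  rw [Matrix.diagonal_mul_diagonal]
  congr 1
  funext i
  split_ifs <;> simp

theorem rk_dm (w : T.W) (D : Finset T.ι) :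
    T.rk w (dm K D) = (D.filter fun i => T.blk i = w).card := by
  classical
  unfold rk
  have h1 : T.Z w (dm K D) = Matrix.diagonal fun i => if T.blk i = w ∧ i ∈ D then (1 : K) else 0 := by
    ext i j
    show (if T.blk i = w then dm K D i j else 0) = _
    unfold dm
    by_cases hij : i = j
    · subst hij
      rw [Matrix.diagonal_apply_eq, Matrix.diagonal_apply_eq]
      by_cases h : T.blk i = w
      · by_cases h2 : i ∈ D
        · simp [h, h2]
        · simp [h2]
      · simp [h]
    · rw [Matrix.diagonal_apply_ne _ hij, Matrix.diagonal_apply_ne _ hij, ite_self]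
  rw [h1, Matrix.rank_diagonal, Fintype.card_subtype]
  congr 1
  ext i
  rw [Finset.mem_filter, Finset.mem_filter]
  constructor
  · rintro ⟨-, h⟩
    by_cases h2 : T.blk i = w ∧ i ∈ D
    · exact ⟨h2.2, h2.1⟩
    · rw [if_neg h2] at h; exact absurd rfl h
  · rintro ⟨h2, h3⟩
    refine ⟨Finset.mem_univ _, ?_⟩
    rw [if_pos ⟨h3, h2⟩]
    exact one_ne_zero

/-- Equivalent idempotents have the same ranks. -/
theorem rk_eq_of (w : T.W) {P Q X Y : Matrix T.ι T.ι K} (hPd : T.BD P) (hQd : T.BD Q)
    (hX : T.BD X) (hY : T.BD Y)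
    (hP : P * P = P) (hQ : Q * Q = Q) (h1 : X * Y = P) (h2 : Y * X = Q) :
    T.rk w P = T.rk w Q :=
  rank_eq_of (X := T.Z w X) (Y := T.Z w Y) (by rw [T.Z_mul hPd, hP]) (by rw [T.Z_mul hQd, hQ])
    (by rw [T.Z_mul hX, h1]) (by rw [T.Z_mul hY, h2])

/-- Splitting in a block. -/
theorem exists_split_rk (w : T.W) {C : Matrix T.ι T.ι K} (hC : T.BD C) (hCC : C * C = C) :
    ∃ (A : Matrix T.ι (Fin (T.rk w C)) K) (A' : Matrix (Fin (T.rk w C)) T.ι K),
      A * A' = T.Z w C ∧ A' * A = 1 := by
  obtain ⟨r, A, A', h1, h2⟩ := exists_split (T.Z w C) (by rw [T.Z_mul hC, hCC])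
  have hr : r = T.rk w C := by
    apply le_antisymm
    · have h3 : (1 : Matrix (Fin r) (Fin r) K) = A' * (T.Z w C * A) := by
        rw [← h1, Matrix.mul_assoc, h2, Matrix.mul_one, h2]
      have h4 : r = (1 : Matrix (Fin r) (Fin r) K).rank := by
        rw [Matrix.rank_one, Fintype.card_fin]
      rw [h4, h3]
      exact (Matrix.rank_mul_le_right _ _).trans (Matrix.rank_mul_le_left _ _)
    · show (T.Z w C).rank ≤ r
      rw [← h1]
      exact (Matrix.rank_mul_le_left _ _).trans (by
        have := Matrix.rank_le_card_width A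
        rwa [Fintype.card_fin] at this)
  subst hr
  exact ⟨A, A', h1, h2⟩

/-- The units of a block. -/
theorem Φ_Z_sum {C : Matrix T.ι T.ι K} :
    ∑ w ∈ Finset.univ.image T.blk, T.Φ (T.Z w C) = T.Φ C := by
  unfold Φ
  rw [Finset.sum_comm]
  apply Finset.sum_congr rfl
  intro i _
  rw [Finset.sum_comm]
  apply Finset.sum_congr rfl
  intro j _
  unfold Z
  rw [← Finset.sum_smul, Finset.sum_ite_eq, if_pos (Finset.mem_image_of_mem _ (Finset.mem_univ i))]

theorem Z_mul_ne {w w' : T.W} (h : w ≠ w') {C : Matrix T.ι T.ι K} (hC : T.BD C)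
    (D : Matrix T.ι T.ι K) : T.Z w C * T.Z w' D = 0 := by
  ext i k
  rw [Matrix.mul_apply, Matrix.zero_apply]
  apply Finset.sum_eq_zero
  intro j _
  show (if T.blk i = w then C i j else 0) * (if T.blk j = w' then D j k else 0) = 0
  by_cases h1 : T.blk i = w
  · by_cases h2 : T.blk j = w'
    · rw [hC i j (fun h3 => h (h1.symm.trans (h3.trans h2))), ite_self, zero_mul]
    · rw [if_neg h2, mul_zero]
  · rw [if_neg h1, zero_mul]

/-- An idempotent is equivalent to a diagonal projection of the same rank, one block. -/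
theorem IEq_block (w : T.W) {C : Matrix T.ι T.ι K} (hC : T.BD C) (hCC : C * C = C)
    {G : Finset T.ι} (hG : ∀ i ∈ G, T.blk i = w) (hcard : G.card = T.rk w C) :
    IEq (T.diag G) (T.Φ (T.Z w C)) := by
  classical
  obtain ⟨A, A', h1, h2⟩ := T.exists_split_rk w hC hCC
  let g : Fin (T.rk w C) ≃ G := (Fintype.equivFinOfCardEq (by
    rw [Fintype.card_coe, hcard])).symm
  let P : Matrix (Fin (T.rk w C)) T.ι K := fun k i => if i = (g k).1 then 1 else 0
  let P' : Matrix T.ι (Fin (T.rk w C)) K := fun i k => if i = (g k).1 then 1 else 0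
  have hPP' : P * P' = 1 := by
    ext k l
    rw [Matrix.mul_apply]
    show ∑ i, (if i = (g k).1 then (1 : K) else 0) * (if i = (g l).1 then 1 else 0) = _
    rw [Finset.sum_eq_single_of_mem (g k).1 (Finset.mem_univ _)]
    · rw [if_pos rfl, one_mul, Matrix.one_apply]
      by_cases hkl : k = l
      · subst hkl; rw [if_pos rfl, if_pos rfl]
      · rw [if_neg hkl, if_neg]
        intro h
        exact hkl (g.injective (Subtype.ext h))
    · intro i _ hi
      rw [if_neg hi, zero_mul]
  have hP'P : P' * P = dm K G := by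
    ext i j
    rw [Matrix.mul_apply]
    show ∑ k, (if i = (g k).1 then (1 : K) else 0) * (if j = (g k).1 then 1 else 0) = _
    unfold dm
    by_cases hi : i ∈ G
    · obtain ⟨k, hk⟩ := g.surjective ⟨i, hi⟩
      have hk' : (g k).1 = i := congrArg Subtype.val hk
      rw [Finset.sum_eq_single_of_mem k (Finset.mem_univ _)]
      · rw [if_pos hk'.symm, one_mul, hk']
        by_cases hij : i = j
        · subst hij; rw [if_pos rfl, Matrix.diagonal_apply_eq, if_pos hi]
        · rw [if_neg (fun h => hij h.symm), Matrix.diagonal_apply_ne _ hij]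
      · intro l _ hl
        rw [if_neg, zero_mul]
        intro h
        exact hl (g.injective (Subtype.ext (by rw [← h, hk'])))
    · rw [Finset.sum_eq_zero]
      · by_cases hij : i = j
        · subst hij; rw [Matrix.diagonal_apply_eq, if_neg hi]
        · rw [Matrix.diagonal_apply_ne _ hij]
      · intro k _
        rw [if_neg, zero_mul]
        rintro rfl
        exact hi (g k).2
  have hAw : ∀ i k, T.blk i ≠ w → A i k = 0 := by
    intro i k hi
    have h3 : A = T.Z w C * A := by rw [← h1, Matrix.mul_assoc, h2, Matrix.mul_one]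
    rw [h3, Matrix.mul_apply]
    apply Finset.sum_eq_zero
    intro j _
    show (if T.blk i = w then C i j else 0) * _ = 0
    rw [if_neg hi, zero_mul]
  have hA'w : ∀ k j, T.blk j ≠ w → A' k j = 0 := by
    intro k j hj
    have h3 : A' = A' * T.Z w C := by rw [← h1, ← Matrix.mul_assoc, h2, Matrix.one_mul]
    rw [h3, Matrix.mul_apply]
    apply Finset.sum_eq_zero
    intro i _
    show _ * (if T.blk i = w then C i j else 0) = 0
    split_ifs with h4
    · rw [hC i j (fun h5 => hj (h5.symm.trans h4)), mul_zero]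
    · rw [mul_zero]
  have hXd : T.BD (P' * A') := by
    intro i j hij
    rw [Matrix.mul_apply]
    apply Finset.sum_eq_zero
    intro k _
    show (if i = (g k).1 then (1 : K) else 0) * _ = 0
    split_ifs with h
    · rw [hA'w k j, mul_zero]
      intro h4
      apply hij
      rw [h, hG _ (g k).2, h4]
    · rw [zero_mul]
  have hYd : T.BD (A * P) := by
    intro i j hij
    rw [Matrix.mul_apply]
    apply Finset.sum_eq_zero
    intro k _
    show _ * (if j = (g k).1 then (1 : K) else 0) = 0
    split_ifs with h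
    · rw [hAw i k, zero_mul]
      intro h4
      apply hij
      rw [h, hG _ (g k).2, h4]
    · rw [mul_zero]
  refine ⟨T.Φ (P' * A'), T.Φ (A * P), ?_, ?_⟩
  · rw [T.Φ_mul hXd, ← T.Φ_dm (K := K)]
    congr 1
    calc P' * A' * (A * P) = P' * (A' * A) * P := by simp only [Matrix.mul_assoc]
      _ = dm K G := by rw [h2, Matrix.mul_one, hP'P]
  · rw [T.Φ_mul hYd]
    congr 1
    calc A * P * (P' * A') = A * (P * P') * A' := by simp only [Matrix.mul_assoc]
      _ = _ := by rw [hPP', Matrix.mul_one, h1]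

theorem diag_filter_sum (G : Finset T.ι) :
    ∑ w ∈ Finset.univ.image T.blk, T.diag (G.filter fun i => T.blk i = w) = T.diag G := by
  unfold diag
  have : ∀ w, ∑ i ∈ G.filter (fun i => T.blk i = w), T.m i i
      = ∑ i ∈ G, if T.blk i = w then T.m i i else 0 := fun w => Finset.sum_filter _ _
  rw [Finset.sum_congr rfl fun w _ => this w, Finset.sum_comm]
  apply Finset.sum_congr rfl
  intro i _
  rw [Finset.sum_ite_eq, if_pos (Finset.mem_image_of_mem _ (Finset.mem_univ i))]

/-- An idempotent is equivalent to a diagonal projection of the same rank. -/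
theorem IEq_of_rk {C : Matrix T.ι T.ι K} (hC : T.BD C) (hCC : C * C = C) {G : Finset T.ι}
    (hcard : ∀ w, (G.filter fun i => T.blk i = w).card = T.rk w C) :
    IEq (T.diag G) (T.Φ C) := by
  classical
  rw [← T.diag_filter_sum, ← T.Φ_Z_sum]
  apply IEq.sum
  · intro w _; exact T.diag_mul_self _
  · intro w _
    rw [T.Φ_mul (T.Z_BD hC), T.Z_mul hC, hCC]
  · intro w _ w' _ h
    apply T.diag_disjoint
    rw [Finset.disjoint_left]
    intro i hi hi'
    exact h ((Finset.mem_filter.1 hi).2.symm.trans (Finset.mem_filter.1 hi').2)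
  · intro w _ w' _ h
    rw [T.Φ_mul (T.Z_BD hC), T.Z_mul_ne h hC, T.Φ_zero]
  · intro w _
    exact T.IEq_block w hC hCC (fun i hi => (Finset.mem_filter.1 hi).2) (hcard w)

/-- Ranks of orthogonal idempotents. -/
theorem rk_add_le (w : T.W) {C C1 : Matrix T.ι T.ι K} (hC : T.BD C)
    (hCC : C * C = C) (h0 : C * C1 = 0) :
    T.rk w C + T.rk w C1 ≤ (Finset.univ.filter fun i => T.blk i = w).card := by
  classical
  have hZ : T.rk w (dm K (Finset.univ : Finset T.ι))
      = (Finset.univ.filter fun i => T.blk i = w).card := T.rk_dm w _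
  rw [← hZ]
  unfold rk Matrix.rank
  have e1 : LinearMap.range (T.Z w C).mulVecLin ⊓ LinearMap.range (T.Z w C1).mulVecLin = ⊥ := by
    rw [eq_bot_iff]
    rintro x ⟨⟨y, rfl⟩, ⟨z, hz⟩⟩
    have h1 : (T.Z w C).mulVec ((T.Z w C).mulVec y) = (T.Z w C).mulVec y := by
      rw [Matrix.mulVec_mulVec, T.Z_mul hC, hCC]
    have h2 : (T.Z w C).mulVec ((T.Z w C1).mulVec z) = 0 := by
      rw [Matrix.mulVec_mulVec, T.Z_mul hC, h0]
      have : T.Z w (0 : Matrix T.ι T.ι K) = 0 := by
        ext i j
        show (if T.blk i = w then (0 : K) else 0) = 0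
        exact ite_self _
      rw [this, Matrix.zero_mulVec]
    have hz' : (T.Z w C1).mulVec z = (T.Z w C).mulVec y := hz
    rw [hz', h1] at h2
    show (T.Z w C).mulVec y ∈ _
    rw [h2]
    exact Submodule.zero_mem _
  have e2 : LinearMap.range (T.Z w C).mulVecLin ⊔ LinearMap.range (T.Z w C1).mulVecLin
      ≤ LinearMap.range (T.Z w (dm K (Finset.univ : Finset T.ι))).mulVecLin := by
    have e3 : ∀ D : Matrix T.ι T.ι K, LinearMap.range (T.Z w D).mulVecLin
        ≤ LinearMap.range (T.Z w (dm K (Finset.univ : Finset T.ι))).mulVecLin := by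
      intro D
      rintro _ ⟨y, rfl⟩
      refine ⟨(T.Z w D).mulVec y, ?_⟩
      show (T.Z w (dm K (Finset.univ : Finset T.ι))).mulVec ((T.Z w D).mulVec y)
        = (T.Z w D).mulVec y
      rw [Matrix.mulVec_mulVec, T.Z_mul (T.dm_BD _)]
      congr 2
      unfold dm
      simp
    exact sup_le (e3 C) (e3 C1)
  have e4 := Submodule.finrank_sup_add_finrank_inf_eq (LinearMap.range (T.Z w C).mulVecLin)
    (LinearMap.range (T.Z w C1).mulVecLin)
  rw [e1, finrank_bot, add_zero] at e4
  rw [← e4]
  exact Submodule.finrank_mono e2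

/-- A bijection between sets with the same numbers of elements in the blocks. -/
theorem exists_std_equiv {D D' : Finset T.ι}
    (h : ∀ w, (D.filter fun i => T.blk i = w).card = (D'.filter fun i => T.blk i = w).card) :
    ∃ s, T.IsStd s ∧ s * star s = T.diag D ∧ star s * s = T.diag D' := by
  classical
  have hfib : ∀ w, Nonempty ({a : D // T.blk a.1 = w} ≃ {b : D' // T.blk b.1 = w}) := by
    intro w
    apply Fintype.card_eq.1
    have e1 : ∀ D : Finset T.ι, Fintype.card {a : D // T.blk a.1 = w}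
        = (D.filter fun i => T.blk i = w).card := by
      intro D
      rw [Fintype.card_subtype]
      have : (D.filter fun i => T.blk i = w)
          = (Finset.univ.filter fun a : D => T.blk a.1 = w).map ⟨Subtype.val, Subtype.val_injective⟩ := by
        ext i
        rw [Finset.mem_filter, Finset.mem_map]
        constructor
        · rintro ⟨h1, h2⟩
          exact ⟨⟨i, h1⟩, Finset.mem_filter.2 ⟨Finset.mem_univ _, h2⟩, rfl⟩
        · rintro ⟨⟨j, hj⟩, h1, rfl⟩
          exact ⟨hj, (Finset.mem_filter.1 h1).2⟩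
      rw [this, Finset.card_map]
    rw [e1, e1, h]
  let e : D ≃ D' := Equiv.ofFiberEquiv (f := fun a : D => T.blk a.1) (g := fun b : D' => T.blk b.1)
    (fun w => (hfib w).some)
  have he : ∀ a : D, T.blk (e a).1 = T.blk a.1 := fun a =>
    Equiv.ofFiberEquiv_map (f := fun a : D => T.blk a.1) (g := fun b : D' => T.blk b.1)
      (fun w => (hfib w).some) a
  let e' : T.ι → T.ι := fun i => if hi : i ∈ D then (e ⟨i, hi⟩).1 else i
  have he' : ∀ (i) (hi : i ∈ D), e' i = (e ⟨i, hi⟩).1 := fun i hi => dif_pos hi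
  have hinj : Set.InjOn e' D := by
    intro i hi j hj hij
    rw [Finset.mem_coe] at hi hj
    rw [he' i hi, he' j hj] at hij
    exact congrArg Subtype.val (e.injective (Subtype.ext hij))
  have hb : ∀ i ∈ D, T.blk (e' i) = T.blk i := by
    intro i hi
    rw [he' i hi, he]
  refine ⟨∑ i ∈ D, T.m i (e' i), ⟨D, e', hinj, hb, rfl⟩, ?_, ?_⟩
  · rw [star_sum, Finset.sum_mul]
    unfold diag
    apply Finset.sum_congr rfl
    intro i hi
    rw [Finset.mul_sum, Finset.sum_eq_single_of_mem i hi]
    · rw [T.star_m, T.mul_eq _ _ _ (hb i hi).symm (hb i hi)]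
    · intro j hj hji
      rw [T.star_m, T.mul_ne]
      intro h
      exact hji (hinj hj hi h.symm)
  · have h1 : D' = D.image e' := by
      ext j
      rw [Finset.mem_image]
      constructor
      · intro hj
        obtain ⟨a, ha⟩ := e.surjective ⟨j, hj⟩
        exact ⟨a.1, a.2, by rw [he' a.1 a.2]; exact congrArg Subtype.val ha⟩
      · rintro ⟨i, hi, rfl⟩
        rw [he' i hi]
        exact (e ⟨i, hi⟩).2
    rw [h1, star_sum, Finset.sum_mul]
    unfold diag
    rw [Finset.sum_image hinj]
    apply Finset.sum_congr rfl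
    intro i hi
    rw [Finset.mul_sum, Finset.sum_eq_single_of_mem i hi]
    · rw [T.star_m, T.mul_eq _ _ _ (hb i hi) (hb i hi).symm]
    · intro j _ hji
      rw [T.star_m, T.mul_ne _ _ _ _ hji.symm]

variable (K) in
/-- Equivalent diagonal projections are equivalent by a standard partial isometry. -/
theorem exists_std_of_IEq {D D' : Finset T.ι} {x y : A} (hx : x ∈ T.alg K) (hy : y ∈ T.alg K)
    (h1 : x * y = T.diag D) (h2 : y * x = T.diag D') :
    ∃ s, T.IsStd s ∧ s * star s = T.diag D ∧ star s * s = T.diag D' := by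
  obtain ⟨X, hX, rfl⟩ := hx
  obtain ⟨Y, hY, rfl⟩ := hy
  rw [T.Φ_mul hX, ← T.Φ_dm (K := K)] at h1
  rw [T.Φ_mul hY, ← T.Φ_dm (K := K)] at h2
  have h1' := T.Φ_inj (hX.mul T hY) (T.dm_BD D) h1
  have h2' := T.Φ_inj (hY.mul T hX) (T.dm_BD D') h2
  apply T.exists_std_equiv
  intro w
  rw [← T.rk_dm (K := K), ← T.rk_dm (K := K)]
  exact T.rk_eq_of w (T.dm_BD D) (T.dm_BD D') hX hY (dm_mul_self D) (dm_mul_self D') h1' h2'

variable (K) in
/-- Room for a further idempotent. -/
theorem exists_room {D : Finset T.ι} {p p1 x y : A} (hp : p ∈ T.alg K) (hp1 : p1 ∈ T.alg K)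
    (hx : x ∈ T.alg K) (hy : y ∈ T.alg K) (hpp : p * p = p) (hp1p1 : p1 * p1 = p1)
    (h0 : p * p1 = 0) (h1 : x * y = T.diag D) (h2 : y * x = p) :
    ∃ G : Finset T.ι, Disjoint D G ∧ IEq (T.diag G) p1 := by
  classical
  obtain ⟨X, hX, rfl⟩ := hx
  obtain ⟨Y, hY, rfl⟩ := hy
  obtain ⟨C, hC, rfl⟩ := hp
  obtain ⟨C1, hC1, rfl⟩ := hp1
  rw [T.Φ_mul hX, ← T.Φ_dm (K := K)] at h1
  rw [T.Φ_mul hY] at h2
  rw [T.Φ_mul hC] at hpp h0
  rw [T.Φ_mul hC1] at hp1p1
  rw [← T.Φ_zero (K := K)] at h0
  have h1' := T.Φ_inj (hX.mul T hY) (T.dm_BD D) h1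
  have h2' := T.Φ_inj (hY.mul T hX) hC h2
  have hpp' := T.Φ_inj (hC.mul T hC) hC hpp
  have hp1' := T.Φ_inj (hC1.mul T hC1) hC1 hp1p1
  have h0' := T.Φ_inj (hC.mul T hC1) (fun _ _ _ => rfl) h0
  have hle : ∀ w, T.rk w C1 ≤ ((Finset.univ \ D).filter fun i => T.blk i = w).card := by
    intro w
    have e1 := T.rk_add_le w hC hpp' h0'
    have e2 : T.rk w C = (D.filter fun i => T.blk i = w).card := by
      rw [← T.rk_dm (K := K)]
      exact (T.rk_eq_of w (T.dm_BD D) hC hX hY (dm_mul_self D) hpp' h1' h2').symm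
    have e3 : (Finset.univ.filter fun i => T.blk i = w).card
        = (D.filter fun i => T.blk i = w).card
          + ((Finset.univ \ D).filter fun i => T.blk i = w).card := by
      rw [← Finset.card_union_of_disjoint]
      · congr 1
        rw [← Finset.filter_union, Finset.union_sdiff_of_subset (Finset.subset_univ D)]
      · exact Finset.disjoint_filter_filter Finset.disjoint_sdiff
    omega
  have hch : ∀ w, ∃ G : Finset T.ι, G ⊆ ((Finset.univ \ D).filter fun i => T.blk i = w) ∧
      G.card = T.rk w C1 := fun w => Finset.exists_subset_card_eq (hle w)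
  choose G hG1 hG2 using hch
  refine ⟨(Finset.univ.image T.blk).biUnion G, ?_, ?_⟩
  · rw [Finset.disjoint_left]
    intro i hi hi'
    rw [Finset.mem_biUnion] at hi'
    obtain ⟨w, -, hw⟩ := hi'
    have := (Finset.mem_filter.1 (hG1 w hw)).1
    exact (Finset.mem_sdiff.1 this).2 hi
  · apply T.IEq_of_rk hC1 hp1'
    intro w
    rw [← hG2]
    congr 1
    ext i
    rw [Finset.mem_filter, Finset.mem_biUnion]
    constructor
    · rintro ⟨⟨w', -, hw'⟩, h3⟩
      have := (Finset.mem_filter.1 (hG1 w' hw')).2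
      rw [← h3, this]
      exact hw'
    · intro hi
      have := (Finset.mem_filter.1 (hG1 w hi)).2
      exact ⟨⟨w, by rw [← this]; exact Finset.mem_image_of_mem _ (Finset.mem_univ i), hi⟩, this⟩

end MU

end Pool.Agent.Helper665_GA
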