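import Pool.Agent.Helper665_GA.BPath

/-!
# The boundary path representation over Laurent polynomials (helper665)
-/

namespace Pool.Agent.Helper665_GA

open LaurentPolynomial

/-- The space of the representation. -/
abbrev VV (K : Type*) [Field K] (G : Graph) : Type _ := BPath G →₀ K[T;T⁻¹]

/-- The operators on the space of the representation. -/
def EE (K : Type*) [Field K] (G : Graph) : Type _ := Module.End K[T;T⁻¹] (VV K G)

noncomputable instance (K : Type*) [Field K] (G : Graph) : Ring (EE K G) :=
  inferInstanceAs (Ring (Module.End K[T;T⁻¹] (VV K G)))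

noncomputable instance (K : Type*) [Field K] (G : Graph) : Algebra K (EE K G) :=
  inferInstanceAs (Algebra K (Module.End K[T;T⁻¹] (VV K G)))

namespace EE

variable {K : Type*} [Field K] {G : Graph}

/-- The linear map underlying an element. -/
def ap (f : EE K G) : VV K G →ₗ[K[T;T⁻¹]] VV K G := f

/-- Making an element from a linear map. -/
def mk (f : VV K G →ₗ[K[T;T⁻¹]] VV K G) : EE K G := f

theorem ap_mk (f : VV K G →ₗ[K[T;T⁻¹]] VV K G) : (mk f).ap = f := rfl

theorem mul_ap (f g : EE K G) (a : VV K G) : (f * g).ap a = f.ap (g.ap a) := rfl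

theorem add_ap (f g : EE K G) (a : VV K G) : (f + g).ap a = f.ap a + g.ap a := rfl

theorem sub_ap (f g : EE K G) (a : VV K G) : (f - g).ap a = f.ap a - g.ap a := rfl

theorem zero_ap (a : VV K G) : (0 : EE K G).ap a = 0 := rfl

theorem smul_ap (r : K) (f : EE K G) (a : VV K G) : (r • f).ap a = r • f.ap a := rfl

theorem sum_ap {ι : Type*} (S : Finset ι) (f : ι → EE K G) (a : VV K G) :
    (∑ i ∈ S, f i).ap a = ∑ i ∈ S, (f i).ap a := by
  classical
  induction S using Finset.induction_on with
  | empty => rfl
  | insert i S hi ih => rw [Finset.sum_insert hi, Finset.sum_insert hi, add_ap, ih]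

end EE

section ops

variable (K : Type*) [Field K] (G : Graph)

open Classical in
/-- vertex operators -/
noncomputable def opP (v : G.V) : EE K G := EE.mk <|
  Finsupp.linearCombination K[T;T⁻¹] fun x : BPath G =>
    if x.vtx 0 = v then Finsupp.single x (1 : K[T;T⁻¹]) else 0

open Classical in
/-- edge operators -/
noncomputable def opS (e : G.E) : EE K G := EE.mk <|
  Finsupp.linearCombination K[T;T⁻¹] fun x : BPath G =>
    if h : G.rng e = x.vtx 0 then Finsupp.single (BPath.cons e x h) (T 1 : K[T;T⁻¹]) else 0

open Classical in
/-- ghost edge operators -/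
noncomputable def opT (e : G.E) : EE K G := EE.mk <|
  Finsupp.linearCombination K[T;T⁻¹] fun x : BPath G =>
    if x.edg 0 = some e then Finsupp.single x.shift (T (-1) : K[T;T⁻¹]) else 0

open Classical in
theorem opP_single (v : G.V) (x : BPath G) (r : K[T;T⁻¹]) :
    (opP K G v).ap (Finsupp.single x r) = if x.vtx 0 = v then Finsupp.single x r else 0 := by
  rw [opP, EE.ap_mk, Finsupp.linearCombination_single]
  split_ifs <;> simp

open Classical in
theorem opS_single (e : G.E) (x : BPath G) (r : K[T;T⁻¹]) :
    (opS K G e).ap (Finsupp.single x r) =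
      if h : G.rng e = x.vtx 0 then Finsupp.single (BPath.cons e x h) (r * T 1) else 0 := by
  rw [opS, EE.ap_mk, Finsupp.linearCombination_single]
  split_ifs <;> simp

open Classical in
theorem opT_single (e : G.E) (x : BPath G) (r : K[T;T⁻¹]) :
    (opT K G e).ap (Finsupp.single x r) =
      if x.edg 0 = some e then Finsupp.single x.shift (r * T (-1)) else 0 := by
  rw [opT, EE.ap_mk, Finsupp.linearCombination_single]
  split_ifs <;> simp

variable {K G} in
theorem ee_ext {f g : EE K G}
    (h : ∀ x, f.ap (Finsupp.single x 1) = g.ap (Finsupp.single x 1)) :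
    f = g := by
  apply Finsupp.lhom_ext'
  intro x
  apply LinearMap.ext_ring
  exact h x

/-- The Leavitt family of the boundary path representation. -/
noncomputable def repFamily : LeavittFamily G (EE K G) where
  p := opP K G
  s := opS K G
  t := opT K G
  p_mul_self v := by
    apply ee_ext; intro x
    rw [EE.mul_ap, opP_single]
    split_ifs with h
    · rw [opP_single, if_pos h]
    · rw [map_zero]
  p_mul_of_ne v w hvw := by
    apply ee_ext; intro x
    rw [EE.mul_ap, opP_single]
    split_ifs with h
    · rw [opP_single, if_neg (by rw [h]; exact hvw.symm)]; rfl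
    · rw [map_zero]; rfl
  src_mul e := by
    apply ee_ext; intro x
    rw [EE.mul_ap, opS_single]
    split_ifs with h
    · rw [opP_single, if_pos (BPath.cons_vtx_zero e x h)]
    · rw [map_zero]
  mul_rng e := by
    apply ee_ext; intro x
    rw [EE.mul_ap, opP_single]
    split_ifs with h
    · rfl
    · rw [map_zero, opS_single, dif_neg (fun h' => h h'.symm)]
  rng_mul e := by
    apply ee_ext; intro x
    rw [EE.mul_ap, opT_single]
    split_ifs with h
    · rw [opP_single, if_pos (BPath.rng_of_edg h).symm]
    · rw [map_zero]
  mul_src e := by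
    apply ee_ext; intro x
    rw [EE.mul_ap, opP_single]
    split_ifs with h
    · rfl
    · rw [map_zero, opT_single, if_neg (fun h' => h (BPath.src_of_edg h').symm)]
  ghost_mul_self e := by
    apply ee_ext; intro x
    rw [EE.mul_ap, opS_single, opP_single]
    split_ifs with h h' h'
    · rw [opT_single, if_pos (BPath.cons_edg_zero _ _ _), BPath.shift_cons, mul_assoc, ← T_add]
      simp
    · exact absurd h.symm h'
    · exact absurd h'.symm h
    · rw [map_zero]
  ghost_mul_of_ne e f hef := by
    apply ee_ext; intro x
    rw [EE.mul_ap, opS_single]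
    split_ifs with h
    · rw [opT_single, if_neg]; · rfl
      rw [BPath.cons_edg_zero]
      intro hc
      exact hef (Option.some.inj hc).symm
    · rw [map_zero]; rfl
  sum_eq v S hS hmem := by
    classical
    apply ee_ext; intro x
    have h1 : ∀ e, (opS K G e * opT K G e).ap (Finsupp.single x 1)
        = if x.edg 0 = some e then Finsupp.single x 1 else 0 := by
      intro e
      rw [EE.mul_ap, opT_single]
      split_ifs with h
      · rw [opS_single, dif_pos (BPath.rng_of_edg h), BPath.cons_shift h, mul_assoc, ← T_add]
        simp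
      · rw [map_zero]
    rw [EE.sum_ap, Finset.sum_congr rfl fun e _ => h1 e, opP_single]
    split_ifs with h
    · cases hx : x.edg 0 with
      | none =>
        have := (x.ok_none 0 hx).1
        rw [h] at this
        exact absurd ⟨S, hS, hmem⟩ this
      | some e =>
        have he : e ∈ S := by rw [hmem, ← h]; exact BPath.src_of_edg hx
        rw [Finset.sum_eq_single_of_mem e he]
        · rw [if_pos rfl]
        · intro f _ hf
          rw [if_neg]
          intro hc
          exact hf (Option.some.inj hc).symm
    · apply Finset.sum_eq_zero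
      intro e he
      rw [if_neg]
      intro hc
      apply h
      rw [← BPath.src_of_edg hc]
      exact (hmem e).1 he

/-- The boundary path representation. -/
noncomputable def rho : LPA K G →ₙₐ[K] EE K G := LPA.lift (repFamily K G)

end ops

namespace LeavittFamily

variable {G : Graph} {A B : Type*} [NonUnitalRing A] [NonUnitalRing B] (X : LeavittFamily G A)

/-- products of edges, ending in `v` -/
def sP : List G.E → G.V → A
  | [], v => X.p v
  | e :: l, v => X.s e * sP l v

/-- products of ghost edges -/
def tP : List G.E → G.V → A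
  | [], v => X.p v
  | e :: l, v => tP l v * X.t e

theorem map_sP {F : Type*} [FunLike F A B] [NonUnitalRingHomClass F A B] (f : F)
    (l : List G.E) (v : G.V) : f (X.sP l v) = (X.map f).sP l v := by
  induction l with
  | nil => rfl
  | cons e l ih => rw [sP, sP, map_mul, ih]; rfl

theorem map_tP {F : Type*} [FunLike F A B] [NonUnitalRingHomClass F A B] (f : F)
    (l : List G.E) (v : G.V) : f (X.tP l v) = (X.map f).tP l v := by
  induction l with
  | nil => rfl
  | cons e l ih => rw [tP, tP, map_mul, ih]; rfl

theorem sP_mul_p (l : List G.E) (v : G.V) : X.sP l v * X.p v = X.sP l v := by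
  induction l with
  | nil => exact X.p_mul_self v
  | cons e l ih => rw [sP, mul_assoc, ih]

theorem p_mul_tP (l : List G.E) (v : G.V) : X.p v * X.tP l v = X.tP l v := by
  induction l with
  | nil => exact X.p_mul_self v
  | cons e l ih => rw [tP, ← mul_assoc, ih]

theorem sP_mul_p_of_ne (l : List G.E) {v w : G.V} (h : v ≠ w) : X.sP l v * X.p w = 0 := by
  rw [← X.sP_mul_p, mul_assoc, X.p_mul_of_ne v w h, mul_zero]

theorem p_mul_tP_of_ne (l : List G.E) {v w : G.V} (h : w ≠ v) : X.p w * X.tP l v = 0 := by
  rw [← X.p_mul_tP, ← mul_assoc, X.p_mul_of_ne w v h, zero_mul]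

theorem p_mul_s_of_ne {e : G.E} {v : G.V} (h : G.src e ≠ v) : X.p v * X.s e = 0 := by
  rw [← X.src_mul, ← mul_assoc, X.p_mul_of_ne _ _ h.symm, zero_mul]

theorem t_mul_p_of_ne {e : G.E} {v : G.V} (h : G.src e ≠ v) : X.t e * X.p v = 0 := by
  rw [← X.mul_src, mul_assoc, X.p_mul_of_ne _ _ h, mul_zero]

theorem s_mul_p_of_ne {e : G.E} {v : G.V} (h : G.rng e ≠ v) : X.s e * X.p v = 0 := by
  rw [← X.mul_rng, mul_assoc, X.p_mul_of_ne _ _ h, mul_zero]

theorem p_mul_t_of_ne {e : G.E} {v : G.V} (h : G.rng e ≠ v) : X.p v * X.t e = 0 := by
  rw [← X.rng_mul, ← mul_assoc, X.p_mul_of_ne _ _ h.symm, zero_mul]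

theorem p_mul_sP (w : G.V) (l : List G.E) (v : G.V) :
    X.p w * X.sP l v = X.sP l v ∨ X.p w * X.sP l v = 0 := by
  cases l with
  | nil =>
    by_cases h : w = v
    · left; subst h; exact X.p_mul_self _
    · right; exact X.p_mul_of_ne _ _ h
  | cons e l =>
    by_cases h : G.src e = w
    · left; rw [sP, ← mul_assoc, ← h, X.src_mul]
    · right; rw [sP, ← mul_assoc, X.p_mul_s_of_ne h, zero_mul]

theorem tP_mul_p (w : G.V) (l : List G.E) (v : G.V) :
    X.tP l v * X.p w = X.tP l v ∨ X.tP l v * X.p w = 0 := by
  cases l with
  | nil =>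
    by_cases h : v = w
    · left; subst h; exact X.p_mul_self _
    · right; exact X.p_mul_of_ne _ _ h
  | cons e l =>
    by_cases h : G.src e = w
    · left; rw [tP, mul_assoc, ← h, X.mul_src]
    · right; rw [tP, mul_assoc, X.t_mul_p_of_ne h, mul_zero]

theorem sP_append (l : List G.E) (e : G.E) :
    X.sP (l ++ [e]) (G.rng e) = X.sP l (G.src e) * X.s e := by
  induction l with
  | nil => rw [List.nil_append, sP, sP, sP, X.mul_rng, X.src_mul]
  | cons f l ih => rw [List.cons_append, sP, ih, sP, mul_assoc]

theorem tP_append (l : List G.E) (e : G.E) :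
    X.tP (l ++ [e]) (G.rng e) = X.t e * X.tP l (G.src e) := by
  induction l with
  | nil => rw [List.nil_append, tP, tP, tP, X.rng_mul, X.mul_src]
  | cons f l ih => rw [List.cons_append, tP, ih, tP, mul_assoc]

end LeavittFamily

section repP

variable (K : Type*) [Field K] (G : Graph)

open Classical in
theorem rep_sP (l : List G.E) (v : G.V) (x : BPath G) (r : K[T;T⁻¹]) :
    ((repFamily K G).sP l v).ap (Finsupp.single x r) =
      if x.vtx 0 = v then (BPath.app l x).elim 0 fun y => Finsupp.single y (r * T l.length)
      else 0 := by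
  induction l with
  | nil =>
    show (opP K G v).ap (Finsupp.single x r) = _
    rw [opP_single, BPath.app]
    simp
  | cons e l ih =>
    show (opS K G e * (repFamily K G).sP l v).ap (Finsupp.single x r) = _
    rw [EE.mul_ap, ih]
    split_ifs with h
    · rw [BPath.app]
      cases hx : BPath.app l x with
      | none => simp
      | some y =>
        rw [Option.elim_some, opS_single, Option.bind_some]
        split_ifs with h2
        · rw [Option.elim_some, mul_assoc, ← T_add]
          simp
        · simp
    · rw [map_zero]

open Classical in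
theorem rep_tP (l : List G.E) (v : G.V) (x : BPath G) (r : K[T;T⁻¹]) :
    ((repFamily K G).tP l v).ap (Finsupp.single x r) =
      (BPath.strip l x).elim 0 fun y => if y.vtx 0 = v then
        Finsupp.single y (r * T (-l.length)) else 0 := by
  induction l generalizing x r with
  | nil =>
    show (opP K G v).ap (Finsupp.single x r) = _
    rw [opP_single, BPath.strip]
    simp
  | cons e l ih =>
    show ((repFamily K G).tP l v * opT K G e).ap (Finsupp.single x r) = _
    rw [EE.mul_ap, opT_single, BPath.strip]
    split_ifs with h
    · rw [ih]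
      have h1 : r * T (-1) * T (-(l.length : ℤ)) = (r * T (-((e :: l).length : ℤ)) : K[T;T⁻¹]) := by
        rw [mul_assoc, ← T_add, List.length_cons]
        congr 2
        push_cast; ring
      rw [h1]
    · rw [map_zero, Option.elim_none]

/-- The value of the representation on path monomials. -/
theorem rep_mono (l l' : List G.E) (v : G.V) (x : BPath G) (r : K[T;T⁻¹]) :
    (((repFamily K G).sP l v * (repFamily K G).tP l' v).ap (Finsupp.single x r) = 0) ∨
      ∃ y z, BPath.strip l' x = some y ∧ BPath.strip l z = some y ∧ y.vtx 0 = v ∧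
        ((repFamily K G).sP l v * (repFamily K G).tP l' v).ap (Finsupp.single x r)
          = Finsupp.single z (r * T ((l.length : ℤ) - l'.length)) := by
  classical
  rw [EE.mul_ap, rep_tP]
  cases hx : BPath.strip l' x with
  | none => left; simp
  | some y =>
    rw [Option.elim_some]
    split_ifs with h
    · rw [rep_sP, if_pos h]
      cases hy : BPath.app l y with
      | none => left; simp
      | some z =>
        right
        refine ⟨y, z, rfl, (BPath.app_iff l z y).1 hy, h, ?_⟩
        rw [Option.elim_some, mul_assoc, ← T_add]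
        congr 3
        ring
    · left; simp

open Classical in
theorem rep_diag (l : List G.E) (v : G.V) (x : BPath G) (r : K[T;T⁻¹]) :
    ((repFamily K G).sP l v * (repFamily K G).tP l v).ap (Finsupp.single x r) =
      if BPath.Cyl l v x then Finsupp.single x r else 0 := by
  rw [EE.mul_ap, rep_tP]
  unfold BPath.Cyl
  cases hx : BPath.strip l x with
  | none => simp
  | some y =>
    rw [Option.elim_some]
    by_cases h : y.vtx 0 = v
    · rw [if_pos h, rep_sP, if_pos h, (BPath.app_iff l x y).2 hx, Option.elim_some, mul_assoc,
        ← T_add, if_pos ⟨y, rfl, h⟩]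
      simp
    · rw [if_neg h, map_zero, if_neg]
      rintro ⟨z, hz, h2⟩
      cases hz
      exact h h2

end repP

end Pool.Agent.Helper665_GA
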