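import Pool.Agent.Helper665_GA.Center

/-!
# Ring isomorphic Leavitt path algebras are isomorphic as algebras (helper665)
-/

namespace Pool.Agent.Helper665_GA

open LaurentPolynomial

namespace LPA

variable {K : Type*} [Field K] {E F G : Graph}

/-- The form of the Leavitt path algebra over the prime field. -/
def L0 (K : Type*) [Field K] (G : Graph) : AddSubgroup (LPA K G) :=
  AddSubgroup.closure {a | ∃ c ∈ (⊥ : Subfield K), ∃ l l' v, a = c • (sp K G l v * tp K G l' v)}

theorem mono_mem_L0 (l l' : List G.E) (v : G.V) : sp K G l v * tp K G l' v ∈ L0 K G :=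
  AddSubgroup.subset_closure ⟨1, Subfield.one_mem _, l, l', v, (one_smul K _).symm⟩

theorem smul_mem_L0 {c : K} (hc : c ∈ (⊥ : Subfield K)) {a : LPA K G} (ha : a ∈ L0 K G) :
    c • a ∈ L0 K G := by
  induction ha using AddSubgroup.closure_induction with
  | mem a ha =>
    obtain ⟨d, hd, l, l', v, rfl⟩ := ha
    rw [smul_smul]
    exact AddSubgroup.subset_closure ⟨c * d, Subfield.mul_mem _ hc hd, l, l', v, rfl⟩
  | zero => rw [smul_zero]; exact AddSubgroup.zero_mem _
  | add a b _ _ ha hb => rw [smul_add]; exact AddSubgroup.add_mem _ ha hb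
  | neg a _ ha => rw [smul_neg]; exact AddSubgroup.neg_mem _ ha

theorem p_mul_mem_L0 (w : G.V) {a : LPA K G} (ha : a ∈ L0 K G) :
    (family K G).p w * a ∈ L0 K G := by
  induction ha using AddSubgroup.closure_induction with
  | mem a ha =>
    obtain ⟨d, hd, l, l', v, rfl⟩ := ha
    rw [mul_smul_comm, ← mul_assoc]
    rcases (family K G).p_mul_sP w l v with h | h
    · rw [h]; exact AddSubgroup.subset_closure ⟨d, hd, l, l', v, rfl⟩
    · rw [h, zero_mul, smul_zero]; exact AddSubgroup.zero_mem _
  | zero => rw [mul_zero]; exact AddSubgroup.zero_mem _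
  | add a b _ _ ha hb => rw [mul_add]; exact AddSubgroup.add_mem _ ha hb
  | neg a _ ha => rw [mul_neg]; exact AddSubgroup.neg_mem _ ha

theorem coeff_mem_bot {m : LPA K G} (hm : m ∈ L0 K G) (x x' : BPath G) (n : ℤ) :
    (((rho K G m).ap (Finsupp.single x 1)) x').coeff n ∈ (⊥ : Subfield K) := by
  classical
  induction hm using AddSubgroup.closure_induction with
  | mem a ha =>
    obtain ⟨d, hd, l, l', v, rfl⟩ := ha
    rw [map_smul, EE.smul_ap, rho_mono]
    have h1 : ∀ g : VV K G, ((d • g) x').coeff n = d * (g x').coeff n := fun g => rfl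
    rw [h1]
    apply Subfield.mul_mem _ hd
    rcases rep_mono K G l l' v x 1 with h2 | ⟨y, z, -, -, -, h2⟩
    · rw [h2]; exact Subfield.zero_mem _
    · rw [h2, Finsupp.single_apply]
      split_ifs with h3
      · rw [one_mul]
        have h4 : (T ((l.length : ℤ) - l'.length) : K[T;T⁻¹]).coeff
            = Finsupp.single ((l.length : ℤ) - l'.length) 1 := rfl
        rw [h4, Finsupp.single_apply]
        split_ifs
        · exact Subfield.one_mem _
        · exact Subfield.zero_mem _
      · exact Subfield.zero_mem _
  | zero => rw [map_zero]; exact Subfield.zero_mem _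
  | add a b _ _ ha hb =>
    rw [map_add, EE.add_ap, Finsupp.add_apply, AddMonoidAlgebra.coeff_add, Finsupp.add_apply]
    exact Subfield.add_mem _ ha hb
  | neg a _ ha =>
    rw [map_neg]
    exact Subfield.neg_mem _ ha

/-- Diagonal elements with coefficients `0` and `1` are defined over the prime field. -/
theorem mem_L0_of_diag {z : LPA K G} (hz : Diag z) (h01 : ∀ x, c0 z x = 0 ∨ c0 z x = 1) :
    z ∈ L0 K G := by
  classical
  obtain ⟨π, hπ⟩ := LinearMap.exists_leftInverse_of_injective
    (Algebra.linearMap (⊥ : Subfield K) K) (LinearMap.ker_eq_bot.2 fun x y h =>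
      (algebraMap (⊥ : Subfield K) K).injective h)
  have hπ1 : π 1 = 1 := by
    have := LinearMap.congr_fun hπ 1
    simpa using this
  have key : ∀ d ∈ DD K G, ∀ r : K, ∃ d' ∈ L0 K G, Diag d' ∧ ∀ x, c0 d' x = (π (r * c0 d x) : K) := by
    intro d hd
    induction hd using Submodule.span_induction with
    | mem a ha =>
      obtain ⟨l, v, rfl⟩ := ha
      intro r
      refine ⟨(π r : K) • (sp K G l v * tp K G l v), smul_mem_L0 (π r).2 (mono_mem_L0 l l v),
        (Diag.gen l v).smul _, fun x => ?_⟩
      rw [c0_smul, c0_gen]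
      split_ifs
      · rw [mul_one, mul_one]
      · rw [mul_zero, mul_zero, map_zero]; rfl
    | zero =>
      intro r
      refine ⟨0, AddSubgroup.zero_mem _, Diag.zero, fun x => ?_⟩
      rw [c0_zero, mul_zero, map_zero]; rfl
    | add a b _ _ ha hb =>
      intro r
      obtain ⟨a', h1, h2, h3⟩ := ha r
      obtain ⟨b', h1', h2', h3'⟩ := hb r
      refine ⟨a' + b', AddSubgroup.add_mem _ h1 h1', h2.add h2', fun x => ?_⟩
      rw [c0_add, h3, h3', c0_add, mul_add, map_add]; rfl
    | smul s a _ ha =>
      intro r
      obtain ⟨a', h1, h2, h3⟩ := ha (r * s)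
      refine ⟨a', h1, h2, fun x => ?_⟩
      rw [h3, c0_smul, mul_assoc]
  obtain ⟨d', h1, h2, h3⟩ := key z (mem_DD_of_diag hz) 1
  have : z = d' := by
    apply eq_of_diag hz h2
    intro x
    rw [h3, one_mul]
    rcases h01 x with h | h
    · rw [h, map_zero]; rfl
    · rw [h, hπ1]; rfl
  rw [this]; exact h1

theorem Diag.apply {a : LPA K G} (ha : Diag a) (g : VV K G) (x : BPath G) :
    ((rho K G a).ap g) x = C (c0 a x) * g x := by
  classical
  induction g using Finsupp.induction_linear with
  | zero => rw [map_zero]; simp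
  | add f g hf hg => rw [map_add, Finsupp.add_apply, hf, hg, Finsupp.add_apply, mul_add]
  | single y r =>
    rw [ha.ap]
    by_cases h : y = x
    · subst h
      rw [Finsupp.single_eq_same, Finsupp.single_eq_same]
    · rw [Finsupp.single_apply, if_neg h, Finsupp.single_apply, if_neg h, mul_zero]

/-- Every element is a combination, with coefficients in a basis over the prime field, of
elements defined over the prime field. -/
theorem exists_expansion {ι : Type*} (B : Module.Basis ι (⊥ : Subfield K) K) (a : LPA K G) :
    ∃ (m : ι → LPA K G) (S : Finset ι), (∀ i, m i ∈ L0 K G) ∧ (∀ i, i ∉ S → m i = 0) ∧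
      a = ∑ i ∈ S, B i • m i := by
  classical
  have hadd : ∀ a b : LPA K G,
      (∃ (m : ι → LPA K G) (S : Finset ι), (∀ i, m i ∈ L0 K G) ∧ (∀ i, i ∉ S → m i = 0) ∧
        a = ∑ i ∈ S, B i • m i) →
      (∃ (m : ι → LPA K G) (S : Finset ι), (∀ i, m i ∈ L0 K G) ∧ (∀ i, i ∉ S → m i = 0) ∧
        b = ∑ i ∈ S, B i • m i) →
      (∃ (m : ι → LPA K G) (S : Finset ι), (∀ i, m i ∈ L0 K G) ∧ (∀ i, i ∉ S → m i = 0) ∧
        a + b = ∑ i ∈ S, B i • m i) := by
    rintro a b ⟨m, S, h1, h2, h3⟩ ⟨m', S', h1', h2', h3'⟩
    refine ⟨fun i => m i + m' i, S ∪ S', fun i => AddSubgroup.add_mem _ (h1 i) (h1' i), ?_, ?_⟩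
    · intro i hi
      rw [Finset.mem_union, not_or] at hi
      show m i + m' i = 0
      rw [h2 i hi.1, h2' i hi.2, add_zero]
    · simp only [smul_add, Finset.sum_add_distrib]
      congr 1
      · rw [h3]
        apply Finset.sum_subset Finset.subset_union_left
        intro i _ hi
        rw [h2 i hi, smul_zero]
      · rw [h3']
        apply Finset.sum_subset Finset.subset_union_right
        intro i _ hi
        rw [h2' i hi, smul_zero]
  have key : ∀ (a : LPA K G) (r : K),
      (∃ (m : ι → LPA K G) (S : Finset ι), (∀ i, m i ∈ L0 K G) ∧ (∀ i, i ∉ S → m i = 0) ∧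
        r • a = ∑ i ∈ S, B i • m i) := by
    intro a
    induction a using mono_induction with
    | hm l l' v =>
      intro r
      refine ⟨fun i => (B.repr r i : K) • (sp K G l v * tp K G l' v), (B.repr r).support,
        fun i => smul_mem_L0 (B.repr r i).2 (mono_mem_L0 l l' v), ?_, ?_⟩
      · intro i hi
        rw [Finsupp.notMem_support_iff] at hi
        show (B.repr r i : K) • _ = 0
        rw [hi]
        show (0 : K) • _ = (0 : LPA K G)
        rw [zero_smul]
      · have h1 : r = ∑ i ∈ (B.repr r).support, B i * (B.repr r i : K) := by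
          conv_lhs => rw [← B.linearCombination_repr r, Finsupp.linearCombination_apply,
            Finsupp.sum]
          apply Finset.sum_congr rfl
          intro i _
          rw [mul_comm]; rfl
        conv_lhs => rw [h1, Finset.sum_smul]
        apply Finset.sum_congr rfl
        intro i _
        rw [mul_smul]
    | hz =>
      intro r
      exact ⟨0, ∅, fun i => AddSubgroup.zero_mem _, fun i _ => rfl, by simp⟩
    | ha a b ha hb =>
      intro r
      rw [smul_add]
      exact hadd _ _ (ha r) (hb r)
    | hs s a ha =>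
      intro r
      rw [smul_smul]
      exact ha (r * s)
  have := key a 1
  rwa [one_smul] at this

section iso

variable (φ : LPA K E ≃+* LPA K F)

/-- A ring isomorphism is linear over the prime field. -/
theorem map_smul_bot {c : K} (hc : c ∈ (⊥ : Subfield K)) (a : LPA K E) :
    φ (c • a) = c • φ a := by
  let k : Subfield K :=
    { carrier := {c | ∀ a, φ (c • a) = c • φ a}
      mul_mem' := fun {c d} hc hd a => by rw [mul_smul, hc, hd, mul_smul]
      one_mem' := fun a => by rw [one_smul, one_smul]
      add_mem' := fun {c d} hc hd a => by rw [add_smul, map_add, hc, hd, add_smul]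
      zero_mem' := fun a => by rw [zero_smul, zero_smul, map_zero]
      neg_mem' := fun {c} hc a => by rw [neg_smul, map_neg, hc, neg_smul]
      inv_mem' := fun c hc a => by
        by_cases h : c = 0
        · subst h
          rw [inv_zero, zero_smul, zero_smul, map_zero]
        · have h1 := hc (c⁻¹ • a)
          rw [smul_smul, mul_inv_cancel₀ h, one_smul] at h1
          rw [h1, smul_smul, inv_mul_cancel₀ h, one_smul] }
  have : (⊥ : Subfield K) ≤ k := bot_le
  exact this hc a

/-- The linear extension of a ring isomorphism. -/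
noncomputable def linExt : LPA K E →ₙₐ[K] LPA K F :=
  LPA.lift ((family K E).map φ)

theorem linExt_family : (family K E).map (linExt φ) = (family K E).map φ := LPA.lift_family _

theorem linExt_eq {a : LPA K E} (ha : a ∈ L0 K E) : linExt φ a = φ a := by
  induction ha using AddSubgroup.closure_induction with
  | mem a ha =>
    obtain ⟨d, hd, l, l', v, rfl⟩ := ha
    rw [map_smul, map_smul_bot φ hd, map_mul, map_mul φ, LeavittFamily.map_sP,
      LeavittFamily.map_tP, LeavittFamily.map_sP, LeavittFamily.map_tP, linExt_family]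
  | zero => rw [map_zero, map_zero]
  | add a b _ _ ha hb => rw [map_add, map_add, ha, hb]
  | neg a _ ha => rw [map_neg, map_neg, ha]

/-- The homomorphism from the field to the center of a corner. -/
noncomputable def sig (w : F.V) : K →ₙ+* LPA K F where
  toFun c := φ (c • φ.symm ((family K F).p w))
  map_mul' c d := by
    rw [← map_mul, smul_mul_smul_comm, ← map_mul, (family K F).p_mul_self]
  map_zero' := by rw [zero_smul, map_zero]
  map_add' c d := by rw [add_smul, map_add]

theorem sig_apply (w : F.V) (c : K) : sig φ w c = φ (c • φ.symm ((family K F).p w)) := rfl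

theorem sig_one (w : F.V) : sig φ w 1 = (family K F).p w := by
  rw [sig_apply, one_smul, RingEquiv.apply_symm_apply]

theorem smul_symm_mul (c : K) (q b : LPA K F) :
    φ (c • φ.symm q) * b = φ (c • φ.symm (q * b)) := by
  conv_lhs => rw [← φ.apply_symm_apply b]
  rw [← map_mul, smul_mul_assoc, ← map_mul]

theorem mul_smul_symm (c : K) (q b : LPA K F) :
    b * φ (c • φ.symm q) = φ (c • φ.symm (b * q)) := by
  conv_lhs => rw [← φ.apply_symm_apply b]
  rw [← map_mul, mul_smul_comm, ← map_mul]

theorem sig_cent (w : F.V) (c : K) : Cent w (sig φ w c) := by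
  have hpp := (family K F).p_mul_self w
  refine ⟨?_, ?_, fun r => ?_⟩
  · rw [sig_apply, mul_smul_symm, hpp]
  · rw [sig_apply, smul_symm_mul, hpp]
  · rw [sig_apply, mul_smul_symm, smul_symm_mul]
    congr 3
    rw [mul_assoc _ ((family K F).p w) ((family K F).p w), hpp, ← mul_assoc, ← mul_assoc, hpp]

theorem sig_diag (w : F.V) (c : K) : Diag (sig φ w c) :=
  diag_of_field (sig φ w) (sig_one φ w) (sig_cent φ w) c

theorem sum_diag (c : K) (S : Finset F.V) :
    Diag (φ (c • φ.symm (∑ w ∈ S, (family K F).p w))) := by
  classical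
  induction S using Finset.induction_on with
  | empty =>
    rw [Finset.sum_empty, map_zero, smul_zero, map_zero]
    exact Diag.zero
  | insert w S hw ih =>
    rw [Finset.sum_insert hw, map_add, smul_add, map_add]
    exact (sig_diag φ w c).add ih

/-- Scalar multiples of vertices are in the range. -/
theorem smul_p_mem_range (c : K) (v : E.V) : ∃ b, linExt φ b = φ (c • (family K E).p v) := by
  classical
  obtain ⟨a, ha⟩ : ∃ a, a = φ ((family K E).p v) := ⟨_, rfl⟩
  have haa : a * a = a := by rw [ha, ← map_mul, (family K E).p_mul_self]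
  obtain ⟨S1, hS1⟩ := exists_unit_left a
  obtain ⟨S2, hS2⟩ := exists_unit_right a
  set q := ∑ w ∈ S1 ∪ S2, (family K F).p w with hq
  have hqa : q * a = a := hS1 _ Finset.subset_union_left
  have haq : a * q = a := hS2 _ Finset.subset_union_right
  obtain ⟨z, hz⟩ : ∃ z, z = φ (c • φ.symm q) := ⟨_, rfl⟩
  have hzd : Diag z := by rw [hz]; exact sum_diag φ c _
  have hza : z * a = φ (c • (family K E).p v) := by
    rw [hz, smul_symm_mul, hqa, ha, RingEquiv.symm_apply_apply]
  have hcomm : ∀ r, q * r = r → r * q = r → r * z = z * r := by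
    intro r h1 h2
    rw [hz, smul_symm_mul, mul_smul_symm, h1, h2]
  have hfin := finite_range hzd
  set M : Finset K := hfin.toFinset.erase 0 with hM
  -- spectral idempotents
  have hY : ∀ μ ∈ M, ∃ Y : LPA K F, Diag Y ∧ (∀ x, c0 Y x = if c0 z x = μ then 1 else 0) ∧
      ∀ r, r * z = z * r → r * Y = Y * r := by
    intro μ hμ
    obtain ⟨Y, h1, h2, h3⟩ := exists_poly hzd (Lagrange.interpolate M id
      fun t => if t = μ then t⁻¹ else 0)
    refine ⟨Y, h1, fun x => ?_, h3⟩
    rw [h2]
    by_cases h0 : c0 z x = 0
    · have : (0 : K) ≠ μ := fun h => by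
        rw [← h, hM] at hμ; exact absurd hμ (Finset.notMem_erase _ _)
      rw [h0, zero_mul, if_neg this]
    · have hmem : c0 z x ∈ M := by
        rw [hM, Finset.mem_erase]
        exact ⟨h0, hfin.mem_toFinset.2 ⟨x, rfl⟩⟩
      have h4 := Lagrange.eval_interpolate_at_node (v := id) (s := M)
        (fun t => if t = μ then t⁻¹ else 0) (Set.injOn_id _) hmem
      rw [id] at h4
      rw [h4]
      split_ifs with h5
      · exact mul_inv_cancel₀ h0
      · exact mul_zero _
  choose! Y hY1 hY2 hY3 using hY
  have hzsum : z = ∑ μ ∈ M, μ • Y μ := by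
    have hsum : ∀ N : Finset K, N ⊆ M → Diag (∑ μ ∈ N, μ • Y μ) ∧
        ∀ x, c0 (∑ μ ∈ N, μ • Y μ) x = ∑ μ ∈ N, if c0 z x = μ then μ else 0 := by
      intro N
      induction N using Finset.induction_on with
      | empty => exact fun _ => ⟨Diag.zero, fun x => c0_zero x⟩
      | insert μ N hμ ih =>
        intro hN
        rw [Finset.insert_subset_iff] at hN
        obtain ⟨h1, h2⟩ := ih hN.2
        rw [Finset.sum_insert hμ]
        refine ⟨((hY1 μ hN.1).smul μ).add h1, fun x => ?_⟩
        rw [c0_add, c0_smul, hY2 μ hN.1, h2, Finset.sum_insert hμ]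
        congr 1
        split_ifs
        · exact mul_one _
        · exact mul_zero _
    obtain ⟨h1, h2⟩ := hsum M subset_rfl
    apply eq_of_diag hzd h1
    intro x
    rw [h2, Finset.sum_ite_eq]
    split_ifs with h3
    · rfl
    · by_contra h4
      apply h3
      rw [hM, Finset.mem_erase]
      exact ⟨fun h => h4 h, hfin.mem_toFinset.2 ⟨x, rfl⟩⟩
  have hYa : ∀ μ ∈ M, ∃ b, linExt φ b = Y μ * a := by
    intro μ hμ
    have hYY : Y μ * Y μ = Y μ := by
      obtain ⟨h1, h2⟩ := (hY1 μ hμ).mul (hY1 μ hμ)
      apply eq_of_diag h1 (hY1 μ hμ)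
      intro x
      rw [h2, hY2 μ hμ]
      split_ifs
      · exact mul_one _
      · exact mul_zero _
    have hYcomm : ∀ r, q * r = r → r * q = r → r * Y μ = Y μ * r := fun r h1 h2 =>
      hY3 μ hμ r (hcomm r h1 h2)
    have hcent : Cent v (φ.symm (Y μ * a)) := by
      have hpv : (family K E).p v = φ.symm a := by rw [ha, RingEquiv.symm_apply_apply]
      refine ⟨?_, ?_, fun r => ?_⟩
      · rw [hpv, ← map_mul, ← mul_assoc, hYcomm a hqa haq, mul_assoc, haa]
      · rw [hpv, ← map_mul, mul_assoc, haa]
      · rw [hpv]
        have h1 : φ.symm a * r * φ.symm a = φ.symm (a * φ r * a) := by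
          rw [map_mul, map_mul, RingEquiv.symm_apply_apply]
        rw [h1, ← map_mul, ← map_mul]
        congr 1
        have h2 : q * (a * φ r * a) = a * φ r * a := by
          rw [← mul_assoc, ← mul_assoc, hqa]
        have h3 : a * φ r * a * q = a * φ r * a := by
          rw [mul_assoc _ a q, haq]
        rw [← mul_assoc _ (Y μ) a, hYcomm _ h2 h3, mul_assoc (Y μ), mul_assoc (Y μ),
          mul_assoc _ a a, haa, ← mul_assoc a (a * φ r) a, ← mul_assoc a a (φ r), haa]
    have hidem : φ.symm (Y μ * a) * φ.symm (Y μ * a) = φ.symm (Y μ * a) := by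
      rw [← map_mul]
      congr 1
      rw [mul_assoc, ← mul_assoc a (Y μ) a, hYcomm a hqa haq, mul_assoc (Y μ) a a, haa,
        ← mul_assoc, hYY]
    obtain ⟨h1, h2⟩ := diag_of_idem hcent hidem
    refine ⟨φ.symm (Y μ * a), ?_⟩
    rw [linExt_eq φ (mem_L0_of_diag h1 h2), RingEquiv.apply_symm_apply]
  choose! b hb using hYa
  refine ⟨∑ μ ∈ M, μ • b μ, ?_⟩
  rw [← hza, hzsum, Finset.sum_mul, map_sum]
  apply Finset.sum_congr rfl
  intro μ hμ
  rw [map_smul, hb μ hμ, smul_mul_assoc]

theorem linExt_surjective : Function.Surjective (linExt φ) := by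
  have key : ∀ a, ∃ b, linExt φ b = φ a := by
    intro a
    induction a using mono_induction with
    | hm l l' v => exact ⟨_, linExt_eq φ (mono_mem_L0 l l' v)⟩
    | hz => exact ⟨0, by rw [map_zero, map_zero]⟩
    | ha a b ha hb =>
      obtain ⟨a', ha'⟩ := ha
      obtain ⟨b', hb'⟩ := hb
      exact ⟨a' + b', by rw [map_add, map_add, ha', hb']⟩
    | hs r a ha =>
      obtain ⟨a', ha'⟩ := ha
      obtain ⟨S, hS⟩ := exists_unit_left a
      have h1 : r • a = ∑ v ∈ S, (r • (family K E).p v) * a := by
        rw [← Finset.sum_mul, ← Finset.smul_sum, smul_mul_assoc, hS S subset_rfl]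
      have h2 := fun v => smul_p_mem_range φ r v
      choose b hb using h2
      refine ⟨∑ v ∈ S, b v * a', ?_⟩
      rw [h1, map_sum, map_sum]
      apply Finset.sum_congr rfl
      intro v _
      rw [map_mul, map_mul, hb, ha']
  intro y
  obtain ⟨b, hb⟩ := key (φ.symm y)
  exact ⟨b, by rw [hb, RingEquiv.apply_symm_apply]⟩

theorem linExt_injective : Function.Injective (linExt φ) := by
  classical
  have key : ∀ a, linExt φ a = 0 → a = 0 := by
    intro a ha
    obtain ⟨S, hS⟩ := exists_unit_left a
    rw [← hS S subset_rfl, Finset.sum_mul]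
    apply Finset.sum_eq_zero
    intro v _
    obtain ⟨m, T, hm0, hmT, hm⟩ := exists_expansion
      (Module.Basis.ofVectorSpace (⊥ : Subfield K) K) ((family K E).p v * a)
    set B := Module.Basis.ofVectorSpace (⊥ : Subfield K) K with hB
    set p := (family K E).p v with hp
    have hpp : p * p = p := (family K E).p_mul_self v
    -- replace `m i` by `p * m i`
    have hm' : p * a = ∑ i ∈ T, B i • (p * m i) := by
      have : p * (p * a) = p * ∑ i ∈ T, B i • m i := by rw [← hm]
      rw [← mul_assoc, hpp, Finset.mul_sum] at this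
      rw [this]
      exact Finset.sum_congr rfl fun i _ => mul_smul_comm _ _ _
    have h1 : ∑ i ∈ T, B i • φ (p * m i) = 0 := by
      have h2 : linExt φ (p * a) = 0 := by rw [map_mul, ha, mul_zero]
      rw [hm', map_sum] at h2
      rw [← h2]
      apply Finset.sum_congr rfl
      intro i _
      rw [map_smul, linExt_eq φ (p_mul_mem_L0 v (hm0 i))]
    have h2 : ∑ i ∈ T, sig φ.symm v (B i) * (p * m i) = 0 := by
      have h3 := congrArg φ.symm h1
      rw [map_sum, map_zero] at h3
      rw [← h3]
      apply Finset.sum_congr rfl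
      intro i _
      rw [sig_apply, smul_symm_mul]
      show φ.symm (B i • φ (p * (p * m i))) = _
      rw [← mul_assoc, hpp]
    have hd : ∀ c, Diag (sig φ.symm v c) := sig_diag φ.symm v
    have h4 : ∀ i ∈ T, p * m i = 0 := by
      intro i hi
      apply rho_injective
      rw [map_zero]
      apply ee_ext
      intro x
      rw [EE.zero_ap]
      ext1 x'
      by_cases hx' : x'.vtx 0 = v
      · -- the ring homomorphism given by the coefficient at `x'`
        let τ : K →+* K :=
          { toFun := fun c => c0 (sig φ.symm v c) x'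
            map_one' := by
              show c0 (sig φ.symm v 1) x' = 1
              rw [sig_one]
              have h5 : (family K E).p v = sp K E [] v * tp K E [] v :=
                ((family K E).p_mul_self v).symm
              rw [h5, c0_gen, if_pos ⟨x', by rw [BPath.strip], hx'⟩]
            map_mul' := fun c d => by rw [map_mul, ((hd c).mul (hd d)).2]
            map_zero' := by rw [map_zero, c0_zero]
            map_add' := fun c d => by rw [map_add, c0_add] }
        have hτ : ∀ c ∈ (⊥ : Subfield K), τ c = c := by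
          intro c hc
          show c0 (sig φ.symm v c) x' = c
          rw [sig_apply]
          show c0 (φ.symm (c • φ ((family K E).p v))) x' = c
          rw [map_smul_bot φ.symm hc, RingEquiv.symm_apply_apply, c0_smul]
          have h5 : (family K E).p v = sp K E [] v * tp K E [] v :=
            ((family K E).p_mul_self v).symm
          rw [h5, c0_gen, if_pos ⟨x', by rw [BPath.strip], hx'⟩, mul_one]
        have h5 : ∀ n : ℤ, ∑ j ∈ T, τ (B j) *
            (((rho K E (p * m j)).ap (Finsupp.single x 1)) x').coeff n = 0 := by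
          intro n
          have h6 := congrArg (fun b => ((((rho K E b).ap (Finsupp.single x 1)) x').coeff n : K)) h2
          simp only [map_sum, map_mul, EE.sum_ap, EE.mul_ap] at h6
          rw [Finsupp.finsetSum_apply, AddMonoidAlgebra.coeff_sum, Finsupp.finsetSum_apply] at h6
          rw [map_zero, EE.zero_ap] at h6
          rw [← show _ = (0 : K) from h6]
          apply Finset.sum_congr rfl
          intro j _
          rw [(hd (B j)).apply]
          show _ = (C (c0 (sig φ.symm v (B j)) x') * _ : K[T;T⁻¹]).coeff n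
          rw [← smul_eq_C_mul, map_mul, EE.mul_ap]
          rfl
        have h6 : ∀ n : ℤ, (((rho K E (p * m i)).ap (Finsupp.single x 1)) x').coeff n = 0 := by
          intro n
          have hmem : ∀ j, (((rho K E (p * m j)).ap (Finsupp.single x 1)) x').coeff n
              ∈ (⊥ : Subfield K) := fun j => coeff_mem_bot (p_mul_mem_L0 v (hm0 j)) x x' n
          have h7 : τ (∑ j ∈ T, B j *
              (((rho K E (p * m j)).ap (Finsupp.single x 1)) x').coeff n) = 0 := by
            rw [map_sum, ← h5 n]
            apply Finset.sum_congr rfl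
            intro j _
            rw [map_mul, hτ _ (hmem j)]
          rw [map_eq_zero] at h7
          have h8 := linearIndependent_iff'.1 B.linearIndependent T
            (fun j => (⟨_, hmem j⟩ : (⊥ : Subfield K))) (by
              rw [← h7]
              apply Finset.sum_congr rfl
              intro j _
              rw [mul_comm]; rfl) i hi
          exact congrArg Subtype.val h8
        ext n
        rw [h6 n]; rfl
      · have h5 : p * (p * m i) = p * m i := by rw [← mul_assoc, hpp]
        rw [apply_eq_zero_of_ne h5 hx']; rfl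
    rw [hm']
    apply Finset.sum_eq_zero
    intro i hi
    rw [h4 i hi, smul_zero]
  intro a b hab
  rw [← sub_eq_zero]
  exact key _ (by rw [map_sub, hab, sub_self])

end iso

end LPA

end Pool.Agent.Helper665_GA
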