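import Mathlib

/-!
# Square roots of algebraic positive elements in dense subalgebras (helper665)
-/

namespace Pool.Agent.Helper665_GA

open Polynomial

/-- A positive invertible element `a` of a C*-algebra which is algebraic over `ℂ` has a positive
square root and an inverse square root which are polynomials in `a`. -/
theorem exists_sqrt_poly {D : Type*} [CStarAlgebra D] [PartialOrder D] [StarOrderedRing D] {a : D}
    (h0 : 0 ≤ a) (hu : IsUnit a) (q : ℂ[X]) (hq0 : q ≠ 0) (hq : aeval a q = 0) :
    ∃ p p' : ℂ[X], aeval a p * aeval a p = a ∧ star (aeval a p) = aeval a p ∧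
      aeval a p * aeval a p' = 1 := by
  classical
  have hsa : IsSelfAdjoint a := IsSelfAdjoint.of_nonneg h0
  haveI hn : IsStarNormal a := hsa.isStarNormal
  have hfin : (spectrum ℂ a).Finite := by
    apply (q.roots.toFinset.finite_toSet).subset
    intro z hz
    have h1 : q.eval z ∈ spectrum ℂ (aeval a q) :=
      spectrum.subset_polynomial_aeval a q ⟨z, hz, rfl⟩
    rw [hq] at h1
    have h2 : q.eval z = 0 := by
      by_contra hc
      rw [spectrum.mem_iff, sub_zero] at h1
      exact h1 ((IsUnit.mk0 _ hc).map (algebraMap ℂ D))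
    rw [Finset.mem_coe, Multiset.mem_toFinset, mem_roots hq0]
    exact h2
  set S := hfin.toFinset with hS
  have hre : ∀ z ∈ spectrum ℂ a, (z.re : ℂ) = z ∧ 0 < z.re := by
    intro z hz
    have h1 : z = z.re := by
      apply Complex.ext
      · simp
      · have := hsa.mem_spectrum_eq_re hz
        rw [this]; simp
    refine ⟨h1.symm, ?_⟩
    have h2 : (0 : ℝ) ≤ z.re := by
      have h3 : z.re ∈ spectrum ℝ a := by
        rw [← spectrum.algebraMap_mem_iff ℂ]
        show ((z.re : ℝ) : ℂ) ∈ spectrum ℂ a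
        rw [← h1]; exact hz
      exact spectrum_nonneg_of_nonneg h0 h3
    rcases h2.lt_or_eq with h3 | h3
    · exact h3
    · exfalso
      rw [h1, ← h3, Complex.ofReal_zero] at hz
      exact (spectrum.zero_notMem_iff ℂ).2 hu hz
  set p := Lagrange.interpolate S id (fun z => ((Real.sqrt z.re : ℝ) : ℂ)) with hp
  set p' := Lagrange.interpolate S id (fun z => (((Real.sqrt z.re)⁻¹ : ℝ) : ℂ)) with hp'
  have hpe : ∀ z ∈ spectrum ℂ a, p.eval z = ((Real.sqrt z.re : ℝ) : ℂ) := by
    intro z hz
    have := Lagrange.eval_interpolate_at_node (v := id) (s := S)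
      (fun z => ((Real.sqrt z.re : ℝ) : ℂ)) (Set.injOn_id _) (hfin.mem_toFinset.2 hz)
    rwa [id] at this
  have hpe' : ∀ z ∈ spectrum ℂ a, p'.eval z = (((Real.sqrt z.re)⁻¹ : ℝ) : ℂ) := by
    intro z hz
    have := Lagrange.eval_interpolate_at_node (v := id) (s := S)
      (fun z => (((Real.sqrt z.re)⁻¹ : ℝ) : ℂ)) (Set.injOn_id _) (hfin.mem_toFinset.2 hz)
    rwa [id] at this
  refine ⟨p, p', ?_, ?_, ?_⟩
  · have h1 : aeval a p * aeval a p = aeval a (p * p) := (map_mul _ _ _).symm
    rw [h1, ← cfc_polynomial (p * p) a]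
    conv_rhs => rw [← cfc_id ℂ a]
    apply cfc_congr
    intro z hz
    dsimp only
    rw [eval_mul, hpe z hz, ← Complex.ofReal_mul, Real.mul_self_sqrt (hre z hz).2.le, (hre z hz).1]
    rfl
  · rw [← cfc_polynomial p a, ← cfc_star]
    apply cfc_congr
    intro z hz
    dsimp only
    rw [hpe z hz]
    exact Complex.conj_ofReal _
  · rw [← map_mul, ← cfc_polynomial (p * p') a]
    conv_rhs => rw [← cfc_one ℂ a]
    apply cfc_congr
    intro z hz
    dsimp only
    rw [eval_mul, hpe z hz, hpe' z hz, ← Complex.ofReal_mul,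
      mul_inv_cancel₀ (Real.sqrt_ne_zero'.2 (hre z hz).2), Complex.ofReal_one]
    rfl

end Pool.Agent.Helper665_GA
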