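import Pool.Agent.Helper665_GA.StdData

/-!
# Stages of the intertwining by standard matrix units (helper665)
-/

namespace Pool.Agent.Helper665_GA

set_option linter.unusedSectionVars false

variable {K : Type*} [Field K] [StarRing K]
  {A : Type*} [NonUnitalRing A] [StarRing A] [Module K A]
  [IsScalarTower K A A] [SMulCommClass K A A] [StarModule K A]
  {B : Type*} [NonUnitalRing B] [StarRing B] [Module K B]
  [IsScalarTower K B B] [SMulCommClass K B B] [StarModule K B]

namespace MU

variable (P : MU (A × B))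

variable (K) in
theorem fst_inj (h : ∀ i, (P.m i i).1 ≠ 0) {x : A × B} (hx : x ∈ P.alg K) (h0 : x.1 = 0) :
    x = 0 := by
  obtain ⟨C, hC, rfl⟩ := hx
  unfold Φ
  apply Finset.sum_eq_zero
  intro k _
  apply Finset.sum_eq_zero
  intro l _
  by_cases hkl : P.blk k = P.blk l
  · have h1 := congrArg Prod.fst (P.coeff (C := C) k l)
    rw [Prod.fst_mul, Prod.fst_mul, h0, mul_zero, zero_mul, Prod.smul_fst] at h1
    have h2 : (P.m k l).1 ≠ 0 := by
      intro h3
      apply h k
      rw [← P.mul_eq k l k hkl hkl.symm, Prod.fst_mul, h3, zero_mul]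
    rcases smul_eq_zero.1 h1.symm with h3 | h3
    · rw [h3, zero_smul]
    · exact absurd h3 h2
  · rw [hC k l hkl, zero_smul]

variable (K) in
theorem fst_unique (h : ∀ i, (P.m i i).1 ≠ 0) {a : A} {b b' : B} (h1 : (a, b) ∈ P.alg K)
    (h2 : (a, b') ∈ P.alg K) : b = b' := by
  have h3 := P.fst_inj K h (sub_mem h1 h2) (by show a - a = 0; exact sub_self a)
  have h4 : b - b' = 0 := congrArg Prod.snd h3
  exact sub_eq_zero.1 h4

/-- Standard first components. -/
def StdFst (a : A) : Prop := ∃ (D : Finset P.ι) (e : P.ι → P.ι), Set.InjOn e D ∧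
  (∀ i ∈ D, P.blk (e i) = P.blk i) ∧ a = ∑ i ∈ D, (P.m i (e i)).1

variable (K) in
theorem isStd_of_fst (h : ∀ i, (P.m i i).1 ≠ 0) {a : A} {b : B} (ha : P.StdFst a)
    (hab : (a, b) ∈ P.alg K) : P.IsStd (a, b) := by
  obtain ⟨D, e, he, hb, h1⟩ := ha
  have h2 : (∑ i ∈ D, P.m i (e i)).1 = a := by rw [Prod.fst_sum, h1]
  have h3 : P.IsStd (∑ i ∈ D, P.m i (e i)) := ⟨D, e, he, hb, rfl⟩
  have h4 : (a, b) = ∑ i ∈ D, P.m i (e i) := by
    have h5 := P.fst_inj K h (sub_mem hab (P.isStd_mem (K := K) h3)) (by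
      rw [Prod.fst_sub, h2, sub_self])
    exact sub_eq_zero.1 h5
  rw [h4]
  exact h3

theorem snd_mem_of_isStd (D : StdData K B) (h : ∀ i j, (P.m i j).2 ∈ D.S) {x : A × B}
    (hx : P.IsStd x) : x.2 ∈ D.S := by
  obtain ⟨E, e, he, hb, rfl⟩ := hx
  rw [Prod.snd_sum]
  apply D.sum_mem
  · intro i _; exact h _ _
  · intro i _ j _ hij
    have h1 : star (P.m i (e i)) * P.m j (e j) = 0 := by
      rw [P.star_m, P.mul_ne _ _ _ _ hij]
    exact congrArg Prod.snd h1
  · intro i hi j hj hij
    have h1 : P.m i (e i) * star (P.m j (e j)) = 0 := by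
      rw [P.star_m, P.mul_ne]
      intro h2
      exact hij (he hi hj h2)
    exact congrArg Prod.snd h1

theorem IEq_of_isStd (φ : A →ₙₐ[K] B) (h : ∀ i, IEq (φ (P.m i i).1) (P.m i i).2) {x : A × B}
    (hx : P.IsStd x) (hxx : x * x = x) : IEq (φ x.1) x.2 := by
  obtain ⟨D, rfl⟩ := P.isStd_idem hx hxx
  unfold diag
  rw [Prod.fst_sum, Prod.snd_sum, map_sum]
  have hi : ∀ i, P.m i i * P.m i i = P.m i i := fun i => P.mul_eq i i i rfl rfl
  apply IEq.sum
  · intro i _
    rw [← map_mul, ← Prod.fst_mul, hi]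
  · intro i _
    rw [← Prod.snd_mul, hi]
  · intro i _ j _ hij
    rw [← map_mul, ← Prod.fst_mul, P.mul_ne _ _ _ _ hij, Prod.fst_zero, map_zero]
  · intro i _ j _ hij
    rw [← Prod.snd_mul, P.mul_ne _ _ _ _ hij, Prod.snd_zero]
  · intro i _
    exact h i

end MU

variable (DA : StdData K A) (DB : StdData K B) (φ : A →ₙₐ[K] B)

/-- The stages of the intertwining. -/
structure Stg where
  /-- the system of pairs of matrix units -/
  P : MU (A × B)
  sa : ∀ i j, (P.m i j).1 ∈ DA.S
  sb : ∀ i j, (P.m i j).2 ∈ DB.S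
  eqv : ∀ i, IEq (φ (P.m i i).1) (P.m i i).2

variable {DA DB φ}

namespace Stg

variable (s : Stg DA DB φ)

theorem fst_ne (i : s.P.ι) : (s.P.m i i).1 ≠ 0 := by
  intro h
  apply s.P.ne_zero i
  have h1 : (s.P.m i i).2 * (s.P.m i i).2 = (s.P.m i i).2 := by
    rw [← Prod.snd_mul, s.P.mul_eq i i i rfl rfl]
  have h2 := (s.eqv i).eq_zero (by rw [h, map_zero]) h1
  exact Prod.ext h h2

theorem snd_ne (hφ : Function.Injective φ) (i : s.P.ι) : (s.P.m i i).2 ≠ 0 := by
  intro h
  apply s.P.ne_zero i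
  have h1 : φ (s.P.m i i).1 * φ (s.P.m i i).1 = φ (s.P.m i i).1 := by
    rw [← map_mul, ← Prod.fst_mul, s.P.mul_eq i i i rfl rfl]
  have h2 := (s.eqv i).symm.eq_zero h h1
  have h3 : (s.P.m i i).1 = 0 := hφ (by rw [h2, map_zero])
  exact Prod.ext h3 h

/-- Conjugation of the second components. -/
def conj (U : B) (hU : U ∈ DB.S) (h : star U * U = (s.P.diag Finset.univ).2) : Stg DA DB φ :=
  have h1 : ∀ i j, (s.P.diag Finset.univ).2 * (s.P.m i j).2 = (s.P.m i j).2 := by
    intro i j
    rw [← Prod.snd_mul]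
    congr 1
    unfold MU.diag
    rw [Finset.sum_mul, Finset.sum_eq_single_of_mem i (Finset.mem_univ i)]
    · by_cases hij : s.P.blk i = s.P.blk j
      · exact s.P.mul_eq _ _ _ rfl hij
      · rw [s.P.off i j hij, mul_zero]
    · intro k _ hk
      exact s.P.mul_ne _ _ _ _ hk
  have h2 : ∀ i j, U * (s.P.m i i).2 * star U = 0 → (s.P.m i j).2 = 0 := by
    intro i j h3
    have h4 : (s.P.m i i).2 = (s.P.diag Finset.univ).2 * (s.P.m i i).2 *
        (s.P.diag Finset.univ).2 := by
      have h5 : (s.P.m i i).2 * (s.P.diag Finset.univ).2 = (s.P.m i i).2 := by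
        rw [← Prod.snd_mul]
        congr 1
        unfold MU.diag
        rw [Finset.mul_sum, Finset.sum_eq_single_of_mem i (Finset.mem_univ i)]
        · exact s.P.mul_eq _ _ _ rfl rfl
        · intro k _ hk
          exact s.P.mul_ne _ _ _ _ hk.symm
      rw [h1, h5]
    have h5 : (s.P.m i i).2 = 0 := by
      rw [h4, ← h]
      calc star U * U * (s.P.m i i).2 * (star U * U)
          = star U * (U * (s.P.m i i).2 * star U) * U := by noncomm_ring
        _ = 0 := by rw [h3, mul_zero, zero_mul]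
    by_cases hij : s.P.blk i = s.P.blk j
    · rw [← s.P.mul_eq i i j rfl hij, Prod.snd_mul, h5, zero_mul]
    · rw [s.P.off i j hij]; rfl
  { P :=
    { ι := s.P.ι
      W := s.P.W
      blk := s.P.blk
      m := fun i j => ((s.P.m i j).1, U * (s.P.m i j).2 * star U)
      off := fun i j h3 => by rw [s.P.off i j h3]; simp
      mul_ne := fun i j k l h3 => by
        have h4 := s.P.mul_ne i j k l h3
        show ((s.P.m i j).1 * (s.P.m k l).1, _ * _) = _
        rw [← Prod.fst_mul, h4]
        have h5 : U * (s.P.m i j).2 * star U * (U * (s.P.m k l).2 * star U) = 0 := by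
          calc _ = U * ((s.P.m i j).2 * ((star U * U) * (s.P.m k l).2)) * star U := by
                noncomm_ring
            _ = 0 := by rw [h, h1, ← Prod.snd_mul, h4, Prod.snd_zero, mul_zero, zero_mul]
        rw [h5]; rfl
      mul_eq := fun i j k h3 h4 => by
        have h5 := s.P.mul_eq i j k h3 h4
        show ((s.P.m i j).1 * (s.P.m j k).1, _ * _) = _
        rw [← Prod.fst_mul, h5]
        have h6 : U * (s.P.m i j).2 * star U * (U * (s.P.m j k).2 * star U)
            = U * (s.P.m i k).2 * star U := by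
          calc _ = U * ((s.P.m i j).2 * ((star U * U) * (s.P.m j k).2)) * star U := by
                noncomm_ring
            _ = _ := by rw [h, h1, ← Prod.snd_mul, h5]
        rw [h6]
      star_m := fun i j => by
        have h3 := s.P.star_m i j
        show (star (s.P.m i j).1, star (U * (s.P.m i j).2 * star U)) = _
        rw [star_mul, star_mul, star_star, ← Prod.fst_star, ← Prod.snd_star, h3, mul_assoc]
      ne_zero := fun i h3 => s.fst_ne i (congrArg Prod.fst h3) }
    sa := s.sa
    sb := fun i j => DB.mul_mem (DB.mul_mem hU (s.sb i j)) (DB.star_mem hU)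
    eqv := fun i => by
      have h3 : (s.P.m i i).2 * (s.P.m i i).2 = (s.P.m i i).2 := by
        rw [← Prod.snd_mul, s.P.mul_eq i i i rfl rfl]
      have h4 : φ (s.P.m i i).1 * φ (s.P.m i i).1 = φ (s.P.m i i).1 := by
        rw [← map_mul, ← Prod.fst_mul, s.P.mul_eq i i i rfl rfl]
      have h5 : IEq (s.P.m i i).2 (U * (s.P.m i i).2 * star U) := by
        refine ⟨(s.P.m i i).2 * star U, U * (s.P.m i i).2, ?_, ?_⟩
        · calc (s.P.m i i).2 * star U * (U * (s.P.m i i).2)
              = (s.P.m i i).2 * ((star U * U) * (s.P.m i i).2) := by noncomm_ring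
            _ = _ := by rw [h, h1, h3]
        · calc U * (s.P.m i i).2 * ((s.P.m i i).2 * star U)
              = U * ((s.P.m i i).2 * (s.P.m i i).2) * star U := by noncomm_ring
            _ = _ := by rw [h3]
      have h6 : U * (s.P.m i i).2 * star U * (U * (s.P.m i i).2 * star U)
          = U * (s.P.m i i).2 * star U := by
        calc _ = U * ((s.P.m i i).2 * ((star U * U) * (s.P.m i i).2)) * star U := by
              noncomm_ring
          _ = _ := by rw [h, h1, h3]
      exact (s.eqv i).trans h4 h6 h5 }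

theorem conj_m (U : B) (hU : U ∈ DB.S) (h : star U * U = (s.P.diag Finset.univ).2)
    (i j : s.P.ι) : ((s.conj U hU h).P.m i j) = ((s.P.m i j).1, U * (s.P.m i j).2 * star U) := rfl

theorem conj_mem (U : B) (hU : U ∈ DB.S) (h : star U * U = (s.P.diag Finset.univ).2) {a : A}
    {b : B} (hab : (a, b) ∈ s.P.alg K) : (a, U * b * star U) ∈ (s.conj U hU h).P.alg K := by
  obtain ⟨C, hC, h1⟩ := hab
  refine ⟨C, hC, ?_⟩
  have h2 : (s.conj U hU h).P.Φ C = ((s.P.Φ C).1, U * (s.P.Φ C).2 * star U) := by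
    unfold MU.Φ
    rw [Prod.fst_sum, Prod.snd_sum, Finset.mul_sum, Finset.sum_mul]
    apply Prod.ext
    · rw [Prod.fst_sum]
      apply Finset.sum_congr rfl
      intro i _
      rw [Prod.fst_sum, Prod.fst_sum]
      rfl
    · rw [Prod.snd_sum]
      apply Finset.sum_congr rfl
      intro i _
      rw [Prod.snd_sum, Prod.snd_sum, Finset.mul_sum, Finset.sum_mul]
      apply Finset.sum_congr rfl
      intro j _
      show C i j • (U * (s.P.m i j).2 * star U) = U * (C i j • (s.P.m i j).2) * star U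
      rw [mul_smul_comm, smul_mul_assoc]
  rw [h2, h1]

end Stg

end Pool.Agent.Helper665_GA
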