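import Pool.Agent.Helper665_GA.Homotopy
import Pool.Agent.Helper665_GA.RingIso

/-!
# Transfer of results to the Leavitt path algebra given by its universal property (helper665)
-/

namespace Pool.Agent.Helper665_GA

instance (K : Type) [Field K] (G : Graph) : IsScalarTower K (Leavitt K G) (Leavitt K G) :=
  (theLeavittAlgebra K G).tower

instance (K : Type) [Field K] (G : Graph) : SMulCommClass K (Leavitt K G) (Leavitt K G) :=
  (theLeavittAlgebra K G).comm

namespace Leavitt

variable (K : Type) [Field K] (G : Graph)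

theorem universal (B : Type) [NonUnitalRing B] [Module K B] [IsScalarTower K B B]
    [SMulCommClass K B B] (Y : LeavittFamily G B) : ∃! π : Leavitt K G →ₙₐ[K] B,
      (∀ v, π ((family K G).p v) = Y.p v) ∧ (∀ e, π ((family K G).s e) = Y.s e) ∧
        ∀ e, π ((family K G).t e) = Y.t e :=
  (theLeavittAlgebra K G).universal B Y

/-- The isomorphism with the presented algebra. -/
theorem exists_equiv : ∃ (f : LPA K G →ₙₐ[K] Leavitt K G) (g : Leavitt K G →ₙₐ[K] LPA K G),
    (∀ a, g (f a) = a) ∧ (∀ a, f (g a) = a) ∧ (LPA.family K G).map f = family K G := by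
  have hu := universal K G
  let f : LPA K G →ₙₐ[K] Leavitt K G := LPA.lift (family K G)
  have hf : (LPA.family K G).map f = family K G := LPA.lift_family _
  obtain ⟨g, hg, -⟩ := hu (LPA K G) (LPA.family K G)
  have hg' : (family K G).map g = LPA.family K G :=
    LeavittFamily.ext (funext hg.1) (funext hg.2.1) (funext hg.2.2)
  refine ⟨f, g, fun a => ?_, fun a => ?_, hf⟩
  · have h : g.comp f = NonUnitalAlgHom.id K (LPA K G) := by
      apply LPA.hom_ext
      have h1 : (LPA.family K G).map (g.comp f) = ((LPA.family K G).map f).map g := rfl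
      rw [h1, hf, hg']; rfl
    exact DFunLike.congr_fun h a
  · obtain ⟨π, -, hπ⟩ := hu (Leavitt K G) (family K G)
    have h1 : (family K G).map (f.comp g) = family K G := by
      have h1 : (family K G).map (f.comp g) = ((family K G).map g).map f := rfl
      rw [h1, hg', hf]
    have h2 := hπ (f.comp g) ⟨fun v => congrFun (congrArg LeavittFamily.p h1) v,
      fun e => congrFun (congrArg LeavittFamily.s h1) e,
      fun e => congrFun (congrArg LeavittFamily.t h1) e⟩
    have h3 := hπ (NonUnitalAlgHom.id K (Leavitt K G)) ⟨fun v => rfl, fun e => rfl, fun e => rfl⟩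
    exact DFunLike.congr_fun (h2.trans h3.symm) a

end Leavitt

/-- An additive and multiplicative bijection with inverse from two homomorphisms. -/
def ringEquivOfHoms {K A B : Type*} [Field K] [NonUnitalRing A] [NonUnitalRing B] [Module K A]
    [Module K B] (f : A →ₙₐ[K] B) (g : B →ₙₐ[K] A) (h1 : ∀ a, g (f a) = a)
    (h2 : ∀ b, f (g b) = b) : A ≃+* B where
  toFun := f
  invFun := g
  left_inv := h1
  right_inv := h2
  map_mul' := map_mul f
  map_add' := map_add f

/-- A bijective algebra homomorphism has an inverse. -/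
theorem exists_inverse {K A B : Type*} [Field K] [NonUnitalRing A] [NonUnitalRing B] [Module K A]
    [Module K B] (f : A →ₙₐ[K] B) (hf : Function.Bijective f) :
    ∃ g : B →ₙₐ[K] A, (∀ a, g (f a) = a) ∧ ∀ b, f (g b) = b := by
  let e := Equiv.ofBijective f hf
  have he : ∀ x, f (e.symm x) = x := fun x => e.apply_symm_apply x
  let g : B →ₙₐ[K] A :=
    { toFun := e.symm
      map_smul' := fun r x => by
        apply hf.1
        show f (e.symm (r • x)) = f (r • e.symm x)
        rw [he, map_smul f r (e.symm x), he]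
      map_zero' := by
        apply hf.1
        rw [he, map_zero]
      map_add' := fun x y => by
        apply hf.1
        show f (e.symm (x + y)) = f (e.symm x + e.symm y)
        rw [he, map_add f (e.symm x) (e.symm y), he, he]
      map_mul' := fun x y => by
        apply hf.1
        show f (e.symm (x * y)) = f (e.symm x * e.symm y)
        rw [he, map_mul f (e.symm x) (e.symm y), he, he] }
  exact ⟨g, fun a => e.symm_apply_apply a, he⟩

/-- A ring isomorphism of Leavitt path algebras agrees on the generators with an algebra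
isomorphism. -/
theorem exists_linear_iso {K : Type} [Field K] {E F : Graph} (φ : Leavitt K E ≃+* Leavitt K F) :
    ∃ (f : Leavitt K E →ₙₐ[K] Leavitt K F) (g : Leavitt K F →ₙₐ[K] Leavitt K E),
      (∀ a, g (f a) = a) ∧ (∀ a, f (g a) = a) ∧
      (Leavitt.family K E).map f = (Leavitt.family K E).map φ := by
  obtain ⟨f1, g1, h1, h2, h0⟩ := Leavitt.exists_equiv K E
  obtain ⟨f2, g2, h3, h4, -⟩ := Leavitt.exists_equiv K F
  let Φ : LPA K E ≃+* LPA K F :=
    ((ringEquivOfHoms f1 g1 h1 h2).trans φ).trans (ringEquivOfHoms f2 g2 h3 h4).symm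
  have hΦ : ∀ a, f2 (Φ a) = φ (f1 a) := fun a => h4 _
  obtain ⟨g, a1, a2⟩ := exists_inverse (LPA.linExt Φ)
    ⟨LPA.linExt_injective Φ, LPA.linExt_surjective Φ⟩
  refine ⟨(f2.comp (LPA.linExt Φ)).comp g1, (f1.comp g).comp g2, fun x => ?_, fun x => ?_, ?_⟩
  · show f1 (g (g2 (f2 (LPA.linExt Φ (g1 x))))) = x
    rw [h3, a1, h2]
  · show f2 (LPA.linExt Φ (g1 (f1 (g (g2 x))))) = x
    rw [h1, a2, h4]
  · have e1 : (Leavitt.family K E).map ((f2.comp (LPA.linExt Φ)).comp g1)
        = ((LPA.family K E).map (LPA.linExt Φ)).map f2 := by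
      have e2 : (Leavitt.family K E).map g1 = LPA.family K E := by
        rw [← h0]
        ext x
        · exact h1 _
        · exact h1 _
        · exact h1 _
      have e3 : (Leavitt.family K E).map ((f2.comp (LPA.linExt Φ)).comp g1)
          = (((Leavitt.family K E).map g1).map (LPA.linExt Φ)).map f2 := rfl
      rw [e3, e2]
    rw [e1, LPA.linExt_family]
    conv_rhs => rw [← h0]
    ext x
    · exact hΦ _
    · exact hΦ _
    · exact hΦ _

/-- A ring isomorphism of Leavitt path algebras gives an algebra isomorphism. -/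
theorem exists_algebra_iso {K : Type} [Field K] {E F : Graph}
    (h : Nonempty (Leavitt K E ≃+* Leavitt K F)) :
    ∃ (f : LPA K E →ₙₐ[K] LPA K F) (g : LPA K F →ₙₐ[K] LPA K E),
      (∀ a, g (f a) = a) ∧ ∀ a, f (g a) = a := by
  obtain ⟨φ⟩ := h
  obtain ⟨f, g, a1, a2, -⟩ := exists_linear_iso φ
  obtain ⟨f1, g1, h1, h2, -⟩ := Leavitt.exists_equiv K E
  obtain ⟨f2, g2, h3, h4, -⟩ := Leavitt.exists_equiv K F
  refine ⟨(g2.comp f).comp f1, (g1.comp g).comp f2, fun x => ?_, fun x => ?_⟩
  · show g1 (g (f2 (g2 (f (f1 x))))) = x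
    rw [h4, a1, h1]
  · show g2 (f (f1 (g1 (g (f2 x))))) = x
    rw [h2, a2, h3]

end Pool.Agent.Helper665_GA
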