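import Pool.Agent.Helper665_GA.CutIso
import Pool.Agent.Helper665_GA.Acyclic
import Pool.Agent.Helper665_GA.Transfer

/-!
# Isomorphisms and star isomorphisms, graphs whose cycles have no exits (helper665)
-/

namespace Pool.Agent.Helper665_GA

section conj

variable {A : Type*} [NonUnitalRing A] [StarRing A]

theorem conj_mul_star {w x q : A} (h1 : star w * w = q) (h2 : x * star x = q) (h3 : x * q = x)
    (h4 : w * q = w) : w * x * star w * star (w * x * star w) = w * star w := by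
  calc w * x * star w * star (w * x * star w)
      = w * ((x * (star w * w)) * star x) * star w := by
        rw [star_mul, star_mul, star_star]; noncomm_ring
    _ = w * star w := by rw [h1, h3, h2, h4]

theorem star_mul_conj {w x q : A} (h1 : star w * w = q) (h2 : star x * x = q) (h3 : q * x = x)
    (h4 : w * q = w) : star (w * x * star w) * (w * x * star w) = w * star w := by
  calc star (w * x * star w) * (w * x * star w)
      = w * (star x * ((star w * w) * x)) * star w := by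
        rw [star_mul, star_mul, star_star]; noncomm_ring
    _ = w * star w := by rw [h1, h3, h2, h4]

end conj

namespace LPA

variable {E F G : Graph}

theorem inc_s (e : G.cut.E) : inc ℂ G ((family ℂ G.cut).s e) = (family ℂ G).s e.1 :=
  congrFun (congrArg LeavittFamily.s (inc_family (K := ℂ) (G := G))) e

theorem inc_t (e : G.cut.E) : inc ℂ G ((family ℂ G.cut).t e) = (family ℂ G).t e.1 :=
  congrFun (congrArg LeavittFamily.t (inc_family (K := ℂ) (G := G))) e

theorem inc_star (a : LPA ℂ G.cut) : inc ℂ G (star a) = star (inc ℂ G a) :=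
  map_star_of (inc ℂ G) (fun v => by rw [inc_p, star_p]) (fun e => by rw [inc_s, inc_t, star_s]) a

/-- The inclusion as a star homomorphism. -/
noncomputable def incS (G : Graph) : LPA ℂ G.cut →⋆ₙₐ[ℂ] LPA ℂ G :=
  { inc ℂ G with map_star' := inc_star }

theorem incS_apply (a : LPA ℂ G.cut) : incS G a = inc ℂ G a := rfl

theorem star_x (hG : G.NoExit) {b : G.V} (hb : G.IsBase b) :
    star (((family ℂ G).ext' hG).x b) = ((family ℂ G).ext' hG).y b := by
  rw [LeavittFamily.ext'_x hG _ hb, LeavittFamily.ext'_y hG _ hb, star_mul, star_s, ← inc_sp,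
    ← inc_star, star_sp, inc_tp]

/-- Homomorphisms are determined by the restriction and the invertible elements. -/
theorem hom_ext_cut (hG : G.NoExit) {A : Type*} [NonUnitalRing A] [Module ℂ A]
    {f g : LPA ℂ G →ₙₐ[ℂ] A} (h : ∀ a, f (inc ℂ G a) = g (inc ℂ G a))
    (hx : ∀ b, G.IsBase b → f (((family ℂ G).ext' hG).x b) = g (((family ℂ G).ext' hG).x b)) :
    f = g := by
  apply hom_ext
  apply LeavittFamily.ext_of hG
  · show (family ℂ G).restrict.map f = (family ℂ G).restrict.map g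
    rw [← inc_family]
    ext x
    · exact h _
    · exact h _
    · exact h _
  · intro b hb
    rw [LeavittFamily.ext'_map_x, LeavittFamily.ext'_map_x, hx b hb]

/-- Gluing star homomorphisms. -/
theorem exists_glue_hom (hG : G.NoExit) {B : Type*} [NonUnitalRing B] [StarRing B] [Module ℂ B]
    [IsScalarTower ℂ B B] [SMulCommClass ℂ B B] [StarModule ℂ B] (θ : LPA ℂ G.cut →⋆ₙₐ[ℂ] B)
    (x : G.V → B) (h1 : ∀ b, G.IsBase b → x b * star (x b) = θ ((family ℂ G.cut).p b))
    (h2 : ∀ b, G.IsBase b → star (x b) * x b = θ ((family ℂ G.cut).p b))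
    (h3 : ∀ b, G.IsBase b → θ ((family ℂ G.cut).p b) * x b = x b) :
    ∃ Θ : LPA ℂ G →⋆ₙₐ[ℂ] B, (∀ a, Θ (inc ℂ G a) = θ a) ∧
      ∀ b, G.IsBase b → Θ (((family ℂ G).ext' hG).x b) = x b := by
  have hps : ∀ v, star (θ ((family ℂ G.cut).p v)) = θ ((family ℂ G.cut).p v) := by
    intro v
    rw [← map_star θ, star_p]
  let D : LeavittFamily.ExtData G ((family ℂ G.cut).map θ) :=
    { x := x
      y := fun b => star (x b)
      px := h3
      yp := fun b hb => by
        show star (x b) * θ ((family ℂ G.cut).p b) = star (x b)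
        rw [← hps, ← star_mul, h3 b hb]
      xy := h1
      yx := h2 }
  have hf := lift_family (K := ℂ) (LeavittFamily.glue hG ((family ℂ G.cut).map θ) D)
  set f : LPA ℂ G →ₙₐ[ℂ] B := lift (LeavittFamily.glue hG ((family ℂ G.cut).map θ) D) with hfdef
  have hinc : ∀ a, f (inc ℂ G a) = θ a := by
    intro a
    have h : f.comp (inc ℂ G) = (θ : LPA ℂ G.cut →ₙₐ[ℂ] B) := hom_ext (by
      show ((family ℂ G.cut).map (inc ℂ G)).map f = (family ℂ G.cut).map θ
      rw [inc_family, ← LeavittFamily.restrict_map, hf, LeavittFamily.restrict_glue])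
    exact DFunLike.congr_fun h a
  have hx : ∀ b, G.IsBase b → f (((family ℂ G).ext' hG).x b) = x b := by
    intro b hb
    rw [← LeavittFamily.ext'_map_x, hf, LeavittFamily.ext'_glue_x hG _ _ hb]
  have hy : ∀ b, G.IsBase b → f (((family ℂ G).ext' hG).y b) = star (x b) := by
    intro b hb
    rw [← LeavittFamily.ext'_map_y, hf, LeavittFamily.ext'_glue_y hG _ _ hb]
  have hstar : ∀ a, f (star a) = star (f a) := by
    apply map_star_of f
    · intro v
      rw [← inc_p, hinc, hps]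
    · intro e
      by_cases hb : G.IsBase (G.src e)
      · rw [(family ℂ G).s_base hG hb, (family ℂ G).t_base hG hb, map_mul, map_mul, hx _ hb,
          hy _ hb, ← inc_tp, ← inc_sp, hinc, hinc, star_mul, ← map_star θ, star_tp]
      · have e1 := inc_s (G := G) ⟨e, hb⟩
        have e2 := inc_t (G := G) ⟨e, hb⟩
        change inc ℂ G _ = (family ℂ G).s e at e1
        change inc ℂ G _ = (family ℂ G).t e at e2
        rw [← e1, ← e2, hinc, hinc, ← map_star θ, star_s]
  exact ⟨{ f with map_star' := hstar }, hinc, hx⟩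

/-- An algebra isomorphism gives a star isomorphism, for graphs whose cycles have no exits. -/
theorem exists_star_iso_noExit [Countable E.V] [Countable E.E] [Countable F.V] [Countable F.E]
    (hE : E.NoExit) (hF : F.NoExit) (φ : LPA ℂ E →ₙₐ[ℂ] LPA ℂ F)
    (ψ : LPA ℂ F →ₙₐ[ℂ] LPA ℂ E) (hl : ∀ a, ψ (φ a) = a) (hr : ∀ a, φ (ψ a) = a) :
    ∃ (Θ : LPA ℂ E →⋆ₙₐ[ℂ] LPA ℂ F) (Θ' : LPA ℂ F →⋆ₙₐ[ℂ] LPA ℂ E),
      (∀ a, Θ' (Θ a) = a) ∧ ∀ a, Θ (Θ' a) = a := by
  classical
  obtain ⟨φ0, ψ0, β, hl0, hr0, hβ, hIE⟩ := exists_cut_iso hE hF φ ψ hl hr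
  have hAE := Graph.acyclic_cut hE
  have hAF := Graph.acyclic_cut hF
  have c1 : Countable E.cut.V := inferInstanceAs (Countable E.V)
  have c2 : Countable E.cut.E := inferInstanceAs (Countable {e : E.E // ¬ E.IsBase (E.src e)})
  have c3 : Countable F.cut.V := inferInstanceAs (Countable F.V)
  have c4 : Countable F.cut.E := inferInstanceAs (Countable {e : F.E // ¬ F.IsBase (F.src e)})
  obtain ⟨θ, θ', hθl, hθr, hθ⟩ := exists_star_iso (scan E.cut) scan_injective (scan F.cut)
    scan_injective (locMat hAE) (locMat hAF) ctblGen ctblGen φ0 ψ0 hl0 hr0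
  have hidE : ∀ v, (family ℂ E.cut).p v * (family ℂ E.cut).p v = (family ℂ E.cut).p v :=
    (family ℂ E.cut).p_mul_self
  have hidF : ∀ v, (family ℂ F.cut).p v * (family ℂ F.cut).p v = (family ℂ F.cut).p v :=
    (family ℂ F.cut).p_mul_self
  have hu : ∀ d : {d // F.IsBase d}, ∃ u : LPA ℂ F.cut,
      u * star u = θ ((family ℂ E.cut).p (β d).1) ∧ star u * u = (family ℂ F.cut).p d.1 ∧
      u * (family ℂ F.cut).p d.1 = u := by
    intro d
    have e1 : IEq (θ ((family ℂ E.cut).p (β d).1)) ((family ℂ F.cut).p d.1) :=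
      (hθ _ (hidE _)).trans (by rw [← map_mul, hidE]) (hidF _) (hIE d)
    have e2 : θ ((family ℂ E.cut).p (β d).1) * θ ((family ℂ E.cut).p (β d).1)
        = θ ((family ℂ E.cut).p (β d).1) := by rw [← map_mul, hidE]
    have e3 : star (θ ((family ℂ E.cut).p (β d).1)) = θ ((family ℂ E.cut).p (β d).1) := by
      rw [← map_star θ, star_p]
    obtain ⟨u, hu1, hu2⟩ := exists_unitary_eq (scan F.cut) scan_injective (locMat hAF)
      e2 (hidF d.1) e3 (star_p (G := F.cut) d.1) e1
    set p := θ ((family ℂ E.cut).p (β d).1) with hp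
    have e5 : star ((family ℂ F.cut).p d.1) = (family ℂ F.cut).p d.1 :=
      star_p (G := F.cut) d.1
    have e6 := hidF d.1
    set q := (family ℂ F.cut).p d.1 with hq
    clear_value p q
    refine ⟨p * u * q, ?_, ?_, ?_⟩
    · calc p * u * q * star (p * u * q) = p * u * (q * q) * (star u * p) := by
            rw [star_mul, star_mul, e3, e5]; noncomm_ring
        _ = p * u * (star u * u) * (star u * p) := by rw [e6, hu2]
        _ = p * (u * star u) * (u * star u) * p := by noncomm_ring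
        _ = p := by rw [hu1, e2, e2, e2]
    · calc star (p * u * q) * (p * u * q) = q * star u * (p * p) * (u * q) := by
            rw [star_mul, star_mul, e3, e5]; noncomm_ring
        _ = q * star u * (u * star u) * (u * q) := by rw [e2, hu1]
        _ = q * (star u * u) * (star u * u) * q := by noncomm_ring
        _ = q := by rw [hu2, e6, e6, e6]
    · rw [mul_assoc, e6]
  choose u hu1 hu2 hu3 using hu
  let βe : {d // F.IsBase d} ≃ {b // E.IsBase b} := Equiv.ofBijective β hβ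
  have hβe : ∀ d, βe d = β d := fun d => rfl
  -- the two families of invertible elements
  let X : E.V → LPA ℂ F := fun b => if h : E.IsBase b then
    incS F (u (βe.symm ⟨b, h⟩)) * ((family ℂ F).ext' hF).x (βe.symm ⟨b, h⟩).1 *
      star (incS F (u (βe.symm ⟨b, h⟩))) else 0
  let X' : F.V → LPA ℂ E := fun d => if h : F.IsBase d then
    star (incS E (θ' (u ⟨d, h⟩))) * ((family ℂ E).ext' hE).x (β ⟨d, h⟩).1 *
      star (star (incS E (θ' (u ⟨d, h⟩)))) else 0
  have hX : ∀ (b : E.V) (h : E.IsBase b), X b = incS F (u (βe.symm ⟨b, h⟩)) *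
      ((family ℂ F).ext' hF).x (βe.symm ⟨b, h⟩).1 *
      star (incS F (u (βe.symm ⟨b, h⟩))) := fun b h => dif_pos h
  have hX' : ∀ (d : F.V) (h : F.IsBase d), X' d = star (incS E (θ' (u ⟨d, h⟩))) *
      ((family ℂ E).ext' hE).x (β ⟨d, h⟩).1 *
      star (star (incS E (θ' (u ⟨d, h⟩)))) := fun d h => dif_pos h
  have hincpF : ∀ v : F.V, incS F ((family ℂ F.cut).p v) = (family ℂ F).p v :=
    fun v => inc_p (G := F) v
  have hincpE : ∀ v : E.V, incS E ((family ℂ E.cut).p v) = (family ℂ E).p v :=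
    fun v => inc_p (G := E) v
  -- facts about the `X`
  have hXu : ∀ d : {d // F.IsBase d}, star (incS F (u d)) * incS F (u d) = (family ℂ F).p d.1 ∧
      incS F (u d) * star (incS F (u d)) = incS F (θ ((family ℂ E.cut).p (β d).1)) ∧
      incS F (u d) * (family ℂ F).p d.1 = incS F (u d) := by
    intro d
    refine ⟨?_, ?_, ?_⟩
    · rw [← map_star (incS F), ← map_mul, hu2, hincpF]
    · rw [← map_star (incS F), ← map_mul, hu1]
    · rw [← hincpF, ← map_mul, hu3]
  have hv1 : ∀ d : {d // F.IsBase d}, incS E (θ' (u d)) * star (incS E (θ' (u d)))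
      = (family ℂ E).p (β d).1 := by
    intro d
    rw [← map_star (incS E), ← map_star θ', ← map_mul, ← map_mul, hu1, hθl, hincpE]
  have hv2 : ∀ d : {d // F.IsBase d}, star (incS E (θ' (u d))) * incS E (θ' (u d))
      = incS E (θ' ((family ℂ F.cut).p d.1)) := by
    intro d
    rw [← map_star (incS E), ← map_star θ', ← map_mul, ← map_mul, hu2]
  have hv3 : ∀ d : {d // F.IsBase d}, (family ℂ E).p (β d).1 * incS E (θ' (u d))
      = incS E (θ' (u d)) := by
    intro d
    rw [← hv1, mul_assoc, hv2, ← map_mul, ← map_mul, hu3]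
  have hv4 : ∀ d : {d // F.IsBase d}, star (incS E (θ' (u d))) * (family ℂ E).p (β d).1
      = star (incS E (θ' (u d))) := by
    intro d
    rw [← star_p, ← star_mul, hv3]
  obtain ⟨Θ, hΘ1, hΘ2⟩ := exists_glue_hom hE ((incS F).comp θ) X
    (fun b hb => by
      have hd := (βe.symm ⟨b, hb⟩).2
      have hb' : β (βe.symm ⟨b, hb⟩) = ⟨b, hb⟩ := βe.apply_symm_apply _
      obtain ⟨g1, g2, g3⟩ := hXu (βe.symm ⟨b, hb⟩)
      rw [hX b hb, conj_mul_star g1 (by rw [star_x hF hd]; exact ((family ℂ F).ext' hF).xy _ hd)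
        (((family ℂ F).ext' hF).xp hd) g3, g2, hb']
      rfl)
    (fun b hb => by
      have hd := (βe.symm ⟨b, hb⟩).2
      have hb' : β (βe.symm ⟨b, hb⟩) = ⟨b, hb⟩ := βe.apply_symm_apply _
      obtain ⟨g1, g2, g3⟩ := hXu (βe.symm ⟨b, hb⟩)
      rw [hX b hb, star_mul_conj g1 (by rw [star_x hF hd]; exact ((family ℂ F).ext' hF).yx _ hd)
        (((family ℂ F).ext' hF).px _ hd) g3, g2, hb']
      rfl)
    (fun b hb => by
      have hb' : β (βe.symm ⟨b, hb⟩) = ⟨b, hb⟩ := βe.apply_symm_apply _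
      obtain ⟨g1, g2, g3⟩ := hXu (βe.symm ⟨b, hb⟩)
      have g4 : (incS F).comp θ ((family ℂ E.cut).p b)
          = incS F (u (βe.symm ⟨b, hb⟩)) * star (incS F (u (βe.symm ⟨b, hb⟩))) := by
        rw [g2, hb']; rfl
      rw [hX b hb, g4]
      calc _ = incS F (u (βe.symm ⟨b, hb⟩)) * (star (incS F (u (βe.symm ⟨b, hb⟩)))
            * incS F (u (βe.symm ⟨b, hb⟩))) * ((family ℂ F).ext' hF).x (βe.symm ⟨b, hb⟩).1 *
            star (incS F (u (βe.symm ⟨b, hb⟩))) := by noncomm_ring
        _ = _ := by rw [g1, g3])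
  obtain ⟨Θ', hΘ3, hΘ4⟩ := exists_glue_hom hF ((incS E).comp θ') X'
    (fun d hd => by
      have hb := (β ⟨d, hd⟩).2
      rw [hX' d hd, conj_mul_star (q := (family ℂ E).p (β ⟨d, hd⟩).1)
        (by rw [star_star]; exact hv1 ⟨d, hd⟩)
        (by rw [star_x hE hb]; exact ((family ℂ E).ext' hE).xy _ hb)
        (((family ℂ E).ext' hE).xp hb) (hv4 ⟨d, hd⟩), star_star, hv2]
      rfl)
    (fun d hd => by
      have hb := (β ⟨d, hd⟩).2
      rw [hX' d hd, star_mul_conj (q := (family ℂ E).p (β ⟨d, hd⟩).1)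
        (by rw [star_star]; exact hv1 ⟨d, hd⟩)
        (by rw [star_x hE hb]; exact ((family ℂ E).ext' hE).yx _ hb)
        (((family ℂ E).ext' hE).px _ hb) (hv4 ⟨d, hd⟩), star_star, hv2]
      rfl)
    (fun d hd => by
      have g4 : (incS E).comp θ' ((family ℂ F.cut).p d)
          = star (incS E (θ' (u ⟨d, hd⟩))) * incS E (θ' (u ⟨d, hd⟩)) := by
        rw [hv2]; rfl
      rw [hX' d hd, g4]
      calc _ = star (incS E (θ' (u ⟨d, hd⟩))) * (incS E (θ' (u ⟨d, hd⟩))
            * star (incS E (θ' (u ⟨d, hd⟩)))) * ((family ℂ E).ext' hE).x (β ⟨d, hd⟩).1 *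
            star (star (incS E (θ' (u ⟨d, hd⟩)))) := by noncomm_ring
        _ = _ := by rw [hv1, hv4])
  refine ⟨Θ, Θ', ?_, ?_⟩
  · have h : (Θ' : LPA ℂ F →ₙₐ[ℂ] LPA ℂ E).comp (Θ : LPA ℂ E →ₙₐ[ℂ] LPA ℂ F)
        = NonUnitalAlgHom.id ℂ _ := by
      apply hom_ext_cut hE
      · intro a
        show Θ' (Θ (inc ℂ E a)) = inc ℂ E a
        rw [hΘ1]
        show Θ' (inc ℂ F (θ a)) = inc ℂ E a
        rw [hΘ3]
        show inc ℂ E (θ' (θ a)) = inc ℂ E a
        rw [hθl]
      · intro b hb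
        show Θ' (Θ (((family ℂ E).ext' hE).x b)) = ((family ℂ E).ext' hE).x b
        have hb' : β (βe.symm ⟨b, hb⟩) = ⟨b, hb⟩ := βe.apply_symm_apply _
        have hd := (βe.symm ⟨b, hb⟩).2
        rw [hΘ2 b hb, hX b hb, map_mul, map_mul, map_star, hΘ4 _ hd, hX' _ hd, star_star]
        have e1 : Θ' (incS F (u (βe.symm ⟨b, hb⟩))) = incS E (θ' (u (βe.symm ⟨b, hb⟩))) :=
          hΘ3 _
        have e2 : (⟨(βe.symm ⟨b, hb⟩).1, hd⟩ : {d // F.IsBase d}) = βe.symm ⟨b, hb⟩ := rfl
        rw [e1, e2, hb']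
        have e3 := hv1 (βe.symm ⟨b, hb⟩)
        rw [hb'] at e3
        calc _ = (incS E (θ' (u (βe.symm ⟨b, hb⟩))) * star (incS E (θ' (u (βe.symm ⟨b, hb⟩)))))
              * ((family ℂ E).ext' hE).x b * (incS E (θ' (u (βe.symm ⟨b, hb⟩))) *
              star (incS E (θ' (u (βe.symm ⟨b, hb⟩))))) := by noncomm_ring
          _ = _ := by
            rw [e3]
            have e4 : (family ℂ E).p b * ((family ℂ E).ext' hE).x b = ((family ℂ E).ext' hE).x b :=
              ((family ℂ E).ext' hE).px b hb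
            have e5 : ((family ℂ E).ext' hE).x b * (family ℂ E).p b = ((family ℂ E).ext' hE).x b :=
              ((family ℂ E).ext' hE).xp hb
            rw [e4, e5]
    exact fun a => DFunLike.congr_fun h a
  · have h : (Θ : LPA ℂ E →ₙₐ[ℂ] LPA ℂ F).comp (Θ' : LPA ℂ F →ₙₐ[ℂ] LPA ℂ E)
        = NonUnitalAlgHom.id ℂ _ := by
      apply hom_ext_cut hF
      · intro a
        show Θ (Θ' (inc ℂ F a)) = inc ℂ F a
        rw [hΘ3]
        show Θ (inc ℂ E (θ' a)) = inc ℂ F a
        rw [hΘ1]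
        show inc ℂ F (θ (θ' a)) = inc ℂ F a
        rw [hθr]
      · intro d hd
        show Θ (Θ' (((family ℂ F).ext' hF).x d)) = ((family ℂ F).ext' hF).x d
        have hb := (β ⟨d, hd⟩).2
        rw [hΘ4 d hd, hX' d hd, map_mul, map_mul, map_star, map_star, map_star, star_star,
          hΘ2 _ hb, hX _ hb]
        have e1 : Θ (incS E (θ' (u ⟨d, hd⟩))) = incS F (u ⟨d, hd⟩) := by
          show Θ (inc ℂ E (θ' (u ⟨d, hd⟩))) = _
          rw [hΘ1]
          show incS F (θ (θ' (u ⟨d, hd⟩))) = _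
          rw [hθr]
        have e2 : βe.symm ⟨(β ⟨d, hd⟩).1, hb⟩ = ⟨d, hd⟩ := βe.symm_apply_apply ⟨d, hd⟩
        rw [e1, e2]
        obtain ⟨g1, g2, g3⟩ := hXu ⟨d, hd⟩
        calc _ = (star (incS F (u ⟨d, hd⟩)) * incS F (u ⟨d, hd⟩))
              * ((family ℂ F).ext' hF).x d * (star (incS F (u ⟨d, hd⟩)) *
              incS F (u ⟨d, hd⟩)) := by noncomm_ring
          _ = _ := by
            rw [g1]
            have e4 : (family ℂ F).p d * ((family ℂ F).ext' hF).x d = ((family ℂ F).ext' hF).x d :=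
              ((family ℂ F).ext' hF).px d hd
            have e5 : ((family ℂ F).ext' hF).x d * (family ℂ F).p d = ((family ℂ F).ext' hF).x d :=
              ((family ℂ F).ext' hF).xp hd
            show (family ℂ F).p d * _ * (family ℂ F).p d = _
            rw [e4, e5]
    exact fun a => DFunLike.congr_fun h a

end LPA

/-- Functoriality of the graph C*-algebra for star homomorphisms of Leavitt path algebras. -/
theorem exists_cstar_map {E F : Graph} (Θ : LPA ℂ E →⋆ₙₐ[ℂ] LPA ℂ F) :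
    ∃ π : CStar E →⋆ₙₐ[ℂ] CStar F, ∀ a, π (LPA.scan E a) = LPA.scan F (Θ a) := by
  let f : LPA ℂ E →⋆ₙₐ[ℂ] CStar F := (LPA.scan F).comp Θ
  let X := (LPA.family ℂ E).map f
  have hps : ∀ v, star (X.p v) = X.p v := by
    intro v
    show star (f _) = f _
    rw [← map_star f, LPA.star_p]
  have hss : ∀ e, star (X.s e) = X.t e := by
    intro e
    show star (f _) = f _
    rw [← map_star f, LPA.star_s]
  let Y : CKFamily E (CStar F) :=
    { p := X.p
      s := X.s
      p_star := hps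
      p_mul_self := X.p_mul_self
      p_mul_of_ne := X.p_mul_of_ne
      star_mul_self := fun e => by rw [hss]; exact X.ghost_mul_self e
      range_orth := fun e g h => by
        rw [hss, hss]
        calc X.s e * X.t e * (X.s g * X.t g) = X.s e * (X.t e * X.s g) * X.t g := by
              noncomm_ring
          _ = 0 := by rw [X.ghost_mul_of_ne e g h, mul_zero, zero_mul]
      range_le := fun e => by rw [hss, ← mul_assoc, X.src_mul]
      sum_eq := fun v S hS h => by
        rw [← X.sum_eq v S hS h]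
        exact Finset.sum_congr rfl fun e _ => by rw [hss] }
  refine ⟨CStar.lift Y, ?_⟩
  have hY := CStar.lift_family Y
  set π := CStar.lift Y with hπ
  have h : (π : CStar E →ₙₐ[ℂ] CStar F).comp (LPA.scan E : LPA ℂ E →ₙₐ[ℂ] CStar E)
      = (f : LPA ℂ E →ₙₐ[ℂ] CStar F) := by
    have hcp : ∀ v, LPA.scan E ((LPA.family ℂ E).p v) = (CStar.family E).p v :=
      fun v => CStar.can_gen E (Gen.vert v)
    have hcs : ∀ e, LPA.scan E ((LPA.family ℂ E).s e) = (CStar.family E).s e :=
      fun e => CStar.can_gen E (Gen.edge e)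
    have hπs : ∀ e, π ((CStar.family E).s e) = X.s e := fun e =>
      congrFun (congrArg CKFamily.s hY) e
    apply LPA.hom_ext
    ext x
    · show π (LPA.scan E ((LPA.family ℂ E).p x)) = _
      rw [hcp]
      exact congrFun (congrArg CKFamily.p hY) x
    · show π (LPA.scan E ((LPA.family ℂ E).s x)) = _
      rw [hcs]
      exact hπs x
    · show π (LPA.scan E ((LPA.family ℂ E).t x)) = X.t x
      rw [← LPA.star_s, map_star, map_star, hcs, hπs, hss]
  exact fun a => DFunLike.congr_fun h a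

/-- Star isomorphic Leavitt path algebras have isomorphic graph C*-algebras. -/
theorem nonempty_cstar_iso {E F : Graph} (Θ : LPA ℂ E →⋆ₙₐ[ℂ] LPA ℂ F)
    (Θ' : LPA ℂ F →⋆ₙₐ[ℂ] LPA ℂ E) (h1 : ∀ a, Θ' (Θ a) = a) (h2 : ∀ a, Θ (Θ' a) = a) :
    Nonempty (CStar E ≃⋆ₐ[ℂ] CStar F) := by
  obtain ⟨π, hπ⟩ := exists_cstar_map Θ
  obtain ⟨π', hπ'⟩ := exists_cstar_map Θ'
  have key : ∀ {E F : Graph} (Θ : LPA ℂ E →⋆ₙₐ[ℂ] LPA ℂ F) (Θ' : LPA ℂ F →⋆ₙₐ[ℂ] LPA ℂ E)
      (π : CStar E →⋆ₙₐ[ℂ] CStar F) (π' : CStar F →⋆ₙₐ[ℂ] CStar E), (∀ a, Θ' (Θ a) = a) →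
      (∀ a, π (LPA.scan E a) = LPA.scan F (Θ a)) → (∀ a, π' (LPA.scan F a) = LPA.scan E (Θ' a)) →
      ∀ a, π' (π a) = a := by
    intro E F Θ Θ' π π' h1 hπ hπ' a
    have hcp : ∀ v, LPA.scan E ((LPA.family ℂ E).p v) = (CStar.family E).p v :=
      fun v => CStar.can_gen E (Gen.vert v)
    have hcs : ∀ e, LPA.scan E ((LPA.family ℂ E).s e) = (CStar.family E).s e :=
      fun e => CStar.can_gen E (Gen.edge e)
    have h : π'.comp π = NonUnitalStarAlgHom.id ℂ (CStar E) := by
      apply CStar.hom_ext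
      apply CKFamily.ext
      · funext v
        show π' (π ((CStar.family E).p v)) = (CStar.family E).p v
        rw [← hcp, hπ, hπ', h1]
      · funext e
        show π' (π ((CStar.family E).s e)) = (CStar.family E).s e
        rw [← hcs, hπ, hπ', h1]
    exact DFunLike.congr_fun h a
  have k1 := key Θ Θ' π π' h1 hπ hπ'
  have k2 := key Θ' Θ π' π h2 hπ' hπ
  exact ⟨StarAlgEquiv.ofBijective π ⟨fun x y h => by rw [← k1 x, h, k1], fun y => ⟨π' y, k2 y⟩⟩⟩

/-- The main theorem for graphs whose cycles have no exits. -/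
theorem noExit_iso {E F : Graph} [Countable E.V] [Countable E.E] [Countable F.V] [Countable F.E]
    (hE : E.NoExit) (hF : F.NoExit) (h : Nonempty (Leavitt ℂ E ≃+* Leavitt ℂ F)) :
    Nonempty (CStar E ≃⋆ₐ[ℂ] CStar F) := by
  obtain ⟨f, g, h1, h2⟩ := exists_algebra_iso h
  obtain ⟨Θ, Θ', h3, h4⟩ := LPA.exists_star_iso_noExit hE hF f g h1 h2
  exact nonempty_cstar_iso Θ Θ' h3 h4

end Pool.Agent.Helper665_GA
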