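import Pool.Agent.Helper665_GA.CutIso
import Pool.Agent.Helper665_GA.PathStd
import Pool.Agent.Helper665_GA.Transfer

/-!
# Isomorphisms and star isomorphisms over a field with involution, graphs whose cycles have
no exits (helper665)
-/

namespace Pool.Agent.Helper665_GA

section conj

variable {A : Type*} [NonUnitalRing A] [StarRing A]

theorem conj_mul_star {w x q : A} (h1 : star w * w = q) (h2 : x * star x = q) (h3 : x * q = x)
    (h4 : w * q = w) : w * x * star w * star (w * x * star w) = w * star w := by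
  calc w * x * star w * star (w * x * star w)
      = w * ((x * (star w * w)) * star x) * star w := by
        rw [star_mul, star_mul, star_star]; noncomm_ring
    _ = w * star w := by rw [h1, h3, h2, h4]

theorem star_mul_conj {w x q : A} (h1 : star w * w = q) (h2 : star x * x = q) (h3 : q * x = x)
    (h4 : w * q = w) : star (w * x * star w) * (w * x * star w) = w * star w := by
  calc star (w * x * star w) * (w * x * star w)
      = w * (star x * ((star w * w) * x)) * star w := by
        rw [star_mul, star_mul, star_star]; noncomm_ring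
    _ = w * star w := by rw [h1, h3, h2, h4]

end conj

namespace LPA

variable {K : Type*} [Field K] [StarRing K] {E F G : Graph}

set_option linter.unusedSectionVars false

theorem inc_s (e : G.cut.E) : inc K G ((family K G.cut).s e) = (family K G).s e.1 :=
  congrFun (congrArg LeavittFamily.s (inc_family (K := K) (G := G))) e

theorem inc_t (e : G.cut.E) : inc K G ((family K G.cut).t e) = (family K G).t e.1 :=
  congrFun (congrArg LeavittFamily.t (inc_family (K := K) (G := G))) e

theorem inc_star (a : LPA K G.cut) : inc K G (star a) = star (inc K G a) :=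
  map_star_of (inc K G) (fun v => by rw [inc_p, star_p]) (fun e => by rw [inc_s, inc_t, star_s]) a

/-- The inclusion as a star homomorphism. -/
noncomputable def incS (G : Graph) : LPA K G.cut →⋆ₙₐ[K] LPA K G :=
  { inc K G with map_star' := inc_star }

theorem incS_apply (a : LPA K G.cut) : incS G a = inc K G a := rfl

theorem star_x (hG : G.NoExit) {b : G.V} (hb : G.IsBase b) :
    star (((family K G).ext' hG).x b) = ((family K G).ext' hG).y b := by
  rw [LeavittFamily.ext'_x hG _ hb, LeavittFamily.ext'_y hG _ hb, star_mul, star_s, ← inc_sp,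
    ← inc_star, star_sp, inc_tp]

/-- Homomorphisms are determined by the restriction and the invertible elements. -/
theorem hom_ext_cut (hG : G.NoExit) {A : Type*} [NonUnitalRing A] [Module K A]
    {f g : LPA K G →ₙₐ[K] A} (h : ∀ a, f (inc K G a) = g (inc K G a))
    (hx : ∀ b, G.IsBase b → f (((family K G).ext' hG).x b) = g (((family K G).ext' hG).x b)) :
    f = g := by
  apply hom_ext
  apply LeavittFamily.ext_of hG
  · show (family K G).restrict.map f = (family K G).restrict.map g
    rw [← inc_family]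
    ext x
    · exact h _
    · exact h _
    · exact h _
  · intro b hb
    rw [LeavittFamily.ext'_map_x, LeavittFamily.ext'_map_x, hx b hb]

/-- Gluing star homomorphisms. -/
theorem exists_glue_hom (hG : G.NoExit) {B : Type*} [NonUnitalRing B] [StarRing B] [Module K B]
    [IsScalarTower K B B] [SMulCommClass K B B] [StarModule K B] (θ : LPA K G.cut →⋆ₙₐ[K] B)
    (x : G.V → B) (h1 : ∀ b, G.IsBase b → x b * star (x b) = θ ((family K G.cut).p b))
    (h2 : ∀ b, G.IsBase b → star (x b) * x b = θ ((family K G.cut).p b))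
    (h3 : ∀ b, G.IsBase b → θ ((family K G.cut).p b) * x b = x b) :
    ∃ Θ : LPA K G →⋆ₙₐ[K] B, (∀ a, Θ (inc K G a) = θ a) ∧
      ∀ b, G.IsBase b → Θ (((family K G).ext' hG).x b) = x b := by
  have hps : ∀ v, star (θ ((family K G.cut).p v)) = θ ((family K G.cut).p v) := by
    intro v
    rw [← map_star θ, star_p]
  let D : LeavittFamily.ExtData G ((family K G.cut).map θ) :=
    { x := x
      y := fun b => star (x b)
      px := h3
      yp := fun b hb => by
        show star (x b) * θ ((family K G.cut).p b) = star (x b)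
        rw [← hps, ← star_mul, h3 b hb]
      xy := h1
      yx := h2 }
  have hf := lift_family (K := K) (LeavittFamily.glue hG ((family K G.cut).map θ) D)
  set f : LPA K G →ₙₐ[K] B := lift (LeavittFamily.glue hG ((family K G.cut).map θ) D) with hfdef
  have hinc : ∀ a, f (inc K G a) = θ a := by
    intro a
    have h : f.comp (inc K G) = (θ : LPA K G.cut →ₙₐ[K] B) := hom_ext (by
      show ((family K G.cut).map (inc K G)).map f = (family K G.cut).map θ
      rw [inc_family, ← LeavittFamily.restrict_map, hf, LeavittFamily.restrict_glue])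
    exact DFunLike.congr_fun h a
  have hx : ∀ b, G.IsBase b → f (((family K G).ext' hG).x b) = x b := by
    intro b hb
    rw [← LeavittFamily.ext'_map_x, hf, LeavittFamily.ext'_glue_x hG _ _ hb]
  have hy : ∀ b, G.IsBase b → f (((family K G).ext' hG).y b) = star (x b) := by
    intro b hb
    rw [← LeavittFamily.ext'_map_y, hf, LeavittFamily.ext'_glue_y hG _ _ hb]
  have hstar : ∀ a, f (star a) = star (f a) := by
    apply map_star_of f
    · intro v
      rw [← inc_p, hinc, hps]
    · intro e
      by_cases hb : G.IsBase (G.src e)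
      · rw [(family K G).s_base hG hb, (family K G).t_base hG hb, map_mul, map_mul, hx _ hb,
          hy _ hb, ← inc_tp, ← inc_sp, hinc, hinc, star_mul, ← map_star θ, star_tp]
      · have e1 := inc_s (K := K) (G := G) ⟨e, hb⟩
        have e2 := inc_t (K := K) (G := G) ⟨e, hb⟩
        change inc K G _ = (family K G).s e at e1
        change inc K G _ = (family K G).t e at e2
        rw [← e1, ← e2, hinc, hinc, ← map_star θ, star_s]
  exact ⟨{ f with map_star' := hstar }, hinc, hx⟩

/-- An algebra isomorphism gives a star isomorphism, for graphs whose cycles have no exits. -/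
theorem exists_star_iso_noExit [Countable E.V] [Countable E.E] [Countable F.V] [Countable F.E]
    (hE : E.NoExit) (hF : F.NoExit) (φ : LPA K E →ₙₐ[K] LPA K F)
    (ψ : LPA K F →ₙₐ[K] LPA K E) (hl : ∀ a, ψ (φ a) = a) (hr : ∀ a, φ (ψ a) = a) :
    ∃ (Θ : LPA K E →⋆ₙₐ[K] LPA K F) (Θ' : LPA K F →⋆ₙₐ[K] LPA K E),
      (∀ a, Θ' (Θ a) = a) ∧ ∀ a, Θ (Θ' a) = a := by
  classical
  obtain ⟨φ0, ψ0, β, hl0, hr0, hβ, hIE⟩ := exists_cut_iso hE hF φ ψ hl hr
  have hAE := Graph.acyclic_cut hE
  have hAF := Graph.acyclic_cut hF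
  have c1 : Countable E.cut.V := inferInstanceAs (Countable E.V)
  have c2 : Countable E.cut.E := inferInstanceAs (Countable {e : E.E // ¬ E.IsBase (E.src e)})
  have c3 : Countable F.cut.V := inferInstanceAs (Countable F.V)
  have c4 : Countable F.cut.E := inferInstanceAs (Countable {e : F.E // ¬ F.IsBase (F.src e)})
  obtain ⟨θ, θ', hθl, hθr, hθ⟩ := exists_star_iso_acyclic hAE hAF hl0 hr0
  have hidE : ∀ v, (family K E.cut).p v * (family K E.cut).p v = (family K E.cut).p v :=
    (family K E.cut).p_mul_self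
  have hidF : ∀ v, (family K F.cut).p v * (family K F.cut).p v = (family K F.cut).p v :=
    (family K F.cut).p_mul_self
  have hu : ∀ d : {d // F.IsBase d}, ∃ u : LPA K F.cut,
      u * star u = θ ((family K E.cut).p (β d).1) ∧ star u * u = (family K F.cut).p d.1 ∧
      u * (family K F.cut).p d.1 = u := by
    intro d
    have e2 : θ ((family K E.cut).p (β d).1) * θ ((family K E.cut).p (β d).1)
        = θ ((family K E.cut).p (β d).1) := by rw [← map_mul, hidE]
    have e1 : IEq (θ ((family K E.cut).p (β d).1)) ((family K F.cut).p d.1) :=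
      (hθ _).2.symm.trans e2 (hidF _) (hIE d)
    obtain ⟨u, hu0, hu1, hu2⟩ := (stdData K hAF).exists_equiv (hθ _).1 (p_mem_S hAF d.1) e2
      (hidF d.1) e1
    refine ⟨u, hu1, hu2, ?_⟩
    rw [← hu2, ← mul_assoc, (stdData K hAF).pi hu0]
  choose u hu1 hu2 hu3 using hu
  let βe : {d // F.IsBase d} ≃ {b // E.IsBase b} := Equiv.ofBijective β hβ
  have hβe : ∀ d, βe d = β d := fun d => rfl
  -- the two families of invertible elements
  let X : E.V → LPA K F := fun b => if h : E.IsBase b then
    incS F (u (βe.symm ⟨b, h⟩)) * ((family K F).ext' hF).x (βe.symm ⟨b, h⟩).1 *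
      star (incS F (u (βe.symm ⟨b, h⟩))) else 0
  let X' : F.V → LPA K E := fun d => if h : F.IsBase d then
    star (incS E (θ' (u ⟨d, h⟩))) * ((family K E).ext' hE).x (β ⟨d, h⟩).1 *
      star (star (incS E (θ' (u ⟨d, h⟩)))) else 0
  have hX : ∀ (b : E.V) (h : E.IsBase b), X b = incS F (u (βe.symm ⟨b, h⟩)) *
      ((family K F).ext' hF).x (βe.symm ⟨b, h⟩).1 *
      star (incS F (u (βe.symm ⟨b, h⟩))) := fun b h => dif_pos h
  have hX' : ∀ (d : F.V) (h : F.IsBase d), X' d = star (incS E (θ' (u ⟨d, h⟩))) *
      ((family K E).ext' hE).x (β ⟨d, h⟩).1 *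
      star (star (incS E (θ' (u ⟨d, h⟩)))) := fun d h => dif_pos h
  have hincpF : ∀ v : F.V, incS F ((family K F.cut).p v) = (family K F).p v :=
    fun v => inc_p (G := F) v
  have hincpE : ∀ v : E.V, incS E ((family K E.cut).p v) = (family K E).p v :=
    fun v => inc_p (G := E) v
  -- facts about the `X`
  have hXu : ∀ d : {d // F.IsBase d}, star (incS F (u d)) * incS F (u d) = (family K F).p d.1 ∧
      incS F (u d) * star (incS F (u d)) = incS F (θ ((family K E.cut).p (β d).1)) ∧
      incS F (u d) * (family K F).p d.1 = incS F (u d) := by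
    intro d
    refine ⟨?_, ?_, ?_⟩
    · rw [← map_star (incS F), ← map_mul, hu2, hincpF]
    · rw [← map_star (incS F), ← map_mul, hu1]
    · rw [← hincpF, ← map_mul, hu3]
  have hv1 : ∀ d : {d // F.IsBase d}, incS E (θ' (u d)) * star (incS E (θ' (u d)))
      = (family K E).p (β d).1 := by
    intro d
    rw [← map_star (incS E), ← map_star θ', ← map_mul, ← map_mul, hu1, hθl, hincpE]
  have hv2 : ∀ d : {d // F.IsBase d}, star (incS E (θ' (u d))) * incS E (θ' (u d))
      = incS E (θ' ((family K F.cut).p d.1)) := by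
    intro d
    rw [← map_star (incS E), ← map_star θ', ← map_mul, ← map_mul, hu2]
  have hv3 : ∀ d : {d // F.IsBase d}, (family K E).p (β d).1 * incS E (θ' (u d))
      = incS E (θ' (u d)) := by
    intro d
    rw [← hv1, mul_assoc, hv2, ← map_mul, ← map_mul, hu3]
  have hv4 : ∀ d : {d // F.IsBase d}, star (incS E (θ' (u d))) * (family K E).p (β d).1
      = star (incS E (θ' (u d))) := by
    intro d
    rw [← star_p, ← star_mul, hv3]
  obtain ⟨Θ, hΘ1, hΘ2⟩ := exists_glue_hom hE ((incS F).comp θ) X
    (fun b hb => by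
      have hd := (βe.symm ⟨b, hb⟩).2
      have hb' : β (βe.symm ⟨b, hb⟩) = ⟨b, hb⟩ := βe.apply_symm_apply _
      obtain ⟨g1, g2, g3⟩ := hXu (βe.symm ⟨b, hb⟩)
      rw [hX b hb, conj_mul_star g1 (by rw [star_x hF hd]; exact ((family K F).ext' hF).xy _ hd)
        (((family K F).ext' hF).xp hd) g3, g2, hb']
      rfl)
    (fun b hb => by
      have hd := (βe.symm ⟨b, hb⟩).2
      have hb' : β (βe.symm ⟨b, hb⟩) = ⟨b, hb⟩ := βe.apply_symm_apply _
      obtain ⟨g1, g2, g3⟩ := hXu (βe.symm ⟨b, hb⟩)
      rw [hX b hb, star_mul_conj g1 (by rw [star_x hF hd]; exact ((family K F).ext' hF).yx _ hd)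
        (((family K F).ext' hF).px _ hd) g3, g2, hb']
      rfl)
    (fun b hb => by
      have hb' : β (βe.symm ⟨b, hb⟩) = ⟨b, hb⟩ := βe.apply_symm_apply _
      obtain ⟨g1, g2, g3⟩ := hXu (βe.symm ⟨b, hb⟩)
      have g4 : (incS F).comp θ ((family K E.cut).p b)
          = incS F (u (βe.symm ⟨b, hb⟩)) * star (incS F (u (βe.symm ⟨b, hb⟩))) := by
        rw [g2, hb']; rfl
      rw [hX b hb, g4]
      calc _ = incS F (u (βe.symm ⟨b, hb⟩)) * (star (incS F (u (βe.symm ⟨b, hb⟩)))
            * incS F (u (βe.symm ⟨b, hb⟩))) * ((family K F).ext' hF).x (βe.symm ⟨b, hb⟩).1 *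
            star (incS F (u (βe.symm ⟨b, hb⟩))) := by noncomm_ring
        _ = _ := by rw [g1, g3])
  obtain ⟨Θ', hΘ3, hΘ4⟩ := exists_glue_hom hF ((incS E).comp θ') X'
    (fun d hd => by
      have hb := (β ⟨d, hd⟩).2
      rw [hX' d hd, conj_mul_star (q := (family K E).p (β ⟨d, hd⟩).1)
        (by rw [star_star]; exact hv1 ⟨d, hd⟩)
        (by rw [star_x hE hb]; exact ((family K E).ext' hE).xy _ hb)
        (((family K E).ext' hE).xp hb) (hv4 ⟨d, hd⟩), star_star, hv2]
      rfl)
    (fun d hd => by
      have hb := (β ⟨d, hd⟩).2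
      rw [hX' d hd, star_mul_conj (q := (family K E).p (β ⟨d, hd⟩).1)
        (by rw [star_star]; exact hv1 ⟨d, hd⟩)
        (by rw [star_x hE hb]; exact ((family K E).ext' hE).yx _ hb)
        (((family K E).ext' hE).px _ hb) (hv4 ⟨d, hd⟩), star_star, hv2]
      rfl)
    (fun d hd => by
      have g4 : (incS E).comp θ' ((family K F.cut).p d)
          = star (incS E (θ' (u ⟨d, hd⟩))) * incS E (θ' (u ⟨d, hd⟩)) := by
        rw [hv2]; rfl
      rw [hX' d hd, g4]
      calc _ = star (incS E (θ' (u ⟨d, hd⟩))) * (incS E (θ' (u ⟨d, hd⟩))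
            * star (incS E (θ' (u ⟨d, hd⟩)))) * ((family K E).ext' hE).x (β ⟨d, hd⟩).1 *
            star (star (incS E (θ' (u ⟨d, hd⟩)))) := by noncomm_ring
        _ = _ := by rw [hv1, hv4])
  refine ⟨Θ, Θ', ?_, ?_⟩
  · have h : (Θ' : LPA K F →ₙₐ[K] LPA K E).comp (Θ : LPA K E →ₙₐ[K] LPA K F)
        = NonUnitalAlgHom.id K _ := by
      apply hom_ext_cut hE
      · intro a
        show Θ' (Θ (inc K E a)) = inc K E a
        rw [hΘ1]
        show Θ' (inc K F (θ a)) = inc K E a
        rw [hΘ3]
        show inc K E (θ' (θ a)) = inc K E a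
        rw [hθl]
      · intro b hb
        show Θ' (Θ (((family K E).ext' hE).x b)) = ((family K E).ext' hE).x b
        have hb' : β (βe.symm ⟨b, hb⟩) = ⟨b, hb⟩ := βe.apply_symm_apply _
        have hd := (βe.symm ⟨b, hb⟩).2
        rw [hΘ2 b hb, hX b hb, map_mul, map_mul, map_star, hΘ4 _ hd, hX' _ hd, star_star]
        have e1 : Θ' (incS F (u (βe.symm ⟨b, hb⟩))) = incS E (θ' (u (βe.symm ⟨b, hb⟩))) :=
          hΘ3 _
        have e2 : (⟨(βe.symm ⟨b, hb⟩).1, hd⟩ : {d // F.IsBase d}) = βe.symm ⟨b, hb⟩ := rfl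
        rw [e1, e2, hb']
        have e3 := hv1 (βe.symm ⟨b, hb⟩)
        rw [hb'] at e3
        calc _ = (incS E (θ' (u (βe.symm ⟨b, hb⟩))) * star (incS E (θ' (u (βe.symm ⟨b, hb⟩)))))
              * ((family K E).ext' hE).x b * (incS E (θ' (u (βe.symm ⟨b, hb⟩))) *
              star (incS E (θ' (u (βe.symm ⟨b, hb⟩))))) := by noncomm_ring
          _ = _ := by
            rw [e3]
            have e4 : (family K E).p b * ((family K E).ext' hE).x b = ((family K E).ext' hE).x b :=
              ((family K E).ext' hE).px b hb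
            have e5 : ((family K E).ext' hE).x b * (family K E).p b = ((family K E).ext' hE).x b :=
              ((family K E).ext' hE).xp hb
            rw [e4, e5]
    exact fun a => DFunLike.congr_fun h a
  · have h : (Θ : LPA K E →ₙₐ[K] LPA K F).comp (Θ' : LPA K F →ₙₐ[K] LPA K E)
        = NonUnitalAlgHom.id K _ := by
      apply hom_ext_cut hF
      · intro a
        show Θ (Θ' (inc K F a)) = inc K F a
        rw [hΘ3]
        show Θ (inc K E (θ' a)) = inc K F a
        rw [hΘ1]
        show inc K F (θ (θ' a)) = inc K F a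
        rw [hθr]
      · intro d hd
        show Θ (Θ' (((family K F).ext' hF).x d)) = ((family K F).ext' hF).x d
        have hb := (β ⟨d, hd⟩).2
        rw [hΘ4 d hd, hX' d hd, map_mul, map_mul, map_star, map_star, map_star, star_star,
          hΘ2 _ hb, hX _ hb]
        have e1 : Θ (incS E (θ' (u ⟨d, hd⟩))) = incS F (u ⟨d, hd⟩) := by
          show Θ (inc K E (θ' (u ⟨d, hd⟩))) = _
          rw [hΘ1]
          show incS F (θ (θ' (u ⟨d, hd⟩))) = _
          rw [hθr]
        have e2 : βe.symm ⟨(β ⟨d, hd⟩).1, hb⟩ = ⟨d, hd⟩ := βe.symm_apply_apply ⟨d, hd⟩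
        rw [e1, e2]
        obtain ⟨g1, g2, g3⟩ := hXu ⟨d, hd⟩
        calc _ = (star (incS F (u ⟨d, hd⟩)) * incS F (u ⟨d, hd⟩))
              * ((family K F).ext' hF).x d * (star (incS F (u ⟨d, hd⟩)) *
              incS F (u ⟨d, hd⟩)) := by noncomm_ring
          _ = _ := by
            rw [g1]
            have e4 : (family K F).p d * ((family K F).ext' hF).x d = ((family K F).ext' hF).x d :=
              ((family K F).ext' hF).px d hd
            have e5 : ((family K F).ext' hF).x d * (family K F).p d = ((family K F).ext' hF).x d :=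
              ((family K F).ext' hF).xp hd
            show (family K F).p d * _ * (family K F).p d = _
            rw [e4, e5]
    exact fun a => DFunLike.congr_fun h a

end LPA

end Pool.Agent.Helper665_GA
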