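import Pool.Agent.Helper665_GA.ValidPaths

/-!
# The involution of the Leavitt path algebra over a field with involution (helper665)
-/

namespace Pool.Agent.Helper665_GA

open MulOpposite

/-- The opposite algebra; the scalar action is twisted by the involution of the field. -/
def TwOp (A : Type*) : Type _ := Aᵐᵒᵖ

namespace TwOp

variable {K : Type*} [Field K] [StarRing K] {A : Type*} [NonUnitalRing A] [Module K A]
  [IsScalarTower K A A] [SMulCommClass K A A]

instance : NonUnitalRing (TwOp A) := inferInstanceAs (NonUnitalRing Aᵐᵒᵖ)

/-- The identity map to the twisted opposite algebra. -/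
def mk (a : A) : TwOp A := op a

/-- The identity map from the twisted opposite algebra. -/
def un (a : TwOp A) : A := unop (α := A) a

omit [Module K A] [IsScalarTower K A A] [SMulCommClass K A A] in
theorem un_mk (a : A) : un (mk a) = a := rfl

noncomputable instance : Module K (TwOp A) := Module.compHom Aᵐᵒᵖ (starRingEnd K)

omit [IsScalarTower K A A] [SMulCommClass K A A] in
theorem un_smul (r : K) (x : TwOp A) : un (r • x) = star r • un x := rfl

theorem un_mul (x y : TwOp A) : un (x * y) = un y * un x := rfl

theorem un_add (x y : TwOp A) : un (x + y) = un x + un y := rfl

theorem un_zero : un (0 : TwOp A) = 0 := rfl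

theorem un_injective : Function.Injective (un (A := A)) := unop_injective

theorem un_sum {κ : Type*} (s : Finset κ) (f : κ → TwOp A) :
    un (∑ i ∈ s, f i) = ∑ i ∈ s, un (f i) := by
  classical
  induction s using Finset.induction_on with
  | empty => rfl
  | insert a s ha ih => rw [Finset.sum_insert ha, Finset.sum_insert ha, un_add, ih]

noncomputable instance : IsScalarTower K (TwOp A) (TwOp A) where
  smul_assoc r x y := by
    apply un_injective
    show un (r • x * y) = un (r • (x * y))
    rw [un_mul, un_smul, un_smul, un_mul, mul_smul_comm]

noncomputable instance : SMulCommClass K (TwOp A) (TwOp A) where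
  smul_comm r x y := by
    apply un_injective
    show un (r • (x * y)) = un (x * (r • y))
    rw [un_mul, un_smul, un_smul, un_mul, smul_mul_assoc]

end TwOp

namespace LPA

variable (K : Type*) [Field K] [StarRing K] (G : Graph)

/-- The family in the twisted opposite algebra. -/
noncomputable def opFamily : LeavittFamily G (TwOp (LPA K G)) where
  p v := TwOp.mk ((family K G).p v)
  s e := TwOp.mk ((family K G).t e)
  t e := TwOp.mk ((family K G).s e)
  p_mul_self v := TwOp.un_injective ((family K G).p_mul_self v)
  p_mul_of_ne v w h := TwOp.un_injective ((family K G).p_mul_of_ne w v h.symm)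
  src_mul e := TwOp.un_injective ((family K G).mul_src e)
  mul_rng e := TwOp.un_injective ((family K G).rng_mul e)
  rng_mul e := TwOp.un_injective ((family K G).mul_rng e)
  mul_src e := TwOp.un_injective ((family K G).src_mul e)
  ghost_mul_self e := TwOp.un_injective ((family K G).ghost_mul_self e)
  ghost_mul_of_ne e f h := TwOp.un_injective ((family K G).ghost_mul_of_ne f e h.symm)
  sum_eq v S hS h := TwOp.un_injective (by
    rw [TwOp.un_sum]
    exact (family K G).sum_eq v S hS h)

/-- The involution as a homomorphism to the twisted opposite algebra. -/
noncomputable def opHom : LPA K G →ₙₐ[K] TwOp (LPA K G) := lift (opFamily K G)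

variable {K G}

noncomputable instance : Star (LPA K G) := ⟨fun a => TwOp.un (opHom K G a)⟩

theorem star_def (a : LPA K G) : star a = TwOp.un (opHom K G a) := rfl

theorem star_p (v : G.V) : star ((family K G).p v) = (family K G).p v := by
  have h := congrFun (congrArg LeavittFamily.p (lift_family (K := K) (opFamily K G))) v
  exact congrArg TwOp.un h

theorem star_s (e : G.E) : star ((family K G).s e) = (family K G).t e := by
  have h := congrFun (congrArg LeavittFamily.s (lift_family (K := K) (opFamily K G))) e
  exact congrArg TwOp.un h

theorem star_t (e : G.E) : star ((family K G).t e) = (family K G).s e := by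
  have h := congrFun (congrArg LeavittFamily.t (lift_family (K := K) (opFamily K G))) e
  exact congrArg TwOp.un h

theorem star_add' (a b : LPA K G) : star (a + b) = star a + star b := by
  rw [star_def, map_add, TwOp.un_add]; rfl

theorem star_mul' (a b : LPA K G) : star (a * b) = star b * star a := by
  rw [star_def, map_mul, TwOp.un_mul]; rfl

theorem star_smul' (r : K) (a : LPA K G) : star (r • a) = star r • star a := by
  rw [star_def, map_smul, TwOp.un_smul]; rfl

theorem star_zero' : star (0 : LPA K G) = 0 := by
  rw [star_def, map_zero, TwOp.un_zero]

/-- The double involution. -/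
noncomputable def starStar : LPA K G →ₙₐ[K] LPA K G where
  toFun a := star (star a)
  map_smul' r a := by rw [star_smul', star_smul', star_star]; rfl
  map_zero' := by rw [star_zero', star_zero']
  map_add' a b := by rw [star_add', star_add']
  map_mul' a b := by rw [star_mul', star_mul']

theorem star_star' (a : LPA K G) : star (star a) = a := by
  have h : starStar = NonUnitalAlgHom.id K (LPA K G) := by
    apply hom_ext
    ext x
    · show star (star _) = _
      rw [star_p, star_p]; rfl
    · show star (star _) = _
      rw [star_s, star_t]; rfl
    · show star (star _) = _
      rw [star_t, star_s]; rfl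
  exact DFunLike.congr_fun h a

noncomputable instance : StarRing (LPA K G) where
  star_involutive := star_star'
  star_mul := star_mul'
  star_add := star_add'

noncomputable instance : StarModule K (LPA K G) where
  star_smul := star_smul'

/-- Star preserving homomorphisms are determined by the generators. -/
theorem map_star_of {A : Type*} [NonUnitalRing A] [StarRing A] [Module K A]
    [StarModule K A] (f : LPA K G →ₙₐ[K] A)
    (hp : ∀ v, star (f ((family K G).p v)) = f ((family K G).p v))
    (hs : ∀ e, star (f ((family K G).s e)) = f ((family K G).t e)) (a : LPA K G) :
    f (star a) = star (f a) := by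
  induction a using induction with
  | hgen x =>
    cases x with
    | vert v =>
      show f (star ((family K G).p v)) = star (f ((family K G).p v))
      rw [star_p, hp]
    | edge e =>
      show f (star ((family K G).s e)) = star (f ((family K G).s e))
      rw [star_s, hs]
    | ghost e =>
      show f (star ((family K G).t e)) = star (f ((family K G).t e))
      rw [star_t, ← hs, star_star]
  | hadd a b ha hb => rw [star_add, map_add, map_add, star_add, ha, hb]
  | hzero => rw [star_zero, map_zero, star_zero]
  | hmul a b ha hb => rw [star_mul, map_mul, map_mul, star_mul, ha, hb]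
  | hsmul r a ha => rw [star_smul, map_smul, map_smul, star_smul, ha]

theorem star_sp (l : List G.E) (v : G.V) : star (sp K G l v) = tp K G l v := by
  induction l with
  | nil => exact star_p v
  | cons e l ih =>
    show star ((family K G).s e * sp K G l v) = tp K G l v * (family K G).t e
    rw [star_mul, ih, star_s]

theorem star_tp (l : List G.E) (v : G.V) : star (tp K G l v) = sp K G l v := by
  rw [← star_sp, star_star]

theorem star_qv (E0 : Finset G.E) (v : G.V) :
    star ((family K G).qv E0 v) = (family K G).qv E0 v := by
  rw [LeavittFamily.qv, star_sub, star_p, star_sum]
  congr 1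
  apply Finset.sum_congr rfl
  intro e _
  rw [star_mul, star_s, star_t]

end LPA

end Pool.Agent.Helper665_GA
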