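import Pool.Agent.Helper665_GA.L2

/-!
# The involution of the complex Leavitt path algebra (helper665)
-/

namespace Pool.Agent.Helper665_GA

namespace LPA

variable {G : Graph}

theorem exists_star_can (a : LPA ℂ G) : ∃ b, CStar.can G b = star (CStar.can G a) := by
  obtain ⟨b, hb⟩ := CModel.exists_star a
  exact ⟨b, hb (CStar G) (CStar.family G)⟩

noncomputable instance : Star (LPA ℂ G) := ⟨fun a => (exists_star_can a).choose⟩

theorem can_star (a : LPA ℂ G) : CStar.can G (star a) = star (CStar.can G a) :=
  (exists_star_can a).choose_spec

theorem star_eq_of {a b : LPA ℂ G} (h : CStar.can G b = star (CStar.can G a)) : star a = b :=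
  CStar.can_injective (by rw [can_star, h])

noncomputable instance : StarRing (LPA ℂ G) where
  star_involutive a := star_eq_of (by rw [can_star, star_star])
  star_mul a b := star_eq_of (by rw [map_mul, map_mul, can_star, can_star, star_mul])
  star_add a b := star_eq_of (by rw [map_add, map_add, can_star, can_star, star_add])

instance : StarModule ℂ (LPA ℂ G) where
  star_smul r a := star_eq_of (by rw [map_smul, map_smul, can_star, star_smul])

/-- The canonical star homomorphism to the graph C*-algebra. -/
noncomputable def scan (G : Graph) : LPA ℂ G →⋆ₙₐ[ℂ] CStar G :=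
  { CStar.can G with map_star' := can_star }

theorem scan_apply (a : LPA ℂ G) : scan G a = CStar.can G a := rfl

theorem scan_injective : Function.Injective (scan G) := CStar.can_injective

theorem star_p (v : G.V) : star ((family ℂ G).p v) = (family ℂ G).p v := by
  apply star_eq_of
  have : CStar.can G ((family ℂ G).p v) = (CStar.family G).p v := CStar.can_gen G (Gen.vert v)
  rw [this, (CStar.family G).p_star]

theorem star_s (e : G.E) : star ((family ℂ G).s e) = (family ℂ G).t e := by
  apply star_eq_of
  have h1 : CStar.can G ((family ℂ G).s e) = (CStar.family G).s e :=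
    CStar.can_gen G (Gen.edge e)
  have h2 : CStar.can G ((family ℂ G).t e) = star ((CStar.family G).s e) :=
    CStar.can_gen G (Gen.ghost e)
  rw [h1, h2]

theorem star_t (e : G.E) : star ((family ℂ G).t e) = (family ℂ G).s e := by
  rw [← star_s, star_star]

/-- Star preserving homomorphisms are determined by the generators. -/
theorem map_star_of {A : Type*} [NonUnitalRing A] [StarRing A] [Module ℂ A] [IsScalarTower ℂ A A]
    [SMulCommClass ℂ A A] [StarModule ℂ A] (f : LPA ℂ G →ₙₐ[ℂ] A)
    (hp : ∀ v, star (f ((family ℂ G).p v)) = f ((family ℂ G).p v))
    (hs : ∀ e, star (f ((family ℂ G).s e)) = f ((family ℂ G).t e)) (a : LPA ℂ G) :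
    f (star a) = star (f a) := by
  induction a using induction with
  | hgen x =>
    cases x with
    | vert v =>
      show f (star ((family ℂ G).p v)) = star (f ((family ℂ G).p v))
      rw [star_p, hp]
    | edge e =>
      show f (star ((family ℂ G).s e)) = star (f ((family ℂ G).s e))
      rw [star_s, hs]
    | ghost e =>
      show f (star ((family ℂ G).t e)) = star (f ((family ℂ G).t e))
      rw [star_t, ← hs, star_star]
  | hadd a b ha hb => rw [star_add, map_add, map_add, star_add, ha, hb]
  | hzero => rw [star_zero, map_zero, star_zero]
  | hmul a b ha hb => rw [star_mul, map_mul, map_mul, star_mul, ha, hb]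
  | hsmul r a ha => rw [star_smul, map_smul, map_smul, star_smul, ha]

end LPA

end Pool.Agent.Helper665_GA
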