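import Pool.Agent.Helper665_GA.Rank

/-!
# Directed families of systems of matrix units (helper665)
-/

namespace Pool.Agent.Helper665_GA

set_option linter.unusedSectionVars false

variable (K : Type*) [Field K] [StarRing K] (A : Type*) [NonUnitalRing A] [StarRing A] [Module K A]
  [IsScalarTower K A A] [SMulCommClass K A A] [StarModule K A]

/-- A directed exhausting family of systems of matrix units. -/
structure StdData where
  /-- the index set -/
  Sys : Type
  /-- the systems -/
  T : Sys → MU A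
  ne : Nonempty Sys
  dir : ∀ (F : Finset A) (s t : Sys), ∃ r, (∀ a ∈ F, a ∈ (T r).alg K) ∧
    (∀ x, (T s).IsStd x → (T r).IsStd x) ∧ (∀ x, (T t).IsStd x → (T r).IsStd x)

variable {K A}

namespace StdData

variable (D : StdData K A)

/-- The standard partial isometries. -/
def S : Set A := {x | ∃ s, (D.T s).IsStd x}

theorem big (F F' : Finset A) (hF' : ∀ x ∈ F', x ∈ D.S) :
    ∃ r, (∀ a ∈ F, a ∈ (D.T r).alg K) ∧ ∀ x ∈ F', (D.T r).IsStd x := by
  classical
  induction F' using Finset.induction_on with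
  | empty =>
    obtain ⟨s⟩ := D.ne
    obtain ⟨r, h1, -, -⟩ := D.dir F s s
    exact ⟨r, h1, fun x hx => absurd hx (Finset.notMem_empty x)⟩
  | insert y F' _ ih =>
    obtain ⟨r, h1, h2⟩ := ih fun x hx => hF' x (Finset.mem_insert_of_mem hx)
    obtain ⟨s, hs⟩ := hF' y (Finset.mem_insert_self _ _)
    obtain ⟨t, h3, h4, h5⟩ := D.dir F r s
    refine ⟨t, h3, fun x hx => ?_⟩
    rw [Finset.mem_insert] at hx
    rcases hx with rfl | hx
    · exact h5 _ hs
    · exact h4 _ (h2 x hx)

theorem big2 {x y : A} (hx : x ∈ D.S) (hy : y ∈ D.S) (F : Finset A) :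
    ∃ r, (∀ a ∈ F, a ∈ (D.T r).alg K) ∧ (D.T r).IsStd x ∧ (D.T r).IsStd y := by
  classical
  obtain ⟨r, h1, h2⟩ := D.big F {x, y} (by
    intro z hz
    rw [Finset.mem_insert, Finset.mem_singleton] at hz
    rcases hz with rfl | rfl
    · exact hx
    · exact hy)
  exact ⟨r, h1, h2 x (by simp), h2 y (by simp)⟩

theorem mul_mem {x y : A} (hx : x ∈ D.S) (hy : y ∈ D.S) : x * y ∈ D.S := by
  obtain ⟨r, -, h1, h2⟩ := D.big2 hx hy ∅
  exact ⟨r, (D.T r).isStd_mul h1 h2⟩

theorem star_mem {x : A} (hx : x ∈ D.S) : star x ∈ D.S := by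
  obtain ⟨r, h1⟩ := hx
  exact ⟨r, (D.T r).isStd_star h1⟩

theorem zero_mem : (0 : A) ∈ D.S := by
  obtain ⟨s⟩ := D.ne
  exact ⟨s, ∅, id, by simp, by simp, by simp⟩

theorem add_mem {x y : A} (hx : x ∈ D.S) (hy : y ∈ D.S) (h1 : star x * y = 0)
    (h2 : x * star y = 0) : x + y ∈ D.S := by
  obtain ⟨r, -, h3, h4⟩ := D.big2 hx hy ∅
  exact ⟨r, (D.T r).isStd_add h3 h4 h1 h2⟩

theorem pi {x : A} (hx : x ∈ D.S) : x * star x * x = x := by
  obtain ⟨r, h1⟩ := hx
  exact (D.T r).isStd_pi h1

theorem sum_mem {κ : Type*} (s : Finset κ) (g : κ → A) (h : ∀ i ∈ s, g i ∈ D.S)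
    (h1 : ∀ i ∈ s, ∀ j ∈ s, i ≠ j → star (g i) * g j = 0)
    (h2 : ∀ i ∈ s, ∀ j ∈ s, i ≠ j → g i * star (g j) = 0) : ∑ i ∈ s, g i ∈ D.S := by
  classical
  induction s using Finset.induction_on with
  | empty => rw [Finset.sum_empty]; exact D.zero_mem
  | insert a s ha ih =>
    rw [Finset.sum_insert ha]
    have hne : ∀ j ∈ s, a ≠ j := by
      rintro j hj rfl
      exact ha hj
    apply D.add_mem (h a (Finset.mem_insert_self _ _))
    · exact ih (fun i hi => h i (Finset.mem_insert_of_mem hi))
        (fun i hi j hj => h1 i (Finset.mem_insert_of_mem hi) j (Finset.mem_insert_of_mem hj))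
        (fun i hi j hj => h2 i (Finset.mem_insert_of_mem hi) j (Finset.mem_insert_of_mem hj))
    · rw [Finset.mul_sum]
      exact Finset.sum_eq_zero fun j hj => h1 a (Finset.mem_insert_self _ _) j
        (Finset.mem_insert_of_mem hj) (hne j hj)
    · rw [star_sum, Finset.mul_sum]
      exact Finset.sum_eq_zero fun j hj => h2 a (Finset.mem_insert_self _ _) j
        (Finset.mem_insert_of_mem hj) (hne j hj)

theorem star_idem {f : A} (hf : f ∈ D.S) (h : f * f = f) : star f = f := by
  obtain ⟨r, h1⟩ := hf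
  obtain ⟨E, rfl⟩ := (D.T r).isStd_idem h1 h
  exact (D.T r).star_diag E

/-- Equivalent standard projections are equivalent by a standard partial isometry. -/
theorem exists_equiv {f g : A} (hf : f ∈ D.S) (hg : g ∈ D.S) (hff : f * f = f) (hgg : g * g = g)
    (h : IEq f g) : ∃ s ∈ D.S, s * star s = f ∧ star s * s = g := by
  classical
  obtain ⟨x, y, h1, h2⟩ := h
  obtain ⟨r, h3, h4, h5⟩ := D.big2 hf hg {x, y}
  obtain ⟨E, rfl⟩ := (D.T r).isStd_idem h4 hff
  obtain ⟨E', rfl⟩ := (D.T r).isStd_idem h5 hgg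
  obtain ⟨s, h6, h7, h8⟩ := (D.T r).exists_std_of_IEq K (h3 x (by simp)) (h3 y (by simp)) h1 h2
  exact ⟨s, ⟨r, h6⟩, h7, h8⟩

/-- Room for a further idempotent. -/
theorem exists_room {f p p1 : A} (hf : f ∈ D.S) (hff : f * f = f) (hp : p * p = p)
    (hp1 : p1 * p1 = p1) (h0 : p * p1 = 0) (h : IEq f p) :
    ∃ g ∈ D.S, g * g = g ∧ f * g = 0 ∧ g * f = 0 ∧ IEq g p1 := by
  classical
  obtain ⟨x, y, h1, h2⟩ := h
  obtain ⟨r, h3, h4, -⟩ := D.big2 hf hf {x, y, p, p1}
  obtain ⟨E, rfl⟩ := (D.T r).isStd_idem h4 hff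
  obtain ⟨G, h5, h6⟩ := (D.T r).exists_room K (h3 p (by simp)) (h3 p1 (by simp)) (h3 x (by simp))
    (h3 y (by simp)) hp hp1 h0 h1 h2
  exact ⟨(D.T r).diag G, ⟨r, (D.T r).isStd_diag G⟩, (D.T r).diag_mul_self G,
    (D.T r).diag_disjoint h5, (D.T r).diag_disjoint h5.symm, h6⟩

/-- Orthogonal families of standard projections. -/
theorem exists_family {κ : Type*} (s : Finset κ) (p : κ → A) (hp : ∀ i ∈ s, p i * p i = p i)
    (hpo : ∀ i ∈ s, ∀ j ∈ s, i ≠ j → p i * p j = 0) :
    ∃ g : κ → A, ∀ i ∈ s, g i ∈ D.S ∧ g i * g i = g i ∧ IEq (g i) (p i) ∧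
      ∀ j ∈ s, i ≠ j → g i * g j = 0 := by
  classical
  induction s using Finset.induction_on with
  | empty => exact ⟨fun _ => 0, fun i hi => absurd hi (Finset.notMem_empty i)⟩
  | insert a s ha ih =>
    obtain ⟨g, hg⟩ := ih (fun i hi => hp i (Finset.mem_insert_of_mem hi))
      (fun i hi j hj => hpo i (Finset.mem_insert_of_mem hi) j (Finset.mem_insert_of_mem hj))
    have hne : ∀ j ∈ s, a ≠ j := by
      rintro j hj rfl
      exact ha hj
    have hstar : ∀ i ∈ s, star (g i) = g i := fun i hi => D.star_idem (hg i hi).1 (hg i hi).2.1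
    have hsum : ∑ i ∈ s, g i ∈ D.S := by
      apply D.sum_mem s g (fun i hi => (hg i hi).1)
      · intro i hi j hj h
        rw [hstar i hi]; exact (hg i hi).2.2.2 j hj h
      · intro i hi j hj h
        rw [hstar j hj]; exact (hg i hi).2.2.2 j hj h
    have hid : ∀ (q : κ → A), (∀ i ∈ s, q i * q i = q i) → (∀ i ∈ s, ∀ j ∈ s, i ≠ j → q i * q j = 0) →
        (∑ i ∈ s, q i) * (∑ i ∈ s, q i) = ∑ i ∈ s, q i := by
      intro q h1 h2
      rw [Finset.sum_mul]
      apply Finset.sum_congr rfl
      intro i hi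
      rw [Finset.mul_sum, Finset.sum_eq_single_of_mem i hi]
      · exact h1 i hi
      · exact fun j hj hji => h2 i hi j hj hji.symm
    have hgg := hid g (fun i hi => (hg i hi).2.1) (fun i hi j hj h => (hg i hi).2.2.2 j hj h)
    have hpp := hid p (fun i hi => hp i (Finset.mem_insert_of_mem hi))
      (fun i hi j hj => hpo i (Finset.mem_insert_of_mem hi) j (Finset.mem_insert_of_mem hj))
    obtain ⟨ga, k1, k2, k3, k4, k5⟩ := D.exists_room hsum hgg hpp (hp a (Finset.mem_insert_self _ _))
      (by
        rw [Finset.sum_mul]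
        exact Finset.sum_eq_zero fun j hj => hpo j (Finset.mem_insert_of_mem hj) a
          (Finset.mem_insert_self _ _) (hne j hj).symm)
      (IEq.sum s g p (fun i hi => (hg i hi).2.1)
        (fun i hi => hp i (Finset.mem_insert_of_mem hi))
        (fun i hi j hj h => (hg i hi).2.2.2 j hj h)
        (fun i hi j hj => hpo i (Finset.mem_insert_of_mem hi) j (Finset.mem_insert_of_mem hj))
        (fun i hi => (hg i hi).2.2.1))
    have hgs : ∀ i ∈ s, g i = (∑ j ∈ s, g j) * g i ∧ g i = g i * ∑ j ∈ s, g j := by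
      intro i hi
      constructor
      · rw [Finset.sum_mul, Finset.sum_eq_single_of_mem i hi]
        · exact (hg i hi).2.1.symm
        · exact fun j hj hji => (hg j hj).2.2.2 i hi hji
      · rw [Finset.mul_sum, Finset.sum_eq_single_of_mem i hi]
        · exact (hg i hi).2.1.symm
        · exact fun j hj hji => (hg i hi).2.2.2 j hj hji.symm
    refine ⟨Function.update g a ga, ?_⟩
    have hu : ∀ i ∈ s, Function.update g a ga i = g i := fun i hi =>
      Function.update_of_ne (hne i hi).symm _ _
    intro i hi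
    rw [Finset.mem_insert] at hi
    rcases hi with rfl | hi
    · rw [Function.update_self]
      refine ⟨k1, k2, k5, fun j hj hij => ?_⟩
      rw [Finset.mem_insert] at hj
      rcases hj with rfl | hj
      · exact absurd rfl hij
      · rw [hu j hj, (hgs j hj).1, ← mul_assoc, k4, zero_mul]
    · rw [hu i hi]
      refine ⟨(hg i hi).1, (hg i hi).2.1, (hg i hi).2.2.1, fun j hj hij => ?_⟩
      rw [Finset.mem_insert] at hj
      rcases hj with rfl | hj
      · rw [Function.update_self, (hgs i hi).2, mul_assoc, k3, mul_zero]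
      · rw [hu j hj]
        exact (hg i hi).2.2.2 j hj hij

end StdData

theorem exists_ref {ι W : Type*} (blk : ι → W) :
    ∃ ρ : ι → ι, (∀ i, blk (ρ i) = blk i) ∧ ∀ i j, blk i = blk j → ρ i = ρ j := by
  classical
  let g := Function.surjInv (Set.rangeFactorization_surjective (f := blk))
  have hg : ∀ x, Set.rangeFactorization blk (g x) = x := Function.surjInv_eq _
  refine ⟨fun i => g (Set.rangeFactorization blk i), fun i => ?_, fun i j h => ?_⟩
  · exact congrArg Subtype.val (hg (Set.rangeFactorization blk i))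
  · have : Set.rangeFactorization blk i = Set.rangeFactorization blk j := Subtype.ext h
    show g _ = g _
    rw [this]

/-- Equivalence with zero. -/
theorem IEq.eq_zero {A : Type*} [NonUnitalRing A] {p q : A} (h : IEq p q) (hp : p = 0)
    (hq : q * q = q) : q = 0 := by
  obtain ⟨x, y, h1, h2⟩ := h
  rw [← hq, ← h2]
  calc y * x * (y * x) = y * (x * y) * x := by noncomm_ring
    _ = 0 := by rw [h1, hp, mul_zero, zero_mul]

/-- A system of standard matrix units with given equivalence classes. -/
theorem StdData.exists_system {B : Type*} [NonUnitalRing B] [StarRing B] [Module K B]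
    [IsScalarTower K B B] [SMulCommClass K B B] [StarModule K B] (D : StdData K B) (M : MU A)
    (φ : A →ₙₐ[K] B) :
    ∃ P : MU (A × B), ∃ f : M.ι ≃ P.ι, (∀ i j, (P.m (f i) (f j)).1 = M.m i j) ∧
      (∀ i j, P.blk (f i) = P.blk (f j) ↔ M.blk i = M.blk j) ∧
      (∀ i j, (P.m i j).2 ∈ D.S) ∧ ∀ i, IEq (φ (P.m i i).1) (P.m i i).2 := by
  classical
  have hMi : ∀ i, M.m i i * M.m i i = M.m i i := fun i => M.mul_eq i i i rfl rfl
  obtain ⟨g, hg⟩ := D.exists_family Finset.univ (fun i => φ (M.m i i))
    (fun i _ => by rw [← map_mul, hMi])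
    (fun i _ j _ h => by rw [← map_mul, M.mul_ne _ _ _ _ h, map_zero])
  have hg1 : ∀ i, g i ∈ D.S := fun i => (hg i (Finset.mem_univ i)).1
  have hg2 : ∀ i, g i * g i = g i := fun i => (hg i (Finset.mem_univ i)).2.1
  have hg3 : ∀ i, IEq (g i) (φ (M.m i i)) := fun i => (hg i (Finset.mem_univ i)).2.2.1
  have hg4 : ∀ i j, i ≠ j → g i * g j = 0 := fun i j h =>
    (hg i (Finset.mem_univ i)).2.2.2 j (Finset.mem_univ j) h
  obtain ⟨ρ, hρ1, hρ2⟩ := exists_ref M.blk
  have hφi : ∀ i, φ (M.m i i) * φ (M.m i i) = φ (M.m i i) := fun i => by rw [← map_mul, hMi]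
  have hs : ∀ i, ∃ s ∈ D.S, s * star s = g i ∧ star s * s = g (ρ i) := by
    intro i
    apply D.exists_equiv (hg1 i) (hg1 _) (hg2 i) (hg2 _)
    have h1 : IEq (φ (M.m i i)) (φ (M.m (ρ i) (ρ i))) :=
      ⟨φ (M.m i (ρ i)), φ (M.m (ρ i) i), by rw [← map_mul, M.mul_eq _ _ _ (hρ1 i).symm (hρ1 i)],
        by rw [← map_mul, M.mul_eq _ _ _ (hρ1 i) (hρ1 i).symm]⟩
    exact (hg3 i).trans (hg2 i) (hg2 _) (h1.trans (hφi i) (hg2 _) (hg3 (ρ i)).symm)
  choose s hs1 hs2 hs3 using hs
  have hsp : ∀ i, s i * g (ρ i) = s i := by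
    intro i
    rw [← hs3, ← mul_assoc, D.pi (hs1 i)]
  have hgs : ∀ i, g i * s i = s i := by
    intro i
    rw [← hs2, D.pi (hs1 i)]
  have hstar : ∀ i, star (g i) = g i := fun i => D.star_idem (hg1 i) (hg2 i)
  have hsg : ∀ i, star (s i) * g i = star (s i) := by
    intro i
    rw [← hstar, ← star_mul, hgs]
  refine ⟨{ ι := M.ι
            W := M.W
            blk := M.blk
            m := fun i j => (M.m i j, if M.blk i = M.blk j then s i * star (s j) else 0)
            off := fun i j h => by rw [M.off i j h, if_neg h]; rfl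
            mul_ne := fun i j k l h => by
              show (M.m i j * M.m k l, _ * _) = _
              rw [M.mul_ne i j k l h]
              have h1 : s i * star (s j) * (s k * star (s l)) = 0 := by
                calc s i * star (s j) * (s k * star (s l))
                    = s i * (star (s j) * g j) * (g k * s k) * star (s l) := by
                      rw [hsg, hgs]; noncomm_ring
                  _ = s i * star (s j) * (g j * g k) * s k * star (s l) := by noncomm_ring
                  _ = 0 := by rw [hg4 j k h, mul_zero, zero_mul, zero_mul]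
              split_ifs
              · rw [h1]; rfl
              · rw [mul_zero]; rfl
              · rw [zero_mul]; rfl
              · rw [mul_zero]; rfl
            mul_eq := fun i j k h1 h2 => by
              show (M.m i j * M.m j k, _ * _) = _
              rw [M.mul_eq i j k h1 h2, if_pos h1, if_pos h2, if_pos (h1.trans h2)]
              have h3 : s i * star (s j) * (s j * star (s k)) = s i * star (s k) := by
                calc s i * star (s j) * (s j * star (s k))
                    = s i * (star (s j) * s j) * star (s k) := by noncomm_ring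
                  _ = _ := by rw [hs3, hρ2 j i h1.symm, hsp]
              rw [h3]
            star_m := fun i j => by
              show (star (M.m i j), star _) = _
              rw [M.star_m]
              by_cases h : M.blk i = M.blk j
              · rw [if_pos h, if_pos h.symm, star_mul, star_star]
              · rw [if_neg h, if_neg (fun h' => h h'.symm), star_zero]
            ne_zero := fun i h => M.ne_zero i (congrArg Prod.fst h) }, Equiv.refl _,
    fun i j => rfl, fun i j => Iff.rfl, fun i j => ?_, fun i => ?_⟩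
  · show (if M.blk i = M.blk j then s i * star (s j) else 0) ∈ D.S
    split_ifs
    · exact D.mul_mem (hs1 i) (D.star_mem (hs1 j))
    · exact D.zero_mem
  · show IEq (φ (M.m i i)) (if M.blk i = M.blk i then s i * star (s i) else 0)
    rw [if_pos rfl, hs2]
    exact (hg3 i).symm

end Pool.Agent.Helper665_GA
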