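import Pool.Agent.Helper665_GA.Defs
import Pool.Agent.Helper665_GA.GS

/-!
# Straightening the vertices and the edges of a Leavitt family (helper665)
-/

namespace Pool.Agent.Helper665_GA

namespace LeavittFamily

variable {G : Graph} {B : Type*} [CStarAlgebra B] (cv : G.V → ℕ) (ce : G.E → ℕ)

/-- the sequence of the vertex idempotents -/
noncomputable def vseq (X : LeavittFamily G B) : ℕ → B := Function.extend cv X.p 0

variable {cv}

theorem vseq_apply (hcv : Function.Injective cv) (X : LeavittFamily G B) (v : G.V) :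
    vseq cv X (cv v) = X.p v := hcv.extend_apply _ _ _

theorem vseq_orth (hcv : Function.Injective cv) (X : LeavittFamily G B) :
    OrthIdem (vseq cv X) := by
  constructor
  · intro i
    by_cases h : ∃ v, cv v = i
    · obtain ⟨v, rfl⟩ := h
      rw [vseq_apply hcv, X.p_mul_self]
    · rw [vseq, Function.extend_apply' _ _ _ h]; simp
  · intro i j hij
    by_cases h : ∃ v, cv v = i
    · by_cases h' : ∃ v, cv v = j
      · obtain ⟨v, rfl⟩ := h
        obtain ⟨w, rfl⟩ := h'
        rw [vseq_apply hcv, vseq_apply hcv]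
        exact X.p_mul_of_ne v w fun h => hij (by rw [h])
      · rw [vseq, Function.extend_apply' _ _ _ h']; simp
    · rw [vseq, Function.extend_apply' _ _ _ h]; simp

/-- Straightening of the vertices. -/
noncomputable def stepV (hcv : Function.Injective cv) (τ : B) (hτ : ∀ b : B, τ * b = b * τ)
    (X : LeavittFamily G B) : LeavittFamily G B where
  p v := ga τ (vseq cv X) (cv v) * gb τ (vseq cv X) (cv v)
  s e := ga τ (vseq cv X) (cv (G.src e)) * X.s e * gb τ (vseq cv X) (cv (G.rng e))
  t e := ga τ (vseq cv X) (cv (G.rng e)) * X.t e * gb τ (vseq cv X) (cv (G.src e))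
  p_mul_self v := by
    have h1 := gb_ga_self (vseq_orth hcv X) hτ (cv v)
    have h2 := ga_mul (τ := τ) (vseq_orth hcv X) (cv v)
    calc ga τ (vseq cv X) (cv v) * gb τ (vseq cv X) (cv v)
          * (ga τ (vseq cv X) (cv v) * gb τ (vseq cv X) (cv v))
        = ga τ (vseq cv X) (cv v) * (gb τ (vseq cv X) (cv v) * ga τ (vseq cv X) (cv v))
          * gb τ (vseq cv X) (cv v) := by noncomm_ring
      _ = _ := by rw [h1, h2]
  p_mul_of_ne v w hvw := by
    have h1 := gb_ga_ne (vseq_orth hcv X) hτ (cv v) (cv w) fun h => hvw (hcv h)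
    calc ga τ (vseq cv X) (cv v) * gb τ (vseq cv X) (cv v)
          * (ga τ (vseq cv X) (cv w) * gb τ (vseq cv X) (cv w))
        = ga τ (vseq cv X) (cv v) * (gb τ (vseq cv X) (cv v) * ga τ (vseq cv X) (cv w))
          * gb τ (vseq cv X) (cv w) := by noncomm_ring
      _ = _ := by rw [h1]; simp
  src_mul e := by
    have h1 := gb_ga_self (vseq_orth hcv X) hτ (cv (G.src e))
    have h2 := ga_mul (τ := τ) (vseq_orth hcv X) (cv (G.src e))
    calc _ = ga τ (vseq cv X) (cv (G.src e)) * (gb τ (vseq cv X) (cv (G.src e))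
          * ga τ (vseq cv X) (cv (G.src e))) * X.s e * gb τ (vseq cv X) (cv (G.rng e)) := by
            noncomm_ring
      _ = _ := by rw [h1, h2]
  mul_rng e := by
    have h1 := gb_ga_self (vseq_orth hcv X) hτ (cv (G.rng e))
    have h2 := mul_gb (τ := τ) (vseq_orth hcv X) (cv (G.rng e))
    calc _ = ga τ (vseq cv X) (cv (G.src e)) * X.s e * ((gb τ (vseq cv X) (cv (G.rng e))
          * ga τ (vseq cv X) (cv (G.rng e))) * gb τ (vseq cv X) (cv (G.rng e))) := by
            noncomm_ring
      _ = _ := by rw [h1, h2]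
  rng_mul e := by
    have h1 := gb_ga_self (vseq_orth hcv X) hτ (cv (G.rng e))
    have h2 := ga_mul (τ := τ) (vseq_orth hcv X) (cv (G.rng e))
    calc _ = ga τ (vseq cv X) (cv (G.rng e)) * (gb τ (vseq cv X) (cv (G.rng e))
          * ga τ (vseq cv X) (cv (G.rng e))) * X.t e * gb τ (vseq cv X) (cv (G.src e)) := by
            noncomm_ring
      _ = _ := by rw [h1, h2]
  mul_src e := by
    have h1 := gb_ga_self (vseq_orth hcv X) hτ (cv (G.src e))
    have h2 := mul_gb (τ := τ) (vseq_orth hcv X) (cv (G.src e))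
    calc _ = ga τ (vseq cv X) (cv (G.rng e)) * X.t e * ((gb τ (vseq cv X) (cv (G.src e))
          * ga τ (vseq cv X) (cv (G.src e))) * gb τ (vseq cv X) (cv (G.src e))) := by
            noncomm_ring
      _ = _ := by rw [h1, h2]
  ghost_mul_self e := by
    have h1 := gb_ga_self (vseq_orth hcv X) hτ (cv (G.src e))
    have h2 := ga_mul (τ := τ) (vseq_orth hcv X) (cv (G.rng e))
    rw [vseq_apply hcv] at h1 h2
    calc _ = ga τ (vseq cv X) (cv (G.rng e)) * (X.t e * (gb τ (vseq cv X) (cv (G.src e))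
          * ga τ (vseq cv X) (cv (G.src e))) * X.s e) * gb τ (vseq cv X) (cv (G.rng e)) := by
            noncomm_ring
      _ = _ := by rw [h1, X.mul_src, X.ghost_mul_self, h2]
  ghost_mul_of_ne e f hef := by
    by_cases hs : G.src e = G.src f
    · have h1 := gb_ga_self (vseq_orth hcv X) hτ (cv (G.src e))
      rw [vseq_apply hcv] at h1
      calc _ = ga τ (vseq cv X) (cv (G.rng e)) * (X.t e * (gb τ (vseq cv X) (cv (G.src e))
            * ga τ (vseq cv X) (cv (G.src e))) * X.s f) * gb τ (vseq cv X) (cv (G.rng f)) := by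
              rw [← hs]; noncomm_ring
        _ = _ := by rw [h1, X.mul_src, X.ghost_mul_of_ne e f hef]; simp
    · have h1 := gb_ga_ne (vseq_orth hcv X) hτ (cv (G.src e)) (cv (G.src f)) fun h => hs (hcv h)
      calc _ = ga τ (vseq cv X) (cv (G.rng e)) * (X.t e * (gb τ (vseq cv X) (cv (G.src e))
            * ga τ (vseq cv X) (cv (G.src f))) * X.s f) * gb τ (vseq cv X) (cv (G.rng f)) := by
              noncomm_ring
        _ = _ := by rw [h1]; simp
  sum_eq v S hS h := by
    have h2 := ga_mul (τ := τ) (vseq_orth hcv X) (cv v)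
    rw [vseq_apply hcv] at h2
    have : ∀ e ∈ S, ga τ (vseq cv X) (cv (G.src e)) * X.s e * gb τ (vseq cv X) (cv (G.rng e))
        * (ga τ (vseq cv X) (cv (G.rng e)) * X.t e * gb τ (vseq cv X) (cv (G.src e)))
        = ga τ (vseq cv X) (cv v) * (X.s e * X.t e) * gb τ (vseq cv X) (cv v) := by
      intro e he
      have h1 := gb_ga_self (vseq_orth hcv X) hτ (cv (G.rng e))
      rw [vseq_apply hcv] at h1
      rw [(h e).1 he]
      calc _ = ga τ (vseq cv X) (cv v) * (X.s e * (gb τ (vseq cv X) (cv (G.rng e))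
            * ga τ (vseq cv X) (cv (G.rng e))) * X.t e) * gb τ (vseq cv X) (cv v) := by
              noncomm_ring
        _ = _ := by rw [h1, X.mul_rng]
    rw [Finset.sum_congr rfl this, ← Finset.sum_mul, ← Finset.mul_sum, X.sum_eq v S hS h, h2]

theorem stepV_map {C : Type*} [CStarAlgebra C] (f : B →⋆ₐ[ℂ] C) (hcv : Function.Injective cv)
    (τ : B) (hτ : ∀ b : B, τ * b = b * τ) (hτ' : ∀ b : C, f τ * b = b * f τ)
    (X : LeavittFamily G B) :
    (stepV hcv τ hτ X).map f = stepV hcv (f τ) hτ' (X.map f) := by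
  have hv : vseq cv (X.map f) = fun i => f (vseq cv X i) := by
    funext i
    by_cases h : ∃ v, cv v = i
    · obtain ⟨v, rfl⟩ := h
      rw [vseq_apply hcv, vseq_apply hcv]; rfl
    · rw [vseq, vseq, Function.extend_apply' _ _ _ h, Function.extend_apply' _ _ _ h]; simp
  have ha := ga_map f (vseq_orth hcv X) hτ
  have hb := gb_map f (vseq_orth hcv X) hτ
  ext
  · simp only [map_p, stepV, hv, map_mul, ha, hb]
  · simp only [map_s, stepV, hv, map_mul, ha, hb]
  · simp only [map_t, stepV, hv, map_mul, ha, hb]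

theorem stepV_zero (hcv : Function.Injective cv) (hτ : ∀ b : B, (0 : B) * b = b * 0)
    (X : LeavittFamily G B) : stepV hcv 0 hτ X = X := by
  ext v
  · simp only [stepV, ga_zero, gb_zero, vseq_apply hcv, X.p_mul_self]
  · simp only [stepV, ga_zero, gb_zero, vseq_apply hcv, X.src_mul, X.mul_rng]
  · simp only [stepV, ga_zero, gb_zero, vseq_apply hcv, X.rng_mul, X.mul_src]

theorem stepV_of_star (hcv : Function.Injective cv) (τ : B) (hτ : ∀ b : B, τ * b = b * τ)
    (X : LeavittFamily G B) (hX : ∀ v, star (X.p v) = X.p v) : stepV hcv τ hτ X = X := by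
  have hs : ∀ i, star (vseq cv X i) = vseq cv X i := by
    intro i
    by_cases h : ∃ v, cv v = i
    · obtain ⟨v, rfl⟩ := h
      rw [vseq_apply hcv, hX]
    · rw [vseq, Function.extend_apply' _ _ _ h]; simp
  have ha := fun i => ga_of_selfAdjoint (τ := τ) (vseq_orth hcv X) hs i
  have hb := fun i => gb_of_selfAdjoint (τ := τ) (vseq_orth hcv X) hs i
  ext v
  · simp only [stepV, ha, hb, vseq_apply hcv, X.p_mul_self]
  · simp only [stepV, ha, hb, vseq_apply hcv, X.src_mul, X.mul_rng]
  · simp only [stepV, ha, hb, vseq_apply hcv, X.rng_mul, X.mul_src]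

theorem stepV_one_star (hcv : Function.Injective cv) (hτ : ∀ b : B, (1 : B) * b = b * 1)
    (X : LeavittFamily G B) (v : G.V) :
    star ((stepV hcv 1 hτ X).p v) = (stepV hcv 1 hτ X).p v :=
  ga_gb_star (vseq_orth hcv X) (cv v)

/-! ### edges -/

open Classical in
/-- the sequence of the idempotents `s e * t e` for the edges `e` with source `v` -/
noncomputable def eseq (X : LeavittFamily G B) (v : G.V) : ℕ → B :=
  Function.extend ce (fun e => if G.src e = v then X.s e * X.t e else 0) 0

variable {ce}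

theorem eseq_apply (hce : Function.Injective ce) (X : LeavittFamily G B) (e : G.E) :
    eseq ce X (G.src e) (ce e) = X.s e * X.t e := by
  rw [eseq, hce.extend_apply, if_pos rfl]

theorem eseq_cases (hce : Function.Injective ce) (X : LeavittFamily G B) (v : G.V) (i : ℕ) :
    eseq ce X v i = 0 ∨ ∃ e, G.src e = v ∧ ce e = i ∧ eseq ce X v i = X.s e * X.t e := by
  classical
  by_cases h : ∃ e, ce e = i
  · obtain ⟨e, rfl⟩ := h
    by_cases hv : G.src e = v
    · right; exact ⟨e, hv, rfl, by rw [← hv, eseq_apply hce]⟩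
    · left; rw [eseq, hce.extend_apply, if_neg hv]
  · left; rw [eseq, Function.extend_apply' _ _ _ h]; rfl

theorem st_idem (X : LeavittFamily G B) (e : G.E) :
    X.s e * X.t e * (X.s e * X.t e) = X.s e * X.t e := by
  calc X.s e * X.t e * (X.s e * X.t e) = X.s e * (X.t e * X.s e) * X.t e := by noncomm_ring
    _ = _ := by rw [X.ghost_mul_self, X.mul_rng]

theorem st_orth (X : LeavittFamily G B) (e f : G.E) (h : e ≠ f) :
    X.s e * X.t e * (X.s f * X.t f) = 0 := by
  calc X.s e * X.t e * (X.s f * X.t f) = X.s e * (X.t e * X.s f) * X.t f := by noncomm_ring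
    _ = _ := by rw [X.ghost_mul_of_ne e f h]; simp

theorem eseq_orth (hce : Function.Injective ce) (X : LeavittFamily G B) (v : G.V) :
    OrthIdem (eseq ce X v) := by
  constructor
  · intro i
    rcases eseq_cases hce X v i with h | ⟨e, _, _, h⟩
    · rw [h, mul_zero]
    · rw [h, st_idem]
  · intro i j hij
    rcases eseq_cases hce X v i with h | ⟨e, _, he, h⟩
    · rw [h, zero_mul]
    rcases eseq_cases hce X v j with h' | ⟨f, _, hf, h'⟩
    · rw [h', mul_zero]
    · rw [h, h', st_orth]
      rintro rfl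
      exact hij (he.symm.trans hf)

theorem p_mul_eseq (hce : Function.Injective ce) (X : LeavittFamily G B) (v : G.V) (i : ℕ) :
    X.p v * eseq ce X v i = eseq ce X v i := by
  rcases eseq_cases hce X v i with h | ⟨e, he, _, h⟩
  · rw [h, mul_zero]
  · rw [h, ← mul_assoc, ← he, X.src_mul]

theorem eseq_mul_p (hce : Function.Injective ce) (X : LeavittFamily G B) (v : G.V) (i : ℕ) :
    eseq ce X v i * X.p v = eseq ce X v i := by
  rcases eseq_cases hce X v i with h | ⟨e, he, _, h⟩
  · rw [h, zero_mul]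
  · rw [h, mul_assoc, ← he, X.mul_src]

theorem p_mul_ga (hce : Function.Injective ce) (X : LeavittFamily G B)
    (hX : ∀ v, star (X.p v) = X.p v) (τ : B) (hτ : ∀ b : B, τ * b = b * τ) (v : G.V) (i : ℕ) :
    X.p v * ga τ (eseq ce X v) i = ga τ (eseq ce X v) i := by
  have h := (gs_commute (eseq_orth hce X v) hτ (X.p v) (hX v) (p_mul_eseq hce X v)
    (eseq_mul_p hce X v) (i + 1)).1
  rw [ga, ← mul_assoc, h, mul_assoc, p_mul_eseq hce]

theorem gb_mul_p (hce : Function.Injective ce) (X : LeavittFamily G B)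
    (hX : ∀ v, star (X.p v) = X.p v) (τ : B) (hτ : ∀ b : B, τ * b = b * τ) (v : G.V) (i : ℕ) :
    gb τ (eseq ce X v) i * X.p v = gb τ (eseq ce X v) i := by
  have h := (gs_commute (eseq_orth hce X v) hτ (X.p v) (hX v) (p_mul_eseq hce X v)
    (eseq_mul_p hce X v) (i + 1)).2
  rw [gb, mul_assoc, ← h, ← mul_assoc, eseq_mul_p hce]

/-- Straightening of the edge idempotents. -/
noncomputable def stepE (hce : Function.Injective ce) (τ : B) (hτ : ∀ b : B, τ * b = b * τ)
    (X : LeavittFamily G B) (hX : ∀ v, star (X.p v) = X.p v) : LeavittFamily G B where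
  p v := X.p v
  s e := ga τ (eseq ce X (G.src e)) (ce e) * X.s e
  t e := X.t e * gb τ (eseq ce X (G.src e)) (ce e)
  p_mul_self := X.p_mul_self
  p_mul_of_ne := X.p_mul_of_ne
  src_mul e := by rw [← mul_assoc, p_mul_ga hce X hX τ hτ]
  mul_rng e := by rw [mul_assoc, X.mul_rng]
  rng_mul e := by rw [← mul_assoc, X.rng_mul]
  mul_src e := by rw [mul_assoc, gb_mul_p hce X hX τ hτ]
  ghost_mul_self e := by
    have h1 := gb_ga_self (eseq_orth hce X (G.src e)) hτ (ce e)
    rw [eseq_apply hce] at h1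
    calc _ = X.t e * (gb τ (eseq ce X (G.src e)) (ce e) * ga τ (eseq ce X (G.src e)) (ce e))
          * X.s e := by noncomm_ring
      _ = (X.t e * X.s e) * (X.t e * X.s e) := by rw [h1]; noncomm_ring
      _ = _ := by rw [X.ghost_mul_self, X.p_mul_self]
  ghost_mul_of_ne e f hef := by
    by_cases hs : G.src e = G.src f
    · have h1 := gb_ga_ne (eseq_orth hce X (G.src e)) hτ (ce e) (ce f) fun h => hef (hce h)
      calc _ = X.t e * (gb τ (eseq ce X (G.src e)) (ce e) * ga τ (eseq ce X (G.src e)) (ce f))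
            * X.s f := by rw [← hs]; noncomm_ring
        _ = _ := by rw [h1]; simp
    · have h1 := gb_mul_p hce X hX τ hτ (G.src e) (ce e)
      have h2 := p_mul_ga hce X hX τ hτ (G.src f) (ce f)
      rw [← h1, ← h2]
      calc _ = X.t e * gb τ (eseq ce X (G.src e)) (ce e) * (X.p (G.src e) * X.p (G.src f))
            * (ga τ (eseq ce X (G.src f)) (ce f) * X.s f) := by noncomm_ring
        _ = _ := by rw [X.p_mul_of_ne _ _ hs]; simp
  sum_eq v S hS h := by
    have hR := eseq_orth hce X v
    have h1 : ∀ e ∈ S, ga τ (eseq ce X (G.src e)) (ce e) * X.s e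
        * (X.t e * gb τ (eseq ce X (G.src e)) (ce e))
        = ga τ (eseq ce X v) (ce e) * gb τ (eseq ce X v) (ce e) := by
      intro e he
      have hv := (h e).1 he
      have h2 := ga_mul (τ := τ) hR (ce e)
      have h3 := eseq_apply hce X e
      rw [hv] at h3 ⊢
      rw [h3] at h2
      calc _ = ga τ (eseq ce X v) (ce e) * (X.s e * X.t e) * gb τ (eseq ce X v) (ce e) := by
            noncomm_ring
        _ = _ := by rw [h2]
    rw [Finset.sum_congr rfl h1]
    have h4 : ∑ e ∈ S, ga τ (eseq ce X v) (ce e) * gb τ (eseq ce X v) (ce e)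
        = ∑ i ∈ S.map ⟨ce, hce⟩, ga τ (eseq ce X v) i * gb τ (eseq ce X v) i := by
      rw [Finset.sum_map]; rfl
    have h5 : ∑ i ∈ S.map ⟨ce, hce⟩, eseq ce X v i = X.p v := by
      rw [Finset.sum_map, ← X.sum_eq v S hS h]
      refine Finset.sum_congr rfl fun e he => ?_
      have hv := (h e).1 he
      rw [← hv]; exact eseq_apply hce X e
    have hb : ∃ m, ∀ i ∈ S.map ⟨ce, hce⟩, i < m := by
      refine ⟨(S.map ⟨ce, hce⟩).sup id + 1, fun i hi => ?_⟩
      exact Nat.lt_succ_of_le (Finset.le_sup (f := id) hi)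
    obtain ⟨m, hm⟩ := hb
    rw [h4, ga_gb_sum hR hτ _ m hm, h5]
    have h6 := (gs_commute hR hτ (X.p v) (hX v) (p_mul_eseq hce X v)
      (eseq_mul_p hce X v) m).1
    rw [← h6, mul_assoc, (gs_inv hR hτ m).1, mul_one]

theorem stepE_map {C : Type*} [CStarAlgebra C] (f : B →⋆ₐ[ℂ] C) (hce : Function.Injective ce)
    (τ : B) (hτ : ∀ b : B, τ * b = b * τ) (hτ' : ∀ b : C, f τ * b = b * f τ)
    (X : LeavittFamily G B) (hX : ∀ v, star (X.p v) = X.p v)
    (hX' : ∀ v, star ((X.map f).p v) = (X.map f).p v) :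
    (stepE hce τ hτ X hX).map f = stepE hce (f τ) hτ' (X.map f) hX' := by
  have hv : ∀ v, eseq ce (X.map f) v = fun i => f (eseq ce X v i) := by
    classical
    intro v
    funext i
    by_cases h : ∃ e, ce e = i
    · obtain ⟨e, rfl⟩ := h
      rw [eseq, eseq, hce.extend_apply, hce.extend_apply]
      split_ifs
      · simp
      · simp
    · rw [eseq, eseq, Function.extend_apply' _ _ _ h, Function.extend_apply' _ _ _ h]; simp
  have ha := fun v => ga_map f (eseq_orth hce X v) hτ
  have hb := fun v => gb_map f (eseq_orth hce X v) hτ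
  ext
  · rfl
  · simp only [map_s, stepE, hv, map_mul, ha]
  · simp only [map_t, stepE, hv, map_mul, hb]

theorem stepE_zero (hce : Function.Injective ce) (hτ : ∀ b : B, (0 : B) * b = b * 0)
    (X : LeavittFamily G B) (hX : ∀ v, star (X.p v) = X.p v) : stepE hce 0 hτ X hX = X := by
  ext e
  · rfl
  · simp only [stepE, ga_zero, eseq_apply hce, mul_assoc, X.ghost_mul_self, X.mul_rng]
  · simp only [stepE, gb_zero, eseq_apply hce, ← mul_assoc, X.ghost_mul_self, X.rng_mul]

theorem stepE_of_star (hce : Function.Injective ce) (τ : B) (hτ : ∀ b : B, τ * b = b * τ)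
    (X : LeavittFamily G B) (hX : ∀ v, star (X.p v) = X.p v)
    (hX2 : ∀ e, star (X.s e * X.t e) = X.s e * X.t e) : stepE hce τ hτ X hX = X := by
  have hs : ∀ v i, star (eseq ce X v i) = eseq ce X v i := by
    intro v i
    rcases eseq_cases hce X v i with h | ⟨e, _, _, h⟩
    · rw [h, star_zero]
    · rw [h, hX2]
  have ha := fun v i => ga_of_selfAdjoint (τ := τ) (eseq_orth hce X v) (hs v) i
  have hb := fun v i => gb_of_selfAdjoint (τ := τ) (eseq_orth hce X v) (hs v) i
  ext e
  · rfl
  · simp only [stepE, ha, eseq_apply hce, mul_assoc, X.ghost_mul_self, X.mul_rng]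
  · simp only [stepE, hb, eseq_apply hce, ← mul_assoc, X.ghost_mul_self, X.rng_mul]

theorem stepE_one_star (hce : Function.Injective ce) (hτ : ∀ b : B, (1 : B) * b = b * 1)
    (X : LeavittFamily G B) (hX : ∀ v, star (X.p v) = X.p v) (e : G.E) :
    star ((stepE hce 1 hτ X hX).s e * (stepE hce 1 hτ X hX).t e)
      = (stepE hce 1 hτ X hX).s e * (stepE hce 1 hτ X hX).t e := by
  have h2 := ga_mul (τ := (1 : B)) (eseq_orth hce X (G.src e)) (ce e)
  rw [eseq_apply hce] at h2
  have : (stepE hce 1 hτ X hX).s e * (stepE hce 1 hτ X hX).t e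
      = ga 1 (eseq ce X (G.src e)) (ce e) * gb 1 (eseq ce X (G.src e)) (ce e) := by
    show ga 1 (eseq ce X (G.src e)) (ce e) * X.s e * (X.t e * gb 1 (eseq ce X (G.src e)) (ce e))
      = _
    calc _ = ga 1 (eseq ce X (G.src e)) (ce e) * (X.s e * X.t e)
          * gb 1 (eseq ce X (G.src e)) (ce e) := by noncomm_ring
      _ = _ := by rw [h2]
  rw [this, ga_gb_star (eseq_orth hce X (G.src e))]

end LeavittFamily

end Pool.Agent.Helper665_GA
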